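import Pool.Agent.P.MP_cedf91_co.Defs

/-! Entrywise ordered matrices, nilpotent exponentials and triangular linear ODEs. -/

namespace Pool.Agent.P.MP_cedf91_co

open Finset

namespace EO

variable {L : Type}

scoped instance mPartialOrder : PartialOrder (Matrix L L ℝ) :=
  inferInstanceAs (PartialOrder (L → L → ℝ))

theorem le_def {A B : Matrix L L ℝ} : A ≤ B ↔ ∀ x y, A x y ≤ B x y := Iff.rfl

scoped instance mOrdAdd : IsOrderedAddMonoid (Matrix L L ℝ) :=
  inferInstanceAs (IsOrderedAddMonoid (L → L → ℝ))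

scoped instance mOrdRing [Fintype L] [DecidableEq L] : IsOrderedRing (Matrix L L ℝ) where
  zero_le_one := fun x y => by
    rw [Matrix.one_apply]; split_ifs <;> simp
  mul_le_mul_of_nonneg_left := fun {A} hA {B C} h x y => by
    simp only [Matrix.mul_apply]
    exact sum_le_sum fun z _ => mul_le_mul_of_nonneg_left (h z y) (hA x z)
  mul_le_mul_of_nonneg_right := fun {A} hA {B C} h x y => by
    simp only [Matrix.mul_apply]
    exact sum_le_sum fun z _ => mul_le_mul_of_nonneg_right (h x z) (hA z y)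

scoped instance mPosSMul : PosSMulMono ℝ (Matrix L L ℝ) where
  smul_le_smul_of_nonneg_left := fun {_} hc {_ _} h x y => mul_le_mul_of_nonneg_left (h x y) hc

scoped instance mSMulPos : SMulPosMono ℝ (Matrix L L ℝ) where
  smul_le_smul_of_nonneg_right := fun {_} hA {_ _} h x y => mul_le_mul_of_nonneg_right h (hA x y)

end EO

open EO

variable {L : Type} [Fintype L] [DecidableEq L]

/-- Strictly rank increasing matrices. -/
def Up (rk : L → ℕ) (A : Matrix L L ℝ) : Prop := ∀ x y, A x y ≠ 0 → rk x < rk y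

/-- Entrywise derivative. -/
def MDeriv (F : ℝ → Matrix L L ℝ) (F' : Matrix L L ℝ) (u : ℝ) : Prop :=
  ∀ x y, HasDerivAt (fun t => F t x y) (F' x y) u

omit [Fintype L] [DecidableEq L] in
theorem Up.zero (rk : L → ℕ) : Up rk (0 : Matrix L L ℝ) := fun _ _ h => absurd rfl h

omit [Fintype L] [DecidableEq L] in
theorem Up.smul {rk : L → ℕ} {A : Matrix L L ℝ} (h : Up rk A) (c : ℝ) : Up rk (c • A) :=
  fun x y hxy => h x y fun h0 => hxy (by simp [h0])

omit [Fintype L] [DecidableEq L] in
theorem Up.neg {rk : L → ℕ} {A : Matrix L L ℝ} (h : Up rk A) : Up rk (-A) :=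
  fun x y hxy => h x y fun h0 => hxy (by simp [h0])

theorem Up.pow_apply {rk : L → ℕ} {A : Matrix L L ℝ} (h : Up rk A) (n : ℕ) :
    ∀ x y, (A ^ n) x y ≠ 0 → rk x + n ≤ rk y := by
  induction n with
  | zero =>
    intro x y hxy
    rw [pow_zero, Matrix.one_apply] at hxy
    split_ifs at hxy with h1
    · simp [h1]
    · exact absurd rfl hxy
  | succ n ih =>
    intro x y hxy
    rw [pow_succ, Matrix.mul_apply] at hxy
    obtain ⟨z, -, hz⟩ := exists_ne_zero_of_sum_ne_zero hxy
    have h1 := ih x z (left_ne_zero_of_mul hz)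
    have h2 := h z y (right_ne_zero_of_mul hz)
    omega

theorem Up.pow_eq_zero {rk : L → ℕ} {A : Matrix L L ℝ} (h : Up rk A) {N : ℕ}
    (hN : ∀ x, rk x ≤ N) {n : ℕ} (hn : N < n) : A ^ n = 0 := by
  ext x y
  by_contra hxy
  have := h.pow_apply n x y hxy
  have := hN y
  omega

omit [DecidableEq L] in
theorem MDeriv.mul {F G : ℝ → Matrix L L ℝ} {F' G' : Matrix L L ℝ} {u : ℝ}
    (hF : MDeriv F F' u) (hG : MDeriv G G' u) :
    MDeriv (fun t => F t * G t) (F' * G u + F u * G') u := by
  intro x y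
  simp only [Matrix.mul_apply, Matrix.add_apply, ← sum_add_distrib]
  exact HasDerivAt.fun_sum fun z _ => (hF x z).mul (hG z y)

omit [Fintype L] [DecidableEq L] in
theorem MDeriv.const (A : Matrix L L ℝ) (u : ℝ) : MDeriv (fun _ => A) 0 u :=
  fun x y => hasDerivAt_const u (A x y)

omit [Fintype L] [DecidableEq L] in
theorem MDeriv.congr {F : ℝ → Matrix L L ℝ} {A B : Matrix L L ℝ} {u : ℝ} (h : MDeriv F A u)
    (e : A = B) : MDeriv F B u := e ▸ h

omit [Fintype L] [DecidableEq L] in
theorem MDeriv.comp_neg {F : ℝ → Matrix L L ℝ} {A : Matrix L L ℝ} {u : ℝ} (h : MDeriv F A (-u)) :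
    MDeriv (fun t => F (-t)) (-A) u := by
  intro x y
  have := (h x y).scomp u (hasDerivAt_neg u)
  simpa [Function.comp_def] using this

omit [Fintype L] [DecidableEq L] in
theorem MDeriv.sub {F G : ℝ → Matrix L L ℝ} {F' G' : Matrix L L ℝ} {u : ℝ}
    (hF : MDeriv F F' u) (hG : MDeriv G G' u) : MDeriv (fun t => F t - G t) (F' - G') u :=
  fun x y => (hF x y).sub (hG x y)

omit [DecidableEq L] in
/-- Comparison principle. -/
theorem ode_nonneg {rk : L → ℕ} {N : ℕ} (hN : ∀ x, rk x ≤ N) {B1 B2 D D' : ℝ → Matrix L L ℝ}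
    {b : ℝ} (h1 : ∀ u ∈ Set.Icc 0 b, Up rk (B1 u) ∧ 0 ≤ B1 u)
    (h2 : ∀ u ∈ Set.Icc 0 b, Up rk (B2 u) ∧ 0 ≤ B2 u)
    (hD : ∀ u ∈ Set.Icc 0 b, MDeriv D (D' u) u ∧ B1 u * D u + D u * B2 u ≤ D' u)
    (h0 : 0 ≤ D 0) : ∀ u ∈ Set.Icc 0 b, 0 ≤ D u := by
  have key : ∀ n x y, rk y + (N - rk x) = n → ∀ u ∈ Set.Icc 0 b, 0 ≤ D u x y := by
    intro n
    induction n using Nat.strong_induction_on with
    | _ n ih =>
      intro x y hn u hu
      have hpos : ∀ v ∈ Set.Icc 0 b, 0 ≤ D' v x y := by
        intro v hv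
        refine le_trans ?_ ((hD v hv).2 x y)
        simp only [Matrix.add_apply, Matrix.mul_apply]
        refine add_nonneg (sum_nonneg fun z _ => ?_) (sum_nonneg fun z _ => ?_)
        · by_cases hz : B1 v x z = 0
          · simp [hz]
          · have := (h1 v hv).1 x z hz
            have := hN z
            exact mul_nonneg ((h1 v hv).2 x z) (ih _ (by omega) z y rfl v hv)
        · by_cases hz : B2 v z y = 0
          · simp [hz]
          · have := (h2 v hv).1 z y hz
            exact mul_nonneg (ih _ (by omega) x z rfl v hv) ((h2 v hv).2 z y)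
      have hm : MonotoneOn (fun t => D t x y) (Set.Icc 0 b) := by
        refine monotoneOn_of_deriv_nonneg (convex_Icc 0 b)
          (fun v hv => ((hD v hv).1 x y).continuousAt.continuousWithinAt)
          (fun v hv => ((hD v (interior_subset hv)).1 x y).differentiableAt.differentiableWithinAt)
          fun v hv => ?_
        rw [((hD v (interior_subset hv)).1 x y).deriv]
        exact hpos v (interior_subset hv)
      exact le_trans (h0 x y) (hm ⟨le_rfl, hu.1.trans hu.2⟩ hu hu.1)
  exact fun u hu x y => key _ x y rfl u hu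

theorem ode_le {rk : L → ℕ} {N : ℕ} (hN : ∀ x, rk x ≤ N) {B1 B2 F F' H H' : ℝ → Matrix L L ℝ}
    {b : ℝ} (h1 : ∀ u ∈ Set.Icc 0 b, Up rk (B1 u) ∧ 0 ≤ B1 u)
    (h2 : ∀ u ∈ Set.Icc 0 b, Up rk (B2 u) ∧ 0 ≤ B2 u)
    (hF : ∀ u ∈ Set.Icc 0 b, MDeriv F (F' u) u ∧ F' u ≤ B1 u * F u + F u * B2 u)
    (hH : ∀ u ∈ Set.Icc 0 b, MDeriv H (H' u) u ∧ B1 u * H u + H u * B2 u ≤ H' u)
    (h0 : F 0 ≤ H 0) : ∀ u ∈ Set.Icc 0 b, F u ≤ H u := by
  intro u hu
  have := ode_nonneg hN (D := fun t => H t - F t) (D' := fun t => H' t - F' t) h1 h2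
    (fun v hv => ⟨(hH v hv).1.sub (hF v hv).1, by
      have := sub_le_sub (hH v hv).2 (hF v hv).2
      refine le_trans (le_of_eq ?_) this
      noncomm_ring⟩) (sub_nonneg.2 h0) u hu
  exact sub_nonneg.1 this

omit [DecidableEq L] in
theorem ode_unique {rk : L → ℕ} {N : ℕ} (hN : ∀ x, rk x ≤ N) {B1 B2 F H : ℝ → Matrix L L ℝ}
    (h1 : ∀ u, Up rk (B1 u)) (h2 : ∀ u, Up rk (B2 u))
    (hF : ∀ u, MDeriv F (B1 u * F u + F u * B2 u) u)
    (hH : ∀ u, MDeriv H (B1 u * H u + H u * B2 u) u) {u0 : ℝ} (h0 : F u0 = H u0) (u : ℝ) :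
    F u = H u := by
  have key : ∀ n x y, rk y + (N - rk x) = n → ∀ u, F u x y = H u x y := by
    intro n
    induction n using Nat.strong_induction_on with
    | _ n ih =>
      intro x y hn u
      have hd : ∀ v, HasDerivAt (fun t => F t x y - H t x y) 0 v := by
        intro v
        refine ((hF v x y).fun_sub (hH v x y)).congr_deriv ?_
        rw [sub_eq_zero]
        simp only [Matrix.add_apply, Matrix.mul_apply]
        congr 1
        · refine sum_congr rfl fun z _ => ?_
          by_cases hz : B1 v x z = 0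
          · simp [hz]
          · have := h1 v x z hz
            have := hN z
            rw [ih _ (by omega) z y rfl v]
        · refine sum_congr rfl fun z _ => ?_
          by_cases hz : B2 v z y = 0
          · simp [hz]
          · have := h2 v z y hz
            rw [ih _ (by omega) x z rfl v]
      have := is_const_of_deriv_eq_zero (fun v => (hd v).differentiableAt)
        (fun v => (hd v).deriv) u u0
      rw [h0] at this
      linarith
  ext x y
  exact key _ x y rfl u

theorem ode_exists {rk : L → ℕ} {N : ℕ} (hN : ∀ x, rk x ≤ N) {B1 B2 : ℝ → Matrix L L ℝ}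
    (h1 : ∀ u, Up rk (B1 u)) (h2 : ∀ u, Up rk (B2 u))
    (c1 : ∀ x y, Continuous fun u => B1 u x y) (c2 : ∀ x y, Continuous fun u => B2 u x y) :
    ∃ F : ℝ → Matrix L L ℝ, F 0 = 1 ∧ ∀ u, MDeriv F (B1 u * F u + F u * B2 u) u := by
  have key : ∀ n : ℕ, ∃ F : ℝ → Matrix L L ℝ, F 0 = 1 ∧ (∀ x y, Continuous fun u => F u x y) ∧
      ∀ x y, rk y + (N - rk x) < n → ∀ u,
        HasDerivAt (fun t => F t x y) ((B1 u * F u + F u * B2 u) x y) u := by
    intro n
    induction n with
    | zero => exact ⟨fun _ => 1, rfl, fun _ _ => continuous_const, fun _ _ h => absurd h (by omega)⟩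
    | succ n ih =>
      obtain ⟨F, hF0, hFc, hF⟩ := ih
      have hc : ∀ x y, Continuous fun u => (B1 u * F u + F u * B2 u) x y := by
        intro x y
        simp only [Matrix.add_apply, Matrix.mul_apply]
        fun_prop
      let G : ℝ → Matrix L L ℝ := fun u x y =>
        (1 : Matrix L L ℝ) x y + ∫ t in (0 : ℝ)..u, (B1 t * F t + F t * B2 t) x y
      have hG : ∀ x y u, HasDerivAt (fun t => G t x y) ((B1 u * F u + F u * B2 u) x y) u :=
        fun x y u => ((hc x y).deriv_integral _ 0 u ▸ ((intervalIntegral.integral_hasDerivAt_right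
          ((hc x y).intervalIntegrable _ _) (hc x y).aestronglyMeasurable.stronglyMeasurableAtFilter
          (hc x y).continuousAt).differentiableAt.hasDerivAt)).const_add _
      have hG0 : G 0 = 1 := by ext x y; simp [G]
      have heq : ∀ x y, rk y + (N - rk x) < n → ∀ u, G u x y = F u x y := by
        intro x y h u
        have hd : ∀ v, HasDerivAt (fun t => G t x y - F t x y) 0 v := fun v =>
          ((hG x y v).fun_sub (hF x y h v)).congr_deriv (sub_self _)
        have := is_const_of_deriv_eq_zero (fun v => (hd v).differentiableAt)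
          (fun v => (hd v).deriv) u 0
        rw [hG0, hF0] at this
        linarith
      refine ⟨G, hG0, fun x y => continuous_iff_continuousAt.2 fun u => (hG x y u).continuousAt,
        fun x y h u => ?_⟩
      refine (hG x y u).congr_deriv (Eq.symm ?_)
      simp only [Matrix.add_apply, Matrix.mul_apply]
      congr 1
      · refine sum_congr rfl fun z _ => ?_
        by_cases hz : B1 u x z = 0
        · simp [hz]
        · have := h1 u x z hz
          have := hN z
          rw [heq z y (by omega)]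
      · refine sum_congr rfl fun z _ => ?_
        by_cases hz : B2 u z y = 0
        · simp [hz]
        · have := h2 u z y hz
          rw [heq x z (by omega)]
  obtain ⟨F, h0, -, hF⟩ := key (2 * N + 1)
  exact ⟨F, h0, fun u x y => hF x y (by have := hN y; omega) u⟩

/-- Truncated exponential. -/
noncomputable def ex (N : ℕ) (A : Matrix L L ℝ) : Matrix L L ℝ :=
  ∑ i ∈ range (N + 1), ((i.factorial : ℝ)⁻¹) • A ^ i

theorem ex_nonneg (N : ℕ) {A : Matrix L L ℝ} (hA : 0 ≤ A) : 0 ≤ ex N A :=
  sum_nonneg fun _ _ => smul_nonneg (by positivity) (pow_nonneg hA _)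

theorem ex_mono (N : ℕ) {A B : Matrix L L ℝ} (hA : 0 ≤ A) (h : A ≤ B) : ex N A ≤ ex N B :=
  sum_le_sum fun _ _ => smul_le_smul_of_nonneg_left (pow_le_pow_left₀ hA h _) (by positivity)

theorem ex_zero (N : ℕ) : ex N (0 : Matrix L L ℝ) = 1 := by
  simp [ex, sum_range_succ']

theorem ex_comm (N : ℕ) (c : ℝ) (A : Matrix L L ℝ) : A * ex N (c • A) = ex N (c • A) * A := by
  simp only [ex, mul_sum, sum_mul, smul_pow, Matrix.mul_smul, Matrix.smul_mul, ← pow_succ,
    ← pow_succ']

theorem ex_deriv {rk : L → ℕ} {N : ℕ} (hN : ∀ x, rk x ≤ N) {A : Matrix L L ℝ} (hA : Up rk A)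
    (c u : ℝ) : MDeriv (fun t => ex N ((c * t) • A)) (c • (ex N ((c * u) • A) * A)) u := by
  intro x y
  have h1 : HasDerivAt (fun t => ex N ((c * t) • A) x y)
      (∑ i ∈ range (N + 1), ((i.factorial : ℝ)⁻¹) * ((i * (c * u) ^ (i - 1) * c) * (A ^ i) x y))
      u := by
    simp only [ex, smul_pow, Matrix.sum_apply, Matrix.smul_apply, smul_eq_mul]
    refine HasDerivAt.fun_sum fun i _ => HasDerivAt.const_mul _ (HasDerivAt.mul_const ?_ _)
    simpa using ((hasDerivAt_id u).const_mul c).fun_pow i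
  refine h1.congr_deriv (Eq.symm ?_)
  rw [sum_range_succ']
  simp only [ex, smul_pow, sum_mul, Matrix.smul_mul, ← pow_succ, Matrix.smul_apply,
    Matrix.sum_apply, smul_eq_mul]
  rw [sum_range_succ, hA.pow_eq_zero hN (Nat.lt_succ_self N)]
  simp only [Matrix.zero_apply, mul_zero, add_zero, Nat.cast_zero, zero_mul]
  rw [mul_sum]
  refine sum_congr rfl fun i _ => ?_
  rw [Nat.factorial_succ]
  simp only [Nat.add_sub_cancel]
  push_cast
  field_simp

end Pool.Agent.P.MP_cedf91_co
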