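import Pool.Agent.P.MP_cedf91_co.An0

/-! The functions `om`, `E`, `Gb`, `w`, `W`. -/

namespace Pool.Agent.P.MP_cedf91_co

open Finset EO

variable {L : Type} [Fintype L] [DecidableEq L]

/-- Support condition: rank jumps `k + 2 m`. -/
def Par (rk : L → ℕ) (k : ℕ) (A : Matrix L L ℝ) : Prop :=
  ∀ x y, A x y ≠ 0 → ∃ m, rk y = rk x + k + 2 * m

/-- Homogenisation. -/
def hom (rk : L → ℕ) (k : ℕ) (s : ℝ) (A : Matrix L L ℝ) : Matrix L L ℝ :=
  fun x y => A x y * s ^ ((rk y - rk x - k) / 2)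

/-- Derivative of the homogenisation. -/
def dhom (rk : L → ℕ) (k : ℕ) (s : ℝ) (A : Matrix L L ℝ) : Matrix L L ℝ :=
  fun x y => A x y * ((((rk y - rk x - k) / 2 : ℕ) : ℝ) * s ^ ((rk y - rk x - k) / 2 - 1))

omit [DecidableEq L] in
theorem Par.mul {rk : L → ℕ} {a b : ℕ} {A B : Matrix L L ℝ} (hA : Par rk a A) (hB : Par rk b B) :
    Par rk (a + b) (A * B) := by
  intro x y h
  rw [Matrix.mul_apply] at h
  obtain ⟨z, -, hz⟩ := exists_ne_zero_of_sum_ne_zero h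
  obtain ⟨m, hm⟩ := hA x z (left_ne_zero_of_mul hz)
  obtain ⟨m', hm'⟩ := hB z y (right_ne_zero_of_mul hz)
  exact ⟨m + m', by omega⟩

omit [DecidableEq L] in
theorem hom_mul {rk : L → ℕ} {a b : ℕ} {A B : Matrix L L ℝ} (hA : Par rk a A) (hB : Par rk b B)
    (s : ℝ) : hom rk a s A * hom rk b s B = hom rk (a + b) s (A * B) := by
  ext x y
  simp only [hom, Matrix.mul_apply, sum_mul]
  refine sum_congr rfl fun z _ => ?_
  by_cases h1 : A x z = 0
  · simp [h1]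
  by_cases h2 : B z y = 0
  · simp [h2]
  obtain ⟨m, hm⟩ := hA x z h1
  obtain ⟨m', hm'⟩ := hB z y h2
  have e1 : (rk z - rk x - a) / 2 = m := by omega
  have e2 : (rk y - rk z - b) / 2 = m' := by omega
  have e3 : (rk y - rk x - (a + b)) / 2 = m + m' := by omega
  rw [e1, e2, e3, pow_add]
  ring

/-- The data of the analytic part. -/
structure Sys (L : Type) where
  rk : L → ℕ
  N : ℕ
  hN : ∀ x, rk x ≤ N
  o : Matrix L L ℝ
  o_nonneg : ∀ x y, 0 ≤ o x y
  o_par : Par rk 1 o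

namespace Sys

variable (S : Sys L)

/-- The matrix `ω(s)`. -/
def om (s : ℝ) : Matrix L L ℝ := hom S.rk 1 s S.o

omit [Fintype L] [DecidableEq L] in
theorem om_up (s : ℝ) : Up S.rk (S.om s) := by
  intro x y h
  obtain ⟨m, hm⟩ := S.o_par x y (left_ne_zero_of_mul h)
  omega

omit [Fintype L] [DecidableEq L] in
theorem om_nonneg {s : ℝ} (hs : 0 ≤ s) : 0 ≤ S.om s :=
  fun x y => mul_nonneg (S.o_nonneg x y) (pow_nonneg hs _)

omit [Fintype L] [DecidableEq L] in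
theorem om_mono {s t : ℝ} (hs : 0 ≤ s) (h : s ≤ t) : S.om s ≤ S.om t :=
  fun x y => mul_le_mul_of_nonneg_left (pow_le_pow_left₀ hs h _) (S.o_nonneg x y)

omit [Fintype L] [DecidableEq L] in
theorem om_cont (c : ℝ) (x y : L) : Continuous fun u : ℝ => S.om (c + u ^ 2) x y := by
  simp only [om, hom]
  fun_prop

theorem exE (c : ℝ) : ∃ F : ℝ → Matrix L L ℝ, F 0 = 1 ∧
    ∀ u, MDeriv F (F u * S.om (c + u ^ 2)) u := by
  obtain ⟨F, h0, hF⟩ := ode_exists S.hN (B1 := fun _ => 0) (B2 := fun u => S.om (c + u ^ 2))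
    (fun _ => Up.zero _) (fun _ => S.om_up _) (fun _ _ => continuous_const) (S.om_cont c)
  exact ⟨F, h0, fun u => (hF u).congr (by simp)⟩

theorem exG (c : ℝ) : ∃ F : ℝ → Matrix L L ℝ, F 0 = 1 ∧
    ∀ u, MDeriv F (S.om (c + u ^ 2) * F u) u := by
  obtain ⟨F, h0, hF⟩ := ode_exists S.hN (B2 := fun _ => 0) (B1 := fun u => S.om (c + u ^ 2))
    (fun _ => S.om_up _) (fun _ => Up.zero _) (S.om_cont c) (fun _ _ => continuous_const)
  exact ⟨F, h0, fun u => (hF u).congr (by simp)⟩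

/-- Right fundamental solution. -/
noncomputable def E (c : ℝ) : ℝ → Matrix L L ℝ := (S.exE c).choose

/-- Left fundamental solution. -/
noncomputable def Gb (c : ℝ) : ℝ → Matrix L L ℝ := (S.exG c).choose

theorem E_zero (c : ℝ) : S.E c 0 = 1 := (S.exE c).choose_spec.1
theorem Gb_zero (c : ℝ) : S.Gb c 0 = 1 := (S.exG c).choose_spec.1
theorem E_deriv (c u : ℝ) : MDeriv (S.E c) (S.E c u * S.om (c + u ^ 2)) u :=
  (S.exE c).choose_spec.2 u
theorem Gb_deriv (c u : ℝ) : MDeriv (S.Gb c) (S.om (c + u ^ 2) * S.Gb c u) u :=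
  (S.exG c).choose_spec.2 u

theorem uniq_right {c : ℝ} {F H : ℝ → Matrix L L ℝ}
    (hF : ∀ u, MDeriv F (F u * S.om (c + u ^ 2)) u)
    (hH : ∀ u, MDeriv H (H u * S.om (c + u ^ 2)) u) {u0 : ℝ} (h0 : F u0 = H u0) (u : ℝ) :
    F u = H u :=
  ode_unique S.hN (B1 := fun _ => 0) (B2 := fun u => S.om (c + u ^ 2))
    (fun _ => Up.zero _) (fun _ => S.om_up _) (fun u => (hF u).congr (by simp))
    (fun u => (hH u).congr (by simp)) h0 u

theorem uniq_left {c : ℝ} {F H : ℝ → Matrix L L ℝ}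
    (hF : ∀ u, MDeriv F (S.om (c + u ^ 2) * F u) u)
    (hH : ∀ u, MDeriv H (S.om (c + u ^ 2) * H u) u) {u0 : ℝ} (h0 : F u0 = H u0) (u : ℝ) :
    F u = H u :=
  ode_unique S.hN (B2 := fun _ => 0) (B1 := fun u => S.om (c + u ^ 2))
    (fun _ => S.om_up _) (fun _ => Up.zero _) (fun u => (hF u).congr (by simp))
    (fun u => (hH u).congr (by simp)) h0 u

theorem Gb_mul_E_neg (c u : ℝ) : S.Gb c u * S.E c (-u) = 1 := by
  refine ode_unique S.hN (B1 := fun u => S.om (c + u ^ 2)) (B2 := fun u => -S.om (c + u ^ 2))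
    (F := fun u => S.Gb c u * S.E c (-u)) (H := fun _ => 1)
    (fun _ => S.om_up _) (fun _ => (S.om_up _).neg) (fun u => ?_) (fun u => ?_) (u0 := 0) ?_ u
  · refine ((S.Gb_deriv c u).mul (S.E_deriv c (-u)).comp_neg).congr ?_
    rw [neg_sq]
    noncomm_ring
  · exact (MDeriv.const _ _).congr (by simp)
  · simp [S.E_zero, S.Gb_zero]

theorem ex_le_E {c u : ℝ} (hc : 0 ≤ c) (hu : 0 ≤ u) : ex S.N (u • S.om c) ≤ S.E c u := by
  have := ode_le S.hN (B1 := fun _ => 0) (B2 := fun u => S.om (c + u ^ 2))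
    (F := fun t => ex S.N ((1 * t) • S.om c))
    (F' := fun t => (1 : ℝ) • (ex S.N ((1 * t) • S.om c) * S.om c))
    (H := S.E c) (H' := fun t => S.E c t * S.om (c + t ^ 2)) (b := u)
    (fun _ _ => ⟨Up.zero _, le_rfl⟩) (fun _ _ => ⟨S.om_up _, S.om_nonneg (by positivity)⟩)
    (fun v hv => ⟨ex_deriv S.hN (S.om_up c) 1 v, by
      simp only [one_smul, zero_mul, zero_add, one_mul]
      exact mul_le_mul_of_nonneg_left (S.om_mono hc (by nlinarith [sq_nonneg v]))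
        (ex_nonneg _ (smul_nonneg hv.1 (S.om_nonneg hc)))⟩)
    (fun v _ => ⟨S.E_deriv c v, by simp⟩) (by simp [ex_zero, S.E_zero]) u ⟨hu, le_rfl⟩
  simpa using this

theorem ex_le_Gb {c u : ℝ} (hc : 0 ≤ c) (hu : 0 ≤ u) : ex S.N (u • S.om c) ≤ S.Gb c u := by
  have := ode_le S.hN (B2 := fun _ => 0) (B1 := fun u => S.om (c + u ^ 2))
    (F := fun t => ex S.N ((1 * t) • S.om c))
    (F' := fun t => (1 : ℝ) • (ex S.N ((1 * t) • S.om c) * S.om c))
    (H := S.Gb c) (H' := fun t => S.om (c + t ^ 2) * S.Gb c t) (b := u)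
    (fun _ _ => ⟨S.om_up _, S.om_nonneg (by positivity)⟩) (fun _ _ => ⟨Up.zero _, le_rfl⟩)
    (fun v hv => ⟨ex_deriv S.hN (S.om_up c) 1 v, by
      simp only [one_smul, mul_zero, add_zero, one_mul, ← ex_comm]
      exact mul_le_mul_of_nonneg_right (S.om_mono hc (by nlinarith [sq_nonneg v]))
        (ex_nonneg _ (smul_nonneg hv.1 (S.om_nonneg hc)))⟩)
    (fun v _ => ⟨S.Gb_deriv c v, by simp⟩) (by simp [ex_zero, S.Gb_zero]) u ⟨hu, le_rfl⟩
  simpa using this

theorem one_le_ex {A : Matrix L L ℝ} (N : ℕ) (hA : 0 ≤ A) : 1 ≤ ex N A := by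
  rw [← ex_zero N]
  exact ex_mono N le_rfl hA

theorem one_le_E {c u : ℝ} (hc : 0 ≤ c) (hu : 0 ≤ u) : 1 ≤ S.E c u :=
  (one_le_ex _ (smul_nonneg hu (S.om_nonneg hc))).trans (S.ex_le_E hc hu)

theorem E_nonneg {c u : ℝ} (hc : 0 ≤ c) (hu : 0 ≤ u) : 0 ≤ S.E c u :=
  zero_le_one.trans (S.one_le_E hc hu)

theorem Gb_nonneg {c u : ℝ} (hc : 0 ≤ c) (hu : 0 ≤ u) : 0 ≤ S.Gb c u :=
  (ex_nonneg _ (smul_nonneg hu (S.om_nonneg hc))).trans (S.ex_le_Gb hc hu)

theorem E_mvt (c : ℝ) {a b : ℝ} (hab : a < b) (x y : L) : ∃ t ∈ Set.Ioo a b,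
    S.E c b x y - S.E c a x y = (b - a) * (S.E c t * S.om (c + t ^ 2)) x y := by
  obtain ⟨t, ht, h⟩ := exists_hasDerivAt_eq_slope (fun u => S.E c u x y)
    (fun u => (S.E c u * S.om (c + u ^ 2)) x y) hab
    (fun u _ => (S.E_deriv c u x y).continuousAt.continuousWithinAt)
    (fun u _ => S.E_deriv c u x y)
  refine ⟨t, ht, ?_⟩
  have : b - a ≠ 0 := by linarith
  rw [h]
  field_simp

theorem E_mono {c a b : ℝ} (hc : 0 ≤ c) (ha : 0 ≤ a) (hab : a ≤ b) : S.E c a ≤ S.E c b := by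
  rcases hab.eq_or_lt with rfl | hab
  · exact le_rfl
  intro x y
  obtain ⟨t, ht, h⟩ := S.E_mvt c hab x y
  have h1 : 0 ≤ (S.E c t * S.om (c + t ^ 2)) x y :=
    mul_nonneg (S.E_nonneg hc (ha.trans ht.1.le)) (S.om_nonneg (s := c + t ^ 2) (by positivity)) x y
  nlinarith

theorem E_le_split {c a b : ℝ} (hc : 0 ≤ c) (ha : 0 ≤ a) (hab : a ≤ b) :
    S.E c b ≤ S.E c a + (b - a) • (S.E c b * S.om (c + b ^ 2)) := by
  rcases hab.eq_or_lt with rfl | hab
  · simp
  intro x y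
  obtain ⟨t, ht, h⟩ := S.E_mvt c hab x y
  have ht0 : 0 ≤ t := ha.trans ht.1.le
  have h1 : S.E c t * S.om (c + t ^ 2) ≤ S.E c b * S.om (c + b ^ 2) :=
    mul_le_mul (S.E_mono hc ht0 ht.2.le) (S.om_mono (by positivity) (by nlinarith [ht.2]))
      (S.om_nonneg (by positivity)) (S.E_nonneg hc (ht0.trans ht.2.le))
  have := mul_le_mul_of_nonneg_left (h1 x y) (sub_nonneg.2 hab.le)
  simp only [Matrix.add_apply, Matrix.smul_apply, smul_eq_mul]
  linarith

theorem E_ge_split {c a b : ℝ} (hc : 0 ≤ c) (ha : 0 ≤ a) (hab : a ≤ b) :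
    1 + (b - a) • S.om (c + a ^ 2) ≤ S.E c b := by
  rcases hab.eq_or_lt with rfl | hab
  · simpa using S.one_le_E hc ha
  intro x y
  obtain ⟨t, ht, h⟩ := S.E_mvt c hab x y
  have ht0 : 0 ≤ t := ha.trans ht.1.le
  have h1 : 1 * S.om (c + a ^ 2) ≤ S.E c t * S.om (c + t ^ 2) :=
    mul_le_mul (S.one_le_E hc ht0) (S.om_mono (by positivity) (by nlinarith [ht.1]))
      (S.om_nonneg (by positivity)) (S.E_nonneg hc ht0)
  rw [one_mul] at h1
  have := mul_le_mul_of_nonneg_left (h1 x y) (sub_nonneg.2 hab.le)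
  have h2 := S.one_le_E hc ha x y
  simp only [Matrix.add_apply, Matrix.smul_apply, smul_eq_mul]
  linarith

/-- Coefficients of `W(v;1)`. -/
noncomputable def wh : ℕ → Matrix L L ℝ
  | 0 => 1
  | 1 => (2 : ℝ) • S.o
  | k + 2 => fun x y => ((k : ℝ) + 2)⁻¹ * ((S.o * wh (k + 1) + wh (k + 1) * S.o) x y -
      ((S.rk y : ℝ) - S.rk x - k) * wh k x y)

theorem wh_par (k : ℕ) : Par S.rk k (S.wh k) := by
  induction k using Nat.twoStepInduction with
  | zero =>
    intro x y h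
    rw [wh, Matrix.one_apply] at h
    split_ifs at h with h1
    · exact ⟨0, by simp [h1]⟩
    · exact absurd rfl h
  | one => exact fun x y h => S.o_par x y fun h0 => h (by simp [wh, h0])
  | more k h0 h1 =>
    intro x y h
    simp only [wh] at h
    by_cases e1 : (S.o * S.wh (k + 1)) x y = 0
    · by_cases e2 : (S.wh (k + 1) * S.o) x y = 0
      · have h' := right_ne_zero_of_mul h
        rw [Matrix.add_apply, e1, e2, add_zero, zero_sub, neg_ne_zero] at h'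
        obtain ⟨m, hm⟩ := h0 x y (right_ne_zero_of_mul h')
        have h2 := left_ne_zero_of_mul h'
        have : m ≠ 0 := by
          rintro rfl
          apply h2
          rw [hm]
          push_cast
          ring
        exact ⟨m - 1, by omega⟩
      · obtain ⟨m, hm⟩ := h1.mul S.o_par x y e2
        exact ⟨m, by omega⟩
    · obtain ⟨m, hm⟩ := S.o_par.mul h1 x y e1
      exact ⟨m, by omega⟩

theorem wh_eq_zero {k : ℕ} (hk : S.N < k) : S.wh k = 0 := by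
  ext x y
  by_contra h
  obtain ⟨m, hm⟩ := S.wh_par k x y h
  have := S.hN y
  omega

/-- The coefficients `w_k(s)`. -/
noncomputable def w (k : ℕ) (s : ℝ) : Matrix L L ℝ := hom S.rk k s (S.wh k)

/-- Their derivatives. -/
noncomputable def dw (k : ℕ) (s : ℝ) : Matrix L L ℝ := dhom S.rk k s (S.wh k)

theorem w_eq_zero {k : ℕ} (hk : S.N < k) (s : ℝ) : S.w k s = 0 := by
  ext x y; simp [w, hom, S.wh_eq_zero hk]

theorem dw_eq_zero {k : ℕ} (hk : S.N < k) (s : ℝ) : S.dw k s = 0 := by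
  ext x y; simp [dw, dhom, S.wh_eq_zero hk]

theorem w_zero (s : ℝ) : S.w 0 s = 1 := by
  ext x y
  simp only [w, hom, wh, Matrix.one_apply]
  split_ifs with h <;> simp [h]

theorem w_one (s : ℝ) : S.w 1 s = (2 : ℝ) • S.om s := by
  ext x y
  simp [w, hom, wh, om, mul_assoc]

theorem w_rec (k : ℕ) (s : ℝ) : ((k : ℝ) + 2) • S.w (k + 2) s =
    S.om s * S.w (k + 1) s + S.w (k + 1) s * S.om s - (2 : ℝ) • S.dw k s := by
  rw [om, w, w, hom_mul S.o_par (S.wh_par _), hom_mul (S.wh_par _) S.o_par]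
  ext x y
  have hk : (k : ℝ) + 2 ≠ 0 := by positivity
  have e : 1 + (k + 1) = k + 2 := by ring
  simp only [hom, wh, dw, dhom, Matrix.smul_apply, smul_eq_mul, Matrix.sub_apply, Matrix.add_apply,
    e]
  have key : ((S.rk y : ℝ) - S.rk x - k) * S.wh k x y * s ^ ((S.rk y - S.rk x - (k + 2)) / 2) =
      2 * (S.wh k x y * ((((S.rk y - S.rk x - k) / 2 : ℕ) : ℝ) *
        s ^ ((S.rk y - S.rk x - k) / 2 - 1))) := by
    by_cases h : S.wh k x y = 0
    · simp [h]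
    obtain ⟨m, hm⟩ := S.wh_par k x y h
    have e1 : (S.rk y - S.rk x - k) / 2 = m := by omega
    have e2 : (S.rk y - S.rk x - (k + 2)) / 2 = m - 1 := by omega
    rw [e1, e2, hm]
    push_cast
    ring
  rw [← key]
  field_simp

theorem s_mul_dw (k : ℕ) (s : ℝ) (x y : L) :
    2 * s * S.dw k s x y = ((S.rk y : ℝ) - S.rk x - k) * S.w k s x y := by
  simp only [dw, dhom, w, hom]
  by_cases h : S.wh k x y = 0
  · simp [h]
  obtain ⟨m, hm⟩ := S.wh_par k x y h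
  have e1 : (S.rk y - S.rk x - k) / 2 = m := by omega
  rw [e1, hm]
  push_cast
  cases m with
  | zero => simp
  | succ m => simp only [Nat.add_sub_cancel]; push_cast; ring

/-- The two-variable function `W(v;s)`. -/
noncomputable def W (v s : ℝ) : Matrix L L ℝ := ∑ k ∈ range (S.N + 1), v ^ k • S.w k s

theorem W_deriv (c v : ℝ) : MDeriv (fun t => S.W t (c + t ^ 2))
    (S.om (c + v ^ 2) * S.W v (c + v ^ 2) + S.W v (c + v ^ 2) * S.om (c + v ^ 2)) v := by
  have hW : ∀ t s, S.W t s = ∑ k ∈ range (S.N + 1 + 1 + 1), t ^ k • S.w k s := by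
    intro t s
    rw [sum_range_succ, sum_range_succ, S.w_eq_zero (by omega), S.w_eq_zero (by omega)]
    simp [W]
  set s := c + v ^ 2 with hs
  have h1 : MDeriv (fun t => S.W t (c + t ^ 2)) (∑ k ∈ range (S.N + 1 + 1 + 1),
      (((k : ℝ) * v ^ (k - 1)) • S.w k s + (2 * v ^ (k + 1)) • S.dw k s)) v := by
    intro x y
    simp only [hW, Matrix.sum_apply, Matrix.smul_apply, smul_eq_mul, Matrix.add_apply, w, hom,
      dw, dhom]
    refine HasDerivAt.fun_sum fun k _ => ?_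
    have a1 := hasDerivAt_pow k v
    have a2 := (((hasDerivAt_pow 2 v).const_add c).fun_pow ((S.rk y - S.rk x - k) / 2)).const_mul
      (S.wh k x y)
    refine (a1.fun_mul a2).congr_deriv ?_
    simp only [← hs]
    push_cast
    ring
  refine h1.congr ?_
  rw [hW, sum_add_distrib, sum_range_succ' (fun k => ((k : ℝ) * v ^ (k - 1)) • S.w k s),
    sum_range_succ' (fun k => (((k + 1 : ℕ) : ℝ) * v ^ (k + 1 - 1)) • S.w (k + 1) s),
    sum_range_succ (fun k => (2 * v ^ (k + 1)) • S.dw k s),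
    sum_range_succ (fun k => (2 * v ^ (k + 1)) • S.dw k s),
    S.dw_eq_zero (by omega), S.dw_eq_zero (by omega), mul_sum, sum_mul, ← sum_add_distrib,
    sum_range_succ (fun k => S.om s * v ^ k • S.w k s + v ^ k • S.w k s * S.om s),
    S.w_eq_zero (k := S.N + 1 + 1) (by omega),
    sum_range_succ' (fun k => S.om s * v ^ k • S.w k s + v ^ k • S.w k s * S.om s)]
  simp only [smul_zero, add_zero, Nat.cast_zero, zero_mul, zero_smul, mul_zero, S.w_zero,
    pow_zero, one_smul, mul_one, one_mul, zero_add, Nat.cast_one, S.w_one, Nat.sub_self]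
  rw [add_right_comm, ← sum_add_distrib, two_smul]
  congr 1
  refine sum_congr rfl fun k _ => ?_
  have := S.w_rec k s
  rw [Matrix.mul_smul, Matrix.smul_mul, ← smul_add]
  have e : S.om s * S.w (k + 1) s + S.w (k + 1) s * S.om s =
      ((k : ℝ) + 2) • S.w (k + 2) s + (2 : ℝ) • S.dw k s := by rw [this]; abel
  rw [e, smul_add, smul_smul, smul_smul]
  congr 2
  · push_cast; ring
  · ring

theorem W_zero (s : ℝ) : S.W 0 s = 1 := by
  simp [W, sum_range_succ', S.w_zero]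

theorem W_eq (c v : ℝ) : S.W v (c + v ^ 2) = S.Gb c v * S.E c v := by
  refine ode_unique S.hN (B1 := fun u => S.om (c + u ^ 2)) (B2 := fun u => S.om (c + u ^ 2))
    (F := fun t => S.W t (c + t ^ 2)) (H := fun u => S.Gb c u * S.E c u)
    (fun _ => S.om_up _) (fun _ => S.om_up _) (S.W_deriv c) (fun u => ?_) (u0 := 0) ?_ v
  · refine ((S.Gb_deriv c u).mul (S.E_deriv c u)).congr ?_
    noncomm_ring
  · simp [S.W_zero, S.E_zero, S.Gb_zero]

theorem W_nonneg {c v : ℝ} (hc : 0 ≤ c) (hv : 0 ≤ v) : 0 ≤ S.W v (c + v ^ 2) := by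
  rw [W_eq]
  exact mul_nonneg (S.Gb_nonneg hc hv) (S.E_nonneg hc hv)

theorem ex2_deriv {A : Matrix L L ℝ} (hA : Up S.rk A) (u : ℝ) :
    MDeriv (fun t => ex S.N ((2 * t) • A))
      (A * ex S.N ((2 * u) • A) + ex S.N ((2 * u) • A) * A) u :=
  (ex_deriv S.hN hA 2 u).congr (by rw [ex_comm, two_smul])

theorem W_le {c v : ℝ} (hc : 0 ≤ c) (hv : 0 ≤ v) :
    S.W v (c + v ^ 2) ≤ ex S.N ((2 * v) • S.om (c + v ^ 2)) :=
  ode_le S.hN (B1 := fun _ => S.om (c + v ^ 2)) (B2 := fun _ => S.om (c + v ^ 2))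
    (F := fun t => S.W t (c + t ^ 2)) (H := fun t => ex S.N ((2 * t) • S.om (c + v ^ 2))) (b := v)
    (fun _ _ => ⟨S.om_up _, S.om_nonneg (by positivity)⟩)
    (fun _ _ => ⟨S.om_up _, S.om_nonneg (by positivity)⟩)
    (fun u hu => ⟨S.W_deriv c u, by
      have h1 : S.om (c + u ^ 2) ≤ S.om (c + v ^ 2) :=
        S.om_mono (by positivity) (by nlinarith [hu.1, hu.2])
      have h2 := S.W_nonneg hc hu.1
      exact add_le_add (mul_le_mul_of_nonneg_right h1 h2) (mul_le_mul_of_nonneg_left h1 h2)⟩)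
    (fun u _ => ⟨S.ex2_deriv (S.om_up _) u, le_rfl⟩) (by simp [ex_zero, S.W_zero]) v ⟨hv, le_rfl⟩

theorem le_W {c v : ℝ} (hc : 0 ≤ c) (hv : 0 ≤ v) :
    ex S.N ((2 * v) • S.om c) ≤ S.W v (c + v ^ 2) :=
  ode_le S.hN (B1 := fun _ => S.om c) (B2 := fun _ => S.om c)
    (H := fun t => S.W t (c + t ^ 2)) (F := fun t => ex S.N ((2 * t) • S.om c)) (b := v)
    (fun _ _ => ⟨S.om_up _, S.om_nonneg hc⟩) (fun _ _ => ⟨S.om_up _, S.om_nonneg hc⟩)
    (fun u _ => ⟨S.ex2_deriv (S.om_up _) u, le_rfl⟩)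
    (fun u hu => ⟨S.W_deriv c u, by
      have h1 : S.om c ≤ S.om (c + u ^ 2) := S.om_mono hc (by nlinarith [sq_nonneg u])
      have h2 := S.W_nonneg hc hu.1
      exact add_le_add (mul_le_mul_of_nonneg_right h1 h2) (mul_le_mul_of_nonneg_left h1 h2)⟩)
    (by simp [ex_zero, S.W_zero]) v ⟨hv, le_rfl⟩

end Sys

end Pool.Agent.P.MP_cedf91_co
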