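import Pool.Agent.P.MP_cedf91_co.An1

/-! Two-variable polynomials: weighted norms, the derivation `Dd`, supports. -/

namespace Pool.Agent.P.MP_cedf91_co

open Finset MvPolynomial

/-- Polynomials in two variables. -/
abbrev P2 := MvPolynomial (Fin 2) ℝ

/-- Weighted `ℓ¹` norm. -/
noncomputable def wn (a b : ℝ) (P : P2) : ℝ :=
  ∑ m ∈ P.support, |coeff m P| * (a ^ m 0 * b ^ m 1)

section wn

variable {a b : ℝ}

theorem wn_eq_sum (a b : ℝ) {P : P2} {s : Finset (Fin 2 →₀ ℕ)} (hs : P.support ⊆ s) :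
    wn a b P = ∑ m ∈ s, |coeff m P| * (a ^ m 0 * b ^ m 1) :=
  sum_subset hs fun m _ hm => by rw [notMem_support_iff.1 hm]; simp

theorem wn_nonneg (ha : 0 ≤ a) (hb : 0 ≤ b) (P : P2) : 0 ≤ wn a b P :=
  sum_nonneg fun _ _ => by positivity

theorem le_wn (ha : 0 ≤ a) (hb : 0 ≤ b) (P : P2) (s : Finset (Fin 2 →₀ ℕ)) :
    ∑ m ∈ s, |coeff m P| * (a ^ m 0 * b ^ m 1) ≤ wn a b P := by
  rw [wn_eq_sum a b (s := P.support ∪ s) subset_union_left]
  exact sum_le_sum_of_subset_of_nonneg subset_union_right fun _ _ _ => by positivity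

theorem wn_add_le (ha : 0 ≤ a) (hb : 0 ≤ b) (P Q : P2) : wn a b (P + Q) ≤ wn a b P + wn a b Q := by
  rw [wn_eq_sum a b (s := P.support ∪ Q.support) support_add,
    wn_eq_sum a b (s := P.support ∪ Q.support) subset_union_left,
    wn_eq_sum a b (s := P.support ∪ Q.support) subset_union_right, ← sum_add_distrib]
  refine sum_le_sum fun m _ => ?_
  rw [← add_mul, coeff_add]
  exact mul_le_mul_of_nonneg_right (abs_add_le _ _) (by positivity)

theorem wn_zero (a b : ℝ) : wn a b 0 = 0 := by simp [wn]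

theorem wn_neg (a b : ℝ) (P : P2) : wn a b (-P) = wn a b P := by simp [wn]

theorem wn_sub_le (ha : 0 ≤ a) (hb : 0 ≤ b) (P Q : P2) :
    wn a b (P - Q) ≤ wn a b P + wn a b Q := by
  rw [sub_eq_add_neg, ← wn_neg a b Q]
  exact wn_add_le ha hb _ _

theorem wn_sum_le (ha : 0 ≤ a) (hb : 0 ≤ b) {ι : Type*} (s : Finset ι) (f : ι → P2) :
    wn a b (∑ i ∈ s, f i) ≤ ∑ i ∈ s, wn a b (f i) := by
  classical
  induction s using Finset.induction_on with
  | empty => simp [wn_zero]
  | insert i s hi ih =>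
    rw [sum_insert hi, sum_insert hi]
    exact (wn_add_le ha hb _ _).trans (by linarith)

theorem wn_monomial (a b : ℝ) (m : Fin 2 →₀ ℕ) (c : ℝ) :
    wn a b (monomial m c) = |c| * (a ^ m 0 * b ^ m 1) := by
  rw [wn_eq_sum a b support_monomial_subset]
  simp

theorem wn_mul_le (ha : 0 ≤ a) (hb : 0 ≤ b) (P Q : P2) : wn a b (P * Q) ≤ wn a b P * wn a b Q := by
  conv_lhs => rw [P.as_sum, Q.as_sum, sum_mul_sum]
  refine (wn_sum_le ha hb _ _).trans ?_
  rw [wn, wn, sum_mul_sum]
  refine sum_le_sum fun m _ => (wn_sum_le ha hb _ _).trans (sum_le_sum fun m' _ => le_of_eq ?_)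
  rw [monomial_mul, wn_monomial, abs_mul]
  simp only [Finsupp.add_apply, pow_add]
  ring

theorem wn_C (a b c : ℝ) : wn a b (C c) = |c| := by
  rw [← monomial_zero', wn_monomial]; simp

theorem wn_X0 (a b : ℝ) : wn a b (X 0) = a := by
  rw [X, wn_monomial]; simp

theorem wn_X1 (a b : ℝ) : wn a b (X 1) = b := by
  rw [X, wn_monomial]; simp

theorem wn_pow_le (ha : 0 ≤ a) (hb : 0 ≤ b) (P : P2) (n : ℕ) : wn a b (P ^ n) ≤ wn a b P ^ n := by
  induction n with
  | zero => rw [pow_zero, pow_zero, ← C_1, wn_C]; simp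
  | succ n ih =>
    rw [pow_succ, pow_succ]
    exact (wn_mul_le ha hb _ _).trans (mul_le_mul_of_nonneg_right ih (wn_nonneg ha hb _))

theorem wn_eval (a b : ℝ) {P : P2} (hP : ∀ m, 0 ≤ coeff m P) : wn a b P = eval ![a, b] P := by
  rw [wn, eval_eq']
  refine sum_congr rfl fun m _ => ?_
  rw [abs_of_nonneg (hP m)]
  simp

theorem wn_pderiv (a b : ℝ) (i : Fin 2) (P : P2) : wn a b (pderiv i P) =
    ∑ m ∈ P.support, |coeff m P| * m i *
      (a ^ (m - Finsupp.single i 1 : Fin 2 →₀ ℕ) 0 * b ^ (m - Finsupp.single i 1 : Fin 2 →₀ ℕ) 1) := by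
  have key : ∀ m : Fin 2 →₀ ℕ, m i ≠ 0 → m - Finsupp.single i 1 + Finsupp.single i 1 = m :=
    fun m hm => tsub_add_cancel_of_le (Finsupp.single_le_iff.2 (Nat.one_le_iff_ne_zero.2 hm))
  rw [wn_eq_sum a b (s := (P.support.filter fun m => m i ≠ 0).image
    fun m => m - Finsupp.single i 1), sum_image, sum_filter]
  · refine sum_congr rfl fun m _ => ?_
    split_ifs with hm
    · rw [coeff_pderiv, key m hm, abs_mul]
      congr 2
      rw [abs_of_nonneg (by positivity)]
      have := congrArg (fun f => f i) (key m hm)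
      simp only [Finsupp.add_apply, Finsupp.single_eq_same] at this
      rw [← this]
      push_cast
      simp
    · simp [not_not.1 hm]
  · intro m hm m' hm' h
    have h1 := key m (mem_filter.1 hm).2
    have h2 := key m' (mem_filter.1 hm').2
    rw [← h1, ← h2]
    exact congrArg (· + Finsupp.single i 1) h
  · intro m hm
    rw [mem_support_iff, coeff_pderiv] at hm
    refine mem_image.2 ⟨m + Finsupp.single i 1, mem_filter.2 ⟨mem_support_iff.2
      (left_ne_zero_of_mul hm), by simp⟩, by simp⟩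

end wn

/-- Exchange of the variables. -/
noncomputable def sw : P2 →ₐ[ℝ] P2 := rename (Equiv.swap 0 1)

/-- Exponent vector. -/
noncomputable def mo (p q : ℕ) : Fin 2 →₀ ℕ := Finsupp.single 0 p + Finsupp.single 1 q

@[simp] theorem mo_zero (p q : ℕ) : mo p q 0 = p := by simp [mo]
@[simp] theorem mo_one (p q : ℕ) : mo p q 1 = q := by simp [mo]

theorem mo_eta (m : Fin 2 →₀ ℕ) : mo (m 0) (m 1) = m := by
  ext i; fin_cases i <;> simp

theorem mo_ext {m m' : Fin 2 →₀ ℕ} (h0 : m 0 = m' 0) (h1 : m 1 = m' 1) : m = m' := by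
  rw [← mo_eta m, ← mo_eta m', h0, h1]

theorem coeff_sw (P : P2) (p q : ℕ) : coeff (mo p q) (sw P) = coeff (mo q p) P := by
  have : mo p q = (mo q p).mapDomain (Equiv.swap (0 : Fin 2) 1) := by
    simp [mo, Finsupp.mapDomain_add, add_comm]
  rw [this, sw, coeff_rename_mapDomain _ (Equiv.injective _)]

@[simp] theorem sw_X0 : sw (X 0) = X 1 := by simp [sw]
@[simp] theorem sw_X1 : sw (X 1) = X 0 := by simp [sw]
@[simp] theorem sw_C (c : ℝ) : sw (C c) = C c := by simp [sw]

theorem eval_sw (a b : ℝ) (P : P2) : eval ![a, b] (sw P) = eval ![b, a] P := by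
  rw [sw, eval_rename]
  congr 2
  ext i; fin_cases i <;> simp

theorem wn_sw (a b : ℝ) (P : P2) : wn a b (sw P) = wn b a P := by
  rw [wn_eq_sum a b (s := P.support.image fun m => mo (m 1) (m 0)), sum_image, wn]
  · refine sum_congr rfl fun m _ => ?_
    rw [coeff_sw, mo_eta]
    simp [mul_comm]
  · intro m _ m' _ h
    have h0 := congrArg (fun f => f 0) h
    have h1 := congrArg (fun f => f 1) h
    simp only [mo_zero, mo_one] at h0 h1
    exact mo_ext h1 h0
  · intro m hm
    rw [mem_support_iff, ← mo_eta m, coeff_sw] at hm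
    exact mem_image.2 ⟨mo (m 1) (m 0), mem_support_iff.2 hm, by simp [mo_eta]⟩

/-- The derivation `∂_X + ∂_Y`. -/
noncomputable def Dd : Derivation ℝ P2 P2 := pderiv 0 + pderiv 1

theorem Dd_apply (P : P2) : Dd P = pderiv 0 P + pderiv 1 P := rfl

@[simp] theorem Dd_X (i : Fin 2) : Dd (X i) = 1 := by
  fin_cases i <;> simp [Dd_apply, pderiv_X]

@[simp] theorem Dd_C (c : ℝ) : Dd (C c) = 0 := by simp

theorem Dd_mul (P Q : P2) : Dd (P * Q) = Dd P * Q + P * Dd Q := by
  rw [Derivation.leibniz]; simp only [smul_eq_mul]; ring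

theorem coeff_Dd (P : P2) (p q : ℕ) : coeff (mo p q) (Dd P) =
    coeff (mo (p + 1) q) P * (p + 1) + coeff (mo p (q + 1)) P * (q + 1) := by
  rw [Dd_apply, coeff_add, coeff_pderiv, coeff_pderiv]
  have e0 : mo p q + Finsupp.single 0 1 = mo (p + 1) q := mo_ext (by simp) (by simp)
  have e1 : mo p q + Finsupp.single 1 1 = mo p (q + 1) := mo_ext (by simp) (by simp)
  rw [e0, e1]
  simp

theorem Dd_sw (P : P2) : Dd (sw P) = sw (Dd P) := by
  ext m
  rw [← mo_eta m, coeff_sw, coeff_Dd, coeff_Dd, coeff_sw, coeff_sw, add_comm]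

theorem eval_line_deriv (a b u : ℝ) (P : P2) :
    HasDerivAt (fun t => eval ![t + a, t + b] P) (eval ![u + a, u + b] (Dd P)) u := by
  induction P using MvPolynomial.induction_on with
  | C c => simpa using hasDerivAt_const u c
  | add P Q hP hQ => simpa using hP.fun_add hQ
  | mul_X P i hP =>
    have hi : HasDerivAt (fun t => (![t + a, t + b] : Fin 2 → ℝ) i) 1 u := by
      fin_cases i
      · simpa using (hasDerivAt_id u).add_const a
      · simpa using (hasDerivAt_id u).add_const b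
    simp only [map_mul, eval_X]
    refine (hP.fun_mul hi).congr_deriv ?_
    simp only [Dd_mul, map_add, map_mul, Dd_X, eval_X, mul_one]

theorem exists_antiD (P : P2) : ∃ Q, Dd Q = P ∧ X 0 ∣ Q := by
  have key : ∀ q p : ℕ, ∃ Q : P2, Dd Q = X 0 ^ p * X 1 ^ q ∧ X 0 ∣ Q := by
    intro q
    induction q with
    | zero =>
      intro p
      refine ⟨C ((p : ℝ) + 1)⁻¹ * X 0 ^ (p + 1), ?_, Dvd.dvd.mul_left (dvd_pow_self _ (by simp)) _⟩
      have : (C ((p : ℝ) + 1)⁻¹ : P2) * ((p : P2) + 1) = 1 := by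
        rw [show ((p : P2) + 1) = C ((p : ℝ) + 1) by simp, ← C_mul, inv_mul_cancel₀ (by positivity)]
        simp
      rw [Dd_mul, Derivation.leibniz_pow]
      simp only [Dd_C, Dd_X, zero_mul, zero_add, Nat.add_sub_cancel, smul_eq_mul, mul_one,
        nsmul_eq_mul, pow_zero]
      push_cast
      rw [← mul_assoc, this, one_mul]
    | succ q ih =>
      intro p
      obtain ⟨Q, hQ, hd⟩ := ih (p + 1)
      refine ⟨C ((p : ℝ) + 1)⁻¹ * (X 0 ^ (p + 1) * X 1 ^ (q + 1) - C ((q : ℝ) + 1) * Q), ?_,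
        Dvd.dvd.mul_left (dvd_sub (Dvd.dvd.mul_right (dvd_pow_self _ (by simp)) _)
          (hd.mul_left _)) _⟩
      have : (C ((p : ℝ) + 1)⁻¹ : P2) * ((p : P2) + 1) = 1 := by
        rw [show ((p : P2) + 1) = C ((p : ℝ) + 1) by simp, ← C_mul, inv_mul_cancel₀ (by positivity)]
        simp
      rw [Dd_mul, map_sub, Dd_mul, Dd_mul, hQ, Derivation.leibniz_pow, Derivation.leibniz_pow,
        Dd_C, Dd_C]
      simp only [Dd_X, zero_mul, zero_add, Nat.add_sub_cancel, smul_eq_mul, mul_one,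
        nsmul_eq_mul, map_add, map_natCast, map_one]
      push_cast
      linear_combination (X 0 ^ p * X 1 ^ (q + 1) : P2) * this
  induction P using MvPolynomial.induction_on' with
  | monomial m c =>
    obtain ⟨Q, hQ, hd⟩ := key (m 1) (m 0)
    refine ⟨C c * Q, ?_, hd.mul_left _⟩
    rw [Dd_mul, hQ, monomial_eq]
    simp [Finsupp.prod_fintype]
  | add P Q hP hQ =>
    obtain ⟨P', h1, h2⟩ := hP
    obtain ⟨Q', h3, h4⟩ := hQ
    exact ⟨P' + Q', by rw [map_add, h1, h3], dvd_add h2 h4⟩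

/-- Support above the diagonal. -/
def Sup (k : ℕ) (P : P2) : Prop := ∀ p q, coeff (mo p q) P ≠ 0 → q + k ≤ p

theorem Sup.zero (k : ℕ) : Sup k 0 := fun _ _ h => absurd rfl h

theorem Sup.add {k : ℕ} {P Q : P2} (hP : Sup k P) (hQ : Sup k Q) : Sup k (P + Q) := by
  intro p q h
  rw [coeff_add] at h
  by_cases h1 : coeff (mo p q) P = 0
  · exact hQ p q (by simpa [h1] using h)
  · exact hP p q h1

theorem Sup.neg {k : ℕ} {P : P2} (hP : Sup k P) : Sup k (-P) :=
  fun p q h => hP p q (by simpa using h)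

theorem Sup.sub {k : ℕ} {P Q : P2} (hP : Sup k P) (hQ : Sup k Q) : Sup k (P - Q) := by
  rw [sub_eq_add_neg]; exact hP.add hQ.neg

theorem Sup.sum {k : ℕ} {ι : Type*} {s : Finset ι} {f : ι → P2} (h : ∀ i ∈ s, Sup k (f i)) :
    Sup k (∑ i ∈ s, f i) :=
  sum_induction f (Sup k) (fun _ _ => Sup.add) (Sup.zero k) h

theorem Sup.mono {k l : ℕ} {P : P2} (hP : Sup k P) (h : l ≤ k) : Sup l P :=
  fun p q hc => by have := hP p q hc; omega

theorem Sup.mul {k l : ℕ} {P Q : P2} (hP : Sup k P) (hQ : Sup l Q) : Sup (k + l) (P * Q) := by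
  intro p q h
  rw [coeff_mul] at h
  obtain ⟨⟨m, m'⟩, hm, hz⟩ := exists_ne_zero_of_sum_ne_zero h
  have h1 := hP (m 0) (m 1) (by rw [mo_eta]; exact left_ne_zero_of_mul hz)
  have h2 := hQ (m' 0) (m' 1) (by rw [mo_eta]; exact right_ne_zero_of_mul hz)
  rw [HasAntidiagonal.mem_antidiagonal] at hm
  have e0 := congrArg (fun f => f 0) hm
  have e1 := congrArg (fun f => f 1) hm
  simp only [Finsupp.add_apply, mo_zero, mo_one] at e0 e1
  omega

theorem Sup.monomial {k : ℕ} {m : Fin 2 →₀ ℕ} (h : m 1 + k ≤ m 0) (c : ℝ) :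
    Sup k (monomial m c) := by
  intro p q hc
  rw [coeff_monomial] at hc
  split_ifs at hc with h1
  · subst h1; simpa using h
  · exact absurd rfl hc

theorem Sup.C (c : ℝ) : Sup 0 (C c) := Sup.monomial (m := 0) (by simp) c

theorem Sup.pow {P : P2} (hP : Sup 0 P) (n : ℕ) : Sup 0 (P ^ n) := by
  induction n with
  | zero => simpa using Sup.C 1
  | succ n ih => rw [pow_succ]; exact ih.mul hP

theorem Sup.XY : Sup 0 (X 0 * X 1 : P2) := by
  rw [X, X, monomial_mul]
  exact Sup.monomial (by simp) _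

theorem Sup.toDd {P : P2} (hP : Sup 1 P) : Sup 0 (Dd P) := by
  intro p q h
  rw [coeff_Dd] at h
  by_cases h1 : coeff (mo (p + 1) q) P = 0
  · rw [h1, zero_mul, zero_add] at h
    have := hP _ _ (left_ne_zero_of_mul h)
    omega
  · have := hP _ _ h1
    omega

theorem Sup.of_Dd {Q : P2} (hd : X 0 ∣ Q) (hP : Sup 0 (Dd Q)) : Sup 1 Q := by
  intro p
  induction p with
  | zero =>
    intro q h
    obtain ⟨Q', rfl⟩ := hd
    rw [coeff_X_mul'] at h
    simp at h
  | succ p ih =>
    intro q h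
    by_contra hlt
    have h1 := coeff_Dd Q p q
    have h2 : coeff (mo p q) (Dd Q) = 0 := by
      by_contra h0; have := hP _ _ h0; omega
    have h3 : coeff (mo p (q + 1)) Q = 0 := by
      by_contra h0; have := ih _ h0; omega
    rw [h2, h3, zero_mul, add_zero] at h1
    exact mul_ne_zero h (by positivity) h1.symm

theorem Sup.diag {Q : P2} (hQ : Sup 1 Q) (q : ℕ) :
    coeff (mo q q) (Dd Q) = coeff (mo (q + 1) q) Q * (q + 1) := by
  have h3 : coeff (mo q (q + 1)) Q = 0 := by
    by_contra h0; have := hQ _ _ h0; omega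
  rw [coeff_Dd, h3]; simp

theorem Sup.of_diag {P : P2} (hP : Sup 0 P) (h : ∀ q, coeff (mo q q) P = 0) : Sup 1 P := by
  intro p q hc
  have := hP p q hc
  have : p ≠ q := by rintro rfl; exact hc (h p)
  omega

theorem Sup.eq_zero {P : P2} (hP : Sup 1 P) (h : sw P = P) : P = 0 := by
  ext m
  by_contra hc
  rw [coeff_zero, ← mo_eta m] at hc
  have h1 := hP _ _ hc
  rw [← h, coeff_sw] at hc
  have h2 := hP _ _ hc
  omega

theorem Sup.eval_zero {P : P2} (hP : Sup 1 P) (b : ℝ) : eval ![0, b] P = 0 := by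
  rw [eval_eq']
  refine sum_eq_zero fun m hm => ?_
  have := hP (m 0) (m 1) (by rw [mo_eta]; exact mem_support_iff.1 hm)
  have h0 : m 0 ≠ 0 := by omega
  simp [h0]

/-- Chebyshev polynomials. -/
noncomputable def ch : ℕ → Polynomial ℝ
  | 0 => 1
  | 1 => Polynomial.X
  | n + 2 => Polynomial.C 2 * (Polynomial.X * ch (n + 1)) - ch n

theorem ch_eval {z : ℝ} (hz : z ≠ 0) (n : ℕ) :
    (ch n).eval ((z + z⁻¹) / 2) = (z ^ n + z⁻¹ ^ n) / 2 := by
  induction n using Nat.twoStepInduction with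
  | zero => simp [ch]
  | one => simp [ch]
  | more n h0 h1 =>
    simp only [ch, Polynomial.eval_sub, Polynomial.eval_mul, Polynomial.eval_C, Polynomial.eval_X,
      h0, h1]
    have : z * z⁻¹ = 1 := mul_inv_cancel₀ hz
    linear_combination (z ^ n + z⁻¹ ^ n) / 2 * this

/-- Truncated weighted norm of a one-variable polynomial. -/
noncomputable def n2 (M : ℕ) (P : Polynomial ℝ) : ℝ := ∑ k ∈ range M, |P.coeff k| * 2 ^ k

theorem n2_ch (n : ℕ) : ∀ M, n2 M (ch n) ≤ 5 ^ n := by
  have hX : ∀ M P, n2 (M + 1) (Polynomial.X * P) = 2 * n2 M P := by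
    intro M P
    simp only [n2, sum_range_succ', Polynomial.coeff_X_mul, Polynomial.coeff_X_mul_zero, mul_sum]
    simp only [abs_zero, zero_mul, add_zero]
    exact sum_congr rfl fun k _ => by ring
  have h1 : ∀ M, n2 M 1 ≤ 1 := by
    intro M
    cases M with
    | zero => simp [n2]
    | succ M => simp [n2, sum_range_succ', Polynomial.coeff_one]
  induction n using Nat.twoStepInduction with
  | zero => simpa [ch] using h1
  | one =>
    intro M
    cases M with
    | zero => simp [n2]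
    | succ M =>
      have := hX M 1
      rw [mul_one] at this
      rw [ch, this]
      linarith [h1 M]
  | more n h0 h2 =>
    intro M
    cases M with
    | zero => simp only [n2, range_zero, sum_empty]; positivity
    | succ M =>
      have : n2 (M + 1) (ch (n + 2)) ≤
          2 * n2 (M + 1) (Polynomial.X * ch (n + 1)) + n2 (M + 1) (ch n) := by
        simp only [n2, mul_sum, ← sum_add_distrib, ch, Polynomial.coeff_sub,
          Polynomial.coeff_C_mul]
        refine sum_le_sum fun k _ => ?_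
        have := abs_sub (2 * (Polynomial.X * ch (n + 1)).coeff k) ((ch n).coeff k)
        rw [abs_mul, abs_two] at this
        nlinarith [pow_pos (zero_lt_two (α := ℝ)) k]
      rw [hX] at this
      have := h0 (M + 1)
      have := h2 M
      have : (0 : ℝ) < 5 ^ n := by positivity
      rw [pow_succ] at *
      rw [pow_succ]
      linarith

theorem cheb_bound (P : Polynomial ℝ) (F : P2) (hs : sw F = F)
    (h : ∀ z : ℝ, z ≠ 0 → P.eval ((z + z⁻¹) / 2) = eval ![z, z⁻¹] F) (M : ℕ) :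
    n2 M P ≤ 2 * wn 5 5⁻¹ F := by
  have hP : P = ∑ m ∈ F.support, Polynomial.C (coeff m F) * ch (Nat.dist (m 0) (m 1)) := by
    apply Polynomial.eq_of_infinite_eval_eq
    refine Set.Infinite.mono ?_ (Set.Ici_infinite (1 : ℝ))
    intro v hv
    have hv : 1 ≤ v := hv
    have h1 : 0 ≤ v ^ 2 - 1 := by nlinarith
    have h2 := Real.sq_sqrt h1
    have h3 := Real.sqrt_nonneg (v ^ 2 - 1)
    set z := v + √(v ^ 2 - 1) with hz
    have hz0 : z ≠ 0 := by positivity
    have hzi : z⁻¹ = v - √(v ^ 2 - 1) := by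
      apply inv_eq_of_mul_eq_one_right
      rw [hz]; linear_combination -h2
    have hv' : v = (z + z⁻¹) / 2 := by rw [hzi, hz]; ring
    have e1 := h z hz0
    have e2 : eval ![z, z⁻¹] F = eval ![z⁻¹, z] F := by rw [← eval_sw, hs]
    have e3 : eval ![z, z⁻¹] F = (eval ![z, z⁻¹] F + eval ![z⁻¹, z] F) / 2 := by
      rw [← e2]; ring
    simp only [Set.mem_ofPred_eq]
    rw [hv', e1, e3, eval_eq', eval_eq', ← sum_add_distrib, sum_div, Polynomial.eval_finsetSum]
    refine sum_congr rfl fun m _ => ?_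
    rw [Polynomial.eval_mul, Polynomial.eval_C, ch_eval hz0]
    simp only [Fin.prod_univ_two, Matrix.cons_val_zero, Matrix.cons_val_one]
    have hzz : ∀ k : ℕ, z ^ k * z⁻¹ ^ k = 1 := fun k => by
      rw [← mul_pow, mul_inv_cancel₀ hz0, one_pow]
    rcases le_total (m 0) (m 1) with hle | hle
    · obtain ⟨d, hd⟩ := Nat.exists_eq_add_of_le hle
      rw [Nat.dist_eq_sub_of_le hle, hd, Nat.add_sub_cancel_left, pow_add, pow_add]
      linear_combination coeff m F * (z ^ d + z⁻¹ ^ d) / 2 * hzz (m 0)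
    · obtain ⟨d, hd⟩ := Nat.exists_eq_add_of_le hle
      rw [Nat.dist_eq_sub_of_le_right hle, hd, Nat.add_sub_cancel_left, pow_add, pow_add]
      linear_combination coeff m F * (z ^ d + z⁻¹ ^ d) / 2 * hzz (m 1)
  have h2 : 2 * wn 5 5⁻¹ F = wn 5 5⁻¹ F + wn 5⁻¹ 5 F := by rw [← wn_sw 5 5⁻¹ F, hs]; ring
  rw [h2, wn, wn, ← sum_add_distrib]
  calc n2 M P ≤ ∑ k ∈ range M, ∑ m ∈ F.support,
        |coeff m F| * (|(ch (Nat.dist (m 0) (m 1))).coeff k| * 2 ^ k) := by
        refine sum_le_sum fun k _ => ?_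
        conv_lhs => rw [hP]
        rw [Polynomial.finsetSum_coeff]
        refine (mul_le_mul_of_nonneg_right (abs_sum_le_sum_abs _ _) (by positivity)).trans ?_
        rw [sum_mul]
        refine le_of_eq (sum_congr rfl fun m _ => ?_)
        rw [Polynomial.coeff_C_mul, abs_mul, mul_assoc]
    _ ≤ _ := by
        rw [sum_comm]
        refine sum_le_sum fun m _ => ?_
        rw [← mul_sum, ← mul_add]
        refine mul_le_mul_of_nonneg_left ((n2_ch _ M).trans ?_) (abs_nonneg _)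
        have hzz : ∀ k : ℕ, (5 : ℝ) ^ k * 5⁻¹ ^ k = 1 := fun k => by
          rw [← mul_pow, mul_inv_cancel₀ (by norm_num), one_pow]
        rcases le_total (m 0) (m 1) with hle | hle
        · obtain ⟨d, hd⟩ := Nat.exists_eq_add_of_le hle
          rw [Nat.dist_eq_sub_of_le hle, hd, Nat.add_sub_cancel_left, pow_add (5 : ℝ)]
          have : (0 : ℝ) ≤ 5 ^ m 0 * 5⁻¹ ^ (m 0 + d) := by positivity
          nlinarith [hzz (m 0), pow_pos (show (0 : ℝ) < 5 by norm_num) d]
        · obtain ⟨d, hd⟩ := Nat.exists_eq_add_of_le hle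
          rw [Nat.dist_eq_sub_of_le_right hle, hd, Nat.add_sub_cancel_left, pow_add (5 : ℝ)]
          have : (0 : ℝ) ≤ 5⁻¹ ^ (m 1 + d) * 5 ^ m 1 := by positivity
          nlinarith [hzz (m 1), pow_pos (show (0 : ℝ) < 5 by norm_num) d]

end Pool.Agent.P.MP_cedf91_co
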