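import Pool.Agent.P.MP_cedf91_co.An2

/-! The polynomial matrix `V` and the identities relating `G`, `V`, `W`. -/

namespace Pool.Agent.P.MP_cedf91_co

open Finset MvPolynomial EO

variable {L : Type} [Fintype L] [DecidableEq L]

/-- Evaluation of a polynomial matrix. -/
noncomputable def ev (a b : ℝ) : Matrix L L P2 →+* Matrix L L ℝ := (eval ![a, b]).mapMatrix

theorem ev_apply (a b : ℝ) (P : Matrix L L P2) (x y : L) : ev a b P x y = eval ![a, b] (P x y) :=
  rfl

/-- Exchange of variables in a polynomial matrix. -/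
noncomputable def swM : Matrix L L P2 →+* Matrix L L P2 := (sw : P2 →+* P2).mapMatrix

theorem swM_apply (P : Matrix L L P2) (x y : L) : swM P x y = sw (P x y) := rfl

theorem ev_swM (a b : ℝ) (P : Matrix L L P2) : ev a b (swM P) = ev b a P := by
  ext x y; simp only [ev_apply, swM_apply, eval_sw]

theorem ev_ext {P Q : Matrix L L P2} (h : ∀ a b, ev a b P = ev a b Q) : P = Q := by
  refine Matrix.ext fun x y => MvPolynomial.funext fun v => ?_
  have e : v = ![v 0, v 1] := by ext i; fin_cases i <;> simp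
  rw [e, ← ev_apply, ← ev_apply, h]

/-- Entrywise weighted norm. -/
noncomputable def wM (a b : ℝ) (P : Matrix L L P2) : Matrix L L ℝ := fun x y => wn a b (P x y)

/-- Entrywise absolute value. -/
def am (A : Matrix L L ℝ) : Matrix L L ℝ := fun x y => |A x y|

omit [Fintype L] [DecidableEq L] in
theorem am_nonneg (A : Matrix L L ℝ) : 0 ≤ am A := fun _ _ => abs_nonneg _

omit [DecidableEq L] in
theorem wM_mul_le {a b : ℝ} (ha : 0 ≤ a) (hb : 0 ≤ b) (P Q : Matrix L L P2) :
    wM a b (P * Q) ≤ wM a b P * wM a b Q := by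
  intro x y
  simp only [wM, Matrix.mul_apply]
  exact (wn_sum_le ha hb _ _).trans (sum_le_sum fun z _ => wn_mul_le ha hb _ _)

omit [Fintype L] [DecidableEq L] in
theorem wM_nonneg {a b : ℝ} (ha : 0 ≤ a) (hb : 0 ≤ b) (P : Matrix L L P2) : 0 ≤ wM a b P :=
  fun _ _ => wn_nonneg ha hb _

omit [Fintype L] in
theorem sup_one_apply (x y : L) : Sup 0 ((1 : Matrix L L P2) x y) := by
  rw [Matrix.one_apply]
  split_ifs
  · simpa using Sup.C 1
  · exact Sup.zero _

omit [Fintype L] in
theorem Dd_one_apply (x y : L) : Dd ((1 : Matrix L L P2) x y) = 0 := by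
  rw [Matrix.one_apply]
  split_ifs <;> simp

namespace Sys

variable (S : Sys L)

/-- The polynomial matrix `ω(c + X Y)`. -/
noncomputable def Om (c : ℝ) : Matrix L L P2 :=
  fun x y => C (S.o x y) * (C c + X 0 * X 1) ^ ((S.rk y - S.rk x - 1) / 2)

theorem ev_Om (c a b : ℝ) : ev a b (S.Om c) = S.om (c + a * b) := by
  ext x y
  simp [ev_apply, Om, om, hom]

omit [Fintype L] [DecidableEq L] in
theorem Om_up (c : ℝ) (x y : L) (h : S.Om c x y ≠ 0) : S.rk x < S.rk y := by
  obtain ⟨m, hm⟩ := S.o_par x y fun h0 => h (by simp [Om, h0])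
  omega

omit [Fintype L] [DecidableEq L] in
theorem Om_sup (c : ℝ) (x y : L) : Sup 0 (S.Om c x y) :=
  (Sup.C _).mul (((Sup.C c).add Sup.XY).pow _)

theorem swM_Om (c : ℝ) : swM (S.Om c) = S.Om c := by
  refine Matrix.ext fun x y => ?_
  simp [swM_apply, Om, mul_comm]

omit [Fintype L] [DecidableEq L] in
theorem wM_Om {c a b : ℝ} (hc : 0 ≤ c) (ha : 0 ≤ a) (hb : 0 ≤ b) :
    wM a b (S.Om c) ≤ S.om (c + a * b) := by
  intro x y
  simp only [wM, Om, om, hom]
  refine (wn_mul_le ha hb _ _).trans ?_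
  rw [wn_C, abs_of_nonneg (S.o_nonneg x y)]
  refine mul_le_mul_of_nonneg_left ((wn_pow_le ha hb _ _).trans
    (pow_le_pow_left₀ (wn_nonneg ha hb _) ?_ _)) (S.o_nonneg x y)
  refine (wn_add_le ha hb _ _).trans ?_
  rw [wn_C, abs_of_nonneg hc]
  have := wn_mul_le ha hb (X 0) (X 1)
  rw [wn_X0, wn_X1] at this
  linarith

omit [Fintype L] [DecidableEq L] in
theorem coeff_Om (c : ℝ) (x y : L) (q : ℕ) : coeff (mo q q) (S.Om c x y) =
    S.o x y * (c ^ ((S.rk y - S.rk x - 1) / 2 - q) * ((S.rk y - S.rk x - 1) / 2).choose q) := by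
  rw [Om, coeff_C_mul, add_comm, add_pow, coeff_sum]
  congr 1
  generalize (S.rk y - S.rk x - 1) / 2 = l
  have : ∀ i, coeff (mo q q) ((X 0 * X 1 : P2) ^ i * C c ^ (l - i) * (l.choose i : P2)) =
      if i = q then c ^ (l - q) * l.choose q else 0 := by
    intro i
    have e : ((X 0 * X 1 : P2) ^ i * C c ^ (l - i) * (l.choose i : P2)) =
        monomial (mo i i) (c ^ (l - i) * l.choose i) := by
      rw [monomial_eq]
      simp [Finsupp.prod_fintype, mul_pow]
      ring
    rw [e, coeff_monomial]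
    by_cases h : i = q
    · simp [h]
    · rw [if_neg h, if_neg]
      intro h'
      exact h (by simpa using congrArg (fun f => f 0) h')
  simp only [this, sum_ite_eq', mem_range]
  split_ifs with h
  · rfl
  · rw [Nat.choose_eq_zero_of_lt (by omega)]; simp

theorem exV (c : ℝ) : ∃ V : Matrix L L P2, (∀ x y, Dd (V x y) = (V * S.Om c) x y) ∧
    ∀ x y, X 0 ∣ (V - 1) x y := by
  have key : ∀ n : ℕ, ∃ V : Matrix L L P2, (∀ x y, S.rk y < n → Dd (V x y) = (V * S.Om c) x y) ∧
      ∀ x y, X 0 ∣ (V - 1) x y := by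
    intro n
    induction n with
    | zero => exact ⟨1, fun _ _ h => absurd h (by omega), fun x y => by simp⟩
    | succ n ih =>
      obtain ⟨V, hV, hd⟩ := ih
      choose Q hQ hQd using fun x y => exists_antiD ((V * S.Om c) x y)
      let V' : Matrix L L P2 := fun x y =>
        if S.rk y = n then (1 : Matrix L L P2) x y + Q x y else V x y
      have hm : ∀ x y, S.rk y < n + 1 → (V' * S.Om c) x y = (V * S.Om c) x y := by
        intro x y h
        simp only [Matrix.mul_apply]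
        refine sum_congr rfl fun z _ => ?_
        by_cases hz : S.Om c z y = 0
        · simp [hz]
        · have := S.Om_up c z y hz
          simp only [V']
          rw [if_neg (by omega)]
      refine ⟨V', fun x y h => ?_, fun x y => ?_⟩
      · rw [hm x y h]
        simp only [V']
        split_ifs with h1
        · rw [map_add, Dd_one_apply, zero_add, hQ]
        · exact hV x y (by omega)
      · simp only [V', Matrix.sub_apply]
        split_ifs with h1
        · simpa using hQd x y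
        · exact hd x y
  obtain ⟨V, h1, h2⟩ := key (S.N + 1)
  exact ⟨V, fun x y => h1 x y (by have := S.hN y; omega), h2⟩

/-- The polynomial matrix `V_c(X,Y)`. -/
noncomputable def V (c : ℝ) : Matrix L L P2 := (S.exV c).choose

theorem V_Dd (c : ℝ) (x y : L) : Dd (S.V c x y) = (S.V c * S.Om c) x y :=
  (S.exV c).choose_spec.1 x y

theorem V_sup (c : ℝ) (x y : L) : Sup 1 ((S.V c - 1) x y) := by
  have key : ∀ n y, S.rk y = n → Sup 1 ((S.V c - 1) x y) := by
    intro n
    induction n using Nat.strong_induction_on with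
    | _ n ih =>
      intro y hy
      refine Sup.of_Dd ((S.exV c).choose_spec.2 x y) ?_
      rw [Matrix.sub_apply, map_sub, Dd_one_apply, sub_zero, V_Dd, Matrix.mul_apply]
      refine Sup.sum fun z _ => ?_
      by_cases hz : S.Om c z y = 0
      · simpa [hz] using Sup.zero 0
      · have := S.Om_up c z y hz
        have h1 := ((ih _ (by omega) z rfl).mono (Nat.zero_le 1)).add (sup_one_apply x z)
        rw [Matrix.sub_apply, sub_add_cancel] at h1
        exact h1.mul (S.Om_sup c z y)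
  exact key _ y rfl

theorem V_sup0 (c : ℝ) (x y : L) : Sup 0 (S.V c x y) := by
  have h1 := ((S.V_sup c x y).mono (Nat.zero_le 1)).add (sup_one_apply x y)
  rwa [Matrix.sub_apply, sub_add_cancel] at h1

theorem V_diag (c : ℝ) (x y : L) (q : ℕ) :
    coeff (mo (q + 1) q) ((S.V c - 1) x y) * (q + 1) = coeff (mo q q) (S.Om c x y) := by
  rw [← (S.V_sup c x y).diag, Matrix.sub_apply, map_sub, Dd_one_apply, sub_zero, V_Dd]
  have e : S.V c * S.Om c = (S.V c - 1) * S.Om c + S.Om c := by noncomm_ring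
  have h : Sup 1 (((S.V c - 1) * S.Om c) x y) := by
    rw [Matrix.mul_apply]
    exact Sup.sum fun z _ => (S.V_sup c x z).mul (S.Om_sup c z y)
  have h0 : coeff (mo q q) (((S.V c - 1) * S.Om c) x y) = 0 := by
    by_contra h0; have := h _ _ h0; omega
  rw [e, Matrix.add_apply, coeff_add, h0, zero_add]

theorem ev_zero_of_sup {P : Matrix L L P2} (h : ∀ x y, Sup 1 ((P - 1) x y)) (b : ℝ) :
    ev 0 b P = 1 := by
  have : ev 0 b (P - 1) = 0 := Matrix.ext fun x y => (h x y).eval_zero b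
  rwa [map_sub, map_one, sub_eq_zero] at this

theorem V_line (c a b u : ℝ) : MDeriv (fun t => ev (t + a) (t + b) (S.V c))
    (ev (u + a) (u + b) (S.V c) * S.om (c + (u + a) * (u + b))) u := by
  intro x y
  refine (eval_line_deriv a b u (S.V c x y)).congr_deriv ?_
  rw [V_Dd, ← ev_apply, map_mul, ev_Om]

theorem E_mul_V (c d u : ℝ) :
    S.E (c - d ^ 2) d * ev (u + -d) (u + d) (S.V c) = S.E (c - d ^ 2) u := by
  refine S.uniq_right (c := c - d ^ 2)
    (F := fun t => S.E (c - d ^ 2) d * ev (t + -d) (t + d) (S.V c)) (fun t => ?_)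
    (S.E_deriv _) (u0 := d) ?_ u
  · refine ((MDeriv.const _ t).mul (S.V_line c (-d) d t)).congr ?_
    rw [zero_mul, zero_add, mul_assoc]
    congr 3
    ring
  · simp only [add_neg_cancel]
    rw [ev_zero_of_sup (S.V_sup c), mul_one]

theorem V_swap (c a b : ℝ) : ev a b (S.V c) = S.W ((a - b) / 2) c * ev b a (S.V c) := by
  set d := (a - b) / 2 with hd
  set u := (a + b) / 2 with hu
  have h1 := S.E_mul_V c d u
  have h2 := S.E_mul_V c (-d) u
  have h3 := S.W_eq (c - d ^ 2) d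
  have h4 := S.Gb_mul_E_neg (c - d ^ 2) d
  rw [neg_sq, neg_neg] at h2
  have ea : u + d = a := by rw [hu, hd]; ring
  have eb : u + -d = b := by rw [hu, hd]; ring
  rw [ea, eb] at h1 h2
  rw [sub_add_cancel] at h3
  rw [h3, mul_assoc, h1, ← h2, ← mul_assoc, h4, one_mul]

theorem wM_V_le {c R : ℝ} (hc : 0 ≤ c) (hR : 0 ≤ R) : wM (R / 5) (5 * R) (S.V c) ≤ S.E c R := by
  let a0 : ℝ → Matrix L L ℝ := fun t x y => wn (t / 5) (5 * t) (pderiv 0 (S.V c x y))
  let a1 : ℝ → Matrix L L ℝ := fun t x y => wn (t / 5) (5 * t) (pderiv 1 (S.V c x y))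
  refine ode_le S.hN (B1 := fun _ => 0) (B2 := fun u => S.om (c + u ^ 2))
    (F := fun t => wM (t / 5) (5 * t) (S.V c))
    (F' := fun t => (5⁻¹ : ℝ) • a0 t + (5 : ℝ) • a1 t)
    (H := S.E c) (H' := fun t => S.E c t * S.om (c + t ^ 2)) (b := R)
    (fun _ _ => ⟨Up.zero _, le_rfl⟩) (fun _ _ => ⟨S.om_up _, S.om_nonneg (by positivity)⟩)
    (fun v hv => ⟨fun x y => ?_, fun x y => ?_⟩)
    (fun v _ => ⟨S.E_deriv c v, by simp⟩) (fun x y => ?_) R ⟨hR, le_rfl⟩
  · simp only [wM, a0, a1, Matrix.add_apply, Matrix.smul_apply, smul_eq_mul, wn_pderiv, mul_sum,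
      ← sum_add_distrib]
    simp only [wn]
    refine HasDerivAt.fun_sum fun m _ => ?_
    have h1 := (((hasDerivAt_id v).div_const 5).fun_pow (m 0)).fun_mul
      (((hasDerivAt_id v).const_mul 5).fun_pow (m 1))
    refine (h1.const_mul _).congr_deriv ?_
    simp
    ring
  · have hv0 : 0 ≤ v / 5 := by linarith [hv.1]
    have hv1 : 0 ≤ 5 * v := by linarith [hv.1]
    have h1 : 25 * a1 v x y ≤ a0 v x y := by
      simp only [a0, a1, wn_pderiv, mul_sum]
      refine sum_le_sum fun m hm => ?_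
      have hs := S.V_sup0 c x y (m 0) (m 1) (by rw [mo_eta]; exact mem_support_iff.1 hm)
      simp only [Finsupp.tsub_apply, Finsupp.single_eq_same, ne_eq, zero_ne_one, one_ne_zero,
        not_false_eq_true, Finsupp.single_eq_of_ne, tsub_zero]
      rcases Nat.eq_zero_or_pos (m 1) with h0 | h0
      · rw [h0]
        simp only [Nat.cast_zero, mul_zero, zero_mul]
        positivity
      · obtain ⟨q, hq⟩ : ∃ q, m 1 = q + 1 := ⟨m 1 - 1, by omega⟩
        obtain ⟨p, hp⟩ : ∃ p, m 0 = p + 1 := ⟨m 0 - 1, by omega⟩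
        rw [hq, hp, Nat.add_sub_cancel, Nat.add_sub_cancel, pow_succ, pow_succ]
        have hpq : ((q + 1 : ℕ) : ℝ) ≤ ((p + 1 : ℕ) : ℝ) := by exact_mod_cast (by omega)
        have h2 : 0 ≤ |coeff m (S.V c x y)| * ((v / 5) ^ p * (5 * v) ^ q * (5 * v)) := by
          positivity
        nlinarith [mul_le_mul_of_nonneg_left hpq h2]
    have h2 : a0 v x y ≤ (wM (v / 5) (5 * v) (S.V c) * S.om (c + v ^ 2)) x y + a1 v x y := by
      have e : pderiv 0 (S.V c x y) = (S.V c * S.Om c) x y - pderiv 1 (S.V c x y) := by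
        rw [← V_Dd, Dd_apply]; ring
      simp only [a0, a1]
      rw [e]
      refine (wn_sub_le hv0 hv1 _ _).trans (add_le_add_left ?_ _)
      refine (wM_mul_le hv0 hv1 (S.V c) (S.Om c) x y).trans ?_
      have := S.wM_Om hc hv0 hv1
      rw [show v / 5 * (5 * v) = v ^ 2 by ring] at this
      exact mul_le_mul_of_nonneg_left this (wM_nonneg hv0 hv1 _) x y
    have h3 : 0 ≤ a1 v x y := wn_nonneg hv0 hv1 _
    simp only [zero_mul, zero_add, Matrix.add_apply, Matrix.smul_apply, smul_eq_mul,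
      Matrix.zero_apply]
    linarith
  · have e : S.V c x y = (S.V c - 1) x y + (1 : Matrix L L P2) x y := by simp
    simp only [wM, S.E_zero, zero_div, mul_zero]
    rw [e]
    refine (wn_add_le le_rfl le_rfl _ _).trans ?_
    have h1 : wn 0 0 ((S.V c - 1) x y) = 0 := by
      refine sum_eq_zero fun m hm => ?_
      have := S.V_sup c x y (m 0) (m 1) (by rw [mo_eta]; exact mem_support_iff.1 hm)
      have h0 : m 0 ≠ 0 := by omega
      simp [h0]
    rw [h1, zero_add, Matrix.one_apply, Matrix.one_apply]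
    split_ifs
    · rw [← C_1, wn_C]; simp
    · simp [wn_zero]

/-- `∑_{k ≥ 1} |w_k(c)| y^k`. -/
noncomputable def Zs (c y : ℝ) : Matrix L L ℝ :=
  ∑ k ∈ range S.N, y ^ (k + 1) • am (S.w (k + 1) c)

theorem V1 {c R : ℝ} (hc : 0 ≤ c) (hR : 0 ≤ R) (x y : L) :
    5 * (S.o x y * ((c + R ^ 2) ^ ((S.rk y - S.rk x - 1) / 2 + 1) -
      c ^ ((S.rk y - S.rk x - 1) / 2 + 1))) ≤
      (((S.rk y - S.rk x - 1) / 2 : ℕ) + 1) * R * (S.Zs c (13 / 5 * R) * S.E c R) x y := by
  let Wp : Matrix L L P2 := fun x y =>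
    ∑ k ∈ range S.N, C (S.w (k + 1) c x y) * (C (1 / 2) * (X 0 - X 1)) ^ (k + 1)
  have h5 : 0 ≤ 5 * R := by positivity
  have h6 : 0 ≤ R / 5 := by positivity
  have hW : S.V c - swM (S.V c) = Wp * swM (S.V c) := by
    refine ev_ext fun a b => ?_
    have : ev a b Wp = S.W ((a - b) / 2) c - 1 := by
      ext x y
      simp only [ev_apply, Wp, W, sum_range_succ', S.w_zero, pow_zero, one_smul,
        add_sub_cancel_right, Matrix.sum_apply, Matrix.smul_apply, smul_eq_mul, map_sum]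
      refine sum_congr rfl fun k _ => ?_
      simp
      ring
    rw [map_sub, map_mul, ev_swM, this, S.V_swap c a b]
    noncomm_ring
  have h1 : wM (5 * R) (R / 5) Wp ≤ S.Zs c (13 / 5 * R) := by
    intro x y
    simp only [wM, Wp, Zs, Matrix.sum_apply, Matrix.smul_apply, smul_eq_mul, am]
    refine (wn_sum_le h5 h6 _ _).trans (sum_le_sum fun k _ => (wn_mul_le h5 h6 _ _).trans ?_)
    rw [wn_C, mul_comm]
    refine mul_le_mul_of_nonneg_right ((wn_pow_le h5 h6 _ _).trans
      (pow_le_pow_left₀ (wn_nonneg h5 h6 _) ((wn_mul_le h5 h6 _ _).trans ?_) _)) (abs_nonneg _)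
    have := wn_sub_le h5 h6 (X 0) (X 1)
    rw [wn_X0, wn_X1] at this
    rw [wn_C, abs_of_pos (by norm_num)]
    linarith
  have h2 : wM (5 * R) (R / 5) (swM (S.V c)) ≤ S.E c R := by
    refine le_trans (le_of_eq ?_) (S.wM_V_le hc hR)
    ext x y
    simp only [wM, swM_apply, wn_sw]
  have h3 : wn (5 * R) (R / 5) ((S.V c - swM (S.V c)) x y) ≤
      (S.Zs c (13 / 5 * R) * S.E c R) x y := by
    rw [hW]
    exact ((wM_mul_le h5 h6 _ _).trans (mul_le_mul h1 h2 (wM_nonneg h5 h6 _)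
      ((wM_nonneg h5 h6 _).trans h1))) x y
  set l := (S.rk y - S.rk x - 1) / 2 with hl
  have h4 := le_wn h5 h6 ((S.V c - swM (S.V c)) x y)
    ((range (l + 1)).image fun q => mo (q + 1) q)
  rw [sum_image fun q _ q' _ h => by simpa using congrArg (fun f => f 1) h] at h4
  refine le_trans (le_of_eq ?_) (mul_le_mul_of_nonneg_left (h4.trans h3) (by positivity))
  rw [add_comm c, add_pow, sum_range_succ', mul_sum]
  simp only [pow_zero, Nat.sub_zero, Nat.choose_zero_right, Nat.cast_one, mul_one, one_mul,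
    add_sub_cancel_right, mul_sum, mo_zero, mo_one]
  refine sum_congr rfl fun q _ => ?_
  have e1 : (S.V c - swM (S.V c)) x y = (S.V c - 1) x y - sw ((S.V c - 1) x y) := by
    have : S.V c - swM (S.V c) = (S.V c - 1) - swM (S.V c - 1) := by
      rw [map_sub, map_one]; abel
    rw [this, Matrix.sub_apply, swM_apply]
  have e2 : coeff (mo q (q + 1)) ((S.V c - 1) x y) = 0 := by
    by_contra h0; have := S.V_sup c x y _ _ h0; omega
  have e3 := S.V_diag c x y q
  rw [coeff_Om, ← hl] at e3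
  have e4 : 0 ≤ coeff (mo (q + 1) q) ((S.V c - 1) x y) := by
    have : 0 ≤ S.o x y * (c ^ (l - q) * l.choose q) := by
      have := S.o_nonneg x y
      positivity
    rw [← e3] at this
    exact nonneg_of_mul_nonneg_left this (by positivity)
  rw [e1, coeff_sub, coeff_sw, e2, sub_zero, abs_of_nonneg e4, Nat.add_sub_add_right]
  have e5 : ((l : ℝ) + 1) * l.choose q = ((l + 1).choose (q + 1) : ℕ) * ((q : ℝ) + 1) := by
    exact_mod_cast Nat.add_one_mul_choose_eq l q
  have e6 : (5 * R) ^ (q + 1) * (R / 5) ^ q = 5 * R * (R ^ 2) ^ q := by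
    rw [pow_succ, mul_right_comm, ← mul_pow]
    have : 5 * R * (R / 5) = R ^ 2 := by ring
    rw [this]; ring
  have hq : (q : ℝ) + 1 ≠ 0 := by positivity
  rw [e6]
  apply mul_right_cancel₀ hq
  linear_combination (-5 * (R ^ 2) ^ (q + 1) * (l + 1)) * e3 -
    5 * (R ^ 2) ^ (q + 1) * S.o x y * c ^ (l - q) * e5

/-- The differential equation of `G`. -/
theorem G_Dd {G Z : Matrix L L P2} (h1 : ∀ x y, Sup 1 ((G - 1) x y)) (h2 : G = swM G * Z)
    (h3 : ∀ x y, Dd (Z x y) = 0) (h4 : ∀ x y, (Z - 1) x y ≠ 0 → S.rk x < S.rk y)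
    (h5 : ∀ x y q, coeff (mo q q) (Dd (G x y)) = coeff (mo q q) (S.Om 0 x y)) (x y : L) :
    Dd (G x y) = (S.Om 0 * G) x y := by
  let DG : Matrix L L P2 := fun x y => Dd (G x y)
  let Δ : Matrix L L P2 := DG - S.Om 0 * G
  have hs : ∀ x y, Sup 1 (Δ x y) := by
    intro x y
    have e : S.Om 0 * G = S.Om 0 * (G - 1) + S.Om 0 := by noncomm_ring
    have a1 : Sup 1 ((S.Om 0 * (G - 1)) x y) := by
      rw [Matrix.mul_apply]
      exact Sup.sum fun z _ => (S.Om_sup 0 x z).mul (h1 z y)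
    have a2 : Sup 0 (Dd (G x y)) := by
      have := (h1 x y).toDd
      rwa [Matrix.sub_apply, map_sub, Dd_one_apply, sub_zero] at this
    have a3 : Sup 1 (Dd (G x y) - S.Om 0 x y) :=
      (a2.sub (S.Om_sup 0 x y)).of_diag fun q => by rw [coeff_sub, h5, sub_self]
    have := a3.sub a1
    simp only [Δ, DG, e, Matrix.sub_apply, Matrix.add_apply]
    convert this using 1
    ring
  have hΔ : Δ = swM Δ * Z := by
    have e : DG = swM DG * Z := by
      refine Matrix.ext fun x y => ?_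
      simp only [DG]
      conv_lhs => rw [h2]
      simp only [Matrix.mul_apply, map_sum, Dd_mul, h3, mul_zero, add_zero, swM_apply, Dd_sw]
    simp only [Δ]
    rw [map_sub, sub_mul, ← e, map_mul, swM_Om, mul_assoc, ← h2]
  have key : ∀ n y, S.rk y = n → Δ x y = 0 := by
    intro n
    induction n using Nat.strong_induction_on with
    | _ n ih =>
      intro y hy
      refine (hs x y).eq_zero ?_
      have e : Δ = swM Δ + swM Δ * (Z - 1) := by
        conv_lhs => rw [hΔ]
        noncomm_ring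
      have : (swM Δ * (Z - 1)) x y = 0 := by
        rw [Matrix.mul_apply]
        refine sum_eq_zero fun z _ => ?_
        by_cases hz : (Z - 1) z y = 0
        · rw [hz, mul_zero]
        · have := h4 z y hz
          rw [swM_apply, ih _ (by omega) z rfl, map_zero, zero_mul]
      conv_rhs => rw [e]
      rw [Matrix.add_apply, this, add_zero, swM_apply]
  exact sub_eq_zero.1 (key _ y rfl)

theorem G_eq {G : Matrix L L P2} (h1 : ∀ x y, Sup 1 ((G - 1) x y))
    (hD : ∀ x y, Dd (G x y) = (S.Om 0 * G) x y) (d u : ℝ) :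
    ev (u + d) (u + -d) G = S.Gb (0 - d ^ 2) u * S.E (0 - d ^ 2) d := by
  refine S.uniq_left (c := 0 - d ^ 2) (F := fun t => ev (t + d) (t + -d) G)
    (H := fun t => S.Gb (0 - d ^ 2) t * S.E (0 - d ^ 2) d) (fun t x y => ?_) (fun t => ?_)
    (u0 := -d) ?_ u
  · refine (eval_line_deriv d (-d) t (G x y)).congr_deriv ?_
    rw [hD, ← ev_apply, map_mul, ev_Om, show 0 + (t + d) * (t + -d) = 0 - d ^ 2 + t ^ 2 by ring]
  · exact ((S.Gb_deriv _ t).mul (MDeriv.const _ t)).congr (by noncomm_ring)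
  · have := S.Gb_mul_E_neg (0 - d ^ 2) (-d)
    rw [neg_neg] at this
    simp only [neg_add_cancel]
    rw [this, ev_zero_of_sup h1]

theorem GV_eq {G : Matrix L L P2} (h1 : ∀ x y, Sup 1 ((G - 1) x y))
    (hD : ∀ x y, Dd (G x y) = (S.Om 0 * G) x y) (a b : ℝ) :
    ev a b (G * swM (S.V 0)) = S.W ((a + b) / 2) (a * b) := by
  set d := (a - b) / 2 with hd
  set u := (a + b) / 2 with hu
  have e1 := S.G_eq h1 hD d u
  have e2 := S.E_mul_V 0 d u
  have e3 := S.W_eq (0 - d ^ 2) u
  have ea : u + d = a := by rw [hu, hd]; ring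
  have eb : u + -d = b := by rw [hu, hd]; ring
  have ec : 0 - d ^ 2 + u ^ 2 = a * b := by rw [hu, hd]; ring
  rw [ea, eb] at e1 e2
  rw [ec] at e3
  rw [map_mul, ev_swM, e1, e3, mul_assoc, e2]

theorem w_at_one (k : ℕ) : S.w k 1 = S.wh k := by
  ext x y; simp [w, hom]

theorem G1 {G : Matrix L L P2} (h1 : ∀ x y, Sup 1 ((G - 1) x y))
    (hD : ∀ x y, Dd (G x y) = (S.Om 0 * G) x y) (hp : ∀ x y m, 0 ≤ coeff m (G x y)) {C0 : ℝ}
    (hC : ev 5 5⁻¹ G ≤ C0 • ev 1 1 G) (hC0 : 0 ≤ C0) (x y : L) :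
    ∑ k ∈ range (S.N + 1), |S.wh k x y| * 2 ^ k ≤
      2 * C0 * ∑ k ∈ range (S.N + 1), |S.wh k x y| := by
  let P : Polynomial ℝ := ∑ k ∈ range (S.N + 1), Polynomial.monomial k (S.wh k x y)
  have hs : swM (G * swM (S.V 0)) = G * swM (S.V 0) :=
    ev_ext fun a b => by rw [ev_swM, S.GV_eq h1 hD, S.GV_eq h1 hD, add_comm, mul_comm a b]
  have h2 := cheb_bound P ((G * swM (S.V 0)) x y) (by rw [← swM_apply, hs]) (fun z hz => by
    rw [← ev_apply, S.GV_eq h1 hD, mul_inv_cancel₀ hz]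
    simp only [P, Polynomial.eval_finsetSum, Polynomial.eval_monomial, W, Matrix.sum_apply,
      Matrix.smul_apply, smul_eq_mul, w_at_one, mul_comm]) (S.N + 1)
  have h3 : n2 (S.N + 1) P = ∑ k ∈ range (S.N + 1), |S.wh k x y| * 2 ^ k := by
    refine sum_congr rfl fun k hk => ?_
    simp only [P, Polynomial.finsetSum_coeff, Polynomial.coeff_monomial, sum_ite_eq', hk, if_true]
  have h5 : (0 : ℝ) ≤ 5 := by norm_num
  have h6 : (0 : ℝ) ≤ 5⁻¹ := by norm_num
  have h4 : wM 5 5⁻¹ (swM (S.V 0)) ≤ S.E 0 1 := by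
    refine le_trans (le_of_eq ?_) (S.wM_V_le le_rfl zero_le_one)
    ext x y
    simp only [wM, swM_apply, wn_sw]
    norm_num
  have h7 : wM 5 5⁻¹ G = ev 5 5⁻¹ G := Matrix.ext fun x y => wn_eval _ _ (hp x y)
  have h8 : ev 1 1 G * S.E 0 1 = S.W 1 1 := by
    have e1 := S.G_eq h1 hD 0 1
    have e2 := S.W_eq 0 1
    simp only [add_zero, neg_zero, ne_eq, OfNat.ofNat_ne_zero, not_false_eq_true, zero_pow,
      sub_self, S.E_zero, mul_one, one_pow, zero_add] at e1 e2
    rw [e1, e2]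
  have h9 : wM 5 5⁻¹ (G * swM (S.V 0)) ≤ C0 • S.W 1 1 := by
    rw [← h8, ← smul_mul_assoc]
    exact (wM_mul_le h5 h6 _ _).trans (mul_le_mul (h7 ▸ hC) h4 (wM_nonneg h5 h6 _)
      ((h7 ▸ wM_nonneg h5 h6 G).trans hC))
  have h10 : S.W 1 1 x y ≤ ∑ k ∈ range (S.N + 1), |S.wh k x y| := by
    simp only [W, one_pow, one_smul, Matrix.sum_apply, w_at_one]
    exact sum_le_sum fun k _ => le_abs_self _
  have h11 := h9 x y
  simp only [wM, Matrix.smul_apply, smul_eq_mul] at h11
  rw [← h3]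
  nlinarith [mul_le_mul_of_nonneg_left h10 hC0]

end Sys

end Pool.Agent.P.MP_cedf91_co
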