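import Pool.Agent.P.MP_cedf91_co.An3

/-! Remez-type bounds. -/

namespace Pool.Agent.P.MP_cedf91_co

open Finset EO

theorem vdm (D : ℕ) : ∃ C2 : ℝ, 0 < C2 ∧ ∀ (a : ℕ → ℝ) (B : ℝ),
    (∀ t ∈ Set.Icc (0 : ℝ) 1, |∑ k ∈ range (D + 1), a k * t ^ k| ≤ B) →
    ∑ k ∈ range (D + 1), |a k| ≤ C2 * B := by
  let v : Fin (D + 1) → ℝ := fun i => (i : ℝ) / (D + 1)
  have hv : Function.Injective v := by
    intro i j h
    have : ((D : ℝ) + 1) ≠ 0 := by positivity
    simp only [v] at h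
    rw [div_left_inj' this] at h
    exact Fin.ext (by exact_mod_cast h)
  have hdet : IsUnit (Matrix.vandermonde v).det :=
    isUnit_iff_ne_zero.2 (Matrix.det_vandermonde_ne_zero_iff.2 hv)
  refine ⟨∑ k, ∑ i, |(Matrix.vandermonde v)⁻¹ k i| + 1, by positivity, fun a B h => ?_⟩
  have hB : 0 ≤ B := (abs_nonneg _).trans (h 0 ⟨le_rfl, zero_le_one⟩)
  let a' : Fin (D + 1) → ℝ := fun k => a k
  have e : a' = (Matrix.vandermonde v)⁻¹.mulVec ((Matrix.vandermonde v).mulVec a') := by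
    rw [Matrix.mulVec_mulVec, Matrix.nonsing_inv_mul _ hdet, Matrix.one_mulVec]
  have hb : ∀ i, |(Matrix.vandermonde v).mulVec a' i| ≤ B := by
    intro i
    have := h (v i) ⟨by positivity, by
      simp only [v]
      rw [div_le_one (by positivity)]
      exact_mod_cast i.2.le⟩
    rw [← Fin.sum_univ_eq_sum_range (fun k => a k * v i ^ k)] at this
    simpa [Matrix.mulVec, dotProduct, Matrix.vandermonde, a', mul_comm] using this
  rw [← Fin.sum_univ_eq_sum_range (fun k => |a k|), add_mul, sum_mul]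
  refine le_trans (sum_le_sum fun k _ => ?_) (le_add_of_nonneg_right (by linarith))
  have : a k = ∑ i, (Matrix.vandermonde v)⁻¹ k i * (Matrix.vandermonde v).mulVec a' i :=
    congrFun e k
  rw [this, sum_mul]
  refine (abs_sum_le_sum_abs _ _).trans (sum_le_sum fun i _ => ?_)
  rw [abs_mul]
  exact mul_le_mul_of_nonneg_left (hb i) (abs_nonneg _)

theorem remez_scalar (C1 : ℝ) : ∃ (D : ℕ) (C ε0 : ℝ), 0 < C ∧ 0 < ε0 ∧ ε0 ≤ 1 ∧
    ∀ (M : ℕ) (c : ℕ → ℝ) (ε u X : ℝ),
      ∑ k ∈ range M, |c k| * 2 ^ k ≤ C1 * ∑ k ∈ range M, |c k| → 0 < ε → ε ≤ ε0 → ε ≤ u → u ≤ 1 →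
      (∀ t ∈ Set.Icc 0 ε, |∑ k ∈ range M, c k * t ^ k| ≤ X) →
      ∑ k ∈ range M, |c k| * u ^ k ≤ C * (u / ε) ^ D * X ∧
      ∑ k ∈ (range M).filter (D < ·), |c k| * u ^ k ≤ C * u * (u / ε) ^ D * X := by
  obtain ⟨D, hD⟩ := pow_unbounded_of_one_lt (2 * C1) (one_lt_two (α := ℝ))
  obtain ⟨C2, hC2, hv⟩ := vdm D
  refine ⟨D, 6 * C2, min 1 (1 / (4 * C2)), by positivity, by positivity, min_le_left _ _,
    fun M c ε u X h1 hε hε0 hεu hu1 hX => ?_⟩
  have hε1 : ε ≤ 1 := hε0.trans (min_le_left _ _)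
  have hε2 : 4 * C2 * ε ≤ 1 := by
    have := hε0.trans (min_le_right _ _)
    rw [le_div_iff₀ (by positivity)] at this
    linarith
  have hX0 : 0 ≤ X := (abs_nonneg _).trans (hX 0 ⟨le_rfl, hε.le⟩)
  have split : ∀ f : ℕ → ℝ, ∑ k ∈ range M, f k =
      ∑ k ∈ range (D + 1), (if k < M then f k else 0) + ∑ k ∈ (range M).filter (D < ·), f k := by
    intro f
    rw [← sum_filter_add_sum_filter_not (range M) (fun k => ¬ D < k), ← sum_filter]
    congr 1
    · refine sum_congr ?_ fun _ _ => rfl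
      ext k; simp only [mem_filter, mem_range]; omega
    · simp
  set lo : ℝ → ℝ := fun t => ∑ k ∈ range (D + 1), (if k < M then |c k| * t ^ k else 0) with hlo
  set hi : ℝ → ℝ := fun t => ∑ k ∈ (range M).filter (D < ·), |c k| * t ^ k with hhi
  have lo0 : ∀ t, 0 ≤ t → 0 ≤ lo t := fun t ht =>
    sum_nonneg fun k _ => by split_ifs <;> positivity
  have hi0 : ∀ t, 0 ≤ t → 0 ≤ hi t := fun t ht => sum_nonneg fun k _ => by positivity
  have hitail : ∀ t, 0 ≤ t → t ≤ 1 → hi t ≤ t ^ (D + 1) * hi 1 := by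
    intro t ht ht1
    simp only [hhi, mul_sum, one_pow, mul_one]
    refine sum_le_sum fun k hk => ?_
    rw [mul_comm]
    exact mul_le_mul_of_nonneg_right (pow_le_pow_of_le_one ht ht1 (mem_filter.1 hk).2)
      (abs_nonneg _)
  have loscale : ∀ t, ε ≤ t → lo t ≤ (t / ε) ^ D * lo ε := by
    intro t ht
    simp only [hlo, mul_sum]
    refine sum_le_sum fun k hk => ?_
    split_ifs
    · have h2 : t ^ k = (t / ε) ^ k * ε ^ k := by rw [← mul_pow, div_mul_cancel₀ _ hε.ne']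
      have h3 : (t / ε) ^ k ≤ (t / ε) ^ D :=
        pow_le_pow_right₀ ((one_le_div hε).2 ht) (Nat.lt_succ_iff.1 (mem_range.1 hk))
      rw [h2]
      nlinarith [mul_le_mul_of_nonneg_right h3 (show 0 ≤ |c k| * ε ^ k by positivity)]
    · simp
  have h2 : hi 1 ≤ lo 1 := by
    have a1 : 2 ^ D * hi 1 ≤ ∑ k ∈ range M, |c k| * 2 ^ k := by
      rw [split fun k => |c k| * 2 ^ k]
      refine le_trans ?_ (le_add_of_nonneg_left (lo0 2 zero_le_two))
      simp only [hhi, mul_sum, one_pow, mul_one]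
      refine sum_le_sum fun k hk => ?_
      rw [mul_comm]
      exact mul_le_mul_of_nonneg_left (pow_le_pow_right₀ one_le_two (mem_filter.1 hk).2.le)
        (abs_nonneg _)
    have a2 : ∑ k ∈ range M, |c k| = lo 1 + hi 1 := by
      rw [split]; simp [hlo, hhi]
    rw [a2] at h1
    have a3 := lo0 1 zero_le_one
    have a4 := hi0 1 zero_le_one
    have a5 : (0 : ℝ) < 2 ^ D := by positivity
    nlinarith [mul_le_mul_of_nonneg_right hD.le (add_nonneg a3 a4)]
  have h3 : ε ^ D * lo 1 ≤ lo ε := by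
    have := mul_le_mul_of_nonneg_left (loscale 1 hε1) (pow_nonneg hε.le D)
    rwa [← mul_assoc, ← mul_pow, mul_one_div_cancel hε.ne', one_pow, one_mul] at this
  have h4 : lo ε ≤ C2 * (X + ε * lo ε) := by
    have := hv (fun k => if k < M then c k * ε ^ k else 0) (X + ε * lo ε) fun t ht => by
      have b1 := hX (ε * t) ⟨mul_nonneg hε.le ht.1, mul_le_of_le_one_right hε.le ht.2⟩
      rw [split] at b1
      have b2 : |∑ k ∈ (range M).filter (D < ·), c k * (ε * t) ^ k| ≤ ε * lo ε := by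
        refine (abs_sum_le_sum_abs _ _).trans ?_
        have b3 : ∑ k ∈ (range M).filter (D < ·), |c k * (ε * t) ^ k| ≤ hi ε := by
          refine sum_le_sum fun k _ => ?_
          rw [abs_mul, abs_of_nonneg (pow_nonneg (mul_nonneg hε.le ht.1) k)]
          exact mul_le_mul_of_nonneg_left (pow_le_pow_left₀ (mul_nonneg hε.le ht.1)
            (mul_le_of_le_one_right hε.le ht.2) k) (abs_nonneg _)
        refine b3.trans ((hitail ε hε.le hε1).trans ?_)
        rw [pow_succ]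
        nlinarith [mul_le_mul_of_nonneg_left h2 (pow_nonneg hε.le D)]
      have b4 : ∑ k ∈ range (D + 1), (if k < M then c k * ε ^ k else 0) * t ^ k =
          ∑ k ∈ range (D + 1), (if k < M then c k * (ε * t) ^ k else 0) := by
        refine sum_congr rfl fun k _ => ?_
        split_ifs
        · rw [mul_pow, mul_assoc]
        · simp
      rw [b4]
      have b5 := abs_sub (∑ k ∈ range (D + 1), (if k < M then c k * (ε * t) ^ k else 0) +
        ∑ k ∈ (range M).filter (D < ·), c k * (ε * t) ^ k)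
        (∑ k ∈ (range M).filter (D < ·), c k * (ε * t) ^ k)
      rw [add_sub_cancel_right] at b5
      linarith
    refine le_trans (le_of_eq (sum_congr rfl fun k _ => ?_)) this
    split_ifs
    · rw [abs_mul, abs_of_nonneg (pow_nonneg hε.le k)]
    · simp
  have h5 : lo ε ≤ 2 * C2 * X := by nlinarith [lo0 ε hε.le]
  have hu0 : 0 ≤ u := hε.le.trans hεu
  have hq : 0 ≤ (u / ε) ^ D := by positivity
  have h6 : hi u ≤ 2 * C2 * u * (u / ε) ^ D * X := by
    refine (hitail u hu0 hu1).trans ?_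
    have : u ^ (D + 1) = u * (u / ε) ^ D * ε ^ D := by
      rw [mul_assoc, ← mul_pow, div_mul_cancel₀ _ hε.ne', pow_succ']
    rw [this, mul_assoc]
    have b1 : ε ^ D * hi 1 ≤ 2 * C2 * X :=
      (mul_le_mul_of_nonneg_left h2 (pow_nonneg hε.le D)).trans (h3.trans h5)
    nlinarith [mul_le_mul_of_nonneg_left b1 (mul_nonneg hu0 hq)]
  have h7 : lo u ≤ 2 * C2 * (u / ε) ^ D * X := by
    nlinarith [loscale u hεu, mul_le_mul_of_nonneg_left h5 hq]
  have h8 : 0 ≤ C2 * (u / ε) ^ D * X := by positivity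
  constructor
  · rw [split]
    change lo u + hi u ≤ _
    nlinarith [mul_le_mul_of_nonneg_right hu1 h8]
  · change hi u ≤ _
    nlinarith [mul_nonneg hu0 h8]

namespace Sys

variable {L : Type} [Fintype L] [DecidableEq L] (S : Sys L)

/-- Concentration of the coefficients. -/
def Conc (C1 : ℝ) : Prop := ∀ x y, ∑ k ∈ range (S.N + 1), |S.wh k x y| * 2 ^ k ≤
  C1 * ∑ k ∈ range (S.N + 1), |S.wh k x y|

/-- Remez bounds. -/
def Remez (D : ℕ) (C ε0 : ℝ) : Prop := ∀ r v0 y : ℝ, 0 < v0 → v0 ≤ ε0 * r → v0 ≤ y → y ≤ r →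
  ∑ k ∈ range (S.N + 1), y ^ k • am (S.w k (r ^ 2)) ≤
    (C * (y / v0) ^ D) • ex S.N ((2 * v0) • S.om (r ^ 2)) ∧
  ∑ k ∈ (range (S.N + 1)).filter (D < ·), y ^ k • am (S.w k (r ^ 2)) ≤
    (C * (y / r) * (y / v0) ^ D) • ex S.N ((2 * v0) • S.om (r ^ 2))

theorem w_scale (k : ℕ) (r : ℝ) (x y : L) :
    S.w k (r ^ 2) x y * r ^ k = r ^ (S.rk y - S.rk x) * S.wh k x y := by
  simp only [w, hom]
  by_cases h : S.wh k x y = 0
  · simp [h]
  obtain ⟨m, hm⟩ := S.wh_par k x y h
  have e1 : (S.rk y - S.rk x - k) / 2 = m := by omega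
  have e2 : S.rk y - S.rk x = k + 2 * m := by omega
  rw [e1, e2]
  ring

end Sys

theorem remez (C1 : ℝ) : ∃ (D : ℕ) (C ε0 : ℝ), 0 < C ∧ 0 < ε0 ∧ ε0 ≤ 1 ∧
    ∀ (L : Type) [Fintype L] [DecidableEq L] (S : Sys L), S.Conc C1 → S.Remez D C ε0 := by
  obtain ⟨D, C, ε0, hC, hε0, hε1, h⟩ := remez_scalar C1
  refine ⟨D, C, ε0, hC, hε0, hε1, fun L _ _ S hS r v0 y hv0 h1 h2 h3 => ?_⟩
  have hr : 0 < r := hv0.trans_le (h2.trans h3)
  have key : ∀ x z : L, _ := fun x z => h (S.N + 1) (fun k => S.w k (r ^ 2) x z * r ^ k)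
    (v0 / r) (y / r) (ex S.N ((2 * v0) • S.om (r ^ 2)) x z) (by
      simp only [S.w_scale, abs_mul, abs_of_pos (pow_pos hr _), mul_assoc, ← mul_sum]
      rw [mul_left_comm]
      exact mul_le_mul_of_nonneg_left (hS x z) (by positivity))
    (by positivity) (by rwa [div_le_iff₀ hr]) (by gcongr) (by rwa [div_le_one hr]) (by
      intro t ht
      have ht1 : t * r ≤ v0 := by have := ht.2; rwa [le_div_iff₀ hr] at this
      have ht0 : 0 ≤ t * r := mul_nonneg ht.1 hr.le
      have hc : 0 ≤ r ^ 2 - (t * r) ^ 2 := by nlinarith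
      have e : ∑ k ∈ range (S.N + 1), S.w k (r ^ 2) x z * r ^ k * t ^ k =
          S.W (t * r) (r ^ 2) x z := by
        simp only [Sys.W, Matrix.sum_apply, Matrix.smul_apply, smul_eq_mul]
        exact sum_congr rfl fun k _ => by rw [mul_pow]; ring
      have a1 := S.W_nonneg hc ht0 x z
      have a2 := S.W_le hc ht0
      rw [sub_add_cancel] at a1 a2
      rw [e, abs_of_nonneg a1]
      have a3 := S.om_nonneg (sq_nonneg r)
      exact (a2.trans (ex_mono _ (smul_nonneg (by positivity) a3)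
        (smul_le_smul_of_nonneg_right (by linarith) a3))) x z)
  have e1 : y / r / (v0 / r) = y / v0 := by field_simp
  have e2 : ∀ k x z, |S.w k (r ^ 2) x z * r ^ k| * (y / r) ^ k = y ^ k * |S.w k (r ^ 2) x z| := by
    intro k x z
    rw [abs_mul, abs_of_pos (pow_pos hr _), div_pow]
    field_simp
  simp only [e1, e2] at key
  constructor
  · intro x z
    simpa [Matrix.sum_apply, am] using (key x z).1
  · intro x z
    simpa [Matrix.sum_apply, am] using (key x z).2

end Pool.Agent.P.MP_cedf91_co
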