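import Pool.Agent.P.MP_cedf91_co.An4

/-! Matrix inequalities used in the degree reduction. -/

namespace Pool.Agent.P.MP_cedf91_co

open Finset EO

variable {L : Type} [Fintype L] [DecidableEq L]

theorem split3 {M : Type*} [AddCommMonoid M] (f : ℕ → M) {n j : ℕ} (hj : j < n) :
    ∑ k ∈ range n, f k = ∑ k ∈ range j, f k + f j + ∑ k ∈ (range n).filter (j < ·), f k := by
  rw [← sum_range_succ, ← sum_filter_add_sum_filter_not (range n) (fun k => ¬ j < k)]
  congr 1
  · refine sum_congr ?_ fun _ _ => rfl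
    ext k; simp only [mem_filter, mem_range]; omega
  · simp

theorem pow_sub_le {a b : ℝ} (hb : 0 ≤ b) (hab : b ≤ a) (m : ℕ) :
    a ^ m - b ^ m ≤ (a - b) * (m * a ^ (m - 1)) := by
  have := abs_pow_sub_pow_le a b m
  rw [abs_of_nonneg (sub_nonneg.2 hab), abs_of_nonneg hb, abs_of_nonneg (hb.trans hab),
    max_eq_left hab, mul_assoc] at this
  exact (le_abs_self _).trans this

theorem pow_mul_le {a b : ℝ} (hb : 0 ≤ b) (hab : b ≤ a) (m : ℕ) :
    (a - b) ^ m * (a + m * b) ≤ a ^ (m + 1) := by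
  have h0 : 0 ≤ a - b := sub_nonneg.2 hab
  induction m with
  | zero => simp
  | succ m ih =>
    rw [pow_succ (a - b), pow_succ a (m + 1)]
    push_cast
    have h1 : (a - b) * (a + (m + 1) * b) ≤ (a + m * b) * a := by
      have : 0 ≤ (m + 1 : ℝ) * b * b := by positivity
      nlinarith
    have h2 : 0 ≤ a := hb.trans hab
    calc (a - b) ^ m * (a - b) * (a + (m + 1) * b) = (a - b) ^ m * ((a - b) * (a + (m + 1) * b)) := by
          ring
      _ ≤ (a - b) ^ m * ((a + m * b) * a) := mul_le_mul_of_nonneg_left h1 (pow_nonneg h0 _)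
      _ = (a - b) ^ m * (a + m * b) * a := by ring
      _ ≤ _ := mul_le_mul_of_nonneg_right ih h2

/-- Terms of the exponential series. -/
noncomputable def tm (k : ℕ) (A : Matrix L L ℝ) : Matrix L L ℝ := ((k.factorial : ℝ)⁻¹) • A ^ k

theorem ex_eq (N : ℕ) (A : Matrix L L ℝ) : ex N A = ∑ k ∈ range (N + 1), tm k A := rfl

theorem tm_nonneg (k : ℕ) {A : Matrix L L ℝ} (hA : 0 ≤ A) : 0 ≤ tm k A :=
  smul_nonneg (by positivity) (pow_nonneg hA _)

theorem tm_smul (k : ℕ) (c : ℝ) (A : Matrix L L ℝ) :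
    tm k (c • A) = (c ^ k / k.factorial) • A ^ k := by
  rw [tm, smul_pow, smul_smul, div_eq_inv_mul]

theorem tm_le_ex {k N : ℕ} (hk : k ≤ N) {A : Matrix L L ℝ} (hA : 0 ≤ A) : tm k A ≤ ex N A :=
  single_le_sum (f := fun k => tm k A) (fun k _ => tm_nonneg k hA) (mem_range.2 (by omega))

theorem ex_mul_ge {N j : ℕ} (hj : j ≤ N) {B E : Matrix L L ℝ} (hB : 0 ≤ B) (hE : ex N B ≤ E) :
    tm j ((2 : ℝ) • B) + tm j B * (E - 1) +
      (∑ k ∈ (range (N + 1)).filter (j < ·), tm k B) * E ≤ ex N B * E := by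
  rw [ex_eq, split3 _ (Nat.lt_succ_of_le hj), add_mul, add_mul]
  refine add_le_add_left ?_ _
  have h1 : tm j ((2 : ℝ) • B) = ∑ k ∈ range j, tm k B * tm (j - k) B + tm j B := by
    have h2 : tm j B = tm j B * tm (j - j) B := by simp [tm]
    rw [h2, ← sum_range_succ (fun k => tm k B * tm (j - k) B), tm_smul]
    have h3 : ((2 : ℝ) ^ j / j.factorial) =
        ∑ k ∈ range (j + 1), ((k.factorial : ℝ)⁻¹ * ((j - k).factorial : ℝ)⁻¹) := by
      have := Nat.sum_range_choose j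
      have h4 : (2 : ℝ) ^ j = ∑ k ∈ range (j + 1), (j.choose k : ℝ) := by exact_mod_cast this.symm
      rw [h4, sum_div]
      refine sum_congr rfl fun k hk => ?_
      have h5 : (j.choose k : ℝ) * k.factorial * (j - k).factorial = j.factorial := by
        exact_mod_cast Nat.choose_mul_factorial_mul_factorial (Nat.lt_succ_iff.1 (mem_range.1 hk))
      rw [← h5]
      have : (j.choose k : ℝ) ≠ 0 := by
        exact_mod_cast (Nat.choose_pos (Nat.lt_succ_iff.1 (mem_range.1 hk))).ne'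
      field_simp
    rw [h3, sum_smul]
    refine sum_congr rfl fun k hk => ?_
    rw [tm, tm, smul_mul_smul_comm, ← pow_add, Nat.add_sub_cancel' (Nat.lt_succ_iff.1 (mem_range.1 hk))]
  rw [h1, sum_mul, mul_sub, mul_one]
  have h6 : ∑ k ∈ range j, tm k B * tm (j - k) B ≤ ∑ k ∈ range j, tm k B * E :=
    sum_le_sum fun k _ => mul_le_mul_of_nonneg_left ((tm_le_ex (by omega) hB).trans hE)
      (tm_nonneg k hB)
  refine le_trans (le_of_eq ?_) (add_le_add_left h6 (tm j B * E))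
  abel

theorem tm_mul_le {rk : L → ℕ} {N : ℕ} (hN : ∀ x, rk x ≤ N) (j : ℕ) {B : Matrix L L ℝ}
    (hB : 0 ≤ B) (hU : Up rk B) :
    tm j ((1 / 2 : ℝ) • B) * (ex N ((1 / 2 : ℝ) • B) - 1) ≤
      ∑ k ∈ (range (N + 1)).filter (j < ·), tm k B := by
  have h1 : ex N ((1 / 2 : ℝ) • B) - 1 = ∑ m ∈ range N, tm (m + 1) ((1 / 2 : ℝ) • B) := by
    rw [ex_eq, sum_range_succ']; simp [tm]
  have h2 : ∑ k ∈ (range (N + 1)).filter (j < ·), tm k B = ∑ m ∈ range N, tm (j + 1 + m) B := by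
    have h3 := sum_Ico_eq_sum_range (fun k => tm k B) (j + 1) (j + 1 + N)
    rw [Nat.add_sub_cancel_left] at h3
    rw [← h3]
    refine sum_subset (fun k hk => ?_) fun k hk hk' => ?_
    · simp only [mem_filter, mem_range, mem_Ico] at hk ⊢; omega
    · simp only [mem_filter, mem_range, mem_Ico] at hk hk'
      rw [tm, hU.pow_eq_zero hN (by omega), smul_zero]
  rw [h1, h2, mul_sum]
  refine sum_le_sum fun m _ => ?_
  rw [tm_smul, tm_smul, smul_mul_smul_comm, ← pow_add, tm, show j + (m + 1) = j + 1 + m by ring]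
  refine smul_le_smul_of_nonneg_right ?_ (pow_nonneg hB _)
  have h3 : ((j + (m + 1)).choose (m + 1) : ℝ) * j.factorial * (m + 1).factorial =
      (j + (m + 1)).factorial := by
    exact_mod_cast Nat.add_choose_mul_factorial_mul_factorial j (m + 1)
  have h4 : ((j + (m + 1)).choose (m + 1) : ℝ) ≤ 2 ^ (j + (m + 1)) := by
    exact_mod_cast Nat.choose_le_two_pow _ _
  rw [show j + 1 + m = j + (m + 1) by ring, ← h3, div_mul_div_comm, ← pow_add, one_div, inv_pow,
    div_eq_mul_inv, ← mul_inv, mul_assoc]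
  have h5 : (0 : ℝ) < (j + (m + 1)).choose (m + 1) := by
    exact_mod_cast Nat.choose_pos (by omega)
  exact inv_anti₀ (by positivity) (mul_le_mul_of_nonneg_right h4 (by positivity))

/-- Restriction of a matrix to a set of entries. -/
noncomputable def msk (P : L → L → Prop) (A : Matrix L L ℝ) : Matrix L L ℝ :=
  fun x y => open Classical in if P x y then A x y else 0

omit [Fintype L] [DecidableEq L] in
theorem msk_nonneg (P : L → L → Prop) {A : Matrix L L ℝ} (hA : 0 ≤ A) : 0 ≤ msk P A := by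
  intro x y
  simp only [msk]
  split_ifs
  · exact hA x y
  · exact le_rfl

omit [Fintype L] [DecidableEq L] in
theorem msk_le {P : L → L → Prop} {A B : Matrix L L ℝ} (hB : 0 ≤ B) {c : ℝ}
    (h : ∀ x y, P x y → c * A x y ≤ B x y) : c • msk P A ≤ B := by
  intro x y
  simp only [msk, Matrix.smul_apply, smul_eq_mul]
  split_ifs with h1
  · exact h x y h1
  · simpa using hB x y

namespace Sys

variable (S : Sys L)

/-- Rank difference as a real number. -/
def rho (x y : L) : ℝ := ((S.rk y - S.rk x : ℕ) : ℝ)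

/-- The rank derivation. -/
def del (A : Matrix L L ℝ) : Matrix L L ℝ := fun x y => ((S.rk y : ℝ) - S.rk x) * A x y

theorem am_w_mono (k : ℕ) {s t : ℝ} (hs : 0 ≤ s) (h : s ≤ t) : am (S.w k s) ≤ am (S.w k t) := by
  intro x y
  simp only [am, w, hom, abs_mul, abs_of_nonneg (pow_nonneg hs _),
    abs_of_nonneg (pow_nonneg (hs.trans h) _)]
  exact mul_le_mul_of_nonneg_left (pow_le_pow_left₀ hs h _) (abs_nonneg _)

theorem am_w_le (k : ℕ) {s t : ℝ} (hs : 0 ≤ s) (h : s ≤ t) :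
    am (S.w k t) ≤ am (S.w k s) + (t - s) • am (S.dw k t) := by
  intro x y
  have ht := hs.trans h
  simp only [am, w, dw, hom, dhom, abs_mul, abs_of_nonneg (pow_nonneg hs _),
    abs_of_nonneg (pow_nonneg ht _), Matrix.add_apply, Matrix.smul_apply, smul_eq_mul,
    Nat.abs_cast]
  nlinarith [mul_le_mul_of_nonneg_left (pow_sub_le hs h ((S.rk y - S.rk x - k) / 2))
    (abs_nonneg (S.wh k x y))]

theorem am_dw_le (k : ℕ) {s : ℝ} (hs : 0 ≤ s) : (2 : ℝ) • am (S.dw k s) ≤
    S.om s * am (S.w (k + 1) s) + am (S.w (k + 1) s) * S.om s +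
      ((k : ℝ) + 2) • am (S.w (k + 2) s) := by
  intro x y
  have h := congrFun (congrFun (S.w_rec k s) x) y
  simp only [Matrix.smul_apply, smul_eq_mul, Matrix.sub_apply, Matrix.add_apply] at h ⊢
  have h1 : |(S.om s * S.w (k + 1) s) x y| ≤ (S.om s * am (S.w (k + 1) s)) x y := by
    simp only [Matrix.mul_apply, am]
    refine (abs_sum_le_sum_abs _ _).trans (le_of_eq (sum_congr rfl fun z _ => ?_))
    rw [abs_mul, abs_of_nonneg (S.om_nonneg hs x z)]
  have h2 : |(S.w (k + 1) s * S.om s) x y| ≤ (am (S.w (k + 1) s) * S.om s) x y := by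
    simp only [Matrix.mul_apply, am]
    refine (abs_sum_le_sum_abs _ _).trans (le_of_eq (sum_congr rfl fun z _ => ?_))
    rw [abs_mul, abs_of_nonneg (S.om_nonneg hs z y)]
  have h3 : |((k : ℝ) + 2) * S.w (k + 2) s x y| = ((k : ℝ) + 2) * |S.w (k + 2) s x y| := by
    rw [abs_mul, abs_of_nonneg (by positivity)]
  have h4 : 2 * |S.dw k s x y| = |2 * S.dw k s x y| := by rw [abs_mul, abs_two]
  have h5 : 2 * S.dw k s x y = (S.om s * S.w (k + 1) s) x y + (S.w (k + 1) s * S.om s) x y -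
      ((k : ℝ) + 2) * S.w (k + 2) s x y := by linarith
  have h6 := abs_sub ((S.om s * S.w (k + 1) s) x y + (S.w (k + 1) s * S.om s) x y)
    (((k : ℝ) + 2) * S.w (k + 2) s x y)
  have h7 := abs_add_le ((S.om s * S.w (k + 1) s) x y) ((S.w (k + 1) s * S.om s) x y)
  simp only [am] at *
  rw [h4, h5]
  linarith

theorem del_om_le {s : ℝ} (hs : 0 ≤ s) : S.del (S.om s) ≤ S.om s + s • am (S.dw 1 s) := by
  intro x y
  have h := S.s_mul_dw 1 s x y
  rw [S.w_one] at h
  simp only [del, Matrix.add_apply, Matrix.smul_apply, smul_eq_mul, am, Nat.cast_one] at h ⊢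
  nlinarith [mul_le_mul_of_nonneg_left (le_abs_self (S.dw 1 s x y)) hs]

theorem W_le_sum {v : ℝ} (hv : 0 ≤ v) (s : ℝ) :
    S.W v s ≤ ∑ k ∈ range (S.N + 1), v ^ k • am (S.w k s) :=
  sum_le_sum fun _ _ => smul_le_smul_of_nonneg_left (fun _ _ => le_abs_self _) (pow_nonneg hv _)

theorem wj_le {v s t : ℝ} (hv : 0 ≤ v) (hs : v ^ 2 ≤ s) (hst : s ≤ t) {j : ℕ} (hj : j ≤ S.N) :
    v ^ j • am (S.w j s) ≤ ex S.N ((2 * v) • S.om s) + ∑ k ∈ range j, v ^ k • am (S.w k t) +
      ∑ k ∈ (range (S.N + 1)).filter (j < ·), v ^ k • am (S.w k t) := by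
  intro x y
  have hs0 : 0 ≤ s := (sq_nonneg v).trans hs
  have a1 := S.W_nonneg (sub_nonneg.2 hs) hv x y
  have a2 := S.W_le (sub_nonneg.2 hs) hv x y
  rw [sub_add_cancel] at a1 a2
  rw [W, split3 _ (Nat.lt_succ_of_le hj)] at a1 a2
  have b : ∀ T : Finset ℕ, |(∑ k ∈ T, v ^ k • S.w k s) x y| ≤
      (∑ k ∈ T, v ^ k • am (S.w k t)) x y := by
    intro T
    simp only [Matrix.sum_apply, Matrix.smul_apply, smul_eq_mul]
    refine (abs_sum_le_sum_abs _ _).trans (sum_le_sum fun k _ => ?_)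
    rw [abs_mul, abs_of_nonneg (pow_nonneg hv _)]
    exact mul_le_mul_of_nonneg_left (S.am_w_mono k hs0 hst x y) (pow_nonneg hv _)
  have b1 := abs_le.1 (b (range j))
  have b2 := abs_le.1 (b ((range (S.N + 1)).filter (j < ·)))
  simp only [Matrix.add_apply, Matrix.zero_apply, Matrix.smul_apply, smul_eq_mul, am] at *
  rw [← abs_of_nonneg (pow_nonneg hv j), ← abs_mul, abs_le]
  constructor <;> linarith [b1.1, b1.2, b2.1, b2.2]

theorem low_le {s p q : ℝ} (hp : 1 ≤ p) (hq : p ≤ q) (hs : q ^ 2 ≤ s) :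
    (p / (4 * q)) • msk (fun x y => S.rho x y * p ≤ s) (S.om s) ≤ S.E (s - q ^ 2) q - 1 := by
  have hq0 : 0 < q := by linarith
  have hh : p / (2 * q) ≤ q := by rw [div_le_iff₀ (by positivity)]; nlinarith
  have hh0 : 0 < p / (2 * q) := by positivity
  have h1 := S.E_ge_split (c := s - q ^ 2) (a := q - p / (2 * q)) (b := q) (sub_nonneg.2 hs)
    (by linarith) (by linarith)
  have hps : p ≤ s := by nlinarith
  have h2 : s - p ≤ s - q ^ 2 + (q - p / (2 * q)) ^ 2 := by
    have : 2 * q * (p / (2 * q)) = p := by field_simp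
    nlinarith [sq_nonneg (p / (2 * q))]
  have h3 := S.om_mono (sub_nonneg.2 hps) h2
  rw [sub_sub_cancel] at h1
  refine msk_le (sub_nonneg.2 (S.one_le_E (sub_nonneg.2 hs) hq0.le)) fun x y hxy => ?_
  have h4 := h1 x y
  have h5 := h3 x y
  simp only [Matrix.add_apply, Matrix.smul_apply, smul_eq_mul, Matrix.sub_apply] at h4 ⊢
  have h6 : S.om s x y ≤ 2 * S.om (s - p) x y := by
    simp only [om, hom]
    set l := (S.rk y - S.rk x - 1) / 2 with hl
    have a1 := pow_sub_le (sub_nonneg.2 hps) (by linarith : s - p ≤ s) l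
    have a2 : 2 * (l : ℝ) ≤ S.rho x y := by
      simp only [rho]; exact_mod_cast (by omega)
    have a3 : 2 * (p * (l * s ^ (l - 1))) ≤ s ^ l := by
      rcases Nat.eq_zero_or_pos l with h0 | h0
      · simp [h0]
      · have : s ^ l = s * s ^ (l - 1) := by rw [← pow_succ']; congr 1; omega
        rw [this]
        have a4 : 2 * (l : ℝ) * p ≤ s := by nlinarith
        have a5 : 0 ≤ s ^ (l - 1) := pow_nonneg (by linarith) _
        nlinarith [mul_le_mul_of_nonneg_right a4 a5]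
    rw [sub_sub_cancel] at a1
    nlinarith [S.o_nonneg x y]
  have h7 : p / (4 * q) = p / (2 * q) / 2 := by field_simp; norm_num
  rw [h7]
  nlinarith

omit [Fintype L] [DecidableEq L] in
theorem high_le {s p : ℝ} (hs : 0 ≤ s) :
    (p * s) • msk (fun x y => p * s < S.rho x y) (S.om s) ≤ S.del (S.om s) := by
  have key : ∀ x y, S.del (S.om s) x y = S.rho x y * S.om s x y := by
    intro x y
    by_cases h : S.om s x y = 0
    · simp [del, h]
    · have := S.om_up s x y h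
      simp only [del, rho]
      rw [Nat.cast_sub this.le]
  refine msk_le (fun x y => ?_) fun x y h => ?_
  · rw [key]; exact mul_nonneg (Nat.cast_nonneg _) (S.om_nonneg hs x y)
  · rw [key]; exact mul_le_mul_of_nonneg_right h.le (S.om_nonneg hs x y)

theorem mid_le {s p q : ℝ} (hp : 1 ≤ p) (hq : 1 ≤ q) (hs : q ^ 2 ≤ s) (x y : L)
    (h : S.rho x y ≤ p * s) :
    S.om s x y ≤ 2 * p * q / 5 * (S.Zs (s - q ^ 2) (13 / 5 * q) * S.E (s - q ^ 2) q) x y := by
  have h1 := S.V1 (sub_nonneg.2 hs) (by linarith : 0 ≤ q) x y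
  rw [sub_add_cancel] at h1
  have hZ : 0 ≤ (S.Zs (s - q ^ 2) (13 / 5 * q) * S.E (s - q ^ 2) q) x y :=
    mul_nonneg (sum_nonneg fun k _ => smul_nonneg (by positivity) (am_nonneg _))
      (S.E_nonneg (sub_nonneg.2 hs) (by linarith)) x y
  by_cases h0 : S.o x y = 0
  · simp only [om, hom, h0, zero_mul]
    positivity
  obtain ⟨l, hl⟩ := S.o_par x y h0
  have e : (S.rk y - S.rk x - 1) / 2 = l := by omega
  simp only [om, hom, e] at h1 ⊢
  have a1 : (l : ℝ) + 1 ≤ p * s := by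
    refine le_trans ?_ h
    simp only [rho]; exact_mod_cast (by omega)
  have hq2 : 1 ≤ q ^ 2 := by nlinarith
  have hs0 : 0 < s := by linarith
  have a2 := pow_mul_le (sq_nonneg q) hs (l + 1)
  push_cast at a2
  have a3 : s + (l + 1) * q ^ 2 ≤ 2 * p * s * q ^ 2 := by
    have : s ≤ p * s * q ^ 2 := by nlinarith [mul_le_mul hp hq2 zero_le_one (by linarith : 0 ≤ p)]
    nlinarith [mul_le_mul_of_nonneg_right a1 (sq_nonneg q)]
  have a4 : s ^ l * (l + 1) ≤ 2 * p * (s ^ (l + 1) - (s - q ^ 2) ^ (l + 1)) := by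
    have hpos : 0 < s + (l + 1) * q ^ 2 := by positivity
    refine le_of_mul_le_mul_right ?_ hpos
    have a5 : 0 ≤ s ^ l * (l + 1) := by positivity
    have a6 := mul_le_mul_of_nonneg_left a3 a5
    have a7 := mul_le_mul_of_nonneg_left a2 (by linarith : 0 ≤ 2 * p)
    rw [pow_succ s (l + 1), pow_succ s l] at a7
    rw [pow_succ s l]
    nlinarith
  have hl0 : (0 : ℝ) < l + 1 := by positivity
  refine le_of_mul_le_mul_right ?_ hl0
  nlinarith [mul_le_mul_of_nonneg_left a4 (S.o_nonneg x y),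
    mul_le_mul_of_nonneg_left h1 (by linarith : 0 ≤ 2 * p / 5)]

theorem Zs_le {D : ℕ} {C ε0 : ℝ} (hR : S.Remez D C ε0) (hC : 0 ≤ C) {c q : ℝ} (hq : 0 < q)
    (hc : 0 ≤ c) (h1 : q / 4 ≤ ε0 * √c) (h2 : 13 / 5 * q ≤ √c) :
    S.Zs c (13 / 5 * q) ≤ (C * 11 ^ D) • (ex S.N ((1 / 2 : ℝ) • q • S.om c) - 1) := by
  have h3 := (hR √c (q / 4) (13 / 5 * q) (by positivity) h1 (by linarith) h2).1
  rw [Real.sq_sqrt hc, sum_range_succ', show (2 * (q / 4)) = 1 / 2 * q by ring,
    mul_smul (1 / 2 : ℝ) q] at h3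
  have h4 : 0 ≤ ex S.N ((1 / 2 : ℝ) • q • S.om c) - 1 :=
    sub_nonneg.2 (one_le_ex _ (smul_nonneg (by norm_num) (smul_nonneg hq.le (S.om_nonneg hc))))
  intro x y
  by_cases hxy : x = y
  · subst hxy
    have : S.Zs c (13 / 5 * q) x x = 0 := by
      simp only [Zs, Matrix.sum_apply, Matrix.smul_apply, am, w, hom]
      refine sum_eq_zero fun k _ => ?_
      have : S.wh (k + 1) x x = 0 := by
        by_contra h0
        obtain ⟨m, hm⟩ := S.wh_par _ x x h0
        omega
      simp [this]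
    rw [this]
    exact smul_nonneg (by positivity) h4 x x
  · have h5 := h3 x y
    have h6 := h4 x y
    simp only [Matrix.add_apply, Matrix.smul_apply, smul_eq_mul, Matrix.sub_apply, S.w_zero, am,
      Matrix.one_apply_ne hxy, abs_zero, mul_zero, add_zero, sub_zero, Matrix.zero_apply] at h5 h6 ⊢
    refine le_trans h5 (mul_le_mul_of_nonneg_right (mul_le_mul_of_nonneg_left
      (pow_le_pow_left₀ (by positivity) ?_ _) hC) h6)
    rw [div_le_iff₀ (by positivity)]
    linarith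

theorem W_damp {s s' p v v' : ℝ} (hp : 0 < p) (hps : p ^ 2 ≤ s) (hs' : 0 ≤ s')
    (h1 : s' ≤ s - p ^ 2) (hv : 0 ≤ v') (hvv : v' ≤ v) (x y : L) (h : s < S.rho x y * p) :
    S.W v' s' x y ≤
      Real.exp (-(p / 2)) * (∑ k ∈ range (S.N + 1), (2 * v) ^ k • am (S.w k s)) x y := by
  refine (S.W_le_sum hv s' x y).trans ?_
  simp only [Matrix.sum_apply, Matrix.smul_apply, smul_eq_mul, mul_sum]
  refine sum_le_sum fun k _ => ?_
  have hs0 : 0 < s := lt_of_lt_of_le (by positivity) hps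
  have a1 := S.am_w_mono k hs' h1 x y
  have a2 : am (S.w k (s - p ^ 2)) x y ≤ Real.exp (-(p / 2)) * 2 ^ k * am (S.w k s) x y := by
    simp only [am, w, hom, abs_mul, abs_of_nonneg (pow_nonneg hs0.le _),
      abs_of_nonneg (pow_nonneg (sub_nonneg.2 hps) _)]
    by_cases h0 : S.wh k x y = 0
    · simp [h0]
    obtain ⟨m, hm⟩ := S.wh_par k x y h0
    have e : (S.rk y - S.rk x - k) / 2 = m := by omega
    have e2 : S.rho x y = k + 2 * m := by
      simp only [rho]; exact_mod_cast (by omega)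
    rw [e, mul_left_comm]
    refine mul_le_mul_of_nonneg_left ?_ (abs_nonneg _)
    set t := p ^ 2 / s with ht
    have ht0 : 0 ≤ t := by positivity
    have ht1 : t ≤ 1 := by rwa [ht, div_le_one hs0]
    have b1 : s - p ^ 2 = (1 - t) * s := by rw [ht]; field_simp
    rw [b1, mul_pow]
    refine mul_le_mul_of_nonneg_right ?_ (by positivity)
    have b2 : (1 - t) ^ m ≤ Real.exp (-t) ^ m :=
      pow_le_pow_left₀ (by linarith) (by linarith [Real.add_one_le_exp (-t)]) _
    have b3 : Real.exp (1 / 2) ≤ 2 := by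
      have := Real.exp_one_lt_d9
      have h2 : Real.exp (1 / 2) ^ 2 = Real.exp 1 := by rw [← Real.exp_nat_mul]; norm_num
      nlinarith [Real.exp_pos (1 / 2)]
    refine b2.trans (le_trans ?_ (mul_le_mul_of_nonneg_left (pow_le_pow_left₀
      (Real.exp_pos _).le b3 k) (Real.exp_pos _).le))
    rw [← Real.exp_nat_mul, ← Real.exp_nat_mul, ← Real.exp_add, Real.exp_le_exp]
    have b4 : p ≤ t * (k + 2 * m) := by
      rw [ht, div_mul_eq_mul_div, le_div_iff₀ hs0, ← e2]
      nlinarith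
    nlinarith [mul_le_mul_of_nonneg_right ht1 (Nat.cast_nonneg (α := ℝ) k)]
  have a3 : v' ^ k ≤ v ^ k := pow_le_pow_left₀ hv hvv k
  have a4 := am_nonneg (S.w k s') x y
  rw [mul_pow]
  calc v' ^ k * am (S.w k s') x y ≤ v ^ k * (Real.exp (-(p / 2)) * 2 ^ k * am (S.w k s) x y) :=
        mul_le_mul a3 (a1.trans a2) a4 (pow_nonneg (hv.trans hvv) _)
    _ = _ := by ring

end Sys

end Pool.Agent.P.MP_cedf91_co
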