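import Pool.Agent.P.MP_cedf91_co.An5

/-! The averaging functional and the degree reduction. -/

namespace Pool.Agent.P.MP_cedf91_co

open Finset EO

variable {L : Type} [Fintype L] [DecidableEq L]

/-- Properties of the averaging functional. -/
structure Phi (A : Matrix L L ℝ) (φ : Matrix L L ℝ →ₗ[ℝ] ℝ) (β : ℝ) : Prop where
  mono : ∀ X Y, X ≤ Y → φ X ≤ φ Y
  one : φ 1 = 1
  left : ∀ X, 0 ≤ X → φ (A * X) ≤ φ X
  right : ∀ X, 0 ≤ X → φ (X * A) ≤ φ X
  bd : ∀ B j, 0 ≤ B → B ≤ A → φ (B ^ j) ≤ φ (B ^ j * A) + β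
  val : φ A = 1 - β

theorem Sys.exPhi (S : Sys L) {A : Matrix L L ℝ} (hA : 0 ≤ A) (hU : Up S.rk A) {x0 y0 : L} {n : ℕ}
    (hn : S.rk y0 = S.rk x0 + n) (hpos : 0 < (A ^ n) x0 y0) :
    ∃ φ β, Phi A φ β ∧ φ (S.del A) = n * β := by
  set R := ∑ i ∈ range (S.N + 1), A ^ i with hR
  have hR0 : 0 ≤ R := sum_nonneg fun i _ => pow_nonneg hA i
  have hz := hU.pow_eq_zero S.hN (Nat.lt_succ_self S.N)
  have hRA : R * A = R - 1 := by
    rw [eq_sub_iff_add_eq, hR, sum_mul]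
    simp only [← pow_succ]
    rw [← pow_zero A, ← sum_range_succ' (fun i => A ^ i), sum_range_succ, hz, add_zero]
  have hAR : A * R = R - 1 := by
    rw [← hRA, hR, mul_sum, sum_mul]
    simp only [← pow_succ, ← pow_succ']
  have hR1 : 1 ≤ R := by
    rw [← sub_nonneg, ← hRA]; exact mul_nonneg hR0 hA
  have hRA' : R * A ≤ R := by rw [hRA]; exact sub_le_self _ zero_le_one
  have hAR' : A * R ≤ R := by rw [hAR]; exact sub_le_self _ zero_le_one
  have hRj : ∀ j, R * A ^ j ≤ R := by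
    intro j
    induction j with
    | zero => simp
    | succ j ih =>
      rw [pow_succ, ← mul_assoc]
      exact (mul_le_mul_of_nonneg_right ih hA).trans hRA'
  have hZ : 0 < (R * R) x0 y0 := by
    have h1 : A ^ n ≤ R := single_le_sum (f := fun i => A ^ i) (fun i _ => pow_nonneg hA i)
      (mem_range.2 (by have := S.hN y0; omega))
    have h2 : R * 1 ≤ R * R := mul_le_mul_of_nonneg_left hR1 hR0
    rw [mul_one] at h2
    exact hpos.trans_le ((h1.trans h2) x0 y0)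
  set Z := (R * R) x0 y0 with hZdef
  let φ : Matrix L L ℝ →ₗ[ℝ] ℝ :=
    { toFun := fun X => (R * X * R) x0 y0 / Z
      map_add' := fun X Y => by simp [mul_add, add_mul, add_div]
      map_smul' := fun c X => by simp [mul_div_assoc] }
  have hφ : ∀ X, φ X = (R * X * R) x0 y0 / Z := fun _ => rfl
  have hle : ∀ X Y : Matrix L L ℝ, X ≤ Y → X x0 y0 / Z ≤ Y x0 y0 / Z :=
    fun X Y h => div_le_div_of_nonneg_right (h x0 y0) hZ.le
  refine ⟨φ, R x0 y0 / Z, ⟨fun X Y h => ?_, ?_, fun X h => ?_, fun X h => ?_, fun B j h1 h2 => ?_,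
    ?_⟩, ?_⟩
  · exact hle _ _ (mul_le_mul_of_nonneg_right (mul_le_mul_of_nonneg_left h hR0) hR0)
  · rw [hφ, mul_one, div_self hZ.ne']
  · refine hle _ _ (mul_le_mul_of_nonneg_right ?_ hR0)
    rw [← mul_assoc]
    exact mul_le_mul_of_nonneg_right hRA' h
  · refine hle _ _ ?_
    rw [← mul_assoc, mul_assoc (R * X)]
    exact mul_le_mul_of_nonneg_left hAR' (mul_nonneg hR0 h)
  · rw [hφ, hφ, ← add_div, ← Matrix.add_apply]
    refine hle _ _ ?_
    have e : R * (B ^ j * A) * R = R * B ^ j * R - R * B ^ j := by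
      rw [← mul_assoc, mul_assoc (R * B ^ j), hAR, mul_sub, mul_one]
    rw [e, sub_add_eq_add_sub, le_sub_iff_add_le]
    exact add_le_add_right ((mul_le_mul_of_nonneg_left (pow_le_pow_left₀ h1 h2 j) hR0).trans
      (hRj j)) _
  · rw [hφ, hRA, sub_mul, one_mul, Matrix.sub_apply, sub_div, div_self hZ.ne']
  · have hdel : ∀ X Y : Matrix L L ℝ, S.del (X * Y) = S.del X * Y + X * S.del Y := by
      intro X Y
      ext x y
      simp only [Sys.del, Matrix.mul_apply, Matrix.add_apply, mul_sum, ← sum_add_distrib]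
      exact sum_congr rfl fun z _ => by ring
    have h1 : S.del (R - 1) = S.del R := by
      ext x y
      simp only [Sys.del, Matrix.sub_apply, Matrix.one_apply]
      split_ifs with h
      · simp [h]
      · simp
    have h2 := hdel A R
    rw [hAR, h1] at h2
    have h3 : R * S.del A * R = S.del R := by
      have : R * S.del R = R * (S.del A * R) + (R - 1) * S.del R := by
        conv_lhs => rw [h2]
        rw [mul_add, ← mul_assoc R A, hRA]
      rw [mul_assoc, eq_sub_of_add_eq this.symm]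
      noncomm_ring
    rw [hφ, h3, Sys.del, hn]
    push_cast
    ring

namespace Phi

variable {A : Matrix L L ℝ} {φ : Matrix L L ℝ →ₗ[ℝ] ℝ} {β : ℝ} (h : Phi A φ β)
include h

theorem nonneg {X : Matrix L L ℝ} (hX : 0 ≤ X) : 0 ≤ φ X := by
  simpa using h.mono _ _ hX

theorem pow_mul {B X : Matrix L L ℝ} (hB : 0 ≤ B) (hBA : B ≤ A) (hX : 0 ≤ X) (j : ℕ) :
    φ (B ^ j * X) ≤ φ X := by
  induction j with
  | zero => simp
  | succ j ih =>
    rw [pow_succ', mul_assoc]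
    have h1 : 0 ≤ B ^ j * X := mul_nonneg (pow_nonneg hB j) hX
    exact ((h.mono _ _ (mul_le_mul_of_nonneg_right hBA h1)).trans (h.left _ h1)).trans ih

theorem pow_le {B : Matrix L L ℝ} (hB : 0 ≤ B) (hBA : B ≤ A) (j : ℕ) : φ (B ^ j) ≤ 1 := by
  simpa [h.one] using h.pow_mul hB hBA zero_le_one j

theorem low_ex {B : Matrix L L ℝ} (hB : 0 ≤ B) (hBA : B ≤ A) {q : ℝ} (hq : 1 ≤ q) (i : ℕ) :
    φ (∑ k ∈ range (i + 1), tm k ((2 * q) • B)) ≤ Real.exp 2 * q ^ i := by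
  refine le_trans ?_ (mul_le_mul_of_nonneg_right (Real.sum_le_exp_of_nonneg zero_le_two (i + 1))
    (by positivity))
  rw [map_sum, sum_mul]
  refine sum_le_sum fun k hk => ?_
  rw [tm_smul, map_smul, smul_eq_mul, mul_pow]
  have h1 := h.pow_le hB hBA k
  have h2 : q ^ k ≤ q ^ i := pow_le_pow_right₀ hq (Nat.lt_succ_iff.1 (mem_range.1 hk))
  calc 2 ^ k * q ^ k / k.factorial * φ (B ^ k) ≤ 2 ^ k * q ^ k / k.factorial * 1 :=
        mul_le_mul_of_nonneg_left h1 (by positivity)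
    _ = 2 ^ k / k.factorial * q ^ k := by ring
    _ ≤ _ := mul_le_mul_of_nonneg_left h2 (by positivity)

end Phi

/-- The setting of the degree reduction. -/
structure Ctx (S : Sys L) (D : ℕ) (C ε0 r β : ℝ) (φ : Matrix L L ℝ →ₗ[ℝ] ℝ) : Prop where
  rem : S.Remez D C ε0
  hC : 0 < C
  hε : ε0 ≤ 1
  hr : 1 ≤ ε0 * r
  hr1 : 1 ≤ r
  phi : Phi (S.om (r ^ 2)) φ β

/-- The averaged coefficients. -/
noncomputable def av (S : Sys L) (r : ℝ) (φ : Matrix L L ℝ →ₗ[ℝ] ℝ) (k : ℕ) : ℝ :=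
  φ (am (S.w k (r ^ 2)))

namespace Ctx

variable {S : Sys L} {D : ℕ} {C ε0 r β : ℝ} {φ : Matrix L L ℝ →ₗ[ℝ] ℝ} (h : Ctx S D C ε0 r β φ)
include h

theorem av_nonneg (k : ℕ) : 0 ≤ av S r φ k := h.phi.nonneg (am_nonneg _)

omit h in
theorem phi_sum (T : Finset ℕ) (y : ℝ) :
    φ (∑ k ∈ T, y ^ k • am (S.w k (r ^ 2))) = ∑ k ∈ T, y ^ k * av S r φ k := by
  simp only [map_sum, map_smul, smul_eq_mul, av]

theorem phi_ex : φ (ex S.N ((2 * 1 : ℝ) • S.om (r ^ 2))) ≤ Real.exp 2 := by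
  have := h.phi.low_ex (S.om_nonneg (sq_nonneg r)) le_rfl le_rfl S.N
  rwa [one_pow, mul_one (Real.exp 2)] at this

theorem sum_le {y : ℝ} (h1 : 1 ≤ y) (h2 : y ≤ r) :
    ∑ k ∈ range (S.N + 1), y ^ k * av S r φ k ≤ C * Real.exp 2 * y ^ D := by
  have := h.phi.mono _ _ (h.rem r 1 y one_pos h.hr h1 h2).1
  rw [phi_sum, map_smul, smul_eq_mul, div_one] at this
  nlinarith [mul_le_mul_of_nonneg_left h.phi_ex (show 0 ≤ C * y ^ D by have := h.hC; positivity)]

theorem tail_le {y : ℝ} (h1 : 1 ≤ y) (h2 : y ≤ r) :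
    ∑ k ∈ (range (S.N + 1)).filter (D < ·), y ^ k * av S r φ k ≤
      C * Real.exp 2 * y ^ (D + 1) * r⁻¹ := by
  have := h.phi.mono _ _ (h.rem r 1 y one_pos h.hr h1 h2).2
  rw [phi_sum, map_smul, smul_eq_mul, div_one] at this
  have h3 : 0 ≤ C * (y / r) * y ^ D := by have := h.hC; have := h.hr1; positivity
  refine this.trans ((mul_le_mul_of_nonneg_left h.phi_ex h3).trans (le_of_eq ?_))
  rw [pow_succ, div_eq_mul_inv]; ring

omit h in
theorem av_zero {k : ℕ} (hk : S.N < k) : av S r φ k = 0 := by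
  have : am (0 : Matrix L L ℝ) = 0 := by ext x y; simp [am]
  rw [av, S.w_eq_zero hk, this, map_zero]

theorem av_le (k : ℕ) : av S r φ k ≤ C * Real.exp 2 := by
  by_cases hk : S.N < k
  · rw [av_zero hk]; have := h.hC; positivity
  have := h.sum_le le_rfl h.hr1
  simp only [one_pow, one_mul, mul_one] at this
  exact (single_le_sum (fun k _ => h.av_nonneg k) (mem_range.2 (by omega))).trans this

theorem av_tail {k : ℕ} (hk : D < k) : av S r φ k ≤ C * Real.exp 2 * r⁻¹ := by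
  by_cases hk' : S.N < k
  · rw [av_zero hk']; have := h.hC; have := h.hr1; positivity
  have := h.tail_le le_rfl h.hr1
  simp only [one_pow, one_mul, mul_one] at this
  exact (single_le_sum (fun k _ => h.av_nonneg k)
    (mem_filter.2 ⟨mem_range.2 (by omega), hk⟩)).trans this

theorem av_one : av S r φ 1 = 2 * (1 - β) := by
  have : am (S.w 1 (r ^ 2)) = (2 : ℝ) • S.om (r ^ 2) := by
    ext x y
    rw [S.w_one, am, abs_of_nonneg (smul_nonneg zero_le_two (S.om_nonneg (sq_nonneg r)) x y)]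
  rw [av, this, map_smul, h.phi.val, smul_eq_mul]

theorem dw_le (k : ℕ) : 2 * φ (am (S.dw k (r ^ 2))) ≤
    2 * av S r φ (k + 1) + (k + 2) * av S r φ (k + 2) := by
  have := h.phi.mono _ _ (S.am_dw_le k (sq_nonneg r))
  simp only [map_add, map_smul, smul_eq_mul] at this
  have h1 := h.phi.left _ (am_nonneg (S.w (k + 1) (r ^ 2)))
  have h2 := h.phi.right _ (am_nonneg (S.w (k + 1) (r ^ 2)))
  simp only [av]
  linarith

theorem del_le : φ (S.del (S.om (r ^ 2))) ≤ (1 + 3 * (C * Real.exp 2)) * r ^ 2 := by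
  have h1 := h.phi.mono _ _ (S.del_om_le (sq_nonneg r))
  have h2 := h.dw_le 1
  have h3 := h.av_le 2
  have h4 := h.av_le 3
  have h5 := h.phi.pow_le (S.om_nonneg (sq_nonneg r)) le_rfl 1
  have h6 : 1 ≤ r ^ 2 := by nlinarith [h.hr1]
  have h7 : 0 ≤ C * Real.exp 2 := by have := h.hC; positivity
  simp only [map_add, map_smul, smul_eq_mul, pow_one] at h1 h5
  norm_num at h2
  have h8 : φ (am (S.dw 1 (r ^ 2))) ≤ 3 * (C * Real.exp 2) := by linarith
  nlinarith [mul_le_mul_of_nonneg_left h8 (sq_nonneg r)]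

theorem low_le {y : ℝ} (h1 : 1 ≤ y) {i : ℕ} (hi : i ≤ D) :
    ∑ k ∈ range (i + 1), y ^ k * av S r φ k ≤ (D + 1) * (C * Real.exp 2) * y ^ i := by
  have h7 : 0 ≤ C * Real.exp 2 := by have := h.hC; positivity
  refine (sum_le_card_nsmul _ _ (C * Real.exp 2 * y ^ i) fun k hk => ?_).trans ?_
  · rw [mul_comm]
    exact mul_le_mul (h.av_le k) (pow_le_pow_right₀ h1 (Nat.lt_succ_iff.1 (mem_range.1 hk)))
      (by positivity) h7
  · rw [card_range, nsmul_eq_mul, mul_assoc (D + 1 : ℝ)]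
    refine mul_le_mul_of_nonneg_right ?_ (by positivity)
    exact_mod_cast Nat.succ_le_succ hi

theorem small_le {y δ : ℝ} (h1 : 1 ≤ y) (h2 : y ≤ r) {j : ℕ}
    (ha : ∀ k, j < k → k ≤ D + 2 → av S r φ k ≤ δ) (hδ : r⁻¹ ≤ δ) :
    ∑ k ∈ (range (S.N + 1)).filter (j < ·), y ^ k * av S r φ k ≤
      (D + 1 + C * Real.exp 2) * y ^ (D + 1) * δ := by
  have h7 : 0 ≤ C * Real.exp 2 := by have := h.hC; positivity
  have hδ0 : 0 ≤ δ := le_trans (by have := h.hr1; positivity) hδ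
  rw [← sum_filter_add_sum_filter_not _ (D < ·)]
  have a1 : ∑ k ∈ ((range (S.N + 1)).filter (j < ·)).filter (D < ·), y ^ k * av S r φ k ≤
      C * Real.exp 2 * y ^ (D + 1) * δ := by
    refine le_trans (sum_le_sum_of_subset_of_nonneg (fun k hk => ?_)
      fun k _ _ => mul_nonneg (by positivity) (h.av_nonneg k))
      ((h.tail_le h1 h2).trans (mul_le_mul_of_nonneg_left hδ (by positivity)))
    simp only [mem_filter] at hk ⊢
    exact ⟨hk.1.1, hk.2⟩
  have a2 : ∑ k ∈ ((range (S.N + 1)).filter (j < ·)).filter (fun k => ¬ D < k),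
      y ^ k * av S r φ k ≤ (D + 1) * (y ^ (D + 1) * δ) := by
    refine (sum_le_card_nsmul _ _ (y ^ (D + 1) * δ) fun k hk => ?_).trans ?_
    · simp only [mem_filter] at hk
      exact mul_le_mul (pow_le_pow_right₀ h1 (by omega)) (ha k hk.1.2 (by omega)) (h.av_nonneg k)
        (by positivity)
    · rw [nsmul_eq_mul]
      refine mul_le_mul_of_nonneg_right ?_ (by positivity)
      have : (((range (S.N + 1)).filter (j < ·)).filter (fun k => ¬ D < k)).card ≤ D + 1 := by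
        rw [← card_range (D + 1)]
        refine card_le_card fun k hk => ?_
        simp only [mem_filter, mem_range] at hk ⊢
        omega
      exact_mod_cast this
  linarith

theorem phiW_le {y δ : ℝ} (h1 : 1 ≤ y) (h2 : y ≤ r) {i : ℕ} (hi : i ≤ D) (hN : i + 1 ≤ S.N)
    (ha : ∀ k, i + 1 < k → k ≤ D + 2 → av S r φ k ≤ δ) (hδ : r⁻¹ ≤ δ) :
    φ (S.W y (r ^ 2)) ≤ (D + 1) * (C * Real.exp 2) * y ^ i + y ^ (i + 1) * av S r φ (i + 1) +
      (D + 1 + C * Real.exp 2) * y ^ (D + 1) * δ := by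
  have := h.phi.mono _ _ (S.W_le_sum (by linarith : 0 ≤ y) (r ^ 2))
  rw [phi_sum, split3 _ (Nat.lt_succ_of_le hN)] at this
  linarith [h.low_le h1 hi, h.small_le h1 h2 ha hδ]

/-- Steps b, c, d. -/
theorem av_le_phi {q δ : ℝ} (hq : 1 ≤ q) (h2 : 2 * q ^ 2 ≤ r) {i : ℕ} (hi : i ≤ D)
    (hN : i + 1 ≤ S.N) (ha : ∀ k, i + 1 < k → k ≤ D + 2 → av S r φ k ≤ δ) (hi' : i + 1 ≤ D)
    (hδ : r⁻¹ ≤ δ) :
    q ^ (i + 1) * av S r φ (i + 1) ≤ φ (tm (i + 1) ((2 * q) • S.om (r ^ 2 - q ^ 2))) +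
      (Real.exp 2 + (2 * D + 3) * (C * Real.exp 2)) * q ^ i +
      (2 * (D + 1 + C * Real.exp 2) * (q ^ 2) ^ (D + 1) + q ^ (D + 4) * (D + 4)) * δ := by
  have h7 : 0 ≤ C * Real.exp 2 := by have := h.hC; positivity
  have hδ0 : 0 ≤ δ := le_trans (by have := h.hr1; positivity) hδ
  set c0 := C * Real.exp 2 with hc0
  set Q := q ^ 2 with hQ
  have hqQ : q ≤ Q := by rw [hQ]; nlinarith
  have hQ1 : 1 ≤ Q := hq.trans hqQ
  have hQr : Q ≤ r := by linarith
  have hs : q ^ 2 ≤ r ^ 2 - Q ^ 2 := by rw [← hQ]; nlinarith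
  have hs0 : 0 ≤ r ^ 2 - Q ^ 2 := by linarith
  have hB0 := S.om_nonneg hs0
  have hBA : S.om (r ^ 2 - Q ^ 2) ≤ S.om (r ^ 2) := S.om_mono hs0 (by nlinarith)
  have hBA' : S.om (r ^ 2 - Q ^ 2) ≤ S.om (r ^ 2 - q ^ 2) := S.om_mono hs0 (by nlinarith)
  set B := S.om (r ^ 2 - Q ^ 2) with hB
  -- step b
  have b1 : φ (∑ k ∈ (range (S.N + 1)).filter (i + 1 < ·), tm k ((2 * Q) • B)) ≤
      (D + 2) * c0 * Q ^ (i + 1) + (D + 1 + c0) * Q ^ (D + 1) * δ := by
    have a1 := S.le_W hs0 (by linarith : 0 ≤ Q)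
    rw [sub_add_cancel] at a1
    have a2 : ∑ k ∈ (range (S.N + 1)).filter (i + 1 < ·), tm k ((2 * Q) • B) ≤
        ex S.N ((2 * Q) • B) :=
      sum_le_sum_of_subset_of_nonneg (filter_subset _ _)
        fun k _ _ => tm_nonneg k (smul_nonneg (by linarith) hB0)
    have a3 := h.phiW_le hQ1 hQr hi hN ha hδ
    have a4 := h.phi.mono _ _ (a2.trans a1)
    have a5 : Q ^ i ≤ Q ^ (i + 1) := pow_le_pow_right₀ hQ1 (Nat.le_succ i)
    have a6 := mul_le_mul_of_nonneg_left (h.av_le (i + 1)) (show 0 ≤ Q ^ (i + 1) by positivity)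
    have a7 := mul_le_mul_of_nonneg_left a5 (show 0 ≤ (D + 1 : ℝ) * c0 by positivity)
    nlinarith
  have b2 : q ^ (i + 2) * φ (∑ k ∈ (range (S.N + 1)).filter (i + 1 < ·), tm k ((2 * q) • B)) ≤
      φ (∑ k ∈ (range (S.N + 1)).filter (i + 1 < ·), tm k ((2 * Q) • B)) := by
    rw [← smul_eq_mul, ← map_smul, smul_sum]
    refine h.phi.mono _ _ (sum_le_sum fun k hk => ?_)
    rw [tm_smul, tm_smul, smul_smul]
    refine smul_le_smul_of_nonneg_right ?_ (pow_nonneg hB0 k)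
    rw [← mul_div_assoc]
    refine div_le_div_of_nonneg_right ?_ (by positivity)
    have : q ^ (i + 2) ≤ q ^ k := pow_le_pow_right₀ hq (mem_filter.1 hk).2
    calc q ^ (i + 2) * (2 * q) ^ k ≤ q ^ k * (2 * q) ^ k :=
          mul_le_mul_of_nonneg_right this (by positivity)
      _ = (2 * Q) ^ k := by rw [← mul_pow, hQ]; congr 1; ring
  have b3 : φ (∑ k ∈ (range (S.N + 1)).filter (i + 1 < ·), tm k ((2 * q) • B)) ≤
      (D + 2) * c0 * q ^ i + (D + 1 + c0) * Q ^ (D + 1) * δ := by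
    have hp : 1 ≤ q ^ (i + 2) := one_le_pow₀ hq
    refine le_of_mul_le_mul_left ((b2.trans b1).trans ?_) (show 0 < q ^ (i + 2) by positivity)
    have e : Q ^ (i + 1) = q ^ (i + 2) * q ^ i := by rw [hQ, ← pow_mul, ← pow_add]; congr 1; ring
    rw [e]
    nlinarith [mul_le_mul_of_nonneg_right hp
      (show 0 ≤ (D + 1 + c0) * Q ^ (D + 1) * δ by positivity)]
  -- step c
  have c1 := h.phi.mono _ _ (S.wj_le (by linarith : 0 ≤ q) hs (by nlinarith : _ ≤ r ^ 2) hN)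
  rw [map_add, map_add, phi_sum, phi_sum, ex_eq, split3 _ (Nat.lt_succ_of_le hN), map_add, map_add,
    map_smul, smul_eq_mul] at c1
  have c2 := h.phi.low_ex hB0 hBA hq i
  have c3 := h.low_le hq hi
  have c4 := h.small_le hq (hqQ.trans hQr) ha hδ
  have c5 : φ (tm (i + 1) ((2 * q) • B)) ≤ φ (tm (i + 1) ((2 * q) • S.om (r ^ 2 - q ^ 2))) := by
    refine h.phi.mono _ _ (smul_le_smul_of_nonneg_left (pow_le_pow_left₀
      (smul_nonneg (by linarith) hB0) (smul_le_smul_of_nonneg_left hBA' (by linarith)) _)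
      (by positivity))
  -- step d
  have d1 := h.phi.mono _ _ (S.am_w_le (i + 1) hs0 (by nlinarith : _ ≤ r ^ 2))
  rw [sub_sub_cancel, map_add, map_smul, smul_eq_mul] at d1
  have d2 := h.dw_le (i + 1)
  have d3 := ha (i + 1 + 1) (by omega) (by omega)
  have d4 := ha (i + 1 + 2) (by omega) (by omega)
  have d5 : φ (am (S.dw (i + 1) (r ^ 2))) ≤ (D + 4) * δ := by
    have e1 : ((i + 1 : ℕ) : ℝ) + 2 ≤ D + 2 := by
      have : ((i + 1 : ℕ) : ℝ) ≤ D := by exact_mod_cast hi'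
      linarith
    have e2 := mul_le_mul e1 d4 (h.av_nonneg _) (by positivity)
    nlinarith [mul_nonneg (Nat.cast_nonneg (α := ℝ) D) hδ0]
  have d6 : q ^ (i + 1) * Q ^ 2 ≤ q ^ (D + 4) := by
    rw [hQ, ← pow_mul, ← pow_add]
    exact pow_le_pow_right₀ hq (by omega)
  have d7 : q ^ (D + 1) ≤ Q ^ (D + 1) := pow_le_pow_left₀ (by linarith) hqQ _
  have d8 := mul_le_mul d6 d5 (h.phi.nonneg (am_nonneg _)) (by positivity)
  have d9 := mul_le_mul_of_nonneg_left d1 (show 0 ≤ q ^ (i + 1) by positivity)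
  have d10 := mul_le_mul_of_nonneg_left d7 (show 0 ≤ (D + 1 + c0) * δ by positivity)
  change _ ≤ _ at d9
  simp only [av] at *
  nlinarith

end Ctx

end Pool.Agent.P.MP_cedf91_co
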