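import Pool.Agent.P.MP_cedf91_co.An6

/-! The degree reduction and the rank bound. -/

namespace Pool.Agent.P.MP_cedf91_co

open Finset EO

variable {L : Type} [Fintype L] [DecidableEq L]

namespace Ctx

variable {S : Sys L} {D : ℕ} {C ε0 r β : ℝ} {φ : Matrix L L ℝ →ₗ[ℝ] ℝ} (h : Ctx S D C ε0 r β φ)
include h

/-- Step f. -/
theorem phi_pow_le {p q Δ : ℝ} (hp : 2 ≤ p) (hq : q = p ^ 4) (h2 : 6 * q ^ 2 ≤ r)
    (h3 : q ^ 2 ≤ ε0 * r) {i : ℕ} (hN : i + 1 ≤ S.N) (hi : i + 1 ≤ D)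
    (hΔ : φ (S.W q (r ^ 2)) - φ (tm (i + 1) ((2 * q) • S.om (r ^ 2 - q ^ 2))) ≤ Δ * q ^ i) :
    φ (S.om (r ^ 2 - q ^ 2) ^ (i + 1)) ≤ β + (1 + 3 * (C * Real.exp 2)) / p +
      (4 * D.factorial + C * 11 ^ D * 2 ^ D * D.factorial) * Δ / p +
      C * 11 ^ D * (C * Real.exp 2) * 2 ^ D * p ^ (4 * D + 5) * Real.exp (-(p / 2)) := by
  have hC := h.hC
  have hp0 : 0 < p := by linarith
  have hp2 : 4 ≤ p ^ 2 := by nlinarith
  have hq2 : q = p ^ 2 * p ^ 2 := by rw [hq]; ring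
  have hq16 : 16 ≤ q := by rw [hq2]; nlinarith
  have hpq : p ^ 2 ≤ q := by rw [hq2]; nlinarith
  have hpq' : p ≤ q := by nlinarith
  have hq0 : 0 < q := by linarith
  have hqq : q ≤ q ^ 2 := by nlinarith
  have hr0 : 0 < r := by linarith [h.hr1]
  have hs : q ^ 2 ≤ r ^ 2 := by nlinarith
  have hc : 0 ≤ r ^ 2 - q ^ 2 := by linarith
  set τ := p ^ 2 / q with hτ
  have hτ0 : 0 ≤ τ := by positivity
  have hτq : τ * q = p ^ 2 := by rw [hτ]; field_simp
  have hτ1 : τ ≤ 1 := by rw [hτ, div_le_one hq0]; exact hpq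
  have hsq : r / 2 ≤ √(r ^ 2 - q ^ 2) := Real.le_sqrt_of_sq_le (by nlinarith)
  have hε0 : 0 < ε0 := (mul_pos_iff_of_pos_right hr0).1 (by linarith [h.hr])
  have n1 : q / 4 ≤ ε0 * √(r ^ 2 - q ^ 2) := by
    linarith [mul_le_mul_of_nonneg_left hsq hε0.le]
  have n2 : 13 / 5 * q ≤ √(r ^ 2 - q ^ 2) := by linarith
  have n3 : p ^ 2 ≤ r ^ 2 := by linarith
  have n4 : r ^ 2 - q ^ 2 + (q - τ) ^ 2 ≤ r ^ 2 - p ^ 2 := by nlinarith
  set c := r ^ 2 - q ^ 2 with hcdef
  have hA0 := S.om_nonneg (sq_nonneg r)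
  have hA' := S.om_nonneg hc
  have hAA : S.om c ≤ S.om (r ^ 2) := S.om_mono hc (by linarith [sq_nonneg q])
  set A := S.om (r ^ 2) with hA
  set A' := S.om c with hA'def
  set j := i + 1 with hj
  have hB : 0 ≤ q • A' := smul_nonneg hq0.le hA'
  set E := S.E c q with hE
  have hE0 : 0 ≤ E := S.E_nonneg hc hq0.le
  have hE1 : 0 ≤ E - 1 := sub_nonneg.2 (S.one_le_E hc hq0.le)
  set H := ∑ k ∈ (range (S.N + 1)).filter (j < ·), tm k (q • A') with hH
  have hH0 : 0 ≤ H := sum_nonneg fun k _ => tm_nonneg k hB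
  -- step e
  have e1 := ex_mul_ge hN hB (S.ex_le_E hc hq0.le)
  have e2 : ex S.N (q • A') * E ≤ S.W q (r ^ 2) := by
    have := S.W_eq c q
    rw [hcdef, sub_add_cancel] at this
    rw [this]
    exact mul_le_mul_of_nonneg_right (S.ex_le_Gb hc hq0.le) hE0
  have e3 := h.phi.mono _ _ (e1.trans e2)
  rw [map_add, map_add, smul_smul] at e3
  have e4 := h.phi.nonneg (mul_nonneg (tm_nonneg j hB) hE1)
  have e5 := h.phi.nonneg (mul_nonneg hH0 hE0)
  have e6 : φ (tm j (q • A') * (E - 1)) ≤ Δ * q ^ i := by linarith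
  have e7 : φ (H * E) ≤ Δ * q ^ i := by linarith
  have hΔ0 : 0 ≤ Δ := nonneg_of_mul_nonneg_left (e5.trans e7) (by positivity)
  have hfac : (j.factorial : ℝ) ≤ D.factorial := by exact_mod_cast Nat.factorial_le hi
  have hfac0 : (0 : ℝ) < j.factorial := by positivity
  have hqj : q ^ j = q ^ i * q := pow_succ q i
  have hqi : 0 < q ^ i := by positivity
  have hAj : 0 ≤ A' ^ j := pow_nonneg hA' j
  -- low part
  set Al := msk (fun x y => S.rho x y * p ≤ r ^ 2) A with hAl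
  have l1 : φ (A' ^ j * Al) ≤ 4 * D.factorial * Δ / p := by
    have a1 := S.low_le (s := r ^ 2) (by linarith) hpq' hs
    have a2 := h.phi.mono _ _ (mul_le_mul_of_nonneg_left a1 (tm_nonneg j hB))
    rw [tm_smul, smul_mul_smul_comm, map_smul, smul_eq_mul, ← tm_smul] at a2
    have a3 := a2.trans e6
    have a4 := h.phi.nonneg (mul_nonneg hAj (msk_nonneg (fun x y => S.rho x y * p ≤ r ^ 2) hA0))
    rw [le_div_iff₀ hp0]
    have a5 : q ^ j / j.factorial * (p / (4 * q)) = q ^ i * (p / (4 * j.factorial)) := by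
      rw [hqj]; field_simp
    rw [a5, mul_assoc, mul_comm Δ] at a3
    have a6 := le_of_mul_le_mul_left a3 hqi
    rw [div_mul_eq_mul_div, div_le_iff₀ (by positivity)] at a6
    linarith [mul_le_mul_of_nonneg_left hfac hΔ0]
  -- high part
  set Ah := msk (fun x y => p * r ^ 2 < S.rho x y) A with hAh
  have l2 : φ (A' ^ j * Ah) ≤ (1 + 3 * (C * Real.exp 2)) / p := by
    have a1 := h.phi.mono _ _ (S.high_le (p := p) (sq_nonneg r))
    rw [map_smul, smul_eq_mul] at a1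
    refine (h.phi.pow_mul hA' hAA (msk_nonneg _ hA0) j).trans ?_
    rw [le_div_iff₀ hp0]
    refine le_of_mul_le_mul_right ?_ (show 0 < r ^ 2 by positivity)
    linarith [h.del_le]
  -- middle part
  set Am := msk (fun x y => r ^ 2 < S.rho x y * p ∧ S.rho x y ≤ p * r ^ 2) A with hAm
  set Y := ex S.N ((1 / 2 : ℝ) • q • A') - 1 with hY
  have hY0 : 0 ≤ Y := sub_nonneg.2 (Sys.one_le_ex _ (smul_nonneg (by norm_num) hB))
  have m1 : φ (A' ^ j * (Y * E)) ≤ 2 ^ D * D.factorial * Δ / q := by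
    have a1 := mul_le_mul_of_nonneg_right (tm_mul_le S.hN j hB ((S.om_up c).smul q)) hE0
    have a2 := (h.phi.mono _ _ a1).trans e7
    rw [smul_smul, tm_smul, ← smul_smul, smul_mul_assoc, smul_mul_assoc, map_smul, smul_eq_mul,
      mul_assoc] at a2
    have a4 := h.phi.nonneg (mul_nonneg hAj (mul_nonneg hY0 hE0))
    have a5 : (1 / 2 * q) ^ j / j.factorial = q ^ i * (q / (2 ^ j * j.factorial)) := by
      rw [mul_pow, hqj, one_div, inv_pow]; field_simp
    rw [a5, mul_assoc, mul_comm Δ] at a2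
    have a6 := le_of_mul_le_mul_left a2 hqi
    rw [div_mul_eq_mul_div, div_le_iff₀ (by positivity)] at a6
    have a7 : (2 : ℝ) ^ j * j.factorial ≤ 2 ^ D * D.factorial :=
      mul_le_mul (pow_le_pow_right₀ one_le_two hi) hfac hfac0.le (by positivity)
    rw [le_div_iff₀ hq0]
    linarith [mul_le_mul_of_nonneg_left a7 hΔ0]
  set Sg := ∑ k ∈ range (S.N + 1), (2 * q) ^ k • am (S.w k (r ^ 2)) with hSg
  have hSg0 : 0 ≤ Sg := sum_nonneg fun k _ => smul_nonneg (by positivity) (am_nonneg _)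
  have m2 : Am ≤ (2 * p * q / 5 * (C * 11 ^ D)) •
      (Real.exp (-(p / 2)) • Sg + τ • (Y * E * A)) := by
    have a0 : 0 ≤ Y * E * A := mul_nonneg (mul_nonneg hY0 hE0) hA0
    rw [← one_smul ℝ Am]
    refine msk_le (smul_nonneg (by positivity) (add_nonneg (smul_nonneg (by positivity) hSg0)
      (smul_nonneg hτ0 a0))) fun x y hxy => ?_
    have a1 := S.mid_le (s := r ^ 2) (by linarith) (by linarith : 1 ≤ q) hs x y hxy.2
    have a2 := S.Zs_le h.rem hC.le hq0 hc n1 n2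
    have a3 := S.E_le_split hc (a := q - τ) (b := q) (by linarith) (by linarith)
    rw [sub_sub_cancel, hcdef, sub_add_cancel, ← hcdef] at a3
    have a4 : Y * S.E c (q - τ) ≤ S.W (q - τ) (c + (q - τ) ^ 2) := by
      rw [S.W_eq]
      refine mul_le_mul_of_nonneg_right (le_trans (sub_le_self _ zero_le_one)
        (le_trans (ex_mono _ (smul_nonneg (by norm_num) hB) ?_) (S.ex_le_Gb hc (by linarith))))
        (S.E_nonneg hc (by linarith))
      rw [smul_smul]
      exact smul_le_smul_of_nonneg_right (by linarith) hA'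
    have a5 := S.W_damp (s := r ^ 2) (s' := c + (q - τ) ^ 2) (v := q) (v' := q - τ) hp0
      n3 (by positivity) n4 (by linarith) (by linarith) x y
      hxy.1
    have a6 := mul_le_mul_of_nonneg_left a3 hY0
    rw [mul_add, mul_smul_comm, ← mul_assoc] at a6
    have a7 := mul_le_mul_of_nonneg_right a2 hE0 x y
    have a8 := a6 x y
    have a9 := a4 x y
    rw [smul_mul_assoc] at a7
    simp only [Matrix.add_apply, Matrix.smul_apply, smul_eq_mul, one_mul] at a7 a8 ⊢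
    have a10 : (Y * E) x y ≤ Real.exp (-(p / 2)) * Sg x y + τ * (Y * E * A) x y := by linarith
    calc A x y ≤ 2 * p * q / 5 * (C * 11 ^ D * (Y * E) x y) :=
          a1.trans (mul_le_mul_of_nonneg_left a7 (by positivity))
      _ = 2 * p * q / 5 * (C * 11 ^ D) * (Y * E) x y := by ring
      _ ≤ _ := mul_le_mul_of_nonneg_left a10 (by positivity)
  have l3 : φ (A' ^ j * Am) ≤ C * 11 ^ D * 2 ^ D * D.factorial * Δ / p +
      C * 11 ^ D * (C * Real.exp 2) * 2 ^ D * p ^ (4 * D + 5) * Real.exp (-(p / 2)) := by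
    have a1 := h.phi.mono _ _ (mul_le_mul_of_nonneg_left m2 hAj)
    rw [mul_smul_comm, mul_add, mul_smul_comm, mul_smul_comm, map_smul, map_add, map_smul,
      map_smul] at a1
    simp only [smul_eq_mul] at a1
    have a2 : φ (A' ^ j * Sg) ≤ C * Real.exp 2 * (2 * q) ^ D := by
      refine (h.phi.pow_mul hA' hAA hSg0 j).trans ?_
      rw [hSg, phi_sum]
      exact h.sum_le (by linarith) (by linarith)
    have a3 : φ (A' ^ j * (Y * E * A)) ≤ 2 ^ D * D.factorial * Δ / q := by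
      rw [← mul_assoc]
      exact (h.phi.right _ (mul_nonneg hAj (mul_nonneg hY0 hE0))).trans m1
    refine a1.trans ((mul_le_mul_of_nonneg_left (add_le_add
      (mul_le_mul_of_nonneg_left a2 (Real.exp_pos _).le) (mul_le_mul_of_nonneg_left a3 hτ0))
      (by positivity)).trans ?_)
    have b1 : 2 * p * q / 5 * (C * 11 ^ D) * (Real.exp (-(p / 2)) * (C * Real.exp 2 * (2 * q) ^ D))
        = 2 / 5 * (C * 11 ^ D * (C * Real.exp 2) * 2 ^ D * p ^ (4 * D + 5) *
          Real.exp (-(p / 2))) := by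
      rw [hq]; ring
    have b2 : 2 * p * q / 5 * (C * 11 ^ D) * (τ * (2 ^ D * D.factorial * Δ / q)) =
        2 / 5 * (C * 11 ^ D * 2 ^ D * D.factorial * Δ / p) := by
      rw [hτ, hq]; field_simp
    rw [mul_add, b1, b2]
    have b3 : 0 ≤ C * 11 ^ D * (C * Real.exp 2) * 2 ^ D * p ^ (4 * D + 5) *
      Real.exp (-(p / 2)) := by positivity
    have b4 : 0 ≤ C * 11 ^ D * 2 ^ D * D.factorial * Δ / p := by positivity
    linarith
  have hsplit : A ≤ Al + Ah + Am := by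
    intro x y
    have := hA0 x y
    simp only [hAl, hAh, hAm, msk, Matrix.add_apply, Matrix.zero_apply] at this ⊢
    split_ifs with h1 h2 h3 h4 h5 h6 h7 <;> try linarith
    exact absurd ⟨not_le.1 h1, not_lt.1 h5⟩ h7
  have f1 := h.phi.bd A' j hA' hAA
  have f2 := h.phi.mono _ _ (mul_le_mul_of_nonneg_left hsplit hAj)
  rw [mul_add, mul_add, map_add, map_add] at f2
  rw [← hA] at f1
  rw [add_mul (4 * (D.factorial : ℝ)), add_div (4 * (D.factorial : ℝ) * Δ)]
  linarith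

end Ctx

theorem reduce (D : ℕ) (C : ℝ) (hC : 0 < C) : ∃ K0 K1 : ℝ, ∃ F : ℝ → ℝ,
    ∀ p : ℝ, 2 ≤ p → 0 ≤ F p ∧ ∀ (L : Type) [Fintype L] [DecidableEq L] (S : Sys L) (ε0 r β δ : ℝ)
      (φ : Matrix L L ℝ →ₗ[ℝ] ℝ), Ctx S D C ε0 r β φ → 6 * (p ^ 4) ^ 2 ≤ r →
      (p ^ 4) ^ 2 ≤ ε0 * r → ∀ i, i + 1 ≤ D → (∀ k, i + 1 < k → k ≤ D + 2 → av S r φ k ≤ δ) →
      r⁻¹ ≤ δ → β ≤ δ →
      av S r φ (i + 1) ≤ K0 / p + K1 * (p ^ (4 * D + 5) * Real.exp (-(p / 2))) + F p * δ := by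
  set c0 := C * Real.exp 2 with hc0
  have hc0' : 0 ≤ c0 := by positivity
  set c2 := Real.exp 2 + (2 * D + 3) * c0 with hc2
  set c3 := c2 + (D + 1) * c0 with hc3
  set c5 := 4 * (D.factorial : ℝ) + C * 11 ^ D * 2 ^ D * D.factorial with hc5
  set G1 : ℝ → ℝ := fun q => 2 * (D + 1 + c0) * (q ^ 2) ^ (D + 1) + q ^ (D + 4) * (D + 4) with hG1
  set G2 : ℝ → ℝ := fun q => G1 q + (D + 1 + c0) * q ^ (D + 1) with hG2
  refine ⟨2 ^ D * (1 + 3 * c0 + c5 * c3) + c2, 2 ^ D * (C * 11 ^ D * c0 * 2 ^ D),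
    fun p => 2 ^ D * (1 + c5 * G2 (p ^ 4)) + G1 (p ^ 4), fun p hp => ?_⟩
  have hp0 : 0 < p := by linarith
  have hG1' : 0 ≤ G1 (p ^ 4) := by simp only [hG1]; positivity
  have hG2' : 0 ≤ G2 (p ^ 4) := by simp only [hG2]; positivity
  refine ⟨by positivity, fun L _ _ S ε0 r β δ φ h h1 h2 i hi ha hδ hβ => ?_⟩
  have hδ0 : 0 ≤ δ := le_trans (by have := h.hr1; positivity) hδ
  by_cases hN : S.N < i + 1
  · rw [Ctx.av_zero hN]; positivity
  rw [not_lt] at hN
  set q := p ^ 4 with hq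
  have hpq : p ≤ q := le_self_pow₀ (by linarith) (by norm_num)
  have hq1 : 1 ≤ q := by linarith
  have hqi : 1 ≤ q ^ i := one_le_pow₀ hq1
  have hqq : q ≤ q ^ 2 := le_self_pow₀ hq1 (by norm_num)
  have hqr : q ≤ r := by linarith [sq_nonneg q]
  have a1 := h.av_le_phi hq1 (by linarith [sq_nonneg q]) (by omega) hN ha hi hδ
  have a2 := h.phiW_le hq1 hqr (by omega) hN ha hδ
  have a3 := h.phi_pow_le (Δ := c3 + G2 q * δ) hp hq h1 h2 hN hi (by
    have := mul_le_mul_of_nonneg_left hqi (mul_nonneg hG2' hδ0)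
    simp only [hG2, hG1, hc3, hc2] at this ⊢
    linarith)
  rw [tm_smul, map_smul, smul_eq_mul] at a1
  set P := φ (S.om (r ^ 2 - q ^ 2) ^ (i + 1)) with hP
  have hP0 : 0 ≤ P := h.phi.nonneg (pow_nonneg (S.om_nonneg
    (sub_nonneg.2 (pow_le_pow_left₀ (by linarith) hqr 2))) _)
  have a4 : (2 * q) ^ (i + 1) / (i + 1).factorial ≤ q ^ (i + 1) * 2 ^ D := by
    rw [mul_pow, mul_comm]
    refine (div_le_self (by positivity) (by exact_mod_cast Nat.factorial_pos _)).trans ?_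
    exact mul_le_mul_of_nonneg_left (pow_le_pow_right₀ one_le_two hi) (by positivity)
  have a5 : av S r φ (i + 1) ≤ 2 ^ D * P + c2 / p + G1 q * δ := by
    refine le_of_mul_le_mul_left ?_ (show 0 < q ^ (i + 1) by positivity)
    have b1 : c2 * q ^ i ≤ q ^ (i + 1) * (c2 / p) := by
      rw [pow_succ, mul_assoc, mul_comm c2]
      refine mul_le_mul_of_nonneg_left ?_ (by positivity)
      rw [← mul_div_assoc, le_div_iff₀ hp0, mul_comm]
      exact mul_le_mul_of_nonneg_right hpq (by positivity)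
    have b2 := mul_le_mul_of_nonneg_right (one_le_pow₀ hq1 (n := i + 1)) (mul_nonneg hG1' hδ0)
    have b3 := mul_le_mul_of_nonneg_right a4 hP0
    simp only [hG1] at b2 ⊢
    linarith
  have a6 : c5 * (c3 + G2 q * δ) / p ≤ c5 * c3 / p + c5 * G2 q * δ := by
    rw [mul_add, add_div, ← mul_assoc]
    exact add_le_add_right (div_le_self (by positivity) (by linarith)) _
  have a7 := mul_le_mul_of_nonneg_left (a3.trans (add_le_add_left (add_le_add
    (add_le_add_left hβ _) a6) _)) (show (0 : ℝ) ≤ 2 ^ D by positivity)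
  refine a5.trans ((add_le_add_left (add_le_add_left a7 _) _).trans (le_of_eq ?_))
  ring

theorem rank_bound (C1 : ℝ) : ∃ n0 : ℕ, ∀ (L : Type) [Fintype L] [DecidableEq L] (S : Sys L),
    S.Conc C1 → ∀ (x0 y0 : L) (n : ℕ), S.rk y0 = S.rk x0 + n →
      (∀ s, 0 ≤ s → 0 < (S.om s ^ n) x0 y0) → n ≤ n0 := by
  obtain ⟨D, C, ε0, hC, hε0, hε1, hrem⟩ := remez C1
  obtain ⟨K0, K1, F, hF⟩ := reduce D C hC
  have hlim : Filter.Tendsto (fun p : ℝ => K0 / p + K1 * (p ^ (4 * D + 5) * Real.exp (-(p / 2))))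
      Filter.atTop (nhds 0) := by
    have h1 : Filter.Tendsto (fun p : ℝ => K0 / p) Filter.atTop (nhds 0) :=
      Filter.tendsto_id.const_div_atTop K0
    have h2 := ((Real.tendsto_pow_mul_exp_neg_atTop_nhds_zero (4 * D + 5)).comp
      (Filter.tendsto_id.atTop_div_const (two_pos (α := ℝ)))).const_mul (K1 * 2 ^ (4 * D + 5))
    have h3 := h1.add h2
    simp only [mul_zero, add_zero] at h3
    refine h3.congr fun p => ?_
    simp only [Function.comp, id, div_pow]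
    field_simp
  have key : ∀ m, m ≤ D → ∀ δ : ℝ, 0 < δ → ∃ δ' r0 : ℝ, 0 < δ' ∧
      ∀ (L : Type) [Fintype L] [DecidableEq L] (S : Sys L) (r β : ℝ)
        (φ : Matrix L L ℝ →ₗ[ℝ] ℝ), Ctx S D C ε0 r β φ → r0 ≤ r → β ≤ δ' →
        ∀ k, D - m < k → k ≤ D + 2 → av S r φ k ≤ δ := by
    intro m
    induction m with
    | zero =>
      intro _ δ hδ
      refine ⟨1, C * Real.exp 2 / δ, one_pos, fun L _ _ S r β φ h hr _ k hk _ => ?_⟩
      refine (h.av_tail hk).trans ?_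
      have := h.hr1
      rw [← div_eq_mul_inv, div_le_iff₀ (by linarith)]
      rwa [div_le_iff₀ hδ, mul_comm r] at hr
    | succ m ih =>
      intro hm δ hδ
      obtain ⟨p, hp1, hp2⟩ := ((hlim.eventually (gt_mem_nhds (half_pos hδ))).and
        (Filter.eventually_ge_atTop 2)).exists
      obtain ⟨hF0, hred⟩ := hF p hp2
      set δ1 := min δ (δ / 2 / (F p + 1)) with hδ1
      have hδ10 : 0 < δ1 := by positivity
      obtain ⟨δ', r0, hδ', hih⟩ := ih (by omega) δ1 hδ10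
      refine ⟨min δ' δ1, max (max r0 δ1⁻¹) (max (6 * (p ^ 4) ^ 2) ((p ^ 4) ^ 2 / ε0)),
        by positivity, fun L _ _ S r β φ h hr hβ k hk hk' => ?_⟩
      simp only [max_le_iff, le_min_iff] at hr hβ
      have h1 := hih L S r β φ h hr.1.1 hβ.1
      by_cases hk2 : D - m < k
      · exact (h1 k hk2 hk').trans (min_le_left _ _)
      obtain ⟨i, rfl⟩ : ∃ i, k = i + 1 := ⟨k - 1, by omega⟩
      have h2 := hred L S ε0 r β δ1 φ h hr.2.1 (by
        have := hr.2.2
        rwa [div_le_iff₀ hε0, mul_comm r] at this) i (by omega)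
        (fun k h3 h4 => h1 k (by omega) h4)
        (inv_le_of_inv_le₀ hδ10 hr.1.2) hβ.2
      have h3 : F p * δ1 ≤ δ / 2 := by
        have : δ1 ≤ δ / 2 / (F p + 1) := min_le_right _ _
        rw [le_div_iff₀ (by linarith)] at this
        nlinarith
      linarith
  obtain ⟨δ', r0, hδ', hk⟩ := key D le_rfl 1 one_pos
  set r := max r0 (max 1 ε0⁻¹) with hr
  set b := min δ' (1 / 4) with hb
  have hb0 : 0 < b := by positivity
  refine ⟨⌈(1 + 3 * (C * Real.exp 2)) * r ^ 2 / b⌉₊, fun L _ _ S hS x0 y0 n hn hpos => ?_⟩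
  obtain ⟨φ, β, hφ, hdel⟩ := S.exPhi (S.om_nonneg (sq_nonneg r)) (S.om_up _) hn
    (hpos _ (sq_nonneg r))
  have h : Ctx S D C ε0 r β φ := ⟨hrem L S hS, hC, hε1, by
    have : ε0⁻¹ ≤ r := (le_max_right _ _).trans (le_max_right _ _)
    rwa [inv_le_iff_one_le_mul₀' hε0] at this, (le_max_left _ _).trans (le_max_right _ _), hφ⟩
  by_contra hlt
  have h1 : (1 + 3 * (C * Real.exp 2)) * r ^ 2 / b < n := 
    (Nat.le_ceil _).trans_lt (by exact_mod_cast not_le.1 hlt)
  have h2 := h.del_le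
  rw [hdel] at h2
  rw [div_lt_iff₀ hb0] at h1
  have h3 : β ≤ b := by
    by_contra h4
    nlinarith [mul_le_mul_of_nonneg_left (not_le.1 h4).le (Nat.cast_nonneg (α := ℝ) n)]
  have h4 := hk L S r β φ h (le_max_left _ _) (h3.trans (min_le_left _ _)) 1 (by omega) (by omega)
  rw [h.av_one] at h4
  linarith [h3.trans (min_le_right _ _)]

end Pool.Agent.P.MP_cedf91_co
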