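import Pool.Agent.P.MP_cedf91_co.Defs

namespace Pool.Agent.P.MP_cedf91_co

theorem assemble (h1 : T1Stmt) (h2 : T2Stmt) (h3 : KaruStmt) (h4 : ConeStmt) : FinalStmt := by
  intro k
  obtain ⟨K, hK⟩ := h2 k
  obtain ⟨n0, hn0⟩ := h1 K
  refine ⟨n0, fun d hd V hV => ?_⟩
  obtain ⟨L, iL, fL, rk, W, b, f, hG, hC, hrk⟩ := h4 d V
  obtain ⟨g, hg⟩ := h3 L _ rk W b hG hC
  by_contra hcon
  have hfl : ManyFlags rk K := by
    refine hK L rk hG fun x y hxy hr => ⟨fun e => hcon ?_⟩
    refine ⟨(f x).1, (f y).1, (f x).2, (f y).2, f.monotone hxy, ?_, ⟨OrderIso.trans ?_ e⟩⟩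
    · have h1 := hrk x
      have h2 := hrk y
      rw [hr] at h2
      push_cast at h2
      linarith
    · refine
        { toFun := fun H => ⟨f.symm ⟨H.1, H.2.1⟩, ?_, ?_⟩
          invFun := fun z => ⟨(f z.1).1, (f z.1).2, f.monotone z.2.1, f.monotone z.2.2⟩
          left_inv := fun H => by simp
          right_inv := fun z => by simp
          map_rel_iff' := fun {a c} => ?_ }
      · rw [f.le_symm_apply]; exact H.2.2.1
      · rw [f.symm_apply_le]; exact H.2.2.2
      · simp only [Equiv.coe_fn_mk, Subtype.mk_le_mk, OrderIso.le_iff_le]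
        rfl
  clear hcon
  obtain ⟨P, hP⟩ : ∃ P, P = convexHull ℝ (V : Set (EuclideanSpace ℝ (Fin d))) := ⟨_, rfl⟩
  revert f
  rw [← hP]
  intro f hrk
  have hb := hn0 L rk g hG.lt hg hfl (f.symm ⟨∅, isExposed_empty⟩) (f.symm ⟨P, IsExposed.refl P⟩)
    (f.symm.monotone (Set.empty_subset P))
  have e1 := hrk (f.symm ⟨∅, isExposed_empty⟩)
  have e2 := hrk (f.symm ⟨P, IsExposed.refl P⟩)
  rw [OrderIso.apply_symm_apply] at e1 e2
  have hne : (V : Set (EuclideanSpace ℝ (Fin d))).Nonempty := by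
    by_contra h
    rw [Set.not_nonempty_iff_eq_empty] at h
    rw [h] at hV
    simp at hV
  have hPne : P ≠ ∅ := hP ▸ (hne.mono (subset_convexHull ℝ _)).ne_empty
  have hvs : vectorSpan ℝ P = ⊤ := by
    rw [← direction_affineSpan, hP, affineSpan_convexHull, hV]
    simp
  have hfr : Module.finrank ℝ (vectorSpan ℝ P) = d := by
    rw [hvs, finrank_top, finrank_euclideanSpace, Fintype.card_fin]
  simp only [pdim, if_true, if_neg hPne, hfr] at e1 e2
  omega

end Pool.Agent.P.MP_cedf91_co
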