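import Pool.Agent.P.MP_cedf91_co.KFan

/-! Barycentric fans of a face lattice: combinatorics and linear algebra. -/

namespace Pool.Agent.P.MP_cedf91_co

open Submodule

namespace BaryAP

variable {L E : Type} [PartialOrder L] [Fintype L] [DecidableEq L] [AddCommGroup E] [Module ℝ E]
  {rk : L → ℕ} {W : L → Submodule ℝ E} {b : L → E} {σ τ : L} {c : Finset L}

omit [DecidableEq L] in
theorem mem_ioo {z : L} : z ∈ ioo σ τ ↔ σ < z ∧ z < τ := by simp [ioo]

/-- chains in the open interval -/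
def Ch (σ τ : L) (c : Finset L) : Prop :=
  (∀ z ∈ c, σ < z ∧ z < τ) ∧ ∀ z ∈ c, ∀ w ∈ c, z ≤ w ∨ w ≤ z

theorem mem_K : c ∈ (bary rk W b σ τ).K ↔ Ch σ τ c ∧ c.card = rk τ - rk σ - 1 := by
  simp only [bary, Finset.mem_filter, Finset.mem_powerset, Ch, and_assoc]
  refine and_congr ⟨fun h z hz => mem_ioo.1 (h hz), fun h z hz => mem_ioo.2 (h z hz)⟩
    (and_congr_left fun _ => ⟨fun h z hz w hw => h.total hz hw, fun h z hz w hw _ => h z hz w hw⟩)

theorem mem_Θ {θ : L → ℝ} : θ ∈ (bary rk W b σ τ).Θ ↔ ∃ m : E →ₗ[ℝ] ℝ, (∀ v ∈ W σ, m v = 0) ∧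
    m (b τ) = 0 ∧ (∀ z ∈ ioo σ τ, θ z = m (b z)) ∧ ∀ z ∉ ioo σ τ, θ z = 0 := by
  constructor
  · intro h
    induction h using span_induction with
    | mem x hx =>
      obtain ⟨m, h1, h2, rfl⟩ := hx
      exact ⟨m, h1, h2, fun z hz => if_pos hz, fun z hz => if_neg hz⟩
    | zero => exact ⟨0, by simp⟩
    | add x y _ _ hx hy =>
      obtain ⟨m, h1, h2, h3, h4⟩ := hx
      obtain ⟨m', h1', h2', h3', h4'⟩ := hy
      exact ⟨m + m', fun v hv => by simp [h1 v hv, h1' v hv], by simp [h2, h2'],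
        fun z hz => by simp [h3 z hz, h3' z hz], fun z hz => by simp [h4 z hz, h4' z hz]⟩
    | smul a x _ hx =>
      obtain ⟨m, h1, h2, h3, h4⟩ := hx
      exact ⟨a • m, fun v hv => by simp [h1 v hv], by simp [h2],
        fun z hz => by simp [h3 z hz], fun z hz => by simp [h4 z hz]⟩
  · rintro ⟨m, h1, h2, h3, h4⟩
    refine subset_span ⟨m, h1, h2, funext fun z => ?_⟩
    split_ifs with hz
    · exact h3 z hz
    · exact h4 z hz

theorem exists_Θ (m : E →ₗ[ℝ] ℝ) (h1 : ∀ v ∈ W σ, m v = 0) (h2 : m (b τ) = 0) :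
    ∃ θ ∈ (bary rk W b σ τ).Θ, ∀ z, σ < z → z < τ → θ z = m (b z) :=
  ⟨fun z => if z ∈ ioo σ τ then m (b z) else 0,
    mem_Θ.2 ⟨m, h1, h2, fun _ hz => if_pos hz, fun _ hz => if_neg hz⟩,
    fun _ h3 h4 => if_pos (mem_ioo.2 ⟨h3, h4⟩)⟩

section comb

omit [Fintype L] [DecidableEq L]

theorem le_of_rk (G : Graded rk) {z w : L} (h : z ≤ w ∨ w ≤ z) (hr : rk z ≤ rk w) : z ≤ w := by
  rcases h with h | h
  · exact h
  · rcases h.eq_or_lt with h | h
    · exact h.ge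
    · exact absurd (G.lt _ _ h) (not_lt.2 hr)

theorem lt_of_rk (G : Graded rk) {z w : L} (h : z ≤ w ∨ w ≤ z) (hr : rk z < rk w) : z < w :=
  (le_of_rk G h hr.le).lt_of_ne fun e => hr.ne (congrArg rk e)

theorem Ch.mono (h : Ch σ τ c) {c' : Finset L} (hc : c' ⊆ c) : Ch σ τ c' :=
  ⟨fun z hz => h.1 z (hc hz), fun z hz w hw => h.2 z (hc hz) w (hc hw)⟩

theorem Ch.injOn (G : Graded rk) (h : Ch σ τ c) : Set.InjOn rk c := fun z hz w hw e =>
  le_antisymm (le_of_rk G (h.2 z hz w hw) e.le) (le_of_rk G (h.2 w hw z hz) e.ge)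

theorem Ch.image_sub (G : Graded rk) (h : Ch σ τ c) : c.image rk ⊆ Finset.Ioo (rk σ) (rk τ) := by
  intro r hr
  obtain ⟨z, hz, rfl⟩ := Finset.mem_image.1 hr
  exact Finset.mem_Ioo.2 ⟨G.lt _ _ (h.1 z hz).1, G.lt _ _ (h.1 z hz).2⟩

theorem Ch.card_le (G : Graded rk) (h : Ch σ τ c) : c.card ≤ rk τ - rk σ - 1 := by
  rw [← Finset.card_image_of_injOn (h.injOn G), ← Nat.card_Ioo]
  exact Finset.card_le_card (h.image_sub G)

theorem Ch.exists_rk (G : Graded rk) (h : Ch σ τ c) (hc : c.card = rk τ - rk σ - 1) {r : ℕ}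
    (h1 : rk σ < r) (h2 : r < rk τ) : ∃ z ∈ c, rk z = r := by
  have := Finset.eq_of_subset_of_card_le (h.image_sub G)
    (by rw [Finset.card_image_of_injOn (h.injOn G), Nat.card_Ioo, hc])
  exact Finset.mem_image.1 (this ▸ Finset.mem_Ioo.2 ⟨h1, h2⟩)

theorem Ch.exists_not_rk (G : Graded rk) (h : Ch σ τ c) (hc : c.card < rk τ - rk σ - 1) :
    ∃ r, rk σ < r ∧ r < rk τ ∧ ∀ z ∈ c, rk z ≠ r := by
  obtain ⟨r, h1, h2⟩ := Finset.exists_mem_notMem_of_card_lt_card (s := c.image rk)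
    (t := Finset.Ioo (rk σ) (rk τ)) (by rwa [Finset.card_image_of_injOn (h.injOn G), Nat.card_Ioo])
  rw [Finset.mem_Ioo] at h1
  exact ⟨r, h1.1, h1.2, fun z hz e => h2 (Finset.mem_image.2 ⟨z, hz, e⟩)⟩

end comb

omit [Fintype L] in
theorem Ch.total (h : Ch σ τ c) (hlt : σ < τ) :
    ∀ z ∈ insert σ (insert τ c), ∀ w ∈ insert σ (insert τ c), z ≤ w ∨ w ≤ z := by
  have h1 : ∀ z ∈ insert σ (insert τ c), σ ≤ z ∧ z ≤ τ := fun z hz => by
    simp only [Finset.mem_insert] at hz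
    rcases hz with rfl | rfl | hz
    · exact ⟨le_rfl, hlt.le⟩
    · exact ⟨hlt.le, le_rfl⟩
    · exact ⟨(h.1 z hz).1.le, (h.1 z hz).2.le⟩
  intro z hz w hw
  have hz' := h1 z hz
  have hw' := h1 w hw
  simp only [Finset.mem_insert] at hz hw
  rcases hz with rfl | rfl | hz
  · exact Or.inl hw'.1
  · exact Or.inr hw'.2
  · rcases hw with rfl | rfl | hw
    · exact Or.inr hz'.1
    · exact Or.inl hz'.2
    · exact h.2 z hz w hw

omit [Fintype L] in
/-- the neighbours of a rank in a chain -/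
theorem Ch.gap (G : Graded rk) (h : Ch σ τ c) (hlt : σ < τ) {r : ℕ} (h1 : rk σ < r)
    (h2 : r < rk τ) : ∃ x ∈ insert σ (insert τ c), ∃ y ∈ insert σ (insert τ c),
      rk x < r ∧ r < rk y ∧ (∀ w ∈ insert σ (insert τ c), rk w < r → w ≤ x) ∧
      ∀ w ∈ insert σ (insert τ c), r < rk w → y ≤ w := by
  obtain ⟨x, hx, hx'⟩ := Finset.exists_max_image ((insert σ (insert τ c)).filter fun w => rk w < r)
    rk ⟨σ, by simp [h1]⟩
  obtain ⟨y, hy, hy'⟩ := Finset.exists_min_image ((insert σ (insert τ c)).filter fun w => r < rk w)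
    rk ⟨τ, by simp [h2]⟩
  rw [Finset.mem_filter] at hx hy
  exact ⟨x, hx.1, y, hy.1, hx.2, hy.2,
    fun w hw hr => le_of_rk G (h.total hlt w hw x hx.1) (hx' w (Finset.mem_filter.2 ⟨hw, hr⟩)),
    fun w hw hr => le_of_rk G (h.total hlt y hy.1 w hw) (hy' w (Finset.mem_filter.2 ⟨hw, hr⟩))⟩

omit [Fintype L] in
theorem Ch.ins (h : Ch σ τ c) {r : ℕ} (h1 : rk σ < r) (h2 : r < rk τ) (h3 : ∀ z ∈ c, rk z ≠ r)
    {x y z : L} (hx : ∀ w ∈ insert σ (insert τ c), rk w < r → w ≤ x)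
    (hy : ∀ w ∈ insert σ (insert τ c), r < rk w → y ≤ w) (hxz : x < z) (hzy : z < y) :
    z ∉ c ∧ Ch σ τ (insert z c) := by
  have h4 : ∀ w ∈ c, w < z ∨ z < w := fun w hw => by
    rcases lt_or_gt_of_ne (h3 w hw) with h5 | h5
    · exact Or.inl ((hx w (by simp [hw]) h5).trans_lt hxz)
    · exact Or.inr (hzy.trans_le (hy w (by simp [hw]) h5))
  refine ⟨fun hz => by simpa using h4 z hz, fun w hw => ?_, fun w hw w' hw' => ?_⟩
  · rcases Finset.mem_insert.1 hw with rfl | hw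
    · exact ⟨(hx σ (by simp) h1).trans_lt hxz, hzy.trans_le (hy τ (by simp) h2)⟩
    · exact h.1 w hw
  · rcases Finset.mem_insert.1 hw with e | a <;> rcases Finset.mem_insert.1 hw' with e' | a'
    · exact Or.inl (e.trans e'.symm).le
    · exact e ▸ (h4 w' a').symm.imp le_of_lt le_of_lt
    · exact e' ▸ (h4 w a).imp le_of_lt le_of_lt
    · exact h.2 w a w' a'

omit [Fintype L] in
theorem Ch.extend (G : Graded rk) (hlt : σ < τ) (k : ℕ) : ∀ c : Finset L, Ch σ τ c →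
    c.card + k = rk τ - rk σ - 1 → ∃ c', Ch σ τ c' ∧ c'.card = rk τ - rk σ - 1 ∧ c ⊆ c' := by
  induction k with
  | zero => exact fun c h hc => ⟨c, h, hc, le_rfl⟩
  | succ k ih =>
    intro c h hc
    obtain ⟨r, h1, h2, h3⟩ := h.exists_not_rk G (by omega)
    obtain ⟨x, hx, y, hy, a1, a2, a3, a4⟩ := h.gap G hlt h1 h2
    obtain ⟨z, b1, b2⟩ := G.mid x y (lt_of_rk G (h.total hlt x hx y hy) (by omega)) (by omega)
    obtain ⟨b3, b4⟩ := h.ins h1 h2 h3 a3 a4 b1 b2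
    obtain ⟨c', d1, d2, d3⟩ := ih _ b4 (by rw [Finset.card_insert_of_notMem b3]; omega)
    exact ⟨c', d1, d2, (Finset.subset_insert _ _).trans d3⟩

theorem mem_faces (G : Graded rk) (hlt : σ < τ) : c ∈ (bary rk W b σ τ).faces ↔ Ch σ τ c := by
  simp only [Fan.faces, Finset.mem_biUnion, Finset.mem_powerset, mem_K]
  refine ⟨fun ⟨c', h1, h2⟩ => h1.1.mono h2, fun h => ?_⟩
  obtain ⟨c', h1, h2, h3⟩ := Ch.extend G hlt (rk τ - rk σ - 1 - c.card) c h
    (by have := h.card_le G; omega)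
  exact ⟨c', ⟨h1, h2⟩, h3⟩

omit [Fintype L] in
theorem Ch.nbr (G : Graded rk) (hlt : σ < τ) (h : Ch σ τ c) (hc : c.card = rk τ - rk σ - 1)
    {k : L} (hk : k ∈ c) :
    ∃ c', (Ch σ τ c' ∧ c'.card = rk τ - rk σ - 1) ∧ k ∉ c' ∧ c.erase k ⊆ c' := by
  have h' := h.mono (Finset.erase_subset k c)
  have h1 := G.lt _ _ (h.1 k hk).1
  have h2 := G.lt _ _ (h.1 k hk).2
  have h3 : ∀ z ∈ c.erase k, rk z ≠ rk k := fun z hz e =>
    Finset.ne_of_mem_erase hz (h.injOn G (Finset.mem_of_mem_erase hz) hk e)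
  obtain ⟨x, hx, y, hy, a1, a2, a3, a4⟩ := h'.gap G hlt h1 h2
  have hs : insert σ (insert τ (c.erase k)) ⊆ insert σ (insert τ c) :=
    Finset.insert_subset_insert _ (Finset.insert_subset_insert _ (Finset.erase_subset k c))
  have hk' : k ∈ insert σ (insert τ c) := by simp [hk]
  have rle : ∀ {z w : L}, z ≤ w → rk z ≤ rk w := fun h => by
    rcases h.eq_or_lt with h | h
    · exact (congrArg rk h).le
    · exact (G.lt _ _ h).le
  have ex : rk k ≤ rk x + 1 := by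
    by_cases h4 : rk σ + 1 = rk k
    · have := rle (a3 σ (by simp) h1); omega
    · obtain ⟨z, hz, e⟩ := h.exists_rk G hc (r := rk k - 1) (by omega) (by omega)
      have h5 : z ≠ k := by rintro rfl; omega
      have := rle (a3 z (by simp [hz, h5]) (by omega)); omega
  have ey : rk y ≤ rk k + 1 := by
    by_cases h4 : rk k + 1 = rk τ
    · have := rle (a4 τ (by simp) h2); omega
    · obtain ⟨z, hz, e⟩ := h.exists_rk G hc (r := rk k + 1) (by omega) (by omega)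
      have h5 : z ≠ k := by rintro rfl; omega
      have := rle (a4 z (by simp [hz, h5]) (by omega)); omega
  obtain ⟨z, b0, b1, b2⟩ := G.two x y k (lt_of_rk G (h.total hlt x (hs hx) k hk') a1)
    (lt_of_rk G (h.total hlt k hk' y (hs hy)) a2) (by omega)
  obtain ⟨b3, b4⟩ := h'.ins h1 h2 h3 a3 a4 b1 b2
  refine ⟨_, ⟨b4, ?_⟩, by simp [b0.symm], Finset.subset_insert _ _⟩
  rw [Finset.card_insert_of_notMem b3, Finset.card_erase_add_one hk, hc]

section lin

omit [Fintype L] [DecidableEq L] in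
theorem kill_step [FiniteDimensional ℝ E] (D : ConeData rk W b) {x z : L} (hxz : x < z)
    (hr : rk z = rk x + 1) {m : E →ₗ[ℝ] ℝ} (h1 : ∀ v ∈ W x, m v = 0) (h2 : m (b z) = 0) :
    ∀ v ∈ W z, m v = 0 := by
  obtain ⟨μ, h3, h4⟩ := D.sep x
  have h5 : W x < W x ⊔ span ℝ {b z} := left_lt_sup.2 fun h =>
    (h4 z hxz.not_ge).ne' (h3 _ (h (mem_span_singleton_self _)))
  have h6 : W x ⊔ span ℝ {b z} = W z := by
    refine Submodule.eq_of_le_of_finrank_le
      (sup_le (D.mono _ _ hxz.le) ((span_singleton_le_iff_mem _ _).2 (D.mem z))) ?_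
    have := Submodule.finrank_lt_finrank_of_lt h5
    rw [D.dim] at this ⊢
    omega
  have h7 : W z ≤ LinearMap.ker m :=
    h6 ▸ sup_le (fun v hv => h1 v hv) ((span_singleton_le_iff_mem _ _).2 h2)
  exact fun v hv => h7 hv

omit [Fintype L] in
theorem kill [FiniteDimensional ℝ E] (G : Graded rk) (D : ConeData rk W b) (hlt : σ < τ)
    (h : Ch σ τ c) (hc : c.card = rk τ - rk σ - 1) {m : E →ₗ[ℝ] ℝ} (h1 : ∀ v ∈ W σ, m v = 0)
    (h2 : ∀ z ∈ insert τ c, m (b z) = 0) (r : ℕ) :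
    ∀ z ∈ insert τ c, rk z = r → ∀ v ∈ W z, m v = 0 := by
  induction r using Nat.strong_induction_on with
  | _ r ih =>
    intro z hz hr
    have h3 : σ < z ∧ rk z ≤ rk τ := by
      rcases Finset.mem_insert.1 hz with rfl | hz
      · exact ⟨hlt, le_rfl⟩
      · exact ⟨(h.1 z hz).1, (G.lt _ _ (h.1 z hz).2).le⟩
    have h4 := G.lt _ _ h3.1
    by_cases h5 : rk z = rk σ + 1
    · exact kill_step D h3.1 h5 h1 (h2 z hz)
    · obtain ⟨x, hx, e⟩ := h.exists_rk G hc (r := r - 1) (by omega) (by omega)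
      exact kill_step D (lt_of_rk G (h.total hlt x (by simp [hx]) z (Finset.mem_insert_of_mem hz))
        (by omega)) (by omega) (ih (r - 1) (by omega) x (by simp [hx]) e) (h2 z hz)

omit [Fintype L] in
theorem interp (G : Graded rk) (D : ConeData rk W b) (c : Finset L) :
    (∀ z ∈ c, ∀ w ∈ c, z ≤ w ∨ w ≤ z) → ∀ (σ : L) (v : L → ℝ), (∀ z ∈ c, σ < z) →
      ∃ m : E →ₗ[ℝ] ℝ, (∀ x ∈ W σ, m x = 0) ∧ ∀ z ∈ c, m (b z) = v z := by
  induction c using Finset.induction_on_min_value rk with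
  | empty => exact fun _ σ v _ => ⟨0, by simp⟩
  | insert a s ha hmin ih =>
    intro hch σ v hσ
    obtain ⟨μ, h3, h4⟩ := D.sep σ
    have ha' := hσ a (Finset.mem_insert_self _ _)
    have h5 := (h4 a ha'.not_ge).ne'
    obtain ⟨m, h6, h7⟩ := ih (fun z hz w hw => hch z (by simp [hz]) w (by simp [hw])) a
      (fun w => v w - v a / μ (b a) * μ (b w)) fun w hw =>
        (le_of_rk G (hch a (by simp) w (by simp [hw])) (hmin w hw)).lt_of_ne fun e => ha (e ▸ hw)
    refine ⟨m + (v a / μ (b a)) • μ, fun x hx => ?_, fun z hz => ?_⟩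
    · simp [h3 x hx, h6 x (D.mono _ _ ha'.le hx)]
    · rcases Finset.mem_insert.1 hz with rfl | hz
      · simp [h6 _ (D.mem z), h5]
      · simp [h7 z hz]

end lin

theorem good [FiniteDimensional ℝ E] (G : Graded rk) (D : ConeData rk W b) (hlt : σ < τ) :
    (bary rk W b σ τ).Good where
  ne := by
    obtain ⟨c, h1, h2, -⟩ := Ch.extend G hlt (rk τ - rk σ - 1) ∅ ⟨by simp, by simp⟩ (by simp)
    exact ⟨c, mem_K.2 ⟨h1, h2⟩⟩
  sub c hc z hz := mem_ioo.2 ((mem_K.1 hc).1.1 z hz)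
  card c hc := (mem_K.1 hc).2
  inj c hc θ hθ h0 := by
    obtain ⟨h1, h2⟩ := mem_K.1 hc
    obtain ⟨m, a1, a2, a3, a4⟩ := mem_Θ.1 hθ
    have h3 := kill G D hlt h1 h2 a1 (fun z hz => by
      rcases Finset.mem_insert.1 hz with rfl | hz
      · exact a2
      · rw [← a3 z (mem_ioo.2 (h1.1 z hz)), h0 z hz]) _ τ (Finset.mem_insert_self _ _) rfl
    funext z
    by_cases hz : z ∈ ioo σ τ
    · rw [a3 z hz]; exact h3 _ (D.mono _ _ (mem_ioo.1 hz).2.le (D.mem z))
    · exact a4 z hz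
  surj c hc v := by
    obtain ⟨h1, -⟩ := mem_K.1 hc
    obtain ⟨m, a1, a2⟩ := interp G D (insert τ c) (fun z hz w hw => h1.total hlt z
      (Finset.mem_insert_of_mem hz) w (Finset.mem_insert_of_mem hw)) σ (Function.update v τ 0)
      fun z hz => by
        rcases Finset.mem_insert.1 hz with rfl | hz
        · exact hlt
        · exact (h1.1 z hz).1
    obtain ⟨θ, b1, b2⟩ := exists_Θ (rk := rk) (τ := τ) m a1 (by simpa using a2 τ (by simp))
    refine ⟨θ, b1, fun k hk => ?_⟩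
    rw [b2 k (h1.1 k hk).1 (h1.1 k hk).2, a2 k (by simp [hk]),
      Function.update_of_ne (h1.1 k hk).2.ne]
  nbr c hc k hk := by
    obtain ⟨c', h1, h2⟩ := (mem_K.1 hc).1.nbr G hlt (mem_K.1 hc).2 hk
    exact ⟨c', mem_K.2 h1, h2⟩

omit [Fintype L] in
theorem card_join {e : L} {c1 c2 : Finset L} (h1 : Ch σ e c1) (h2 : Ch e τ c2) :
    (insert e (c1 ∪ c2)).card = c1.card + c2.card + 1 := by
  rw [Finset.card_insert_of_notMem, Finset.card_union_of_disjoint]
  · exact Finset.disjoint_left.2 fun z a1 a2 => (h1.1 z a1).2.not_gt (h2.1 z a2).1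
  · intro h
    rcases Finset.mem_union.1 h with h | h
    · exact (h1.1 e h).2.false
    · exact (h2.1 e h).1.false

theorem bundle (G : Graded rk) (D : ConeData rk W b) {e : L} (h1 : σ < e) (h2 : e < τ) :
    Bundle (bary rk W b σ τ) (bary rk W b σ e) (bary rk W b e τ) e where
  he := mem_ioo.2 ⟨h1, h2⟩
  s1 z hz := mem_ioo.2 ⟨(mem_ioo.1 hz).1, (mem_ioo.1 hz).2.trans h2⟩
  s2 z hz := mem_ioo.2 ⟨h1.trans (mem_ioo.1 hz).1, (mem_ioo.1 hz).2⟩
  e1 h := (mem_ioo.1 h).2.false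
  e2 h := (mem_ioo.1 h).1.false
  disj := Finset.disjoint_left.2 fun z a1 a2 => (mem_ioo.1 a1).2.not_gt (mem_ioo.1 a2).1
  dim := by
    have := G.lt _ _ h1
    have := G.lt _ _ h2
    simp only [bary]
    omega
  fac c := by
    classical
    have r1 := G.lt _ _ h1
    have r2 := G.lt _ _ h2
    simp only [mem_K]
    constructor
    · rintro ⟨⟨hc, hn⟩, he⟩
      have a1 : Ch σ e (c.filter (· < e)) :=
        ⟨fun z hz => ⟨(hc.1 z (Finset.mem_filter.1 hz).1).1, (Finset.mem_filter.1 hz).2⟩,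
          (hc.mono (Finset.filter_subset _ _)).2⟩
      have a2 : Ch e τ (c.filter (e < ·)) :=
        ⟨fun z hz => ⟨(Finset.mem_filter.1 hz).2, (hc.1 z (Finset.mem_filter.1 hz).1).2⟩,
          (hc.mono (Finset.filter_subset _ _)).2⟩
      have a3 : c = insert e (c.filter (· < e) ∪ c.filter (e < ·)) := by
        ext z
        simp only [Finset.mem_insert, Finset.mem_union, Finset.mem_filter]
        refine ⟨fun hz => ?_, ?_⟩
        · by_cases hze : z = e
          · exact Or.inl hze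
          · exact Or.inr ((hc.2 z hz e he).imp (fun h => ⟨hz, h.lt_of_ne hze⟩)
              fun h => ⟨hz, h.lt_of_ne' hze⟩)
        · rintro (rfl | h | h)
          exacts [he, h.1, h.1]
      have a4 := card_join a1 a2
      rw [← a3] at a4
      have a5 := a1.card_le G
      have a6 := a2.card_le G
      exact ⟨_, ⟨a1, by omega⟩, _, ⟨a2, by omega⟩, a3⟩
    · rintro ⟨c1, ⟨a1, n1⟩, c2, ⟨a2, n2⟩, rfl⟩
      refine ⟨⟨⟨fun z hz => ?_, fun z hz w hw => ?_⟩, by rw [card_join a1 a2]; omega⟩, by simp⟩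
      · simp only [Finset.mem_insert, Finset.mem_union] at hz
        rcases hz with rfl | hz | hz
        · exact ⟨h1, h2⟩
        · exact ⟨(a1.1 z hz).1, (a1.1 z hz).2.trans h2⟩
        · exact ⟨h1.trans (a2.1 z hz).1, (a2.1 z hz).2⟩
      · simp only [Finset.mem_insert, Finset.mem_union] at hz hw
        rcases hz with rfl | hz | hz <;> rcases hw with rfl | hw | hw
        · exact Or.inl le_rfl
        · exact Or.inr (a1.1 w hw).2.le
        · exact Or.inl (a2.1 w hw).1.le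
        · exact Or.inl (a1.1 z hz).2.le
        · exact a1.2 z hz w hw
        · exact Or.inl ((a1.1 z hz).2.trans (a2.1 w hw).1).le
        · exact Or.inr (a2.1 z hz).1.le
        · exact Or.inr ((a1.1 w hw).2.trans (a2.1 z hz).1).le
        · exact a2.2 z hz w hw
  B1 θ2 h := by
    obtain ⟨m, a1, a2, a3, -⟩ := mem_Θ.1 h
    obtain ⟨θ, b1, b2⟩ := exists_Θ (rk := rk) (σ := σ) m
      (fun v hv => a1 v (D.mono _ _ h1.le hv)) a2
    refine ⟨θ, b1, by rw [b2 e h1 h2, a1 _ (D.mem e)], fun j hj => ?_, fun j hj => ?_⟩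
    · have := mem_ioo.1 hj
      rw [b2 j this.1 (this.2.trans h2), a1 _ (D.mono _ _ this.2.le (D.mem j))]
    · have := mem_ioo.1 hj
      rw [b2 j (h1.trans this.1) this.2, a3 j hj]
  B2 θ1 h := by
    obtain ⟨m, a1, a2, a3, -⟩ := mem_Θ.1 h
    obtain ⟨μ, h3, h4⟩ := D.sep e
    have h5 := (h4 τ h2.not_ge).ne'
    obtain ⟨θ, b1, b2⟩ := exists_Θ (rk := rk) (W := W) (b := b) (σ := σ) (τ := τ)
      (m - (m (b τ) / μ (b τ)) • μ)
      (fun v hv => by simp [a1 v hv, h3 v (D.mono _ _ h1.le hv)]) (by simp [h5])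
    refine ⟨θ, b1, by simp [b2 e h1 h2, a2, h3 _ (D.mem e)], fun j hj => ?_⟩
    have := mem_ioo.1 hj
    simp [b2 j this.1 (this.2.trans h2), a3 j hj, h3 _ (D.mono _ _ this.2.le (D.mem j))]

theorem hb (G : Graded rk) (hlt : σ < τ) :
    Hb rk W b σ τ = (Polynomial.X - 1) ^ (rk τ - rk σ - 1) +
      ∑ z ∈ ioo σ τ, Hb rk W b σ z * (Polynomial.X - 1) ^ (rk τ - rk z - 1) := by
  have h0 : ∅ ∈ (bary rk W b σ τ).faces := (mem_faces G hlt).2 ⟨by simp, by simp⟩
  simp only [Hb, Finset.sum_mul]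
  rw [← Finset.add_sum_erase _ _ h0, Finset.sum_sigma']
  congr 1
  symm
  have key : ∀ p ∈ (ioo σ τ).sigma fun z => (bary rk W b σ z).faces,
      (σ < p.1 ∧ p.1 < τ) ∧ Ch σ p.1 p.2 := fun p hp => by
    rw [Finset.mem_sigma, mem_ioo] at hp
    exact ⟨hp.1, (mem_faces G hp.1.1).1 hp.2⟩
  refine Finset.sum_bij (fun p _ => insert p.1 p.2) (fun p hp => ?_) (fun p hp q hq e => ?_)
    (fun c hc => ?_) fun p hp => ?_
  · obtain ⟨a1, a2⟩ := key p hp
    refine Finset.mem_erase.2 ⟨Finset.insert_ne_empty _ _, (mem_faces G hlt).2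
      ⟨fun z hz => ?_, fun z hz w hw => a2.total a1.1 z (Finset.mem_insert_of_mem hz) w
        (Finset.mem_insert_of_mem hw)⟩⟩
    rcases Finset.mem_insert.1 hz with rfl | hz
    · exact a1
    · exact ⟨(a2.1 z hz).1, (a2.1 z hz).2.trans a1.2⟩
  · obtain ⟨z, c⟩ := p
    obtain ⟨w, d⟩ := q
    have a1 := (key _ hp).2
    have a2 := (key _ hq).2
    simp only at a1 a2 e
    have a3 : z = w := by
      have b1 : z ∈ insert w d := e ▸ Finset.mem_insert_self _ _
      have b2 : w ∈ insert z c := e ▸ Finset.mem_insert_self _ _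
      rcases Finset.mem_insert.1 b1 with b1 | b1
      · exact b1
      · rcases Finset.mem_insert.1 b2 with b2 | b2
        · exact b2.symm
        · exact ((a2.1 z b1).2.not_gt (a1.1 w b2).2).elim
    subst a3
    rw [← Finset.erase_insert (s := c) (a := z) fun h => (a1.1 z h).2.false, e,
      Finset.erase_insert fun h => (a2.1 z h).2.false]
  · obtain ⟨a1, a2⟩ := Finset.mem_erase.1 hc
    rw [mem_faces G hlt] at a2
    obtain ⟨z, hz, hmax⟩ := Finset.exists_max_image c rk (Finset.nonempty_iff_ne_empty.2 a1)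
    refine ⟨⟨z, c.erase z⟩, Finset.mem_sigma.2 ⟨mem_ioo.2 (a2.1 z hz),
      (mem_faces G (a2.1 z hz).1).2 ⟨fun w hw => ?_, (a2.mono (Finset.erase_subset _ _)).2⟩⟩,
      Finset.insert_erase hz⟩
    obtain ⟨b1, b2⟩ := Finset.mem_erase.1 hw
    exact ⟨(a2.1 w b2).1, (le_of_rk G (a2.2 w b2 z hz) (hmax w b2)).lt_of_ne b1⟩
  · obtain ⟨a1, a2⟩ := key p hp
    have b1 := a2.card_le G
    have b2 := G.lt _ _ a1.1
    have b3 := G.lt _ _ a1.2
    rw [← pow_add, Finset.card_insert_of_notMem fun h => (a2.1 _ h).2.false]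
    congr 1
    simp only [bary]
    omega

end BaryAP

theorem baryA : BaryAStmt := fun G D =>
  ⟨fun _ _ h => BaryAP.good G D h, fun _ _ _ h1 h2 => BaryAP.bundle G D h1 h2,
    fun _ _ h => BaryAP.hb G h⟩

end Pool.Agent.P.MP_cedf91_co
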