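import Pool.Agent.P.MP_cedf91_co.KFan

/-! Ample classes on barycentric fans. -/

namespace Pool.Agent.P.MP_cedf91_co

open Submodule Filter Topology

namespace BaryBP

variable {L E : Type} [PartialOrder L] [AddCommGroup E] [Module ℝ E] {rk : L → ℕ}
  {W : L → Submodule ℝ E} {b : L → E}

/-- Passing to a covering element adds one generator. -/
theorem decomp [FiniteDimensional ℝ E] (hC : ConeData rk W b) {y' y : L} (h : y' < y)
    (hr : rk y = rk y' + 1) {v : E} (hv : v ∈ W y) : ∃ a : ℝ, v - a • b y ∈ W y' := by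
  obtain ⟨m, hm, hm'⟩ := hC.sep y'
  have h1 : b y ∉ W y' := fun hb => (hm' y h.not_ge).ne' (hm _ hb)
  have h2 : W y' ⊔ span ℝ {b y} ≤ W y :=
    sup_le (hC.mono _ _ h.le) ((span_singleton_le_iff_mem _ _).2 (hC.mem y))
  have h3 : W y' < W y' ⊔ span ℝ {b y} :=
    lt_of_le_of_ne le_sup_left fun e => h1 (e ▸ mem_sup_right (mem_span_singleton_self _))
  have h4 := finrank_lt_finrank_of_lt h3
  have h5 : W y' ⊔ span ℝ {b y} = W y :=
    eq_of_le_of_finrank_le h2 (by rw [hC.dim] at h4 ⊢; omega)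
  rw [← h5, Submodule.mem_sup] at hv
  obtain ⟨s, hs, t, ht, rfl⟩ := hv
  obtain ⟨a, rfl⟩ := mem_span_singleton.1 ht
  exact ⟨a, by rwa [add_sub_cancel_right]⟩

/-- A saturated chain from `σ` to `τ`. -/
structure Sat (rk : L → ℕ) (σ τ : L) (D : L → Prop) : Prop where
  bot : D σ
  top : D τ
  le : ∀ y y', D y → D y' → rk y ≤ rk y' → y ≤ y'
  lo : ∀ y, D y → rk σ ≤ rk y
  hi : ∀ y, D y → rk y ≤ rk τ
  ex : ∀ i, rk σ ≤ i → i ≤ rk τ → ∃ y, D y ∧ rk y = i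

theorem bound [FiniteDimensional ℝ E] (hC : ConeData rk W b) {σ τ : L} {D : L → Prop}
    (hD : Sat rk σ τ D) (n : ℕ) : ∀ y, D y → rk y = rk σ + n → ∀ v ∈ W y, ∃ K : ℝ, 0 ≤ K ∧
      ∀ (μ : E →ₗ[ℝ] ℝ) (δ : ℝ), (∀ v ∈ W σ, μ v = 0) →
        (∀ x, D x → rk σ < rk x → rk x ≤ rk y → |μ (b x)| ≤ δ) → |μ v| ≤ K * δ := by
  induction n with
  | zero =>
    intro y hy hr v hv
    have : y = σ := le_antisymm (hD.le _ _ hy hD.bot (by omega)) (hD.le _ _ hD.bot hy (by omega))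
    subst this
    exact ⟨0, le_rfl, fun μ δ h _ => by simp [h v hv]⟩
  | succ n ih =>
    intro y hy hr v hv
    have h1 := hD.hi y hy
    obtain ⟨y', hy', hr'⟩ := hD.ex (rk σ + n) (by omega) (by omega)
    have h2 : y' < y := lt_of_le_of_ne (hD.le _ _ hy' hy (by omega)) fun e => by
      subst e; omega
    obtain ⟨a, ha⟩ := decomp hC h2 (by omega) hv
    obtain ⟨K, hK, hK'⟩ := ih y' hy' hr' _ ha
    refine ⟨K + |a|, by positivity, fun μ δ h h' => ?_⟩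
    have h3 := hK' μ δ h fun x hx h4 h5 => h' x hx h4 (by omega)
    have h4 := h' y hy (by omega) le_rfl
    have h5 : μ v = μ (v - a • b y) + a * μ (b y) := by
      rw [map_sub, map_smul, smul_eq_mul]; ring
    have h6 : |a * μ (b y)| ≤ |a| * δ := by
      rw [abs_mul]; exact mul_le_mul_of_nonneg_left h4 (abs_nonneg a)
    rw [h5, add_mul]
    exact (abs_add_le _ _).trans (add_le_add h3 h6)

variable [Fintype L] [DecidableEq L]

omit [DecidableEq L] in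
theorem mem_ioo {σ τ z : L} : z ∈ ioo σ τ ↔ σ < z ∧ z < τ := by simp [ioo]

theorem mem_K {σ τ : L} {c : Finset L} : c ∈ (bary rk W b σ τ).K ↔
    c ⊆ ioo σ τ ∧ IsChain (· ≤ ·) (c : Set L) ∧ c.card = rk τ - rk σ - 1 := by
  simp [bary]

theorem mem_theta {σ τ : L} {θ : L → ℝ} (h : θ ∈ (bary rk W b σ τ).Θ) :
    ∃ m : E →ₗ[ℝ] ℝ, (∀ v ∈ W σ, m v = 0) ∧ m (b τ) = 0 ∧ ∀ z ∈ ioo σ τ, θ z = m (b z) := by
  change θ ∈ span ℝ _ at h
  induction h using span_induction with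
  | mem x hx =>
    obtain ⟨m, h1, h2, rfl⟩ := hx
    exact ⟨m, h1, h2, fun z hz => if_pos hz⟩
  | zero => exact ⟨0, fun _ _ => rfl, rfl, fun _ _ => rfl⟩
  | add x y _ _ hx hy =>
    obtain ⟨m, h1, h2, h3⟩ := hx
    obtain ⟨m', h1', h2', h3'⟩ := hy
    exact ⟨m + m', fun v hv => by simp [h1 v hv, h1' v hv], by simp [h2, h2'],
      fun z hz => by simp [h3 z hz, h3' z hz]⟩
  | smul a x _ hx =>
    obtain ⟨m, h1, h2, h3⟩ := hx
    exact ⟨a • m, fun v hv => by simp [h1 v hv], by simp [h2], fun z hz => by simp [h3 z hz]⟩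

omit [DecidableEq L] in
theorem sat (hG : Graded rk) {σ τ : L} (h : σ < τ) {c : Finset L} (hc : c ⊆ ioo σ τ)
    (hch : IsChain (· ≤ ·) (c : Set L)) (hcard : c.card = rk τ - rk σ - 1) :
    Sat rk σ τ fun y => y = σ ∨ y = τ ∨ y ∈ c := by
  have h0 := hG.lt _ _ h
  have hb : ∀ y, (y = σ ∨ y = τ ∨ y ∈ c) → σ ≤ y ∧ y ≤ τ := by
    rintro y (rfl | rfl | hy)
    · exact ⟨le_rfl, h.le⟩
    · exact ⟨h.le, le_rfl⟩
    · exact ⟨(mem_ioo.1 (hc hy)).1.le, (mem_ioo.1 (hc hy)).2.le⟩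
  have hmono : ∀ x y : L, x ≤ y → rk x ≤ rk y := fun x y hxy => by
    rcases hxy.eq_or_lt with rfl | h'
    · exact le_rfl
    · exact (hG.lt _ _ h').le
  have hcmp : ∀ y y', (y = σ ∨ y = τ ∨ y ∈ c) → (y' = σ ∨ y' = τ ∨ y' ∈ c) →
      y ≤ y' ∨ y' ≤ y := by
    intro y y' hy hy'
    rcases hy with rfl | rfl | hy
    · exact Or.inl (hb _ hy').1
    · exact Or.inr (hb _ hy').2
    · rcases hy' with rfl | rfl | hy'
      · exact Or.inr (mem_ioo.1 (hc hy)).1.le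
      · exact Or.inl (mem_ioo.1 (hc hy)).2.le
      · exact hch.total hy hy'
  have hle : ∀ y y', (y = σ ∨ y = τ ∨ y ∈ c) → (y' = σ ∨ y' = τ ∨ y' ∈ c) → rk y ≤ rk y' →
      y ≤ y' := by
    intro y y' hy hy' hr
    rcases hcmp y y' hy hy' with h1 | h1
    · exact h1
    · rcases h1.eq_or_lt with rfl | h2
      · exact le_rfl
      · exact absurd (hG.lt _ _ h2) (by omega)
  refine ⟨Or.inl rfl, Or.inr (Or.inl rfl), hle, fun y hy => hmono _ _ (hb y hy).1,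
    fun y hy => hmono _ _ (hb y hy).2, fun i h1 h2 => ?_⟩
  rcases h1.eq_or_lt with rfl | h1
  · exact ⟨σ, Or.inl rfl, rfl⟩
  rcases h2.eq_or_lt with rfl | h2
  · exact ⟨τ, Or.inr (Or.inl rfl), rfl⟩
  have hs := Finset.surjOn_of_injOn_of_card_le (s := c) (t := Finset.Ioo (rk σ) (rk τ)) rk
    (fun y hy => by
      have := mem_ioo.1 (hc hy)
      simp only [Finset.coe_Ioo, Set.mem_Ioo]
      exact ⟨hG.lt _ _ this.1, hG.lt _ _ this.2⟩)
    (fun y hy y' hy' e => le_antisymm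
      (hle _ _ (Or.inr (Or.inr hy)) (Or.inr (Or.inr hy')) e.le)
      (hle _ _ (Or.inr (Or.inr hy')) (Or.inr (Or.inr hy)) e.ge))
    (by rw [Nat.card_Ioo, hcard])
  obtain ⟨y, hy, e⟩ := hs (show i ∈ (Finset.Ioo (rk σ) (rk τ) : Set ℕ) by
    simp only [Finset.coe_Ioo, Set.mem_Ioo]; exact ⟨h1, h2⟩)
  exact ⟨y, Or.inr (Or.inr hy), e⟩

theorem key [FiniteDimensional ℝ E] (hG : Graded rk) (hC : ConeData rk W b) (σ τ : L)
    (c : Finset L) (w : L) : ∀ᶠ C : ℝ in atTop, σ < τ → c ∈ (bary rk W b σ τ).K →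
      w ∈ ioo σ τ → w ∉ c → ∀ (μ : E →ₗ[ℝ] ℝ) (ε : L → ℝ), (∀ v ∈ W σ, μ v = 0) → μ (b τ) = 1 →
      (∀ z ∈ c, μ (b z) = ε z) → (∀ z ∈ ioo σ τ, 0 < ε z ∧ C * ε z ≤ 1) →
      (∀ z ∈ ioo σ τ, ∀ w ∈ ioo σ τ, rk z < rk w → C * ε z ≤ ε w) → ε w < μ (b w) := by
  classical
  by_cases H : σ < τ ∧ c ∈ (bary rk W b σ τ).K ∧ w ∈ ioo σ τ ∧ w ∉ c
  swap
  · exact Eventually.of_forall fun C h1 h2 h3 h4 => absurd ⟨h1, h2, h3, h4⟩ H
  obtain ⟨h, hK, hw, hwc⟩ := H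
  obtain ⟨hc, hch, hcard⟩ := mem_K.1 hK
  have hD := sat hG h hc hch hcard
  obtain ⟨hw1, hw2⟩ := mem_ioo.1 hw
  have hex : ∃ n, ∃ y, (y = σ ∨ y = τ ∨ y ∈ c) ∧ rk y = n ∧ w ≤ y :=
    ⟨_, τ, hD.top, rfl, hw2.le⟩
  obtain ⟨y, hy, hr, hwy⟩ := Nat.find_spec hex
  have h1 : rk σ < rk y := hG.lt _ _ (hw1.trans_le hwy)
  have h2 := hD.hi y hy
  obtain ⟨y', hy', hr'⟩ := hD.ex (rk y - 1) (by omega) (by omega)
  have h3 : ¬ w ≤ y' := fun hh => Nat.find_min hex (m := rk y - 1) (by omega) ⟨y', hy', hr', hh⟩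
  have h4 : y' < y := lt_of_le_of_ne (hD.le _ _ hy' hy (by omega)) fun e => by subst e; omega
  obtain ⟨a, ha⟩ := decomp hC h4 (by omega) (hC.mono _ _ hwy (hC.mem w))
  have ha0 : 0 < a := by
    obtain ⟨m, hm, hm'⟩ := hC.sep y'
    have h5 := hm _ ha
    rw [map_sub, map_smul, smul_eq_mul, sub_eq_zero] at h5
    have h6 := hm' w h3
    rw [h5] at h6
    exact (mul_pos_iff_of_pos_right (hm' y h4.not_ge)).1 h6
  obtain ⟨K, hK0, hK'⟩ := bound hC hD (rk y' - rk σ) y' hy' (by omega) _ ha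
  have h7 : rk w < rk y := by
    refine hG.lt _ _ (lt_of_le_of_ne hwy fun e => ?_)
    subst e
    rcases hy with rfl | rfl | hy
    · exact lt_irrefl _ hw1
    · exact lt_irrefl _ hw2
    · exact hwc hy
  filter_upwards [eventually_gt_atTop ((K + 1) / a)] with C hCa _ _ _ _ μ ε hμ hτ hz he1 he2
  have hC0 : 0 < C := lt_trans (by positivity) hCa
  rw [div_lt_iff₀ ha0] at hCa
  have h8 : 0 < μ (b y) ∧ ∀ x ∈ ioo σ τ, rk x < rk y → C * ε x ≤ μ (b y) := by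
    rcases hy with rfl | rfl | hy
    · exact absurd h1 (lt_irrefl _)
    · rw [hτ]; exact ⟨one_pos, fun x hx _ => (he1 x hx).2⟩
    · rw [hz y hy]; exact ⟨(he1 y (hc hy)).1, fun x hx hxy => he2 x hx y (hc hy) hxy⟩
  obtain ⟨δ, hδ⟩ : ∃ δ, μ (b y) = C * δ := ⟨μ (b y) / C, by field_simp⟩
  rw [hδ] at h8
  have hδ0 : 0 < δ := (mul_pos_iff_of_pos_left hC0).1 h8.1
  have h9 : ∀ x ∈ ioo σ τ, rk x < rk y → ε x ≤ δ := fun x hx hxy =>
    le_of_mul_le_mul_left (h8.2 x hx hxy) hC0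
  have h10 := hK' μ δ hμ fun x hx h11 h12 => by
    rcases hx with rfl | rfl | hx
    · exact absurd h11 (lt_irrefl _)
    · omega
    · rw [hz x hx, abs_of_pos (he1 x (hc hx)).1]
      exact h9 x (hc hx) (by omega)
  rw [map_sub, map_smul, smul_eq_mul, hδ] at h10
  have h11 := (abs_le.1 h10).1
  have h12 := h9 w hw h7
  nlinarith

end BaryBP

open BaryBP

theorem baryB : BaryBStmt := by
  intro L E _ _ _ _ _ _ rk W b hG hC
  have h := (eventually_ge_atTop (1 : ℝ)).and (eventually_all.2 fun σ => eventually_all.2 fun τ =>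
    eventually_all.2 fun c => eventually_all.2 fun w => key hG hC σ τ c w)
  obtain ⟨C, hC1, hC2⟩ := h.exists
  refine ⟨C, hC1, fun σ τ hστ m0 h0 h1 ε he1 he2 c hc θ hθ hk w hw hwc => ?_⟩
  obtain ⟨m, hm1, hm2, hm3⟩ := mem_theta hθ
  have hw' : w ∈ ioo σ τ := hw
  have h2 := hC2 σ τ c w hστ hc hw' hwc (m0 - m) ε
    (fun v hv => by simp [h0 v hv, hm1 v hv]) (by simp [h1, hm2])
    (fun z hz => by
      have h3 := hk z hz
      rw [hm3 z ((mem_K.1 hc).1 hz)] at h3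
      rw [LinearMap.sub_apply, h3]; ring) he1 he2
  rw [LinearMap.sub_apply] at h2
  rw [hm3 w hw']
  linarith

end Pool.Agent.P.MP_cedf91_co
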