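import Pool.Agent.P.MP_cedf91_co.KDefs

/-! Package Blow0: the blown-down space of the blow-up lemma. -/

namespace Pool.Agent.P.MP_cedf91_co

open Submodule

namespace Blow0P

variable {R : Type} [CommRing R] [Algebra ℝ R] {φ : R →ₗ[ℝ] ℝ} {𝒜 V : ℕ → Submodule ℝ R} {ℓ e : R}
  {n k : ℕ} {S T : Type} [DecidableEq S] [DecidableEq T] {a : S → ℕ}
  {b : T → ℕ} {y : S → ℕ → T → R} {c : ℝ}

theorem stab_pow (h : Stab V ℓ) (v : ℕ) {i : ℕ} {x : R} (hx : x ∈ V i) : ℓ ^ v * x ∈ V (i + v) := by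
  induction v with
  | zero => simpa using hx
  | succ v ih => rw [pow_succ', mul_assoc]; exact h _ _ ih

theorem gen_mem (D : BlowData φ 𝒜 V ℓ e n k a b y c) {s : S} {u : ℕ} (t : T) (v : ℕ)
    (h : 2 * a s + u + 1 ≤ k) {i : ℕ} (hi : a s + u + b t + v + 1 = i) :
    e * ℓ ^ v * y s u t ∈ V i := by
  have := stab_pow D.ℓV v (D.ey s u t h)
  rwa [show a s + u + b t + 1 + v = i by omega, mul_left_comm, ← mul_assoc] at this

theorem gen_ann (D : BlowData φ 𝒜 V ℓ e n k a b y c) {s : S} {u : ℕ} {t : T} {v : ℕ}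
    (h : 2 * a s + u + 1 ≤ k) (hv : n < v + k + 2 * b t) : e * ℓ ^ v * y s u t ∈ ann φ := by
  have hb := D.hb t
  obtain ⟨w, rfl⟩ : ∃ w, v = w + (n - k - 2 * b t + 1) := ⟨v - (n - k - 2 * b t + 1), by omega⟩
  have := ann_mul_left (D.A3 s u t h) (ℓ ^ w)
  rwa [show ℓ ^ w * (e * ℓ ^ (n - k - 2 * b t + 1) * y s u t) =
    e * ℓ ^ (w + (n - k - 2 * b t + 1)) * y s u t by rw [pow_add ℓ w]; ring] at this

theorem deg_zero (D : BlowData φ 𝒜 V ℓ e n k a b y c) {i j : ℕ} {x z : R} (hx : x ∈ V i)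
    (hz : z ∈ V j) (h : i + j ≠ n) : φ (x * z) = 0 :=
  D.gr.deg _ h _ (D.gr.mul (D.sub.le i hx) (D.sub.le j hz))

theorem split [Fintype S] [Fintype T] (H : LinLib) (D : BlowData φ 𝒜 V ℓ e n k a b y c) (i : ℕ) :
    V i ≤ blowM φ V ℓ e k a y i ⊔ span ℝ {x | ∃ s u t v, 2 * a s + u + 1 < k ∧
      v + k + 2 * b t ≤ n ∧ a s + u + b t + v + 1 = i ∧ x = e * ℓ ^ v * y s u t} := by
  intro α hα
  let I := {p : S × T × Fin k × Fin (n + 1) //
    2 * a p.1 + p.2.2.1 + 1 < k ∧ p.2.2.2 + k + 2 * b p.2.1 ≤ n}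
  let f : I → R := fun p => e * ℓ ^ (p.1.2.2.2 : ℕ) * y p.1.1 p.1.2.2.1 p.1.2.1
  let g : I → R := fun p => e * ℓ ^ (n - k - 2 * b p.1.2.1 - p.1.2.2.2) *
    y p.1.1 (k - 2 - 2 * a p.1.1 - p.1.2.2.1) p.1.2.1
  let cls : I → ℕ := fun p => a p.1.1 + p.1.2.2.1 + b p.1.2.1 + p.1.2.2.2 + 1
  have hf : ∀ p, f p ∈ V (cls p) := fun p => gen_mem D _ _ p.2.1.le rfl
  have hcls : ∀ p, cls p ≤ n := fun p => by
    have := p.2
    have := D.hb p.1.2.1
    simp only [cls]
    omega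
  have hg : ∀ p, g p ∈ V (n - cls p) := fun p => by
    have := p.2
    exact gen_mem D _ _ (by omega) (by simp only [cls]; omega)
  have efg : ∀ p q, f p * g q = e ^ (1 + 1) *
      ℓ ^ (p.1.2.2.2 + (n - k - 2 * b q.1.2.1 - q.1.2.2.2)) * y p.1.1 p.1.2.2.1 p.1.2.1 *
        y q.1.1 (k - 2 - 2 * a q.1.1 - q.1.2.2.1) q.1.2.1 := fun p q => by
    simp only [f, g]; ring
  obtain ⟨g', hg', hd⟩ := H.triDual φ (fun p : I => a p.1.1 + p.1.2.2.1) cls f g
    (fun p q hpq hw => by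
      have hp := p.2
      have hq := q.2
      rw [efg]
      rcases hw.lt_or_eq with hw | hw
      · exact D.A1lt _ _ _ _ _ _ _ _ (by omega) (by omega) (by omega)
      · rw [D.A1eq _ _ _ _ _ _ _ _ (by omega) (by omega) (by omega), if_neg]
        rintro ⟨h1, h2, h3⟩
        refine hpq (Subtype.ext (Prod.ext h1 (Prod.ext h2 (Prod.ext (Fin.ext ?_) (Fin.ext ?_)))))
        · rw [h1] at hw; omega
        · rw [h2] at h3; omega)
    (fun p => by
      have hp := p.2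
      rw [efg, D.A1eq _ _ _ _ _ _ _ _ (by omega) (by omega) (by omega),
        if_pos ⟨rfl, rfl, by omega⟩]
      exact mul_ne_zero D.hc.ne' (pow_ne_zero _ (by norm_num)))
    (fun p q hpq => deg_zero D (hf p) (hg q) (by have := hcls q; omega))
  have hs : ∑ q, φ (α * f q) • g' q ∈ span ℝ {x | ∃ s u t v, 2 * a s + u + 1 < k ∧
      v + k + 2 * b t ≤ n ∧ a s + u + b t + v + 1 = i ∧ x = e * ℓ ^ v * y s u t} := by
    refine sum_mem fun q _ => ?_
    by_cases hq : i + cls q = n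
    · refine smul_mem _ _ (span_mono ?_ (hg' q))
      rintro _ ⟨p, hp, rfl⟩
      have hp1 := p.2
      have hp2 : cls p = cls q := hp
      have hp3 : i + cls p = n := by omega
      simp only [cls] at hp3
      exact ⟨p.1.1, _, p.1.2.1, _, by omega, by omega, by omega, rfl⟩
    · rw [deg_zero D hα (hf q) hq, zero_smul]
      exact zero_mem _
  have hV : span ℝ {x | ∃ s u t v, 2 * a s + u + 1 < k ∧ v + k + 2 * b t ≤ n ∧
      a s + u + b t + v + 1 = i ∧ x = e * ℓ ^ v * y s u t} ≤ V i := by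
    rw [span_le]
    rintro _ ⟨s, u, t, v, h1, -, h3, rfl⟩
    exact gen_mem D t v h1.le h3
  rw [← sub_add_cancel α (∑ q, φ (α * f q) • g' q)]
  refine add_mem_sup ⟨sub_mem hα (hV hs), ?_⟩ hs
  rintro _ ⟨s, u, t, v, h1, rfl⟩
  by_cases hv : v + k + 2 * b t ≤ n
  · let p : I := ⟨(s, t, ⟨u, by omega⟩, ⟨v, by omega⟩), h1, hv⟩
    change φ (_ * f p) = 0
    rw [sub_mul, map_sub, Finset.sum_mul, map_sum]
    simp only [smul_mul_assoc, map_smul, mul_comm (g' _), hd, smul_eq_mul, mul_ite, mul_one,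
      mul_zero, Finset.sum_ite_eq, Finset.mem_univ, if_true, sub_self]
  · exact ann_apply (ann_mul_left (gen_ann D h1.le (by omega)) _)

/-- The filtration by the fibre degree. -/
def W (φ : R →ₗ[ℝ] ℝ) (ℓ e : R) (k : ℕ) (a : S → ℕ) (b : T → ℕ) (y : S → ℕ → T → R) (i f : ℕ) :
    Submodule ℝ R :=
  span ℝ {x | ∃ s u t v, 2 * a s + u + 1 ≤ k ∧ a s + u < f ∧ a s + u + b t + v = i ∧
    x = e * ℓ ^ v * y s u t} ⊔ ann φ

theorem top_terms [Fintype S] [Fintype T] (D : BlowData φ 𝒜 V ℓ e n k a b y c) {i f : ℕ} {x : R}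
    (hx : x ∈ W φ ℓ e k a b y i (f + 1)) : ∃ κ : S → T → ℝ,
      (∀ s t, κ s t ≠ 0 → a s ≤ f ∧ a s + f + 1 ≤ k ∧ f + b t ≤ i ∧ i + k + b t ≤ n + f) ∧
      x - ∑ s, ∑ t, κ s t • (e * ℓ ^ (i - f - b t) * y s (f - a s) t) ∈ W φ ℓ e k a b y i f := by
  obtain ⟨x1, hx1, x2, hx2, rfl⟩ := mem_sup.1 hx
  suffices h : ∃ κ : S → T → ℝ,
      (∀ s t, κ s t ≠ 0 → a s ≤ f ∧ a s + f + 1 ≤ k ∧ f + b t ≤ i ∧ i + k + b t ≤ n + f) ∧
      x1 - ∑ s, ∑ t, κ s t • (e * ℓ ^ (i - f - b t) * y s (f - a s) t) ∈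
        W φ ℓ e k a b y i f by
    obtain ⟨κ, h1, h2⟩ := h
    refine ⟨κ, h1, ?_⟩
    rw [add_sub_right_comm]
    exact add_mem h2 (mem_sup_right hx2)
  clear hx
  induction hx1 using span_induction with
  | mem x hx =>
    obtain ⟨s, u, t, v, h1, h2, h3, rfl⟩ := hx
    by_cases hf : a s + u < f
    · refine ⟨0, fun _ _ h => absurd rfl h, ?_⟩
      simp only [Pi.zero_apply, zero_smul, Finset.sum_const_zero, sub_zero]
      exact mem_sup_left (subset_span ⟨s, u, t, v, h1, hf, h3, rfl⟩)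
    by_cases hv : n < v + k + 2 * b t
    · refine ⟨0, fun _ _ h => absurd rfl h, ?_⟩
      simp only [Pi.zero_apply, zero_smul, Finset.sum_const_zero, sub_zero]
      exact mem_sup_right (gen_ann D h1 hv)
    refine ⟨fun s' t' => if s' = s then if t' = t then 1 else 0 else 0, fun s' t' h => ?_, ?_⟩
    · by_cases hs : s' = s
      · by_cases ht : t' = t
        · subst hs ht; omega
        · simp [ht] at h
      · simp [hs] at h
    · rw [Finset.sum_eq_single s (fun s' _ hs => by simp [hs]) (by simp),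
        Finset.sum_eq_single t (fun t' _ ht => by simp [ht]) (by simp),
        show i - f - b t = v by omega, show f - a s = u by omega]
      simp
  | zero => exact ⟨0, fun _ _ h => absurd rfl h, by simp⟩
  | add x z _ _ hx hz =>
    obtain ⟨κ, h1, h2⟩ := hx
    obtain ⟨κ', h1', h2'⟩ := hz
    refine ⟨κ + κ', fun s t h => ?_, ?_⟩
    · by_cases h0 : κ s t = 0
      · exact h1' s t fun h0' => h (by simp [h0, h0'])
      · exact h1 s t h0
    · simp only [Pi.add_apply, add_smul, Finset.sum_add_distrib]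
      rw [add_sub_add_comm]
      exact add_mem h2 h2'
  | smul r x _ hx =>
    obtain ⟨κ, h1, h2⟩ := hx
    refine ⟨r • κ, fun s t h => h1 s t fun h0 => h (by simp [h0]), ?_⟩
    simp only [Pi.smul_apply, smul_eq_mul, mul_smul, ← Finset.smul_sum]
    rw [← smul_sub]
    exact smul_mem _ _ h2

theorem W_orth (D : BlowData φ 𝒜 V ℓ e n k a b y c) {i f : ℕ} {x : R}
    (hx : x ∈ W φ ℓ e k a b y i f) {s : S} {u : ℕ} (t : T) (m : ℕ) (h : 2 * a s + u + 1 ≤ k)
    (hf : a s + u + f + 1 = k) : φ (x * (ℓ ^ m * y s u t)) = 0 := by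
  obtain ⟨x1, hx1, x2, hx2, rfl⟩ := mem_sup.1 hx
  rw [add_mul, map_add, hx2, add_zero]
  clear hx
  induction hx1 using span_induction with
  | mem x hx =>
    obtain ⟨s', u', t', v, h1, h2, -, rfl⟩ := hx
    rw [← D.A1lt s' u' t' s u t 0 (v + m) h1 h (by omega)]
    congr 1
    ring
  | zero => simp
  | add x z _ _ hx hz => rw [add_mul, map_add, hx, hz, add_zero]
  | smul r x _ hx => rw [smul_mul_assoc, map_smul, hx, smul_zero]

theorem normal_form [Fintype S] [Fintype T] (D : BlowData φ 𝒜 V ℓ e n k a b y c) (i : ℕ) {α : R}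
    (hα : α ∈ blowM φ V ℓ e k a y i) (hn : e * α ∉ ann φ) : ∃ (f : ℕ) (κ : S → T → ℝ),
      (∃ s t, κ s t ≠ 0) ∧
      (∀ s t, κ s t ≠ 0 → a s = f ∧ f + b t ≤ i ∧ i + k + b t ≤ n + f) ∧
      e * α - ∑ s, ∑ t, κ s t • (e * ℓ ^ (i - f - b t) * y s 0 t) ∈ W φ ℓ e k a b y i f := by
  classical
  have hex : ∃ F, e * α ∈ W φ ℓ e k a b y i F := by
    refine ⟨k, (sup_le (span_le.2 ?_) le_sup_right : _ ≤ W φ ℓ e k a b y i k) (D.A2 i α hα.1)⟩
    rintro _ ⟨s, u, t, v, h1, h2, rfl⟩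
    exact mem_sup_left (subset_span ⟨s, u, t, v, h1, by omega, h2, rfl⟩)
  have h0 : Nat.find hex ≠ 0 := by
    intro h
    have := Nat.find_spec hex
    rw [h] at this
    refine hn ((sup_le (span_le.2 ?_) le_rfl : W φ ℓ e k a b y i 0 ≤ ann φ) this)
    rintro _ ⟨s, u, t, v, -, h2, -⟩
    omega
  obtain ⟨f, hf⟩ := Nat.exists_eq_succ_of_ne_zero h0
  have h1 := Nat.find_spec hex
  have h2 := Nat.find_min hex (m := f) (by omega)
  rw [hf] at h1
  obtain ⟨κ, hκ, hW⟩ := top_terms D h1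
  have key : ∀ s t, κ s t ≠ 0 → a s = f := by
    intro s t hst
    obtain ⟨c1, c2, c3, c4⟩ := hκ s t hst
    by_contra hne
    have e1 := hα.2 _ ⟨s, k - 1 - a s - f, t, n + f - i - k - b t, by omega, rfl⟩
    have e2 := W_orth D hW (s := s) (u := k - 1 - a s - f) t (n + f - i - k - b t) (by omega)
      (by omega)
    rw [sub_mul, map_sub, show e * α * (ℓ ^ (n + f - i - k - b t) * y s (k - 1 - a s - f) t) =
      α * (e * ℓ ^ (n + f - i - k - b t) * y s (k - 1 - a s - f) t) by ring, e1, zero_sub,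
      neg_eq_zero] at e2
    have e3 : ∀ s' t', φ (κ s' t' • (e * ℓ ^ (i - f - b t') * y s' (f - a s') t') *
        (ℓ ^ (n + f - i - k - b t) * y s (k - 1 - a s - f) t)) =
        if s' = s then if t' = t then κ s t * (c * (-1) ^ (a s + b t)) else 0 else 0 := by
      intro s' t'
      rw [smul_mul_assoc, map_smul, smul_eq_mul]
      by_cases h0 : κ s' t' = 0
      · rw [h0, zero_mul]
        split_ifs with p q
        · subst p q; exact absurd h0 hst
        · rfl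
        · rfl
      obtain ⟨d1, d2, d3, d4⟩ := hκ s' t' h0
      have := D.A1eq s' (f - a s') t' s (k - 1 - a s - f) t 0
        (i - f - b t' + (n + f - i - k - b t)) (by omega) (by omega) (by omega)
      rw [show e * ℓ ^ (i - f - b t') * y s' (f - a s') t' *
        (ℓ ^ (n + f - i - k - b t) * y s (k - 1 - a s - f) t) = e ^ (0 + 1) *
        ℓ ^ (i - f - b t' + (n + f - i - k - b t)) * y s' (f - a s') t' *
        y s (k - 1 - a s - f) t by ring, this]
      by_cases p : s' = s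
      · by_cases q : t' = t
        · subst p q
          rw [if_pos ⟨rfl, rfl, by omega⟩, if_pos rfl, if_pos rfl, zero_add]
        · simp [q]
      · simp [p]
    simp only [Finset.sum_mul, map_sum, e3] at e2
    rw [Finset.sum_eq_single s (fun s' _ hs => by simp [hs]) (by simp)] at e2
    simp only [if_true, Finset.sum_ite_eq', Finset.mem_univ] at e2
    exact mul_ne_zero hst (mul_ne_zero D.hc.ne' (pow_ne_zero _ (by norm_num))) e2
  refine ⟨f, κ, ?_, fun s t h => ⟨key s t h, (hκ s t h).2.2⟩, ?_⟩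
  · by_contra hc
    push Not at hc
    simp only [hc, zero_smul, Finset.sum_const_zero, sub_zero] at hW
    exact h2 hW
  · convert hW using 4 with s _ t _
    by_cases h : κ s t = 0
    · rw [h, zero_smul, zero_smul]
    · rw [key s t h, Nat.sub_self]

end Blow0P

open Blow0P in
theorem blow0 (H : LinLib) : Blow0Stmt := by
  intro R _ _ φ 𝒜 V ℓ e n k S T _ _ _ _ a b y c D
  refine ⟨⟨fun i x hx => D.sub.le i hx.1, fun i => ?_, fun i x hx h => ?_⟩, fun i x hx => ?_,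
    fun i => (split H D i).trans le_sup_left, fun i α hα hn => normal_form D i hα hn⟩
  · obtain ⟨r, f, hf⟩ := D.sub.fin i
    exact ⟨r, f, fun x hx => hf hx.1⟩
  · refine D.sub.pd i x hx.1 fun j z hz => ?_
    obtain ⟨z1, hz1, z2, hz2, rfl⟩ := mem_sup.1 (split H D j hz)
    rw [mul_add, map_add, h j z1 hz1, zero_add]
    clear hz
    induction hz2 using span_induction with
    | mem z hz =>
      obtain ⟨s, u, t, v, h1, -, -, rfl⟩ := hz
      exact hx.2 _ ⟨s, u, t, v, h1, rfl⟩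
    | zero => simp
    | add z w _ _ hz hw => rw [mul_add, map_add, hz, hw, add_zero]
    | smul r z _ hz => rw [mul_smul_comm, map_smul, hz, smul_zero]
  · refine ⟨D.ℓV i x hx.1, ?_⟩
    rintro _ ⟨s, u, t, v, h1, rfl⟩
    rw [← hx.2 _ ⟨s, u, t, v + 1, h1, rfl⟩]
    congr 1
    ring

end Pool.Agent.P.MP_cedf91_co
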