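import Pool.Agent.P.MP_cedf91_co.KDefs

/-! The two directions of the blow-up lemma. -/

namespace Pool.Agent.P.MP_cedf91_co

open Submodule Filter Topology

theorem blow2 (_H : LinLib) (HL : BlowLimStmt) : Blow2Stmt := by
  intro R _ _ φ 𝒜 V ℓ e n k S T _ _ _ _ a b y c hB hN
  obtain ⟨pN, nN, h0, hs, h⟩ := HL hB
  obtain ⟨A, B, hB0, hS, hle⟩ := hN
  have key : ∀ᶠ t in 𝓝[>] (0 : ℝ), ∀ i ∈ Finset.range (n + 1), 2 * i ≤ n →
      Sig φ (wt (ℓ - t • e) n i) (V i) (A i + pN i) (B i + nN i) := by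
    rw [eventually_all_finset]
    intro i _
    by_cases hi : 2 * i ≤ n
    · obtain ⟨h1, h2, h3, -⟩ := h i hi
      obtain ⟨s1, s2, s3⟩ := hS i hi
      filter_upwards [h2 _ s2, h3 _ s3] with t t2 t3 _
      refine ⟨?_, t2, t3⟩
      have := h1 _ s1
      rwa [show A i + B i + pN i + nN i = A i + pN i + (B i + nN i) by ring] at this
    · exact Eventually.of_forall fun t h => absurd h hi
  filter_upwards [key] with t ht
  refine ⟨fun i => A i + pN i, fun i => B i + nN i, by simp [hB0, h0],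
    fun i hi => ht i (Finset.mem_range.2 (by omega)) hi, fun i hi => ?_⟩
  have := hle i hi
  have := hs i
  change B (i + 1) + nN (i + 1) ≤ A i + pN i
  omega

namespace Blow23P

variable {R : Type} [CommRing R] [Algebra ℝ R] {φ : R →ₗ[ℝ] ℝ}

theorem stab_pow {V : ℕ → Submodule ℝ R} {ℓ : R} (h : Stab V ℓ) {i : ℕ} {x : R} (hx : x ∈ V i)
    (m : ℕ) : ℓ ^ m * x ∈ V (i + m) := by
  induction m with
  | zero => simpa using hx
  | succ m ih => rw [pow_succ', mul_assoc]; exact h _ _ ih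

theorem posGe_zero (w : R) (U : Submodule ℝ R) : PosGe φ w U 0 :=
  ⟨fun i => i.elim0, fun i => i.elim0, fun c hc => absurd (Subsingleton.elim c 0) hc⟩

theorem posGe_succ {V : ℕ → Submodule ℝ R} {ℓ : R} (h : Stab V ℓ) {n i r : ℕ}
    (hi : 2 * (i + 1) ≤ n) (hp : PosGe φ (wt ℓ n i) (V i) r) :
    PosGe φ (-wt ℓ n (i + 1)) (V (i + 1)) r := by
  obtain ⟨v, hv, hc⟩ := hp
  refine ⟨fun j => ℓ * v j, fun j => h _ _ (hv j), fun c h0 => ?_⟩
  have e1 : ∑ j, c j • (ℓ * v j) = ℓ * ∑ j, c j • v j := by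
    rw [Finset.mul_sum]
    exact Finset.sum_congr rfl fun j _ => (mul_smul_comm _ _ _).symm
  have e2 : -wt ℓ n (i + 1) * ℓ ^ 2 = wt ℓ n i := by
    rw [wt, wt, show n - 2 * i = n - 2 * (i + 1) + 2 by omega, pow_add ℓ, pow_succ (-1 : ℝ),
      mul_neg, mul_one, neg_smul, neg_neg, smul_mul_assoc]
  rw [e1, mul_pow, ← mul_assoc, e2]
  exact hc c h0

theorem wt_ann {ℓ x : R} {n i : ℕ} (h : ℓ ^ (n - 2 * i) * x ∈ ann φ) : wt ℓ n i * x ∈ ann φ := by
  rw [wt, smul_mul_assoc]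
  exact Submodule.smul_mem _ _ h

end Blow23P

open Blow23P in
theorem blow3 (H : LinLib) (H0 : Blow0Stmt) (HL : BlowLimStmt) : Blow3Stmt := by
  intro R _ _ φ 𝒜 V ℓ e n k S T _ _ _ _ a b y c hB hN
  obtain ⟨pN, nN, h0, hs, h⟩ := HL hB
  obtain ⟨hG, hSt, -, -⟩ := H0 hB
  generalize hM : blowM φ V ℓ e k a y = M at h hG hSt ⊢
  have hMV : ∀ i, ∀ x ∈ M i, x ∈ V i := fun i x hx => by
    rw [← hM] at hx
    exact hx.1
  have step : ∀ i r, 2 * i ≤ n → PosGe φ (-wt ℓ n i) (M i) r →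
      (∀ᶠ t in 𝓝[>] (0 : ℝ), ∀ m, PosGe φ (-wt (ℓ - t • e) n i) (V i) m → m ≤ r + nN i) →
      ∃ A B, Sig φ (wt ℓ n i) (M i) A B ∧ B ≤ r := by
    intro i r hi hp hb
    obtain ⟨-, -, h3, h4⟩ := h i hi
    have hnd : Nondeg φ (wt ℓ n i) (M i) := by
      intro x hx hrad
      have hz : ℓ ^ (n - 2 * i) * x ∈ ann φ := by
        refine hG.pd _ _ (stab_pow hSt hx _) fun j z hz => ?_
        by_cases hj : j = i
        · subst hj
          have := hrad z hz
          rw [wt, smul_mul_assoc, smul_mul_assoc, map_smul, smul_eq_mul] at this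
          exact (mul_eq_zero.1 this).resolve_left (pow_ne_zero _ (by norm_num))
        · exact hB.gr.deg _ (by omega) _
            (hB.gr.mul (hG.le _ (stab_pow hSt hx (n - 2 * i))) (hG.le _ hz))
      by_cases he : e * x ∈ ann φ
      · obtain ⟨t, A, B, -, hS, -⟩ := hN.exists
        refine H.sigNondeg (hS i hi) x (hMV i x hx) fun z _ => wt_ann ?_ z
        obtain ⟨u, hu⟩ := sub_dvd_pow_sub_pow (ℓ - t • e) ℓ (n - 2 * i)
        have e1 : (ℓ - t • e) ^ (n - 2 * i) * x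
            = ℓ ^ (n - 2 * i) * x + (-t) • (u * (e * x)) := by
          rw [← sub_eq_iff_eq_add', ← sub_mul, hu, Algebra.smul_def, Algebra.smul_def, map_neg]
          ring
        rw [e1]
        exact add_mem hz (Submodule.smul_mem _ _ (ann_mul_left he u))
      · obtain ⟨t, t1, t2⟩ := ((h4 r hp x hx hz he).and hb).exists
        have := t2 _ t1
        omega
    obtain ⟨m, hm⟩ := hG.fin i
    obtain ⟨A, B, hS⟩ := H.exSig hm hnd
    obtain ⟨t, t1, t2⟩ := ((h3 B hS.2.2).and hb).exists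
    have := t2 _ t1
    exact ⟨A, B, hS, by omega⟩
  have hBle : ∀ (t : ℝ) (A B : ℕ → ℕ),
      (∀ i, 2 * i ≤ n → Sig φ (wt (ℓ - t • e) n i) (V i) (A i) (B i)) →
      ∀ i m, 2 * i ≤ n → PosGe φ (-wt (ℓ - t • e) n i) (V i) m → m ≤ B i := by
    intro t A B hS i m hi hm
    have := H.sylv (hS i hi).1 (hS i hi).2.1 hm
    omega
  have zero : ∃ A B, Sig φ (wt ℓ n 0) (M 0) A B ∧ B ≤ 0 := by
    refine step 0 0 (by omega) (posGe_zero _ _) ?_
    filter_upwards [hN] with t ⟨A, B, hB0, hS, _⟩ m hm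
    have := hBle t A B hS 0 m (by omega) hm
    omega
  have succ : ∀ i A B, 2 * (i + 1) ≤ n → Sig φ (wt ℓ n i) (M i) A B →
      ∃ A' B', Sig φ (wt ℓ n (i + 1)) (M (i + 1)) A' B' ∧ B' ≤ A := by
    intro i A B hi hS
    refine step (i + 1) A hi (posGe_succ hSt hi hS.2.1) ?_
    obtain ⟨h1, -, h3, -⟩ := h i (by omega)
    filter_upwards [hN, h3 B hS.2.2] with t ⟨A', B', _, hS', hle⟩ ht m hm
    have e1 := hBle t A' B' hS' (i + 1) m hi hm
    have e2 := hle i hi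
    have e3 := H.sylv (h1 _ hS.1) (hS' i (by omega)).2.1 ht
    have e4 := hs i
    omega
  have ex : ∀ i, ∃ A B, 2 * i ≤ n → Sig φ (wt ℓ n i) (M i) A B := by
    intro i
    induction i with
    | zero => obtain ⟨A, B, hS, -⟩ := zero; exact ⟨A, B, fun _ => hS⟩
    | succ i ih =>
      by_cases hi : 2 * (i + 1) ≤ n
      · obtain ⟨A, B, hS⟩ := ih
        obtain ⟨A', B', hS', -⟩ := succ i A B hi (hS (by omega))
        exact ⟨A', B', fun _ => hS'⟩
      · exact ⟨0, 0, fun h => absurd h hi⟩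
  choose A B hS using ex
  refine ⟨A, B, ?_, hS, fun i hi => ?_⟩
  · obtain ⟨A', B', hS', hle⟩ := zero
    have := H.sylv hS'.1 hS'.2.1 (hS 0 (by omega)).2.2
    omega
  · obtain ⟨A', B', hS', hle⟩ := succ i _ _ hi (hS i (by omega))
    have := H.sylv hS'.1 hS'.2.1 (hS (i + 1) hi).2.2
    omega

end Pool.Agent.P.MP_cedf91_co
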