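import Pool.Agent.P.MP_cedf91_co.KDefs

/-! Limits of the rescaled Gram matrices of the blow-up lemma. -/

namespace Pool.Agent.P.MP_cedf91_co

open Submodule Filter Topology

namespace BlowGramP

theorem zpow_lim (z : ℤ) (C : ℝ) (h : z < 0 → C = 0) :
    Tendsto (fun δ : ℝ => δ ^ z * C) (𝓝[>] 0) (𝓝 (if z = 0 then C else 0)) := by
  rcases lt_trichotomy z 0 with hz | rfl | hz
  · rw [h hz]; simp
  · simp
  · rw [if_neg hz.ne']
    obtain ⟨m, rfl⟩ := Int.eq_ofNat_of_zero_le hz.le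
    have hm : m ≠ 0 := by omega
    have : Tendsto (fun δ : ℝ => δ ^ m * C) (𝓝 0) (𝓝 (0 ^ m * C)) :=
      ((continuous_pow m).mul continuous_const).tendsto 0
    simpa [zero_pow hm] using this.mono_left nhdsWithin_le_nhds

variable {R : Type} [CommRing R] [Algebra ℝ R] {φ : R →ₗ[ℝ] ℝ}

theorem expand (ℓ e P : R) (n i : ℕ) (δ : ℝ) :
    φ (wt (ℓ - δ ^ 2 • e) n i * P) = ∑ r ∈ Finset.range (n - 2 * i + 1), δ ^ (2 * r) *
      ((-1) ^ (i + r) * ((n - 2 * i).choose r : ℝ) * φ (e ^ r * ℓ ^ (n - 2 * i - r) * P)) := by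
  have h1 : ℓ - δ ^ 2 • e = (-δ ^ 2) • e + ℓ := by rw [neg_smul]; abel
  rw [wt, h1, add_pow, smul_mul_assoc, map_smul, Finset.sum_mul, map_sum, smul_eq_mul,
    Finset.mul_sum]
  refine Finset.sum_congr rfl fun r _ => ?_
  have h2 : ((-δ ^ 2) • e) ^ r * ℓ ^ (n - 2 * i - r) * ((n - 2 * i).choose r : R) * P =
      ((-δ ^ 2) ^ r * ((n - 2 * i).choose r : ℝ)) • (e ^ r * ℓ ^ (n - 2 * i - r) * P) := by
    rw [smul_pow, mul_smul, Nat.cast_smul_eq_nsmul, nsmul_eq_mul]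
    simp only [smul_mul_assoc]
    congr 1
    ring
  rw [h2, map_smul, smul_eq_mul, neg_pow (δ ^ 2), ← pow_mul, pow_add]
  ring

theorem lim (ℓ e P : R) (n i : ℕ) (z : ℤ)
    (h : ∀ r : ℕ, z + 2 * r < 0 → φ (e ^ r * ℓ ^ (n - 2 * i - r) * P) = 0) :
    Tendsto (fun δ : ℝ => δ ^ z * φ (wt (ℓ - δ ^ 2 • e) n i * P)) (𝓝[>] 0)
      (𝓝 (∑ r ∈ Finset.range (n - 2 * i + 1), if z + 2 * (r : ℤ) = 0 then
        (-1) ^ (i + r) * ((n - 2 * i).choose r : ℝ) * φ (e ^ r * ℓ ^ (n - 2 * i - r) * P)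
        else 0)) := by
  refine (tendsto_finsetSum _ fun (r : ℕ) _ => zpow_lim (z + 2 * (r : ℤ)) _ fun hr => by
    rw [h r hr, mul_zero]).congr' ?_
  filter_upwards [self_mem_nhdsWithin] with δ hδ
  have hδ' : δ ≠ 0 := ne_of_gt hδ
  rw [expand, Finset.mul_sum]
  refine Finset.sum_congr rfl fun r _ => ?_
  have h1 : δ ^ (2 * (r : ℤ)) = δ ^ (2 * r) := by
    rw [← zpow_natCast]
    congr 1
  rw [zpow_add₀ hδ', h1]
  ring

theorem lim2 (ℓ e X Y : R) (n i : ℕ) (z₁ z₂ : ℤ) {L : ℝ}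
    (h : Tendsto (fun δ : ℝ => δ ^ (z₁ + z₂) * φ (wt (ℓ - δ ^ 2 • e) n i * (X * Y))) (𝓝[>] 0)
      (𝓝 L)) :
    Tendsto (fun δ : ℝ => φ (wt (ℓ - δ ^ 2 • e) n i * (δ ^ z₁ • X) * (δ ^ z₂ • Y))) (𝓝[>] 0)
      (𝓝 L) := by
  refine h.congr' ?_
  filter_upwards [self_mem_nhdsWithin] with δ hδ
  have hδ' : δ ≠ 0 := ne_of_gt hδ
  rw [zpow_add₀ hδ', mul_smul_comm, mul_smul_comm, smul_mul_assoc, map_smul, map_smul,
    smul_eq_mul, smul_eq_mul, mul_assoc _ X Y]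
  ring

theorem lim0 (ℓ e X Y : R) (n i : ℕ) (z₁ z₂ : ℤ)
    (h : ∀ r : ℕ, z₁ + z₂ + 2 * r ≤ 0 → φ (e ^ r * ℓ ^ (n - 2 * i - r) * (X * Y)) = 0) :
    Tendsto (fun δ : ℝ => φ (wt (ℓ - δ ^ 2 • e) n i * (δ ^ z₁ • X) * (δ ^ z₂ • Y))) (𝓝[>] 0)
      (𝓝 0) := by
  refine lim2 ℓ e X Y n i z₁ z₂ ?_
  have h1 := lim (φ := φ) ℓ e (X * Y) n i (z₁ + z₂) fun r hr => h r hr.le
  rwa [Finset.sum_eq_zero] at h1
  intro r _
  split_ifs with hr
  · rw [h r hr.le, mul_zero]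
  · rfl

theorem lim1 (ℓ e X Y : R) (n i : ℕ) (z₁ z₂ : ℤ) (r₀ : ℕ) (hz : z₁ + z₂ + 2 * r₀ = 0)
    (h : ∀ r : ℕ, r < r₀ → φ (e ^ r * ℓ ^ (n - 2 * i - r) * (X * Y)) = 0) {L : ℝ}
    (hL : r₀ ≤ n - 2 * i → (-1) ^ (i + r₀) * φ (e ^ r₀ * ℓ ^ (n - 2 * i - r₀) * (X * Y)) = L) :
    Tendsto (fun δ : ℝ => φ (wt (ℓ - δ ^ 2 • e) n i * (δ ^ z₁ • X) * (δ ^ z₂ • Y))) (𝓝[>] 0)
      (𝓝 (L * ((n - 2 * i).choose r₀ : ℝ))) := by
  refine lim2 ℓ e X Y n i z₁ z₂ ?_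
  have h1 := lim (φ := φ) ℓ e (X * Y) n i (z₁ + z₂) fun r hr => h r (by omega)
  rw [Finset.sum_eq_single r₀ (fun r _ hr => if_neg (by omega)) fun hr => by
    rw [if_pos hz, Nat.choose_eq_zero_of_lt (by simpa using hr)]; simp, if_pos hz] at h1
  convert h1 using 2
  by_cases h2 : r₀ ≤ n - 2 * i
  · rw [← hL h2]; ring
  · rw [Nat.choose_eq_zero_of_lt (not_le.1 h2)]; simp

/-- Classes of fibre degree less than `F`. -/
def H (ℓ : R) (k : ℕ) {S T : Type} (a : S → ℕ) (y : S → ℕ → T → R) (F : ℕ) : Submodule ℝ R :=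
  span ℝ {x | ∃ s u t v, 2 * a s + u + 1 ≤ k ∧ a s + u < F ∧ x = ℓ ^ v * y s u t}

variable {𝒜 V : ℕ → Submodule ℝ R} {ℓ e : R} {n k : ℕ} {S T : Type} [Fintype S] [Fintype T]
  [DecidableEq S] [DecidableEq T] {a : S → ℕ} {b : T → ℕ} {y : S → ℕ → T → R} {c : ℝ}

omit [Fintype S] [Fintype T] [DecidableEq S] [DecidableEq T] in
theorem H_mono {F F' : ℕ} (h : F ≤ F') : H ℓ k a y F ≤ H ℓ k a y F' :=
  span_mono fun _ ⟨s, u, t, v, h1, h2, h3⟩ => ⟨s, u, t, v, h1, h2.trans_le h, h3⟩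

omit [Fintype S] [Fintype T] [DecidableEq S] [DecidableEq T] in
theorem y_mem {s : S} {u : ℕ} (t : T) (h : 2 * a s + u + 1 ≤ k) :
    y s u t ∈ H ℓ k a y (a s + u + 1) :=
  subset_span ⟨s, u, t, 0, h, Nat.lt_succ_self _, by rw [pow_zero, one_mul]⟩

omit [Fintype S] [Fintype T] in
theorem pair_zero (D : BlowData φ 𝒜 V ℓ e n k a b y c) {F F' : ℕ} {X X' : R}
    (hX : X ∈ H ℓ k a y F) (hX' : X' ∈ H ℓ k a y F') (r m : ℕ) (h : F + F' + r ≤ k) :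
    φ (e ^ (r + 1) * ℓ ^ m * (X * X')) = 0 := by
  induction hX using span_induction with
  | zero => simp
  | add X₁ X₂ _ _ h1 h2 => rw [add_mul, mul_add, map_add, h1, h2, add_zero]
  | smul d X _ h1 => rw [smul_mul_assoc, mul_smul_comm, map_smul, h1, smul_zero]
  | mem X hX =>
    obtain ⟨s, u, t, v, h1, h2, rfl⟩ := hX
    induction hX' using span_induction with
    | zero => simp
    | add X₁ X₂ _ _ h1 h2 => rw [mul_add, mul_add, map_add, h1, h2, add_zero]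
    | smul d X _ h1 => rw [mul_smul_comm, mul_smul_comm, map_smul, h1, smul_zero]
    | mem X' hX' =>
      obtain ⟨s', u', t', v', h1', h2', rfl⟩ := hX'
      rw [← D.A1lt s u t s' u' t' r (m + v + v') h1 h1' (by omega)]
      congr 1
      ring

omit [Fintype S] [Fintype T] [DecidableEq S] [DecidableEq T] in
theorem exists_H {F i : ℕ} {w : R}
    (hw : w ∈ span ℝ {x | ∃ s u t v, 2 * a s + u + 1 ≤ k ∧ a s + u < F ∧
      a s + u + b t + v = i ∧ x = e * ℓ ^ v * y s u t} ⊔ ann φ) :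
    ∃ X ∈ H ℓ k a y F, w - e * X ∈ ann φ := by
  obtain ⟨w₁, h1, w₂, h2, rfl⟩ := mem_sup.1 hw
  have h3 : ∃ X ∈ H ℓ k a y F, w₁ = e * X := by
    clear hw
    induction h1 using span_induction with
    | zero => exact ⟨0, zero_mem _, (mul_zero _).symm⟩
    | add X₁ X₂ _ _ h1 h2 =>
      obtain ⟨Y₁, hY₁, rfl⟩ := h1
      obtain ⟨Y₂, hY₂, rfl⟩ := h2
      exact ⟨Y₁ + Y₂, add_mem hY₁ hY₂, (mul_add _ _ _).symm⟩
    | smul d X _ h1 =>
      obtain ⟨Y, hY, rfl⟩ := h1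
      exact ⟨d • Y, smul_mem _ _ hY, (mul_smul_comm _ _ _).symm⟩
    | mem X hX =>
      obtain ⟨s, u, t, v, h1, h2, -, rfl⟩ := hX
      exact ⟨_, subset_span ⟨s, u, t, v, h1, h2, rfl⟩, mul_assoc _ _ _⟩
  obtain ⟨X, hX, rfl⟩ := h3
  exact ⟨X, hX, by rwa [add_sub_cancel_left]⟩

theorem repl {x X : R} (h : e * x - e * X ∈ ann φ) (r m : ℕ) (Y : R) :
    φ (e ^ (r + 1) * ℓ ^ m * (x * Y)) = φ (e ^ (r + 1) * ℓ ^ m * (X * Y)) := by
  rw [← sub_eq_zero, ← map_sub, ← h (e ^ r * ℓ ^ m * Y)]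
  congr 1
  ring

theorem repl' {x X : R} (h : e * x - e * X ∈ ann φ) (r m : ℕ) (Y : R) :
    φ (e ^ (r + 1) * ℓ ^ m * (Y * x)) = φ (e ^ (r + 1) * ℓ ^ m * (Y * X)) := by
  rw [mul_comm Y, mul_comm Y, repl h]

/-- The leading part. -/
noncomputable def X0 (ℓ : R) {S T : Type} [Fintype S] [Fintype T] (b : T → ℕ)
    (y : S → ℕ → T → R) (i f : ℕ) (κ : S → T → ℝ) : R :=
  ∑ s, ∑ t, κ s t • (ℓ ^ (i - f - b t) * y s 0 t)

omit [DecidableEq S] [DecidableEq T] in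
theorem e_X0 (i f : ℕ) (κ : S → T → ℝ) :
    e * X0 ℓ b y i f κ = ∑ s, ∑ t, κ s t • (e * ℓ ^ (i - f - b t) * y s 0 t) := by
  simp only [X0, Finset.mul_sum, mul_smul_comm, mul_assoc]

theorem X0_mem (D : BlowData φ 𝒜 V ℓ e n k a b y c) {i f : ℕ} {κ : S → T → ℝ}
    (hκ : ∀ s t, κ s t ≠ 0 → a s = f) : X0 ℓ b y i f κ ∈ H ℓ k a y (f + 1) := by
  refine sum_mem fun s _ => sum_mem fun t _ => ?_
  by_cases h : κ s t = 0
  · rw [h, zero_smul]; exact zero_mem _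
  · exact smul_mem _ _ (subset_span ⟨s, 0, t, _, D.ha s, by have := hκ s t h; omega, rfl⟩)

omit [DecidableEq S] [DecidableEq T] in
theorem nf {x : R} {i f : ℕ} {κ : S → T → ℝ}
    (h : e * x - ∑ s, ∑ t, κ s t • (e * ℓ ^ (i - f - b t) * y s 0 t) ∈
      span ℝ {x | ∃ s u t v, 2 * a s + u + 1 ≤ k ∧ a s + u < f ∧ a s + u + b t + v = i ∧
        x = e * ℓ ^ v * y s u t} ⊔ ann φ) :
    ∃ X ∈ H ℓ k a y f, e * x - e * (X0 ℓ b y i f κ + X) ∈ ann φ := by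
  obtain ⟨X, hX, h1⟩ := exists_H h
  refine ⟨X, hX, ?_⟩
  rwa [mul_add, e_X0, ← sub_sub]

theorem nfM (H0 : Blow0Stmt) (D : BlowData φ 𝒜 V ℓ e n k a b y c) {i : ℕ} {α : R}
    (hα : α ∈ blowM φ V ℓ e k a y i) : ∃ X ∈ H ℓ k a y ((k + 1) / 2), e * α - e * X ∈ ann φ := by
  by_cases h : e * α ∈ ann φ
  · exact ⟨0, zero_mem _, by rwa [mul_zero, sub_zero]⟩
  obtain ⟨f, κ, ⟨s, t, hst⟩, hκ, h1⟩ := (H0 D).2.2.2 i α hα h
  obtain ⟨X, hX, h2⟩ := nf h1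
  have h3 := D.ha s
  have h4 := (hκ s t hst).1
  exact ⟨_, add_mem (H_mono (by omega) (X0_mem D fun s t h => (hκ s t h).1))
    (H_mono (by omega) hX), h2⟩

theorem X0_y (D : BlowData φ 𝒜 V ℓ e n k a b y c) {i f : ℕ} {κ : S → T → ℝ}
    (hκ : ∀ s t, κ s t ≠ 0 → a s = f) (s : S) (u : ℕ) (t : T) (r m : ℕ)
    (h1 : 2 * a s + u + 1 ≤ k) (h2 : f + a s + u + r + 1 = k)
    (h3 : κ s t ≠ 0 → m + (i - f - b t) + k + 2 * b t = n) :
    φ (e ^ (r + 1) * ℓ ^ m * (X0 ℓ b y i f κ * y s u t)) =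
      κ s t * (c * (-1) ^ (r + a s + b t)) := by
  have key : ∀ s' t', φ (e ^ (r + 1) * ℓ ^ m * (κ s' t' • (ℓ ^ (i - f - b t') * y s' 0 t') *
      y s u t)) = if s' = s then if t' = t then κ s t * (c * (-1) ^ (r + a s + b t)) else 0
        else 0 := by
    intro s' t'
    by_cases h : κ s' t' = 0
    · rw [h, zero_smul, zero_mul, mul_zero, map_zero]
      split_ifs with hs ht
      · rw [← hs, ← ht, h, zero_mul]
      · rfl
      · rfl
    have h4 := D.A1eq s' 0 t' s u t r (m + (i - f - b t')) (D.ha s') h1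
      (by have := hκ s' t' h; omega)
    have h5 : e ^ (r + 1) * ℓ ^ m * (ℓ ^ (i - f - b t') * y s' 0 t' * y s u t) =
        e ^ (r + 1) * ℓ ^ (m + (i - f - b t')) * y s' 0 t' * y s u t := by ring
    rw [smul_mul_assoc, mul_smul_comm, map_smul, smul_eq_mul, h5, h4]
    by_cases hs : s' = s
    · by_cases ht : t' = t
      · subst hs ht
        rw [if_pos ⟨rfl, rfl, h3 h⟩, if_pos rfl, if_pos rfl]
      · rw [if_neg fun h' => ht h'.2.1, if_pos hs, if_neg ht, mul_zero]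
    · rw [if_neg fun h' => hs h'.1, if_neg hs, mul_zero]
  rw [X0, Finset.sum_mul, Finset.mul_sum, map_sum]
  simp only [Finset.sum_mul, Finset.mul_sum, map_sum, key]
  simp

theorem neg_one_pow_congr {p q : ℕ} (h : p % 2 = q % 2) : (-1 : ℝ) ^ p = (-1) ^ q := by
  rw [neg_one_pow_eq_pow_mod_two, h, ← neg_one_pow_eq_pow_mod_two]

theorem sign {p q w : ℕ} (h : (p + q) % 2 = w % 2) (A : ℝ) :
    (-1 : ℝ) ^ p * (A * (-1) ^ q) = A * (-1) ^ w := by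
  rw [← neg_one_pow_congr h, pow_add]; ring


theorem lim_congr {g : ℝ → ℝ} {l : Filter ℝ} {L L' : ℝ} (h : Tendsto g l (𝓝 L)) (h' : L' = L) :
    Tendsto g l (𝓝 L') := h' ▸ h

theorem gam_eq {m N u u' r : ℕ} (h : u + u' + r = m) : gam m N u u' = (N.choose r : ℝ) := by
  rw [gam, if_pos (by omega)]
  congr 2
  omega

theorem part1 (ℓ e α α' : R) (n i : ℕ) :
    Tendsto (fun δ : ℝ => φ (wt (ℓ - δ ^ 2 • e) n i * α * α')) (𝓝[>] 0)
      (𝓝 (φ (wt ℓ n i * α * α'))) := by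
  have h := lim1 (φ := φ) ℓ e α α' n i 0 0 0 (by simp) (fun r hr => absurd hr (Nat.not_lt_zero r))
    (L := φ (wt ℓ n i * α * α')) fun _ => by
      rw [wt, smul_mul_assoc, smul_mul_assoc, map_smul]
      simp [mul_assoc]
  simpa using h

theorem part2 (H0 : Blow0Stmt) (D : BlowData φ 𝒜 V ℓ e n k a b y c) {i : ℕ} {α : R}
    (hα : α ∈ blowM φ V ℓ e k a y i) (s : S) (u : ℕ) (t : T) (v : ℕ) (h : 2 * a s + u + 1 < k) :
    Tendsto (fun δ : ℝ => φ (wt (ℓ - δ ^ 2 • e) n i * α * neD ℓ e k a y δ s u t v)) (𝓝[>] 0)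
      (𝓝 0) := by
  obtain ⟨X, hX, h1⟩ := nfM H0 D hα
  have h2 := lim0 (φ := φ) ℓ e α (e * ℓ ^ v * y s u t) n i 0 (2 * ((a s : ℤ) + u + 1) - k)
    fun r hr => by
      rw [← pair_zero D hX (y_mem t h.le) r (n - 2 * i - r + v) (by omega), ← repl h1]
      congr 1
      ring
  simpa [neD] using h2

omit [Fintype S] [Fintype T] in
theorem part3 (D : BlowData φ 𝒜 V ℓ e n k a b y c) {i : ℕ} (hi : 2 * i ≤ n) (s : S) (u : ℕ)
    (t : T) (v : ℕ) (s' : S) (u' : ℕ) (t' : T) (v' : ℕ) (h : 2 * a s + u + 1 < k)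
    (h' : 2 * a s' + u' + 1 < k) (hd : a s + u + b t + v + 1 = i)
    (hd' : a s' + u' + b t' + v' + 1 = i) :
    Tendsto (fun δ : ℝ => φ (wt (ℓ - δ ^ 2 • e) n i * neD ℓ e k a y δ s u t v *
      neD ℓ e k a y δ s' u' t' v')) (𝓝[>] 0) (𝓝 (if s = s' ∧ t = t' then
        c * (-1) ^ (u + v) * gam (k - 2 - 2 * a s) (n - 2 * i) u u' else 0)) := by
  have key : ∀ r, e ^ r * ℓ ^ (n - 2 * i - r) * (e * ℓ ^ v * y s u t * (e * ℓ ^ v' * y s' u' t')) =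
      e ^ (r + 1 + 1) * ℓ ^ (n - 2 * i - r + v + v') * y s u t * y s' u' t' := fun r => by ring
  by_cases hk : a s + u + a s' + u' + 2 ≤ k
  · obtain ⟨r₀, hr₀⟩ := Nat.exists_eq_add_of_le hk
    have h2 := lim1 (φ := φ) ℓ e (e * ℓ ^ v * y s u t) (e * ℓ ^ v' * y s' u' t') n i
      (2 * ((a s : ℤ) + u + 1) - k) (2 * ((a s' : ℤ) + u' + 1) - k) r₀ (by omega)
      (fun r hr => by rw [key, D.A1lt _ _ _ _ _ _ _ _ h.le h'.le (by omega)])
      (L := if s = s' ∧ t = t' then c * (-1) ^ (u + v) else 0) fun hr => by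
        rw [key, D.A1eq _ _ _ _ _ _ _ _ h.le h'.le (by omega)]
        by_cases hst : s = s' ∧ t = t'
        · obtain ⟨rfl, rfl⟩ := hst
          rw [if_pos ⟨rfl, rfl, by omega⟩, if_pos ⟨rfl, rfl⟩]
          exact sign (by omega) c
        · rw [if_neg fun h0 => hst ⟨h0.1, h0.2.1⟩, if_neg hst, mul_zero]
    refine lim_congr h2 ?_
    split_ifs with hst
    · obtain ⟨rfl, rfl⟩ := hst
      rw [gam_eq (r := r₀) (by omega)]
    · rw [zero_mul]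
  · have h2 := lim0 (φ := φ) ℓ e (e * ℓ ^ v * y s u t) (e * ℓ ^ v' * y s' u' t') n i
      (2 * ((a s : ℤ) + u + 1) - k) (2 * ((a s' : ℤ) + u' + 1) - k) fun r hr => by omega
    refine lim_congr h2 ?_
    split_ifs with hst
    · obtain ⟨rfl, rfl⟩ := hst
      rw [gam, if_neg (by omega), mul_zero]
    · rfl

section last

variable (D : BlowData φ 𝒜 V ℓ e n k a b y c) {i : ℕ} (hi : 2 * i ≤ n) {x X : R}
  (hx : ℓ ^ (n - 2 * i) * x ∈ ann φ) {f : ℕ} {κ : S → T → ℝ}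
  (hκ : ∀ s t, κ s t ≠ 0 → a s = f ∧ f + b t ≤ i ∧ i + k + b t ≤ n + f)
  (hX : X ∈ H ℓ k a y f) (hxX : e * x - e * (X0 ℓ b y i f κ + X) ∈ ann φ)

include D hκ hX in
theorem sum_mem_H : X0 ℓ b y i f κ + X ∈ H ℓ k a y (f + 1) :=
  add_mem (X0_mem D fun s t h => (hκ s t h).1) (H_mono (Nat.le_succ f) hX)

include D hi hx hκ hX hxX in
theorem part4 (s : S) (t : T) (h : κ s t ≠ 0) : i + f + 1 ≤ k + b t := by
  by_contra hc
  obtain ⟨h1, h2, h3⟩ := hκ s t h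
  have h4 := D.ha s
  obtain ⟨u, hu⟩ := Nat.exists_eq_add_of_le h4
  obtain ⟨v, hv⟩ := Nat.exists_eq_add_of_le (show k + b t ≤ i + f by omega)
  have h5 : φ (e ^ (0 + 1) * ℓ ^ (n - 2 * i + v) * (x * y s u t)) = 0 := by
    rw [← hx (e * ℓ ^ v * y s u t)]
    congr 1
    ring
  rw [repl hxX, add_mul, mul_add, map_add,
    pair_zero D hX (y_mem t (by omega)) _ _ (by omega), add_zero,
    X0_y D (fun s t h => (hκ s t h).1) s u t _ _ (by omega) (by omega) fun _ => by omega] at h5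
  exact mul_ne_zero h (mul_ne_zero D.hc.ne' (pow_ne_zero _ (by norm_num))) h5

include hx in
theorem zero_term (Y : R) : φ (e ^ 0 * ℓ ^ (n - 2 * i - 0) * (x * Y)) = 0 := by
  rw [pow_zero, one_mul, Nat.sub_zero, ← mul_assoc]
  exact hx Y

include D hi hx hκ hX hxX in
theorem part5 (hf : 2 * f + 1 ≤ k) :
    Tendsto (fun δ : ℝ => φ (wt (ℓ - δ ^ 2 • e) n i * (δ ^ (2 * (f : ℤ) - k) • x) *
      (δ ^ (2 * (f : ℤ) - k) • x))) (𝓝[>] 0) (𝓝 (∑ s, ∑ t, κ s t ^ 2 * c *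
        (-1) ^ (i - f - b t + 1) * gam (k - 2 * f) (n - 2 * i) 0 0)) := by
  obtain ⟨r₀, hr₀⟩ := Nat.exists_eq_add_of_le hf
  have hκ1 : ∀ s t, κ s t ≠ 0 → a s = f := fun s t h => (hκ s t h).1
  have hm := sum_mem_H D hκ hX
  have h2 := lim1 (φ := φ) ℓ e x x n i (2 * (f : ℤ) - k) (2 * (f : ℤ) - k) (r₀ + 1)
    (by push_cast; omega)
    (fun r hr => by
      rcases r with _ | r
      · exact zero_term hx x
      · rw [repl hxX, repl' hxX, pair_zero D hm hm _ _ (by omega)])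
    (L := ∑ s, ∑ t, κ s t ^ 2 * c * (-1) ^ (i - f - b t + 1)) fun hr => by
      rw [repl hxX, repl' hxX, add_mul, mul_add, map_add, pair_zero D hX hm _ _ (by omega),
        add_zero, mul_add, mul_add, map_add,
        pair_zero D (X0_mem D hκ1) hX _ _ (by omega), add_zero]
      nth_rewrite 2 [X0]
      simp only [Finset.mul_sum, map_sum]
      refine Finset.sum_congr rfl fun s _ => Finset.sum_congr rfl fun t _ => ?_
      by_cases h : κ s t = 0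
      · simp [h]
      obtain ⟨h1, h2, h3⟩ := hκ s t h
      have h5 : e ^ (r₀ + 1) * ℓ ^ (n - 2 * i - (r₀ + 1)) *
          (X0 ℓ b y i f κ * (ℓ ^ (i - f - b t) * y s 0 t)) =
          e ^ (r₀ + 1) * ℓ ^ (n - 2 * i - (r₀ + 1) + (i - f - b t)) *
            (X0 ℓ b y i f κ * y s 0 t) := by ring
      rw [mul_smul_comm, mul_smul_comm, map_smul, smul_eq_mul, h5,
        X0_y D hκ1 s 0 t _ _ (D.ha s) (by omega) fun _ => by omega,
        ← sign (p := i + (r₀ + 1)) (q := r₀ + a s + b t) (w := i - f - b t + 1) (by omega)]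
      ring
  refine lim_congr h2 ?_
  rw [gam_eq (r := r₀ + 1) (by omega)]
  simp only [Finset.sum_mul]

include D hx hκ hX hxX in
theorem part6 (H0 : Blow0Stmt) {α : R} (hα : α ∈ blowM φ V ℓ e k a y i) :
    Tendsto (fun δ : ℝ => φ (wt (ℓ - δ ^ 2 • e) n i * (δ ^ (2 * (f : ℤ) - k) • x) * α))
      (𝓝[>] 0) (𝓝 0) := by
  obtain ⟨Y, hY, h1⟩ := nfM H0 D hα
  have h2 := lim0 (φ := φ) ℓ e x α n i (2 * (f : ℤ) - k) 0 fun r hr => by
    rcases r with _ | r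
    · exact zero_term hx α
    · rw [repl hxX, repl' h1, pair_zero D (sum_mem_H D hκ hX) hY _ _ (by omega)]
  simpa using h2

include D hi hκ hX hxX in
theorem part7 (s : S) (u : ℕ) (t : T) (v : ℕ) (h : 2 * a s + u + 1 < k)
    (hd : a s + u + b t + v + 1 = i) :
    Tendsto (fun δ : ℝ => φ (wt (ℓ - δ ^ 2 • e) n i * (δ ^ (2 * (f : ℤ) - k) • x) *
      neD ℓ e k a y δ s u t v)) (𝓝[>] 0)
      (𝓝 (κ s t * c * (-1) ^ (u + v + 1) * gam (k - 2 * a s) (n - 2 * i) 0 (u + 1))) := by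
  have hκ1 : ∀ s t, κ s t ≠ 0 → a s = f := fun s t h => (hκ s t h).1
  have key : ∀ r, e ^ r * ℓ ^ (n - 2 * i - r) * (x * (e * ℓ ^ v * y s u t)) =
      e ^ (r + 1) * ℓ ^ (n - 2 * i - r + v) * (x * y s u t) := fun r => by ring
  by_cases hk : f + a s + u + 1 ≤ k
  · obtain ⟨r₀, hr₀⟩ := Nat.exists_eq_add_of_le hk
    have h2 := lim1 (φ := φ) ℓ e x (e * ℓ ^ v * y s u t) n i (2 * (f : ℤ) - k)
      (2 * ((a s : ℤ) + u + 1) - k) r₀ (by omega)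
      (fun r hr => by
        rw [key, repl hxX, pair_zero D (sum_mem_H D hκ hX) (y_mem t h.le) _ _ (by omega)])
      (L := κ s t * c * (-1) ^ (u + v + 1)) fun hr => by
        rw [key, repl hxX, add_mul, mul_add, map_add,
          pair_zero D hX (y_mem t h.le) _ _ (by omega), add_zero,
          X0_y D hκ1 s u t _ _ h.le (by omega) fun h0 => by have := hκ s t h0; omega,
          ← sign (p := i + r₀) (q := r₀ + a s + b t) (w := u + v + 1) (by omega)]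
        ring
    refine lim_congr h2 ?_
    by_cases h0 : κ s t = 0
    · simp [h0]
    · rw [gam_eq (r := r₀) (by have := hκ1 s t h0; omega)]
  · have h2 := lim0 (φ := φ) ℓ e x (e * ℓ ^ v * y s u t) n i (2 * (f : ℤ) - k)
      (2 * ((a s : ℤ) + u + 1) - k) fun r hr => by omega
    have h0 : κ s t = 0 := by
      by_contra h0
      have := hκ1 s t h0
      omega
    refine lim_congr h2 ?_
    simp [h0]

end last

end BlowGramP

open BlowGramP in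
theorem blowGram (H0 : Blow0Stmt) : BlowGramStmt := by
  intro R _ _ φ 𝒜 V ℓ e n k S T _ _ _ _ a b y c D i hi
  refine ⟨fun α α' => part1 ℓ e α α' n i, fun α hα s u t v h => part2 H0 D hα s u t v h,
    fun s u t v s' u' t' v' h h' hd hd' => part3 D hi s u t v s' u' t' v' h h' hd hd', ?_⟩
  rintro x - hx f κ ⟨s, t, hst⟩ hκ h
  obtain ⟨X, hX, hxX⟩ := nf h
  have hf : 2 * f + 1 ≤ k := (hκ s t hst).1 ▸ D.ha s
  exact ⟨part4 D hi hx hκ hX hxX, part5 D hi hx hκ hX hxX hf,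
    fun α hα => part6 D hx hκ hX hxX H0 hα, part7 D hi hκ hX hxX⟩

end Pool.Agent.P.MP_cedf91_co
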