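import Pool.Agent.P.MP_cedf91_co.KDefs

/-! Signature of the limit Gram matrices of a blow-up. -/

set_option linter.unusedSectionVars false

namespace Pool.Agent.P.MP_cedf91_co

open Submodule Filter Topology Finset

namespace BlowLimP

variable {R : Type} [CommRing R] [Algebra ℝ R] {φ : R →ₗ[ℝ] ℝ}

/-- limit of a Gram entry -/
def Lm (φ : R →ₗ[ℝ] ℝ) (w p q : ℝ → R) (L : ℝ) : Prop :=
  Tendsto (fun δ => φ (w δ * p δ * q δ)) (𝓝[>] 0) (𝓝 L)

variable {w p q : ℝ → R} {L : ℝ}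

theorem Lm.symm (h : Lm φ w p q L) : Lm φ w q p L := by
  unfold Lm at h ⊢
  simpa only [mul_right_comm (w _) (p _)] using h

theorem Lm.eq (h : Lm φ w p q L) {L' : ℝ} (e : L = L') : Lm φ w p q L' := e ▸ h

theorem Lm.sum {ι : Type} (s : Finset ι) (z : ι → ℝ) {p : ι → ℝ → R} {L : ι → ℝ}
    (h : ∀ u ∈ s, Lm φ w (p u) q (L u)) :
    Lm φ w (fun δ => ∑ u ∈ s, z u • p u δ) q (∑ u ∈ s, z u * L u) := by
  unfold Lm
  simp only [Finset.mul_sum, Finset.sum_mul, map_sum, mul_smul_comm, smul_mul_assoc, map_smul,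
    smul_eq_mul]
  exact tendsto_finsetSum _ fun u hu => (h u hu).const_mul _

theorem Lm.sub {p' : ℝ → R} {L' : ℝ} (h : Lm φ w p q L) (h' : Lm φ w p' q L') :
    Lm φ w (fun δ => p δ - p' δ) q (L - L') := by
  unfold Lm
  simp only [mul_sub, sub_mul, map_sub]
  exact Tendsto.sub h h'

theorem Lm.smul (h : Lm φ w p q L) (ε : ℝ) : Lm φ (fun δ => ε • w δ) p q (ε * L) := by
  unfold Lm
  simp only [smul_mul_assoc, map_smul, smul_eq_mul]
  exact h.const_mul _

theorem pos_core (H : LinLib) {U M : Submodule ℝ R} (hM : M ≤ U) {w0 : R}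
    (hw : ∀ α α', Lm φ w (fun _ => α) (fun _ => α') (φ (w0 * α * α')))
    {J : Type} [Fintype J] [DecidableEq J] (β : J → ℝ → R) (hβ : ∀ q δ, β q δ ∈ U)
    (h0 : ∀ α ∈ M, ∀ q, Lm φ w (β q) (fun _ => α) 0) (D : J → ℝ) (hD : ∀ q, 0 < D q)
    (h1 : ∀ q q', Lm φ w (β q) (β q') (if q = q' then D q else 0)) {r : ℕ}
    (hr : PosGe φ w0 M r) : ∀ᶠ δ in 𝓝[>] (0 : ℝ), PosGe φ (w δ) U (r + Fintype.card J) := by
  obtain ⟨α, hα, hpos⟩ := hr
  have h := H.openPos (φ := φ) (U := U) (I := Fin r ⊕ J) (𝓝[>] 0) w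
    (fun δ => Sum.elim α fun q => β q δ)
    (Sum.elim (fun i => Sum.elim (fun j => φ (w0 * α i * α j)) fun _ => 0)
      fun q => Sum.elim (fun _ => 0) fun q' => if q = q' then D q else 0)
    (by
      rintro δ (i | q)
      · exact hM (hα i)
      · exact hβ q δ)
    (by
      rintro (i | q) (j | q')
      · exact hw _ _
      · exact (h0 _ (hα i) q').symm
      · exact h0 _ (hα j) q
      · exact h1 q q')
    (fun c hc => by
      have e1 : ∑ i, ∑ j, c (Sum.inl i) * c (Sum.inl j) * φ (w0 * α i * α j) =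
          φ (w0 * (∑ i, c (Sum.inl i) • α i) ^ 2) := by
        simp only [sq, Finset.mul_sum, Finset.sum_mul, map_sum, mul_smul_comm, smul_mul_assoc,
          map_smul, smul_eq_mul]
        refine Finset.sum_congr rfl fun i _ => Finset.sum_congr rfl fun j _ => ?_
        rw [mul_assoc w0, mul_comm (α i)]
        ring
      have e2 : 0 ≤ φ (w0 * (∑ i, c (Sum.inl i) • α i) ^ 2) := by
        by_cases h : (fun i => c (Sum.inl i)) = 0
        · simp [congrFun h]
        · exact (hpos _ h).le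
      have e3 : ∀ q, 0 ≤ c (Sum.inr q) * c (Sum.inr q) * D q := fun q =>
        mul_nonneg (mul_self_nonneg _) (hD q).le
      simp only [Fintype.sum_sum_type, Sum.elim_inl, Sum.elim_inr, mul_zero, Finset.sum_const_zero,
        add_zero, zero_add, mul_ite, Finset.sum_ite_eq, Finset.mem_univ, if_true, e1]
      obtain ⟨x, hx⟩ := Function.ne_iff.1 hc
      rcases x with i | q
      · exact add_pos_of_pos_of_nonneg (hpos _ (Function.ne_iff.2 ⟨i, hx⟩))
          (Finset.sum_nonneg fun q _ => e3 q)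
      · exact add_pos_of_nonneg_of_pos e2 (Finset.sum_pos' (fun q _ => e3 q)
          ⟨q, Finset.mem_univ _, mul_pos (mul_self_pos.2 hx) (hD q)⟩))
  simpa using h

theorem of_sq {P : ℝ → Prop} (h : ∀ᶠ δ in 𝓝[>] (0 : ℝ), P (δ ^ 2)) :
    ∀ᶠ t in 𝓝[>] (0 : ℝ), P t := by
  have h1 : Tendsto Real.sqrt (𝓝[>] 0) (𝓝[>] 0) := by
    refine tendsto_nhdsWithin_iff.2 ⟨?_, ?_⟩
    · have := Real.continuous_sqrt.tendsto 0
      rw [Real.sqrt_zero] at this
      exact this.mono_left nhdsWithin_le_nhds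
    · filter_upwards [self_mem_nhdsWithin] with t ht using Real.sqrt_pos.2 ht
  filter_upwards [h1.eventually h, self_mem_nhdsWithin] with t ht ht'
  rwa [Real.sq_sqrt (le_of_lt ht')] at ht

theorem gam_comm (m N u u' : ℕ) : gam m N u u' = gam m N u' u := by
  rw [gam, gam, add_comm, Nat.sub_right_comm]

theorem gam_succ (m N u u' : ℕ) : gam (m + 2) N (u + 1) (u' + 1) = gam m N u u' := by
  have h1 : m + 2 - (u + 1) - (u' + 1) = m - u - u' := by omega
  have h2 : u + 1 + (u' + 1) ≤ m + 2 ↔ u + u' ≤ m := by omega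
  simp only [gam, h1, h2]

theorem gam_zero {m N u u' : ℕ} (h : m < u) : gam m N u u' = 0 := if_neg (by omega)

variable {𝒜 V : ℕ → Submodule ℝ R} {ℓ e : R} {n k : ℕ} {S T : Type} [Fintype S] [Fintype T]
  [DecidableEq S] [DecidableEq T] {a : S → ℕ} {b : T → ℕ} {y : S → ℕ → T → R} {c : ℝ}

theorem gen_mem (D : BlowData φ 𝒜 V ℓ e n k a b y c) {s : S} {u : ℕ} (t : T) (v : ℕ)
    (h : 2 * a s + u + 1 ≤ k) : e * ℓ ^ v * y s u t ∈ V (a s + u + b t + v + 1) := by
  induction v with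
  | zero => simpa using D.ey s u t h
  | succ v ih =>
    have h1 : e * ℓ ^ (v + 1) * y s u t = ℓ * (e * ℓ ^ v * y s u t) := by ring
    rw [h1]
    exact D.ℓV _ _ ih

/-- the indices of the diagonal vectors -/
def blk (n k : ℕ) (a : S → ℕ) (b : T → ℕ) (i : ℕ) : Finset (S × T × ℕ) :=
  (univ ×ˢ univ ×ˢ range (n + 1)).filter fun q => a q.1 + b q.2.1 + q.2.2 + 1 ≤ i ∧
    2 * a q.1 + q.2.2 + 2 ≤ k ∧ q.2.2 + k + 2 * b q.2.1 ≤ n

theorem mem_blk {i : ℕ} {q : S × T × ℕ} : q ∈ blk n k a b i ↔ a q.1 + b q.2.1 + q.2.2 + 1 ≤ i ∧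
    2 * a q.1 + q.2.2 + 2 ≤ k ∧ q.2.2 + k + 2 * b q.2.1 ≤ n := by
  simp only [blk, mem_filter, mem_product, mem_univ, true_and, mem_range, and_iff_right_iff_imp]
  omega

/-- the indices with positive sign -/
def blkP (n k : ℕ) (a : S → ℕ) (b : T → ℕ) (i : ℕ) : Finset (S × T × ℕ) :=
  (blk n k a b i).filter fun q => Even (i + 1 + a q.1 + b q.2.1 + q.2.2)

/-- the indices with negative sign -/
def blkN (n k : ℕ) (a : S → ℕ) (b : T → ℕ) (i : ℕ) : Finset (S × T × ℕ) :=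
  (blk n k a b i).filter fun q => ¬Even (i + 1 + a q.1 + b q.2.1 + q.2.2)

theorem blkN_zero : blkN n k a b 0 = ∅ := by
  ext q
  simp [blkN, mem_blk]

theorem blkN_succ (i : ℕ) : blkN n k a b (i + 1) = blkP n k a b i := by
  ext q
  simp only [blkN, blkP, mem_filter, mem_blk, Nat.even_iff]
  omega

theorem spanLe (H : LinLib) {M : Submodule ℝ R} {i : ℕ}
    (hV : V i ≤ M ⊔ span ℝ {x | ∃ s u t v, 2 * a s + u + 1 < k ∧
      v + k + 2 * b t ≤ n ∧ a s + u + b t + v + 1 = i ∧ x = e * ℓ ^ v * y s u t} ⊔ ann φ)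
    {r : ℕ} (hr : SpanLe φ M r) :
    SpanLe φ (V i) (r + (blkP n k a b i).card + (blkN n k a b i).card) := by
  obtain ⟨f, hf⟩ := hr
  let o : S → T → ℕ := fun s t => i - 1 - a s - b t - (n - k - 2 * b t)
  let g : blk n k a b i → R := fun q => e * ℓ ^ (i - 1 - a q.1.1 - b q.1.2.1 -
    (q.1.2.2 + o q.1.1 q.1.2.1)) * y q.1.1 (q.1.2.2 + o q.1.1 q.1.2.1) q.1.2.1
  have h := H.spanOf (φ := φ) (U := V i) (Sum.elim f g) (hV.trans (sup_le (sup_le
    (hf.trans (sup_le_sup_right (span_mono (by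
      rintro _ ⟨j, rfl⟩
      exact ⟨Sum.inl j, rfl⟩)) _)) (le_sup_of_le_left (span_mono ?_))) le_sup_right))
  · rwa [Fintype.card_sum, Fintype.card_fin, Fintype.card_coe,
      ← Finset.card_filter_add_card_filter_not
        (fun q => Even (i + 1 + a q.1 + b q.2.1 + q.2.2)), ← add_assoc] at h
  · rintro _ ⟨s, u, t, v, h1, h2, h3, rfl⟩
    have ho : o s t = i - 1 - a s - b t - (n - k - 2 * b t) := rfl
    refine ⟨Sum.inr ⟨(s, t, u - o s t), mem_blk.2 ⟨?_, ?_, ?_⟩⟩, ?_⟩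
    · dsimp only
      omega
    · dsimp only
      omega
    · dsimp only
      omega
    · have e1 : u - o s t + o s t = u := by omega
      have e2 : i - 1 - a s - b t - u = v := by omega
      simp only [Sum.elim_inr, g, e1, e2]

/-- a combination of the generators of one block -/
noncomputable def comb (ℓ e : R) (k : ℕ) (a : S → ℕ) (y : S → ℕ → T → R) (s : S) (t : T) (j : ℕ)
    (z : ℕ → ℝ) (δ : ℝ) : R :=
  ∑ u ∈ (range (j + 1)).filter fun u => 2 * a s + u + 1 < k, z u • neD ℓ e k a y δ s u t (j - u)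

theorem comb_mem (D : BlowData φ 𝒜 V ℓ e n k a b y c) {s : S} {t : T} {i j : ℕ}
    (h : a s + b t + j + 1 = i) (z : ℕ → ℝ) (δ : ℝ) : comb ℓ e k a y s t j z δ ∈ V i := by
  refine sum_mem fun u hu => smul_mem _ _ (smul_mem _ _ ?_)
  rw [mem_filter, mem_range] at hu
  have h1 := gen_mem D t (j - u) hu.2.le
  rwa [show a s + u + b t + (j - u) + 1 = i by omega] at h1

theorem comb_lim {s : S} {t : T} {j : ℕ} (z : ℕ → ℝ) {L : ℕ → ℝ}
    (h : ∀ u, u ≤ j → 2 * a s + u + 1 < k →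
      Lm φ w (fun δ => neD ℓ e k a y δ s u t (j - u)) q (L u))
    (h0 : ∀ u, u ≤ j → ¬2 * a s + u + 1 < k → L u = 0) :
    Lm φ w (comb ℓ e k a y s t j z) q (∑ u ∈ range (j + 1), z u * L u) := by
  refine (Lm.sum _ z fun u hu => h u ?_ (mem_filter.1 hu).2).eq (sum_filter_of_ne fun u hu hne => ?_)
  · exact Nat.lt_succ_iff.1 (mem_range.1 (mem_filter.1 hu).1)
  · by_contra hh
    exact hne (by rw [h0 u (Nat.lt_succ_iff.1 (mem_range.1 hu)) hh, mul_zero])

theorem comb_zero {s : S} {t : T} {j : ℕ} (z : ℕ → ℝ)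
    (h : ∀ u, u ≤ j → 2 * a s + u + 1 < k →
      Lm φ w (fun δ => neD ℓ e k a y δ s u t (j - u)) q 0) :
    Lm φ w (comb ℓ e k a y s t j z) q 0 :=
  (comb_lim z (L := fun _ => 0) h fun _ _ _ => rfl).eq (by simp)

/-- the Gram limits of the generators -/
def G3 (φ : R →ₗ[ℝ] ℝ) (w : ℝ → R) (ℓ e : R) (n k : ℕ) (a : S → ℕ) (b : T → ℕ)
    (y : S → ℕ → T → R) (c : ℝ) (i : ℕ) : Prop :=
  ∀ s u t v s' u' t' v', 2 * a s + u + 1 < k → 2 * a s' + u' + 1 < k →
    a s + u + b t + v + 1 = i → a s' + u' + b t' + v' + 1 = i →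
    Lm φ w (fun δ => neD ℓ e k a y δ s u t v) (fun δ => neD ℓ e k a y δ s' u' t' v')
      (if s = s' ∧ t = t' then c * (-1) ^ (u + v) * gam (k - 2 - 2 * a s) (n - 2 * i) u u' else 0)

theorem comb_gen {i : ℕ} (h3 : G3 φ w ℓ e n k a b y c i) {s s' : S} {t t' : T} {j u' v' : ℕ}
    (hj : a s + b t + j + 1 = i) (hs : 2 * a s + 2 ≤ k) (hu : 2 * a s' + u' + 1 < k)
    (hv : a s' + u' + b t' + v' + 1 = i) (z : ℕ → ℝ) :
    Lm φ w (comb ℓ e k a y s t j z) (fun δ => neD ℓ e k a y δ s' u' t' v')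
      (if s = s' ∧ t = t' then c * (-1) ^ j *
        ∑ u ∈ range (j + 1), z u * gam (k - 2 - 2 * a s) (n - 2 * i) u u' else 0) := by
  refine (comb_lim z (L := fun u => if s = s' ∧ t = t' then
    c * (-1) ^ j * gam (k - 2 - 2 * a s) (n - 2 * i) u u' else 0) (fun u h1 h2 => ?_)
    fun u _ h2 => ?_).eq ?_
  · have h := h3 s u t (j - u) s' u' t' v' h2 hu (by omega) hv
    rwa [show u + (j - u) = j by omega] at h
  · rw [gam_zero (by omega), mul_zero, ite_self]
  · split_ifs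
    · rw [Finset.mul_sum]
      exact Finset.sum_congr rfl fun u _ => by ring
    · simp

theorem comb_comb {i : ℕ} (h3 : G3 φ w ℓ e n k a b y c i) {s s' : S} {t t' : T} {j j' : ℕ}
    (hj : a s + b t + j + 1 = i) (hs : 2 * a s + 2 ≤ k) (hj' : a s' + b t' + j' + 1 = i)
    (hs' : 2 * a s' + 2 ≤ k) (z z' : ℕ → ℝ) :
    Lm φ w (comb ℓ e k a y s t j z) (comb ℓ e k a y s' t' j' z')
      (if s = s' ∧ t = t' then c * (-1) ^ j * ∑ u ∈ range (j + 1), ∑ u' ∈ range (j + 1),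
        z u * z' u' * gam (k - 2 - 2 * a s) (n - 2 * i) u u' else 0) := by
  refine (comb_lim z' (L := fun u' => if s = s' ∧ t = t' then c * (-1) ^ j *
    ∑ u ∈ range (j + 1), z u * gam (k - 2 - 2 * a s) (n - 2 * i) u u' else 0)
    (fun u' h1 h2 => (comb_gen h3 hj hs h2 (by omega) z).symm) fun u' _ h2 => ?_).symm.eq ?_
  · split_ifs with h
    · obtain ⟨rfl, rfl⟩ := h
      rw [Finset.sum_eq_zero, mul_zero]
      intro u _
      rw [gam_comm, gam_zero (by omega), mul_zero]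
    · rfl
  · split_ifs with h
    · obtain ⟨rfl, rfl⟩ := h
      obtain rfl : j = j' := by omega
      rw [Finset.sum_comm, Finset.mul_sum]
      refine Finset.sum_congr rfl fun u' _ => ?_
      simp only [Finset.mul_sum]
      exact Finset.sum_congr rfl fun u _ => by ring
    · simp

/-- the diagonal vectors -/
theorem exists_diag (HM : ModelLib) (hc : 0 < c) {i : ℕ} (hi : 2 * i ≤ n)
    (h3 : G3 φ w ℓ e n k a b y c i) : ∃ (z : S × T × ℕ → ℕ → ℝ) (D : S × T × ℕ → ℝ),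
    (∀ q ∈ blk n k a b i, 0 < (-1) ^ (i + 1 + a q.1 + b q.2.1 + q.2.2) * D q) ∧
    ∀ q ∈ blk n k a b i, ∀ q' ∈ blk n k a b i,
      Lm φ w (comb ℓ e k a y q.1 q.2.1 (i - 1 - a q.1 - b q.2.1) (z q))
        (comb ℓ e k a y q'.1 q'.2.1 (i - 1 - a q'.1 - b q'.2.1) (z q'))
        (if q = q' then D q else 0) := by
  choose! cf h1 h2 using HM.diag
  let z : S × T × ℕ → ℕ → ℝ := fun q =>
    cf (k - 2 - 2 * a q.1) (n - k - 2 * b q.2.1) (i - 1 - a q.1 - b q.2.1) q.2.2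
  refine ⟨z, fun q => c * (-1) ^ (i - 1 - a q.1 - b q.2.1) *
    ∑ u ∈ range (i - 1 - a q.1 - b q.2.1 + 1), ∑ u' ∈ range (i - 1 - a q.1 - b q.2.1 + 1),
      z q u * z q u' * gam (k - 2 - 2 * a q.1) (n - 2 * i) u u', ?_, ?_⟩
  · rintro ⟨s, t, x⟩ hq
    rw [mem_blk] at hq
    dsimp only at hq ⊢
    have h := h2 (k - 2 - 2 * a s) (n - k - 2 * b t) (i - 1 - a s - b t) (by omega) x (by omega)
      (by omega) (by omega)
    rw [show k - 2 - 2 * a s + (n - k - 2 * b t) - 2 * (i - 1 - a s - b t) = n - 2 * i by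
      omega] at h
    have e1 : ((-1 : ℝ)) ^ (i + 1 + a s + b t + x) * (-1) ^ (i - 1 - a s - b t) = (-1) ^ x := by
      rw [← pow_add, show i + 1 + a s + b t + x + (i - 1 - a s - b t) = 2 * i + x by omega,
        pow_add, pow_mul]
      simp
    have h' := mul_pos hc h
    rw [← e1] at h'
    refine h'.trans_eq ?_
    simp only [z]
    ring
  · rintro ⟨s, t, x⟩ hq ⟨s', t', x'⟩ hq'
    rw [mem_blk] at hq hq'
    dsimp only at hq hq' ⊢
    refine (comb_comb h3 (by omega) (by omega) (by omega) (by omega) _ _).eq ?_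
    by_cases h : s = s' ∧ t = t'
    · obtain ⟨rfl, rfl⟩ := h
      by_cases hx : x = x'
      · subst hx
        simp
      · have h := h1 (k - 2 - 2 * a s) (n - k - 2 * b t) (i - 1 - a s - b t) (by omega) x x'
          (by omega) (by omega) (by omega) (by omega) (by omega) (by omega) hx
        rw [show k - 2 - 2 * a s + (n - k - 2 * b t) - 2 * (i - 1 - a s - b t) = n - 2 * i by
          omega] at h
        rw [if_pos ⟨rfl, rfl⟩, if_neg (by simp [hx])]
        exact mul_eq_zero_of_right _ h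
    · rw [if_neg h, if_neg (by simp only [Prod.mk.injEq]; tauto)]

/-- the extra vector -/
theorem exists_extra (HM : ModelLib) (D : BlowData φ 𝒜 V ℓ e n k a b y c) {i : ℕ}
    (h3 : G3 φ w ℓ e n k a b y c i) {M : Submodule ℝ R}
    (h2 : ∀ α ∈ M, ∀ s u t v, 2 * a s + u + 1 < k →
      Lm φ w (fun _ => α) (fun δ => neD ℓ e k a y δ s u t v) 0)
    {x : ℝ → R} (hx : ∀ δ, x δ ∈ V i) {f : ℕ} {κ : S → T → ℝ} (hκ : ∃ s t, κ s t ≠ 0)
    (hκ1 : ∀ s t, κ s t ≠ 0 → a s = f ∧ f + b t ≤ i ∧ i + k + b t ≤ n + f)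
    (hκ2 : ∀ s t, κ s t ≠ 0 → i + f + 1 ≤ k + b t)
    (xx : Lm φ w x x (∑ s, ∑ t, κ s t ^ 2 * c *
      (-1) ^ (i - f - b t + 1) * gam (k - 2 * f) (n - 2 * i) 0 0))
    (xα : ∀ α ∈ M, Lm φ w x (fun _ => α) 0)
    (xg : ∀ s u t v, 2 * a s + u + 1 < k → a s + u + b t + v + 1 = i →
      Lm φ w x (fun δ => neD ℓ e k a y δ s u t v)
        (κ s t * c * (-1) ^ (u + v + 1) * gam (k - 2 * a s) (n - 2 * i) 0 (u + 1))) :
    ∃ (X : ℝ → R) (E : ℝ), (∀ δ, X δ ∈ V i) ∧ E < 0 ∧ Lm φ w X X E ∧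
      (∀ α ∈ M, Lm φ w X (fun _ => α) 0) ∧
      ∀ s u t v, 2 * a s + u + 1 < k → a s + u + b t + v + 1 = i →
        Lm φ w X (fun δ => neD ℓ e k a y δ s u t v) 0 := by
  classical
  choose! z z0 z1 z2 using HM.schur
  let A : Finset (S × T) := univ.filter fun p => κ p.1 p.2 ≠ 0 ∧ f + b p.2 < i
  have hA : ∀ p ∈ A, κ p.1 p.2 ≠ 0 ∧ a p.1 = f ∧ f + b p.2 < i ∧ i + k + b p.2 ≤ n + f ∧
      i + f + 1 ≤ k + b p.2 := fun p hp => by
    obtain ⟨h1, h2⟩ := (mem_filter.1 hp).2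
    exact ⟨h1, (hκ1 _ _ h1).1, h2, (hκ1 _ _ h1).2.2, hκ2 _ _ h1⟩
  let Z : T → ℕ → ℝ := fun t => z (k - 1 - 2 * f) (n - k - 2 * b t) (i - f - b t)
  have hZ : ∀ s t, κ s t ≠ 0 → Z t 0 = 1 ∧ (∀ u', 1 ≤ u' → u' ≤ i - f - b t →
      ∑ u ∈ range (i - f - b t + 1), Z t u * gam (k - 2 * f) (n - 2 * i) u u' = 0) ∧
      0 < (-1) ^ (i - f - b t) *
        ∑ u ∈ range (i - f - b t + 1), Z t u * gam (k - 2 * f) (n - 2 * i) u 0 := by
    intro s t h
    obtain ⟨e1, e2, e3⟩ := hκ1 s t h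
    have e4 := hκ2 s t h
    have e5 := D.hb t
    have a1 : i - f - b t ≤ k - 1 - 2 * f := by omega
    have a2 : i - f - b t ≤ n - k - 2 * b t := by omega
    have b1 := z1 _ _ _ a1 a2
    have b2 := z2 _ _ _ a1 a2
    rw [show k - 1 - 2 * f + 1 + (n - k - 2 * b t) - 2 * (i - f - b t) = n - 2 * i by omega,
      show k - 1 - 2 * f + 1 = k - 2 * f by omega] at b1 b2
    exact ⟨z0 _ _ _ a1 a2, b1, b2⟩
  let Y : S × T → ℝ → R := fun p =>
    comb ℓ e k a y p.1 p.2 (i - f - b p.2 - 1) fun u => Z p.2 (u + 1)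
  let X : ℝ → R := fun δ => x δ - ∑ p ∈ A, κ p.1 p.2 • Y p δ
  have hXg : ∀ s u t v, 2 * a s + u + 1 < k → a s + u + b t + v + 1 = i →
      Lm φ w X (fun δ => neD ℓ e k a y δ s u t v) 0 := by
    intro s u' t v hu hv
    refine ((xg s u' t v hu hv).sub (Lm.sum A (fun p => κ p.1 p.2) fun p hp =>
      comb_gen h3 (s := p.1) (t := p.2) (j := i - f - b p.2 - 1) ?_ ?_ hu hv
        fun u => Z p.2 (u + 1))).eq ?_
    · have := hA p hp
      omega
    · have := hA p hp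
      omega
    by_cases h : κ s t = 0
    · rw [Finset.sum_eq_zero, h]
      · simp
      · intro p _
        split_ifs with h'
        · rw [h'.1, h'.2, h, zero_mul]
        · exact mul_zero _
    · obtain ⟨e1, -, -⟩ := hκ1 s t h
      obtain ⟨c0, c1, -⟩ := hZ s t h
      have hm : (s, t) ∈ A := mem_filter.2 ⟨mem_univ _, h, by dsimp only; omega⟩
      have c2 := c1 (u' + 1) (by omega) (by omega)
      have e2 : i - f - b t = u' + v + 1 := by omega
      rw [Finset.sum_eq_single_of_mem _ hm fun p _ hp => by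
        rw [if_neg fun h' => hp (Prod.ext h'.1 h'.2), mul_zero]]
      rw [e2, Finset.sum_range_succ', c0, show k - 2 * f = k - 2 - 2 * f + 2 by omega] at c2
      simp only [gam_succ] at c2
      simp only [and_self, if_true, e2, e1, Nat.add_sub_cancel]
      rw [show k - 2 * f = k - 2 - 2 * f + 2 by omega]
      linear_combination (-(κ s t * c * (-1) ^ (u' + v))) * c2
  have hY : ∀ p ∈ A, Lm φ w (Y p) x (κ p.1 p.2 * c * (-1) ^ (i - f - b p.2) *
      ∑ u ∈ range (i - f - b p.2), Z p.2 (u + 1) * gam (k - 2 * f) (n - 2 * i) (u + 1) 0) := by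
    intro p hp
    obtain ⟨-, e1, e2, e3, e4⟩ := hA p hp
    refine (comb_lim _ (L := fun u => κ p.1 p.2 * c * (-1) ^ (i - f - b p.2) *
      gam (k - 2 * f) (n - 2 * i) (u + 1) 0) (fun u h1 h2 => ?_) fun u h1 h2 => ?_).eq ?_
    · have h := (xg p.1 u p.2 (i - f - b p.2 - 1 - u) h2 (by omega)).symm
      rwa [show u + (i - f - b p.2 - 1 - u) + 1 = i - f - b p.2 by omega, e1, gam_comm] at h
    · omega
    · rw [show i - f - b p.2 - 1 + 1 = i - f - b p.2 by omega, Finset.mul_sum]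
      exact Finset.sum_congr rfl fun u _ => by ring
  have hXx := xx.sub (Lm.sum A (fun p => κ p.1 p.2) hY)
  have hXY : ∀ p ∈ A, Lm φ w (Y p) X 0 := fun p hp => comb_zero _ fun u h1 h2 =>
    (hXg p.1 u p.2 _ h2 (by have := hA p hp; omega)).symm
  refine ⟨X, _, fun δ => sub_mem (hx δ) (sum_mem fun p hp => smul_mem _ _
    (comb_mem D (by have := hA p hp; omega) _ δ)), ?_,
    (hXx.symm.sub (Lm.sum A (fun p => κ p.1 p.2) hXY)), fun α hα => ?_, hXg⟩
  · have e1 : ∑ p ∈ A, κ p.1 p.2 * (κ p.1 p.2 * c * (-1) ^ (i - f - b p.2) *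
        ∑ u ∈ range (i - f - b p.2), Z p.2 (u + 1) * gam (k - 2 * f) (n - 2 * i) (u + 1) 0) =
        ∑ p : S × T, κ p.1 p.2 * (κ p.1 p.2 * c * (-1) ^ (i - f - b p.2) *
        ∑ u ∈ range (i - f - b p.2), Z p.2 (u + 1) * gam (k - 2 * f) (n - 2 * i) (u + 1) 0) := by
      refine sum_filter_of_ne fun p _ hne => ⟨left_ne_zero_of_mul hne, ?_⟩
      by_contra hh
      rw [show i - f - b p.2 = 0 by omega] at hne
      simp at hne
    have e2 : ∀ p : S × T, κ p.1 p.2 ≠ 0 → κ p.1 p.2 ^ 2 * c * (-1) ^ (i - f - b p.2 + 1) *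
        gam (k - 2 * f) (n - 2 * i) 0 0 - κ p.1 p.2 * (κ p.1 p.2 * c * (-1) ^ (i - f - b p.2) *
        ∑ u ∈ range (i - f - b p.2), Z p.2 (u + 1) * gam (k - 2 * f) (n - 2 * i) (u + 1) 0)
          < 0 := by
      intro p hp
      obtain ⟨c0, -, c2⟩ := hZ p.1 p.2 hp
      rw [Finset.sum_range_succ', c0] at c2
      have h := mul_pos (mul_pos (sq_pos_of_ne_zero hp) D.hc) c2
      linarith [h, show κ p.1 p.2 ^ 2 * c * (-1) ^ (i - f - b p.2 + 1) *
        gam (k - 2 * f) (n - 2 * i) 0 0 - κ p.1 p.2 * (κ p.1 p.2 * c * (-1) ^ (i - f - b p.2) *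
        ∑ u ∈ range (i - f - b p.2), Z p.2 (u + 1) * gam (k - 2 * f) (n - 2 * i) (u + 1) 0) =
        -(κ p.1 p.2 ^ 2 * c * ((-1) ^ (i - f - b p.2) * (∑ u ∈ range (i - f - b p.2),
          Z p.2 (u + 1) * gam (k - 2 * f) (n - 2 * i) (u + 1) 0 +
          1 * gam (k - 2 * f) (n - 2 * i) 0 0))) by ring]
    rw [e1, ← Fintype.sum_prod_type', ← Finset.sum_sub_distrib]
    simp only [mul_zero, Finset.sum_const_zero, sub_zero]
    obtain ⟨s, t, hst⟩ := hκ
    refine Finset.sum_neg' (fun p _ => ?_) ⟨(s, t), mem_univ _, e2 (s, t) hst⟩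
    by_cases hp : κ p.1 p.2 = 0
    · simp [hp]
    · exact (e2 p hp).le
  · refine ((xα α hα).sub (Lm.sum A (fun p => κ p.1 p.2) (L := fun _ => 0) fun p _ =>
      comb_zero _ fun u _ h => (h2 α hα _ _ _ _ h).symm)).eq (by simp)

end BlowLimP

open BlowLimP

theorem blowLim (H : LinLib) (HM : ModelLib) (H0 : Blow0Stmt) (HG : BlowGramStmt) :
    BlowLimStmt := by
  intro R _ _ φ 𝒜 V ℓ e n k S T _ _ _ _ a b y c D
  obtain ⟨-, -, hV, hN⟩ := H0 D
  refine ⟨fun i => (blkP n k a b i).card, fun i => (blkN n k a b i).card,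
    congrArg card blkN_zero, fun i => congrArg card (blkN_succ i), fun i hi => ?_⟩
  obtain ⟨g1, g2, g3, g4⟩ := HG D i hi
  let w : ℝ → R := fun δ => wt (ℓ - δ ^ 2 • e) n i
  obtain ⟨z, E, hE, hz⟩ := exists_diag (w := w) HM D.hc hi g3
  have hM : blowM φ V ℓ e k a y i ≤ V i := fun x hx => hx.1
  let β : S × T × ℕ → ℝ → R := fun q =>
    comb ℓ e k a y q.1 q.2.1 (i - 1 - a q.1 - b q.2.1) (z q)
  have hβ : ∀ q ∈ blk n k a b i, ∀ δ, β q δ ∈ V i := fun q hq δ =>
    comb_mem D (by have := mem_blk.1 hq; omega) _ δ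
  have hβ0 : ∀ α ∈ blowM φ V ℓ e k a y i, ∀ q, Lm φ w (β q) (fun _ => α) 0 := fun α hα q =>
    comb_zero _ fun u _ h => Lm.symm (g2 α hα _ _ _ _ h)
  have hneg : ∀ α α', Lm φ (fun δ => (-1 : ℝ) • w δ) (fun _ => α) (fun _ => α')
      (φ (-wt ℓ n i * α * α')) := fun α α' =>
    (Lm.smul (w := w) (g1 α α') (-1)).eq (by simp)
  have hEN : ∀ q : blkN n k a b i, 0 < -1 * E q := fun q => by
    have h := hE q (mem_filter.1 q.2).1
    rwa [(Nat.not_even_iff_odd.1 (mem_filter.1 q.2).2).neg_one_pow] at h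
  have hzN : ∀ q q' : blkN n k a b i, Lm φ (fun δ => (-1 : ℝ) • w δ) (β q) (β q')
      (if q = q' then -1 * E q else 0) := fun q q' =>
    ((hz q (mem_filter.1 q.2).1 q' (mem_filter.1 q'.2).1).smul (-1)).eq (by
      simp only [Subtype.ext_iff, mul_ite, mul_zero])
  refine ⟨fun r hr => spanLe H (hV i) hr, fun r hr => of_sq ?_, fun r hr => of_sq ?_,
    fun r hr x hx h1 h2 => of_sq ?_⟩
  · have h := pos_core H hM (w := w) g1 (J := blkP n k a b i) (fun q => β q)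
      (fun q => hβ q (mem_filter.1 q.2).1) (fun α hα q => hβ0 α hα q) (fun q => E q)
      (fun q => by
        have h := hE q (mem_filter.1 q.2).1
        rwa [(mem_filter.1 q.2).2.neg_one_pow, one_mul] at h)
      (fun q q' => (hz q (mem_filter.1 q.2).1 q' (mem_filter.1 q'.2).1).eq (by
        simp only [Subtype.ext_iff])) hr
    rwa [Fintype.card_coe] at h
  · have h := pos_core H hM hneg (J := blkN n k a b i) (fun q => β q)
      (fun q => hβ q (mem_filter.1 q.2).1) (fun α hα q => ((hβ0 α hα q).smul (-1)).eq (by simp))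
      (fun q => -1 * E q) hEN hzN hr
    simpa only [Fintype.card_coe, neg_one_smul] using h
  · obtain ⟨f, κ, k1, k2, k3⟩ := hN i x hx h2
    obtain ⟨k4, k5, k6, k7⟩ := g4 x hx h1 f κ k1 k2 k3
    obtain ⟨X, F, x1, x2, x3, x4, x5⟩ := exists_extra (w := w) HM D g3 g2
      (x := fun δ => δ ^ (2 * (f : ℤ) - k) • x) (fun δ => smul_mem _ _ (hM hx)) k1 k2 k4 k5 k6 k7
    have x6 : ∀ q : blkN n k a b i, Lm φ (fun δ => (-1 : ℝ) • w δ) (β q) X 0 := fun q =>
      (Lm.smul (comb_zero _ fun u h1 h => (x5 _ _ _ _ h (by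
        have := mem_blk.1 (mem_filter.1 q.2).1; omega)).symm) (-1)).eq (by simp)
    have h := pos_core H hM hneg (J := Option (blkN n k a b i))
      (fun o => o.elim X fun q => β q)
      (by
        rintro (_ | q)
        · exact x1
        · exact hβ q (mem_filter.1 q.2).1)
      (by
        rintro α hα (_ | q)
        · exact ((x4 α hα).smul (-1)).eq (by simp)
        · exact ((hβ0 α hα q).smul (-1)).eq (by simp))
      (fun o => o.elim (-1 * F) fun q => -1 * E q)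
      (by
        rintro (_ | q)
        · exact mul_pos_of_neg_of_neg (by norm_num) x2
        · exact hEN q)
      (by
        rintro (_ | q) (_ | q')
        · exact x3.smul (-1)
        · exact (x6 q').symm
        · exact x6 q
        · exact (hzN q q').eq (by simp only [Option.some.injEq, Option.elim_some])) hr
    simpa only [Fintype.card_option, Fintype.card_coe, neg_one_smul, ← add_assoc] using h

end Pool.Agent.P.MP_cedf91_co
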