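import Pool.Agent.P.MP_cedf91_co.KFan

/-! The bundle lemma: the star of a vertex as a bundle. -/

namespace Pool.Agent.P.MP_cedf91_co

open Submodule MvPolynomial

namespace BundleP

variable {ι : Type}

/-- Elements killed by `X e` modulo the annihilator. -/
noncomputable def NN (φ : PR ι →ₗ[ℝ] ℝ) (e : ι) : Submodule ℝ (PR ι) :=
  (ann φ).comap (LinearMap.mulLeft ℝ (X e))

theorem mem_NN {φ : PR ι →ₗ[ℝ] ℝ} {e : ι} {x : PR ι} : x ∈ NN φ e ↔ X e * x ∈ ann φ := Iff.rfl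

theorem NN_mul {φ : PR ι →ₗ[ℝ] ℝ} {e : ι} {x : PR ι} (h : x ∈ NN φ e) (y : PR ι) :
    x * y ∈ NN φ e := by
  rw [mem_NN, ← mul_assoc]
  exact ann_mul_right h y

theorem exists_of_mem_sup {U V : Submodule ℝ (PR ι)} {x : PR ι} (h : x ∈ U ⊔ V) :
    ∃ γ ∈ U, x - γ ∈ V := by
  obtain ⟨γ, hγ, ν, hν, rfl⟩ := Submodule.mem_sup.1 h
  exact ⟨γ, hγ, by simpa using hν⟩

variable {S1 S2 : Finset ι}

theorem mem_Fil {p q j i : ℕ} {α β : PR ι} (hα : α ∈ RS S1 p) (hβ : β ∈ RS S2 q) (hp : p < j)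
    (hi : p + q = i) : α * β ∈ Fil S1 S2 j i :=
  subset_span ⟨p, q, α, hα, β, hβ, hp, hi, rfl⟩

theorem Fil_le {j i : ℕ} {W : Submodule ℝ (PR ι)}
    (h : ∀ p q, ∀ α ∈ RS S1 p, ∀ β ∈ RS S2 q, p < j → p + q = i → α * β ∈ W) :
    Fil S1 S2 j i ≤ W := by
  refine span_le.2 ?_
  rintro _ ⟨p, q, α, hα, β, hβ, hp, hi, rfl⟩
  exact h p q α hα β hβ hp hi

theorem Fil_mul1 {j i : ℕ} {γ x : PR ι} (hγ : γ ∈ Fil S1 S2 j i) (hx : x ∈ RS S1 1) :
    x * γ ∈ Fil S1 S2 (j + 1) (i + 1) := by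
  refine (Fil_le (W := (Fil S1 S2 (j + 1) (i + 1)).comap (LinearMap.mulLeft ℝ x)) ?_) hγ
  intro p q α hα β hβ hp hi
  rw [Submodule.mem_comap, LinearMap.mulLeft_apply, ← mul_assoc]
  exact mem_Fil (mul_mem_RS hx hα) hβ (by omega) (by omega)

theorem Fil_mul2 {j j' i q' : ℕ} {γ y : PR ι} (hγ : γ ∈ Fil S1 S2 j i) (hy : y ∈ RS S2 q')
    (hj : j ≤ j') : γ * y ∈ Fil S1 S2 j' (i + q') := by
  refine (Fil_le (W := (Fil S1 S2 j' (i + q')).comap (LinearMap.mulRight ℝ y)) ?_) hγ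
  intro p q α hα β hβ hp hi
  rw [Submodule.mem_comap, LinearMap.mulRight_apply, mul_assoc]
  exact mem_Fil hα (mul_mem_RS hβ hy) (by omega) (by omega)

/-- A top degree element on which the volume form vanishes is in the annihilator. -/
theorem top_ann {F : Fan ι} {φ : PR ι →ₗ[ℝ] ℝ} (h : F.IsVol φ) {x : PR ι} (hx : x ∈ HS ι F.n)
    (h0 : φ x = 0) : x ∈ ann φ := by
  refine mem_ann_of_HS fun j y hy => ?_
  rcases Nat.eq_zero_or_pos j with rfl | hj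
  · have hy' : y.totalDegree = 0 := (totalDegree_zero_iff_isHomogeneous ι).2 hy
    rw [totalDegree_eq_zero_iff_eq_C.1 hy', mul_comm, C_mul', map_smul, h0, smul_zero]
  · exact h.deg (F.n + j) (by omega) _ (IsHomogeneous.mul hx hy)

theorem sub_ann {F : Fan ι} [DecidableEq ι] {φ : PR ι →ₗ[ℝ] ℝ} (hF : F.Good) (h : F.IsVol φ)
    {σ : Finset ι} (hσ : σ ∈ F.K) {x : PR ι} (hx : x ∈ RS F.S F.n) :
    x - (φ x / φ (xs σ)) • xs σ ∈ RS F.S F.n ∧ x - (φ x / φ (xs σ)) • xs σ ∈ ann φ := by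
  have h1 : xs σ ∈ RS F.S F.n := hF.card σ hσ ▸ xs_mem_RS (hF.sub σ hσ)
  have h2 : x - (φ x / φ (xs σ)) • xs σ ∈ RS F.S F.n := sub_mem hx (smul_mem _ _ h1)
  refine ⟨h2, top_ann h (RS_le_HS _ h2) ?_⟩
  rw [map_sub, map_smul, smul_eq_mul, div_mul_cancel₀ _ (h.pos σ hσ).ne', sub_self]

variable [DecidableEq ι] {F F1 F2 : Fan ι} {e : ι} {b1 b2 : ι → ℝ} {φ φ1 φ2 : PR ι →ₗ[ℝ] ℝ}

theorem xs_insert {τ : Finset ι} (h : e ∉ τ) : xs (insert e τ) = X e * xs τ := by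
  rw [xs, Finset.prod_insert h, xs]

theorem E0 (B : Bundle F F1 F2 e) (h1 : F1.Good) (h2 : F2.Good) (v : F.IsVol φ) {j : ι}
    (hj : j ≠ e) (hj1 : j ∉ F1.S) (hj2 : j ∉ F2.S) : X j ∈ NN φ e := by
  have := v.nonface (insert e {j}) fun σ hσ hs => by
    obtain ⟨σ1, hσ1, σ2, hσ2, rfl⟩ := (B.fac σ).1 ⟨hσ, hs (Finset.mem_insert_self _ _)⟩
    have := hs (Finset.mem_insert_of_mem (Finset.mem_singleton_self j))
    simp only [Finset.mem_insert, Finset.mem_union] at this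
    rcases this with h | h | h
    · exact hj h
    · exact hj1 (h1.sub _ hσ1 h)
    · exact hj2 (h2.sub _ hσ2 h)
  rw [xs_insert (by simpa using hj.symm)] at this
  simpa [xs, mem_NN] using this

theorem lin_rel (B : Bundle F F1 F2 e) (h1 : F1.Good) (h2 : F2.Good) (v : F.IsVol φ) {θ : ι → ℝ}
    (hθ : θ ∈ F.Θ) : θ e • X e + (lin F1.S θ + lin F2.S θ) ∈ NN φ e := by
  have hsub : insert e (F1.S ∪ F2.S) ⊆ F.S :=
    Finset.insert_subset B.he (Finset.union_subset B.s1 B.s2)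
  have hs := Finset.sum_sdiff (f := fun k => θ k • (X k : PR ι)) hsub
  rw [Finset.sum_insert (by simp [B.e1, B.e2]), Finset.sum_union B.disj] at hs
  have a1 : lin F.S θ ∈ NN φ e := ann_mul_left (v.theta θ hθ) _
  have a2 : ∑ k ∈ F.S \ insert e (F1.S ∪ F2.S), θ k • (X k : PR ι) ∈ NN φ e := by
    refine Submodule.sum_mem _ fun k hk => smul_mem _ _ ?_
    simp only [Finset.mem_sdiff, Finset.mem_insert, Finset.mem_union, not_or] at hk
    exact E0 B h1 h2 v hk.2.1 hk.2.2.1 hk.2.2.2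
  have := sub_mem a1 a2
  rw [lin, ← hs, add_sub_cancel_left] at this
  exact this

theorem nonface1 (B : Bundle F F1 F2 e) (h2 : F2.Good) (v : F.IsVol φ) {τ : Finset ι}
    (hτ : τ ⊆ F1.S) (hn : ∀ σ ∈ F1.K, ¬ τ ⊆ σ) : xs τ ∈ NN φ e := by
  rw [mem_NN, ← xs_insert fun h => B.e1 (hτ h)]
  refine v.nonface _ fun σ hσ hs => ?_
  obtain ⟨σ1, hσ1, σ2, hσ2, rfl⟩ := (B.fac σ).1 ⟨hσ, hs (Finset.mem_insert_self _ _)⟩
  refine hn σ1 hσ1 fun k hk => ?_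
  have := hs (Finset.mem_insert_of_mem hk)
  simp only [Finset.mem_insert, Finset.mem_union] at this
  rcases this with h | h | h
  · exact absurd (h ▸ hτ hk) B.e1
  · exact h
  · exact absurd (h2.sub _ hσ2 h) (Finset.disjoint_left.1 B.disj (hτ hk))

theorem nonface2 (B : Bundle F F1 F2 e) (h1 : F1.Good) (v : F.IsVol φ) {τ : Finset ι}
    (hτ : τ ⊆ F2.S) (hn : ∀ σ ∈ F2.K, ¬ τ ⊆ σ) : xs τ ∈ NN φ e := by
  rw [mem_NN, ← xs_insert fun h => B.e2 (hτ h)]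
  refine v.nonface _ fun σ hσ hs => ?_
  obtain ⟨σ1, hσ1, σ2, hσ2, rfl⟩ := (B.fac σ).1 ⟨hσ, hs (Finset.mem_insert_self _ _)⟩
  refine hn σ2 hσ2 fun k hk => ?_
  have := hs (Finset.mem_insert_of_mem hk)
  simp only [Finset.mem_insert, Finset.mem_union] at this
  rcases this with h | h | h
  · exact absurd (h ▸ hτ hk) B.e2
  · exact absurd (hτ hk) (Finset.disjoint_left.1 B.disj (h1.sub _ hσ1 h))
  · exact h

theorem lin_congr {S : Finset ι} {θ θ' : ι → ℝ} (h : ∀ j ∈ S, θ j = θ' j) :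
    lin S θ = lin S θ' :=
  Finset.sum_congr rfl fun j hj => by rw [h j hj]

theorem J2_le (B : Bundle F F1 F2 e) (h1 : F1.Good) (h2 : F2.Good) (v : F.IsVol φ) (q : ℕ) :
    F2.J q ≤ NN φ e := by
  refine sup_le (span_le.2 ?_) (span_le.2 ?_)
  · rintro _ ⟨θ2, hθ2, j, f, -, -, rfl⟩
    obtain ⟨θ, hθ, a0, a1, a2⟩ := B.B1 θ2 hθ2
    have := lin_rel B h1 h2 v hθ
    have z : lin F1.S θ = 0 := Finset.sum_eq_zero fun k hk => by rw [a1 k hk, zero_smul]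
    rw [a0, zero_smul, zero_add, z, zero_add, lin_congr a2] at this
    exact NN_mul this f
  · rintro _ ⟨τ, hτ, hn, j, f, -, -, rfl⟩
    exact NN_mul (nonface2 B h1 v hτ hn) f

theorem J1_le (B : Bundle F F1 F2 e) (h1 : F1.Good) (h2 : F2.Good) (v : F.IsVol φ) (p : ℕ) :
    F1.J p ≤ Fil F1.S F2.S p p ⊔ NN φ e := by
  refine sup_le (span_le.2 ?_) (span_le.2 ?_)
  · rintro _ ⟨θ1, hθ1, j, f, hf, hj, rfl⟩
    obtain ⟨θ, hθ, a0, a1⟩ := B.B2 θ1 hθ1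
    have := lin_rel B h1 h2 v hθ
    rw [a0, zero_smul, zero_add, lin_congr a1] at this
    have e1 : lin F1.S θ1 * f = (lin F1.S θ1 + lin F2.S θ) * f - f * lin F2.S θ := by ring
    rw [SetLike.mem_coe, e1]
    exact sub_mem (mem_sup_right (NN_mul this f))
      (mem_sup_left (mem_Fil hf (lin_mem_RS subset_rfl θ) (by omega) hj))
  · rintro _ ⟨τ, hτ, hn, j, f, -, -, rfl⟩
    exact mem_sup_right (NN_mul (nonface1 B h2 v hτ hn) f)

theorem RS_le (B : Bundle F F1 F2 e) (h1 : F1.Good) (h2 : F2.Good) (h : F.Good) (v : F.IsVol φ)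
    (i : ℕ) : RS F.S i ≤ Fil F1.S F2.S (i + 1) i ⊔ NN φ e := by
  induction i with
  | zero =>
    rw [RS_zero, span_le, Set.singleton_subset_iff, ← mul_one (1 : PR ι)]
    exact mem_sup_left (mem_Fil one_mem_RS one_mem_RS (by omega) rfl)
  | succ i ih =>
    refine RS_succ_le fun k hk f hf => ?_
    obtain ⟨γ, hγ, ν, hν, rfl⟩ := Submodule.mem_sup.1 (ih hf)
    rw [mul_add]
    refine add_mem ?_ (mem_sup_right (mul_comm ν (X k) ▸ NN_mul hν _))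
    have m1 : ∀ x ∈ RS F1.S 1, x * γ ∈ Fil F1.S F2.S (i + 1 + 1) (i + 1) :=
      fun x hx => Fil_mul1 hγ hx
    have m2 : ∀ x ∈ RS F2.S 1, x * γ ∈ Fil F1.S F2.S (i + 1 + 1) (i + 1) :=
      fun x hx => mul_comm γ x ▸ Fil_mul2 hγ hx (by omega)
    by_cases k1 : k ∈ F1.S
    · exact mem_sup_left (m1 _ (X_mem_RS k1))
    by_cases k2 : k ∈ F2.S
    · exact mem_sup_left (m2 _ (X_mem_RS k2))
    by_cases ke : k = e
    · subst ke
      obtain ⟨σ1, hσ1⟩ := h1.ne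
      obtain ⟨σ2, hσ2⟩ := h2.ne
      obtain ⟨hσ, hm⟩ := (B.fac _).2 ⟨σ1, hσ1, σ2, hσ2, rfl⟩
      obtain ⟨θ, hθ, a⟩ := h.surj _ hσ fun _ => 1
      have := lin_rel B h1 h2 v hθ
      rw [a k hm, one_smul] at this
      have e1 : X k * γ = (X k + (lin F1.S θ + lin F2.S θ)) * γ
          - (lin F1.S θ * γ + lin F2.S θ * γ) := by ring
      rw [e1]
      exact sub_mem (mem_sup_right (NN_mul this γ)) (mem_sup_left
        (add_mem (m1 _ (lin_mem_RS subset_rfl θ)) (m2 _ (lin_mem_RS subset_rfl θ))))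
    · exact mem_sup_right (NN_mul (E0 B h1 h2 v ke k1 k2) γ)

end BundleP

open BundleP in
theorem bundle (HJ : FanJLib) : BundleStmt := by
  intro ι _ F F1 F2 e b1 b2 φ φ1 φ2 B h h1 h2 a1 a2 v v1 v2
  have hE3 : ∀ q, ∀ β ∈ RS F2.S q, β ∈ ann φ2 → β ∈ NN φ e := fun q β hβ hb =>
    J2_le B h1 h2 v q (HJ.memJ h2 a2 v2 q β hβ hb)
  have hE4 : ∀ p, ∀ α ∈ RS F1.S p, α ∈ ann φ1 → α ∈ Fil F1.S F2.S p p ⊔ NN φ e :=
    fun p α hα ha => J1_le B h1 h2 v p (HJ.memJ h1 a1 v1 p α hα ha)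
  have hdeg : ∀ p q, ∀ α ∈ RS F1.S p, ∀ β ∈ RS F2.S q, 1 + p + q ≠ F.n →
      φ (X e * α * β) = 0 := fun p q α hα β hβ hne =>
    v.deg _ hne _ (IsHomogeneous.mul (IsHomogeneous.mul (isHomogeneous_X ℝ e) (RS_le_HS _ hα))
      (RS_le_HS _ hβ))
  have hE1 : ∀ p q, ∀ α ∈ RS F1.S p, ∀ β ∈ RS F2.S q, p < F1.n → φ (X e * α * β) = 0 := by
    intro p q α hα β hβ hp
    by_cases hq : F2.n < q
    · rw [mul_right_comm]
      exact hE3 q β hβ (v2.high hq (RS_le_HS _ hβ)) α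
    · exact hdeg p q α hα β hβ (by have := B.dim; omega)
  obtain ⟨σ1, hσ1⟩ := h1.ne
  obtain ⟨σ2, hσ2⟩ := h2.ne
  obtain ⟨hσ, -⟩ := (B.fac _).2 ⟨σ1, hσ1, σ2, hσ2, rfl⟩
  have hxs : xs (insert e (σ1 ∪ σ2)) = X e * xs σ1 * xs σ2 := by
    rw [xs_insert, xs, Finset.prod_union (B.disj.mono (h1.sub _ hσ1) (h2.sub _ hσ2)), mul_assoc]
    · rfl
    · simp only [Finset.mem_union, not_or]
      exact ⟨fun hh => B.e1 (h1.sub _ hσ1 hh), fun hh => B.e2 (h2.sub _ hσ2 hh)⟩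
  have p0 := v.pos _ hσ
  have p1 := v1.pos _ hσ1
  have p2 := v2.pos _ hσ2
  refine ⟨φ (xs (insert e (σ1 ∪ σ2))) / (φ1 (xs σ1) * φ2 (xs σ2)), by positivity,
    fun j hj hj1 hj2 => E0 B h1 h2 v hj hj1 hj2, hE1, ?_, hE3,
    fun p α hα ha => exists_of_mem_sup (hE4 p α hα ha), ?_⟩
  · intro q α hα β hβ
    by_cases hq : q = F2.n
    · subst hq
      obtain ⟨c1, c2⟩ := sub_ann h1 v1 hσ1 hα
      obtain ⟨d1, d2⟩ := sub_ann h2 v2 hσ2 hβ
      have k1 : φ (X e * (α - (φ1 α / φ1 (xs σ1)) • xs σ1) * β) = 0 := by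
        have hle : Fil F1.S F2.S F1.n F1.n ⊔ NN φ e ≤ LinearMap.ker
            (φ ∘ₗ LinearMap.mulRight ℝ β ∘ₗ LinearMap.mulLeft ℝ (X e)) := by
          refine sup_le (Fil_le fun p q α' hα' β' hβ' hp _ => ?_) fun x hx => hx β
          have := hE1 p _ α' hα' _ (mul_mem_RS hβ' hβ) hp
          rw [LinearMap.mem_ker]
          simpa only [LinearMap.comp_apply, LinearMap.mulLeft_apply, LinearMap.mulRight_apply,
            mul_assoc] using this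
        exact hle (hE4 _ _ c1 c2)
      have k2 : φ (X e * (β - (φ2 β / φ2 (xs σ2)) • xs σ2) * xs σ1) = 0 := hE3 _ _ d1 d2 _
      rw [mul_sub, sub_mul, mul_smul_comm, smul_mul_assoc, map_sub, map_smul, smul_eq_mul,
        sub_eq_zero] at k1 k2
      rw [k1, mul_right_comm (X e) (xs σ1) β, k2, mul_right_comm (X e) (xs σ2), ← hxs]
      field_simp
    · rw [hdeg _ q α hα β hβ (by have := B.dim; omega), v2.deg q hq β (RS_le_HS _ hβ), mul_zero]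
  · intro i x hx
    have low : ∀ j, Fil F1.S F2.S j i ≤ Fil F1.S F2.S (F1.n + 1) i ⊔ NN φ e := by
      intro j
      induction j with
      | zero => exact Fil_le fun p q α _ β _ hp _ => absurd hp (Nat.not_lt_zero p)
      | succ j ih =>
        refine Fil_le fun p q α hα β hβ hp hi => ?_
        by_cases hp1 : p ≤ F1.n
        · exact mem_sup_left (mem_Fil hα hβ (by omega) hi)
        · obtain ⟨γ, hγ, ν, hν, rfl⟩ := Submodule.mem_sup.1
            (hE4 p α hα (v1.high (by omega) (RS_le_HS _ hα)))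
          rw [add_mul]
          exact add_mem (ih (hi ▸ Fil_mul2 hγ hβ (by omega))) (mem_sup_right (NN_mul hν β))
    exact exists_of_mem_sup (sup_le (low _) le_sup_right (RS_le B h1 h2 h v i hx))

end Pool.Agent.P.MP_cedf91_co
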