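import Pool.Agent.P.MP_cedf91_co.KFan

/-! Package FanJ: shelling basis, Poincare duality, the relation between face numbers and degrees. -/

namespace Pool.Agent.P.MP_cedf91_co

open Submodule Filter Topology MvPolynomial

namespace FanJP

variable {ι : Type} [DecidableEq ι] {F : Fan ι}

theorem X_mul_xs {τ : Finset ι} {j : ι} (hj : j ∉ τ) : (X j : PR ι) * xs τ = xs (insert j τ) := by
  rw [xs, xs, Finset.prod_insert hj]

theorem xs_mul_xs (A B : Finset ι) : (xs A : PR ι) * xs B = xs (A ∪ B) * xs (A ∩ B) := by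
  rw [xs, xs, xs, xs, Finset.prod_union_inter]

omit [DecidableEq ι] in
theorem lin_mul_mem {θ : ι → ℝ} (hθ : θ ∈ F.Θ) {i : ℕ} {f : PR ι} (hf : f ∈ RS F.S i) :
    lin F.S θ * f ∈ F.J (i + 1) :=
  mem_sup_left (subset_span ⟨θ, hθ, i, f, hf, rfl, rfl⟩)

omit [DecidableEq ι] in
theorem nonface_mem {τ : Finset ι} (hτ : τ ⊆ F.S) (hn : ∀ σ ∈ F.K, ¬ τ ⊆ σ) :
    xs τ ∈ F.J τ.card :=
  mem_sup_right (subset_span ⟨τ, hτ, hn, 0, 1, one_mem_RS, rfl, (mul_one _).symm⟩)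

omit [DecidableEq ι] in
theorem X_mul_J {k : ι} (hk : k ∈ F.S) {i : ℕ} {x : PR ι} (hx : x ∈ F.J i) :
    X k * x ∈ F.J (i + 1) := by
  have : F.J i ≤ (F.J (i + 1)).comap (LinearMap.mulLeft ℝ (X k : PR ι)) := by
    refine sup_le (span_le.2 ?_) (span_le.2 ?_)
    · rintro _ ⟨θ, hθ, j, f, hf, rfl, rfl⟩
      have := lin_mul_mem hθ (mul_mem_RS (X_mem_RS hk) hf)
      rw [add_comm 1 j] at this
      simpa [mul_left_comm] using this
    · rintro _ ⟨τ, h1, h2, j, f, hf, rfl, rfl⟩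
      refine mem_sup_right (subset_span ⟨τ, h1, h2, 1 + j, X k * f,
        mul_mem_RS (X_mem_RS hk) hf, by ring, ?_⟩)
      simp [mul_left_comm]
  exact this hx

omit [DecidableEq ι] in
theorem J_le_ann {lam : PR ι →ₗ[ℝ] ℝ} (h1 : ∀ θ ∈ F.Θ, lin F.S θ ∈ ann lam)
    (h2 : ∀ τ : Finset ι, (∀ σ ∈ F.K, ¬ τ ⊆ σ) → xs τ ∈ ann lam) (i : ℕ) : F.J i ≤ ann lam := by
  refine sup_le (span_le.2 ?_) (span_le.2 ?_)
  · rintro _ ⟨θ, hθ, j, f, -, -, rfl⟩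
    exact ann_mul_right (h1 θ hθ) f
  · rintro _ ⟨τ, -, hτ, j, f, -, -, rfl⟩
    exact ann_mul_right (h2 τ hτ) f

theorem X_eq (h : F.Good) {σ : Finset ι} (hσ : σ ∈ F.K) {k : ι} (hk : k ∈ σ) :
    (X k : PR ι) = lin F.S (F.eta σ k) - ∑ j ∈ F.S \ σ, F.eta σ k j • X j := by
  rw [lin, ← Finset.sum_sdiff (h.sub σ hσ), add_sub_cancel_left, Finset.sum_eq_single k]
  · rw [h.eta_self hσ hk, one_smul]
  · intro j hj hjk
    rw [h.eta_ne hσ hj hjk, zero_smul]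
  · intro h'
    exact absurd hk h'

/-- Replacement of a variable of a facet by variables outside the facet. -/
theorem repl (h : F.Good) {σ ρ : Finset ι} (hσ : σ ∈ F.K) {k : ι} (hk : k ∈ σ) (hρ : ρ ⊆ σ)
    {W : Submodule ℝ (PR ι)} (hJ : F.J (ρ.card + 1) ≤ W)
    (hW : ∀ j ∈ F.S, j ∉ σ → xs (insert j ρ) ∈ W) : X k * xs ρ ∈ W := by
  rw [X_eq h hσ hk, sub_mul, Finset.sum_mul]
  refine W.sub_mem (hJ (lin_mul_mem (h.eta_mem hσ k) (xs_mem_RS (hρ.trans (h.sub σ hσ)))))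
    (Submodule.sum_mem _ fun j hj => ?_)
  rw [Finset.mem_sdiff] at hj
  rw [smul_mul_assoc, X_mul_xs fun h' => hj.2 (hρ h')]
  exact W.smul_mem _ (hW j hj.1 hj.2)

theorem span_faces (h : F.Good) (i : ℕ) :
    RS F.S i ≤ span ℝ {x | ∃ τ, (∃ σ ∈ F.K, τ ⊆ σ) ∧ τ.card = i ∧ x = xs τ} ⊔ F.J i := by
  induction i with
  | zero =>
    rw [RS_zero]
    obtain ⟨σ, hσ⟩ := h.ne
    refine le_sup_of_le_left (span_mono ?_)
    rintro _ rfl
    exact ⟨∅, ⟨σ, hσ, Finset.empty_subset _⟩, rfl, by simp [xs]⟩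
  | succ i ih =>
    have key : ∀ τ : Finset ι, τ ⊆ F.S → τ.card = i + 1 → xs τ ∈
        span ℝ {x | ∃ τ, (∃ σ ∈ F.K, τ ⊆ σ) ∧ τ.card = i + 1 ∧ x = xs τ} ⊔ F.J (i + 1) := by
      intro τ hτ hc
      by_cases hf : ∃ σ ∈ F.K, τ ⊆ σ
      · exact mem_sup_left (subset_span ⟨τ, hf, hc, rfl⟩)
      · push Not at hf
        exact mem_sup_right (hc ▸ nonface_mem hτ hf)
    refine RS_succ_le fun k hk f hf => ?_
    obtain ⟨a, ha, y, hy, rfl⟩ := mem_sup.1 (ih hf)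
    rw [mul_add]
    refine Submodule.add_mem _ ?_ (mem_sup_right (X_mul_J hk hy))
    clear hf
    induction ha using span_induction with
    | mem x hx =>
      obtain ⟨τ, ⟨σ, hσ, hτ⟩, hc, rfl⟩ := hx
      have hins : ∀ j ∈ F.S, j ∉ τ → xs (insert j τ) ∈
          span ℝ {x | ∃ τ, (∃ σ ∈ F.K, τ ⊆ σ) ∧ τ.card = i + 1 ∧ x = xs τ} ⊔ F.J (i + 1) :=
        fun j hj hjτ => key _ (Finset.insert_subset hj (hτ.trans (h.sub σ hσ)))
          (by rw [Finset.card_insert_of_notMem hjτ, hc])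
      by_cases hkτ : k ∈ τ
      · exact repl h hσ (hτ hkτ) hτ (hc ▸ le_sup_right)
          fun j hj hjσ => hins j hj fun h' => hjσ (hτ h')
      · rw [X_mul_xs hkτ]
        exact hins k hk hkτ
    | zero => simp
    | add x y _ _ hx hy => rw [mul_add]; exact Submodule.add_mem _ hx hy
    | smul c x _ hx => rw [mul_smul_comm]; exact Submodule.smul_mem _ c hx

/-- The number of vertices above a vertex. -/
noncomputable def ht (F : Fan ι) (b : ι → ℝ) (ξ : (ι → ℝ) →ₗ[ℝ] ℝ) (σ : Finset ι) : ℕ :=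
  (F.K.filter fun ρ => ξ (F.lift σ b) < ξ (F.lift ρ b)).card

omit [DecidableEq ι] in
theorem ht_lt {b : ι → ℝ} {ξ : (ι → ℝ) →ₗ[ℝ] ℝ} {σ σ' : Finset ι} (hσ' : σ' ∈ F.K)
    (hlt : ξ (F.lift σ b) < ξ (F.lift σ' b)) : ht F b ξ σ' < ht F b ξ σ := by
  refine Finset.card_lt_card ⟨fun ρ hρ => ?_, fun hs => ?_⟩
  · rw [Finset.mem_filter] at hρ ⊢
    exact ⟨hρ.1, hlt.trans hρ.2⟩
  · have := hs (Finset.mem_filter.2 ⟨hσ', hlt⟩)
    exact lt_irrefl _ (Finset.mem_filter.1 this).2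

theorem Rset_sub (ξ : (ι → ℝ) →ₗ[ℝ] ℝ) (σ : Finset ι) : F.Rset ξ σ ⊆ σ := Finset.filter_subset _ _

theorem shell (h : F.Good) {b : ι → ℝ} (hb : F.Ample b) {ξ : (ι → ℝ) →ₗ[ℝ] ℝ} (hξ : F.Gen b ξ)
    (i m : ℕ) : ∀ σ ∈ F.K, ht F b ξ σ = m → ∀ τ, F.Rset ξ σ ⊆ τ → τ ⊆ σ → τ.card = i → xs τ ∈
      span ℝ ((fun σ : F.K => xs (F.Rset ξ σ)) '' {σ | (F.Rset ξ σ.1).card = i}) ⊔ F.J i := by
  induction m using Nat.strong_induction_on with
  | _ m ih =>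
  intro σ hσ hm τ h1 h2 hc
  by_cases he : τ ⊆ F.Rset ξ σ
  · have e : F.Rset ξ σ = τ := Finset.Subset.antisymm h1 he
    exact mem_sup_left (subset_span ⟨⟨σ, hσ⟩, by simpa [e] using hc, by simp [e]⟩)
  obtain ⟨k, hk, hkR⟩ := Finset.not_subset.1 he
  have hc' : (τ.erase k).card + 1 = i := by rw [Finset.card_erase_add_one hk, hc]
  have e : xs τ = X k * xs (τ.erase k) := by
    rw [X_mul_xs (Finset.notMem_erase k τ), Finset.insert_erase hk]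
  rw [e]
  refine repl h hσ (h2 hk) ((Finset.erase_subset _ _).trans h2) (hc' ▸ le_sup_right)
    fun j hj hjσ => ?_
  have hjτ : j ∉ τ.erase k := fun h' => hjσ (h2 (Finset.erase_subset _ _ h'))
  have hcj : (insert j (τ.erase k)).card = i := by rw [Finset.card_insert_of_notMem hjτ, hc']
  by_cases hf : ∃ σ0 ∈ F.K, insert j (τ.erase k) ⊆ σ0
  · obtain ⟨σ0, hσ0, hs0⟩ := hf
    obtain ⟨σ', hσ', a1, a2⟩ := h.exists_min hb ξ hσ0 hs0
    have hlt := h.min_lt hb hξ hσ hσ' (fun l hl => a2 (Finset.mem_insert_of_mem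
      (Finset.mem_erase.2 ⟨fun e => hkR (e ▸ hl), h1 hl⟩)))
      fun e => hjσ (e ▸ a2 (Finset.mem_insert_self _ _))
    exact ih _ (hm ▸ ht_lt hσ' hlt) σ' hσ' rfl _ a1 a2 hcj
  · push Not at hf
    exact mem_sup_right (hcj ▸ nonface_mem (Finset.insert_subset hj
      (((Finset.erase_subset _ _).trans h2).trans (h.sub σ hσ))) hf)

theorem span_R (h : F.Good) {b : ι → ℝ} (hb : F.Ample b) {ξ : (ι → ℝ) →ₗ[ℝ] ℝ} (hξ : F.Gen b ξ)
    (i : ℕ) : RS F.S i ≤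
      span ℝ ((fun σ : F.K => xs (F.Rset ξ σ)) '' {σ | (F.Rset ξ σ.1).card = i}) ⊔ F.J i := by
  refine (span_faces h i).trans (sup_le (span_le.2 ?_) le_sup_right)
  rintro _ ⟨τ, ⟨σ0, hσ0, hs0⟩, hc, rfl⟩
  obtain ⟨σ, hσ, a1, a2⟩ := h.exists_min hb ξ hσ0 hs0
  exact shell h hb hξ i _ σ hσ rfl τ a1 a2 hc

theorem min_le (h : F.Good) {b : ι → ℝ} (hb : F.Ample b) {ξ : (ι → ℝ) →ₗ[ℝ] ℝ} (hξ : F.Gen b ξ)
    {σ σ' : Finset ι} (hσ : σ ∈ F.K) (hσ' : σ' ∈ F.K) (hR : F.Rset ξ σ ⊆ σ') :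
    ξ (F.lift σ b) ≤ ξ (F.lift σ' b) := by
  by_cases e : σ = σ'
  · rw [e]
  · exact (h.min_lt hb hξ hσ hσ' hR e).le

theorem exists_dual (H : LinLib) (h : F.Good) {b : ι → ℝ} (hb : F.Ample b) {φ : PR ι →ₗ[ℝ] ℝ}
    (hφ : F.IsVol φ) {ξ : (ι → ℝ) →ₗ[ℝ] ℝ} (hξ : F.Gen b ξ) : ∃ g : F.K → PR ι,
      DualFam φ (RS F.S) F.n (fun σ : F.K => (F.Rset ξ σ).card) (fun σ => xs (F.Rset ξ σ)) g := by
  have hle : ∀ σ : F.K, (F.Rset ξ σ).card ≤ F.n := fun σ =>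
    (Finset.card_le_card (Rset_sub ξ σ.1)).trans (h.card _ σ.2).le
  have hf : ∀ σ : F.K, xs (F.Rset ξ σ) ∈ RS F.S (F.Rset ξ σ).card := fun σ =>
    xs_mem_RS ((Rset_sub ξ σ.1).trans (h.sub _ σ.2))
  have hg : ∀ σ : F.K, xs (F.Rset (-ξ) σ) ∈ RS F.S (F.n - (F.Rset ξ σ).card) := fun σ => by
    have := xs_mem_RS ((Rset_sub (F := F) (-ξ) σ.1).trans (h.sub _ σ.2))
    rwa [show (F.Rset (-ξ) σ).card = F.n - (F.Rset ξ σ).card by
      rw [hξ.Rset_neg σ.2, Finset.card_sdiff_of_subset (Rset_sub ξ σ.1), h.card _ σ.2]] at this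
  have t1 : ∀ σ σ' : F.K, σ ≠ σ' → ht F b ξ σ ≤ ht F b ξ σ' →
      φ (xs (F.Rset ξ σ) * xs (F.Rset (-ξ) σ')) = 0 := by
    intro σ σ' hne hw
    rw [xs_mul_xs]
    refine hφ.nonface _ (fun ρ hρ hs => ?_) _
    have a1 := min_le h hb hξ σ.2 hρ (Finset.subset_union_left.trans hs)
    have a2 := min_le h hb hξ.neg σ'.2 hρ (Finset.subset_union_right.trans hs)
    simp only [LinearMap.neg_apply, neg_le_neg_iff] at a2
    have a3 := lt_of_le_of_ne (a1.trans a2) (hξ.vtx _ σ.2 _ σ'.2 fun e => hne (Subtype.ext e))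
    exact absurd hw (not_le.2 (ht_lt σ'.2 a3))
  have t2 : ∀ σ : F.K, φ (xs (F.Rset ξ σ) * xs (F.Rset (-ξ) σ)) ≠ 0 := by
    intro σ
    rw [hξ.Rset_neg σ.2, xs, xs, mul_comm, Finset.prod_sdiff (Rset_sub ξ σ.1)]
    exact (hφ.pos _ σ.2).ne'
  have t3 : ∀ σ σ' : F.K, (F.Rset ξ σ).card ≠ (F.Rset ξ σ').card →
      φ (xs (F.Rset ξ σ) * xs (F.Rset (-ξ) σ')) = 0 := by
    intro σ σ' hne
    have a1 := hle σ
    have a2 := hle σ'
    exact hφ.deg _ (by omega) _ (RS_le_HS _ (mul_mem_RS (hf σ) (hg σ')))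
  obtain ⟨g, g1, g2⟩ := H.triDual φ (fun σ : F.K => ht F b ξ σ) (fun σ => (F.Rset ξ σ).card)
    (fun σ => xs (F.Rset ξ σ)) (fun σ => xs (F.Rset (-ξ) σ)) t1 t2 t3
  refine ⟨g, hle, hf, fun σ => ?_, g2, fun k => (span_R h hb hξ k).trans
    (sup_le_sup_left (hφ.J_le k) _)⟩
  refine span_le.2 ?_ (g1 σ)
  rintro _ ⟨ρ, hρ, rfl⟩
  have := hg ρ
  rwa [show (F.Rset ξ ρ).card = (F.Rset ξ σ).card from hρ] at this

theorem eq_zero_of_dual {R : Type} [CommRing R] [Algebra ℝ R] {φ : R →ₗ[ℝ] ℝ} {I : Type}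
    [Fintype I] [DecidableEq I] {f g : I → R} (hd : ∀ i j, φ (f i * g j) = if i = j then 1 else 0)
    {A : Set I} {y : R} (hy : y ∈ span ℝ (f '' A)) (h0 : ∀ j, φ (y * g j) = 0) : y = 0 := by
  obtain ⟨c, rfl⟩ := (Submodule.mem_span_range_iff_exists_fun ℝ).1
    (span_mono (Set.image_subset_range f A) hy)
  refine Finset.sum_eq_zero fun j _ => ?_
  have := h0 j
  simp only [Finset.sum_mul, smul_mul_assoc, map_sum, map_smul, hd, smul_eq_mul, mul_ite, mul_one,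
    mul_zero, Finset.sum_ite_eq', Finset.mem_univ, if_true] at this
  rw [this, zero_smul]

/-- An element orthogonal to the subring generated by the vertices lies in `J`. -/
theorem memJ' (H : LinLib) (h : F.Good) {b : ι → ℝ} (hb : F.Ample b) {φ : PR ι →ₗ[ℝ] ℝ}
    (hφ : F.IsVol φ) {i : ℕ} {x : PR ι} (hx : x ∈ RS F.S i)
    (h0 : ∀ j, ∀ y ∈ RS F.S j, φ (x * y) = 0) : x ∈ F.J i := by
  obtain ⟨ξ, hξ⟩ := h.exists_gen hb
  obtain ⟨g, hg⟩ := exists_dual H h hb hφ hξ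
  obtain ⟨a, ha, y, hy, rfl⟩ := mem_sup.1 (span_R h hb hξ i hx)
  have : a = 0 := eq_zero_of_dual hg.dual ha fun j => by
    have := h0 _ _ (hg.memg j)
    rwa [add_mul, map_add, hφ.J_le i hy _, add_zero] at this
  rwa [this, zero_add]

omit [DecidableEq ι] in
theorem HS_zero : HS ι 0 = span ℝ {1} := by
  rw [HS, ← homogeneousSubmodule_one_pow, pow_zero, Submodule.one_eq_span]

omit [DecidableEq ι] in
theorem HS_le {S : Finset ι} {W : Submodule ℝ (PR ι)} (h1 : ∀ x ∈ W, ∀ y, y * x ∈ W)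
    (h2 : ∀ j, j ∉ S → X j ∈ W) (i : ℕ) : HS ι i ≤ RS S i ⊔ W := by
  induction i with
  | zero => rw [HS_zero, RS_zero]; exact le_sup_left
  | succ i ih =>
    rw [HS, ← homogeneousSubmodule_one_pow, pow_succ', homogeneousSubmodule_one_pow,
      Submodule.mul_le]
    intro m hm f hf
    rw [homogeneousSubmodule_one_eq_span_X] at hm
    induction hm using span_induction with
    | mem x hx =>
      obtain ⟨k, rfl⟩ := hx
      by_cases hk : k ∈ S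
      · obtain ⟨a, ha, y, hy, rfl⟩ := mem_sup.1 (ih hf)
        rw [mul_add]
        exact add_mem_sup (add_comm 1 i ▸ mul_mem_RS (X_mem_RS hk) ha) (h1 y hy _)
      · rw [mul_comm]
        exact mem_sup_right (h1 _ (h2 k hk) _)
    | zero => simp
    | add x y _ _ hx hy => rw [add_mul]; exact Submodule.add_mem _ hx hy
    | smul c x _ hx => rw [smul_mul_assoc]; exact Submodule.smul_mem _ c hx

theorem uniq (H : LinLib) (h : F.Good) {b : ι → ℝ} (hb : F.Ample b) {φ : PR ι →ₗ[ℝ] ℝ}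
    (hφ : F.IsVol φ) (lam : PR ι →ₗ[ℝ] ℝ) (l1 : ∀ i, i ≠ F.n → ∀ x ∈ HS ι i, lam x = 0)
    (l2 : ∀ θ ∈ F.Θ, lin F.S θ ∈ ann lam)
    (l3 : ∀ τ : Finset ι, (∀ σ ∈ F.K, ¬ τ ⊆ σ) → xs τ ∈ ann lam) :
    ∃ c : ℝ, ∀ x, lam x = c * φ x := by
  obtain ⟨σ, hσ⟩ := h.ne
  have hp := hφ.pos σ hσ
  have hs : xs σ ∈ RS F.S F.n := h.card σ hσ ▸ xs_mem_RS (h.sub σ hσ)
  have hR : ∀ x ∈ RS F.S F.n, lam x = lam (xs σ) / φ (xs σ) * φ x := by
    intro x hx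
    have hy : x - (φ x / φ (xs σ)) • xs σ ∈ RS F.S F.n :=
      Submodule.sub_mem _ hx (Submodule.smul_mem _ _ hs)
    have h0 : φ (x - (φ x / φ (xs σ)) • xs σ) = 0 := by
      rw [map_sub, map_smul, smul_eq_mul, div_mul_cancel₀ _ hp.ne', sub_self]
    have := ann_apply (J_le_ann l2 l3 _ (memJ' H h hb hφ hy fun j z hz => ?_))
    · rw [map_sub, map_smul, smul_eq_mul, sub_eq_zero] at this
      rw [this]; ring
    · rcases Nat.eq_zero_or_pos j with rfl | hj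
      · rw [RS_zero, mem_span_singleton] at hz
        obtain ⟨c, rfl⟩ := hz
        rw [mul_smul_comm, mul_one, map_smul, h0, smul_zero]
      · exact hφ.deg _ (by omega) _ (RS_le_HS _ (mul_mem_RS hy hz))
  have hX : ∀ j, j ∉ F.S → ∀ ρ ∈ F.K, ¬ {j} ⊆ ρ := fun j hj ρ hρ h' =>
    hj (h.sub ρ hρ (h' (Finset.mem_singleton_self j)))
  have hH := HS_le (S := F.S) (W := ann φ ⊓ ann lam)
    (fun x hx y => ⟨ann_mul_left hx.1 y, ann_mul_left hx.2 y⟩)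
    (fun j hj => ⟨by simpa [xs] using hφ.nonface _ (hX j hj),
      by simpa [xs] using l3 _ (hX j hj)⟩) F.n
  refine ⟨lam (xs σ) / φ (xs σ), fun x => ?_⟩
  rw [← sum_homogeneousComponent x, map_sum, map_sum, Finset.mul_sum]
  refine Finset.sum_congr rfl fun i _ => ?_
  have hi : homogeneousComponent i x ∈ HS ι i := homogeneousComponent_isHomogeneous i x
  by_cases e : i = F.n
  · subst e
    obtain ⟨a, ha, y, hy, e'⟩ := mem_sup.1 (hH hi)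
    rw [← e', map_add, map_add, ann_apply hy.1, ann_apply hy.2, add_zero, add_zero, hR a ha]
  · rw [l1 i e _ hi, hφ.deg i e _ hi, mul_zero]

theorem fh (h : F.Good) {b : ι → ℝ} (hb : F.Ample b) {ξ : (ι → ℝ) →ₗ[ℝ] ℝ} (hξ : F.Gen b ξ) :
    ∑ σ : F.K, (Polynomial.X : Polynomial ℝ) ^ (F.Rset ξ σ).card =
      ∑ τ ∈ F.faces, (Polynomial.X - 1) ^ (F.n - τ.card) := by
  rw [Finset.sum_coe_sort F.K fun σ => (Polynomial.X : Polynomial ℝ) ^ (F.Rset ξ σ).card]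
  have e1 : ∀ σ : Finset ι, (Polynomial.X : Polynomial ℝ) ^ (F.Rset ξ σ).card =
      ∑ t ∈ (F.Rset ξ σ).powerset, (Polynomial.X - 1) ^ t.card := fun σ => by
    have := (Finset.sum_pow_mul_eq_add_pow (Polynomial.X - 1 : Polynomial ℝ) 1
      (F.Rset ξ σ)).symm
    rw [sub_add_cancel] at this
    simpa only [one_pow, mul_one] using this
  simp only [e1]
  rw [Finset.sum_sigma']
  have hsub : ∀ {σ t : Finset ι}, σ ∈ F.K → t ⊆ F.Rset ξ σ → F.Rset (-ξ) σ ⊆ σ \ t :=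
    fun hσ ht => by
      rw [hξ.Rset_neg hσ]
      exact Finset.sdiff_subset_sdiff subset_rfl ht
  refine Finset.sum_bij (fun p _ => p.1 \ p.2) ?_ ?_ ?_ ?_
  · rintro ⟨σ, t⟩ hp
    rw [Finset.mem_sigma] at hp
    exact Finset.mem_biUnion.2 ⟨σ, hp.1, Finset.mem_powerset.2 Finset.sdiff_subset⟩
  · rintro ⟨σ, t⟩ hp ⟨σ', t'⟩ hp' e
    simp only [Finset.mem_sigma, Finset.mem_powerset] at hp hp' e
    have e2 : σ = σ' := by
      by_contra hne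
      have a1 := min_le h hb hξ.neg hp.1 hp'.1 ((hsub hp.1 hp.2).trans (e ▸ Finset.sdiff_subset))
      have a2 := min_le h hb hξ.neg hp'.1 hp.1
        ((hsub hp'.1 hp'.2).trans (e ▸ Finset.sdiff_subset))
      exact hξ.neg.vtx _ hp.1 _ hp'.1 hne (le_antisymm a1 a2)
    subst e2
    have e3 : t = t' := by
      rw [← Finset.sdiff_sdiff_eq_self (hp.2.trans (Rset_sub ξ σ)), e,
        Finset.sdiff_sdiff_eq_self (hp'.2.trans (Rset_sub ξ σ))]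
    rw [e3]
  · intro τ hτ
    obtain ⟨σ0, hσ0, hs0⟩ := Finset.mem_biUnion.1 hτ
    obtain ⟨σ, hσ, a1, a2⟩ := h.exists_min hb (-ξ) hσ0 (Finset.mem_powerset.1 hs0)
    refine ⟨⟨σ, σ \ τ⟩, Finset.mem_sigma.2 ⟨hσ, Finset.mem_powerset.2 fun k hk => ?_⟩,
      Finset.sdiff_sdiff_eq_self a2⟩
    rw [Finset.mem_sdiff] at hk
    rw [hξ.Rset_neg hσ] at a1
    by_contra hkR
    exact hk.2 (a1 (Finset.mem_sdiff.2 ⟨hk.1, hkR⟩))
  · rintro ⟨σ, t⟩ hp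
    simp only [Finset.mem_sigma, Finset.mem_powerset] at hp
    have a1 := hp.2.trans (Rset_sub ξ σ)
    have a2 := Finset.card_le_card a1
    rw [Finset.card_sdiff_of_subset a1, ← h.card σ hp.1, Nat.sub_sub_self a2]

end FanJP

theorem fanJ (H : LinLib) : FanJLib where
  memJ := fun h hb hφ _ _ hx h0 => FanJP.memJ' H h hb hφ hx fun _ y _ => h0 y
  gsub := fun {_ _ F _ _} h hb hφ => by
    refine ⟨RS_le_HS, fun i => ?_,
      fun i x hx h0 => hφ.J_le i (FanJP.memJ' H h hb hφ hx h0)⟩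
    obtain ⟨ξ, hξ⟩ := h.exists_gen hb
    exact ⟨_, H.spanOf (fun σ : F.K => xs (F.Rset ξ σ)) ((FanJP.span_R h hb hξ i).trans
      (sup_le_sup (span_mono (Set.image_subset_range _ _)) (hφ.J_le i)))⟩
  uniq := fun h hb hφ => FanJP.uniq H h hb hφ
  fh := fun h hb hφ => by
    obtain ⟨ξ, hξ⟩ := h.exists_gen hb
    obtain ⟨g, hg⟩ := FanJP.exists_dual H h hb hφ hξ
    exact ⟨_, _, g, hg, FanJP.fh h hb hξ⟩

end Pool.Agent.P.MP_cedf91_co
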