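import Pool.Agent.P.MP_cedf91_co.KFan

/-! Existence of a volume form on a projective simplicial fan, by localisation. -/

namespace Pool.Agent.P.MP_cedf91_co

open Submodule MvPolynomial

namespace FanVolP

variable {ι : Type} [DecidableEq ι] {F : Fan ι}

omit [DecidableEq ι] in
theorem abs_det_congr {n : ℕ} (β : ι → Fin n → ℝ) {g g' : Fin n → ι} (hg : Function.Injective g)
    (hr : ∀ i, ∃ i', g' i' = g i) :
    |(Matrix.of fun i r => β (g i) r).det| = |(Matrix.of fun i r => β (g' i) r).det| := by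
  choose π hπ using hr
  have hinj : Function.Injective π := fun i j hij => hg (by rw [← hπ, ← hπ, hij])
  have e : (Matrix.of fun i r => β (g i) r) = (Matrix.of fun i r => β (g' i) r).submatrix
      (Equiv.ofBijective π (Finite.injective_iff_bijective.1 hinj)) (Equiv.refl _) := by
    ext i r
    simp [hπ]
  rw [e, Matrix.abs_det_submatrix_equiv_equiv]

theorem exists_enum (h : F.Good) : ∃ en : Finset ι → Fin F.n → ι, ∀ σ ∈ F.K,
    Function.Injective (en σ) ∧ Finset.univ.image (en σ) = σ := by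
  have : ∀ σ : Finset ι, ∃ g : Fin F.n → ι, σ ∈ F.K →
      Function.Injective g ∧ Finset.univ.image g = σ := by
    have key : ∀ σ ∈ F.K, ∃ g : Fin F.n → ι, Function.Injective g ∧ Finset.univ.image g = σ := by
      intro σ hσ
      let e := (Finset.equivFinOfCardEq (h.card σ hσ)).symm
      refine ⟨fun i => e i, fun i j hij => e.injective (Subtype.ext hij), ?_⟩
      ext j
      simp only [Finset.mem_image, Finset.mem_univ, true_and]
      exact ⟨fun ⟨i, hi⟩ => hi ▸ (e i).2, fun hj => ⟨e.symm ⟨j, hj⟩, by simp⟩⟩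
    intro σ
    by_cases hσ : σ ∈ F.K
    · obtain ⟨g, hg⟩ := key σ hσ
      exact ⟨g, fun _ => hg⟩
    · obtain ⟨σ0, h0⟩ := h.ne
      obtain ⟨g, -⟩ := key σ0 h0
      exact ⟨g, fun h' => absurd h' hσ⟩
  choose en hen using this
  exact ⟨en, hen⟩

theorem exists_weight (h : F.Good) : ∃ w : Finset ι → ℝ, (∀ σ ∈ F.K, 0 < w σ) ∧
    ∀ σ ∈ F.K, ∀ σ' ∈ F.K, ∀ k ∈ σ, ∀ k', k' ∉ σ → σ' = insert k' (σ.erase k) →
      w σ = |F.eta σ k k'| * w σ' := by
  obtain ⟨en, hen⟩ := exists_enum h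
  obtain ⟨σ0, h0⟩ := h.ne
  have hmem : ∀ σ ∈ F.K, ∀ i, en σ i ∈ σ := fun σ hσ i => by
    have := Finset.mem_image_of_mem (en σ) (Finset.mem_univ i)
    rwa [(hen σ hσ).2] at this
  have hex : ∀ σ ∈ F.K, ∀ j ∈ σ, ∃ i, en σ i = j := fun σ hσ j hj => by
    rw [← (hen σ hσ).2] at hj
    simpa using hj
  have hsum : ∀ σ ∈ F.K, ∀ θ ∈ F.Θ, ∀ j, θ j = ∑ i, θ (en σ i) * F.eta σ (en σ i) j := by
    intro σ hσ θ hθ j
    have e := congrFun (h.eq_sum hσ hθ) j
    rw [Finset.sum_apply] at e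
    rw [e]
    conv_lhs => rw [← (hen σ hσ).2]
    rw [Finset.sum_image fun a _ b _ hab => (hen σ hσ).1 hab, (hen σ hσ).2]
    rfl
  let β : ι → Fin F.n → ℝ := fun j r => F.eta σ0 (en σ0 r) j
  let A : Finset ι → Matrix (Fin F.n) (Fin F.n) ℝ := fun σ => Matrix.of fun i r => β (en σ i) r
  have hA : ∀ σ ∈ F.K, (A σ).det ≠ 0 := by
    intro σ hσ
    have e : A σ * (Matrix.of fun r i => F.eta σ (en σ i) (en σ0 r)) = 1 := by
      ext i i'
      rw [Matrix.mul_apply]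
      simp only [A, β, Matrix.of_apply]
      rw [Finset.sum_congr rfl fun r _ => mul_comm _ _,
        ← hsum σ0 h0 _ (h.eta_mem hσ (en σ i')) (en σ i)]
      by_cases hi : i = i'
      · rw [hi, h.eta_self hσ (hmem σ hσ _), Matrix.one_apply_eq]
      · rw [h.eta_ne hσ (hmem σ hσ _) fun e => hi ((hen σ hσ).1 e), Matrix.one_apply_ne hi]
    exact Matrix.det_ne_zero_of_right_inverse e
  refine ⟨fun σ => |(A σ).det|⁻¹, fun σ hσ => inv_pos.2 (abs_pos.2 (hA σ hσ)), ?_⟩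
  intro σ hσ σ' hσ' k hk k' hk' e
  obtain ⟨i0, rfl⟩ := hex σ hσ k hk
  have hg : Function.Injective (Function.update (en σ) i0 k') := by
    intro i j hij
    by_cases hi : i = i0 <;> by_cases hj : j = i0
    · rw [hi, hj]
    · rw [hi, Function.update_self, Function.update_of_ne hj] at hij
      exact absurd (hij ▸ hmem σ hσ j) hk'
    · rw [hj, Function.update_self, Function.update_of_ne hi] at hij
      exact absurd (hij ▸ hmem σ hσ i) hk'
    · rw [Function.update_of_ne hi, Function.update_of_ne hj] at hij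
      exact (hen σ hσ).1 hij
  have h1 := abs_det_congr β hg (g' := en σ') fun i => hex σ' hσ' _ (by
    rw [e]
    by_cases hi : i = i0
    · rw [hi, Function.update_self]
      exact Finset.mem_insert_self _ _
    · rw [Function.update_of_ne hi]
      exact Finset.mem_insert_of_mem
        (Finset.mem_erase.2 ⟨fun e => hi ((hen σ hσ).1 e), hmem σ hσ i⟩))
  have h2 : (Matrix.of fun i r => β (Function.update (en σ) i0 k' i) r)
      = (A σ).updateRow i0 (∑ i, F.eta σ (en σ i) k' • A σ i) := by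
    ext i r
    by_cases hi : i = i0
    · rw [hi, Matrix.updateRow_self, Matrix.of_apply, Function.update_self, Finset.sum_apply]
      simp only [A, β, Pi.smul_apply, Matrix.of_apply, smul_eq_mul]
      rw [hsum σ hσ _ (h.eta_mem h0 (en σ0 r)) k']
      exact Finset.sum_congr rfl fun i _ => mul_comm _ _
    · rw [Matrix.updateRow_ne hi, Matrix.of_apply, Function.update_of_ne hi]
      rfl
  rw [h2, Matrix.det_updateRow_sum, smul_eq_mul, abs_mul] at h1
  have h3 := abs_pos.2 (hA σ hσ)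
  have h4 := abs_pos.2 (hA σ' hσ')
  change |F.eta σ (en σ i0) k'| * |(A σ).det| = |(A σ').det| at h1
  change |(A σ).det|⁻¹ = |F.eta σ (en σ i0) k'| * |(A σ').det|⁻¹
  field_simp
  rw [← h1, mul_comm]

/-- The point attached to a facet. -/
noncomputable def pt (F : Fan ι) (ξ : (ι → ℝ) →ₗ[ℝ] ℝ) (σ : Finset ι) (j : ι) : ℝ :=
  if j ∈ σ then ξ (F.eta σ j) else 0

/-- The localisation sum. -/
noncomputable def Phi (F : Fan ι) (ξ : (ι → ℝ) →ₗ[ℝ] ℝ) (w : Finset ι → ℝ) : PR ι →ₗ[ℝ] ℝ :=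
  ∑ σ ∈ F.K, (w σ / ∏ k ∈ σ, ξ (F.eta σ k)) • (aeval (pt F ξ σ)).toLinearMap

variable {ξ : (ι → ℝ) →ₗ[ℝ] ℝ} {w : Finset ι → ℝ} {b : ι → ℝ}

theorem Phi_apply (f : PR ι) :
    Phi F ξ w f = ∑ σ ∈ F.K, (w σ / ∏ k ∈ σ, ξ (F.eta σ k)) * aeval (pt F ξ σ) f := by
  simp only [Phi, LinearMap.sum_apply, LinearMap.smul_apply, AlgHom.toLinearMap_apply, smul_eq_mul]

theorem aeval_lin (h : F.Good) {σ : Finset ι} (hσ : σ ∈ F.K) {θ : ι → ℝ} (hθ : θ ∈ F.Θ) :
    aeval (pt F ξ σ) (lin F.S θ) = ξ θ := by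
  conv_rhs => rw [h.eq_sum hσ hθ]
  rw [lin, map_sum, map_sum, ← Finset.sum_subset (h.sub σ hσ)]
  · exact Finset.sum_congr rfl fun k hk => by simp [pt, hk]
  · intro k _ hk
    simp [pt, hk]

theorem Phi_lin (h : F.Good) {θ : ι → ℝ} (hθ : θ ∈ F.Θ) (f : PR ι) :
    Phi F ξ w (lin F.S θ * f) = ξ θ * Phi F ξ w f := by
  rw [Phi_apply, Phi_apply, Finset.mul_sum]
  refine Finset.sum_congr rfl fun σ hσ => ?_
  rw [map_mul, aeval_lin h hσ hθ]
  ring

theorem aeval_xs (σ τ : Finset ι) :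
    aeval (pt F ξ σ) (xs τ) = if τ ⊆ σ then ∏ k ∈ τ, ξ (F.eta σ k) else 0 := by
  rw [xs, map_prod]
  split_ifs with hs
  · exact Finset.prod_congr rfl fun k hk => by simp [pt, hs hk]
  · obtain ⟨k, hk, hk'⟩ := Finset.not_subset.1 hs
    exact Finset.prod_eq_zero hk (by simp [pt, hk'])

theorem Phi_nonface {τ : Finset ι} (hτ : ∀ σ ∈ F.K, ¬ τ ⊆ σ) (f : PR ι) :
    Phi F ξ w (xs τ * f) = 0 := by
  rw [Phi_apply]
  exact Finset.sum_eq_zero fun σ hσ => by rw [map_mul, aeval_xs, if_neg (hτ σ hσ)]; simp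

theorem Phi_facet (h : F.Good) (hξ : F.Gen b ξ) {σ : Finset ι} (hσ : σ ∈ F.K) :
    Phi F ξ w (xs σ) = w σ := by
  rw [Phi_apply, Finset.sum_eq_single σ]
  · rw [aeval_xs, if_pos subset_rfl,
      div_mul_cancel₀ _ (Finset.prod_ne_zero_iff.2 fun k hk => hξ.edge σ hσ k hk)]
  · intro σ' hσ' hne
    rw [aeval_xs, if_neg, mul_zero]
    exact fun hs => hne (Finset.eq_of_subset_of_card_le hs
      (by rw [h.card σ hσ, h.card σ' hσ'])).symm
  · exact fun h' => absurd hσ h'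

theorem xs_insert {τ : Finset ι} {j : ι} (hj : j ∉ τ) : xs (insert j τ) = X j * xs τ :=
  Finset.prod_insert hj

theorem term_eq (hξ : F.Gen b ξ) {σ : Finset ι} (hσ : σ ∈ F.K) {k : ι} (hk : k ∈ σ) :
    (w σ / ∏ j ∈ σ, ξ (F.eta σ j)) * aeval (pt F ξ σ) (xs (σ.erase k)) = w σ / ξ (F.eta σ k) := by
  have h1 : ∏ j ∈ σ.erase k, ξ (F.eta σ j) ≠ 0 :=
    Finset.prod_ne_zero_iff.2 fun j hj => hξ.edge σ hσ j (Finset.mem_of_mem_erase hj)
  have h2 := hξ.edge σ hσ k hk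
  rw [aeval_xs, if_pos (Finset.erase_subset _ _), ← Finset.mul_prod_erase σ _ hk]
  field_simp

theorem Phi_ridge (h : F.Good) (hb : F.Ample b) (hξ : F.Gen b ξ)
    (hw : ∀ σ ∈ F.K, ∀ σ' ∈ F.K, ∀ k ∈ σ, ∀ k', k' ∉ σ → σ' = insert k' (σ.erase k) →
      w σ = |F.eta σ k k'| * w σ') {σ : Finset ι} (hσ : σ ∈ F.K) {k : ι} (hk : k ∈ σ) :
    Phi F ξ w (xs (σ.erase k)) = 0 := by
  obtain ⟨σ', hσ', hk1, hs⟩ := h.nbr σ hσ k hk
  obtain ⟨k', hk', e, hneg, -⟩ := h.nbr_geo hb hσ hσ' hk hk1 hs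
  have hne : σ ≠ σ' := fun e' => hk1 (e' ▸ hk)
  have hk2 : k' ∈ σ' := e ▸ Finset.mem_insert_self _ _
  have hk3 : k' ∉ σ.erase k := fun h' => hk' (Finset.mem_of_mem_erase h')
  have e2 : σ'.erase k' = σ.erase k := by rw [e, Finset.erase_insert hk3]
  have e3 : F.eta σ k = F.eta σ k k' • F.eta σ' k' := by
    refine h.ext hσ' (h.eta_mem hσ k) (F.Θ.smul_mem _ (h.eta_mem hσ' k')) fun j hj => ?_
    by_cases hjk : j = k'
    · rw [hjk, Pi.smul_apply, h.eta_self hσ' hk2, smul_eq_mul, mul_one]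
    · have hj' : j ∈ σ.erase k := e2 ▸ Finset.mem_erase.2 ⟨hjk, hj⟩
      rw [Pi.smul_apply, h.eta_ne hσ' hj hjk, smul_zero,
        h.eta_ne hσ (Finset.mem_of_mem_erase hj') (Finset.ne_of_mem_erase hj')]
  have e4 : ξ (F.eta σ k) = F.eta σ k k' * ξ (F.eta σ' k') := by
    conv_lhs => rw [e3]
    rw [map_smul, smul_eq_mul]
  rw [Phi_apply, Finset.sum_eq_add_of_mem σ σ' hσ hσ' hne]
  · rw [term_eq hξ hσ hk, ← e2, term_eq hξ hσ' hk2, hw σ hσ σ' hσ' k hk k' hk' e, e4,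
      abs_of_neg hneg]
    have h1 := hξ.edge σ' hσ' k' hk2
    have h2 := hneg.ne
    field_simp
    ring
  · intro σ'' hσ'' hn
    rw [aeval_xs, if_neg, mul_zero]
    intro hs'
    by_cases hk4 : k ∈ σ''
    · refine hn.1 (Finset.eq_of_subset_of_card_le ?_ (by rw [h.card σ hσ, h.card σ'' hσ''])).symm
      rw [← Finset.insert_erase hk]
      exact Finset.insert_subset hk4 hs'
    · exact hn.2 (h.nbr_uniq hb hσ hσ'' hσ' hk hk4 hs' hk1 hs)

theorem Phi_xs (h : F.Good) (hb : F.Ample b) (hξ : F.Gen b ξ)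
    (hw : ∀ σ ∈ F.K, ∀ σ' ∈ F.K, ∀ k ∈ σ, ∀ k', k' ∉ σ → σ' = insert k' (σ.erase k) →
      w σ = |F.eta σ k k'| * w σ') (m : ℕ) :
    ∀ τ : Finset ι, τ.card + m + 1 = F.n → Phi F ξ w (xs τ) = 0 := by
  induction m with
  | zero =>
    intro τ hτ
    by_cases hf : ∀ σ ∈ F.K, ¬ τ ⊆ σ
    · simpa using Phi_nonface hf 1
    push Not at hf
    obtain ⟨σ, hσ, hs⟩ := hf
    obtain ⟨k, hk, e⟩ := Finset.exists_eq_insert_iff.2 ⟨hs, by rw [h.card σ hσ]; exact hτ⟩
    have hk' : k ∈ σ := e ▸ Finset.mem_insert_self _ _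
    have e2 : τ = σ.erase k := by rw [← e, Finset.erase_insert hk]
    rw [e2]
    exact Phi_ridge h hb hξ hw hσ hk'
  | succ m ih =>
    intro τ hτ
    by_cases hf : ∀ σ ∈ F.K, ¬ τ ⊆ σ
    · simpa using Phi_nonface hf 1
    push Not at hf
    obtain ⟨σ, hσ, hs⟩ := hf
    obtain ⟨k, hk, hkτ⟩ := Finset.exists_mem_notMem_of_card_lt_card (s := τ) (t := σ)
      (by rw [h.card σ hσ]; omega)
    have h1 := Phi_lin (ξ := ξ) (w := w) h (h.eta_mem hσ k) (xs τ)
    rw [lin, Finset.sum_mul, map_sum, Finset.sum_eq_zero] at h1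
    · exact (mul_eq_zero.1 h1.symm).resolve_left (hξ.edge σ hσ k hk)
    · intro j _
      rw [smul_mul_assoc, map_smul]
      by_cases hj : j ∈ τ
      · rw [h.eta_ne hσ (hs hj) (fun (e : j = k) => hkτ (e ▸ hj)), zero_smul]
      · rw [← xs_insert hj, ih _ (by rw [Finset.card_insert_of_notMem hj]; omega), smul_zero]

omit [DecidableEq ι] in
theorem HS_succ_le {d : ℕ} {W : Submodule ℝ (PR ι)} (hW : ∀ k, ∀ g ∈ HS ι d, X k * g ∈ W) :
    HS ι (d + 1) ≤ W := by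
  rw [HS, ← homogeneousSubmodule_one_pow, pow_succ', homogeneousSubmodule_one_pow,
    homogeneousSubmodule_one_eq_span_X, Submodule.mul_le]
  intro m hm f hf
  induction hm using span_induction with
  | mem x hx => obtain ⟨k, rfl⟩ := hx; exact hW k f hf
  | zero => simp
  | add x y _ _ hx hy => rw [add_mul]; exact W.add_mem hx hy
  | smul c x _ hx => rw [smul_mul_assoc]; exact W.smul_mem c hx

theorem Phi_low (h : F.Good) (h0 : ∀ τ : Finset ι, τ.card < F.n → Phi F ξ w (xs τ) = 0) (d : ℕ) :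
    ∀ τ : Finset ι, τ.card + d < F.n → ∀ f ∈ HS ι d, Phi F ξ w (xs τ * f) = 0 := by
  induction d with
  | zero =>
    intro τ hτ f hf
    have hf' : f.IsHomogeneous 0 := hf
    rw [← totalDegree_zero_iff_isHomogeneous, totalDegree_eq_zero_iff_eq_C] at hf'
    rw [hf', mul_comm, ← smul_eq_C_mul, map_smul, h0 τ hτ, smul_zero]
  | succ d ih =>
    intro τ hτ f hf
    have hout : ∀ j, j ∉ τ → ∀ g ∈ HS ι d, Phi F ξ w (xs τ * (X j * g)) = 0 := fun j hj g hg => by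
      rw [mul_left_comm, ← mul_assoc, ← xs_insert hj]
      exact ih _ (by rw [Finset.card_insert_of_notMem hj]; omega) g hg
    refine HS_succ_le (W := LinearMap.ker (Phi F ξ w ∘ₗ LinearMap.mulLeft ℝ (xs τ)))
      (fun k g hg => ?_) hf
    change Phi F ξ w (xs τ * (X k * g)) = 0
    by_cases hk : k ∈ τ
    swap
    · exact hout k hk g hg
    by_cases hf : ∀ σ ∈ F.K, ¬ τ ⊆ σ
    · exact Phi_nonface hf _
    push Not at hf
    obtain ⟨σ, hσ, hs⟩ := hf
    have h1 := Phi_lin (ξ := ξ) (w := w) h (h.eta_mem hσ k) (xs τ * g)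
    rw [ih τ (by omega) g hg, mul_zero, lin, Finset.sum_mul, map_sum,
      Finset.sum_eq_single k] at h1
    · rwa [h.eta_self hσ (hs hk), one_smul, mul_left_comm] at h1
    · intro j _ hjk
      rw [smul_mul_assoc, map_smul]
      by_cases hj : j ∈ τ
      · rw [h.eta_ne hσ (hs hj) hjk, zero_smul]
      · rw [mul_left_comm, hout j hj g hg, smul_zero]
    · exact fun h' => absurd (h.sub σ hσ (hs hk)) h'

omit [DecidableEq ι] in
theorem xs_mem_HS (τ : Finset ι) : xs τ ∈ HS ι τ.card := RS_le_HS _ (xs_mem_RS subset_rfl)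

end FanVolP

open FanVolP

theorem fanVol : FanVolStmt := by
  intro ι _ F b h hb
  obtain ⟨ξ, hξ⟩ := h.exists_gen hb
  obtain ⟨w, hw0, hw⟩ := exists_weight h
  have h0 : ∀ τ : Finset ι, τ.card < F.n → Phi F ξ w (xs τ) = 0 := fun τ hτ =>
    Phi_xs h hb hξ hw (F.n - τ.card - 1) τ (by omega)
  have hφ : ∀ i, ∀ x ∈ HS ι i, (Phi F ξ w ∘ₗ homogeneousComponent F.n) x
      = if F.n = i then Phi F ξ w x else 0 := by
    intro i x hx
    rw [LinearMap.comp_apply, homogeneousComponent_of_mem hx]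
    split_ifs
    · rfl
    · exact map_zero _
  refine ⟨Phi F ξ w ∘ₗ homogeneousComponent F.n, fun i hi x hx => ?_,
    fun θ hθ => mem_ann_of_HS fun j y hy => ?_, fun τ hτ => mem_ann_of_HS fun j y hy => ?_,
    fun σ hσ => ?_⟩
  · rw [hφ i x hx, if_neg hi.symm]
  · rw [hφ (1 + j) _ (IsHomogeneous.mul (RS_le_HS 1 (lin_mem_RS subset_rfl θ)) hy)]
    split_ifs with hj
    · have h1 := Phi_low h h0 j ∅ (by simp; omega) y hy
      rw [xs, Finset.prod_empty, one_mul] at h1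
      rw [Phi_lin h hθ, h1, mul_zero]
    · rfl
  · rw [hφ (τ.card + j) _ (IsHomogeneous.mul (xs_mem_HS τ) hy), Phi_nonface hτ, ite_self]
  · rw [hφ _ _ (xs_mem_HS σ), if_pos (h.card σ hσ).symm, Phi_facet h hξ hσ]
    exact hw0 σ hσ

end Pool.Agent.P.MP_cedf91_co
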