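import Pool.Agent.P.MP_cedf91_co.KFan

/-! Package Fib: the blow-up lemma for a bundle. -/

namespace Pool.Agent.P.MP_cedf91_co

open Submodule Filter Topology MvPolynomial

namespace FibP

section Fil

variable {ι : Type} {S1 S2 : Finset ι}

theorem mem_Fil {p q j i : ℕ} {α β : PR ι} (hα : α ∈ RS S1 p) (hβ : β ∈ RS S2 q) (h1 : p < j)
    (h2 : p + q = i) : α * β ∈ Fil S1 S2 j i :=
  subset_span ⟨p, q, α, hα, β, hβ, h1, h2, rfl⟩

theorem Fil_mono {j j' i : ℕ} (h : j ≤ j') : Fil S1 S2 j i ≤ Fil S1 S2 j' i := by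
  refine span_le.2 ?_
  rintro _ ⟨p, q, α, hα, β, hβ, h1, h2, rfl⟩
  exact mem_Fil hα hβ (by omega) h2

theorem Fil_le_HS {j i : ℕ} : Fil S1 S2 j i ≤ HS ι i := by
  refine span_le.2 ?_
  rintro _ ⟨p, q, α, hα, β, hβ, -, rfl, rfl⟩
  exact IsHomogeneous.mul (RS_le_HS p hα) (RS_le_HS q hβ)

theorem Fil_zero {i : ℕ} {x : PR ι} (hx : x ∈ Fil S1 S2 0 i) : x = 0 := by
  have : Fil S1 S2 0 i ≤ ⊥ := by
    refine span_le.2 ?_
    rintro _ ⟨p, q, α, hα, β, hβ, h1, -, rfl⟩
    omega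
  exact this hx

theorem Fil_mul {j j' i i' : ℕ} {x y : PR ι} (hx : x ∈ Fil S1 S2 j i)
    (hy : y ∈ Fil S1 S2 (j' + 1) i') : x * y ∈ Fil S1 S2 (j + j') (i + i') := by
  induction hx using span_induction with
  | zero => simp
  | add a b _ _ ha hb => rw [add_mul]; exact add_mem ha hb
  | smul c a _ ha => rw [smul_mul_assoc]; exact smul_mem _ c ha
  | mem a ha =>
    obtain ⟨p, q, α, hα, β, hβ, h1, h2, rfl⟩ := ha
    induction hy using span_induction with
    | zero => simp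
    | add a b _ _ ha hb => rw [mul_add]; exact add_mem ha hb
    | smul c a _ ha => rw [mul_smul_comm]; exact smul_mem _ c ha
    | mem a ha =>
      obtain ⟨p', q', α', hα', β', hβ', h1', h2', rfl⟩ := ha
      rw [mul_mul_mul_comm]
      exact mem_Fil (mul_mem_RS hα hα') (mul_mem_RS hβ hβ') (by omega) (by omega)

theorem Fil_base {q : ℕ} {β : PR ι} (hβ : β ∈ RS S2 q) : β ∈ Fil S1 S2 (0 + 1) q := by
  simpa using mem_Fil (S1 := S1) (j := 1) one_mem_RS hβ one_pos (zero_add q)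

theorem Fil_mul_base {j i q : ℕ} {x β : PR ι} (hx : x ∈ Fil S1 S2 j i) (hβ : β ∈ RS S2 q) :
    x * β ∈ Fil S1 S2 j (i + q) := Fil_mul (j' := 0) hx (Fil_base hβ)

/-- `x` has leading part `α * β` of fibre degree `j` and total degree `i`. -/
def Lead (S1 S2 : Finset ι) (j i : ℕ) (x α β : PR ι) : Prop :=
  α ∈ RS S1 j ∧ (∃ q, β ∈ RS S2 q ∧ j + q = i) ∧ x - α * β ∈ Fil S1 S2 j i

theorem Lead.mem {j i : ℕ} {x α β : PR ι} (h : Lead S1 S2 j i x α β) :
    x ∈ Fil S1 S2 (j + 1) i := by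
  obtain ⟨h1, ⟨q, h2, h3⟩, h4⟩ := h
  have := add_mem (Fil_mono (Nat.le_succ j) h4) (mem_Fil h1 h2 (Nat.lt_succ_self j) h3)
  simpa using this

theorem Lead.mul {j i j' i' : ℕ} {x α β x' α' β' : PR ι} (h : Lead S1 S2 j i x α β)
    (h' : Lead S1 S2 j' i' x' α' β') : Lead S1 S2 (j + j') (i + i') (x * x') (α * α') (β * β') := by
  have hx' := h'.mem
  obtain ⟨h1, ⟨q, h2, h3⟩, h4⟩ := h
  obtain ⟨h1', ⟨q', h2', h3'⟩, h4'⟩ := h'
  refine ⟨mul_mem_RS h1 h1', ⟨q + q', mul_mem_RS h2 h2', by omega⟩, ?_⟩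
  have e : x * x' - α * α' * (β * β') = (x - α * β) * x' + (x' - α' * β') * (α * β) := by ring
  rw [e]
  refine add_mem (Fil_mul h4 hx') ?_
  have := Fil_mul h4' (mem_Fil h1 h2 (Nat.lt_succ_self j) h3)
  rwa [add_comm j', add_comm i'] at this

theorem Lead.base {q : ℕ} {β : PR ι} (hβ : β ∈ RS S2 q) : Lead S1 S2 0 q β 1 β :=
  ⟨one_mem_RS, ⟨q, hβ, zero_add q⟩, by simp⟩

theorem Lead.pow {x α : PR ι} (h : Lead S1 S2 1 1 x α 1) (r : ℕ) :
    Lead S1 S2 r r (x ^ r) (α ^ r) 1 := by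
  induction r with
  | zero => simpa using Lead.base (S1 := S1) (S2 := S2) one_mem_RS
  | succ r ih => simpa [pow_succ] using ih.mul h

end Fil

section Ann

variable {R : Type} [CommRing R] [Algebra ℝ R] {φ : R →ₗ[ℝ] ℝ}

theorem pow_cong {E x y : R} (h : E * (x - y) ∈ ann φ) (m : ℕ) : E * (x ^ m - y ^ m) ∈ ann φ := by
  obtain ⟨z, hz⟩ := sub_dvd_pow_sub_pow x y m
  rw [hz, ← mul_assoc]
  exact ann_mul_right h z

theorem phi_cong {x y : R} (h : x - y ∈ ann φ) : φ x = φ y := by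
  have := ann_apply h
  rwa [map_sub, sub_eq_zero] at this

theorem split_ann {U A : Submodule ℝ R} {ψ : R →ₗ[ℝ] ℝ} (hA : A ≤ U) (h : U ≤ A ⊔ ann ψ) :
    U ≤ A ⊔ (U ⊓ ann ψ) := by
  intro x hx
  obtain ⟨a, ha, z, hz, rfl⟩ := mem_sup.1 (h hx)
  refine add_mem_sup ha ⟨?_, hz⟩
  simpa using U.sub_mem hx (hA ha)

end Ann

section Main

variable {ι : Type} {F F1 F2 : Fan ι} {e : ι} {φ φ1 φ2 : PR ι →ₗ[ℝ] ℝ} {c : ℝ}

theorem phi_Fil (hB : BundleOut F F1 F2 e φ φ1 φ2 c) {i : ℕ} {x : PR ι}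
    (hx : x ∈ Fil F1.S F2.S F1.n i) : φ (X e * x) = 0 := by
  induction hx using span_induction with
  | zero => simp
  | add a b _ _ ha hb => rw [mul_add, map_add, ha, hb, add_zero]
  | smul c a _ ha => rw [mul_smul_comm, map_smul, ha, smul_zero]
  | mem a ha =>
    obtain ⟨p, q, α, hα, β, hβ, h1, -, rfl⟩ := ha
    rw [← mul_assoc]
    exact hB.E1 p q α hα β hβ h1

theorem phi_Lead (hB : BundleOut F F1 F2 e φ φ1 φ2 c) {i : ℕ} {x α β : PR ι}
    (h : Lead F1.S F2.S F1.n i x α β) : φ (X e * x) = c * φ1 α * φ2 β := by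
  obtain ⟨h1, ⟨q, h2, -⟩, h4⟩ := h
  have h5 := phi_Fil hB h4
  rw [mul_sub, map_sub, sub_eq_zero, ← mul_assoc] at h5
  rw [h5, hB.E2 q α h1 β h2]

/-- Expanding a base coefficient along a Lefschetz family of the base. -/
theorem base_expand (hB : BundleOut F F1 F2 e φ φ1 φ2 c) {T : Type} {b : T → ℕ} {q : T → PR ι}
    {ℓ2 : PR ι} (hℓ2 : ℓ2 ∈ RS F2.S 1) (hq : Fam φ2 (RS F2.S) ℓ2 F2.n b q) {W : Submodule ℝ (PR ι)}
    (hW : ann φ ≤ W) {x : PR ι} {j : ℕ}
    (h : ∀ t v, b t + v = j → X e * x * (ℓ2 ^ v * q t) ∈ W) {β : PR ι} (hβ : β ∈ RS F2.S j) :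
    X e * x * β ∈ W := by
  have h1 : span ℝ {z | ∃ t v, b t + v = j ∧ z = ℓ2 ^ v * q t} ≤ RS F2.S j := by
    refine span_le.2 ?_
    rintro _ ⟨t, v, rfl, rfl⟩
    rw [add_comm]
    exact mul_mem_RS (pow_mem_RS hℓ2 v) (hq.mem t)
  have h2 : span ℝ {z | ∃ t v, b t + v = j ∧ z = ℓ2 ^ v * q t} ⊔ (RS F2.S j ⊓ ann φ2) ≤
      W.comap (LinearMap.mulLeft ℝ (X e * x)) := by
    refine sup_le (span_le.2 ?_) ?_
    · rintro _ ⟨t, v, h3, rfl⟩
      exact h t v h3
    · rintro z ⟨hz1, hz2⟩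
      have := ann_mul_right (hB.E3 j z hz1 hz2) x
      refine hW ?_
      rwa [LinearMap.mulLeft_apply, mul_right_comm]
  exact h2 (split_ann h1 (hq.span j) hβ)

variable {S I : Type} [Fintype I] [DecidableEq I] {L1 : PR ι} {a : S → ℕ} {p : S → PR ι}
  {d : I → ℕ} {ν ν' : I → PR ι}

/-- Combinations of the `ν'` of fibre degree `f` with base coefficients of degree `i - f`. -/
def NN (S2 : Finset ι) (n1 : ℕ) (d : I → ℕ) (ν' : I → PR ι) (f i : ℕ) : Submodule ℝ (PR ι) where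
  carrier := {x | ∃ β : I → PR ι, (∀ j, β j ∈ RS S2 (i - f)) ∧ (∀ j, n1 - d j ≠ f → β j = 0) ∧
    x = ∑ j, ν' j * β j}
  add_mem' := by
    rintro _ _ ⟨β, h1, h2, rfl⟩ ⟨β', h1', h2', rfl⟩
    refine ⟨β + β', fun j => add_mem (h1 j) (h1' j), fun j hj => by simp [h2 j hj, h2' j hj], ?_⟩
    simp [mul_add, Finset.sum_add_distrib]
  zero_mem' := ⟨0, fun j => zero_mem _, fun _ _ => rfl, by simp⟩
  smul_mem' := by
    rintro r _ ⟨β, h1, h2, rfl⟩
    refine ⟨r • β, fun j => smul_mem _ r (h1 j), fun j hj => by simp [h2 j hj], ?_⟩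
    simp [Finset.smul_sum]

/-- The corrected strings of fibre degree `f` with base coefficients. -/
noncomputable def UU (S2 : Finset ι) (n1 : ℕ) (a : S → ℕ) (hh : S → ℕ → PR ι) (f i : ℕ) :
    Submodule ℝ (PR ι) :=
  span ℝ {x | ∃ s u q, ∃ β ∈ RS S2 q, 2 * a s + u ≤ n1 ∧ a s + u = f ∧ f + q = i ∧ x = hh s u * β}

theorem Fil_succ_le (hB : BundleOut F F1 F2 e φ φ1 φ2 c)
    (hD : FibData φ1 F1.S F1.n L1 a p d ν ν') {hh : S → ℕ → PR ι}
    (h1 : ∀ s u, hh s u - L1 ^ u * p s ∈ Fil F1.S F2.S (a s + u) (a s + u)) (f i : ℕ)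
    {Z : Submodule ℝ (PR ι)} (hZ1 : UU F2.S F1.n a hh f i ≤ Z) (hZ2 : Fil F1.S F2.S f i ≤ Z)
    (hZ3 : ∀ x, X e * x ∈ ann φ → x ∈ Z) (hZ4 : NN F2.S F1.n d ν' f i ≤ Z) :
    Fil F1.S F2.S (f + 1) i ≤ Z := by
  refine span_le.2 ?_
  rintro _ ⟨r, q, α, hα, β, hβ, hr, hq, rfl⟩
  rcases Nat.lt_succ_iff_lt_or_eq.1 hr with hr | rfl
  · exact hZ2 (mem_Fil hα hβ hr hq)
  have hLp : ∀ s u, a s + u = r → L1 ^ u * p s ∈ RS F1.S r := by
    rintro s u rfl
    rw [add_comm]
    exact mul_mem_RS (pow_mem_RS hD.Lmem u) (hD.pmem s)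
  have hz : RS F1.S r ⊓ ann φ1 ≤ Z.comap (LinearMap.mulRight ℝ β) := by
    rintro z ⟨hz1, hz2⟩
    obtain ⟨γ, hγ1, hγ2⟩ := hB.E4 r z hz1 hz2
    have e1 : z * β = γ * β + (z - γ) * β := by ring
    rw [Submodule.mem_comap, LinearMap.mulRight_apply, e1]
    refine add_mem (hZ2 (hq ▸ Fil_mul_base hγ1 hβ)) (hZ3 _ ?_)
    rw [← mul_assoc]
    exact ann_mul_right hγ2 β
  have hA : span ℝ {x | ∃ s u, a s + u = r ∧ x = L1 ^ u * p s} ⊔
      span ℝ (ν' '' {j | F1.n - d j = r}) ≤ RS F1.S r := by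
    refine sup_le (span_le.2 ?_) (span_le.2 ?_)
    · rintro _ ⟨s, u, h, rfl⟩
      exact hLp s u h
    · rintro _ ⟨j, hj, rfl⟩
      exact (show F1.n - d j = r from hj) ▸ hD.νmem' j
  have hC : span ℝ {x | ∃ s u, a s + u = r ∧ x = L1 ^ u * p s} ⊔
      span ℝ (ν' '' {j | F1.n - d j = r}) ⊔ (RS F1.S r ⊓ ann φ1) ≤
      Z.comap (LinearMap.mulRight ℝ β) := by
    refine sup_le (sup_le (span_le.2 ?_) (span_le.2 ?_)) hz
    · rintro _ ⟨s, u, h, rfl⟩
      by_cases hu : 2 * a s + u ≤ F1.n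
      · have e1 : L1 ^ u * p s * β = hh s u * β - (hh s u - L1 ^ u * p s) * β := by ring
        rw [SetLike.mem_coe, Submodule.mem_comap, LinearMap.mulRight_apply, e1]
        refine sub_mem (hZ1 (subset_span ⟨s, u, q, β, hβ, hu, h, hq, rfl⟩)) (hZ2 ?_)
        have := Fil_mul_base (h1 s u) hβ
        rwa [h, hq] at this
      · refine hz ⟨hLp s u h, ?_⟩
        have := hD.deg s
        obtain ⟨w, rfl⟩ : ∃ w, u = w + (F1.n - 2 * a s + 1) := ⟨u - (F1.n - 2 * a s + 1), by omega⟩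
        rw [pow_add, mul_assoc]
        exact ann_mul_left (hD.top s) _
    · rintro _ ⟨j, hj, rfl⟩
      rw [SetLike.mem_coe, Submodule.mem_comap, LinearMap.mulRight_apply]
      refine hZ4 ⟨Pi.single j β, fun j' => ?_, fun j' hj' => ?_, ?_⟩
      · by_cases h : j' = j
        · subst h
          rw [Pi.single_eq_same, show i - r = q by omega]
          exact hβ
        · rw [Pi.single_eq_of_ne h]; exact zero_mem _
      · exact Pi.single_eq_of_ne (fun h : j' = j => hj' (by rw [h]; exact hj)) _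
      · rw [Finset.sum_eq_single j (fun j' _ h => by rw [Pi.single_eq_of_ne h, mul_zero])
          (fun h => absurd (Finset.mem_univ j) h), Pi.single_eq_same]
  exact hC (split_ann hA (hD.span r) hα)

theorem descend (hB : BundleOut F F1 F2 e φ φ1 φ2 c) (hG2 : GSub φ2 (HS ι) (RS F2.S))
    (hD : FibData φ1 F1.S F1.n L1 a p d ν ν') {hh : S → ℕ → PR ι}
    (h1 : ∀ s u, hh s u - L1 ^ u * p s ∈ Fil F1.S F2.S (a s + u) (a s + u))
    (h2 : ∀ s u j q, ∀ β ∈ RS F2.S q, φ (X e * hh s u * ν j * β) = 0) {i : ℕ}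
    {W : Submodule ℝ (PR ι)} (hW : ann φ ≤ W)
    (hU : ∀ s u q, ∀ β ∈ RS F2.S q, 2 * a s + u ≤ F1.n → a s + u + q = i →
      X e * hh s u * β ∈ W) (f : ℕ) :
    ∀ γ ∈ Fil F1.S F2.S f i, (∀ j q, ∀ β ∈ RS F2.S q, φ (X e * γ * ν j * β) = 0) →
      X e * γ ∈ W := by
  induction f with
  | zero => intro γ hγ _; rw [Fil_zero hγ, mul_zero]; exact zero_mem _
  | succ f ih =>
    intro γ hγ h0
    obtain ⟨x, hx, _, ⟨βs, hb1, hb2, rfl⟩, e1⟩ := mem_sup.1 (Fil_succ_le hB hD h1 f i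
      (Z := UU F2.S F1.n a hh f i ⊔ Fil F1.S F2.S f i ⊔ (ann φ).comap (LinearMap.mulLeft ℝ (X e)) ⊔
        NN F2.S F1.n d ν' f i) (le_sup_left.trans (le_sup_left.trans le_sup_left))
      (le_sup_right.trans (le_sup_left.trans le_sup_left))
      (fun x hx => mem_sup_left (mem_sup_right hx)) le_sup_right hγ)
    obtain ⟨x', hx', z, hz, rfl⟩ := mem_sup.1 hx
    obtain ⟨u, hu, g, hg, rfl⟩ := mem_sup.1 hx'
    replace hz : X e * z ∈ ann φ := hz
    have hu1 : X e * u ∈ W ∧ ∀ j q, ∀ β ∈ RS F2.S q, φ (X e * u * ν j * β) = 0 := by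
      clear hx hx' e1
      induction hu using span_induction with
      | zero => simp
      | add x y _ _ hx hy =>
        refine ⟨by rw [mul_add]; exact add_mem hx.1 hy.1, fun j q β hβ => ?_⟩
        rw [mul_add, add_mul, add_mul, map_add, hx.2 j q β hβ, hy.2 j q β hβ, add_zero]
      | smul r x _ hx =>
        refine ⟨by rw [mul_smul_comm]; exact smul_mem _ r hx.1, fun j q β hβ => ?_⟩
        rw [mul_smul_comm, smul_mul_assoc, smul_mul_assoc, map_smul, hx.2 j q β hβ, smul_zero]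
      | mem x hx =>
        obtain ⟨s, u, q', β', hβ', h3, h4, h5, rfl⟩ := hx
        refine ⟨by rw [← mul_assoc]; exact hU s u q' β' hβ' h3 (by omega), fun j q β hβ => ?_⟩
        rw [← h2 s u j _ _ (mul_mem_RS hβ' hβ)]
        congr 1
        ring
    have hsplit : ∀ j β, φ (X e * γ * ν j * β) = φ (X e * u * ν j * β) + φ (X e * g * ν j * β) +
        φ (X e * (∑ j', ν' j' * βs j') * ν j * β) := by
      intro j β
      have h3 : φ (X e * z * ν j * β) = 0 := by rw [mul_assoc]; exact hz _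
      rw [← e1, ← add_zero (φ (X e * g * ν j * β)), ← h3, ← map_add, ← map_add, ← map_add]
      congr 1
      ring
    have hβ0 : ∀ j, X e * βs j ∈ ann φ := by
      intro j
      by_cases hj : F1.n - d j = f
      swap
      · rw [hb2 j hj, mul_zero]; exact zero_mem _
      refine hB.E3 _ _ (hb1 j) (hG2.pd _ _ (hb1 j) fun q β hβ => ?_)
      have hd := hD.dle j
      have h3 := hsplit j β
      have h4 : φ (X e * g * ν j * β) = 0 := by
        have h5 := Fil_mul hg (mem_Fil (hD.νmem j) hβ (Nat.lt_succ_self _) rfl)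
        rw [show f + d j = F1.n by omega] at h5
        rw [← phi_Fil hB h5]
        congr 1
        ring
      have h5 : φ (X e * (∑ j', ν' j' * βs j') * ν j * β) = c * φ2 (βs j * β) := by
        rw [Finset.mul_sum, Finset.sum_mul, Finset.sum_mul, map_sum, Finset.sum_eq_single j]
        · have h6 := mul_mem_RS (hD.νmem j) (hD.νmem' j)
          rw [show d j + (F1.n - d j) = F1.n by omega] at h6
          have h7 := hB.E2 _ _ h6 _ (mul_mem_RS (hb1 j) hβ)
          rw [hD.dual, if_pos rfl, mul_one] at h7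
          rw [← h7]
          congr 1
          ring
        · intro j' _ hj'
          by_cases hj2 : F1.n - d j' = f
          · have h6 := mul_mem_RS (hD.νmem j) (hD.νmem' j')
            rw [show d j + (F1.n - d j') = F1.n by omega] at h6
            have h7 := hB.E2 _ _ h6 _ (mul_mem_RS (hb1 j') hβ)
            rw [hD.dual, if_neg hj'.symm, mul_zero, zero_mul] at h7
            rw [← h7]
            congr 1
            ring
          · simp [hb2 j' hj2]
        · exact fun h => absurd (Finset.mem_univ j) h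
      rw [h0 j q β hβ, hu1.2 j q β hβ, h4, h5] at h3
      have h8 : c * φ2 (βs j * β) = 0 := by linarith
      exact (mul_eq_zero.1 h8).resolve_left hB.hc.ne'
    have hN : X e * ∑ j', ν' j' * βs j' ∈ ann φ := by
      rw [Finset.mul_sum]
      refine sum_mem fun j _ => ?_
      rw [mul_left_comm]
      exact ann_mul_left (hβ0 j) _
    have hg1 := ih g hg fun j q β hβ => by
      have h3 := hsplit j β
      rw [h0 j q β hβ, hu1.2 j q β hβ, mul_assoc (X e * ∑ j', ν' j' * βs j'), hN _] at h3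
      linarith
    rw [← e1, mul_add, mul_add, mul_add]
    exact add_mem (add_mem (add_mem hu1.1 hg1) (hW hz)) (hW hN)

end Main

end FibP

open FibP in
theorem fib (_H : LinLib) (HL : LefLib) (H0 : Blow0Stmt) (H2 : Blow2Stmt) (H3 : Blow3Stmt)
    (HG : GSStmt) : FibStmt := by
  intro ι _ F F1 F2 e φ φ1 φ2 c S I _ _ _ L1 β0 ℓ ℓ2 a p d ν ν' V hBu hB hφ hφ1 hφ2 hG2 hD hβ0 hE
    hℓ hℓ2 hℓℓ hN hGV hVS hVℓ hVe hν hν' hV M hM
  classical
  have hdim := hBu.dim
  obtain ⟨m, b, q, hq⟩ := HL.numFam hφ2.gr hG2 (RS_le_HS 1 hℓ2)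
    (fun i x hx => add_comm 1 i ▸ mul_mem_RS hℓ2 hx) hN
  have hLp : ∀ s u, L1 ^ u * p s ∈ RS F1.S (a s + u) := fun s u =>
    add_comm u (a s) ▸ mul_mem_RS (pow_mem_RS hD.Lmem u) (hD.pmem s)
  choose hh hh1 hh2 using fun s u => HG hB hφ1 hφ2 hG2 hφ hdim hD.dle hD.νmem hD.νmem' hD.dual
    (a s + u) (L1 ^ u * p s) (hLp s u) (hD.pν s u)
  have h1 : ∀ s u, hh s u - L1 ^ u * p s ∈ Fil F1.S F2.S (a s + u) (a s + u) := by
    intro s u
    refine span_le.2 ?_ (hh1 s u)
    rintro _ ⟨j, r, γ, hγ, hr, hf, rfl⟩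
    exact mem_Fil (hD.νmem' j) hγ (by omega) hf
  have hlead : ∀ s u, Lead F1.S F2.S (a s + u) (a s + u) (hh s u) (L1 ^ u * p s) 1 := fun s u =>
    ⟨hLp s u, ⟨0, one_mem_RS, rfl⟩, by rw [mul_one]; exact h1 s u⟩
  have hy : ∀ s u t, Lead F1.S F2.S (a s + u) (a s + u + b t) (hh s u * q t) (L1 ^ u * p s)
      (q t) := fun s u t => by simpa using (hlead s u).mul (Lead.base (hq.mem t))
  have hL : Lead F1.S F2.S 1 1 (β0 - L1) (-L1) 1 :=
    ⟨neg_mem hD.Lmem, ⟨0, one_mem_RS, rfl⟩, by simpa using Fil_base (S1 := F1.S) hβ0⟩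
  have hcong : ∀ v (x : PR ι), X e * ℓ ^ v * x - X e * ℓ2 ^ v * x ∈ ann φ := fun v x => by
    rw [← sub_mul, ← mul_sub]
    exact ann_mul_right (pow_cong hℓℓ v) x
  have hA1 : ∀ s u t s' u' t' r m, φ (X e ^ (r + 1) * ℓ ^ m * (hh s u * q t) * (hh s' u' * q t')) =
      φ (X e * ((β0 - L1) ^ r * ℓ2 ^ m * (hh s u * q t) * (hh s' u' * q t'))) := by
    intro s u t s' u' t' r m
    have hE' : X e * (X e - (β0 - L1)) ∈ ann φ := by
      rwa [show X e - (β0 - L1) = X e + L1 - β0 by ring]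
    refine phi_cong ?_
    have := add_mem (hcong m (X e ^ r * (hh s u * q t) * (hh s' u' * q t')))
      (ann_mul_right (pow_cong hE' r) (ℓ2 ^ m * (hh s u * q t) * (hh s' u' * q t')))
    convert this using 1
    ring
  have hA1' : ∀ s u t s' u' t' r m, Lead F1.S F2.S (r + 0 + (a s + u) + (a s' + u'))
      (r + m + (a s + u + b t) + (a s' + u' + b t'))
      ((β0 - L1) ^ r * ℓ2 ^ m * (hh s u * q t) * (hh s' u' * q t'))
      ((-L1) ^ r * 1 * (L1 ^ u * p s) * (L1 ^ u' * p s')) (1 * ℓ2 ^ m * q t * q t') :=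
    fun s u t s' u' t' r m =>
      (((hL.pow r).mul (Lead.base (pow_mem_RS hℓ2 m))).mul (hy s u t)).mul (hy s' u' t')
  have hBD : BlowData φ (HS ι) V ℓ (X e) F.n (F1.n + 1) a b (fun s u t => hh s u * q t) c :=
    { gr := hφ.gr
      sub := hGV
      hℓ := hℓ
      he := isHomogeneous_X ℝ e
      ℓV := hVℓ
      eV := hVe
      ha := fun s => by have := hD.deg s; omega
      hb := fun t => by have := hq.deg t; omega
      hc := hB.hc
      ydeg := fun s u t _ => Fil_le_HS (hy s u t).mem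
      ey := fun s u t _ => hV _ _ (Fil_mono (by omega) (hy s u t).mem) fun j r β hβ => by
        rw [← hh2 s u j _ _ (mul_mem_RS (hq.mem t) hβ)]
        congr 1
        ring
      A1lt := fun s u t s' u' t' r m _ _ h => by
        rw [hA1]
        exact phi_Fil hB (Fil_mono (by omega) (hA1' s u t s' u' t' r m).mem)
      A1eq := fun s u t s' u' t' r m _ _ h => by
        have h3 := hA1' s u t s' u' t' r m
        rw [show r + 0 + (a s + u) + (a s' + u') = F1.n by omega] at h3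
        have e1 : (-L1) ^ r * 1 * (L1 ^ u * p s) * (L1 ^ u' * p s') =
            ((-1 : ℝ) ^ r) • (p s * p s' * L1 ^ (r + u + u')) := by
          rw [neg_pow, Algebra.smul_def, map_pow, map_neg, map_one]
          ring
        have e2 : 1 * ℓ2 ^ m * q t * q t' = q t * q t' * ℓ2 ^ m := by ring
        rw [hA1, phi_Lead hB h3, e1, e2, map_smul, smul_eq_mul]
        by_cases hs : s = s'
        swap
        · rw [hD.orth s s' _ hs, if_neg (fun h => hs h.1)]; simp
        by_cases ht : t = t'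
        swap
        · rw [hq.orth t t' _ ht, if_neg (fun h => ht h.2.1)]; simp
        subst hs ht
        have := hq.deg t
        by_cases hm : m + (F1.n + 1) + 2 * b t = F.n
        · rw [if_pos ⟨rfl, rfl, hm⟩, show r + u + u' = F1.n - 2 * a s by omega, hD.val,
            show m = F2.n - 2 * b t by omega, hq.val]
          ring
        · rw [if_neg (fun h => hm h.2.2), hφ2.deg (b t + b t + m) (by omega) _ (RS_le_HS _
            (mul_mem_RS (mul_mem_RS (hq.mem t) (hq.mem t)) (pow_mem_RS hℓ2 m))), mul_zero]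
      A2 := fun i α hα => by
        obtain ⟨γ, hγ1, hγ2⟩ := hB.E5 i α (hVS i hα)
        have e1 : X e * α = X e * γ + X e * (α - γ) := by ring
        rw [e1]
        refine add_mem (descend hB hG2 hD h1 hh2 le_sup_right ?_ _ γ hγ1 ?_) (mem_sup_right hγ2)
        · intro s u r β hβ h3 h4
          refine base_expand hB hℓ2 hq le_sup_right (fun t v h5 => ?_) hβ
          have e2 : X e * hh s u * (ℓ2 ^ v * q t) = X e * ℓ ^ v * (hh s u * q t) +
            -(X e * ℓ ^ v * (hh s u * q t) - X e * ℓ2 ^ v * (hh s u * q t)) := by ring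
          rw [e2]
          exact add_mem_sup (subset_span ⟨s, u, t, v, by omega, by omega, rfl⟩)
            (neg_mem (hcong v _))
        · intro j r β hβ
          rw [← hν i α hα j r β hβ]
          refine phi_cong ?_
          convert neg_mem (ann_mul_right hγ2 (ν j * β)) using 1
          ring
      A3 := fun s u t _ => by
        have := hq.deg t
        rw [show F.n - (F1.n + 1) - 2 * b t + 1 = F2.n - 2 * b t + 1 by omega]
        have h3 := hB.E3 _ _ (mul_mem_RS (pow_mem_RS hℓ2 _) (hq.mem t)) (hq.top t)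
        convert add_mem (hcong (F2.n - 2 * b t + 1) (hh s u * q t)) (ann_mul_right h3 (hh s u))
          using 1
        ring }
  have hMM : blowM φ V ℓ (X e) (F1.n + 1) a (fun s u t => hh s u * q t) = M := by
    funext i
    rw [hM i]
    have key : ∀ α ∈ V i, ∀ s u r, ∀ β ∈ RS F2.S r,
        φ (α * (X e * hh s u * β)) = φ (α * (X e * (L1 ^ u * p s) * β)) := by
      intro α hα s u r β hβ
      have h3 : ∀ x ∈ span ℝ {x | ∃ j r', ∃ γ ∈ RS F2.S r', 1 ≤ r' ∧ F1.n - d j + r' = a s + u ∧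
          x = ν' j * γ}, φ (α * (X e * x * β)) = 0 := by
        intro x hx
        induction hx using span_induction with
        | zero => simp
        | add x y _ _ hx hy => rw [mul_add, add_mul, mul_add, map_add, hx, hy, add_zero]
        | smul r x _ hx => rw [mul_smul_comm, smul_mul_assoc, mul_smul_comm, map_smul, hx, smul_zero]
        | mem x hx =>
          obtain ⟨j, r', γ, hγ, -, -, rfl⟩ := hx
          rw [← hν' i α hα j _ _ (mul_mem_RS hγ hβ)]
          congr 1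
          ring
      have h4 := h3 _ (hh1 s u)
      rwa [mul_sub, sub_mul, mul_sub, map_sub, sub_eq_zero] at h4
    have key2 : ∀ (α : PR ι) s u t v, φ (α * (X e * ℓ ^ v * (hh s u * q t))) =
        φ (α * (X e * hh s u * (ℓ2 ^ v * q t))) := by
      intro α s u t v
      refine phi_cong ?_
      convert ann_mul_left (hcong v (hh s u * q t)) α using 1
      ring
    ext α
    refine and_congr_right fun hα => ⟨fun h => ?_, fun h => ?_⟩
    · rintro _ ⟨s, u, r, β, hβ, h3, rfl⟩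
      rw [← key α hα s u r β hβ]
      have hW : ann φ ≤ LinearMap.ker (φ ∘ₗ LinearMap.mulLeft ℝ α) := fun z hz =>
        ann_apply (φ := φ) (ann_mul_left hz α)
      refine base_expand hB hℓ2 hq hW (fun t v _ => ?_) hβ
      change φ (α * (X e * hh s u * (ℓ2 ^ v * q t))) = 0
      rw [← key2]
      exact h _ ⟨s, u, t, v, by omega, rfl⟩
    · rintro _ ⟨s, u, t, v, h3, rfl⟩
      have h4 := mul_mem_RS (pow_mem_RS hℓ2 v) (hq.mem t)
      rw [key2, key α hα s u _ _ h4]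
      exact h _ ⟨s, u, _, _, h4, by omega, rfl⟩
  rw [← hMM]
  exact ⟨(H0 hBD).1, (H0 hBD).2.1, H2 hBD, H3 hBD⟩

end Pool.Agent.P.MP_cedf91_co
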