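import Pool.Agent.P.MP_cedf91_co.KFan

/-! Filtered Gram-Schmidt in a bundle. -/

namespace Pool.Agent.P.MP_cedf91_co

open Submodule Filter Topology MvPolynomial

theorem gs (H : LinLib) : GSStmt := by
  intro ι _ F F1 F2 e φ φ1 φ2 c I _ _ d ν ν' B _ h2 hG hφ hn hd hν hν' hdual f h hh horth
  set W : Submodule ℝ (PR ι) := span ℝ {x | ∃ i q, ∃ γ ∈ RS F2.S q, 1 ≤ q ∧
    F1.n - d i + q = f ∧ x = ν' i * γ} with hW
  have hWH : W ≤ HS ι f := by
    refine span_le.2 ?_
    rintro _ ⟨i, q, γ, hγ, -, rfl, rfl⟩
    exact IsHomogeneous.mul (RS_le_HS _ (hν' i)) (RS_le_HS _ hγ)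
  have hlow : ∀ i j g q, ∀ γ ∈ RS F2.S g, ∀ β ∈ RS F2.S q, d j < d i →
      φ (X e * (ν' i * γ) * ν j * β) = 0 := by
    intro i j g q γ hγ β hβ hlt
    have := B.E1 _ _ _ (mul_mem_RS (hν' i) (hν j)) _ (mul_mem_RS hγ hβ)
      (by have := hd i; omega)
    rw [← this]; congr 1; ring
  have heq : ∀ i j g q, ∀ γ ∈ RS F2.S g, ∀ β ∈ RS F2.S q, d j = d i →
      φ (X e * (ν' i * γ) * ν j * β) = if j = i then c * φ2 (γ * β) else 0 := by
    intro i j g q γ hγ β hβ he
    have hm := mul_mem_RS (hν j) (hν' i)
    rw [show d j + (F1.n - d i) = F1.n by have := hd i; omega] at hm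
    have := B.E2 _ _ hm _ (mul_mem_RS hγ hβ)
    rw [hdual] at this
    rw [show X e * (ν' i * γ) * ν j * β = X e * (ν j * ν' i) * (γ * β) by ring, this]
    split_ifs <;> simp
  have main : ∀ D, ∃ h', h' - h ∈ W ∧
      ∀ i, d i < D → ∀ q, ∀ β ∈ RS F2.S q, φ (X e * h' * ν i * β) = 0 := by
    intro D
    induction D with
    | zero => exact ⟨h, by simp, fun i hi => absurd hi (Nat.not_lt_zero _)⟩
    | succ D ih =>
      obtain ⟨h', hW', hort⟩ := ih
      have hH : h' ∈ HS ι f := by
        have := add_mem (hWH hW') (RS_le_HS _ hh)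
        rwa [sub_add_cancel] at this
      have hdeg : ∀ i q, ∀ β ∈ RS F2.S q, f + d i + q ≠ F1.n + F2.n →
          φ (X e * h' * ν i * β) = 0 := by
        intro i q β hβ hne
        exact hφ.deg (1 + f + d i + q) (by omega) _
          ((((isHomogeneous_X ℝ e).mul hH).mul (RS_le_HS _ (hν i))).mul (RS_le_HS _ hβ))
      by_cases hD : f + D ≤ F1.n
      · refine ⟨h', hW', fun i hi q β hβ => ?_⟩
        rcases Nat.lt_succ_iff_lt_or_eq.1 hi with hi | hi
        · exact hort i hi q β hβ
        have e1 : φ (X e * h * ν i * β) = 0 := by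
          have hm := mul_mem_RS hh (hν i)
          rw [mul_assoc (X e)]
          rcases lt_or_eq_of_le hD with hlt | he
          · exact B.E1 _ _ _ hm _ hβ (by omega)
          · rw [hi, he] at hm
            rw [B.E2 _ _ hm _ hβ, horth]; simp
        have e2 : ∀ w ∈ W, φ (X e * w * ν i * β) = 0 := by
          intro w hw
          induction hw using span_induction with
          | mem x hx =>
            obtain ⟨j, g, γ, hγ, hg, hf, rfl⟩ := hx
            exact hlow j i g q γ hγ β hβ (by have := hd j; omega)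
          | zero => simp
          | add x y _ _ hx hy => rw [mul_add, add_mul, add_mul, map_add, hx, hy, add_zero]
          | smul a x _ hx =>
            rw [mul_smul_comm, smul_mul_assoc, smul_mul_assoc, map_smul, hx, smul_zero]
        have e3 := e2 _ hW'
        rw [mul_sub, sub_mul, sub_mul, map_sub, e1, sub_zero] at e3
        exact e3
      · have hγ : ∀ i, ∃ γ ∈ RS F2.S (f + D - F1.n), d i = D → ∀ q, ∀ β ∈ RS F2.S q,
            φ (X e * h' * ν i * β) = c * φ2 (γ * β) := by
          intro i
          by_cases hg : f + D - F1.n ≤ F2.n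
          · obtain ⟨γ, hγ, hrep⟩ := H.rep (i := f + D - F1.n) (j := F2.n - (f + D - F1.n))
              h2.gr hG (by omega) (c⁻¹ • φ ∘ₗ LinearMap.mulLeft ℝ (X e * h' * ν i))
              (fun β hβ ha => by
                have := ann_apply (ann_mul_right (B.E3 _ β hβ ha) (h' * ν i))
                simp only [LinearMap.smul_apply, LinearMap.comp_apply, LinearMap.mulLeft_apply]
                rw [show X e * h' * ν i * β = X e * β * (h' * ν i) by ring, this, smul_zero])
            refine ⟨γ, hγ, fun hi q β hβ => ?_⟩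
            by_cases hq : q = F2.n - (f + D - F1.n)
            · subst hq
              rw [← hrep β hβ]
              simp only [LinearMap.smul_apply, LinearMap.comp_apply, LinearMap.mulLeft_apply,
                smul_eq_mul]
              rw [← mul_assoc, mul_inv_cancel₀ B.hc.ne', one_mul]
            · rw [hdeg i q β hβ (by omega), h2.deg (f + D - F1.n + q) (by omega) _
                (IsHomogeneous.mul (RS_le_HS _ hγ) (RS_le_HS _ hβ)), mul_zero]
          · exact ⟨0, zero_mem _, fun hi q β hβ => by rw [hdeg i q β hβ (by omega)]; simp⟩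
        choose γ hγm hγ using hγ
        refine ⟨h' - ∑ i ∈ Finset.univ.filter (fun i => d i = D), ν' i * γ i, ?_,
          fun j hj q β hβ => ?_⟩
        · rw [sub_right_comm]
          refine sub_mem hW' (Submodule.sum_mem _ fun i hi => subset_span ?_)
          have hi' := (Finset.mem_filter.1 hi).2
          exact ⟨i, _, γ i, hγm i, by omega, by have := hd i; omega, rfl⟩
        · rw [mul_sub, sub_mul, sub_mul, map_sub, Finset.mul_sum, Finset.sum_mul, Finset.sum_mul,
            map_sum]
          rcases Nat.lt_succ_iff_lt_or_eq.1 hj with hj | hj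
          · rw [hort j hj q β hβ, Finset.sum_eq_zero, sub_zero]
            intro i hi
            exact hlow i j _ q _ (hγm i) β hβ (by rw [(Finset.mem_filter.1 hi).2]; exact hj)
          · rw [hγ j hj q β hβ, Finset.sum_congr rfl fun i hi => heq i j _ q _ (hγm i) β hβ
              (by rw [(Finset.mem_filter.1 hi).2]; exact hj), Finset.sum_ite_eq,
              if_pos (by simpa using hj), sub_self]
  obtain ⟨h', h1, h3⟩ := main (F1.n + 1)
  exact ⟨h', h1, fun i => h3 i (Nat.lt_succ_of_le (hd i))⟩

end Pool.Agent.P.MP_cedf91_co
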