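import Pool.Agent.P.MP_cedf91_co.KDefs

/-! Lefschetz decomposition and deformation. -/

namespace Pool.Agent.P.MP_cedf91_co

open Submodule Filter Topology

namespace LefP

variable {R : Type} [CommRing R] [Algebra ℝ R] {φ : R →ₗ[ℝ] ℝ}

theorem posGe_zero (w : R) (U : Submodule ℝ R) : PosGe φ w U 0 :=
  ⟨Fin.elim0, fun i => i.elim0, fun c hc => absurd (Subsingleton.elim c 0) hc⟩

theorem prim_pos (H : LinLib) {V : ℕ → Submodule ℝ R} {ℓ : R} {n i : ℕ} {x : R} (hS : Stab V ℓ)
    (hN : Num φ V ℓ n) (hi : 2 * i ≤ n) (hx : x ∈ V i) (hp : ℓ ^ (n - 2 * i + 1) * x ∈ ann φ)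
    (hxa : x ∉ ann φ) : 0 < φ (wt ℓ n i * x ^ 2) := by
  obtain ⟨a, b, b0, hsig, hba⟩ := hN
  by_contra hQ
  push Not at hQ
  have hc0 : ∀ c : ℝ, c • x ∈ ann φ → c = 0 := by
    intro c hc
    by_contra h
    apply hxa
    have := (ann φ).smul_mem c⁻¹ hc
    rwa [smul_smul, inv_mul_cancel₀ h, one_smul] at this
  cases i with
  | zero =>
    have := H.sylvSemi (I := Unit) (fun _ => x) (hsig 0 hi).1 (hsig 0 hi).2.1 (fun _ => hx)
      (fun c => by
        simp only [Finset.univ_unique, Finset.sum_singleton, smul_pow, mul_smul_comm, map_smul,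
          smul_eq_mul]
        exact mul_nonpos_of_nonneg_of_nonpos (sq_nonneg _) hQ)
      (fun c hc => by
        simp only [Finset.univ_unique, Finset.sum_singleton] at hc
        funext u
        exact hc0 _ hc)
    simp [b0] at this
  | succ j =>
    obtain ⟨v, hv, hpos⟩ := (hsig j (by omega)).2.1
    have hw : wt ℓ n (j + 1) * ℓ ^ 2 = -wt ℓ n j := by
      unfold wt
      rw [show n - 2 * j = n - 2 * (j + 1) + 2 by omega, pow_add ℓ, pow_succ (-1 : ℝ) j,
        smul_mul_assoc, mul_neg_one, neg_smul]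
    have hcross : ∀ y, φ (wt ℓ n (j + 1) * (x * (ℓ * y))) = 0 := by
      intro y
      have : wt ℓ n (j + 1) * (x * (ℓ * y)) =
          ((-1 : ℝ) ^ (j + 1)) • (ℓ ^ (n - 2 * (j + 1) + 1) * x * y) := by
        unfold wt
        rw [smul_mul_assoc, pow_succ ℓ]
        congr 1
        ring
      rw [this, map_smul, hp y, smul_zero]
    have hsq : ∀ y, φ (wt ℓ n (j + 1) * (ℓ * y * (ℓ * y))) = -φ (wt ℓ n j * y ^ 2) := by
      intro y
      rw [← map_neg, ← neg_mul, ← hw]
      congr 1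
      ring
    have hnn : ∀ c : Fin (a j) → ℝ, 0 ≤ φ (wt ℓ n j * (∑ k, c k • v k) ^ 2) := by
      intro c
      by_cases hc : c = 0
      · simp [hc]
      · exact (hpos c hc).le
    have hsum : ∀ c : Option (Fin (a j)) → ℝ,
        ∑ o, c o • (o.elim x fun k => ℓ * v k) = c none • x + ℓ * ∑ k, c (some k) • v k := by
      intro c
      rw [Fintype.sum_option, Finset.mul_sum]
      simp
    have := H.sylvSemi (I := Option (Fin (a j))) (fun o => o.elim x fun k => ℓ * v k)
      (hsig _ hi).1 (hsig _ hi).2.1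
      (fun o => by
        cases o with
        | none => exact hx
        | some k => exact hS j _ (hv k))
      (fun c => by
        rw [hsum]
        set y := ∑ k, c (some k) • v k with hy
        have e : wt ℓ n (j + 1) * (c none • x + ℓ * y) ^ 2 =
            (c none ^ 2) • (wt ℓ n (j + 1) * x ^ 2) +
              (2 * c none) • (wt ℓ n (j + 1) * (x * (ℓ * y))) +
              wt ℓ n (j + 1) * (ℓ * y * (ℓ * y)) := by
          simp only [Algebra.smul_def, map_mul, map_pow, map_ofNat]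
          ring
        rw [e, map_add, map_add, map_smul, map_smul, hcross, hsq, smul_zero, add_zero, smul_eq_mul]
        have h1 := hnn fun k => c (some k)
        nlinarith [mul_nonneg (sq_nonneg (c none)) (neg_nonneg.2 hQ)])
      (fun c hc => by
        rw [hsum] at hc
        set y := ∑ k, c (some k) • v k with hy
        have h1 := hc (wt ℓ n (j + 1) * (ℓ * y))
        have e : (c none • x + ℓ * y) * (wt ℓ n (j + 1) * (ℓ * y)) =
            c none • (wt ℓ n (j + 1) * (x * (ℓ * y))) + wt ℓ n (j + 1) * (ℓ * y * (ℓ * y)) := by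
          simp only [Algebra.smul_def]
          ring
        rw [e, map_add, map_smul, hcross, hsq, smul_zero, zero_add, neg_eq_zero] at h1
        have h2 : (fun k => c (some k)) = 0 := by
          by_contra h
          exact (hpos _ h).ne' h1
        have h3 : y = 0 := Finset.sum_eq_zero fun k _ => by rw [congrFun h2 k]; simp
        rw [h3, mul_zero, add_zero] at hc
        funext o
        cases o with
        | none => exact hc0 _ hc
        | some k => exact congrFun h2 k)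
    have h4 := hba j hi
    simp only [Fintype.card_option, Fintype.card_fin] at this
    omega

theorem prim (H : LinLib) {V : ℕ → Submodule ℝ R} {ℓ : R} {n i : ℕ} {x : R} (hS : Stab V ℓ)
    (hN : Num φ V ℓ n) (hi : 2 * i ≤ n) (hx : x ∈ V i) (hp : ℓ ^ (n - 2 * i + 1) * x ∈ ann φ) :
    0 ≤ φ (wt ℓ n i * x ^ 2) ∧ (φ (wt ℓ n i * x ^ 2) = 0 → x ∈ ann φ) := by
  by_cases hxa : x ∈ ann φ
  · refine ⟨le_of_eq ?_, fun _ => hxa⟩
    rw [sq, ← mul_assoc]
    exact (ann_apply (ann_mul_left hxa _)).symm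
  · have := prim_pos H hS hN hi hx hp hxa
    exact ⟨this.le, fun h => absurd h this.ne'⟩

theorem rankOne {V : ℕ → Submodule ℝ R} {L : R} {n : ℕ} (hL : ∀ i, L ^ i ∈ V i)
    (hV : ∀ i, V i ≤ span ℝ {L ^ i} ⊔ ann φ) (hpos : 0 < φ (L ^ n)) : Num φ V L n := by
  have hspan : ∀ i, SpanLe φ (V i) 1 := fun i =>
    ⟨fun _ => L ^ i, by rw [Set.range_const]; exact hV i⟩
  have hone : ∀ i, 2 * i ≤ n → ∀ w : R, w = L ^ (n - 2 * i) → PosGe φ w (V i) 1 := by
    intro i hi w hw
    refine ⟨fun _ => L ^ i, fun _ => hL i, fun c hc => ?_⟩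
    have h0 : c 0 ≠ 0 := fun h => hc (funext fun k => by rw [Subsingleton.elim k 0]; exact h)
    have e : L ^ (n - 2 * i) * (L ^ i) ^ 2 = L ^ n := by
      rw [← pow_mul, ← pow_add]
      congr 1
      omega
    simp only [Finset.univ_unique, Finset.sum_singleton, smul_pow, mul_smul_comm, map_smul,
      smul_eq_mul, hw, e]
    exact mul_pos (pow_pos (abs_pos.2 h0) 2 |>.trans_eq (sq_abs _)) hpos
  refine ⟨fun i => if Even i then 1 else 0, fun i => if Even i then 0 else 1, by simp,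
    fun i hi => ?_, fun i _ => ?_⟩
  · by_cases h : Even i
    · simp only [h, if_true]
      exact ⟨hspan i, hone i hi _ (by simp [wt, h.neg_one_pow]), posGe_zero _ _⟩
    · simp only [h, if_false]
      exact ⟨hspan i, posGe_zero _ _,
        hone i hi _ (by simp [wt, (Nat.not_even_iff_odd.1 h).neg_one_pow])⟩
  · by_cases h : Even i <;> simp [h, Nat.even_add_one]

theorem cont_pow (ℓ0 ℓ1 : R) (m : ℕ) :
    ∀ z : R, Continuous fun t : ℝ => φ (((1 - t) • ℓ0 + t • ℓ1) ^ m * z) := by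
  induction m with
  | zero => intro z; simpa using continuous_const
  | succ m ih =>
    intro z
    have e : (fun t : ℝ => φ (((1 - t) • ℓ0 + t • ℓ1) ^ (m + 1) * z)) = fun t : ℝ =>
        (1 - t) * φ (((1 - t) • ℓ0 + t • ℓ1) ^ m * (ℓ0 * z)) +
          t * φ (((1 - t) • ℓ0 + t • ℓ1) ^ m * (ℓ1 * z)) := by
      funext t
      rw [pow_succ, mul_assoc, add_mul, mul_add, map_add, smul_mul_assoc, smul_mul_assoc,
        mul_smul_comm, mul_smul_comm, map_smul, map_smul, smul_eq_mul, smul_eq_mul]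
    rw [e]
    exact ((continuous_const.sub continuous_id).mul (ih _)).add (continuous_id.mul (ih _))

theorem open_pos (H : LinLib) {U : Submodule ℝ R} {w : ℝ → R}
    (hw : ∀ z, Continuous fun t => φ (w t * z)) {t0 : ℝ} {k : ℕ} (h : PosGe φ (w t0) U k) :
    ∀ᶠ t in 𝓝 t0, PosGe φ (w t) U k := by
  obtain ⟨v, hv, hpos⟩ := h
  have := H.openPos (φ := φ) (U := U) (𝓝 t0) w (fun _ => v) (fun i j => φ (w t0 * v i * v j))
    (fun _ i => hv i)
    (fun i j => by
      simp only [mul_assoc]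
      exact (hw (v i * v j)).continuousAt)
    (fun c hc => by
      refine (hpos c hc).trans_eq ?_
      rw [sq, Finset.sum_mul_sum, Finset.mul_sum, map_sum]
      refine Finset.sum_congr rfl fun i _ => ?_
      rw [Finset.mul_sum, map_sum]
      refine Finset.sum_congr rfl fun j _ => ?_
      rw [smul_mul_smul_comm, mul_smul_comm, map_smul, smul_eq_mul, mul_assoc (w t0)])
  simpa using this

theorem sig_unique (H : LinLib) {U : Submodule ℝ R} {w : R} {a b a' b' : ℕ}
    (h : Sig φ w U a b) (h' : Sig φ w U a' b') : a = a' ∧ b = b' := by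
  have h1 := H.sylv h.1 h'.2.1 h.2.2
  have h2 := H.sylv h.1 h.2.1 h'.2.2
  have h3 := H.sylv h'.1 h.2.1 h'.2.2
  have h4 := H.sylv h'.1 h'.2.1 h.2.2
  omega

theorem deform (H : LinLib) {V : ℕ → Submodule ℝ R} {ℓ0 ℓ1 : R} {n : ℕ}
    (hnd : ∀ t ∈ Set.Icc (0 : ℝ) 1, ∀ i, 2 * i ≤ n →
      Nondeg φ (wt ((1 - t) • ℓ0 + t • ℓ1) n i) (V i)) (hN : Num φ V ℓ0 n) : Num φ V ℓ1 n := by
  obtain ⟨a, b, b0, hsig, hba⟩ := hN
  refine ⟨a, b, b0, fun i hi => ?_, hba⟩
  set w : ℝ → R := fun t => wt ((1 - t) • ℓ0 + t • ℓ1) n i with hw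
  have hc : ∀ z, Continuous fun t => φ (w t * z) := by
    intro z
    simp only [hw, wt, smul_mul_assoc, map_smul, smul_eq_mul]
    exact continuous_const.mul (cont_pow ℓ0 ℓ1 _ z)
  have hc' : ∀ z, Continuous fun t => φ (-w t * z) := by
    intro z
    simp only [neg_mul, map_neg]
    exact (hc z).neg
  have key := isPreconnected_Icc.induction₂' (s := Set.Icc (0 : ℝ) 1)
    (fun s t => ∀ p q, Sig φ (w s) (V i) p q → Sig φ (w t) (V i) p q)
    (fun s hs => by
      obtain ⟨p, q, hpq⟩ := H.exSig (hsig i hi).1 (hnd s hs i hi)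
      have h1 := open_pos H hc hpq.2.1
      have h2 := open_pos (w := fun t => -w t) H hc' hpq.2.2
      refine ((h1.and h2).mono fun t ht => ?_).filter_mono nhdsWithin_le_nhds
      have h3 : Sig φ (w t) (V i) p q := ⟨hpq.1, ht.1, ht.2⟩
      constructor
      · intro p' q' h
        obtain ⟨rfl, rfl⟩ := sig_unique H hpq h
        exact h3
      · intro p' q' h
        obtain ⟨rfl, rfl⟩ := sig_unique H h3 h
        exact hpq)
    (fun _ _ _ _ _ _ h1 h2 p q h => h2 p q (h1 p q h))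
    (x := 0) (y := 1) ⟨le_rfl, zero_le_one⟩ ⟨zero_le_one, le_rfl⟩ (a i) (b i)
    (by simpa [hw] using hsig i hi)
  simpa [hw] using key

theorem fam_reindex {V : ℕ → Submodule ℝ R} {ℓ : R} {n : ℕ} {S T : Type} (e : T ≃ S)
    {a : S → ℕ} {p : S → R} (h : Fam φ V ℓ n a p) :
    Fam φ V ℓ n (fun t => a (e t)) (fun t => p (e t)) := by
  refine ⟨fun t => h.mem _, fun t => h.deg _, fun t => h.val _,
    fun s t m hst => h.orth _ _ m fun h' => hst (e.injective h'), fun t => h.top _, fun i => ?_⟩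
  refine (h.span i).trans (sup_le_sup_right (span_mono ?_) _)
  rintro x ⟨s, u, h1, h2⟩
  exact ⟨e.symm s, u, by simpa using h1, by simpa using h2⟩

theorem numFam (H : LinLib) {𝒜 V : ℕ → Submodule ℝ R} {ℓ : R} {n : ℕ} (hG : Gr φ 𝒜 n)
    (hV : GSub φ 𝒜 V) (hℓ : ℓ ∈ 𝒜 1) (hS : Stab V ℓ) (hN : Num φ V ℓ n) :
    ∃ (m : ℕ) (a : Fin m → ℕ) (p : Fin m → R), Fam φ V ℓ n a p := by
  classical
  have hpowA : ∀ m, ℓ ^ m ∈ 𝒜 m := by
    intro m
    induction m with
    | zero => simpa using hG.one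
    | succ m ih => rw [pow_succ]; exact hG.mul ih hℓ
  have hpowV : ∀ m i, ∀ x ∈ V i, ℓ ^ m * x ∈ V (i + m) := by
    intro m i x hx
    induction m with
    | zero => simpa using hx
    | succ m ih => rw [pow_succ', mul_assoc]; exact hS _ _ ih
  have hhigh : ∀ i, n < i → ∀ x ∈ V i, x ∈ ann φ := fun i hi x hx =>
    hV.pd i x hx fun j y hy => hG.deg (i + j) (by omega) _ (hG.mul (hV.le i hx) (hV.le j hy))
  have hsq : ∀ j : ℕ, ((-1 : ℝ) ^ j) * (-1) ^ j = 1 := fun j => by
    rw [← mul_pow]; simp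
  have hlef : ∀ j, 2 * j ≤ n → ∀ z ∈ V (n - j), ∃ u ∈ V j, z - ℓ ^ (n - 2 * j) * u ∈ ann φ := by
    intro j hj z hz
    obtain ⟨a, b, -, hsig, -⟩ := hN
    obtain ⟨u, hu, h⟩ := H.proj (hsig j hj).1 (H.sigNondeg (hsig j hj))
      (((-1 : ℝ) ^ j) • φ ∘ₗ LinearMap.mulLeft ℝ z) (fun x _ hx => by
        simp [ann_apply (ann_mul_left hx z)])
    refine ⟨u, hu, ?_⟩
    have hm : z - ℓ ^ (n - 2 * j) * u ∈ V (n - j) := by
      refine sub_mem hz ?_
      have := hpowV (n - 2 * j) j u hu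
      rwa [show j + (n - 2 * j) = n - j by omega] at this
    refine hV.pd _ _ hm fun j' y hy => ?_
    by_cases hjj : j' = j
    · subst hjj
      have h1 := h y hy
      simp only [LinearMap.smul_apply, LinearMap.comp_apply, LinearMap.mulLeft_apply, wt,
        smul_mul_assoc, map_smul, smul_eq_mul] at h1
      rw [sub_mul, map_sub, mul_left_cancel₀ (pow_ne_zero _ (by norm_num)) h1, sub_self]
    · exact hG.deg (n - j + j') (by omega) _ (hG.mul (hV.le _ hm) (hV.le _ hy))
  set P : ℕ → Submodule ℝ R :=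
    fun i => V i ⊓ (ann φ).comap (LinearMap.mulLeft ℝ (ℓ ^ (n - 2 * i + 1))) with hP
  have memP : ∀ i x, x ∈ P i ↔ x ∈ V i ∧ ℓ ^ (n - 2 * i + 1) * x ∈ ann φ := fun i x => Iff.rfl
  have hex : ∀ i : Fin (n / 2 + 1), ∃ (m : ℕ) (f : Fin m → R), (∀ k, f k ∈ P i) ∧
      (∀ k k', k ≠ k' → φ (f k * f k' * ℓ ^ (n - 2 * i)) = 0) ∧
      (∀ k, φ (f k * f k * ℓ ^ (n - 2 * i)) = (-1) ^ (i : ℕ)) ∧
      P i ≤ span ℝ (Set.range f) ⊔ ann φ := by
    intro i
    have hi : 2 * (i : ℕ) ≤ n := by omega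
    obtain ⟨k0, g, hg⟩ := hV.fin i
    obtain ⟨m, f, h1, h2, h3, h4⟩ := H.diag (φ := φ) (w := wt ℓ n i) (U := P i) (k := k0)
      ⟨g, inf_le_left.trans hg⟩ (fun x hx h => (prim H hS hN hi hx.1 hx.2).2 (by
        rw [sq, ← mul_assoc]; exact h x hx))
    have hpos : ∀ k, 0 < φ (wt ℓ n i * f k * f k) := by
      intro k
      have := (prim H hS hN hi (h1 k).1 (h1 k).2).1
      rw [sq, ← mul_assoc] at this
      exact this.lt_of_ne' (h3 k)
    have hrel : ∀ x y : R, φ (x * y * ℓ ^ (n - 2 * i)) = (-1) ^ (i : ℕ) * φ (wt ℓ n i * x * y) := by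
      intro x y
      simp only [wt, smul_mul_assoc, map_smul, smul_eq_mul]
      rw [← mul_assoc, hsq, one_mul]
      congr 1
      ring
    refine ⟨m, fun k => (√(φ (wt ℓ n i * f k * f k)))⁻¹ • f k, fun k => (P i).smul_mem _ (h1 k),
      fun k k' hk => ?_, fun k => ?_, h4.trans (sup_le_sup_right (span_le.2 ?_) _)⟩
    · rw [hrel]
      simp only [mul_smul_comm, smul_mul_assoc, map_smul, h2 k k' hk, smul_zero, mul_zero]
    · rw [hrel]
      simp only [mul_smul_comm, smul_mul_assoc, map_smul, smul_eq_mul]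
      have h5 := Real.mul_self_sqrt (hpos k).le
      have h6 := (Real.sqrt_pos.2 (hpos k)).ne'
      set r := √(φ (wt ℓ n i * f k * f k))
      rw [← h5]
      field_simp
    · rintro _ ⟨k, rfl⟩
      have h6 := (Real.sqrt_pos.2 (hpos k)).ne'
      have : f k = √(φ (wt ℓ n i * f k * f k)) • ((√(φ (wt ℓ n i * f k * f k)))⁻¹ • f k) := by
        rw [smul_smul, mul_inv_cancel₀ h6, one_smul]
      rw [this]
      exact smul_mem _ _ (subset_span ⟨k, rfl⟩)
  choose m f hfP hfo hfv hfs using hex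
  set a : (Σ i : Fin (n / 2 + 1), Fin (m i)) → ℕ := fun s => (s.1 : ℕ) with ha
  set p : (Σ i : Fin (n / 2 + 1), Fin (m i)) → R := fun s => f s.1 s.2 with hp
  have hdeg : ∀ s, 2 * a s ≤ n := fun s => by
    have := s.1.2
    simp only [ha]
    omega
  have hlt : ∀ s t m', a s < a t → a s + a t + m' = n → φ (p s * p t * ℓ ^ m') = 0 := by
    intro s t m' hst hm
    have h1 := (hfP t.1 t.2).2 (p s * ℓ ^ (m' - (n - 2 * a t + 1)))
    have h2 := hdeg t
    rw [← h1]
    congr 1
    have : ℓ ^ m' = ℓ ^ (n - 2 * a t + 1) * ℓ ^ (m' - (n - 2 * a t + 1)) := by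
      rw [← pow_add]
      congr 1
      omega
    rw [this]
    simp only [LinearMap.mulLeft_apply, ha, hp]
    ring
  set W : ℕ → Submodule ℝ R :=
    fun i => span ℝ {x | ∃ s u, a s + u = i ∧ x = ℓ ^ u * p s} ⊔ ann φ with hW
  have hWpow : ∀ r j, ∀ x ∈ W j, ℓ ^ r * x ∈ W (j + r) := by
    intro r j x hx
    obtain ⟨y, hy, z, hz, rfl⟩ := mem_sup.1 hx
    rw [mul_add]
    refine add_mem (mem_sup_left ?_) (mem_sup_right (ann_mul_left hz _))
    have : span ℝ {x | ∃ s u, a s + u = j ∧ x = ℓ ^ u * p s} ≤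
        (span ℝ {x | ∃ s u, a s + u = j + r ∧ x = ℓ ^ u * p s}).comap
          (LinearMap.mulLeft ℝ (ℓ ^ r)) := by
      refine span_le.2 ?_
      rintro _ ⟨s, u, h1, rfl⟩
      refine subset_span ⟨s, u + r, by omega, ?_⟩
      simp only [LinearMap.mulLeft_apply]
      ring
    exact this hy
  have hPW : ∀ i, 2 * i ≤ n → P i ≤ W i := by
    intro i hi
    refine (hfs ⟨i, by omega⟩).trans (sup_le_sup_right (span_mono ?_) _)
    rintro _ ⟨k, rfl⟩
    exact ⟨⟨⟨i, by omega⟩, k⟩, 0, rfl, by simp [hp]⟩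
  have hlow : ∀ i, 2 * i ≤ n → V i ≤ W i := by
    intro i
    induction i with
    | zero =>
      intro hi x hx
      exact hPW 0 hi ⟨hx, hhigh _ (by omega) _ (hpowV _ 0 x hx)⟩
    | succ j ih =>
      intro hi x hx
      have h1 := hpowV (n - 2 * (j + 1) + 1) _ x hx
      rw [show j + 1 + (n - 2 * (j + 1) + 1) = n - j by omega] at h1
      obtain ⟨u, hu, h2⟩ := hlef j (by omega) _ h1
      have h3 : x - ℓ * u ∈ P (j + 1) := by
        refine (memP _ _).2 ⟨sub_mem hx (hS j u hu), ?_⟩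
        rw [show n - 2 * j = n - 2 * (j + 1) + 1 + 1 by omega, pow_succ ℓ (n - 2 * (j + 1) + 1),
          mul_assoc, ← mul_sub] at h2
        exact h2
      have h4 := hWpow 1 j u (ih (by omega) hu)
      rw [pow_one] at h4
      simpa using add_mem (hPW _ hi h3) h4
  have hF : Fam φ V ℓ n a p := by
    refine ⟨fun s => (hfP s.1 s.2).1, hdeg, fun s => hfv s.1 s.2, fun s t m' hst => ?_,
      fun s => (hfP s.1 s.2).2, fun i => ?_⟩
    · by_cases hd : a s + a t + m' = n
      · rcases lt_trichotomy (a s) (a t) with h | h | h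
        · exact hlt s t m' h hd
        · obtain ⟨i, k⟩ := s
          obtain ⟨i', k'⟩ := t
          obtain rfl : i = i' := Fin.ext h
          have h1 : m' = n - 2 * (i : ℕ) := by
            simp only [ha] at hd
            omega
          rw [h1]
          exact hfo i k k' fun h' => hst (by rw [h'])
        · rw [mul_comm (p s)]
          exact hlt t s m' h (by omega)
      · exact hG.deg _ hd _ (hG.mul (hG.mul (hV.le _ (hfP s.1 s.2).1) (hV.le _ (hfP t.1 t.2).1))
          (hpowA m'))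
    · show V i ≤ W i
      by_cases h1 : 2 * i ≤ n
      · exact hlow i h1
      · by_cases h2 : n < i
        · exact fun x hx => mem_sup_right (hhigh i h2 x hx)
        · intro x hx
          obtain ⟨u, hu, h3⟩ := hlef (n - i) (by omega) x
            (by rwa [show n - (n - i) = i by omega])
          have h4 := hWpow (n - 2 * (n - i)) _ u (hlow _ (by omega) hu)
          rw [show n - i + (n - 2 * (n - i)) = i by omega] at h4
          have h5 : x - ℓ ^ (n - 2 * (n - i)) * u ∈ W i := mem_sup_right h3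
          have h6 := add_mem h5 h4
          rwa [sub_add_cancel] at h6
  exact ⟨_, _, _, fam_reindex (Fintype.equivFin _).symm hF⟩

end LefP

theorem lef_lib (H : LinLib) : LefLib :=
  ⟨fun h1 h2 h3 h4 h5 => LefP.prim H h1 h2 h3 h4 h5,
    fun h1 h2 h3 h4 h5 => LefP.numFam H h1 h2 h3 h4 h5,
    fun h1 h2 => LefP.deform H h1 h2, fun h1 h2 h3 => LefP.rankOne h1 h2 h3⟩

end Pool.Agent.P.MP_cedf91_co
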