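import Pool.Agent.P.MP_cedf91_co.KFan

/-! The simplex, and the induction that proves McMullen's theorem. -/

namespace Pool.Agent.P.MP_cedf91_co

open Submodule MvPolynomial

namespace McMP

theorem pow_sub {R : Type} [CommRing R] [Algebra ℝ R] {φ : R →ₗ[ℝ] ℝ} {x y : R}
    (h : x - y ∈ ann φ) (i : ℕ) : x ^ i - y ^ i ∈ ann φ := by
  obtain ⟨z, hz⟩ := sub_dvd_pow_sub_pow x y i
  rw [hz]
  exact ann_mul_right h z

variable {ι : Type} [DecidableEq ι] {F : Fan ι} {φ : PR ι →ₗ[ℝ] ℝ}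

omit [DecidableEq ι] in
theorem ghost (hφ : F.IsVol φ) {k : ι} (h : ∀ σ ∈ F.K, k ∉ σ) : (X k : PR ι) ∈ ann φ := by
  simpa [xs] using hφ.nonface {k} (by simpa using h)

theorem coef {b0 : ι → ℝ} {τ : Finset ι} {j0 : ι} (hG : F.Good) (hb : F.Ample b0)
    (hφ : F.IsVol φ) (hτ : τ ⊆ F.S) (hK : F.K = τ.image τ.erase) (hj : j0 ∈ τ) :
    (∀ θ : ι → ℝ, ∀ T ⊆ τ, (∀ k ∈ τ, k ∉ T → θ k = 0) → lin F.S θ - lin T θ ∈ ann φ) ∧
    ∃ c : ι → ℝ, (∀ k ∈ τ, 0 < c k) ∧ ∀ k ∈ F.S, (X k : PR ι) - c k • X j0 ∈ ann φ := by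
  have hm : ∀ j ∈ τ, τ.erase j ∈ F.K := fun j h => hK ▸ Finset.mem_image_of_mem _ h
  have hg : ∀ k, k ∉ τ → (X k : PR ι) ∈ ann φ := fun k hk => ghost hφ fun σ hσ h => by
    rw [hK] at hσ
    obtain ⟨j, -, rfl⟩ := Finset.mem_image.1 hσ
    exact hk (Finset.mem_of_mem_erase h)
  have h1 : ∀ θ : ι → ℝ, ∀ T ⊆ τ, (∀ k ∈ τ, k ∉ T → θ k = 0) → lin F.S θ - lin T θ ∈ ann φ :=
    fun θ T hT h0 => by
      rw [lin, lin, ← Finset.sum_sdiff (hT.trans hτ), add_sub_cancel_right]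
      refine Submodule.sum_mem _ fun k hk => ?_
      by_cases h : k ∈ τ
      · simp [h0 k h (Finset.mem_sdiff.1 hk).2]
      · exact Submodule.smul_mem _ _ (hg k h)
  have h2 : ∀ k, ∃ c : ℝ, (k ∈ τ → 0 < c) ∧ (X k : PR ι) - c • X j0 ∈ ann φ := fun k => by
    by_cases hk : k ∈ τ
    swap
    · exact ⟨0, fun h => absurd h hk, by simpa using hg k hk⟩
    by_cases hkj : k = j0
    · exact ⟨1, fun _ => one_pos, by simp [hkj]⟩
    have hk0 : k ∈ τ.erase j0 := Finset.mem_erase.2 ⟨hkj, hk⟩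
    obtain ⟨k', h3, h4, h5, -⟩ := hG.nbr_geo hb (hm j0 hj) (hm k hk) hk0 (by simp)
      (Finset.erase_subset_erase _ (Finset.erase_subset _ _))
    have h6 : k' = j0 := by
      by_contra h
      exact h3 (Finset.mem_erase.2 ⟨h, Finset.mem_of_mem_erase
        (h4 ▸ Finset.mem_insert_self _ _ : k' ∈ τ.erase k)⟩)
    rw [h6] at h5
    refine ⟨-F.eta (τ.erase j0) k j0, fun _ => neg_pos.2 h5, ?_⟩
    have h7 := sub_mem (hφ.theta _ (hG.eta_mem (hm j0 hj) k))
      (h1 (F.eta (τ.erase j0) k) {k, j0} (by simp [Finset.insert_subset_iff, hk, hj])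
        fun l hl hl' => by
          simp only [Finset.mem_insert, Finset.mem_singleton, not_or] at hl'
          exact hG.eta_ne (hm j0 hj) (Finset.mem_erase.2 ⟨hl'.2, hl⟩) hl'.1)
    rw [sub_sub_cancel, lin, Finset.sum_pair hkj, hG.eta_self (hm j0 hj) hk0, one_smul] at h7
    rwa [neg_smul, sub_neg_eq_add]
  choose c hc hc' using h2
  exact ⟨h1, c, hc, fun k _ => hc' k⟩

theorem core {b0 : ι → ℝ} {τ : Finset ι} {j0 : ι} (hG : F.Good) (hb : F.Ample b0)
    (hφ : F.IsVol φ) (hτ : τ ⊆ F.S) (hK : F.K = τ.image τ.erase) (hj : j0 ∈ τ) :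
    (∀ i, RS F.S i ≤ span ℝ {X j0 ^ i} ⊔ ann φ) ∧ 0 < φ (X j0 ^ F.n) := by
  obtain ⟨-, c, hc, hc'⟩ := coef hG hb hφ hτ hK hj
  have hm : τ.erase j0 ∈ F.K := hK ▸ Finset.mem_image_of_mem _ hj
  constructor
  · intro i
    induction i with
    | zero => rw [RS_zero, pow_zero]; exact le_sup_left
    | succ i ih =>
      refine RS_succ_le fun k hk f hf => ?_
      obtain ⟨y, hy, r, hr, rfl⟩ := Submodule.mem_sup.1 (ih hf)
      obtain ⟨a, rfl⟩ := Submodule.mem_span_singleton.1 hy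
      refine Submodule.mem_sup.2 ⟨(c k * a) • X j0 ^ (i + 1),
        Submodule.smul_mem _ _ (Submodule.mem_span_singleton_self _), _,
        add_mem (ann_mul_right (hc' k hk) (a • X j0 ^ i)) (ann_mul_left hr (X k)), ?_⟩
      simp only [Algebra.smul_def, map_mul]
      ring
  · have h1 : ∀ T ⊆ F.S, xs T - (∏ k ∈ T, c k) • X j0 ^ T.card ∈ ann φ := fun T hT => by
      induction T using Finset.induction_on with
      | empty => simp [xs]
      | insert k T hk ih =>
        convert add_mem (ann_mul_left (ih ((Finset.subset_insert _ _).trans hT)) (X k))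
          (ann_mul_right (hc' k (hT (Finset.mem_insert_self _ _)))
            ((∏ k ∈ T, c k) • X j0 ^ T.card)) using 1
        rw [xs, xs, Finset.prod_insert hk, Finset.prod_insert hk, Finset.card_insert_of_notMem hk]
        simp only [Algebra.smul_def, map_mul]
        ring
    have h2 := ann_apply (h1 _ (hG.sub _ hm))
    rw [map_sub, map_smul, hG.card _ hm, smul_eq_mul, sub_eq_zero] at h2
    have h3 := hφ.pos _ hm
    rw [h2] at h3
    exact (pos_iff_pos_of_mul_pos h3).1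
      (Finset.prod_pos fun k hk => hc k (Finset.mem_of_mem_erase hk))

end McMP

open McMP

theorem simplex (HL : LefLib) : SimplexStmt := by
  intro ι _ F b0 φ τ j0 hG hb0 hφ hτ hK hj
  refine ⟨(core hG hb0 hφ hτ hK hj).1, (core hG hb0 hφ hτ hK hj).2, fun b hb ψ hψ => ?_⟩
  obtain ⟨h1, h2⟩ := core hG hb0 hψ hτ hK hj
  have hm : τ.erase j0 ∈ F.K := hK ▸ Finset.mem_image_of_mem _ hj
  have hs : 0 < b j0 - F.lift (τ.erase j0) b j0 :=
    sub_pos.2 (hG.lift_lt hb hm (hτ hj) (by simp))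
  set s := b j0 - F.lift (τ.erase j0) b j0 with hs'
  have h3 : lin F.S b - s • X j0 ∈ ann ψ := by
    convert add_mem (hψ.theta _ (hG.lift_mem hm b))
      ((coef hG hb0 hψ hτ hK hj).1 (b - F.lift (τ.erase j0) b) {j0} (by simpa using hj)
        fun k hk hk' => by
          rw [Pi.sub_apply, hG.lift_eq hm b (Finset.mem_erase.2 ⟨by simpa using hk', hk⟩),
            sub_self]) using 1
    simp only [lin, Pi.sub_apply, sub_smul, Finset.sum_sub_distrib, Finset.sum_singleton, hs']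
    ring
  refine HL.rankOne (fun i => pow_mem_RS (lin_mem_RS subset_rfl b) i) (fun i => (h1 i).trans
    (sup_le ((Submodule.span_singleton_le_iff_mem _ _).2 ?_) le_sup_right)) ?_
  · refine Submodule.mem_sup.2 ⟨(s ^ i)⁻¹ • lin F.S b ^ i,
      Submodule.smul_mem _ _ (Submodule.mem_span_singleton_self _), _,
      Submodule.smul_mem _ (-(s ^ i)⁻¹) (pow_sub h3 i), ?_⟩
    rw [smul_pow, neg_smul, smul_sub, smul_smul, inv_mul_cancel₀ (pow_pos hs i).ne', one_smul]
    abel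
  · have h4 := ann_apply (pow_sub h3 F.n)
    rw [map_sub, smul_pow, map_smul, sub_eq_zero, smul_eq_mul] at h4
    rw [h4]
    exact mul_pos (pow_pos hs _) h2

namespace McMP

theorem inf (H : LinLib) (HSi : SimplexStmt) (HSt : StellarStmt) (HSw : SweepStmt) (ι : Type)
    [DecidableEq ι] [Infinite ι] (n : ℕ) : McM ι n := by
  induction n using Nat.strong_induction_on with
  | _ n ih =>
  intro F hn hG b hb φ hφ
  obtain ⟨o, ξ, ho, hN⟩ := HSw Fan.NumF n
    (fun F b τ _ hG hb hτ hne hK b' hb' φ' hφ' =>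
      (HSi hG hb hφ' hτ hK hne.choose_spec).2.2 b' hb' φ' hφ')
    (fun F b lam τ e hn hG hb h1 h2 h3 h4 => HSt (hn ▸ ih) hG hb h1 h2 h3 h4) F b hn hG hb
  have hX : (X o : PR ι) ∈ ann φ := ghost hφ fun σ hσ h => ho (hG.sub σ hσ h)
  have hl : ∀ θ θ' : ι → ℝ, (∀ k, k ≠ o → θ' k = θ k) →
      lin (insert o F.S) θ' - lin F.S θ ∈ ann φ := fun θ θ' h => by
    have : lin F.S θ' = lin F.S θ :=
      Finset.sum_congr rfl fun k hk => by rw [h k fun e => ho (e ▸ hk)]
    rw [← this, lin, lin, Finset.sum_insert ho, add_sub_cancel_right]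
    exact Submodule.smul_mem _ _ hX
  obtain ⟨M, hM⟩ := (F.K.image fun σ => ξ (F.lift σ b)).bddAbove
  have h1 := hN (Function.update b o (M + 1)) ?_ φ ⟨hφ.deg, ?_, hφ.nonface, hφ.pos⟩
  · refine H.numCongr (fun i => ?_) (fun i => le_sup_of_le_left
      (RS_mono (Finset.subset_insert _ _) i)) (hl _ _ fun k hk => by simp [hk]) h1
    induction i with
    | zero => rw [RS_zero, RS_zero]; exact le_sup_left
    | succ i ih =>
      refine RS_succ_le fun k hk f hf => ?_
      rcases Finset.mem_insert.1 hk with rfl | hk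
      · exact Submodule.mem_sup_right (ann_mul_right hX f)
      · obtain ⟨y, hy, r, hr, rfl⟩ := Submodule.mem_sup.1 (ih hf)
        rw [mul_add, add_comm i]
        exact Submodule.add_mem_sup (mul_mem_RS (X_mem_RS hk) hy) (ann_mul_left hr _)
  · rintro σ hσ _ ⟨θ, hθ, rfl⟩ h j hj hjσ
    have h2 : ∀ k ∈ σ, θ k = b k := fun k hk => by
      have hk' : k ≠ o := fun e => ho (e ▸ hG.sub σ hσ hk)
      simpa [hk'] using h k hk
    by_cases hjo : j = o
    · have h3 : θ = F.lift σ b := hG.ext hσ hθ (hG.lift_mem hσ b) fun k hk => by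
        rw [h2 k hk, hG.lift_eq hσ b hk]
      have h4 : ξ (F.lift σ b) ≤ M := hM (Finset.mem_coe.2 (Finset.mem_image_of_mem _ hσ))
      simpa [hjo, h3] using h4.trans_lt (lt_add_one M)
    · simpa [hjo] using hb σ hσ θ hθ h2 j ((Finset.mem_insert.1 hj).resolve_left hjo) hjσ
  · rintro _ ⟨θ, hθ, rfl⟩
    simpa using add_mem (hl θ _ fun k hk => by simp [hk]) (hφ.theta θ hθ)

/-- Extension by zero. -/
def ext0 (ι : Type) : (ι → ℝ) →ₗ[ℝ] (ι ⊕ ℕ → ℝ) where
  toFun θ := Sum.elim θ 0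
  map_add' _ _ := by ext (k | k) <;> simp
  map_smul' _ _ := by ext (k | k) <;> simp

theorem ext0_apply {ι : Type} (θ : ι → ℝ) (k : ι) : ext0 ι θ (Sum.inl k) = θ k := rfl

end McMP

theorem mcm (H : LinLib) (HSi : SimplexStmt) (HSt : StellarStmt) (HSw : SweepStmt) : McMStmt := by
  intro ι _ n F hn hG b hb φ hφ
  let e : ι ↪ ι ⊕ ℕ := Function.Embedding.inl
  let F' : Fan (ι ⊕ ℕ) := ⟨F.S.map e, F.Θ.map (ext0 ι), F.K.image fun σ => σ.map e, F.n⟩
  have hK : ∀ {P : Finset (ι ⊕ ℕ) → Prop}, (∀ σ ∈ F.K, P (σ.map e)) → ∀ σ ∈ F'.K, P σ :=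
    fun h σ hσ => by
      obtain ⟨σ', hσ', rfl⟩ := Finset.mem_image.1 hσ
      exact h σ' hσ'
  have hG' : F'.Good :=
    { ne := hG.ne.image _
      sub := hK fun σ hσ => Finset.map_subset_map.2 (hG.sub σ hσ)
      card := hK fun σ hσ => (Finset.card_map _).trans (hG.card σ hσ)
      inj := hK fun σ hσ => by
        rintro _ ⟨θ, hθ, rfl⟩ h
        rw [hG.inj σ hσ θ hθ fun k hk => h _ (Finset.mem_map_of_mem e hk), map_zero]
      surj := hK fun σ hσ c => by
        obtain ⟨θ, hθ, h⟩ := hG.surj σ hσ fun k => c (Sum.inl k)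
        refine ⟨_, Submodule.mem_map_of_mem hθ, fun k hk => ?_⟩
        obtain ⟨l, hl, rfl⟩ := Finset.mem_map.1 hk
        exact h l hl
      nbr := hK fun σ hσ k hk => by
        obtain ⟨l, hl, rfl⟩ := Finset.mem_map.1 hk
        obtain ⟨σ', h1, h2, h3⟩ := hG.nbr σ hσ l hl
        refine ⟨σ'.map e, Finset.mem_image_of_mem _ h1, by simpa using h2, ?_⟩
        rw [← Finset.map_erase]
        exact Finset.map_subset_map.2 h3 }
  have hb' : F'.Ample (ext0 ι b) := hK fun σ hσ => by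
    rintro _ ⟨θ, hθ, rfl⟩ h j hj hjσ
    obtain ⟨l, hl, rfl⟩ := Finset.mem_map.1 hj
    exact hb σ hσ θ hθ (fun k hk => h _ (Finset.mem_map_of_mem e hk)) l hl (by simpa using hjσ)
  let ρ : PR (ι ⊕ ℕ) →ₐ[ℝ] PR ι := aeval (Sum.elim X 0)
  have r1 : ∀ k, ρ (X (e k)) = X k := fun k => by simp [ρ, e]
  have r2 : ∀ θ, ρ (lin F'.S (ext0 ι θ)) = lin F.S θ := fun θ => by
    simp only [lin, F', Finset.sum_map, map_sum, map_smul, r1]
    rfl
  have r3 : ∀ σ : Finset ι, ρ (xs (σ.map e)) = xs σ := fun σ => by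
    simp only [xs, Finset.prod_map, map_prod, r1]
  have r4 : ∀ x, ρ x ∈ ann φ → x ∈ ann (φ ∘ₗ ρ.toLinearMap) := fun x hx y => by
    simpa using hx (ρ y)
  have r5 : ∀ y, ρ (rename e y) = y := fun y => by
    have : ρ.comp (rename e) = AlgHom.id ℝ _ := by ext1 k; simp [r1]
    exact AlgHom.congr_fun this y
  have hφ' : F'.IsVol (φ ∘ₗ ρ.toLinearMap) :=
    { deg := fun i hi x hx => hφ.deg i hi (ρ x) (by
        have := IsHomogeneous.aeval (n := 1) hx (Sum.elim X 0 : ι ⊕ ℕ → PR ι) (by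
          rintro (k | k)
          · exact isHomogeneous_X ℝ k
          · exact isHomogeneous_zero _ _ _)
        rwa [one_mul] at this)
      theta := by
        rintro _ ⟨θ, hθ, rfl⟩
        exact r4 _ (r2 θ ▸ hφ.theta θ hθ)
      nonface := fun τ hτ => r4 _ (by
        by_cases h : ∃ m, Sum.inr m ∈ τ
        · obtain ⟨m, hm⟩ := h
          rw [xs, map_prod, Finset.prod_eq_zero hm (by simp [ρ])]
          exact zero_mem _
        · have h1 : τ = τ.toLeft.map e := by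
            ext (k | k)
            · simp [e]
            · simpa [e] using fun h' => h ⟨k, h'⟩
          rw [h1, r3]
          exact hφ.nonface _ fun σ hσ h2 => hτ _ (Finset.mem_image_of_mem _ hσ)
            (h1 ▸ Finset.map_subset_map.2 h2))
      pos := hK fun σ hσ => by simpa [r3] using hφ.pos σ hσ }
  have h1 := (H.numMap (φ' := φ) ρ one_pos (fun x => by simp) fun i x _ hx y => by
    simpa [r5] using hx (rename e y)).1 (inf H HSi HSt HSw _ n F' hn hG' _ hb' _ hφ')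
  have h2 : (fun i => (RS F'.S i).map ρ.toLinearMap) = RS F.S := funext fun i => by
    rw [RS, RS, Submodule.map_pow, Submodule.map_span, Finset.coe_map, Set.image_image,
      Set.image_image]
    simp only [AlgHom.toLinearMap_apply, r1]
  rwa [h2, r2] at h1

end Pool.Agent.P.MP_cedf91_co
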