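import Pool.Agent.P.MP_cedf91_co.KDefs

/-! The model `ℝ[x,y]/(x^(m+1), y^(n+1))`: explicit primitive classes. -/

namespace Pool.Agent.P.MP_cedf91_co

namespace ModelP

open Polynomial Finset

/-- Coefficients of the primitive class of degree `i`. -/
noncomputable def pc (m n i a : ℕ) : ℝ :=
  (-1) ^ a * (i.choose a : ℝ) * (((m - a).factorial : ℝ) * ((n - i + a).factorial : ℝ))

/-- The primitive class of degree `i`. -/
noncomputable def Pr (m n i : ℕ) : ℝ[X] := ∑ a ∈ range (i + 1), monomial a (pc m n i a)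

theorem coeff_P (m n i a : ℕ) : (Pr m n i).coeff a = pc m n i a := by
  unfold Pr
  rw [finsetSum_coeff]
  simp only [coeff_monomial, sum_ite_eq', mem_range]
  split_ifs with h
  · rfl
  · rw [pc, Nat.choose_eq_zero_of_lt (by omega)]
    simp

theorem natDegree_P (m n i : ℕ) : (Pr m n i).natDegree ≤ i := by
  rw [natDegree_le_iff_coeff_eq_zero]
  intro a ha
  rw [coeff_P, pc, Nat.choose_eq_zero_of_lt ha]
  simp

theorem coeff_P_zero (m n i : ℕ) : 0 < (Pr m n i).coeff 0 := by
  rw [coeff_P, pc]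
  simp only [pow_zero, Nat.choose_zero_right, Nat.cast_one, one_mul]
  positivity

theorem eval_P (m n i : ℕ) : 0 < (Pr m n i).eval (-1) := by
  unfold Pr
  rw [eval_finsetSum]
  refine sum_pos (fun a ha => ?_) ⟨0, by simp⟩
  have h1 : 0 < i.choose a := Nat.choose_pos (by simpa [Nat.lt_succ_iff] using ha)
  have h2 : pc m n i a * (-1) ^ a =
      (i.choose a : ℝ) * (((m - a).factorial : ℝ) * ((n - i + a).factorial : ℝ)) := by
    have : ((-1 : ℝ) ^ a) * (-1) ^ a = 1 := by rw [← mul_pow]; simp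
    rw [pc]
    linear_combination (i.choose a : ℝ) * (((m - a).factorial : ℝ) *
      ((n - i + a).factorial : ℝ)) * this
  rw [eval_monomial, h2]
  positivity

theorem coeff_mul_range {Q : ℝ[X]} {k : ℕ} (hQ : Q.natDegree ≤ k) (W : ℝ[X]) (r : ℕ) :
    (Q * W).coeff r =
      ∑ a ∈ range (k + 1), Q.coeff a * if a ≤ r then W.coeff (r - a) else 0 := by
  conv_lhs => rw [Q.as_sum_range_C_mul_X_pow' (Nat.lt_succ_of_le hQ)]
  rw [sum_mul, finsetSum_coeff]
  exact sum_congr rfl fun a _ => by rw [mul_assoc, coeff_C_mul, coeff_X_pow_mul']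

theorem alt (f : ℝ[X]) (i : ℕ) :
    ∑ a ∈ range (i + 1), (-1) ^ a * (i.choose a : ℝ) * f.eval (a : ℝ) =
      (-1) ^ i * (fwdDiff (1 : ℝ))^[i] f.eval 0 := by
  rw [fwdDiff_iter_eq_sum_shift, mul_sum]
  refine sum_congr rfl fun a ha => ?_
  obtain ⟨b, rfl⟩ := Nat.exists_eq_add_of_le (Nat.lt_succ_iff.1 (mem_range.1 ha))
  have : ((-1 : ℝ) ^ b) * (-1) ^ b = 1 := by rw [← mul_pow]; simp
  simp only [Nat.add_sub_cancel_left, zsmul_eq_mul, nsmul_eq_mul, mul_one, zero_add, pow_add]
  push_cast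
  linear_combination (-((-1) ^ a * ((a + b).choose a : ℝ) * f.eval (a : ℝ))) * this

theorem fact_choose {A B s t M : ℕ} (h : M + s + t = A + B) :
    A.factorial * B.factorial * (if s ≤ A then M.choose (A - s) else 0) =
      M.factorial * (A.descFactorial s * B.descFactorial t) := by
  split_ifs with hs
  · by_cases ht : t ≤ B
    · obtain ⟨A, rfl⟩ := Nat.exists_eq_add_of_le hs
      obtain ⟨B, rfl⟩ := Nat.exists_eq_add_of_le ht
      obtain rfl : M = A + B := by omega
      have h1 := Nat.factorial_mul_descFactorial hs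
      have h2 := Nat.factorial_mul_descFactorial ht
      have h3 := Nat.add_choose_mul_factorial_mul_factorial B A
      rw [Nat.add_sub_cancel_left] at h1 h2 ⊢
      rw [add_comm B A] at h3
      rw [← h1, ← h2, ← h3]
      ring
    · rw [Nat.choose_eq_zero_of_lt (by omega), Nat.descFactorial_of_lt (not_le.1 ht)]
      simp
  · rw [Nat.descFactorial_of_lt (not_le.1 hs)]
    simp

/-- The polynomial in the summation index. -/
noncomputable def F (m k s t : ℕ) : ℝ[X] :=
  (descPochhammer ℝ s).comp (C (m : ℝ) - X) * (descPochhammer ℝ t).comp (X + C (k : ℝ))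

theorem natDegree_C_sub_X (c : ℝ) : (C c - X : ℝ[X]).natDegree = 1 := by
  rw [natDegree_sub, natDegree_X_sub_C]

theorem natDegree_F (m k s t : ℕ) : (F m k s t).natDegree ≤ s + t := by
  refine natDegree_mul_le.trans ?_
  rw [natDegree_comp, natDegree_comp, descPochhammer_natDegree, descPochhammer_natDegree,
    natDegree_C_sub_X, natDegree_X_add_C, mul_one, mul_one]

theorem key {m n i s t M : ℕ} (hm : i ≤ m) (hs : s ≤ m) (hn : i ≤ n)
    (h : M + s + t + i = m + n) :
    (Pr m n i * (1 + X) ^ M).coeff (m - s) =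
      M.factorial * ((-1) ^ i * (fwdDiff (1 : ℝ))^[i] (F m (n - i) s t).eval 0) := by
  rw [← alt, coeff_mul_range (natDegree_P m n i), mul_sum]
  refine sum_congr rfl fun a ha => ?_
  have ha' : a ≤ i := Nat.lt_succ_iff.1 (mem_range.1 ha)
  have h1 := fact_choose (A := m - a) (B := n - i + a) (s := s) (t := t) (M := M) (by omega)
  have h2 : (F m (n - i) s t).eval (a : ℝ) =
      ((m - a).descFactorial s : ℝ) * ((n - i + a).descFactorial t : ℝ) := by
    rw [← descPochhammer_eval_eq_descFactorial, ← descPochhammer_eval_eq_descFactorial, F,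
      eval_mul, eval_comp, eval_comp, Nat.cast_sub (ha'.trans hm), Nat.cast_add]
    simp [add_comm]
  have h3 : (if a ≤ m - s then ((1 + X : ℝ[X]) ^ M).coeff (m - s - a) else 0) =
      ((if s ≤ m - a then M.choose (m - a - s) else 0 : ℕ) : ℝ) := by
    rw [coeff_one_add_X_pow]
    by_cases h4 : a ≤ m - s
    · rw [if_pos h4, if_pos (by omega), Nat.sub_right_comm]
    · rw [if_neg h4, if_neg (by omega), Nat.cast_zero]
  have h4 := congrArg (Nat.cast : ℕ → ℝ) h1
  rw [h3, h2, coeff_P, pc]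
  rw [Nat.cast_mul, Nat.cast_mul, Nat.cast_mul, Nat.cast_mul] at h4
  linear_combination ((-1) ^ a * (i.choose a : ℝ)) * h4

theorem van {m n i s : ℕ} (hm : i ≤ m) (hn : i ≤ n) (hs : s < i) :
    (Pr m n i * (1 + X) ^ (m + n - 2 * i + 1)).coeff (m - s) = 0 := by
  rw [key (t := i - 1 - s) hm (by omega) hn (by omega),
    fwdDiff_iter_eq_zero_of_degree_lt ((natDegree_F _ _ _ _).trans_lt (by omega))]
  simp

theorem top {m n i : ℕ} (hm : i ≤ m) (hn : i ≤ n) :
    (Pr m n i * (1 + X) ^ (m + n - 2 * i)).coeff (m - i) =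
      ((m + n - 2 * i).factorial : ℝ) * (i.factorial : ℝ) := by
  rw [key (t := 0) hm hm hn (by omega)]
  have h0 : F m (n - i) i 0 = (descPochhammer ℝ i).comp (C (m : ℝ) - X) := by simp [F]
  have h1 : (F m (n - i) i 0).natDegree = i := by
    rw [h0, natDegree_comp, descPochhammer_natDegree, natDegree_C_sub_X, mul_one]
  have h2 : (F m (n - i) i 0).leadingCoeff = (-1) ^ i := by
    rw [h0, leadingCoeff_comp (by rw [natDegree_C_sub_X]; exact one_ne_zero),
      monic_descPochhammer, descPochhammer_natDegree, one_mul, ← neg_sub, leadingCoeff_neg,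
      monic_X_sub_C]
  have h3 := fwdDiff_iter_degree_eq_factorial (F m (n - i) i 0)
  rw [h1, h2] at h3
  have : ((-1 : ℝ) ^ i) * (-1) ^ i = 1 := by rw [← mul_pow]; simp
  rw [h3]
  simp only [Pi.smul_apply, Pi.natCast_apply, smul_eq_mul]
  linear_combination ((m + n - 2 * i).factorial * i.factorial : ℝ) * this

theorem van_mul {m n i : ℕ} (hm : i ≤ m) (hn : i ≤ n) {Q : ℝ[X]}
    (hQ : ∀ a, i ≤ a → Q.coeff a = 0) :
    (Q * (Pr m n i * (1 + X) ^ (m + n - 2 * i + 1))).coeff m = 0 := by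
  rw [coeff_mul]
  refine sum_eq_zero fun c hc => ?_
  by_cases h : i ≤ c.1
  · rw [hQ _ h, zero_mul]
  · have h1 : c.2 = m - c.1 := by have := mem_antidiagonal.1 hc; omega
    rw [h1, van hm hn (not_le.1 h), mul_zero]

theorem top_mul {m n i : ℕ} (hm : i ≤ m) (hn : i ≤ n) {Q : ℝ[X]} (hQ : Q.natDegree ≤ i) :
    (Q * (Pr m n i * (1 + X) ^ (m + n - 2 * i))).coeff m =
      (-1) ^ i * Q.eval (-1) * ((m + n - 2 * i).factorial * i.factorial) := by
  have hsq : ((-1 : ℝ) ^ i) * (-1) ^ i = 1 := by rw [← mul_pow]; simp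
  have h1 : IsRoot (Q - C ((-1) ^ i * Q.eval (-1)) * X ^ i) (-1) := by
    simp only [IsRoot, eval_sub, eval_mul, eval_C, eval_pow, eval_X]
    linear_combination (-Q.eval (-1)) * hsq
  obtain ⟨f, hf⟩ := dvd_iff_isRoot.2 h1
  have h2 : ∀ a, i ≤ a → f.coeff a = 0 := by
    by_cases h0 : f = 0
    · simp [h0]
    · have h3 : ((X - C (-1)) * f).natDegree ≤ i := by
        rw [← hf]
        refine (natDegree_sub_le _ _).trans (max_le hQ ?_)
        exact natDegree_C_mul_X_pow_le _ _
      rw [natDegree_mul (X_sub_C_ne_zero _) h0, natDegree_X_sub_C] at h3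
      exact fun a ha => coeff_eq_zero_of_natDegree_lt (by omega)
  have h3 : Q * (Pr m n i * (1 + X) ^ (m + n - 2 * i)) =
      f * (Pr m n i * (1 + X) ^ (m + n - 2 * i + 1)) +
        C ((-1) ^ i * Q.eval (-1)) * (X ^ i * (Pr m n i * (1 + X) ^ (m + n - 2 * i))) := by
    have h4 : (C (-1) : ℝ[X]) = -1 := by simp
    rw [h4] at hf
    linear_combination (Pr m n i * (1 + X) ^ (m + n - 2 * i)) * hf
  rw [h3, coeff_add, van_mul hm hn h2, zero_add, coeff_C_mul, coeff_X_pow_mul', if_pos hm,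
    top hm hn]

theorem row {B : ℝ[X]} {j : ℕ} (hB : B.natDegree ≤ j) {m u : ℕ} (N : ℕ) (hu : u ≤ m) :
    ∑ u' ∈ range (j + 1), B.coeff u' * gam m N u' u = (B * (1 + X) ^ N).coeff (m - u) := by
  rw [coeff_mul_range hB]
  refine sum_congr rfl fun a _ => ?_
  rw [gam, coeff_one_add_X_pow]
  by_cases h : a ≤ m - u
  · rw [if_pos h, if_pos (by omega), Nat.sub_right_comm]
  · rw [if_neg h, if_neg (by omega)]

theorem form {A B : ℝ[X]} {j : ℕ} (hA : A.natDegree ≤ j) (hB : B.natDegree ≤ j) (m N : ℕ) :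
    ∑ u ∈ range (j + 1), ∑ u' ∈ range (j + 1), A.coeff u * B.coeff u' * gam m N u u' =
      (B * (A * (1 + X) ^ N)).coeff m := by
  rw [sum_comm, coeff_mul_range hB]
  refine sum_congr rfl fun u _ => ?_
  split_ifs with h
  · rw [← row hA N h, mul_sum]
    exact sum_congr rfl fun a _ => by ring
  · rw [mul_zero]
    exact sum_eq_zero fun a _ => by rw [gam, if_neg (by omega), mul_zero]

theorem natDegree_mul_pow {Q : ℝ[X]} {i : ℕ} (hQ : Q.natDegree ≤ i) (k : ℕ) :
    (Q * (1 + X) ^ k).natDegree ≤ i + k := by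
  refine natDegree_mul_le.trans (add_le_add hQ (natDegree_pow_le.trans ?_))
  have : (1 + X : ℝ[X]).natDegree = 1 := by rw [add_comm, ← C_1, natDegree_X_add_C]
  rw [this, mul_one]

theorem orth {m n j i i' : ℕ} (hj : 2 * j ≤ m + n) (hi : i < i') (h1 : i' ≤ j) (hm : i' ≤ m)
    (hn : i' ≤ n) :
    (Pr m n i * (1 + X) ^ (j - i) * (Pr m n i' * (1 + X) ^ (j - i') *
      (1 + X) ^ (m + n - 2 * j))).coeff m = 0 := by
  have h2 : (1 + X : ℝ[X]) ^ (j - i) * ((1 + X) ^ (j - i') * (1 + X) ^ (m + n - 2 * j)) =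
      (1 + X) ^ (i' - i - 1) * (1 + X) ^ (m + n - 2 * i' + 1) := by
    rw [← pow_add, ← pow_add, ← pow_add]
    congr 1
    omega
  rw [← van_mul hm hn (Q := Pr m n i * (1 + X) ^ (i' - i - 1)) fun a ha =>
    coeff_eq_zero_of_natDegree_lt ((natDegree_mul_pow (natDegree_P m n i) _).trans_lt (by omega))]
  congr 1
  linear_combination (Pr m n i * Pr m n i') * h2

end ModelP

open Polynomial ModelP in
theorem model_lib : ModelLib where
  diag := fun m n j hj => by
    have hd : ∀ i ≤ j, (Pr m n i * (1 + X) ^ (j - i)).natDegree ≤ j := fun i hi =>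
      (natDegree_mul_pow (natDegree_P m n i) _).trans (by omega)
    refine ⟨fun i => (Pr m n i * (1 + X) ^ (j - i)).coeff, fun i i' h1 h2 h3 h4 h5 h6 h7 => ?_,
      fun i h1 h2 h3 => ?_⟩
    · rw [form (hd i h1) (hd i' h4)]
      rcases lt_or_gt_of_ne h7 with h | h
      · rw [← orth hj h h4 h5 h6]
        congr 1
        ring
      · exact orth hj h h1 h2 h3
    · have h4 : (1 + X : ℝ[X]) ^ (j - i) * ((1 + X) ^ (j - i) * (1 + X) ^ (m + n - 2 * j)) =
          (1 + X) ^ (m + n - 2 * i) := by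
        rw [← pow_add, ← pow_add]
        congr 1
        omega
      have h5 : Pr m n i * (1 + X) ^ (j - i) * (Pr m n i * (1 + X) ^ (j - i) *
          (1 + X) ^ (m + n - 2 * j)) = Pr m n i * (Pr m n i * (1 + X) ^ (m + n - 2 * i)) := by
        linear_combination (Pr m n i * Pr m n i) * h4
      have hsq : ((-1 : ℝ) ^ i) * (-1) ^ i = 1 := by rw [← mul_pow]; simp
      have h6 := eval_P m n i
      rw [form (hd i h1) (hd i h1), h5, top_mul h2 h3 (natDegree_P m n i), ← mul_assoc,
        ← mul_assoc, ← mul_assoc, hsq]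
      positivity
  schur := fun m n j hm hn => by
    have h0 := coeff_P_zero m n j
    have hN : m + 1 + n - 2 * j = m + n - 2 * j + 1 := by omega
    have hrow : ∀ u' ≤ m + 1, ∑ u ∈ Finset.range (j + 1), (Pr m n j).coeff u / (Pr m n j).coeff 0 *
        gam (m + 1) (m + 1 + n - 2 * j) u u' =
        (Pr m n j * (1 + X) ^ (m + 1 + n - 2 * j)).coeff (m + 1 - u') / (Pr m n j).coeff 0 :=
      fun u' hu' => by
        rw [← row (natDegree_P m n j) _ hu', Finset.sum_div]
        exact Finset.sum_congr rfl fun a _ => by ring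
    have hv : ∀ u', 1 ≤ u' → u' ≤ j →
        (Pr m n j * (1 + X) ^ (m + 1 + n - 2 * j)).coeff (m + 1 - u') = 0 := fun u' h1 h2 => by
      rw [hN, show m + 1 - u' = m - (u' - 1) by omega]
      exact van hm hn (by omega)
    refine ⟨fun u => (Pr m n j).coeff u / (Pr m n j).coeff 0, div_self h0.ne', fun u' h1 h2 => ?_, ?_⟩
    · rw [hrow u' (by omega), hv u' h1 h2, zero_div]
    · have h1 := top_mul (m := m + 1) (by omega : j ≤ m + 1) hn (natDegree_P m n j)
      have h2 : (Pr (m + 1) n j * (Pr m n j * (1 + X) ^ (m + 1 + n - 2 * j))).coeff (m + 1) =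
          (Pr (m + 1) n j).coeff 0 *
            (Pr m n j * (1 + X) ^ (m + 1 + n - 2 * j)).coeff (m + 1) := by
        rw [coeff_mul_range (natDegree_P (m + 1) n j), Finset.sum_range_succ', Finset.sum_eq_zero]
        · simp
        · intro a ha
          have h3 : a < j := Finset.mem_range.1 ha
          rw [if_pos (by omega), hv (a + 1) (by omega) (by omega), mul_zero]
      rw [mul_left_comm, h2] at h1
      have h3 := coeff_P_zero (m + 1) n j
      have h4 := eval_P m n j
      have hsq : ((-1 : ℝ) ^ j) * (-1) ^ j = 1 := by rw [← mul_pow]; simp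
      rw [hrow 0 (by omega), Nat.sub_zero, ← mul_div_assoc]
      refine div_pos ((mul_pos_iff_of_pos_left h3).1 ?_) h0
      rw [mul_left_comm, h1, ← mul_assoc, ← mul_assoc, ← mul_assoc, hsq]
      positivity

end Pool.Agent.P.MP_cedf91_co
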