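import Pool.Agent.P.MP_cedf91_co.KFan

/-! Geometry of stellar subdivisions. -/

namespace Pool.Agent.P.MP_cedf91_co

open Submodule Filter Topology

namespace StGeoP

variable {ι : Type} [DecidableEq ι] {F : Fan ι} {b lam : ι → ℝ} {τ : Finset ι} {e : ι}

theorem upd_e (θ : ι → ℝ) : Fan.updL τ lam e θ e = ∑ j ∈ τ, lam j * θ j := by
  simp [Fan.updL]

theorem upd_ne (θ : ι → ℝ) {k : ι} (hk : k ≠ e) : Fan.updL τ lam e θ k = θ k := by
  simp [Fan.updL, hk]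

theorem mem_K {ρ : Finset ι} : ρ ∈ (F.stellar τ lam e).K ↔
    (ρ ∈ F.K ∧ ¬ τ ⊆ ρ) ∨ ∃ σ ∈ F.K, τ ⊆ σ ∧ ∃ j ∈ τ, ρ = insert e (σ.erase j) := by
  simp only [Fan.stellar, Finset.mem_union, Finset.mem_filter, Finset.mem_biUnion,
    Finset.mem_image]
  refine or_congr Iff.rfl ⟨?_, ?_⟩
  · rintro ⟨σ, ⟨h1, h2⟩, j, hj, rfl⟩
    exact ⟨σ, h1, h2, j, hj, rfl⟩
  · rintro ⟨σ, h1, h2, j, hj, rfl⟩
    exact ⟨σ, ⟨h1, h2⟩, j, hj, rfl⟩

theorem sum_split {j : ι} (hj : j ∈ τ) (θ : ι → ℝ) :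
    ∑ i ∈ τ, lam i * θ i = lam j * θ j + ∑ i ∈ τ.erase j, lam i * θ i :=
  (Finset.add_sum_erase τ (fun i => lam i * θ i) hj).symm

theorem good (h : F.Good) (hτ : τ.Nonempty) (hσ : ∃ σ ∈ F.K, τ ⊆ σ) (hl : ∀ j ∈ τ, 0 < lam j)
    (he : e ∉ F.S) : (F.stellar τ lam e).Good := by
  have hne : ∀ σ ∈ F.K, ∀ k ∈ σ, k ≠ e := fun σ hσ k hk hke => he (hke ▸ h.sub σ hσ hk)
  constructor
  · obtain ⟨σ, h1, h2⟩ := hσ
    obtain ⟨j, hj⟩ := hτ
    exact ⟨_, mem_K.2 (Or.inr ⟨σ, h1, h2, j, hj, rfl⟩)⟩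
  · intro ρ hρ
    rcases mem_K.1 hρ with ⟨h1, -⟩ | ⟨σ, h1, -, j, -, rfl⟩
    · exact (h.sub ρ h1).trans (Finset.subset_insert _ _)
    · exact Finset.insert_subset_insert _ ((Finset.erase_subset _ _).trans (h.sub σ h1))
  · intro ρ hρ
    rcases mem_K.1 hρ with ⟨h1, -⟩ | ⟨σ, h1, h2, j, hj, rfl⟩
    · exact h.card ρ h1
    · rw [Finset.card_insert_of_notMem fun h' => hne σ h1 e (Finset.mem_of_mem_erase h') rfl,
        Finset.card_erase_add_one (h2 hj)]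
      exact h.card σ h1
  · rintro ρ hρ _ ⟨θ, hθ, rfl⟩ h0
    suffices θ = 0 by rw [this, map_zero]
    rcases mem_K.1 hρ with ⟨h1, -⟩ | ⟨σ, h1, h2, j, hj, rfl⟩
    · exact h.inj ρ h1 θ hθ fun k hk => by rw [← upd_ne θ (hne ρ h1 k hk)]; exact h0 k hk
    · have a1 : ∀ k ∈ σ.erase j, θ k = 0 := fun k hk => by
        rw [← upd_ne θ (hne σ h1 k (Finset.mem_of_mem_erase hk))]
        exact h0 k (Finset.mem_insert_of_mem hk)
      have a2 := h0 e (Finset.mem_insert_self _ _)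
      rw [upd_e, sum_split hj, Finset.sum_eq_zero fun i hi => by
        rw [a1 i (Finset.erase_subset_erase j h2 hi), mul_zero], add_zero] at a2
      refine h.inj σ h1 θ hθ fun k hk => ?_
      by_cases hkj : k = j
      · rw [hkj]; exact (mul_eq_zero.1 a2).resolve_left (hl j hj).ne'
      · exact a1 k (Finset.mem_erase.2 ⟨hkj, hk⟩)
  · intro ρ hρ c
    rcases mem_K.1 hρ with ⟨h1, -⟩ | ⟨σ, h1, h2, j, hj, rfl⟩
    · obtain ⟨θ, hθ, hc⟩ := h.surj ρ h1 c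
      exact ⟨_, ⟨θ, hθ, rfl⟩, fun k hk => by rw [upd_ne θ (hne ρ h1 k hk), hc k hk]⟩
    · obtain ⟨θ, hθ, hc⟩ := h.surj σ h1
        (Function.update c j ((c e - ∑ i ∈ τ.erase j, lam i * c i) / lam j))
      have a1 : ∀ k ∈ σ.erase j, θ k = c k := fun k hk => by
        rw [hc k (Finset.mem_of_mem_erase hk), Function.update_of_ne (Finset.ne_of_mem_erase hk)]
      refine ⟨_, ⟨θ, hθ, rfl⟩, fun k hk => ?_⟩
      rcases Finset.mem_insert.1 hk with rfl | hk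
      · have a2 : ∑ i ∈ τ.erase j, lam i * θ i = ∑ i ∈ τ.erase j, lam i * c i :=
          Finset.sum_congr rfl fun i hi => by rw [a1 i (Finset.erase_subset_erase j h2 hi)]
        rw [upd_e, sum_split hj, hc j (h2 hj), Function.update_self, a2,
          mul_div_cancel₀ _ (hl j hj).ne']
        ring
      · rw [upd_ne θ (hne σ h1 k (Finset.mem_of_mem_erase hk)), a1 k hk]
  · intro ρ hρ k hk
    rcases mem_K.1 hρ with ⟨h1, h2⟩ | ⟨σ, h1, h2, j, hj, rfl⟩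
    · obtain ⟨σ', a1, a2, a3⟩ := h.nbr ρ h1 k hk
      by_cases a4 : τ ⊆ σ'
      · obtain ⟨j, hj, hj'⟩ := Finset.not_subset.1 h2
        refine ⟨_, mem_K.2 (Or.inr ⟨σ', a1, a4, j, hj, rfl⟩), ?_, fun i hi => ?_⟩
        · rw [Finset.mem_insert, Finset.mem_erase]
          exact fun h' => h'.elim (hne ρ h1 k hk) fun h' => a2 h'.2
        · exact Finset.mem_insert_of_mem (Finset.mem_erase.2
            ⟨fun h' => hj' (h' ▸ Finset.mem_of_mem_erase hi), a3 hi⟩)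
      · exact ⟨σ', mem_K.2 (Or.inl ⟨a1, a4⟩), a2, a3⟩
    · by_cases hke : k = e
      · obtain ⟨σ', a1, a2, a3⟩ := h.nbr σ h1 j (h2 hj)
        refine ⟨σ', mem_K.2 (Or.inl ⟨a1, fun h' => a2 (h' hj)⟩), fun h' => hne σ' a1 k h' hke,
          fun i hi => a3 ?_⟩
        rw [Finset.mem_erase, Finset.mem_insert] at hi
        exact hi.2.resolve_left fun h' => hi.1 (h'.trans hke.symm)
      · have hk' := (Finset.mem_insert.1 hk).resolve_left hke
        by_cases hkτ : k ∈ τ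
        · refine ⟨_, mem_K.2 (Or.inr ⟨σ, h1, h2, k, hkτ, rfl⟩), by simp [hke], fun i hi => ?_⟩
          simp only [Finset.mem_erase, Finset.mem_insert] at hi ⊢
          tauto
        · obtain ⟨σ', a1, a2, a3⟩ := h.nbr σ h1 k (Finset.mem_of_mem_erase hk')
          have a4 : τ ⊆ σ' := fun i hi =>
            a3 (Finset.mem_erase.2 ⟨fun h' => hkτ (h' ▸ hi), h2 hi⟩)
          refine ⟨_, mem_K.2 (Or.inr ⟨σ', a1, a4, j, hj, rfl⟩), by simp [hke, a2], fun i hi => ?_⟩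
          simp only [Finset.mem_erase, Finset.mem_insert] at hi ⊢
          rcases hi.2 with h' | h'
          · exact Or.inl h'
          · exact Or.inr ⟨h'.1, a3 (Finset.mem_erase.2 ⟨hi.1, h'.2⟩)⟩

theorem ample (h : F.Good) (hb : F.Ample b) (hσ : ∃ σ ∈ F.K, τ ⊆ σ) (hl : ∀ j ∈ τ, 0 < lam j)
    (he : e ∉ F.S) : ∀ᶠ t in 𝓝[>] (0 : ℝ), (F.stellar τ lam e).Ample
      (Function.update b e (∑ j ∈ τ, lam j * b j - t)) := by
  have hne : ∀ σ ∈ F.K, ∀ k ∈ σ, k ≠ e := fun σ hσ k hk hke => he (hke ▸ h.sub σ hσ hk)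
  have hτS : τ ⊆ F.S := by
    obtain ⟨σ, h1, h2⟩ := hσ
    exact h2.trans (h.sub σ h1)
  unfold Fan.Ample
  rw [Filter.eventually_all_finset]
  intro ρ hρ
  rcases mem_K.1 hρ with ⟨h1, h2⟩ | ⟨σ, h1, h2, j, hj, rfl⟩
  · have hδ : ∑ j ∈ τ, lam j * F.lift ρ b j < ∑ j ∈ τ, lam j * b j := by
      obtain ⟨j, hj, hj'⟩ := Finset.not_subset.1 h2
      refine Finset.sum_lt_sum (fun i hi => mul_le_mul_of_nonneg_left ?_ (hl i hi).le)
        ⟨j, hj, mul_lt_mul_of_pos_left (h.lift_lt hb h1 (hτS hj) hj') (hl j hj)⟩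
      by_cases hi' : i ∈ ρ
      · exact (h.lift_eq h1 b hi').le
      · exact (h.lift_lt hb h1 (hτS hi) hi').le
    filter_upwards [nhdsWithin_le_nhds (eventually_lt_nhds (sub_pos.2 hδ))] with t ht
    rintro _ ⟨θ, hθ, rfl⟩ hc i hi hi'
    have a1 : θ = F.lift ρ b := h.ext h1 hθ (h.lift_mem h1 b) fun k hk => by
      have := hc k hk
      rw [upd_ne θ (hne ρ h1 k hk), Function.update_of_ne (hne ρ h1 k hk)] at this
      rw [this, h.lift_eq h1 b hk]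
    subst a1
    by_cases hie : i = e
    · rw [hie, upd_e, Function.update_self]
      linarith
    · rw [upd_ne _ hie, Function.update_of_ne hie]
      exact h.lift_lt hb h1 ((Finset.mem_insert.1 hi).resolve_left hie) hi'
  · have a0 : ∀ᶠ t in 𝓝[>] (0 : ℝ), ∀ i ∈ F.S \ σ,
        F.lift σ b i - t / lam j * F.eta σ j i < b i := by
      rw [Filter.eventually_all_finset]
      intro i hi
      rw [Finset.mem_sdiff] at hi
      have hc : Continuous fun t : ℝ => F.lift σ b i - t / lam j * F.eta σ j i := by fun_prop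
      refine nhdsWithin_le_nhds ((hc.tendsto 0).eventually_lt_const ?_)
      simpa using h.lift_lt hb h1 hi.1 hi.2
    filter_upwards [a0, self_mem_nhdsWithin] with t ht ht0
    rintro _ ⟨θ, hθ, rfl⟩ hc i hi hi'
    have ht0' : 0 < t := ht0
    have a1 : ∀ k ∈ σ.erase j, θ k = b k := fun k hk => by
      have hke := hne σ h1 k (Finset.mem_of_mem_erase hk)
      have := hc k (Finset.mem_insert_of_mem hk)
      rwa [upd_ne θ hke, Function.update_of_ne hke] at this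
    have a2 := hc e (Finset.mem_insert_self _ _)
    rw [upd_e, Function.update_self, sum_split hj, sum_split hj b,
      Finset.sum_congr rfl fun i hi => by rw [a1 i (Finset.erase_subset_erase j h2 hi)]] at a2
    have a3 : θ j = b j - t / lam j := by
      have := (hl j hj).ne'
      field_simp
      linarith
    have a4 : θ = F.lift σ b - (t / lam j) • F.eta σ j := by
      refine h.ext h1 hθ (F.Θ.sub_mem (h.lift_mem h1 b) (F.Θ.smul_mem _ (h.eta_mem h1 j)))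
        fun k hk => ?_
      by_cases hkj : k = j
      · subst hkj
        simp [h.eta_self h1 hk, h.lift_eq h1 b hk, a3]
      · simp [h.eta_ne h1 hk hkj, h.lift_eq h1 b hk, a1 k (Finset.mem_erase.2 ⟨hkj, hk⟩)]
    have hie : i ≠ e := fun h' => hi' (h' ▸ Finset.mem_insert_self _ _)
    rw [upd_ne _ hie, Function.update_of_ne hie]
    by_cases hij : i = j
    · rw [hij, a3]
      have := div_pos ht0' (hl j hj)
      linarith
    · have := ht i (Finset.mem_sdiff.2 ⟨(Finset.mem_insert.1 hi).resolve_left hie,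
        fun h' => hi' (Finset.mem_insert_of_mem (Finset.mem_erase.2 ⟨hij, h'⟩))⟩)
      rw [a4]
      simpa using this

/-- The fibre fan: the boundary of the simplex. -/
def fib (τ : Finset ι) (lam : ι → ℝ) : Fan ι where
  S := τ
  Θ := { carrier := {θ | (∀ k ∉ τ, θ k = 0) ∧ ∑ j ∈ τ, lam j * θ j = 0}
         add_mem' := fun {a b} ha hb => ⟨fun k hk => by simp [ha.1 k hk, hb.1 k hk], by
           simp [mul_add, Finset.sum_add_distrib, ha.2, hb.2]⟩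
         zero_mem' := by simp
         smul_mem' := fun c a ha => ⟨fun k hk => by simp [ha.1 k hk], by
           simp only [Pi.smul_apply, smul_eq_mul, mul_left_comm _ c, ← Finset.mul_sum, ha.2,
             mul_zero]⟩ }
  K := τ.image τ.erase
  n := τ.card - 1

theorem mem_fib {θ : ι → ℝ} :
    θ ∈ (fib τ lam).Θ ↔ (∀ k ∉ τ, θ k = 0) ∧ ∑ j ∈ τ, lam j * θ j = 0 := Iff.rfl

theorem mem_fibK {ρ : Finset ι} : ρ ∈ (fib τ lam).K ↔ ∃ j ∈ τ, τ.erase j = ρ := Finset.mem_image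

/-- The base fan: the link of the face. -/
def base (F : Fan ι) (τ : Finset ι) : Fan ι where
  S := F.S \ τ
  Θ := { carrier := {θ | θ ∈ F.Θ ∧ ∀ j ∈ τ, θ j = 0}
         add_mem' := fun {a b} ha hb =>
           ⟨F.Θ.add_mem ha.1 hb.1, fun k hk => by simp [ha.2 k hk, hb.2 k hk]⟩
         zero_mem' := ⟨F.Θ.zero_mem, fun _ _ => rfl⟩
         smul_mem' := fun c a ha => ⟨F.Θ.smul_mem c ha.1, fun k hk => by simp [ha.2 k hk]⟩ }
  K := (F.K.filter fun σ => τ ⊆ σ).image fun σ => σ \ τ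
  n := F.n - τ.card

theorem mem_base {θ : ι → ℝ} : θ ∈ (base F τ).Θ ↔ θ ∈ F.Θ ∧ ∀ j ∈ τ, θ j = 0 := Iff.rfl

theorem mem_baseK {ρ : Finset ι} : ρ ∈ (base F τ).K ↔ ∃ σ, (σ ∈ F.K ∧ τ ⊆ σ) ∧ σ \ τ = ρ := by
  simp only [base, Finset.mem_image, Finset.mem_filter]

theorem fib_good (hτ : τ.Nonempty) (hl : ∀ j ∈ τ, 0 < lam j) : (fib τ lam).Good := by
  constructor
  · exact hτ.image _
  · intro ρ hρ
    obtain ⟨j, -, rfl⟩ := mem_fibK.1 hρ
    exact Finset.erase_subset _ _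
  · intro ρ hρ
    obtain ⟨j, hj, rfl⟩ := mem_fibK.1 hρ
    exact Finset.card_erase_of_mem hj
  · intro ρ hρ θ hθ h0
    obtain ⟨j, hj, rfl⟩ := mem_fibK.1 hρ
    have a2 := hθ.2
    rw [sum_split hj, Finset.sum_eq_zero fun i hi => by rw [h0 i hi, mul_zero], add_zero] at a2
    ext k
    by_cases hk : k ∈ τ
    · by_cases hkj : k = j
      · rw [hkj]; exact (mul_eq_zero.1 a2).resolve_left (hl j hj).ne'
      · exact h0 k (Finset.mem_erase.2 ⟨hkj, hk⟩)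
    · exact hθ.1 k hk
  · intro ρ hρ c
    obtain ⟨j, hj, rfl⟩ := mem_fibK.1 hρ
    have a1 : ∀ k ∈ τ.erase j, (if k ∈ τ then
        Function.update c j (-(∑ i ∈ τ.erase j, lam i * c i) / lam j) k else 0) = c k :=
      fun k hk => by
        rw [if_pos (Finset.mem_of_mem_erase hk), Function.update_of_ne (Finset.ne_of_mem_erase hk)]
    refine ⟨fun k => if k ∈ τ then
      Function.update c j (-(∑ i ∈ τ.erase j, lam i * c i) / lam j) k else 0,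
      ⟨fun k hk => if_neg hk, ?_⟩, a1⟩
    rw [sum_split hj, if_pos hj, Function.update_self, mul_div_cancel₀ _ (hl j hj).ne',
      neg_add_eq_zero]
    exact Finset.sum_congr rfl fun i hi => by rw [a1 i hi]
  · intro ρ hρ k hk
    obtain ⟨j, hj, rfl⟩ := mem_fibK.1 hρ
    exact ⟨_, mem_fibK.2 ⟨k, Finset.mem_of_mem_erase hk, rfl⟩, Finset.notMem_erase _ _,
      Finset.erase_subset_erase _ (Finset.erase_subset _ _)⟩

theorem fib_ample (hl : ∀ j ∈ τ, 0 < lam j) : (fib τ lam).Ample fun _ => 1 := by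
  intro ρ hρ θ hθ hc i hi hi'
  obtain ⟨j, hj, rfl⟩ := mem_fibK.1 hρ
  have hij : i = j := by
    by_contra h'
    exact hi' (Finset.mem_erase.2 ⟨h', hi⟩)
  have a2 := hθ.2
  rw [sum_split hj] at a2
  have a3 : 0 ≤ ∑ i ∈ τ.erase j, lam i * θ i := Finset.sum_nonneg fun k hk => by
    rw [hc k hk, mul_one]; exact (hl k (Finset.mem_of_mem_erase hk)).le
  have := hl j hj
  rw [hij]
  by_contra h'
  nlinarith [not_lt.1 h']

theorem base_good (h : F.Good) (hσ : ∃ σ ∈ F.K, τ ⊆ σ) : (base F τ).Good := by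
  constructor
  · obtain ⟨σ, h1, h2⟩ := hσ
    exact ⟨_, mem_baseK.2 ⟨σ, ⟨h1, h2⟩, rfl⟩⟩
  · intro ρ hρ
    obtain ⟨σ, ⟨h1, -⟩, rfl⟩ := mem_baseK.1 hρ
    exact Finset.sdiff_subset_sdiff (h.sub σ h1) le_rfl
  · intro ρ hρ
    obtain ⟨σ, ⟨h1, h2⟩, rfl⟩ := mem_baseK.1 hρ
    rw [Finset.card_sdiff_of_subset h2, h.card σ h1]
    rfl
  · intro ρ hρ θ hθ h0
    obtain ⟨σ, ⟨h1, -⟩, rfl⟩ := mem_baseK.1 hρ
    refine h.inj σ h1 θ hθ.1 fun k hk => ?_
    by_cases hkτ : k ∈ τ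
    · exact hθ.2 k hkτ
    · exact h0 k (Finset.mem_sdiff.2 ⟨hk, hkτ⟩)
  · intro ρ hρ c
    obtain ⟨σ, ⟨h1, h2⟩, rfl⟩ := mem_baseK.1 hρ
    obtain ⟨θ, hθ, hc⟩ := h.surj σ h1 fun k => if k ∈ τ then 0 else c k
    refine ⟨θ, ⟨hθ, fun j hj => by rw [hc j (h2 hj), if_pos hj]⟩, fun k hk => ?_⟩
    rw [Finset.mem_sdiff] at hk
    rw [hc k hk.1, if_neg hk.2]
  · intro ρ hρ k hk
    obtain ⟨σ, ⟨h1, h2⟩, rfl⟩ := mem_baseK.1 hρ
    rw [Finset.mem_sdiff] at hk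
    obtain ⟨σ', a1, a2, a3⟩ := h.nbr σ h1 k hk.1
    have a4 : τ ⊆ σ' := fun i hi => a3 (Finset.mem_erase.2 ⟨fun h' => hk.2 (h' ▸ hi), h2 hi⟩)
    refine ⟨_, mem_baseK.2 ⟨σ', ⟨a1, a4⟩, rfl⟩, fun h' => a2 (Finset.mem_sdiff.1 h').1,
      fun i hi => ?_⟩
    rw [Finset.mem_erase, Finset.mem_sdiff] at hi
    exact Finset.mem_sdiff.2 ⟨a3 (Finset.mem_erase.2 ⟨hi.1, hi.2.1⟩), hi.2.2⟩

theorem base_ample (hb : F.Ample b) {θ : ι → ℝ} (hθ : θ ∈ F.Θ) (hc : ∀ j ∈ τ, θ j = b j) :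
    (base F τ).Ample (b - θ) := by
  intro ρ hρ θ2 hθ2 hc2 i hi hi'
  obtain ⟨σ, ⟨h1, -⟩, rfl⟩ := mem_baseK.1 hρ
  have hi2 := Finset.mem_sdiff.1 hi
  have := hb σ h1 (θ2 + θ) (F.Θ.add_mem hθ2.1 hθ) (fun k hk => by
    by_cases hkτ : k ∈ τ
    · simp [hθ2.2 k hkτ, hc k hkτ]
    · simp [hc2 k (Finset.mem_sdiff.2 ⟨hk, hkτ⟩)]) i hi2.1
    fun h' => hi' (Finset.mem_sdiff.2 ⟨h', hi2.2⟩)
  simp only [Pi.add_apply, Pi.sub_apply] at this ⊢
  linarith

theorem bundle (h : F.Good) (hτ : τ.Nonempty) (hσ : ∃ σ ∈ F.K, τ ⊆ σ) (he : e ∉ F.S) :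
    Bundle (F.stellar τ lam e) (fib τ lam) (base F τ) e := by
  obtain ⟨σ0, hσ0, hτ0⟩ := hσ
  have hτS : τ ⊆ F.S := hτ0.trans (h.sub σ0 hσ0)
  have hne : ∀ k ∈ F.S, k ≠ e := fun k hk hke => he (hke ▸ hk)
  have key : ∀ σ, τ ⊆ σ → ∀ j ∈ τ, σ.erase j = τ.erase j ∪ σ \ τ := by
    intro σ hs j hj
    ext i
    simp only [Finset.mem_erase, Finset.mem_union, Finset.mem_sdiff]
    constructor
    · rintro ⟨a1, a2⟩
      by_cases hi : i ∈ τ
      · exact Or.inl ⟨a1, hi⟩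
      · exact Or.inr ⟨a2, hi⟩
    · rintro (⟨a1, a2⟩ | ⟨a1, a2⟩)
      · exact ⟨a1, hs a2⟩
      · exact ⟨fun h' => a2 (h' ▸ hj), a1⟩
  constructor
  · exact Finset.mem_insert_self _ _
  · exact hτS.trans (Finset.subset_insert _ _)
  · exact Finset.sdiff_subset.trans (Finset.subset_insert _ _)
  · exact fun h' => he (hτS h')
  · exact fun h' => he (Finset.mem_sdiff.1 h').1
  · exact Finset.disjoint_sdiff
  · have a1 := Finset.card_le_card hτ0
    have a2 := hτ.card_pos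
    rw [h.card σ0 hσ0] at a1
    change F.n = τ.card - 1 + (F.n - τ.card) + 1
    omega
  · intro ρ
    constructor
    · rintro ⟨h1, h2⟩
      rcases mem_K.1 h1 with ⟨h3, -⟩ | ⟨σ, h3, h4, j, hj, rfl⟩
      · exact absurd (h.sub ρ h3 h2) he
      · exact ⟨_, mem_fibK.2 ⟨j, hj, rfl⟩, _, mem_baseK.2 ⟨σ, ⟨h3, h4⟩, rfl⟩, by
          rw [key σ h4 j hj]⟩
    · rintro ⟨σ1, h1, σ2, h2, rfl⟩
      obtain ⟨j, hj, rfl⟩ := mem_fibK.1 h1
      obtain ⟨σ, ⟨h3, h4⟩, rfl⟩ := mem_baseK.1 h2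
      exact ⟨mem_K.2 (Or.inr ⟨σ, h3, h4, j, hj, by rw [key σ h4 j hj]⟩),
        Finset.mem_insert_self _ _⟩
  · intro θ hθ
    refine ⟨_, ⟨θ, hθ.1, rfl⟩, ?_, fun j hj => ?_, fun j hj => ?_⟩
    · rw [upd_e]
      exact Finset.sum_eq_zero fun j hj => by rw [hθ.2 j hj, mul_zero]
    · rw [upd_ne θ (hne j (hτS hj)), hθ.2 j hj]
    · exact upd_ne θ (hne j (Finset.mem_sdiff.1 hj).1)
  · intro θ1 hθ1
    obtain ⟨θ, hθ, hc⟩ := h.surj σ0 hσ0 θ1
    refine ⟨_, ⟨θ, hθ, rfl⟩, ?_, fun j hj => ?_⟩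
    · rw [upd_e, ← hθ1.2]
      exact Finset.sum_congr rfl fun j hj => by rw [hc j (hτ0 hj)]
    · rw [upd_ne θ (hne j (hτS hj)), hc j (hτ0 hj)]

end StGeoP

open StGeoP in
theorem stGeo : StGeoStmt := fun h hb hτ hσ hl he =>
  ⟨good h hτ hσ hl he, ample h hb hσ hl he, _, _, bundle h hτ hσ he, fib_good hτ hl,
    base_good h hσ, rfl, rfl, fib_ample hl, rfl, fun _ => mem_base,
    fun _ hθ hc => base_ample hb hθ hc⟩

end Pool.Agent.P.MP_cedf91_co
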