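import Pool.Agent.P.MP_cedf91_co.Stellar0

/-! Invariance of the Hodge-Riemann relations under stellar subdivision. -/

namespace Pool.Agent.P.MP_cedf91_co

open Submodule Filter Topology MvPolynomial

namespace StellarP

theorem gen_eq {ι : Type} (j0 : ι) (l κ : ℝ) (u : ℕ) :
    (l • (X j0 : PR ι)) ^ u * (κ • 1) = (l ^ u * κ) • X j0 ^ u := by
  rw [smul_pow, mul_smul_comm, mul_one, smul_smul, mul_comm]

theorem exists_fibData {ι : Type} {F1 : Fan ι} {φ1 : PR ι →ₗ[ℝ] ℝ} {j0 : ι} {l : ℝ} (hl : 0 < l)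
    (v1 : F1.IsVol φ1) (hj : j0 ∈ F1.S) (hs1 : ∀ i, RS F1.S i ≤ span ℝ {X j0 ^ i} ⊔ ann φ1)
    (hs2 : 0 < φ1 (X j0 ^ F1.n)) : ∃ κ : ℝ, κ ≠ 0 ∧
      FibData φ1 F1.S F1.n (l • X j0) (S := Unit) (I := Empty) (fun _ => 0)
        (fun _ => κ • 1) Empty.elim Empty.elim Empty.elim := by
  have hL : l • (X j0 : PR ι) ∈ RS F1.S 1 := smul_mem _ _ (X_mem_RS hj)
  have hpos : 0 < φ1 ((l • X j0) ^ F1.n) := by
    rw [smul_pow, map_smul]
    exact mul_pos (pow_pos hl _) hs2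
  obtain ⟨κ, hκ0, hκ⟩ : ∃ κ : ℝ, κ ≠ 0 ∧ κ * κ * φ1 ((l • X j0) ^ F1.n) = 1 :=
    ⟨(√(φ1 ((l • X j0) ^ F1.n)))⁻¹, inv_ne_zero (Real.sqrt_pos.2 hpos).ne', by
      rw [← mul_inv, Real.mul_self_sqrt hpos.le, inv_mul_cancel₀ hpos.ne']⟩
  refine ⟨κ, hκ0,
    { Lmem := hL
      pmem := fun _ => smul_mem _ _ one_mem_RS
      deg := fun _ => Nat.zero_le _
      val := fun _ => ?_
      orth := fun _ _ _ h => absurd rfl h
      top := fun _ => ann_mul_right (v1.high (Nat.lt_succ_self _)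
        (RS_le_HS _ (pow_mem_RS hL _))) _
      dle := fun i => i.elim
      νmem := fun i => i.elim
      νmem' := fun i => i.elim
      dual := fun i => i.elim
      pν := fun _ _ i => i.elim
      pν' := fun _ _ i => i.elim
      span := fun k => (hs1 k).trans (sup_le_sup_right (le_sup_of_le_left (span_le.2 ?_)) _) }⟩
  · rw [smul_mul_smul_comm, one_mul, smul_mul_assoc, one_mul, map_smul, pow_zero]
    exact hκ
  · rintro _ rfl
    have : (X j0 : PR ι) ^ k = (l ^ k * κ)⁻¹ • ((l • (X j0 : PR ι)) ^ k * (κ • 1)) := by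
      rw [gen_eq, smul_smul, inv_mul_cancel₀ (mul_ne_zero (pow_ne_zero _ hl.ne') hκ0), one_smul]
    rw [this]
    exact smul_mem _ _ (subset_span ⟨(), k, zero_add k, rfl⟩)

theorem mem_M {ι : Type} {φ : PR ι →ₗ[ℝ] ℝ} {U : Submodule ℝ (PR ι)} {S2 : Finset ι} {e j0 : ι}
    {n1 : ℕ} {l κ : ℝ} (hl : l ≠ 0) (hκ : κ ≠ 0) (x : PR ι) :
    x ∈ perp φ U {x | ∃ (_ : Unit) (u q : ℕ), ∃ β ∈ RS S2 q, 2 * 0 + u < n1 ∧
      x = X e * ((l • X j0) ^ u * (κ • 1)) * β} ↔ x ∈ U ∧ x ∈ Y φ S2 e j0 n1 := by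
  refine and_congr_right fun _ => ⟨fun h u q β hβ hu => ?_, ?_⟩
  · have := h _ ⟨(), u, q, β, hβ, by omega, rfl⟩
    rw [gen_eq, mul_smul_comm, smul_mul_assoc, mul_smul_comm, map_smul, smul_eq_mul] at this
    exact (mul_eq_zero.1 this).resolve_left (mul_ne_zero (pow_ne_zero _ hl) hκ)
  · rintro h _ ⟨s, u, q, β, hβ, hu, rfl⟩
    rw [gen_eq, mul_smul_comm, smul_mul_assoc, mul_smul_comm, map_smul,
      h u q β hβ (by omega), smul_zero]

theorem stab {ι : Type} {S : Finset ι} {x : PR ι} (hx : x ∈ RS S 1) : Stab (RS S) x :=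
  fun i _ hy => add_comm 1 i ▸ mul_mem_RS hx hy

theorem bridge (H : LinLib) (HV : FanVolStmt) (HJ : FanJLib) (HB : BundleStmt) (HF : FibStmt)
    (HG : StGeoStmt) (HSi : SimplexStmt) {ι : Type} [DecidableEq ι] {F : Fan ι} {b lam : ι → ℝ}
    {τ : Finset ι} {e : ι} (hM : ∀ m < F.n, McM ι m) (hF : F.Good) (hb : F.Ample b)
    (hτ : τ.Nonempty) (hσ : ∃ σ ∈ F.K, τ ⊆ σ) (hlam : ∀ j ∈ τ, 0 < lam j) (he : e ∉ F.S)
    {φ φh : PR ι →ₗ[ℝ] ℝ} (hφ : F.IsVol φ) (hφh : (F.stellar τ lam e).IsVol φh) :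
    Num φ (RS F.S) (lin F.S b) F.n ↔ ∀ᶠ t in 𝓝[>] (0 : ℝ), Num φh (RS (F.stellar τ lam e).S)
      (lin (F.stellar τ lam e).S (Function.update b e (∑ j ∈ τ, lam j * b j - t)))
      (F.stellar τ lam e).n := by
  have hS : (F.stellar τ lam e).S = insert e F.S := rfl
  obtain ⟨hFh, hev, F1, F2, hB, hF1, hF2, s1, k1, a1, s2, -, a2⟩ := HG hF hb hτ hσ hlam he
  obtain ⟨σ0, hσ0, hτσ⟩ := hσ
  obtain ⟨j0, hj0⟩ := hτ
  obtain ⟨t0, ht0⟩ := hev.exists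
  have hθ := hF.lift_mem hσ0 b
  have hθb : ∀ j ∈ τ, F.lift σ0 b j = b j := fun j hj => hF.lift_eq hσ0 b (hτσ hj)
  have a2' := a2 _ hθ hθb
  obtain ⟨φ1, v1⟩ := HV hF1 a1
  obtain ⟨φ2, v2⟩ := HV hF2 a2'
  obtain ⟨c, out⟩ := HB hB hFh hF1 hF2 a1 a2' hφh v1 v2
  obtain ⟨hs1, hs2, -⟩ := HSi hF1 a1 v1 (s1 ▸ subset_rfl) k1 hj0
  have C : Ctx F F1 F2 τ lam e σ0 φh φ1 φ2 c j0 :=
    ⟨hF, hσ0, hτσ, he, hlam, hφh, v1, s1, k1, s2, out,
      hF1.card _ (k1 ▸ Finset.mem_image_of_mem _ hj0), hj0, s1 ▸ hs1⟩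
  have hl := hlam _ hj0
  obtain ⟨κ, hκ, FD⟩ := exists_fibData (inv_pos.2 hl) v1 (s1 ▸ hj0) hs1 hs2
  obtain ⟨β, hβ, hβ1⟩ := C.red1 (C.τS hj0)
  have hβ0 : X e * (X e + (lam j0)⁻¹ • X j0 - (lam j0)⁻¹ • β) ∈ ann φh := by
    have := smul_mem _ (lam j0)⁻¹ hβ1
    rw [psi_in (ne_of_mem_of_not_mem hj0 C.eτ) hj0, smul_sub, smul_add, smul_smul,
      inv_mul_cancel₀ hl.ne', one_smul, add_comm] at this
    exact ann_mul_left this _
  have hℓ : psi τ lam e (lin F.S b) ∈ RS (insert e F.S) 1 := psi_RS he (lin_mem_RS subset_rfl b)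
  have hℓ2 : X e * (psi τ lam e (lin F.S b) - lin F2.S (b - F.lift σ0 b)) ∈ ann φh := by
    have h1 : lin τ (b - F.lift σ0 b) = 0 :=
      Finset.sum_eq_zero fun j hj => by rw [Pi.sub_apply, hθb j hj, sub_self, zero_smul]
    have h2 : lin F2.S (b - F.lift σ0 b) = psi τ lam e (lin F.S (b - F.lift σ0 b)) := by
      rw [lin_split C.τS, h1, add_zero, psi_fix he (lin_mem_RS subset_rfl _), s2]
    rw [h2, lin_sub, map_sub, sub_sub_cancel]
    exact ann_mul_left (C.theta hθ) _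
  have hX : (X e : PR ι) ∈ RS (insert e F.S) 1 := X_mem_RS (Finset.mem_insert_self _ _)
  have hn : F2.n < F.n := lt_of_lt_of_eq (Nat.lt_succ_of_le (Nat.le_add_left _ _)) hB.dim.symm
  have hβ2 : (lam j0)⁻¹ • β ∈ RS F2.S 1 := by rw [s2]; exact smul_mem _ _ hβ
  have hV : GSub φh (HS ι) (RS (insert e F.S)) := by
    rw [← hS]; exact HJ.gsub hFh ht0 hφh
  have hN : Num φ2 (RS F2.S) (lin F2.S (b - F.lift σ0 b)) F2.n := hM _ hn F2 rfl hF2 _ a2' _ v2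
  have key := HF hB out hφh v1 v2 (HJ.gsub hF2 a2' v2) FD hβ2 hβ0 (RS_le_HS _ hℓ)
    (lin_mem_RS subset_rfl _) hℓ2 hN hV (RS_mono hS.ge) (stab hℓ) (stab hX)
    (fun _ _ _ j => j.elim) (fun _ _ _ j => j.elim)
    fun i γ hγ _ => stab hX i γ (Fil_le_RS (hB.s1.trans hS.le) (hB.s2.trans hS.le) hγ)
  obtain ⟨hG, -, hiff⟩ := key _ fun _ => rfl
  have hle := C.le_M hG fun i x => s2 ▸ mem_M (inv_ne_zero hl.ne') hκ x
  obtain ⟨c', hc'⟩ := HJ.uniq hF hb hφ (φh ∘ₗ (psi τ lam e).toLinearMap)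
    (fun i hi x hx => hφh.deg i hi _ (psi_HS hx))
    (fun θ hθ y => by
      change φh (psi τ lam e (lin F.S θ * y)) = 0
      rw [map_mul]
      exact C.theta hθ _)
    (fun ρ hρ y => by
      change φh (psi τ lam e (xs ρ * y)) = 0
      rw [map_mul]
      exact C.nonface hρ _)
  have hc0 : 0 < c' := by
    have h1 := C.psi_pos
    have h2 : φh (psi τ lam e (xs σ0)) = c' * φ (xs σ0) := hc' _
    rw [h2] at h1
    exact (mul_pos_iff_of_pos_right (hφ.pos _ hσ0)).1 h1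
  have hfin : ∀ t : ℝ, lin (insert e F.S) (Function.update b e (∑ j ∈ τ, lam j * b j - t)) =
      psi τ lam e (lin F.S b) - t • X e := fun t => by
    rw [lin_update he, psi_lin he C.τS, sub_smul]
    abel
  simp only [hS, hfin]
  refine Iff.trans ?_ hiff
  rw [H.numMap (psi τ lam e) hc0 hc' fun i x hx hx' => C.J_ann (HJ.memJ hF hb hφ i x hx hx')]
  exact ⟨H.numCongr (fun i => le_sup_of_le_left (hle i).1) (fun i => (hle i).2)
      (by rw [sub_self]; exact zero_mem _),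
    H.numCongr (fun i => (hle i).2) (fun i => le_sup_of_le_left (hle i).1)
      (by rw [sub_self]; exact zero_mem _)⟩

end StellarP

theorem stellar (H : LinLib) (HL : LefLib) (HV : FanVolStmt) (HJ : FanJLib) (HB : BundleStmt)
    (HF : FibStmt) (HW : WLStmt) (HG : StGeoStmt) (HS : SimplexStmt) : StellarStmt := by
  intro ι _ F b lam τ e hM hF hb hτ hσ hlam he
  obtain ⟨hFh, hev, -⟩ := HG hF hb hτ hσ hlam he
  constructor
  · intro h bh hbh φh hφh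
    obtain ⟨φ, hφ⟩ := HV hF hb
    have h1 := (StellarP.bridge H HV HJ HB HF HG HS hM hF hb hτ hσ hlam he hφ hφh).1
      (h b hb φ hφ)
    obtain ⟨t, ht1, ht2⟩ := (hev.and h1).exists
    exact HW (F := F.stellar τ lam e) hM hFh hφh ht1 hbh ht2
  · intro h b' hb' φ hφ
    obtain ⟨t0, ht0⟩ := hev.exists
    obtain ⟨φh, hφh⟩ := HV hFh ht0
    refine (StellarP.bridge H HV HJ HB HF HG HS hM hF hb' hτ hσ hlam he hφ hφh).2 ?_
    exact (HG hF hb' hτ hσ hlam he).2.1.mono fun t ht => h _ ht φh hφh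

end Pool.Agent.P.MP_cedf91_co
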