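import Pool.Agent.P.MP_cedf91_co.KFan

/-! Sweeping a simple polytope by a generic hyperplane. -/

namespace Pool.Agent.P.MP_cedf91_co

namespace SweepP

open Fan

variable {ι : Type} [DecidableEq ι]

/-- The ridge `σ.erase k` lies in exactly one facet of `T`. -/
def Cr (T : Finset (Finset ι)) (σ : Finset ι) (k : ι) : Prop :=
  σ ∈ T ∧ k ∈ σ ∧ ∀ σ' ∈ T, σ.erase k ⊆ σ' → σ' = σ

open Classical in
/-- The facets of `T` together with the cone over the boundary of `T`. -/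
noncomputable def KT (o : ι) (T : Finset (Finset ι)) : Finset (Finset ι) :=
  T ∪ T.biUnion fun σ => (σ.filter fun k => Cr T σ k).image fun k => insert o (σ.erase k)

theorem mem_KT {o : ι} {T : Finset (Finset ι)} {ρ : Finset ι} :
    ρ ∈ KT o T ↔ ρ ∈ T ∨ ∃ σ k, Cr T σ k ∧ ρ = insert o (σ.erase k) := by
  simp only [KT, Finset.mem_union, Finset.mem_biUnion, Finset.mem_image, Finset.mem_filter]
  refine or_congr Iff.rfl ⟨?_, ?_⟩
  · rintro ⟨σ, -, k, ⟨-, h⟩, rfl⟩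
    exact ⟨σ, k, h, rfl⟩
  · rintro ⟨σ, k, h, rfl⟩
    exact ⟨σ, h.1, k, ⟨h.2.1, h⟩, rfl⟩

/-- The new coordinate. -/
noncomputable def Uo (o : ι) (ξ : (ι → ℝ) →ₗ[ℝ] ℝ) : (ι → ℝ) →ₗ[ℝ] (ι → ℝ) :=
  LinearMap.pi fun k => if k = o then -ξ else LinearMap.proj k

theorem Uo_self (o : ι) (ξ : (ι → ℝ) →ₗ[ℝ] ℝ) (θ : ι → ℝ) : Uo o ξ θ o = -ξ θ := by
  simp [Uo]

theorem Uo_ne {o k : ι} (h : k ≠ o) (ξ : (ι → ℝ) →ₗ[ℝ] ℝ) (θ : ι → ℝ) : Uo o ξ θ k = θ k := by
  simp [Uo, h]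

/-- The fan of the truncated polytope. -/
noncomputable def cut (F : Fan ι) (o : ι) (ξ : (ι → ℝ) →ₗ[ℝ] ℝ) (T : Finset (Finset ι)) : Fan ι :=
  ⟨insert o F.S, F.Θ.map (Uo o ξ), KT o T, F.n⟩

variable {F : Fan ι} {b : ι → ℝ} {ξ : (ι → ℝ) →ₗ[ℝ] ℝ} {o : ι} {T : Finset (Finset ι)}

theorem not_mem_of_ne (h : F.Good) {σ σ' : Finset ι} (hσ : σ ∈ F.K) (hσ' : σ' ∈ F.K) {k : ι}
    (hs : σ.erase k ⊆ σ') (hne : σ' ≠ σ) : k ∉ σ' := fun hk =>
  hne (Finset.eq_of_subset_of_card_le (fun j hj => by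
    by_cases e : j = k
    · exact e ▸ hk
    · exact hs (Finset.mem_erase.2 ⟨e, hj⟩)) (by rw [h.card σ hσ, h.card σ' hσ'])).symm

/-- A ridge contained in a facet is obtained from it by removing a vertex. -/
theorem exists_erase (h : F.Good) {σ ε : Finset ι} (hσ : σ ∈ F.K) (hc : ε.card + 1 = F.n)
    (hs : ε ⊆ σ) : ∃ k ∈ σ, ε = σ.erase k := by
  obtain ⟨k, hk, rfl⟩ := Finset.exists_eq_insert_iff.2 ⟨hs, hc.trans (h.card σ hσ).symm⟩
  exact ⟨k, Finset.mem_insert_self _ _, (Finset.erase_insert hk).symm⟩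

theorem card_erase (h : F.Good) {σ : Finset ι} (hσ : σ ∈ F.K) {k : ι} (hk : k ∈ σ) :
    (σ.erase k).card + 1 = F.n := by
  rw [Finset.card_erase_add_one hk, h.card σ hσ]

/-- The boundary of the boundary vanishes. -/
theorem parity (h : F.Good) (hb : F.Ample b) (hT : T ⊆ F.K) {σ : Finset ι} {k j : ι}
    (hc : Cr T σ k) (hj : j ∈ σ.erase k) :
    ∃ σ' i, Cr T σ' i ∧ j ∉ σ'.erase i ∧ (σ.erase k).erase j ⊆ σ'.erase i := by
  by_contra hcon
  set ρ := (σ.erase k).erase j with hρ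
  have hσ := hT hc.1
  have hρc : ρ.card + 2 = F.n := by
    have a1 : ρ.card + 1 = (σ.erase k).card := Finset.card_erase_add_one hj
    have a2 := card_erase h hσ hc.2.1
    omega
  have hjρ : j ∉ ρ := Finset.notMem_erase _ _
  have hjS : j ∈ F.S \ ρ :=
    Finset.mem_sdiff.2 ⟨h.sub σ hσ (Finset.mem_of_mem_erase hj), hjρ⟩
  have e := Finset.sum_card_bipartiteAbove_eq_sum_card_bipartiteBelow (s := F.S \ ρ) (t := T)
    (r := fun i σ' => insert i ρ ⊆ σ')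
  have h1 : Even (∑ σ' ∈ T, ((F.S \ ρ).bipartiteBelow (fun i σ' => insert i ρ ⊆ σ') σ').card) := by
    refine Finset.even_sum _ fun σ' hσ' => ?_
    by_cases hs : ρ ⊆ σ'
    · have : (F.S \ ρ).bipartiteBelow (fun i σ' => insert i ρ ⊆ σ') σ' = σ' \ ρ := by
        ext i
        simp only [Finset.mem_bipartiteBelow, Finset.mem_sdiff, Finset.insert_subset_iff]
        exact ⟨fun h1 => ⟨h1.2.1, h1.1.2⟩, fun h1 => ⟨⟨h.sub _ (hT hσ') h1.1, h1.2⟩, h1.1, hs⟩⟩
      rw [this, Finset.card_sdiff_of_subset hs, h.card _ (hT hσ'), show F.n - ρ.card = 2 by omega]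
      exact even_two
    · have : (F.S \ ρ).bipartiteBelow (fun i σ' => insert i ρ ⊆ σ') σ' = ∅ := by
        ext i
        simp only [Finset.mem_bipartiteBelow, Finset.insert_subset_iff, Finset.notMem_empty,
          iff_false]
        exact fun h1 => hs h1.2.2
      rw [this]
      exact Even.zero
  have h2 : (T.bipartiteAbove (fun i σ' => insert i ρ ⊆ σ') j).card = 1 := by
    refine Finset.card_eq_one.2 ⟨σ, ?_⟩
    ext σ'
    rw [Finset.mem_bipartiteAbove, hρ, Finset.insert_erase hj, Finset.mem_singleton]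
    exact ⟨fun h1 => hc.2.2 σ' h1.1 h1.2, fun h1 => by
      rw [h1]; exact ⟨hc.1, Finset.erase_subset _ _⟩⟩
  have h3 : Even (∑ i ∈ (F.S \ ρ).erase j,
      (T.bipartiteAbove (fun i σ' => insert i ρ ⊆ σ') i).card) := by
    refine Finset.even_sum _ fun i hi => ?_
    obtain ⟨hij, hi⟩ := Finset.mem_erase.1 hi
    have hiρ := (Finset.mem_sdiff.1 hi).2
    rcases (T.bipartiteAbove (fun i σ' => insert i ρ ⊆ σ') i).eq_empty_or_nonempty with
      h0 | ⟨σ1, h0⟩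
    · rw [h0]
      exact Even.zero
    rw [Finset.mem_bipartiteAbove] at h0
    obtain ⟨l, hl, el⟩ := exists_erase h (hT h0.1) (ε := insert i ρ)
      (by rw [Finset.card_insert_of_notMem hiρ]; omega) h0.2
    have hn : ¬ Cr T σ1 l := fun h1 => hcon ⟨σ1, l, h1, by
      rw [← el, Finset.mem_insert]
      exact fun h2 => h2.elim (fun e => hij e.symm) hjρ, el ▸ Finset.subset_insert _ _⟩
    obtain ⟨σ2, hσ2, hs2, hne⟩ : ∃ σ2 ∈ T, σ1.erase l ⊆ σ2 ∧ σ2 ≠ σ1 := by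
      by_contra h1
      push Not at h1
      exact hn ⟨h0.1, hl, h1⟩
    have : T.bipartiteAbove (fun i σ' => insert i ρ ⊆ σ') i = {σ2, σ1} := by
      ext σ3
      rw [Finset.mem_bipartiteAbove, el, Finset.mem_insert, Finset.mem_singleton]
      refine ⟨fun h1 => ?_, ?_⟩
      · by_cases h2 : σ3 = σ1
        · exact Or.inr h2
        · exact Or.inl (h.nbr_uniq hb (hT h0.1) (hT h1.1) (hT hσ2) hl
            (not_mem_of_ne h (hT h0.1) (hT h1.1) h1.2 h2) h1.2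
            (not_mem_of_ne h (hT h0.1) (hT hσ2) hs2 hne) hs2)
      · rintro (rfl | rfl)
        · exact ⟨hσ2, hs2⟩
        · exact ⟨h0.1, Finset.erase_subset _ _⟩
    rw [this, Finset.card_pair hne]
    exact even_two
  rw [← e, ← Finset.add_sum_erase _ _ hjS, h2, add_comm, Nat.even_add_one] at h1
  exact h1 h3

theorem ne_o (h : F.Good) (ho : o ∉ F.S) {σ : Finset ι} (hσ : σ ∈ F.K) {k : ι} (hk : k ∈ σ) :
    k ≠ o := fun e => ho (e ▸ h.sub σ hσ hk)

/-- A form that agrees with `c` on a ridge. -/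
theorem eq_edge (h : F.Good) {σ : Finset ι} (hσ : σ ∈ F.K) {k : ι} (hk : k ∈ σ) {θ c : ι → ℝ}
    (hθ : θ ∈ F.Θ) (hc : ∀ j ∈ σ.erase k, θ j = c j) :
    θ = F.lift σ c - (c k - θ k) • F.eta σ k := by
  refine h.ext hσ hθ (F.Θ.sub_mem (h.lift_mem hσ c) (F.Θ.smul_mem _ (h.eta_mem hσ k)))
    fun j hj => ?_
  by_cases e : j = k
  · subst e
    simp [h.eta_self hσ hj, h.lift_eq hσ c hj]
  · simp [h.eta_ne hσ hj e, h.lift_eq hσ c hj, hc j (Finset.mem_erase.2 ⟨e, hj⟩)]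

theorem cut_good (h : F.Good) (hb : F.Ample b) (hξ : F.Gen b ξ) (ho : o ∉ F.S) (hT : T ⊆ F.K)
    (hne : T.Nonempty) : (cut F o ξ T).Good where
  ne := hne.imp fun _ hσ => mem_KT.2 (Or.inl hσ)
  sub ρ hρ := by
    rcases mem_KT.1 hρ with h1 | ⟨σ, k, hc, rfl⟩
    · exact (h.sub ρ (hT h1)).trans (Finset.subset_insert _ _)
    · exact Finset.insert_subset_insert _ ((Finset.erase_subset _ _).trans (h.sub σ (hT hc.1)))
  card ρ hρ := by
    rcases mem_KT.1 hρ with h1 | ⟨σ, k, hc, rfl⟩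
    · exact h.card ρ (hT h1)
    · rw [Finset.card_insert_of_notMem fun h1 =>
        ne_o h ho (hT hc.1) (Finset.mem_of_mem_erase h1) rfl]
      exact card_erase h (hT hc.1) hc.2.1
  inj ρ hρ := by
    rintro _ ⟨θ, hθ, rfl⟩ h0
    suffices θ = 0 by rw [this, map_zero]
    rcases mem_KT.1 hρ with h1 | ⟨σ, k, hc, rfl⟩
    · exact h.inj ρ (hT h1) θ hθ fun k hk => by
        rw [← h0 k hk, Uo_ne (ne_o h ho (hT h1) hk)]
    · have hσ := hT hc.1
      have h1 : ∀ j ∈ σ.erase k, θ j = 0 := fun j hj => by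
        rw [← h0 j (Finset.mem_insert_of_mem hj),
          Uo_ne (ne_o h ho hσ (Finset.mem_of_mem_erase hj))]
      have h2 := h0 o (Finset.mem_insert_self _ _)
      rw [Uo_self, neg_eq_zero, h.eq_sum hσ hθ, ← Finset.add_sum_erase _ _ hc.2.1,
        Finset.sum_eq_zero fun j hj => by rw [h1 j hj, zero_smul], add_zero, map_smul,
        smul_eq_mul, mul_eq_zero] at h2
      refine h.inj σ hσ θ hθ fun j hj => ?_
      by_cases e : j = k
      · exact e ▸ h2.resolve_right (hξ.edge σ hσ k hc.2.1)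
      · exact h1 j (Finset.mem_erase.2 ⟨e, hj⟩)
  surj ρ hρ c := by
    rcases mem_KT.1 hρ with h1 | ⟨σ, k, hc, rfl⟩
    · exact ⟨_, ⟨_, h.lift_mem (hT h1) c, rfl⟩, fun k hk => by
        rw [Uo_ne (ne_o h ho (hT h1) hk), h.lift_eq (hT h1) c hk]⟩
    · have hσ := hT hc.1
      refine ⟨_, ⟨F.lift σ c - ((c o + ξ (F.lift σ c)) / ξ (F.eta σ k)) • F.eta σ k,
        F.Θ.sub_mem (h.lift_mem hσ c) (F.Θ.smul_mem _ (h.eta_mem hσ k)), rfl⟩, fun j hj => ?_⟩
      rcases Finset.mem_insert.1 hj with rfl | hj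
      · rw [Uo_self, map_sub, map_smul, smul_eq_mul, div_mul_cancel₀ _ (hξ.edge σ hσ k hc.2.1)]
        ring
      · obtain ⟨e, hj⟩ := Finset.mem_erase.1 hj
        simp [Uo_ne (ne_o h ho hσ hj), h.eta_ne hσ hj e, h.lift_eq hσ c hj]
  nbr ρ hρ j hj := by
    rcases mem_KT.1 hρ with h1 | ⟨σ, k, hc, rfl⟩
    · by_cases hc : Cr T ρ j
      · refine ⟨_, mem_KT.2 (Or.inr ⟨ρ, j, hc, rfl⟩), ?_, Finset.subset_insert _ _⟩
        rw [Finset.mem_insert]
        exact fun h2 => h2.elim (ne_o h ho (hT h1) hj) (Finset.notMem_erase _ _)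
      · obtain ⟨σ2, hσ2, hs2, hne⟩ : ∃ σ2 ∈ T, ρ.erase j ⊆ σ2 ∧ σ2 ≠ ρ := by
          by_contra h2
          push Not at h2
          exact hc ⟨h1, hj, h2⟩
        exact ⟨σ2, mem_KT.2 (Or.inl hσ2), not_mem_of_ne h (hT h1) (hT hσ2) hs2 hne, hs2⟩
    · have hσ := hT hc.1
      rcases Finset.mem_insert.1 hj with rfl | hj
      · refine ⟨σ, mem_KT.2 (Or.inl hc.1), fun h1 => ne_o h ho hσ h1 rfl, fun i hi => ?_⟩
        obtain ⟨e, hi⟩ := Finset.mem_erase.1 hi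
        exact Finset.mem_of_mem_erase ((Finset.mem_insert.1 hi).resolve_left e)
      · obtain ⟨σ', i, hc', h1, h2⟩ := parity h hb hT hc hj
        have hjo := ne_o h ho hσ (Finset.mem_of_mem_erase hj)
        refine ⟨_, mem_KT.2 (Or.inr ⟨σ', i, hc', rfl⟩), ?_, ?_⟩
        · rw [Finset.mem_insert]
          exact fun h3 => h3.elim hjo h1
        · rw [Finset.erase_insert_of_ne hjo.symm]
          exact Finset.insert_subset_insert _ h2

/-- The facets above a level. -/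
def Up (F : Fan ι) (b : ι → ℝ) (ξ : (ι → ℝ) →ₗ[ℝ] ℝ) (T : Finset (Finset ι)) : Prop :=
  ∀ σ ∈ T, ∀ σ' ∈ F.K, σ' ∉ T → ξ (F.lift σ' b) < ξ (F.lift σ b)

theorem lift_le (h : F.Good) (hb : F.Ample b) {σ : Finset ι} (hσ : σ ∈ F.K) {j : ι}
    (hj : j ∈ F.S) : F.lift σ b j ≤ b j := by
  by_cases e : j ∈ σ
  · exact (h.lift_eq hσ b e).le
  · exact (h.lift_lt hb hσ hj e).le

theorem cut_ample (h : F.Good) (hb : F.Ample b) (ho : o ∉ F.S) (hT : T ⊆ F.K)
    (hU : Up F b ξ T) : ∃ b', (cut F o ξ T).Ample b' := by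
  obtain ⟨c, hc1, hc2⟩ := Finset.exists_between' ((F.K \ T).image fun σ => ξ (F.lift σ b))
    (T.image fun σ => ξ (F.lift σ b)) (by
      simp only [Finset.mem_image, Finset.mem_sdiff]
      rintro _ ⟨σ', h1, rfl⟩ _ ⟨σ, h2, rfl⟩
      exact hU σ h2 σ' h1.1 h1.2)
  simp only [Finset.mem_image, Finset.mem_sdiff, forall_exists_index, and_imp,
    forall_apply_eq_imp_iff₂] at hc1 hc2
  refine ⟨Function.update b o (-c), ?_⟩
  rintro ρ hρ _ ⟨θ, hθ, rfl⟩ h0 j hj hjρ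
  rcases mem_KT.1 hρ with h1 | ⟨σ, k, hc, rfl⟩
  · have hσ := hT h1
    obtain rfl : θ = F.lift ρ b := h.ext hσ hθ (h.lift_mem hσ b) fun k hk => by
      rw [h.lift_eq hσ b hk, ← Uo_ne (ne_o h ho hσ hk) ξ θ, h0 k hk,
        Function.update_of_ne (ne_o h ho hσ hk)]
    rcases Finset.mem_insert.1 hj with rfl | hj
    · rw [Uo_self, Function.update_self, neg_lt_neg_iff]
      exact hc2 ρ h1
    · have e : j ≠ o := fun e => ho (e ▸ hj)
      rw [Uo_ne e, Function.update_of_ne e]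
      exact h.lift_lt hb hσ hj hjρ
  · have hσ := hT hc.1
    have hk := hc.2.1
    rw [Finset.mem_insert, not_or] at hjρ
    have hjS : j ∈ F.S := (Finset.mem_insert.1 hj).resolve_left hjρ.1
    rw [Uo_ne hjρ.1, Function.update_of_ne hjρ.1]
    have e1 := eq_edge h hσ hk hθ (c := b) fun i hi => by
      have e := ne_o h ho hσ (Finset.mem_of_mem_erase hi)
      rw [← Uo_ne e ξ θ, h0 i (Finset.mem_insert_of_mem hi), Function.update_of_ne e]
    have e2 := h0 o (Finset.mem_insert_self _ _)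
    rw [Uo_self, Function.update_self, neg_inj] at e2
    obtain ⟨σ', hσ', h1, h2⟩ := h.nbr σ hσ k hk
    obtain ⟨-, -, -, -, s, hs, e3⟩ := h.nbr_geo hb hσ hσ' hk h1 h2
    have a1 := hc1 _ σ' hσ' (fun h3 => h1 (hc.2.2 σ' h3 h2 ▸ hk)) rfl
    have a2 := hc2 σ hc.1
    generalize b k - θ k = t at e1
    rw [e1, map_sub, map_smul, smul_eq_mul] at e2
    rw [e3, map_sub, map_smul, smul_eq_mul] at a1
    have a3 : 0 < ξ (F.eta σ k) := by
      by_contra h3
      nlinarith [mul_nonneg hs.le (neg_nonneg.2 (not_lt.1 h3))]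
    have a4 : 0 < t := by
      by_contra h3
      nlinarith [mul_nonneg a3.le (neg_nonneg.2 (not_lt.1 h3))]
    have a5 : t < s := by
      by_contra h3
      nlinarith [mul_nonneg a3.le (sub_nonneg.2 (not_lt.1 h3))]
    have b1 := lift_le h hb hσ hjS
    have b2 := lift_le h hb hσ' hjS
    have b3 : F.lift σ b j < b j ∨ F.lift σ' b j < b j := by
      by_cases e : j ∈ σ
      · have : j = k := by
          by_contra h3
          exact hjρ.2 (Finset.mem_erase.2 ⟨h3, e⟩)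
        exact Or.inr (h.lift_lt hb hσ' hjS (this ▸ h1))
      · exact Or.inl (h.lift_lt hb hσ hjS e)
    rw [e3] at b2 b3
    rw [e1]
    simp only [Pi.sub_apply, Pi.smul_apply, smul_eq_mul] at b2 b3 ⊢
    rcases le_or_gt 0 (F.eta σ k j) with h3 | h3
    · rcases b3 with h4 | h4
      · nlinarith [mul_nonneg a4.le h3]
      · rcases h3.eq_or_lt with h5 | h5
        · rw [← h5] at h4 ⊢
          linarith
        · nlinarith [mul_pos a4 h5]
    · nlinarith [mul_pos (sub_pos.2 a5) (neg_pos.2 h3)]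

/-- Two complexes that differ by a flip have a common stellar subdivision. -/
theorem flip_eq {G G' : Fan ι} {A A1 A2 : Finset ι} {lam lam' : ι → ℝ} (e : ι) (hS : G.S = G'.S)
    (hΘ : G.Θ = G'.Θ) (hn : G.n = G'.n)
    (hl : ∀ θ ∈ G.Θ, ∑ j ∈ A1, lam j * θ j = ∑ j ∈ A2, lam' j * θ j)
    (h1 : ∀ ρ, (ρ ∈ G.K ∧ A1 ⊆ ρ) ↔ ∃ k ∈ A2, A.erase k = ρ)
    (h2 : ∀ ρ, (ρ ∈ G'.K ∧ A2 ⊆ ρ) ↔ ∃ k ∈ A1, A.erase k = ρ)
    (h3 : ∀ ρ, (ρ ∈ G.K ∧ ¬ A1 ⊆ ρ) ↔ (ρ ∈ G'.K ∧ ¬ A2 ⊆ ρ)) :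
    G.stellar A1 lam e = G'.stellar A2 lam' e := by
  refine Fan.ext (congrArg (insert e) hS) ?_ ?_ hn
  · change G.Θ.map _ = G'.Θ.map _
    rw [← hΘ]
    ext x
    refine exists_congr fun θ => and_congr_right fun hθ => ?_
    change Function.update _ _ _ = x ↔ Function.update _ _ _ = x
    rw [hl θ hθ]
  · ext ρ
    simp only [stellar, Finset.mem_union, Finset.mem_filter, Finset.mem_biUnion,
      Finset.mem_image, h1, h2, h3]
    refine or_congr Iff.rfl ⟨?_, ?_⟩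
    · rintro ⟨_, ⟨k, hk, rfl⟩, j, hj, rfl⟩
      exact ⟨_, ⟨j, hj, rfl⟩, k, hk, by rw [Finset.erase_right_comm]⟩
    · rintro ⟨_, ⟨k, hk, rfl⟩, j, hj, rfl⟩
      exact ⟨_, ⟨j, hj, rfl⟩, k, hk, by rw [Finset.erase_right_comm]⟩

/-- The situation of one step of the sweep. -/
structure Step (F : Fan ι) (b : ι → ℝ) (ξ : (ι → ℝ) →ₗ[ℝ] ℝ) (o : ι) (T : Finset (Finset ι))
    (σ : Finset ι) : Prop where
  good : F.Good
  ample : F.Ample b
  gen : F.Gen b ξ
  ho : o ∉ F.S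
  sub : T ⊆ F.K
  mem : σ ∈ F.K
  iff : ∀ σ' ∈ F.K, σ' ∈ T ↔ ξ (F.lift σ b) < ξ (F.lift σ' b)

namespace Step

variable {σ : Finset ι} (H : Step F b ξ o T σ)
include H

theorem notMem : σ ∉ T := fun h => lt_irrefl _ ((H.iff σ H.mem).1 h)

theorem sub' : insert σ T ⊆ F.K := Finset.insert_subset H.mem H.sub

theorem o_notMem {ρ : Finset ι} (hρ : ρ ∈ F.K) : o ∉ ρ := fun h => H.ho (H.good.sub ρ hρ h)

theorem of_R {σ' : Finset ι} (hσ' : σ' ∈ F.K) (h : F.Rset ξ σ ⊆ σ') : σ' = σ ∨ σ' ∈ T := by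
  by_cases e : σ = σ'
  · exact Or.inl e.symm
  · exact Or.inr ((H.iff σ' hσ').2 (H.good.min_lt H.ample H.gen H.mem hσ' h e))

theorem of_U {σ' : Finset ι} (hσ' : σ' ∈ T) : ¬ σ \ F.Rset ξ σ ⊆ σ' := fun h => by
  have := H.good.min_lt H.ample H.gen.neg H.mem (H.sub hσ') (H.gen.Rset_neg H.mem ▸ h)
    fun e => H.notMem (e ▸ hσ')
  have h2 := (H.iff σ' (H.sub hσ')).1 hσ'
  simp only [LinearMap.neg_apply] at this
  linarith

theorem R_sub : F.Rset ξ σ ⊆ σ := (fun _ => Finset.filter_subset _ _) H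

theorem nbr_iff {σ' : Finset ι} (hσ' : σ' ∈ F.K) {k : ι} (_hk : k ∈ σ) (hs : σ.erase k ⊆ σ')
    (hne : σ' ≠ σ) : σ' ∈ T ↔ k ∉ F.Rset ξ σ := by
  refine ⟨fun h1 h2 => H.of_U h1 fun j hj => hs ?_, fun h1 => (H.of_R hσ' fun j hj => hs ?_
    ).resolve_left hne⟩
  · obtain ⟨h3, h4⟩ := Finset.mem_sdiff.1 hj
    exact Finset.mem_erase.2 ⟨fun e => h4 (e ▸ h2), h3⟩
  · exact Finset.mem_erase.2 ⟨fun e => h1 (e ▸ hj), H.R_sub hj⟩

theorem cr_R {k : ι} (hk : k ∈ F.Rset ξ σ) : Cr (insert σ T) σ k :=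
  ⟨Finset.mem_insert_self _ _, H.R_sub hk, fun σ' hσ' hs => by
    by_contra hne
    exact (H.nbr_iff (H.sub' hσ') (H.R_sub hk) hs hne).1
      ((Finset.mem_insert.1 hσ').resolve_left hne) hk⟩

theorem cr_U {k : ι} (hk : k ∈ σ \ F.Rset ξ σ) :
    ∃ σ' i, Cr T σ' i ∧ σ.erase k = σ'.erase i := by
  obtain ⟨hk, hk'⟩ := Finset.mem_sdiff.1 hk
  obtain ⟨σ', hσ', h1, h2⟩ := H.good.nbr σ H.mem k hk
  obtain ⟨i, hi, e⟩ := exists_erase H.good hσ' (card_erase H.good H.mem hk) h2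
  refine ⟨σ', i, ⟨(H.nbr_iff hσ' hk h2 fun e => h1 (e ▸ hk)).2 hk', hi, fun σ'' h3 h4 => ?_⟩, e⟩
  rw [← e] at h4
  exact H.good.nbr_uniq H.ample H.mem (H.sub h3) hσ' hk
    (not_mem_of_ne H.good H.mem (H.sub h3) h4 fun e => H.notMem (e ▸ h3)) h4 h1 h2

theorem erase_ins {k : ι} (hk : k ∈ σ) : (insert o σ).erase k = insert o (σ.erase k) :=
  Finset.erase_insert_of_ne (ne_o H.good H.ho H.mem hk).symm

theorem sub_ins {A ρ : Finset ι} (hA : A ⊆ σ) (h : A ⊆ insert o ρ) : A ⊆ ρ := fun _ hj =>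
  (Finset.mem_insert.1 (h hj)).resolve_left (ne_o H.good H.ho H.mem (hA hj))

/-- A boundary ridge of `T` that contains the descending set lies in `σ`. -/
theorem sub_of_R {σ1 : Finset ι} {k : ι} (hc : Cr T σ1 k) (h : F.Rset ξ σ ⊆ σ1.erase k) :
    σ1.erase k ⊆ σ := by
  obtain ⟨σ', hσ', h1, h2⟩ := H.good.nbr σ1 (H.sub hc.1) k hc.2.1
  rcases H.of_R hσ' (h.trans h2) with rfl | h3
  · exact h2
  · exact absurd (hc.2.2 σ' h3 h2 ▸ hc.2.1) h1

/-- A ridge of `σ` that lies in a facet of `T` contains the descending set. -/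
theorem R_of_sub {σ1 : Finset ι} {k : ι} (h1 : σ1 ∈ T) (hk : k ∈ σ1) (h : σ1.erase k ⊆ σ) :
    F.Rset ξ σ ⊆ σ1.erase k := by
  obtain ⟨i, hi, e⟩ := exists_erase H.good H.mem (card_erase H.good (H.sub h1) hk) h
  have := (H.nbr_iff (H.sub h1) hi (e ▸ Finset.erase_subset _ _)
    fun e => H.notMem (e ▸ h1)).1 h1
  rw [e]
  exact fun j hj => Finset.mem_erase.2 ⟨fun e => this (e ▸ hj), H.R_sub hj⟩

theorem st1 (ρ : Finset ι) : (ρ ∈ KT o T ∧ insert o (F.Rset ξ σ) ⊆ ρ) ↔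
    ∃ k ∈ σ \ F.Rset ξ σ, (insert o σ).erase k = ρ := by
  constructor
  · rintro ⟨h1, h2⟩
    rcases mem_KT.1 h1 with h3 | ⟨σ1, k, hc, rfl⟩
    · exact absurd (h2 (Finset.mem_insert_self _ _)) (H.o_notMem (H.sub h3))
    · have h4 := H.sub_ins H.R_sub ((Finset.subset_insert _ _).trans h2)
      obtain ⟨i, hi, e⟩ := exists_erase H.good H.mem (card_erase H.good (H.sub hc.1) hc.2.1)
        (H.sub_of_R hc h4)
      refine ⟨i, Finset.mem_sdiff.2 ⟨hi, fun h5 => ?_⟩, by rw [H.erase_ins hi, e]⟩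
      exact Finset.notMem_erase i σ (e ▸ h4 h5)
  · rintro ⟨k, hk, rfl⟩
    obtain ⟨σ', i, hc, e⟩ := H.cr_U hk
    obtain ⟨hk, hk'⟩ := Finset.mem_sdiff.1 hk
    rw [H.erase_ins hk]
    exact ⟨mem_KT.2 (Or.inr ⟨σ', i, hc, by rw [e]⟩), Finset.insert_subset_insert _
      fun j hj => Finset.mem_erase.2 ⟨fun e => hk' (e ▸ hj), H.R_sub hj⟩⟩

theorem st2 (ρ : Finset ι) : (ρ ∈ KT o (insert σ T) ∧ σ \ F.Rset ξ σ ⊆ ρ) ↔
    ∃ k ∈ insert o (F.Rset ξ σ), (insert o σ).erase k = ρ := by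
  constructor
  · rintro ⟨h1, h2⟩
    rcases mem_KT.1 h1 with h3 | ⟨σ1, k, hc, rfl⟩
    · rcases Finset.mem_insert.1 h3 with rfl | h3
      · exact ⟨o, Finset.mem_insert_self _ _, Finset.erase_insert (H.o_notMem H.mem)⟩
      · exact absurd h2 (H.of_U h3)
    · have h4 := H.sub_ins Finset.sdiff_subset h2
      rcases Finset.mem_insert.1 hc.1 with rfl | h3
      · refine ⟨k, Finset.mem_insert_of_mem ?_, H.erase_ins hc.2.1⟩
        by_contra h5
        exact Finset.notMem_erase k σ1 (h4 (Finset.mem_sdiff.2 ⟨hc.2.1, h5⟩))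
      · exact absurd (h4.trans (Finset.erase_subset _ _)) (H.of_U h3)
  · rintro ⟨k, hk, rfl⟩
    rcases Finset.mem_insert.1 hk with rfl | hk
    · rw [Finset.erase_insert (H.o_notMem H.mem)]
      exact ⟨mem_KT.2 (Or.inl (Finset.mem_insert_self _ _)), Finset.sdiff_subset⟩
    · rw [H.erase_ins (H.R_sub hk)]
      refine ⟨mem_KT.2 (Or.inr ⟨σ, k, H.cr_R hk, rfl⟩), fun j hj => ?_⟩
      obtain ⟨h1, h2⟩ := Finset.mem_sdiff.1 hj
      exact Finset.mem_insert_of_mem (Finset.mem_erase.2 ⟨fun e => h2 (e ▸ hk), h1⟩)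

theorem st3 (ρ : Finset ι) : (ρ ∈ KT o T ∧ ¬ insert o (F.Rset ξ σ) ⊆ ρ) ↔
    (ρ ∈ KT o (insert σ T) ∧ ¬ σ \ F.Rset ξ σ ⊆ ρ) := by
  constructor
  · rintro ⟨h1, h2⟩
    rcases mem_KT.1 h1 with h3 | ⟨σ1, k, hc, rfl⟩
    · exact ⟨mem_KT.2 (Or.inl (Finset.mem_insert_of_mem h3)), H.of_U h3⟩
    · refine ⟨mem_KT.2 (Or.inr ⟨σ1, k, ⟨Finset.mem_insert_of_mem hc.1, hc.2.1,
        fun σ' h3 h4 => ?_⟩, rfl⟩), fun h3 => H.of_U hc.1
          ((H.sub_ins Finset.sdiff_subset h3).trans (Finset.erase_subset _ _))⟩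
      rcases Finset.mem_insert.1 h3 with rfl | h3
      · exact absurd (Finset.insert_subset_insert _ (H.R_of_sub hc.1 hc.2.1 h4)) h2
      · exact hc.2.2 σ' h3 h4
  · rintro ⟨h1, h2⟩
    rcases mem_KT.1 h1 with h3 | ⟨σ1, k, hc, rfl⟩
    · rcases Finset.mem_insert.1 h3 with rfl | h3
      · exact absurd Finset.sdiff_subset h2
      · exact ⟨mem_KT.2 (Or.inl h3), fun h4 =>
          H.o_notMem (H.sub h3) (h4 (Finset.mem_insert_self _ _))⟩
    · have h3 : σ1 ∈ T := by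
        refine (Finset.mem_insert.1 hc.1).resolve_left ?_
        rintro rfl
        have hk : k ∈ σ1 \ F.Rset ξ σ1 := by
          by_contra h4
          exact h2 fun j hj => Finset.mem_insert_of_mem
            (Finset.mem_erase.2 ⟨fun e => h4 (e ▸ hj), (Finset.mem_sdiff.1 hj).1⟩)
        obtain ⟨σ', i, hc', e⟩ := H.cr_U hk
        exact H.notMem (hc.2.2 σ' (Finset.mem_insert_of_mem hc'.1)
          (e ▸ Finset.erase_subset _ _) ▸ hc'.1)
      have hc' : Cr T σ1 k :=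
        ⟨h3, hc.2.1, fun σ' h4 => hc.2.2 σ' (Finset.mem_insert_of_mem h4)⟩
      refine ⟨mem_KT.2 (Or.inr ⟨σ1, k, hc', rfl⟩), fun h4 => H.notMem ?_⟩
      rw [hc.2.2 σ (Finset.mem_insert_self _ _)
        (H.sub_of_R hc' (H.sub_ins H.R_sub ((Finset.subset_insert _ _).trans h4)))]
      exact h3

theorem flip (e : ι) :
    (cut F o ξ T).stellar (insert o (F.Rset ξ σ))
        (Function.update (fun k => ξ (F.eta σ k)) o 1) e =
      (cut F o ξ (insert σ T)).stellar (σ \ F.Rset ξ σ) (fun k => -ξ (F.eta σ k)) e := by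
  refine flip_eq (A := insert o σ) e rfl rfl rfl ?_ H.st1 H.st2 H.st3
  rintro _ ⟨θ, hθ, rfl⟩
  have e1 : ξ θ = ∑ k ∈ σ, ξ (F.eta σ k) * θ k := by
    conv_lhs => rw [H.good.eq_sum H.mem hθ, map_sum]
    exact Finset.sum_congr rfl fun k _ => by rw [map_smul, smul_eq_mul, mul_comm]
  have e2 : ∑ j ∈ F.Rset ξ σ, Function.update (fun k => ξ (F.eta σ k)) o 1 j * Uo o ξ θ j =
      ∑ j ∈ F.Rset ξ σ, ξ (F.eta σ j) * θ j := Finset.sum_congr rfl fun j hj => by
    have := ne_o H.good H.ho H.mem (H.R_sub hj)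
    rw [Function.update_of_ne this, Uo_ne this]
  have e3 : ∑ j ∈ σ \ F.Rset ξ σ, -ξ (F.eta σ j) * Uo o ξ θ j =
      -∑ j ∈ σ \ F.Rset ξ σ, ξ (F.eta σ j) * θ j := by
    rw [← Finset.sum_neg_distrib]
    exact Finset.sum_congr rfl fun j hj => by
      rw [Uo_ne (ne_o H.good H.ho H.mem (Finset.mem_sdiff.1 hj).1), neg_mul]
  rw [Finset.sum_insert fun h => H.o_notMem H.mem (H.R_sub h), e2, e3, Function.update_self,
    Uo_self, e1, ← Finset.sum_sdiff H.R_sub]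
  ring

end Step

end SweepP

open SweepP

theorem sweep : SweepStmt := by
  intro ι _ _ P n hsim hst F b hn h hb
  obtain ⟨ξ, hξ⟩ := h.exists_gen hb
  obtain ⟨o, ho⟩ := Infinite.exists_notMem_finset F.S
  obtain ⟨e, he⟩ := Infinite.exists_notMem_finset (insert o F.S)
  have key : ∀ T : Finset (Finset ι), T ⊆ F.K → Up F b ξ T → T.Nonempty → P (cut F o ξ T) := by
    intro T
    induction T using Finset.induction_on_min_value (fun σ => ξ (F.lift σ b)) with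
    | empty => exact fun _ _ h0 => absurd h0 Finset.not_nonempty_empty
    | insert σ T hσT hmin ih =>
      intro hT hU hne
      have hσ := hT (Finset.mem_insert_self _ _)
      have hT' : T ⊆ F.K := (Finset.subset_insert _ _).trans hT
      have H : Step F b ξ o T σ := ⟨h, hb, hξ, ho, hT', hσ, fun σ' hσ' =>
        ⟨fun h1 => lt_of_le_of_ne (hmin σ' h1) (hξ.vtx σ hσ σ' hσ' fun e => hσT (e ▸ h1)),
          fun h1 => by
            by_contra h2
            have := hU σ (Finset.mem_insert_self _ _) σ' hσ' fun h3 =>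
              (Finset.mem_insert.1 h3).elim (fun e => lt_irrefl _ (e ▸ h1)) h2
            linarith⟩⟩
      obtain ⟨b', hb'⟩ := cut_ample h hb ho hT hU
      have hg' := cut_good h hb hξ ho hT hne
      rcases T.eq_empty_or_nonempty with rfl | hT0
      · refine hsim _ b' (insert o σ) hn hg' hb' (Finset.insert_subset_insert _ (h.sub σ hσ))
          (Finset.insert_nonempty _ _) ?_
        ext ρ
        change ρ ∈ KT o _ ↔ _
        rw [mem_KT, Finset.mem_image]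
        constructor
        · rintro (h1 | ⟨σ1, k, hc, rfl⟩)
          · obtain rfl : ρ = σ := by simpa using h1
            exact ⟨o, Finset.mem_insert_self _ _, Finset.erase_insert (H.o_notMem hσ)⟩
          · obtain rfl : σ1 = σ := by simpa using hc.1
            exact ⟨k, Finset.mem_insert_of_mem hc.2.1, H.erase_ins hc.2.1⟩
        · rintro ⟨k, hk, rfl⟩
          rcases Finset.mem_insert.1 hk with rfl | hk
          · rw [Finset.erase_insert (H.o_notMem hσ)]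
            exact Or.inl (Finset.mem_insert_self _ _)
          · exact Or.inr ⟨σ, k, ⟨Finset.mem_insert_self _ _, hk, fun σ' h1 _ => by simpa using h1⟩,
              H.erase_ins hk⟩
      · have hU' : Up F b ξ T := fun σ1 h1 σ' hσ' h2 => by
          have h3 := (H.iff σ1 (hT' h1)).1 h1
          have h4 := not_lt.1 fun h4 => h2 ((H.iff σ' hσ').2 h4)
          linarith
        obtain ⟨b0, hb0⟩ := cut_ample h hb ho hT' hU'
        have hUne : (σ \ F.Rset ξ σ).Nonempty := by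
          obtain ⟨σ1, h1⟩ := hT0
          rw [Finset.nonempty_iff_ne_empty]
          exact fun e => H.of_U h1 (e ▸ Finset.empty_subset _)
        obtain ⟨k, hk⟩ := id hUne
        have i1 := hst (cut F o ξ T) b0 (Function.update (fun k => ξ (F.eta σ k)) o 1)
          (insert o (F.Rset ξ σ)) e hn (cut_good h hb hξ ho hT' hT0) hb0
          (Finset.insert_nonempty _ _) ⟨_, (H.st1 _).2 ⟨k, hk, rfl⟩⟩ (fun j hj => by
            rcases Finset.mem_insert.1 hj with rfl | hj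
            · rw [Function.update_self]
              exact one_pos
            · rw [Function.update_of_ne (ne_o h ho hσ (H.R_sub hj))]
              exact (Finset.mem_filter.1 hj).2) he
        have i2 := hst (cut F o ξ (insert σ T)) b' (fun k => -ξ (F.eta σ k)) (σ \ F.Rset ξ σ) e
          hn hg' hb' hUne ⟨_, (H.st2 _).2 ⟨o, Finset.mem_insert_self _ _, rfl⟩⟩ (fun j hj => by
            rw [← hξ.Rset_neg hσ] at hj
            exact (Finset.mem_filter.1 hj).2) he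
        exact i2.2 (H.flip e ▸ i1.1 (ih hT' hU' hT0))
  refine ⟨o, -ξ, ho, ?_⟩
  have e1 : KT o F.K = F.K := by
    ext ρ
    rw [mem_KT]
    refine ⟨fun h1 => h1.elim id ?_, Or.inl⟩
    rintro ⟨σ, k, hc, -⟩
    obtain ⟨σ', hσ', h1, h2⟩ := h.nbr σ hc.1 k hc.2.1
    exact absurd (hc.2.2 σ' hσ' h2 ▸ hc.2.1) h1
  have := key F.K subset_rfl (fun _ _ _ h1 h2 => absurd h1 h2) h.ne
  rwa [cut, e1] at this

end Pool.Agent.P.MP_cedf91_co
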