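import Pool.Agent.P.MP_cedf91_co.Lin
import Pool.Agent.P.MP_cedf91_co.Lef
import Pool.Agent.P.MP_cedf91_co.Model
import Pool.Agent.P.MP_cedf91_co.Blow0
import Pool.Agent.P.MP_cedf91_co.BlowGram
import Pool.Agent.P.MP_cedf91_co.BlowLim
import Pool.Agent.P.MP_cedf91_co.Blow23
import Pool.Agent.P.MP_cedf91_co.FanVol
import Pool.Agent.P.MP_cedf91_co.FanJ
import Pool.Agent.P.MP_cedf91_co.Bundle
import Pool.Agent.P.MP_cedf91_co.GS
import Pool.Agent.P.MP_cedf91_co.Fib
import Pool.Agent.P.MP_cedf91_co.WL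
import Pool.Agent.P.MP_cedf91_co.StGeo
import Pool.Agent.P.MP_cedf91_co.Stellar
import Pool.Agent.P.MP_cedf91_co.Sweep
import Pool.Agent.P.MP_cedf91_co.McM
import Pool.Agent.P.MP_cedf91_co.BaryA
import Pool.Agent.P.MP_cedf91_co.BaryB

/-! All packages, unconditionally. -/

namespace Pool.Agent.P.MP_cedf91_co

theorem lef_all : LefLib := lef_lib lin_lib

theorem blow0_all : Blow0Stmt := @blow0 lin_lib

theorem blowLim_all : BlowLimStmt :=
  @blowLim lin_lib model_lib (@blow0_all) (@blowGram (@blow0_all))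

theorem fanJ_all : FanJLib := fanJ lin_lib

theorem bundle_all : BundleStmt := @bundle fanJ_all

theorem gs_all : GSStmt := @gs lin_lib

theorem fib_all : FibStmt :=
  @fib lin_lib lef_all (@blow0_all) (@blow2 lin_lib (@blowLim_all))
    (@blow3 lin_lib (@blow0_all) (@blowLim_all)) (@gs_all)

theorem mcm_all : McMStmt :=
  @mcm lin_lib (@simplex lef_all)
    (@stellar lin_lib lef_all (@fanVol) fanJ_all (@bundle_all) (@fib_all)
      (@wl lef_all (@fanVol) fanJ_all (@bundle_all)) (@stGeo) (@simplex lef_all)) (@sweep)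

end Pool.Agent.P.MP_cedf91_co
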