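import Pool.Agent.P.MP_cedf91_co.Defs

/-! The face lattice of a polytope is graded, with cone data. -/

namespace Pool.Agent.P.MP_cedf91_co

namespace ConeP

open Module

variable {E : Type} [NormedAddCommGroup E] [NormedSpace ℝ E]

open Classical in
/-- Vertex sets of faces: zero sets of forms that are nonnegative on `V`. -/
def IsFace (V F : Finset E) : Prop :=
  ∃ m : E × ℝ →ₗ[ℝ] ℝ, (∀ v ∈ V, 0 ≤ m (v, 1)) ∧ ∀ v, v ∈ F ↔ v ∈ V ∧ m (v, 1) = 0

theorem IsFace.sub {V F : Finset E} (h : IsFace V F) : F ⊆ V := by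
  obtain ⟨m, -, hm⟩ := h
  exact fun v hv => ((hm v).1 hv).1

theorem isFace_top (V : Finset E) : IsFace V V := ⟨0, by simp, by simp⟩

theorem isFace_empty (V : Finset E) : IsFace V ∅ :=
  ⟨LinearMap.snd ℝ E ℝ, by simp, by simp⟩

open Classical in
theorem IsFace.inter {V F G : Finset E} (hF : IsFace V F) (hG : IsFace V G) :
    IsFace V (F ∩ G) := by
  obtain ⟨m, hm0, hm⟩ := hF
  obtain ⟨n, hn0, hn⟩ := hG
  refine ⟨m + n, fun v hv => ?_, fun v => ?_⟩
  · simpa using add_nonneg (hm0 v hv) (hn0 v hv)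
  · rw [Finset.mem_inter, hm, hn]
    constructor
    · rintro ⟨⟨h1, h2⟩, -, h3⟩
      exact ⟨h1, by simp [h2, h3]⟩
    · rintro ⟨h1, h2⟩
      have := hm0 v h1
      have := hn0 v h1
      simp only [LinearMap.add_apply] at h2
      exact ⟨⟨h1, by linarith⟩, h1, by linarith⟩

open Classical in
theorem IsFace.filter {V F : Finset E} (hF : IsFace V F) (μ : E × ℝ →ₗ[ℝ] ℝ)
    (hμ : ∀ v ∈ F, 0 ≤ μ (v, 1)) : IsFace V (F.filter fun v => μ (v, 1) = 0) := by
  obtain ⟨m, hm0, hm⟩ := hF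
  obtain ⟨C, hC⟩ : ∃ C : ℝ, ∀ v ∈ V, v ∉ F → 0 < μ (v, 1) + C * m (v, 1) := by
    obtain ⟨C, hC⟩ := (V.image fun v => -μ (v, 1) / m (v, 1)).bddAbove
    refine ⟨C + 1, fun v hv hvF => ?_⟩
    have hp : 0 < m (v, 1) := lt_of_le_of_ne (hm0 v hv) fun h => hvF ((hm v).2 ⟨hv, h.symm⟩)
    have h1 : -μ (v, 1) / m (v, 1) ≤ C :=
      hC (Finset.mem_coe.2 (Finset.mem_image_of_mem _ hv))
    rw [div_le_iff₀ hp] at h1
    nlinarith
  refine ⟨μ + C • m, fun v hv => ?_, fun v => ?_⟩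
  · simp only [LinearMap.add_apply, LinearMap.smul_apply, smul_eq_mul]
    by_cases hvF : v ∈ F
    · rw [((hm v).1 hvF).2]; simpa using hμ v hvF
    · exact (hC v hv hvF).le
  · simp only [Finset.mem_filter, LinearMap.add_apply, LinearMap.smul_apply, smul_eq_mul]
    constructor
    · rintro ⟨h1, h2⟩
      refine ⟨((hm v).1 h1).1, ?_⟩
      rw [((hm v).1 h1).2, h2]; simp
    · rintro ⟨h1, h2⟩
      by_cases hvF : v ∈ F
      · refine ⟨hvF, ?_⟩
        rw [((hm v).1 hvF).2] at h2; simpa using h2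
      · exact absurd h2 (hC v h1 hvF).ne'

/-- The poset of faces. -/
def Fc (V : Finset E) : Type := {F : Finset E // IsFace V F}

instance (V : Finset E) : PartialOrder (Fc V) :=
  inferInstanceAs (PartialOrder {F : Finset E // IsFace V F})

theorem le_iff {V : Finset E} {x y : Fc V} : x ≤ y ↔ x.1 ⊆ y.1 := Iff.rfl

instance (V : Finset E) : Finite (Fc V) := by
  classical
  refine Finite.of_injective
    (fun x : Fc V => (⟨x.1, Finset.mem_powerset.2 x.2.sub⟩ : V.powerset)) ?_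
  intro x y h
  exact Subtype.ext (Subtype.mk.inj h)

noncomputable instance (V : Finset E) : Fintype (Fc V) := Fintype.ofFinite _

open Classical in
noncomputable instance (V : Finset E) : SemilatticeInf (Fc V) where
  inf x y := ⟨x.1 ∩ y.1, x.2.inter y.2⟩
  inf_le_left _ _ := Finset.inter_subset_left
  inf_le_right _ _ := Finset.inter_subset_right
  le_inf _ _ _ h1 h2 := Finset.subset_inter h1 h2

instance (V : Finset E) : OrderTop (Fc V) where
  top := ⟨V, isFace_top V⟩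
  le_top x := x.2.sub

open Classical in
noncomputable instance (V : Finset E) : Lattice (Fc V) where
  sup x y := (Finset.univ.filter fun z => x ≤ z ∧ y ≤ z).inf id
  le_sup_left _ _ := Finset.le_inf fun _ hz => (Finset.mem_filter.1 hz).2.1
  le_sup_right _ _ := Finset.le_inf fun _ hz => (Finset.mem_filter.1 hz).2.2
  sup_le _ _ z h1 h2 :=
    Finset.inf_le (f := id) (Finset.mem_filter.2 ⟨Finset.mem_univ z, h1, h2⟩)

/-- The linear span of a homogenised point set. -/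
def Wf (F : Finset E) : Submodule ℝ (E × ℝ) :=
  Submodule.span ℝ ((fun v => (v, (1 : ℝ))) '' (F : Set E))

theorem mem_Wf {F : Finset E} {v : E} (hv : v ∈ F) : (v, (1 : ℝ)) ∈ Wf F :=
  Submodule.subset_span ⟨v, hv, rfl⟩

theorem Wf_mono {F G : Finset E} (h : F ⊆ G) : Wf F ≤ Wf G :=
  Submodule.span_mono (Set.image_mono (by exact_mod_cast h))

theorem Wf_ker {F : Finset E} {m : E × ℝ →ₗ[ℝ] ℝ} (h : ∀ v ∈ F, m (v, 1) = 0) :
    ∀ w ∈ Wf F, m w = 0 := by
  have : Wf F ≤ LinearMap.ker m := by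
    refine Submodule.span_le.2 ?_
    rintro _ ⟨v, hv, rfl⟩
    exact h v hv
  exact fun w hw => this hw

/-- A form attached to a face. -/
noncomputable def fm {V : Finset E} (x : Fc V) : E × ℝ →ₗ[ℝ] ℝ := x.2.choose

theorem fm_nonneg {V : Finset E} (x : Fc V) {v : E} (hv : v ∈ V) : 0 ≤ fm x (v, 1) :=
  x.2.choose_spec.1 v hv

theorem fm_iff {V : Finset E} (x : Fc V) (v : E) : v ∈ x.1 ↔ v ∈ V ∧ fm x (v, 1) = 0 :=
  x.2.choose_spec.2 v

theorem fm_zero {V : Finset E} (x : Fc V) {v : E} (hv : v ∈ x.1) : fm x (v, 1) = 0 :=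
  ((fm_iff x v).1 hv).2

theorem fm_pos {V : Finset E} (x : Fc V) {v : E} (hv : v ∈ V) (h : v ∉ x.1) :
    0 < fm x (v, 1) :=
  lt_of_le_of_ne (fm_nonneg x hv) fun e => h ((fm_iff x v).2 ⟨hv, e.symm⟩)

theorem fm_W {V : Finset E} (x : Fc V) : ∀ w ∈ Wf x.1, fm x w = 0 :=
  Wf_ker fun _ hv => fm_zero x hv

theorem exists_of_lt {V : Finset E} {x y : Fc V} (h : x < y) : ∃ v ∈ y.1, v ∉ x.1 := by
  by_contra hc
  push Not at hc
  exact h.not_ge hc

theorem lt_of_mem {V : Finset E} {x y : Fc V} (h : x ≤ y) {v : E} (hv : v ∈ y.1)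
    (hx : v ∉ x.1) : x < y :=
  lt_of_le_of_ne h fun e => hx (e ▸ hv)

variable [FiniteDimensional ℝ E]

/-- The rank of a face. -/
noncomputable def rk {V : Finset E} (x : Fc V) : ℕ := finrank ℝ (Wf x.1)

theorem rk_lt {V : Finset E} (x y : Fc V) (h : x < y) : rk x < rk y := by
  obtain ⟨v, hv, hx⟩ := exists_of_lt h
  refine Submodule.finrank_lt_finrank_of_lt (lt_of_le_of_ne (Wf_mono h.le) fun e => ?_)
  have h1 := fm_W x _ (e ▸ mem_Wf hv)
  exact (fm_pos x (y.2.sub hv) hx).ne' h1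

omit [FiniteDimensional ℝ E] in
/-- Rotating a form about a face until it hits a new vertex. -/
theorem rotate {V : Finset E} {x y : Fc V} (h : x < y) (μ : E × ℝ →ₗ[ℝ] ℝ)
    (hμ : ∀ v ∈ x.1, μ (v, 1) = 0) :
    ∃ (s : ℝ) (z : Fc V), x < z ∧ z ≤ y ∧
      (∀ v ∈ y.1, 0 ≤ μ (v, 1) - s * fm x (v, 1)) ∧
      ∀ v ∈ z.1, μ (v, 1) - s * fm x (v, 1) = 0 := by
  classical
  obtain ⟨v0, hv0, hx0⟩ := exists_of_lt h
  obtain ⟨u, hu, hmin⟩ := (y.1 \ x.1).exists_min_image (fun v => μ (v, 1) / fm x (v, 1))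
    ⟨v0, Finset.mem_sdiff.2 ⟨hv0, hx0⟩⟩
  rw [Finset.mem_sdiff] at hu
  set s := μ (u, 1) / fm x (u, 1) with hs
  have hnn : ∀ v ∈ y.1, 0 ≤ (μ - s • fm x) (v, 1) := by
    intro v hv
    simp only [LinearMap.sub_apply, LinearMap.smul_apply, smul_eq_mul]
    by_cases hvx : v ∈ x.1
    · rw [hμ v hvx, fm_zero x hvx]; simp
    · have h1 := hmin v (Finset.mem_sdiff.2 ⟨hv, hvx⟩)
      have hp := fm_pos x (y.2.sub hv) hvx
      rw [le_div_iff₀ hp] at h1
      linarith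
  refine ⟨s, ⟨_, y.2.filter _ hnn⟩, ?_, Finset.filter_subset _ _, ?_, ?_⟩
  · refine lt_of_mem (v := u) (fun v hv => Finset.mem_filter.2 ⟨h.le hv, ?_⟩)
      (Finset.mem_filter.2 ⟨hu.1, ?_⟩) hu.2
    · simp [hμ v hv, fm_zero x hv]
    · have hp := fm_pos x (y.2.sub hu.1) hu.2
      simp only [LinearMap.sub_apply, LinearMap.smul_apply, smul_eq_mul, hs]
      field_simp
      ring
  · simpa using hnn
  · intro v hv
    simpa using (Finset.mem_filter.1 hv).2

theorem mid {V : Finset E} (x y : Fc V) (h : x < y) (hr : rk x + 1 < rk y) :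
    ∃ z, x < z ∧ z < y := by
  obtain ⟨v0, hv0, hx0⟩ := exists_of_lt h
  have hp := fm_pos x (y.2.sub hv0) hx0
  have h1 : ¬ Wf y.1 ≤ Wf x.1 ⊔ Submodule.span ℝ {(v0, (1 : ℝ))} := by
    intro hle
    have h2 := Submodule.finrank_mono hle
    have h3 := Submodule.finrank_add_le_finrank_add_finrank (Wf x.1)
      (Submodule.span ℝ {(v0, (1 : ℝ))})
    have h4 : finrank ℝ (Submodule.span ℝ {(v0, (1 : ℝ))}) = 1 :=
      finrank_span_singleton (by simp)
    unfold rk at hr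
    omega
  obtain ⟨w, hw, hwn⟩ := SetLike.not_le_iff_exists.1 h1
  obtain ⟨μ, hμw, hμ⟩ := Submodule.exists_dual_map_eq_bot_of_notMem hwn inferInstance
  have hμ' : ∀ t ∈ Wf x.1 ⊔ Submodule.span ℝ {(v0, (1 : ℝ))}, μ t = 0 := fun t ht => by
    have : μ t ∈ Submodule.map μ (Wf x.1 ⊔ Submodule.span ℝ {(v0, (1 : ℝ))}) :=
      Submodule.mem_map_of_mem ht
    rw [hμ] at this
    simpa using this
  obtain ⟨s, z, hxz, hzy, -, hz⟩ := rotate h μ fun v hv =>
    hμ' _ (Submodule.mem_sup_left (mem_Wf hv))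
  refine ⟨z, hxz, lt_of_le_of_ne hzy fun e => hμw ?_⟩
  subst e
  have h0 : μ (v0, 1) = 0 := hμ' _ (Submodule.mem_sup_right (Submodule.subset_span rfl))
  have hs : s = 0 := by
    have := hz v0 hv0
    rw [h0] at this
    have h5 : s * fm x (v0, 1) = 0 := by linarith
    exact (mul_eq_zero.1 h5).resolve_right hp.ne'
  exact Wf_ker (fun v hv => by simpa [hs] using hz v hv) w hw

omit [FiniteDimensional ℝ E] in
theorem two {V : Finset E} (x y z : Fc V) (h1 : x < z) (h2 : z < y) :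
    ∃ z', z' ≠ z ∧ x < z' ∧ z' < y := by
  obtain ⟨s, z', hxz, hzy, hnn, hz⟩ := rotate (h1.trans h2) (-fm z) fun v hv => by
    simp [fm_zero z (h1.le hv)]
  obtain ⟨u, hu, hux⟩ := exists_of_lt h1
  obtain ⟨t, ht, htz⟩ := exists_of_lt h2
  have hs : s < 0 := by
    have a1 := hnn t ht
    have a2 := fm_pos z (y.2.sub ht) htz
    have a3 := fm_pos x (y.2.sub ht) fun hh => htz (h1.le hh)
    simp only [LinearMap.neg_apply] at a1
    by_contra hc
    push Not at hc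
    nlinarith
  have hu' : u ∉ z'.1 := fun hh => by
    have a1 := hz u hh
    have a3 := fm_pos x (z.2.sub hu) hux
    simp only [LinearMap.neg_apply, fm_zero z hu] at a1
    nlinarith
  exact ⟨z', fun e => hu' (e ▸ hu), hxz, lt_of_mem hzy (h2.le hu) hu'⟩

theorem not_mem_of_ne {V : Finset E} {x y a b : Fc V} (hr : rk y = rk x + 2) (hxa : x < a)
    (hay : a < y) (hxb : x < b) (hby : b < y) (hab : a ≠ b) {u : E} (hu : u ∈ a.1)
    (hux : u ∉ x.1) : u ∉ b.1 := by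
  classical
  intro hub
  have h1 : x < a ⊓ b := lt_of_mem (le_inf hxa.le hxb.le) (Finset.mem_inter.2 ⟨hu, hub⟩) hux
  have r1 := rk_lt _ _ h1
  have r2 := rk_lt _ _ hay
  have r3 := rk_lt _ _ hby
  have r4 := rk_lt _ _ hxa
  have e1 : a ⊓ b = a := by
    by_contra hc
    have := rk_lt _ _ (lt_of_le_of_ne inf_le_left hc)
    omega
  have e2 : a ⊓ b = b := by
    by_contra hc
    have := rk_lt _ _ (lt_of_le_of_ne inf_le_right hc)
    omega
  exact hab (e1.symm.trans e2)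

theorem atMost {V : Finset E} (x y a b c : Fc V) (hr : rk y = rk x + 2) (hxa : x < a)
    (hay : a < y) (hxb : x < b) (hby : b < y) (hxc : x < c) (hcy : c < y) :
    a = b ∨ a = c ∨ b = c := by
  by_contra hne
  push Not at hne
  obtain ⟨hab, hac, hbc⟩ := hne
  obtain ⟨u, hu, hux⟩ := exists_of_lt hxa
  obtain ⟨v, hv, hvx⟩ := exists_of_lt hxb
  obtain ⟨w, hw, hwx⟩ := exists_of_lt hxc
  have pbu := fm_pos b (a.2.sub hu) (not_mem_of_ne hr hxa hay hxb hby hab hu hux)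
  have pcu := fm_pos c (a.2.sub hu) (not_mem_of_ne hr hxa hay hxc hcy hac hu hux)
  have pav := fm_pos a (b.2.sub hv) (not_mem_of_ne hr hxb hby hxa hay hab.symm hv hvx)
  have pcv := fm_pos c (b.2.sub hv) (not_mem_of_ne hr hxb hby hxc hcy hbc hv hvx)
  have paw := fm_pos a (c.2.sub hw) (not_mem_of_ne hr hxc hcy hxa hay hac.symm hw hwx)
  have pbw := fm_pos b (c.2.sub hw) (not_mem_of_ne hr hxc hcy hxb hby hbc.symm hw hwx)
  have k : ∀ z : Fc V, x < z → ∀ t ∈ Wf x.1, fm z t = 0 := fun z hz t ht =>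
    fm_W z t (Wf_mono hz.le ht)
  set S1 := Wf x.1 ⊔ Submodule.span ℝ {(u, (1 : ℝ))} with hS1
  set S2 := S1 ⊔ Submodule.span ℝ {(v, (1 : ℝ))} with hS2
  have l1 : Wf x.1 < S1 := by
    refine lt_of_le_of_ne le_sup_left fun e => pbu.ne' (k b hxb _ ?_)
    rw [e]
    exact Submodule.mem_sup_right (Submodule.subset_span rfl)
  have s1a : S1 ≤ Wf a.1 :=
    sup_le (Wf_mono hxa.le) ((Submodule.span_singleton_le_iff_mem _ _).2 (mem_Wf hu))
  have l2 : S1 < S2 := by
    refine lt_of_le_of_ne le_sup_left fun e => pav.ne' (fm_W a _ (s1a ?_))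
    rw [e]
    exact Submodule.mem_sup_right (Submodule.subset_span rfl)
  have l3 : S2 ≤ Wf y.1 :=
    sup_le (s1a.trans (Wf_mono hay.le))
      ((Submodule.span_singleton_le_iff_mem _ _).2 (mem_Wf (hby.le hv)))
  have e3 : S2 = Wf y.1 := by
    refine Submodule.eq_of_le_of_finrank_le l3 ?_
    have := Submodule.finrank_lt_finrank_of_lt l1
    have := Submodule.finrank_lt_finrank_of_lt l2
    unfold rk at hr
    omega
  have hw2 : (w, (1 : ℝ)) ∈ S2 := e3 ▸ mem_Wf (hcy.le hw)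
  obtain ⟨p, hp, q, hq, hpq⟩ := Submodule.mem_sup.1 hw2
  obtain ⟨p1, hp1, p2, hp2, rfl⟩ := Submodule.mem_sup.1 hp
  obtain ⟨α, rfl⟩ := Submodule.mem_span_singleton.1 hp2
  obtain ⟨β, rfl⟩ := Submodule.mem_span_singleton.1 hq
  have ev : ∀ z : Fc V, x < z → fm z (w, 1) = α * fm z (u, 1) + β * fm z (v, 1) := by
    intro z hz
    rw [← hpq, map_add, map_add, map_smul, map_smul, k z hz p1 hp1]
    simp
  have ea := ev a hxa
  have eb := ev b hxb
  have ec := ev c hxc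
  rw [fm_zero a hu] at ea
  rw [fm_zero b hv] at eb
  rw [fm_zero c hw] at ec
  have hβ : 0 < β := by
    by_contra hc
    push Not at hc
    nlinarith
  have hα : 0 < α := by
    by_contra hc
    push Not at hc
    nlinarith
  nlinarith [mul_pos hα pcu, mul_pos hβ pcv]

theorem graded (V : Finset E) : Graded (rk : Fc V → ℕ) :=
  ⟨rk_lt, mid, fun x y z h1 h2 _ => two x y z h1 h2, atMost⟩

omit [FiniteDimensional ℝ E] in
theorem coneData (V : Finset E) :
    ConeData (rk : Fc V → ℕ) (fun x => Wf x.1) (fun x => ∑ v ∈ x.1, (v, (1 : ℝ))) where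
  mono _ _ h := Wf_mono h
  mem _ := Submodule.sum_mem _ fun _ hv => mem_Wf hv
  dim _ := rfl
  sep z := by
    refine ⟨fm z, fm_W z, fun w hw => ?_⟩
    rw [map_sum]
    obtain ⟨v, hv, hvz⟩ : ∃ v ∈ w.1, v ∉ z.1 := by
      by_contra hc
      push Not at hc
      exact hw hc
    exact Finset.sum_pos' (fun t ht => fm_nonneg z (w.2.sub ht))
      ⟨v, hv, fm_pos z (w.2.sub hv) hvz⟩

omit [FiniteDimensional ℝ E] in
theorem form_sum (m : E × ℝ →ₗ[ℝ] ℝ) (V : Finset E) (w : E → ℝ) (h : ∑ y ∈ V, w y = 1) :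
    m (∑ y ∈ V, w y • y, 1) = ∑ y ∈ V, w y * m (y, 1) := by
  have : ((∑ y ∈ V, w y • y, 1) : E × ℝ) = ∑ y ∈ V, w y • ((y, 1) : E × ℝ) := by
    ext
    · simp [Prod.fst_sum]
    · simp [Prod.snd_sum, h]
  rw [this, map_sum]
  simp only [map_smul, smul_eq_mul]

omit [FiniteDimensional ℝ E] in
theorem hull_nonneg {V : Finset E} {m : E × ℝ →ₗ[ℝ] ℝ} (hm : ∀ v ∈ V, 0 ≤ m (v, 1)) {p : E}
    (hp : p ∈ convexHull ℝ (V : Set E)) : 0 ≤ m (p, 1) := by
  obtain ⟨w, hw0, hw1, rfl⟩ := Finset.mem_convexHull'.1 hp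
  rw [form_sum m V w hw1]
  exact Finset.sum_nonneg fun y hy => mul_nonneg (hw0 y hy) (hm y hy)

omit [FiniteDimensional ℝ E] in
theorem hull_face {V F : Finset E} {m : E × ℝ →ₗ[ℝ] ℝ} (hm : ∀ v ∈ V, 0 ≤ m (v, 1))
    (hF : ∀ v, v ∈ F ↔ v ∈ V ∧ m (v, 1) = 0) (p : E) :
    p ∈ convexHull ℝ (F : Set E) ↔ p ∈ convexHull ℝ (V : Set E) ∧ m (p, 1) = 0 := by
  have hsub : F ⊆ V := fun v hv => ((hF v).1 hv).1
  constructor
  · intro hp
    refine ⟨convexHull_mono (by exact_mod_cast hsub) hp, ?_⟩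
    obtain ⟨w, -, hw1, rfl⟩ := Finset.mem_convexHull'.1 hp
    rw [form_sum m F w hw1]
    exact Finset.sum_eq_zero fun y hy => by rw [((hF y).1 hy).2, mul_zero]
  · rintro ⟨hp, h0⟩
    obtain ⟨w, hw0, hw1, rfl⟩ := Finset.mem_convexHull'.1 hp
    rw [form_sum m V w hw1,
      Finset.sum_eq_zero_iff_of_nonneg fun y hy => mul_nonneg (hw0 y hy) (hm y hy)] at h0
    have hz : ∀ y ∈ V, y ∉ F → w y = 0 := fun y hy hyF =>
      (mul_eq_zero.1 (h0 y hy)).resolve_right fun e => hyF ((hF y).2 ⟨hy, e⟩)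
    refine Finset.mem_convexHull'.2 ⟨w, fun y hy => hw0 y (hsub hy), ?_, ?_⟩
    · rw [← hw1]
      exact Finset.sum_subset hsub hz
    · exact Finset.sum_subset hsub fun y hy hyF => by rw [hz y hy hyF, zero_smul]

theorem exposed {V : Finset E} (x : Fc V) :
    IsExposed ℝ (convexHull ℝ (V : Set E)) (convexHull ℝ (x.1 : Set E)) := by
  rintro ⟨p0, hp0⟩
  have key := hull_face (fun v hv => fm_nonneg x hv) (fm_iff x)
  have sp : ∀ p : E, fm x (p, 1) = fm x (p, 0) + fm x (0, 1) := fun p => by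
    rw [← map_add]; simp
  refine ⟨LinearMap.toContinuousLinearMap (-(fm x ∘ₗ LinearMap.inl ℝ E ℝ)), ?_⟩
  ext p
  simp only [Set.mem_ofPred_eq, LinearMap.coe_toContinuousLinearMap', LinearMap.neg_apply,
    LinearMap.comp_apply, LinearMap.inl_apply, neg_le_neg_iff]
  rw [key]
  refine and_congr_right fun hp => ⟨fun h0 q hq => ?_, fun h => ?_⟩
  · have := hull_nonneg (fun v hv => fm_nonneg x hv) hq
    rw [sp] at this h0
    linarith
  · obtain ⟨a1, a2⟩ := (key p0).1 hp0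
    have a3 := h p0 a1
    have a4 := hull_nonneg (fun v hv => fm_nonneg x hv) hp
    rw [sp] at a2 a4 ⊢
    linarith

/-- The face of the polytope spanned by a vertex set. -/
def toFace {V : Finset E} (x : Fc V) :
    {F : Set E // IsExposed ℝ (convexHull ℝ (V : Set E)) F} := ⟨_, exposed x⟩

theorem toFace_le {V : Finset E} (x y : Fc V) : toFace x ≤ toFace y ↔ x ≤ y := by
  constructor
  · intro h v hv
    have h1 : v ∈ convexHull ℝ (y.1 : Set E) := h (subset_convexHull ℝ _ hv)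
    rw [hull_face (fun v hv => fm_nonneg y hv) (fm_iff y)] at h1
    exact (fm_iff y v).2 ⟨x.2.sub hv, h1.2⟩
  · intro h
    exact convexHull_mono (show (x.1 : Set E) ⊆ y.1 from fun v hv => h hv)

theorem toFace_surj (V : Finset E) : Function.Surjective (toFace (V := V)) := by
  classical
  rintro ⟨G, hG⟩
  rcases G.eq_empty_or_nonempty with rfl | hne
  · exact ⟨⟨∅, isFace_empty V⟩, Subtype.ext (by simp [toFace])⟩
  obtain ⟨l, hl⟩ := hG hne
  obtain ⟨p0, hp0⟩ := hne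
  have hp0' := hp0
  rw [hl] at hp0'
  set m : E × ℝ →ₗ[ℝ] ℝ :=
    l p0 • LinearMap.snd ℝ E ℝ - (l : E →ₗ[ℝ] ℝ) ∘ₗ LinearMap.fst ℝ E ℝ with hm
  have hmv : ∀ p, m (p, 1) = l p0 - l p := fun p => by simp [hm]
  have hm0 : ∀ v ∈ V, 0 ≤ m (v, 1) := fun v hv => by
    rw [hmv]
    exact sub_nonneg.2 (hp0'.2 v (subset_convexHull ℝ _ hv))
  have hF : ∀ v, v ∈ V.filter (fun v => m (v, 1) = 0) ↔ v ∈ V ∧ m (v, 1) = 0 := fun v =>
    Finset.mem_filter
  refine ⟨⟨_, m, hm0, hF⟩, Subtype.ext ?_⟩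
  ext p
  change p ∈ convexHull ℝ _ ↔ p ∈ G
  rw [hull_face hm0 hF, hl, hmv]
  refine and_congr_right fun hp => ⟨fun h0 q hq => ?_, fun h => ?_⟩
  · have := hp0'.2 q hq
    linarith
  · have a1 := h p0 hp0'.1
    have a2 := hp0'.2 p hp
    linarith

/-- Faces as vertex sets and faces as exposed subsets. -/
noncomputable def faceIso (V : Finset E) :
    Fc V ≃o {F : Set E // IsExposed ℝ (convexHull ℝ (V : Set E)) F} :=
  RelIso.ofSurjective (OrderEmbedding.ofMapLEIff toFace toFace_le) (toFace_surj V)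

theorem rank_eq (F : Finset E) :
    (finrank ℝ (Wf F) : ℤ) = pdim (convexHull ℝ (F : Set E)) + 1 := by
  rcases F.eq_empty_or_nonempty with rfl | ⟨p, hp⟩
  · have : Wf (∅ : Finset E) = ⊥ := by
      rw [Wf, Finset.coe_empty, Set.image_empty, Submodule.span_empty]
    rw [this]
    simp [pdim]
  have hne : convexHull ℝ (F : Set E) ≠ ∅ :=
    Set.Nonempty.ne_empty ⟨p, subset_convexHull ℝ _ hp⟩
  have hv : vectorSpan ℝ (convexHull ℝ (F : Set E)) = vectorSpan ℝ (F : Set E) := by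
    rw [← direction_affineSpan, affineSpan_convexHull, direction_affineSpan]
  rw [pdim, if_neg hne, hv]
  set A := (vectorSpan ℝ (F : Set E)).map (LinearMap.inl ℝ E ℝ) with hA
  set B := Submodule.span ℝ {(p, (1 : ℝ))} with hB
  have e1 : Wf F = A ⊔ B := by
    apply le_antisymm
    · refine Submodule.span_le.2 ?_
      rintro _ ⟨v, hv, rfl⟩
      refine Submodule.mem_sup.2 ⟨(v - p, 0), ⟨v - p, vsub_mem_vectorSpan ℝ hv hp, rfl⟩,
        (p, 1), Submodule.subset_span rfl, by simp⟩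
    · refine sup_le ?_ ((Submodule.span_singleton_le_iff_mem _ _).2 (mem_Wf hp))
      rw [hA, vectorSpan_def, Submodule.map_span]
      refine Submodule.span_le.2 ?_
      rintro _ ⟨_, ⟨a, ha, b, hb, rfl⟩, rfl⟩
      have := (Wf F).sub_mem (mem_Wf ha) (mem_Wf hb)
      simpa using this
  have e2 : A ⊓ B = ⊥ := by
    rw [eq_bot_iff]
    rintro t ⟨⟨a, -, ha⟩, hb⟩
    obtain ⟨c, rfl⟩ := Submodule.mem_span_singleton.1 hb
    have : c = 0 := by simpa using (congrArg Prod.snd ha).symm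
    simp [this]
  have e3 := Submodule.finrank_sup_add_finrank_inf_eq A B
  have e4 : finrank ℝ B = 1 := finrank_span_singleton (by simp)
  have e5 : finrank ℝ A = finrank ℝ (vectorSpan ℝ (F : Set E)) :=
    (LinearEquiv.finrank_eq (Submodule.equivMapOfInjective _ LinearMap.inl_injective _)).symm
  rw [e2, finrank_bot] at e3
  rw [e1]
  omega

end ConeP

theorem cone : ConeStmt := fun _ V =>
  ⟨ConeP.Fc V, inferInstance, inferInstance, ConeP.rk, _, _, ConeP.faceIso V, ConeP.graded V,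
    ConeP.coneData V, fun x => ConeP.rank_eq x.1⟩

end Pool.Agent.P.MP_cedf91_co
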