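import Mathlib

/-! Interface statements for the proof of the Perles simplex quotient theorem. -/

namespace Pool.Agent.P.MP_cedf91_co

open Polynomial

/-- A rank function on a poset in which every interval of length two has exactly two middle
elements. -/
structure Graded {L : Type} [PartialOrder L] (rk : L → ℕ) : Prop where
  lt : ∀ x y, x < y → rk x < rk y
  mid : ∀ x y, x < y → rk x + 1 < rk y → ∃ z, x < z ∧ z < y
  two : ∀ x y z, x < z → z < y → rk y = rk x + 2 → ∃ z', z' ≠ z ∧ x < z' ∧ z' < y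
  atMost : ∀ x y a b c, rk y = rk x + 2 → x < a → a < y → x < b → b < y → x < c → c < y →
    a = b ∨ a = c ∨ b = c

/-- Geometric data of the face lattice of a cone: spans `W` and interior points `b`. -/
structure ConeData {L E : Type} [PartialOrder L] [AddCommGroup E] [Module ℝ E] (rk : L → ℕ)
    (W : L → Submodule ℝ E) (b : L → E) : Prop where
  mono : ∀ x y, x ≤ y → W x ≤ W y
  mem : ∀ x, b x ∈ W x
  dim : ∀ x, Module.finrank ℝ (W x) = rk x
  sep : ∀ z, ∃ m : E →ₗ[ℝ] ℝ, (∀ v ∈ W z, m v = 0) ∧ ∀ w, ¬ w ≤ z → 0 < m (b w)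

open Classical in
/-- Toric `g`-polynomials with nonnegative coefficients. -/
structure GData {L : Type} [PartialOrder L] [Fintype L] (rk : L → ℕ) (g : L → L → ℝ[X]) :
    Prop where
  self : ∀ x, g x x = 1
  nonneg : ∀ x y i, 0 ≤ (g x y).coeff i
  deg : ∀ x y i, x < y → (g x y).coeff i ≠ 0 → 2 * i + rk x < rk y
  recur : ∀ x y, x < y → (g x y).reflect (rk y - rk x) =
    ∑ z ∈ Finset.univ.filter (fun z => x ≤ z ∧ z ≤ y), g x z * (X - 1) ^ (rk y - rk z)

open Classical in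
/-- The cover matrix. -/
noncomputable def eta {L : Type} [PartialOrder L] (rk : L → ℕ) : Matrix L L ℝ :=
  fun x y => if x < y ∧ rk y = rk x + 1 then 1 else 0

open Classical in
/-- Every interval has many maximal chains. -/
def ManyFlags {L : Type} [PartialOrder L] [Fintype L] (rk : L → ℕ) (K : ℝ) : Prop :=
  ∀ x y : L, x ≤ y → ((rk y - rk x).factorial : ℝ) * 3 ^ (rk y - rk x) ≤
    K * (eta rk ^ (rk y - rk x)) x y

def T1Stmt : Prop :=
  ∀ K : ℝ, ∃ n0 : ℕ, ∀ (L : Type) [PartialOrder L] [Fintype L] (rk : L → ℕ) (g : L → L → ℝ[X]),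
    (∀ x y, x < y → rk x < rk y) → GData rk g → ManyFlags rk K →
    ∀ x y : L, x ≤ y → rk y - rk x ≤ n0

def T2Stmt : Prop :=
  ∀ k : ℕ, ∃ K : ℝ, ∀ (L : Type) [Lattice L] [Fintype L] (rk : L → ℕ), Graded rk →
    (∀ x y : L, x ≤ y → rk y = rk x + (k + 1) →
      IsEmpty (Set.Icc x y ≃o Finset (Fin (k + 1)))) → ManyFlags rk K

def KaruStmt : Prop :=
  ∀ (L E : Type) [PartialOrder L] [Fintype L] [AddCommGroup E] [Module ℝ E]
    [FiniteDimensional ℝ E] (rk : L → ℕ) (W : L → Submodule ℝ E) (b : L → E),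
    Graded rk → ConeData rk W b → ∃ g : L → L → ℝ[X], GData rk g

open Classical in
/-- Dimension of a subset of a real vector space: `-1` for the empty set, otherwise the dimension
of its affine hull. -/
noncomputable def pdim {E : Type} [AddCommGroup E] [Module ℝ E] (F : Set E) : ℤ :=
  if F = ∅ then -1 else (Module.finrank ℝ (vectorSpan ℝ F) : ℤ)

def ConeStmt : Prop :=
  ∀ (d : ℕ) (V : Finset (EuclideanSpace ℝ (Fin d))),
    ∃ (L : Type) (_ : Lattice L) (_ : Fintype L) (rk : L → ℕ)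
      (W : L → Submodule ℝ (EuclideanSpace ℝ (Fin d) × ℝ)) (b : L → EuclideanSpace ℝ (Fin d) × ℝ)
      (f : L ≃o {F : Set (EuclideanSpace ℝ (Fin d)) //
        IsExposed ℝ (convexHull ℝ (V : Set (EuclideanSpace ℝ (Fin d)))) F}),
      Graded rk ∧ ConeData rk W b ∧ ∀ x, (rk x : ℤ) = pdim (f x).1 + 1

def FinalStmt : Prop :=
  ∀ k : ℕ, ∃ d' : ℕ, ∀ d : ℕ, d' < d → ∀ V : Finset (EuclideanSpace ℝ (Fin d)),
    affineSpan ℝ (V : Set (EuclideanSpace ℝ (Fin d))) = ⊤ →
    ∃ F G : Set (EuclideanSpace ℝ (Fin d)),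
      IsExposed ℝ (convexHull ℝ (V : Set (EuclideanSpace ℝ (Fin d)))) F ∧
      IsExposed ℝ (convexHull ℝ (V : Set (EuclideanSpace ℝ (Fin d)))) G ∧ F ⊆ G ∧
      pdim G - pdim F - 1 = k ∧
      Nonempty ({H : Set (EuclideanSpace ℝ (Fin d)) //
        IsExposed ℝ (convexHull ℝ (V : Set (EuclideanSpace ℝ (Fin d)))) H ∧ F ⊆ H ∧ H ⊆ G} ≃o
        Finset (Fin (k + 1)))

end Pool.Agent.P.MP_cedf91_co
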