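import Pool.Agent.P.MP_cedf91_co.KFan

/-! Intersection cohomology: setting and basic reductions. -/

namespace Pool.Agent.P.MP_cedf91_co

open Submodule Filter Topology MvPolynomial

section Fil

variable {ι : Type} {S1 S2 S : Finset ι}

theorem mul_mem_Fil {p q j i : ℕ} {α β : PR ι} (hα : α ∈ RS S1 p) (hβ : β ∈ RS S2 q) (hp : p < j)
    (hi : p + q = i) : α * β ∈ Fil S1 S2 j i :=
  subset_span ⟨p, q, α, hα, β, hβ, hp, hi, rfl⟩

theorem Fil_le {j i : ℕ} {W : Submodule ℝ (PR ι)}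
    (h : ∀ p q, ∀ α ∈ RS S1 p, ∀ β ∈ RS S2 q, p < j → p + q = i → α * β ∈ W) :
    Fil S1 S2 j i ≤ W := by
  refine span_le.2 ?_
  rintro _ ⟨p, q, α, hα, β, hβ, hp, hi, rfl⟩
  exact h p q α hα β hβ hp hi

theorem Fil_mul1 {j i p : ℕ} {γ α : PR ι} (hγ : γ ∈ Fil S1 S2 j i) (hα : α ∈ RS S1 p) :
    α * γ ∈ Fil S1 S2 (p + j) (p + i) := by
  refine Fil_le (W := (Fil S1 S2 (p + j) (p + i)).comap (LinearMap.mulLeft ℝ α))
    (fun p' q α' hα' β hβ hp hi => ?_) hγ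
  rw [Submodule.mem_comap, LinearMap.mulLeft_apply, ← mul_assoc]
  exact mul_mem_Fil (mul_mem_RS hα hα') hβ (by omega) (by omega)

theorem Fil_mul2 {j i q : ℕ} {γ β : PR ι} (hγ : γ ∈ Fil S1 S2 j i) (hβ : β ∈ RS S2 q) :
    γ * β ∈ Fil S1 S2 j (i + q) := by
  refine Fil_le (W := (Fil S1 S2 j (i + q)).comap (LinearMap.mulRight ℝ β))
    (fun p' q α' hα' β' hβ' hp hi => ?_) hγ
  rw [Submodule.mem_comap, LinearMap.mulRight_apply, mul_assoc]
  exact mul_mem_Fil hα' (mul_mem_RS hβ' hβ) hp (by omega)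

theorem Fil_le_RS (h1 : S1 ⊆ S) (h2 : S2 ⊆ S) (j i : ℕ) : Fil S1 S2 j i ≤ RS S i :=
  Fil_le fun _ _ _ hα _ hβ _ hi => hi ▸ mul_mem_RS (RS_mono h1 _ hα) (RS_mono h2 _ hβ)

theorem BundleOut.filE1 {F F1 F2 : Fan ι} {e : ι} {φ φ1 φ2 : PR ι →ₗ[ℝ] ℝ} {c : ℝ}
    (h : BundleOut F F1 F2 e φ φ1 φ2 c) {j i : ℕ} (hj : j ≤ F1.n) {γ : PR ι}
    (hγ : γ ∈ Fil F1.S F2.S j i) : φ (X e * γ) = 0 := by
  refine Fil_le (W := LinearMap.ker (φ ∘ₗ LinearMap.mulLeft ℝ (X e)))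
    (fun p q α hα β hβ hp _ => ?_) hγ
  rw [LinearMap.mem_ker, LinearMap.comp_apply, LinearMap.mulLeft_apply, ← mul_assoc]
  exact h.E1 p q α hα β hβ (by omega)

end Fil

theorem phi_eq_of_sub {R : Type} [CommRing R] [Algebra ℝ R] {φ : R →ₗ[ℝ] ℝ} {x y : R}
    (h : x - y ∈ ann φ) (z : R) : φ (x * z) = φ (y * z) := by
  have := h z
  rwa [sub_mul, map_sub, sub_eq_zero] at this

/-- The kernel of pairing with a fixed element. -/
def kerMul {R : Type} [CommRing R] [Algebra ℝ R] (φ : R →ₗ[ℝ] ℝ) (x : R) : Submodule ℝ R :=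
  LinearMap.ker (φ ∘ₗ LinearMap.mulLeft ℝ x)

theorem mem_kerMul {R : Type} [CommRing R] [Algebra ℝ R] {φ : R →ₗ[ℝ] ℝ} {x y : R} :
    y ∈ kerMul φ x ↔ φ (x * y) = 0 := Iff.rfl

theorem ann_le_kerMul {R : Type} [CommRing R] [Algebra ℝ R] {φ : R →ₗ[ℝ] ℝ} (x : R) :
    ann φ ≤ kerMul φ x := fun _ hy => mem_kerMul.2 (ann_apply (ann_mul_left hy x))

variable {L E : Type} [PartialOrder L] [Fintype L] [DecidableEq L] [AddCommGroup E] [Module ℝ E]

omit [DecidableEq L] in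
theorem mem_ioo {σ τ z : L} : z ∈ ioo σ τ ↔ σ < z ∧ z < τ := by simp [ioo]

omit [DecidableEq L] in
theorem ioo_sub_left {σ e τ : L} (h : e ≤ τ) : ioo σ e ⊆ ioo σ τ := fun _ hz =>
  mem_ioo.2 ⟨(mem_ioo.1 hz).1, (mem_ioo.1 hz).2.trans_le h⟩

omit [DecidableEq L] in
theorem ioo_sub_right {σ e τ : L} (h : σ ≤ e) : ioo e τ ⊆ ioo σ τ := fun _ hz =>
  mem_ioo.2 ⟨h.trans_lt (mem_ioo.1 hz).1, (mem_ioo.1 hz).2⟩

/-- All global choices. -/
structure Env (rk : L → ℕ) (W : L → Submodule ℝ E) (b : L → E) where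
  vol : L → L → PR L →ₗ[ℝ] ℝ
  mf : L → L → E →ₗ[ℝ] ℝ
  cc : L → L → L → ℝ
  dB : ∀ x y, (bary rk W b x y).K → ℕ
  fB : ∀ x y, (bary rk W b x y).K → PR L
  gB : ∀ x y, (bary rk W b x y).K → PR L
  C : ℝ
  lt : ∀ x y, x < y → rk x < rk y
  mono : ∀ x y, x ≤ y → W x ≤ W y
  mem : ∀ x, b x ∈ W x
  isVol : ∀ x y, x < y → (bary rk W b x y).IsVol (vol x y)
  gsub : ∀ x y, x < y → GSub (vol x y) (HS L) (RS (ioo x y))
  mf0 : ∀ x y, x < y → ∀ v ∈ W x, mf x y v = 0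
  mf1 : ∀ x y, x < y → mf x y (b y) = 1
  bun : ∀ x e y, x < e → e < y → Bundle (bary rk W b x y) (bary rk W b x e) (bary rk W b e y) e
  out : ∀ x e y, x < e → e < y → BundleOut (bary rk W b x y) (bary rk W b x e) (bary rk W b e y) e
    (vol x y) (vol x e) (vol e y) (cc x e y)
  dual : ∀ x y, x < y → DualFam (vol x y) (RS (ioo x y)) (rk y - rk x - 1) (dB x y) (fB x y)
    (gB x y)
  count : ∀ x y, x < y → ∑ i, (Polynomial.X : Polynomial ℝ) ^ dB x y i = Hb rk W b x y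
  hC : 1 ≤ C
  num : ∀ x y, x < y → ∀ ε : L → ℝ, (∀ z ∈ ioo x y, 0 < ε z ∧ C * ε z ≤ 1) →
    (∀ z ∈ ioo x y, ∀ w ∈ ioo x y, rk z < rk w → C * ε z ≤ ε w) →
    Num (vol x y) (RS (ioo x y)) (lin (ioo x y) fun z => mf x y (b z) - ε z) (rk y - rk x - 1)

omit [DecidableEq L] [PartialOrder L] in
theorem exists_eps (rk : L → ℕ) {C : ℝ} (hC : 1 ≤ C) : ∃ ε : L → ℝ,
    (∀ z, 0 < ε z ∧ C * ε z ≤ 1) ∧ ∀ z w, rk z < rk w → C * ε z ≤ ε w := by
  have hC0 : 0 < C := by linarith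
  refine ⟨fun z => C ^ rk z / C ^ (Finset.univ.sup rk + 1), fun z => ⟨by positivity, ?_⟩,
    fun z w h => ?_⟩
  · rw [← mul_div_assoc, ← pow_succ', div_le_one (by positivity)]
    exact pow_le_pow_right₀ hC (Nat.succ_le_succ (Finset.le_sup (f := rk) (Finset.mem_univ z)))
  · rw [← mul_div_assoc, ← pow_succ']
    exact div_le_div_of_nonneg_right (pow_le_pow_right₀ hC h) (by positivity)

theorem exists_env [FiniteDimensional ℝ E] {rk : L → ℕ} {W : L → Submodule ℝ E} {b : L → E}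
    (HV : FanVolStmt) (HJ : FanJLib) (HB : BundleStmt) (HM : McMStmt) (HA : BaryAStmt)
    (HBB : BaryBStmt) (hG : Graded rk) (hC : ConeData rk W b) : Nonempty (Env rk W b) := by
  obtain ⟨hgood, hbun, -⟩ := HA hG hC
  obtain ⟨C, hC1, hamp⟩ := HBB hG hC
  have hmf : ∀ x y : L, ∃ m : E →ₗ[ℝ] ℝ, x < y → (∀ v ∈ W x, m v = 0) ∧ m (b y) = 1 := by
    intro x y
    obtain ⟨m, h0, h1⟩ := hC.sep x
    refine ⟨(m (b y))⁻¹ • m, fun h => ⟨fun v hv => by simp [h0 v hv], ?_⟩⟩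
    simp [inv_mul_cancel₀ (h1 y h.not_ge).ne']
  choose mf hmf using hmf
  obtain ⟨ε, hε1, hε2⟩ := exists_eps rk hC1
  have hA : ∀ x y, x < y → (bary rk W b x y).Ample fun z => mf x y (b z) - ε z := fun x y h =>
    hamp x y h _ (hmf x y h).1 (hmf x y h).2 ε (fun z _ => hε1 z) fun z _ w _ => hε2 z w
  have hvol : ∀ x y : L, ∃ φ, x < y → (bary rk W b x y).IsVol φ := by
    intro x y
    by_cases h : x < y
    · obtain ⟨φ, hφ⟩ := HV (hgood x y h) (hA x y h)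
      exact ⟨φ, fun _ => hφ⟩
    · exact ⟨0, fun h' => absurd h' h⟩
  choose vol hvol using hvol
  have hout : ∀ x e y : L, ∃ c, x < e → e < y → BundleOut (bary rk W b x y) (bary rk W b x e)
      (bary rk W b e y) e (vol x y) (vol x e) (vol e y) c := by
    intro x e y
    by_cases h : x < e ∧ e < y
    · obtain ⟨c, hc⟩ := HB (hbun x e y h.1 h.2) (hgood x y (h.1.trans h.2)) (hgood x e h.1)
        (hgood e y h.2) (hA x e h.1) (hA e y h.2) (hvol x y (h.1.trans h.2)) (hvol x e h.1)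
        (hvol e y h.2)
      exact ⟨c, fun _ _ => hc⟩
    · exact ⟨0, fun h1 h2 => absurd ⟨h1, h2⟩ h⟩
  choose cc hout using hout
  have hfh : ∀ x y : L, ∃ (d : (bary rk W b x y).K → ℕ) (f g : (bary rk W b x y).K → PR L),
      x < y → DualFam (vol x y) (RS (ioo x y)) (rk y - rk x - 1) d f g ∧
      ∑ i, (Polynomial.X : Polynomial ℝ) ^ d i = Hb rk W b x y := by
    intro x y
    by_cases h : x < y
    · obtain ⟨d, f, g, hd⟩ := HJ.fh (hgood x y h) (hA x y h) (hvol x y h)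
      exact ⟨d, f, g, fun _ => hd⟩
    · exact ⟨0, 0, 0, fun h' => absurd h' h⟩
  choose dB fB gB hfh using hfh
  have hgs : ∀ x y, x < y → GSub (vol x y) (HS L) (RS (ioo x y)) :=
    fun x y h => HJ.gsub (F := bary rk W b x y) (hgood x y h) (hA x y h) (hvol x y h)
  have hnum : ∀ x y, x < y → ∀ ε : L → ℝ, (∀ z ∈ ioo x y, 0 < ε z ∧ C * ε z ≤ 1) →
      (∀ z ∈ ioo x y, ∀ w ∈ ioo x y, rk z < rk w → C * ε z ≤ ε w) →
      Num (vol x y) (RS (ioo x y)) (lin (ioo x y) fun z => mf x y (b z) - ε z)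
        (rk y - rk x - 1) := by
    intro x y h ε h1 h2
    have a1 : (bary rk W b x y).NumF := HM L _ (bary rk W b x y) rfl (hgood x y h)
    exact a1 _ (hamp x y h _ (hmf x y h).1 (hmf x y h).2 ε h1 h2) _ (hvol x y h)
  exact ⟨⟨vol, mf, cc, dB, fB, gB, C, hG.lt, hC.mono, hC.mem, hvol, hgs, fun x y h => (hmf x y h).1,
    fun x y h => (hmf x y h).2, hbun, hout, fun x y h => (hfh x y h).1,
    fun x y h => (hfh x y h).2, hC1, hnum⟩⟩

/-- A family of strings. -/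
structure Str (L : Type) where
  m : ℕ
  a : Fin m → ℕ
  p : Fin m → PR L

namespace Env

variable {rk : L → ℕ} {W : L → Submodule ℝ E} {b : L → E} (U : Env rk W b)

/-- The nef class of an interval. -/
noncomputable def Lc (x y : L) : PR L := lin (ioo x y) fun z => U.mf x y (b z)

theorem Lc_mem (x y : L) : U.Lc x y ∈ RS (ioo x y) 1 := lin_mem_RS subset_rfl _

theorem theta_ann {σ τ : L} (h : σ < τ) (m : E →ₗ[ℝ] ℝ) (h0 : ∀ v ∈ W σ, m v = 0)
    (h1 : m (b τ) = 0) : lin (ioo σ τ) (fun z => m (b z)) ∈ ann (U.vol σ τ) := by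
  classical
  have := (U.isVol σ τ h).theta _ (subset_span ⟨m, h0, h1, rfl⟩)
  convert this using 1
  refine Finset.sum_congr rfl fun z (hz : z ∈ ioo σ τ) => ?_
  simp only [if_pos hz]

theorem split_ann {σ e τ : L} (h1 : σ < e) (h2 : e < τ) {T : Finset L} (c : L → ℝ)
    (hT : ioo e τ ⊆ T) : X e * (lin T c - (lin (T.filter (· = e)) c + lin (T ∩ ioo σ e) c +
      lin (ioo e τ) c)) ∈ ann (U.vol σ τ) := by
  have e1 : lin T c = lin (T.filter (· = e)) c + lin (T ∩ ioo σ e) c + lin (ioo e τ) c +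
      lin (T.filter fun z => z ≠ e ∧ z ∉ ioo σ e ∧ z ∉ ioo e τ) c := by
    have e2 : lin (ioo e τ) c = lin (T.filter (· ∈ ioo e τ)) c := by
      rw [Finset.filter_mem_eq_inter, Finset.inter_eq_right.2 hT]
    rw [e2, ← Finset.filter_mem_eq_inter]
    simp only [lin, Finset.sum_filter, ← Finset.sum_add_distrib]
    refine Finset.sum_congr rfl fun z _ => ?_
    by_cases a1 : z = e
    · subst a1; simp [mem_ioo]
    · by_cases a2 : z ∈ ioo σ e
      · have a3 : z ∉ ioo e τ := fun a3 => (mem_ioo.1 a2).2.not_gt (mem_ioo.1 a3).1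
        simp [a1, a2, a3]
      · by_cases a3 : z ∈ ioo e τ <;> simp [a1, a2, a3]
  rw [e1, add_sub_cancel_left, lin, Finset.mul_sum]
  refine Submodule.sum_mem _ fun z hz => ?_
  rw [mul_smul_comm]
  obtain ⟨-, a1, a2, a3⟩ := Finset.mem_filter.1 hz
  exact Submodule.smul_mem _ _ ((U.out σ e τ h1 h2).E0 z a1 a2 a3)

theorem split_ann' {σ e τ : L} (h1 : σ < e) (h2 : e < τ) (c : L → ℝ) :
    X e * (lin (ioo σ τ) c - (c e • X e + lin (ioo σ e) c + lin (ioo e τ) c)) ∈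
      ann (U.vol σ τ) := by
  have := U.split_ann h1 h2 (T := ioo σ τ) c (ioo_sub_right h1.le)
  rwa [Finset.filter_eq', if_pos (mem_ioo.2 ⟨h1, h2⟩), Finset.inter_eq_right.2
    (ioo_sub_left h2.le), lin, lin, Finset.sum_singleton] at this

theorem K3a {σ e τ : L} (h1 : σ < e) (h2 : e < τ) :
    X e * (U.Lc σ τ - U.Lc e τ) ∈ ann (U.vol σ τ) := by
  have a1 := U.theta_ann (h1.trans h2) (U.mf σ τ - U.mf e τ) (fun v hv => by
    simp [U.mf0 σ τ (h1.trans h2) v hv, U.mf0 e τ h2 v (U.mono _ _ h1.le hv)])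
    (by simp [U.mf1 σ τ (h1.trans h2), U.mf1 e τ h2])
  have a2 := U.split_ann' h1 h2 fun z => U.mf e τ (b z)
  have a3 : lin (ioo σ e) (fun z => U.mf e τ (b z)) = 0 :=
    Finset.sum_eq_zero fun z hz => by
      simp [U.mf0 e τ h2 _ (U.mono _ _ (mem_ioo.1 hz).2.le (U.mem z))]
  simp only [a3, U.mf0 e τ h2 _ (U.mem e), zero_smul, zero_add] at a2
  convert (ann _).add_mem (ann_mul_left a1 (X e)) a2 using 1
  simp only [Lc, lin, LinearMap.sub_apply, sub_smul, Finset.sum_sub_distrib]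
  ring

theorem K3b {σ e τ : L} (h1 : σ < e) (h2 : e < τ) :
    ∃ β0 ∈ RS (ioo e τ) 1, X e * (X e + U.Lc σ e - β0) ∈ ann (U.vol σ τ) := by
  set m := U.mf σ e - U.mf σ e (b τ) • U.mf e τ with hm
  have a1 := U.theta_ann (h1.trans h2) m (fun v hv => by
    simp [hm, U.mf0 σ e h1 v hv, U.mf0 e τ h2 v (U.mono _ _ h1.le hv)])
    (by simp [hm, U.mf1 e τ h2])
  have a2 := U.split_ann' h1 h2 fun z => m (b z)
  have a3 : lin (ioo σ e) (fun z => m (b z)) = U.Lc σ e :=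
    Finset.sum_congr rfl fun z hz => by
      simp [hm, U.mf0 e τ h2 _ (U.mono _ _ (mem_ioo.1 hz).2.le (U.mem z))]
  have a4 : m (b e) = 1 := by simp [hm, U.mf0 e τ h2 _ (U.mem e), U.mf1 σ e h1]
  simp only [a3, a4, one_smul] at a2
  refine ⟨-lin (ioo e τ) fun z => m (b z), neg_mem (lin_mem_RS subset_rfl _), ?_⟩
  convert (ann _).sub_mem (ann_mul_left a1 (X e)) a2 using 1
  ring

theorem lift_ann {σ w e τ : L} (h0 : σ < w) (h1 : w < e) (h2 : e < τ) {q : ℕ} {x : PR L}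
    (hx : x ∈ RS (ioo w τ) q) (h : X e * x ∈ ann (U.vol w τ)) :
    X w * (X e * x) ∈ ann (U.vol σ τ) :=
  (U.out σ w τ h0 (h1.trans h2)).E3 _ _ (mul_mem_RS (X_mem_RS (mem_ioo.2 ⟨h1, h2⟩)) hx) h

/-- Orthogonality to the basis classes implies orthogonality to all classes. -/
theorem K6 {σ w e τ : L} (h0 : σ < w) (h1 : w < e) (h2 : e < τ) (γ0 : PR L)
    (h : ∀ t q, ∀ β ∈ RS (ioo e τ) q, U.vol σ τ (γ0 * X w * X e * (U.fB w e t * β)) = 0)
    {q : ℕ} {β : PR L} (hβ : β ∈ RS (ioo w τ) q) : U.vol σ τ (γ0 * X w * X e * β) = 0 := by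
  have hle := Fil_le_RS (ioo_sub_left (σ := w) h2.le) (ioo_sub_right (τ := τ) h1.le)
  have key : ∀ j i, Fil (ioo w e) (ioo e τ) j i ≤ kerMul (U.vol σ τ) (γ0 * X w * X e) := by
    intro j
    induction j with
    | zero => exact fun i => Fil_le fun _ _ _ _ _ _ hp _ => absurd hp (Nat.not_lt_zero _)
    | succ j ih =>
      refine fun i => Fil_le fun p q α hα β hβ hp hi => ?_
      obtain ⟨y, hy, z, hz, rfl⟩ := mem_sup.1 ((U.dual w e h1).span p hα)
      have hy' : y ∈ RS (ioo w e) p := (span_le.2 (by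
        rintro _ ⟨t, ht, rfl⟩
        exact ht ▸ (U.dual w e h1).memf t)) hy
      have hz' : z ∈ RS (ioo w e) p := (add_mem_cancel_left hy').1 hα
      rw [add_mul]
      refine add_mem ?_ ?_
      · have : span ℝ (U.fB w e '' {i | U.dB w e i = p}) ≤
            (kerMul (U.vol σ τ) (γ0 * X w * X e)).comap (LinearMap.mulRight ℝ β) :=
          span_le.2 (by rintro _ ⟨t, -, rfl⟩; exact h t q β hβ)
        exact this hy
      · obtain ⟨γ, hγ, hγ'⟩ := (U.out w e τ h1 h2).E4 p z hz' hz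
        have a1 := U.lift_ann h0 h1 h2 (sub_mem (RS_mono (ioo_sub_left h2.le) p hz')
          (hle p p hγ)) hγ'
        have a2 : γ * β ∈ Fil (ioo w e) (ioo e τ) j (p + q) :=
          Fil_le (W := (Fil (ioo w e) (ioo e τ) j (p + q)).comap (LinearMap.mulRight ℝ β))
            (fun p' q' α' hα' β' hβ' hp' hi' => by
              rw [Submodule.mem_comap, LinearMap.mulRight_apply, mul_assoc]
              exact mul_mem_Fil hα' (mul_mem_RS hβ' hβ) (by omega) (by omega)) hγ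
        have a3 := mem_kerMul.1 (ih _ a2)
        have a4 := a1 (γ0 * β)
        rw [mem_kerMul, ← add_zero (0 : ℝ)]
        nth_rewrite 1 [← a3]
        rw [← a4, ← map_add]
        congr 1; ring
  obtain ⟨γ, hγ, hγ'⟩ := (U.out w e τ h1 h2).E5 q β hβ
  have a1 := U.lift_ann h0 h1 h2 (sub_mem hβ (hle _ q hγ)) hγ' γ0
  have a3 := mem_kerMul.1 (key _ _ hγ)
  rw [← add_zero (0 : ℝ)]
  nth_rewrite 1 [← a3]
  rw [← a1, ← map_add]
  congr 1; ring

end Env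

end Pool.Agent.P.MP_cedf91_co
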