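import Pool.Agent.P.MP_cedf91_co.IH0

/-! Intersection cohomology: the spaces `M`, fibre data and dual families. -/

namespace Pool.Agent.P.MP_cedf91_co

open Submodule Filter Topology MvPolynomial

variable {L E : Type} [PartialOrder L] [Fintype L] [DecidableEq L] [AddCommGroup E] [Module ℝ E]

namespace Env

variable {rk : L → ℕ} {W : L → Submodule ℝ E} {b : L → E} (U : Env rk W b) (σ : L)

/-- Generators supported at `w`. -/
def gens1 (St : Str L) (w τ : L) : Set (PR L) :=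
  {x | ∃ s u q, ∃ β ∈ RS (ioo w τ) q, 2 * St.a s + u < rk w - rk σ - 1 ∧
    x = X w * (U.Lc σ w ^ u * St.p s) * β}

/-- Orthogonal complement of the generators supported in `T`. -/
noncomputable def MM (D : L → Str L) (τ : L) (T : Finset L) (i : ℕ) : Submodule ℝ (PR L) :=
  perp (U.vol σ τ) (RS (ioo σ τ) i) {x | ∃ w ∈ T, x ∈ U.gens1 σ (D w) w τ}

/-- The span of the generators of degree `k`. -/
noncomputable def NN (D : L → Str L) (τ : L) (k : ℕ) : Submodule ℝ (PR L) :=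
  span ℝ {x | ∃ w ∈ ioo σ τ, ∃ s u q, ∃ β ∈ RS (ioo w τ) q,
    2 * (D w).a s + u < rk w - rk σ - 1 ∧ 1 + ((D w).a s + u) + q = k ∧
    x = X w * (U.Lc σ w ^ u * (D w).p s) * β}

/-- Index of the basis of the complement. -/
abbrev II (rk : L → ℕ) (W : L → Submodule ℝ E) (b : L → E) (σ : L) (D : L → Str L) (τ : L) :=
  Σ w : ioo σ τ, Σ s : Fin (D w).m, Fin (rk w - rk σ - 1 - 2 * (D w).a s) × (bary rk W b w τ).K

/-- The basis of the complement. -/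
noncomputable def nu (D : L → Str L) (τ : L) (x : II rk W b σ D τ) : PR L :=
  X x.1.1 * (U.Lc σ x.1 ^ (x.2.2.1 : ℕ) * (D x.1).p x.2.1) * U.fB x.1 τ x.2.2.2

/-- Degrees. -/
def dnu (D : L → Str L) (τ : L) (x : II rk W b σ D τ) : ℕ :=
  1 + ((D x.1).a x.2.1 + x.2.2.1) + U.dB x.1 τ x.2.2.2

/-- The strings form a Lefschetz family. -/
def Good (D : L → Str L) (τ : L) : Prop :=
  Fam (U.vol σ τ) (U.MM σ D τ (ioo σ τ)) (U.Lc σ τ) (rk τ - rk σ - 1) (D τ).a (D τ).p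

/-- There is a dual family. -/
def GoodN (D : L → Str L) (τ : L) : Prop :=
  ∃ ν' : II rk W b σ D τ → PR L, (∀ i, ν' i ∈ U.NN σ D τ (rk τ - rk σ - 1 - U.dnu σ D τ i)) ∧
    ∀ i j, U.vol σ τ (U.nu σ D τ i * ν' j) = if i = j then 1 else 0

variable {U σ} {D : L → Str L}

theorem Good.pmem {w : L} (h : U.Good σ D w) (s : Fin (D w).m) :
    (D w).p s ∈ RS (ioo σ w) ((D w).a s) := (h.mem s).1

theorem Good.str_mem {w : L} (h : U.Good σ D w) (s : Fin (D w).m) (u : ℕ) :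
    U.Lc σ w ^ u * (D w).p s ∈ RS (ioo σ w) ((D w).a s + u) :=
  add_comm u _ ▸ mul_mem_RS (pow_mem_RS (U.Lc_mem σ w) u) (h.pmem s)

theorem gen_mem {τ w : L} (hw : w ∈ ioo σ τ) (h : U.Good σ D w) (s : Fin (D w).m) (u : ℕ) {q : ℕ}
    {β : PR L} (hβ : β ∈ RS (ioo w τ) q) :
    X w * (U.Lc σ w ^ u * (D w).p s) * β ∈ RS (ioo σ τ) (1 + ((D w).a s + u) + q) :=
  mul_mem_RS (mul_mem_RS (X_mem_RS hw) (RS_mono (ioo_sub_left (mem_ioo.1 hw).2.le) _
    (h.str_mem s u))) (RS_mono (ioo_sub_right (mem_ioo.1 hw).1.le) _ hβ)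

theorem NN_le_RS {τ : L} (h : ∀ w ∈ ioo σ τ, U.Good σ D w) (k : ℕ) :
    U.NN σ D τ k ≤ RS (ioo σ τ) k := by
  refine span_le.2 ?_
  rintro _ ⟨w, hw, s, u, q, β, hβ, -, rfl, rfl⟩
  exact gen_mem hw (h w hw) s u hβ

theorem nu_mem_NN (τ : L) (i : II rk W b σ D τ) : U.nu σ D τ i ∈ U.NN σ D τ (U.dnu σ D τ i) :=
  subset_span ⟨i.1, i.1.2, i.2.1, i.2.2.1, _, _, (U.dual _ _ (mem_ioo.1 i.1.2).2).memf i.2.2.2,
    by have := i.2.2.1.2; omega, rfl, rfl⟩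

theorem dnu_le (τ : L) (i : II rk W b σ D τ) : U.dnu σ D τ i ≤ rk τ - rk σ - 1 := by
  have h1 := i.2.2.1.2
  have h2 := (U.dual _ _ (mem_ioo.1 i.1.2).2).deg i.2.2.2
  have h3 := U.lt _ _ (mem_ioo.1 i.1.2).1
  have h4 := U.lt _ _ (mem_ioo.1 i.1.2).2
  simp only [dnu]
  omega

theorem NN_le_span (τ : L) (k : ℕ) : U.NN σ D τ k ≤
    span ℝ (U.nu σ D τ '' {i | U.dnu σ D τ i = k}) ⊔ ann (U.vol σ τ) := by
  refine span_le.2 ?_
  rintro _ ⟨w, hw, s, u, q, β, hβ, hu, hk, rfl⟩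
  obtain ⟨h1, h2⟩ := mem_ioo.1 hw
  obtain ⟨y, hy, z, hz, rfl⟩ := mem_sup.1 ((U.dual w τ h2).span q hβ)
  have hy' : y ∈ RS (ioo w τ) q := (span_le.2 (by
    rintro _ ⟨t, ht, rfl⟩
    exact ht ▸ (U.dual w τ h2).memf t)) hy
  have hz' : z ∈ RS (ioo w τ) q := (add_mem_cancel_left hy').1 hβ
  rw [mul_add]
  refine add_mem (mem_sup_left ?_) (mem_sup_right ?_)
  · have : span ℝ (U.fB w τ '' {i | U.dB w τ i = q}) ≤
        (span ℝ (U.nu σ D τ '' {i | U.dnu σ D τ i = k})).comap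
          (LinearMap.mulLeft ℝ (X w * (U.Lc σ w ^ u * (D w).p s))) := span_le.2 (by
      rintro _ ⟨t, ht, rfl⟩
      exact subset_span ⟨⟨⟨w, hw⟩, s, ⟨u, by dsimp only; omega⟩, t⟩, by
        simp only [Set.mem_ofPred_eq, dnu] at ht ⊢; omega, rfl⟩)
    exact this hy
  · have := ann_mul_right ((U.out σ w τ h1 h2).E3 q z hz' hz) (U.Lc σ w ^ u * (D w).p s)
    convert this using 1
    ring

theorem MM_orth {τ : L} {i k : ℕ} {x y : PR L} (hx : x ∈ U.MM σ D τ (ioo σ τ) i)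
    (hy : y ∈ U.NN σ D τ k) : U.vol σ τ (x * y) = 0 := by
  have : U.NN σ D τ k ≤ kerMul (U.vol σ τ) x := span_le.2 (by
    rintro _ ⟨w, hw, s, u, q, β, hβ, hu, -, rfl⟩
    exact hx.2 _ ⟨w, hw, s, u, q, β, hβ, hu, rfl⟩)
  exact this hy

theorem stab_Lc {τ : L} {T : Finset L} (hT : T ⊆ ioo σ τ) : Stab (U.MM σ D τ T) (U.Lc σ τ) := by
  intro i x hx
  refine ⟨add_comm 1 i ▸ mul_mem_RS (U.Lc_mem σ τ) hx.1, ?_⟩
  rintro _ ⟨w, hw, s, u, q, β, hβ, hu, rfl⟩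
  obtain ⟨h1, h2⟩ := mem_ioo.1 (hT hw)
  have a1 := hx.2 _ ⟨w, hw, s, u, _, _, mul_mem_RS (U.Lc_mem w τ) hβ, hu, rfl⟩
  have a2 := U.K3a h1 h2 (x * (U.Lc σ w ^ u * (D w).p s) * β)
  rw [← add_zero (0 : ℝ)]
  nth_rewrite 1 [← a1]
  rw [← a2, ← map_add]
  congr 1; ring

theorem str_mem_MM {w : L} (h : U.Good σ D w) (s : Fin (D w).m) (u : ℕ) :
    U.Lc σ w ^ u * (D w).p s ∈ U.MM σ D w (ioo σ w) ((D w).a s + u) := by
  induction u with
  | zero => simpa using h.mem s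
  | succ u ih => rw [pow_succ', mul_assoc]; exact stab_Lc subset_rfl _ _ ih

theorem RS_le_MM {τ : L} (hτ : σ < τ) (hpre : ∀ w ∈ ioo σ τ, U.Good σ D w)
    {ν' : II rk W b σ D τ → PR L}
    (h1 : ∀ i, ν' i ∈ U.NN σ D τ (rk τ - rk σ - 1 - U.dnu σ D τ i))
    (h2 : ∀ i j, U.vol σ τ (U.nu σ D τ i * ν' j) = if i = j then 1 else 0) (k : ℕ) :
    RS (ioo σ τ) k ≤ U.MM σ D τ (ioo σ τ) k ⊔
      span ℝ (ν' '' {i | rk τ - rk σ - 1 - U.dnu σ D τ i = k}) := by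
  intro α hα
  have hc : ∀ i, U.vol σ τ (α * U.nu σ D τ i) ≠ 0 → rk τ - rk σ - 1 - U.dnu σ D τ i = k := by
    intro i hi
    by_contra hne
    have := dnu_le (U := U) τ i
    exact hi ((U.isVol σ τ hτ).deg (k + U.dnu σ D τ i) (by change _ ≠ rk τ - rk σ - 1; omega) _
      (RS_le_HS _ (mul_mem_RS hα (NN_le_RS hpre _ (nu_mem_NN τ i)))))
  set y := ∑ i, U.vol σ τ (α * U.nu σ D τ i) • ν' i with hy
  have hy1 : y ∈ span ℝ (ν' '' {i | rk τ - rk σ - 1 - U.dnu σ D τ i = k}) := by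
    refine Submodule.sum_mem _ fun i _ => ?_
    by_cases hi : U.vol σ τ (α * U.nu σ D τ i) = 0
    · simp [hi]
    · exact Submodule.smul_mem _ _ (subset_span ⟨i, hc i hi, rfl⟩)
  have hy2 : y ∈ RS (ioo σ τ) k := (span_le.2 (by
    rintro _ ⟨i, hi, rfl⟩
    exact hi ▸ NN_le_RS hpre _ (h1 i))) hy1
  refine mem_sup.2 ⟨α - y, ⟨sub_mem hα hy2, ?_⟩, y, hy1, sub_add_cancel _ _⟩
  rintro _ ⟨w, hw, s, u, q, β, hβ, hu, rfl⟩
  have a1 : span ℝ (U.nu σ D τ '' {i | U.dnu σ D τ i = 1 + ((D w).a s + u) + q}) ⊔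
      ann (U.vol σ τ) ≤ kerMul (U.vol σ τ) (α - y) := by
    refine sup_le (span_le.2 ?_) (ann_le_kerMul _)
    rintro _ ⟨j, -, rfl⟩
    simp only [SetLike.mem_coe, mem_kerMul, hy, sub_mul, Finset.sum_mul, map_sub, map_sum,
      smul_mul_assoc, map_smul, mul_comm (ν' _), h2, smul_eq_mul, mul_ite, mul_one, mul_zero,
      Finset.sum_ite_eq, Finset.mem_univ, if_true, sub_self]
  exact a1 (NN_le_span τ _ (subset_span ⟨w, hw, s, u, q, β, hβ, hu, rfl, rfl⟩))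

theorem fibData {e : L} (he : σ < e) (hpre : ∀ w ∈ ioo σ e, U.Good σ D w) (h : U.Good σ D e)
    {ν' : II rk W b σ D e → PR L}
    (h1 : ∀ i, ν' i ∈ U.NN σ D e (rk e - rk σ - 1 - U.dnu σ D e i))
    (h2 : ∀ i j, U.vol σ e (U.nu σ D e i * ν' j) = if i = j then 1 else 0) :
    FibData (U.vol σ e) (ioo σ e) (rk e - rk σ - 1) (U.Lc σ e) (D e).a (D e).p (U.dnu σ D e)
      (U.nu σ D e) ν' where
  Lmem := U.Lc_mem σ e
  pmem := h.pmem
  deg := h.deg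
  val := h.val
  orth := h.orth
  top := h.top
  dle := dnu_le e
  νmem := fun i => NN_le_RS hpre _ (nu_mem_NN e i)
  νmem' := fun i => NN_le_RS hpre _ (h1 i)
  dual := h2
  pν := fun s u i => MM_orth (str_mem_MM h s u) (nu_mem_NN e i)
  pν' := fun s u i => MM_orth (str_mem_MM h s u) (h1 i)
  span := fun k => (RS_le_MM he hpre h1 h2 k).trans (by
    rw [sup_right_comm]
    exact sup_le_sup_right (h.span k) _)

/-- Orthogonality to `nu` implies orthogonality to all generators below `e`. -/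
theorem orth_gen {w e τ : L} (hw : w ∈ ioo σ e) (h2 : e < τ) {γ : PR L}
    (h : ∀ j q, ∀ β ∈ RS (ioo e τ) q, U.vol σ τ (X e * γ * U.nu σ D e j * β) = 0)
    (s : Fin (D w).m) (u : ℕ) (hu : 2 * (D w).a s + u < rk w - rk σ - 1) {q : ℕ} {β : PR L}
    (hβ : β ∈ RS (ioo w τ) q) :
    U.vol σ τ (X e * γ * (X w * (U.Lc σ w ^ u * (D w).p s) * β)) = 0 := by
  obtain ⟨h0, h1⟩ := mem_ioo.1 hw
  have := U.K6 h0 h1 h2 (γ * (U.Lc σ w ^ u * (D w).p s)) (fun t q β hβ => by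
    rw [← h ⟨⟨w, hw⟩, s, ⟨u, by dsimp only; omega⟩, t⟩ q β hβ]
    congr 1
    simp only [nu]
    ring) hβ
  rw [← this]
  congr 1; ring

theorem X_mul_NN {e τ : L} (h2 : e < τ) {k q : ℕ} {y β : PR L} (hy : y ∈ U.NN σ D e k)
    (hβ : β ∈ RS (ioo e τ) q) {Z : Submodule ℝ (PR L)}
    (hZ : ∀ w ∈ ioo σ e, ∀ s u q', ∀ β ∈ RS (ioo w τ) q', 2 * (D w).a s + u < rk w - rk σ - 1 →
      1 + ((D w).a s + u) + q' = 1 + k + q → X w * (U.Lc σ w ^ u * (D w).p s) * β ∈ Z) :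
    X e * y * β ∈ Z := by
  have : U.NN σ D e k ≤ Z.comap (LinearMap.mulLeft ℝ (X e * β)) := span_le.2 (by
    rintro _ ⟨w, hw, s, u, q', β', hβ', hu, hk, rfl⟩
    obtain ⟨h3, h4⟩ := mem_ioo.1 hw
    have := hZ w hw s u _ _ (mul_mem_RS (mul_mem_RS (RS_mono (ioo_sub_left h2.le) _ hβ')
      (X_mem_RS (mem_ioo.2 ⟨h4, h2⟩))) (RS_mono (ioo_sub_right h4.le) _ hβ)) hu (by omega)
    simp only [SetLike.mem_coe, Submodule.mem_comap, LinearMap.mulLeft_apply]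
    convert this using 1
    ring)
  have h := this hy
  rw [Submodule.mem_comap, LinearMap.mulLeft_apply] at h
  convert h using 1
  ring

theorem exists_lift (HG : GSStmt) {τ e : L} (he : e ∈ ioo σ τ)
    (hpre : ∀ w ∈ ioo σ τ, U.Good σ D w ∧ U.GoodN σ D w) (s : Fin (D e).m) (u : ℕ) :
    ∃ h' : PR L,
      (h' - U.Lc σ e ^ u * (D e).p s ∈ Fil (ioo σ e) (ioo e τ) ((D e).a s + u) ((D e).a s + u)) ∧
      (∀ q, ∀ β ∈ RS (ioo e τ) q, X e * (h' - U.Lc σ e ^ u * (D e).p s) * β ∈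
        U.NN σ D τ (1 + ((D e).a s + u) + q)) ∧
      ∀ i q, ∀ β ∈ RS (ioo e τ) q, U.vol σ τ (X e * h' * U.nu σ D e i * β) = 0 := by
  obtain ⟨h1, h2⟩ := mem_ioo.1 he
  obtain ⟨ν', n1, n2⟩ := (hpre e he).2
  have hp : ∀ w ∈ ioo σ e, U.Good σ D w := fun w hw => (hpre w (ioo_sub_left h2.le hw)).1
  have fd := fibData h1 hp (hpre e he).1 n1 n2
  obtain ⟨h', a1, a2⟩ := HG (F := bary rk W b σ τ) (F1 := bary rk W b σ e)
    (F2 := bary rk W b e τ) (U.out σ e τ h1 h2) (U.isVol σ e h1) (U.isVol e τ h2)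
    (U.gsub e τ h2) (U.isVol σ τ (h1.trans h2)) (U.bun σ e τ h1 h2).dim fd.dle fd.νmem fd.νmem'
    fd.dual _ _ ((hpre e he).1.str_mem s u) (fd.pν s u)
  refine ⟨h', (span_le.2 ?_) a1, fun q β hβ => ?_, a2⟩
  · rintro _ ⟨i, q, γ, hγ, hq, hd, rfl⟩
    exact mul_mem_Fil (fd.νmem' i) hγ (by change rk e - rk σ - 1 - _ + q = _ at hd; omega) hd
  · have : span ℝ {x | ∃ i q, ∃ γ ∈ RS (bary rk W b e τ).S q, 1 ≤ q ∧
        (bary rk W b σ e).n - U.dnu σ D e i + q = (D e).a s + u ∧ x = ν' i * γ} ≤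
        (U.NN σ D τ (1 + ((D e).a s + u) + q)).comap (LinearMap.mulLeft ℝ (X e * β)) :=
      span_le.2 (by
        rintro _ ⟨i, q', γ, hγ, -, hd, rfl⟩
        have := X_mul_NN (q := q' + q) h2 (n1 i) (mul_mem_RS hγ hβ)
          (Z := U.NN σ D τ (1 + ((D e).a s + u) + q)) fun w hw s' u' q'' β' hβ' hu hk =>
            subset_span ⟨w, ioo_sub_left h2.le hw, s', u', q'', β', hβ', hu, by
              change rk e - rk σ - 1 - _ + q' = _ at hd; omega, rfl⟩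
        simp only [SetLike.mem_coe, Submodule.mem_comap, LinearMap.mulLeft_apply]
        convert this using 1
        ring)
    have h := this a1
    rw [Submodule.mem_comap, LinearMap.mulLeft_apply] at h
    convert h using 1
    ring

/-- The pairing for equal support. -/
theorem pair_same {τ e : L} (he : e ∈ ioo σ τ) (hg : U.Good σ D e) (s s' : Fin (D e).m)
    (u u' : ℕ) (t t' : (bary rk W b e τ).K) {h' : PR L}
    (g1 : h' - U.Lc σ e ^ u' * (D e).p s' ∈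
      Fil (ioo σ e) (ioo e τ) ((D e).a s' + u') ((D e).a s' + u'))
    (hle : (D e).a s + u + ((D e).a s' + u') + 1 ≤ rk e - rk σ - 1) :
    U.vol σ τ (X e * (U.Lc σ e ^ u * (D e).p s) * U.fB e τ t * (X e * h' * U.gB e τ t')) =
      if (D e).a s + u + ((D e).a s' + u') + 1 = rk e - rk σ - 1 then
        -(U.cc σ e τ * U.vol σ e ((D e).p s * (D e).p s' * U.Lc σ e ^ (u + u' + 1)) *
          if t = t' then 1 else 0) else 0 := by
  obtain ⟨h1, h2⟩ := mem_ioo.1 he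
  obtain ⟨β0, b1, b2⟩ := U.K3b h1 h2
  have out := U.out σ e τ h1 h2
  have m1 := hg.str_mem s u
  have m2 := hg.str_mem s' u'
  have m4 := mul_mem_RS ((U.dual e τ h2).memf t) ((U.dual e τ h2).memg t')
  have m5 := U.Lc_mem σ e
  have hd := (U.dual e τ h2).dual t t'
  have hp : U.Lc σ e * (U.Lc σ e ^ u * (D e).p s) * (U.Lc σ e ^ u' * (D e).p s') =
      (D e).p s * (D e).p s' * U.Lc σ e ^ (u + u' + 1) := by ring
  rw [← hp]
  generalize U.Lc σ e ^ u * (D e).p s = α at *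
  generalize U.Lc σ e ^ u' * (D e).p s' = h at *
  generalize U.fB e τ t = f at *
  generalize U.gB e τ t' = g at *
  have z1 := b2 (α * h' * (f * g))
  have z2 := out.filE1 (γ := α * h * (β0 * (f * g))) hle
    (mul_mem_Fil (mul_mem_RS m1 m2) (mul_mem_RS b1 m4) (by omega) rfl)
  have z3 := out.filE1 (γ := α * (h' - h) * (β0 * (f * g))) (le_trans (by omega) hle)
    (Fil_mul2 (Fil_mul1 g1 m1) (mul_mem_RS b1 m4))
  have z4 := out.filE1 (γ := U.Lc σ e * α * (h' - h) * (f * g)) (le_trans (by omega) hle)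
    (Fil_mul2 (Fil_mul1 g1 (mul_mem_RS m5 m1)) m4)
  have e1 : U.vol σ τ (X e * α * f * (X e * h' * g)) =
      -U.vol σ τ (X e * (U.Lc σ e * α * h) * (f * g)) := by
    have : X e * α * f * (X e * h' * g) =
        X e * (X e + U.Lc σ e - β0) * (α * h' * (f * g)) + X e * (α * h * (β0 * (f * g))) +
          X e * (α * (h' - h) * (β0 * (f * g))) - X e * (U.Lc σ e * α * (h' - h) * (f * g)) -
          X e * (U.Lc σ e * α * h) * (f * g) := by ring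
    rw [this, map_sub, map_sub, map_add, map_add, z1, z2, z3, z4]
    ring
  have m6 := mul_mem_RS (mul_mem_RS m5 m1) m2
  rw [e1]
  by_cases c1 : (D e).a s + u + ((D e).a s' + u') + 1 = rk e - rk σ - 1
  · have e2 : 1 + ((D e).a s + u) + ((D e).a s' + u') = rk e - rk σ - 1 := by omega
    rw [e2] at m6
    rw [if_pos c1, out.E2 _ _ m6 _ m4, hd]
  · rw [if_neg c1, out.E1 _ _ _ m6 _ m4 (by change _ < rk e - rk σ - 1; omega), neg_zero]

theorem goodN_step (H : LinLib) (HG : GSStmt) {τ : L} (hτ : σ < τ)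
    (hpre : ∀ w ∈ ioo σ τ, U.Good σ D w ∧ U.GoodN σ D w) : U.GoodN σ D τ := by
  choose hh g1 g2 g3 using fun e (he : e ∈ ioo σ τ) => exists_lift HG he hpre
  obtain ⟨μ, hμ0⟩ : ∃ μ : II rk W b σ D τ → PR L, ∀ e he s u hu t, μ ⟨⟨e, he⟩, s, ⟨u, hu⟩, t⟩ =
      X e * hh e he s (rk e - rk σ - 1 - 2 * (D e).a s - 1 - u) * U.gB e τ t :=
    ⟨fun j => X j.1.1 * hh j.1.1 j.1.2 j.2.1
      (rk j.1 - rk σ - 1 - 2 * (D j.1).a j.2.1 - 1 - j.2.2.1) * U.gB j.1 τ j.2.2.2,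
      fun _ _ _ _ _ _ => rfl⟩
  have hν0 : ∀ e he s u hu t, U.nu σ D τ ⟨⟨e, he⟩, s, ⟨u, hu⟩, t⟩ =
      X e * (U.Lc σ e ^ u * (D e).p s) * U.fB e τ t := fun _ _ _ _ _ _ => rfl
  have hμ : ∀ j, μ j ∈ U.NN σ D τ (rk τ - rk σ - 1 - U.dnu σ D τ j) := by
    rintro ⟨⟨e, he⟩, s, ⟨u, hu⟩, t⟩
    obtain ⟨h1, h2⟩ := mem_ioo.1 he
    have a1 := U.lt _ _ h1
    have a2 := U.lt _ _ h2
    have a3 := (U.dual e τ h2).deg t
    have a4 := (U.dual e τ h2).memg t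
    dsimp only at hu
    have a5 := g2 e he s (rk e - rk σ - 1 - 2 * (D e).a s - 1 - u) _ _ a4
    have e1 : rk τ - rk σ - 1 - U.dnu σ D τ ⟨⟨e, he⟩, s, ⟨u, hu⟩, t⟩ =
        1 + ((D e).a s + (rk e - rk σ - 1 - 2 * (D e).a s - 1 - u)) +
          (rk τ - rk e - 1 - U.dB e τ t) := by
      simp only [dnu]; omega
    rw [e1, hμ0]
    have a6 : X e * (U.Lc σ e ^ (rk e - rk σ - 1 - 2 * (D e).a s - 1 - u) * (D e).p s) *
        U.gB e τ t ∈ U.NN σ D τ (1 + ((D e).a s + (rk e - rk σ - 1 - 2 * (D e).a s - 1 - u)) +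
          (rk τ - rk e - 1 - U.dB e τ t)) :=
      subset_span ⟨e, he, s, _, _, _, a4, by omega, rfl, rfl⟩
    convert add_mem a5 a6 using 1
    ring
  have t1 : ∀ i j : II rk W b σ D τ, i ≠ j →
      rk i.1 * (rk τ + 1) + ((D i.1).a i.2.1 + i.2.2.1) ≤
        rk j.1 * (rk τ + 1) + ((D j.1).a j.2.1 + j.2.2.1) →
      U.vol σ τ (U.nu σ D τ i * μ j) = 0 := by
    rintro ⟨⟨w, hw⟩, s, ⟨u, hu⟩, t⟩ ⟨⟨e, he⟩, s', ⟨u', hu'⟩, t'⟩ hne hle
    obtain ⟨h1, h2⟩ := mem_ioo.1 he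
    dsimp only at hu hu' hle s s' t t'
    have a1 := U.lt _ _ h2
    have a2 := U.lt _ _ (mem_ioo.1 hw).2
    have hrk : rk w ≤ rk e := by
      by_contra hlt
      have := Nat.mul_le_mul_right (rk τ + 1) (Nat.succ_le_of_lt (not_le.1 hlt))
      rw [Nat.succ_mul] at this
      omega
    rw [hν0, hμ0]
    by_cases c1 : w = e
    · subst c1
      rw [pair_same hw (hpre w hw).1 s s' u _ t t' (g1 w he s' _) (by omega)]
      split_ifs with c2 c3
      · have : s ≠ s' := by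
          rintro rfl
          apply hne
          have : u = u' := by omega
          subst this; subst c3; rfl
        rw [(hpre w hw).1.orth s s' _ this]; simp
      · simp
      · rfl
    · generalize rk e - rk σ - 1 - 2 * (D e).a s' - 1 - u' = v
      by_cases c2 : w ∈ ioo σ e
      · have := orth_gen (U := U) c2 h2 (g3 e he s' v) s u (by omega)
          (mul_mem_RS ((U.dual w τ (mem_ioo.1 hw).2).memf t) (RS_mono
            (ioo_sub_right (mem_ioo.1 c2).2.le) _ ((U.dual e τ h2).memg t')))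
        refine Eq.trans (congrArg _ ?_) this
        ring
      · have := (U.out σ e τ h1 h2).E0 w c1 c2 (fun h => by
          have := U.lt _ _ (mem_ioo.1 h).1; omega)
          (U.Lc σ w ^ u * (D w).p s * U.fB w τ t * (hh e he s' v * U.gB e τ t'))
        refine Eq.trans (congrArg _ ?_) this
        ring
  have t2 : ∀ i : II rk W b σ D τ, U.vol σ τ (U.nu σ D τ i * μ i) ≠ 0 := by
    rintro ⟨⟨e, he⟩, s, ⟨u, hu⟩, t⟩
    obtain ⟨h1, h2⟩ := mem_ioo.1 he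
    dsimp only at hu s t
    rw [hν0, hμ0, pair_same he (hpre e he).1 s s u _ t t (g1 e he s _) (by omega),
      if_pos (by omega), if_pos rfl,
      show u + (rk e - rk σ - 1 - 2 * (D e).a s - 1 - u) + 1 = rk e - rk σ - 1 - 2 * (D e).a s
        by omega, (hpre e he).1.val s]
    have := (U.out σ e τ h1 h2).hc
    simp [this.ne']
  have t3 : ∀ i j : II rk W b σ D τ, U.dnu σ D τ i ≠ U.dnu σ D τ j →
      U.vol σ τ (U.nu σ D τ i * μ j) = 0 := by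
    intro i j hne
    have a1 := dnu_le (U := U) τ i
    have a2 := dnu_le (U := U) τ j
    have hp : ∀ w ∈ ioo σ τ, U.Good σ D w := fun w hw => (hpre w hw).1
    exact (U.isVol σ τ hτ).deg _ (by change _ ≠ rk τ - rk σ - 1; omega) _
      (RS_le_HS _ (mul_mem_RS (NN_le_RS hp _ (nu_mem_NN τ i)) (NN_le_RS hp _ (hμ j))))
  obtain ⟨ν', n1, n2⟩ := H.triDual (U.vol σ τ)
    (fun i : II rk W b σ D τ => rk i.1 * (rk τ + 1) + ((D i.1).a i.2.1 + i.2.2.1))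
    (U.dnu σ D τ) (U.nu σ D τ) μ t1 t2 t3
  refine ⟨ν', fun j => (span_le.2 ?_) (n1 j), n2⟩
  rintro _ ⟨k, hk, rfl⟩
  have := hμ k
  rwa [hk] at this

end Env

end Pool.Agent.P.MP_cedf91_co
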