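import Pool.Agent.P.MP_cedf91_co.IH1

/-! Intersection cohomology: blowing down the barycentric subdivision step by step. -/

namespace Pool.Agent.P.MP_cedf91_co

open Submodule Filter Topology MvPolynomial

variable {L E : Type} [PartialOrder L] [Fintype L] [DecidableEq L] [AddCommGroup E] [Module ℝ E]

omit [PartialOrder L] [Fintype L] [DecidableEq L] in
theorem Stab.sub_lin {V : ℕ → Submodule ℝ (PR L)} {ℓ : PR L} (h : Stab V ℓ) {A : Finset L}
    (hA : ∀ z ∈ A, Stab V (X z)) (ε : L → ℝ) : Stab V (ℓ - lin A ε) := by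
  intro i x hx
  rw [sub_mul, lin, Finset.sum_mul]
  refine sub_mem (h i x hx) (Submodule.sum_mem _ fun z hz => ?_)
  rw [smul_mul_assoc]
  exact Submodule.smul_mem _ _ (hA z hz i x hx)

namespace Env

variable {rk : L → ℕ} {W : L → Submodule ℝ E} {b : L → E} (U : Env rk W b) (σ : L)

/-- Admissible perturbations. -/
def Adm (A : Finset L) (ε : L → ℝ) : Prop :=
  (∀ z ∈ A, 0 < ε z ∧ U.C * ε z ≤ 1) ∧ ∀ z ∈ A, ∀ w ∈ A, rk z < rk w → U.C * ε z ≤ ε w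

/-- The invariant of the peeling. -/
def Inv (D : L → Str L) (τ : L) (T : Finset L) : Prop :=
  GSub (U.vol σ τ) (HS L) (U.MM σ D τ T) ∧ ∀ ε, U.Adm (ioo σ τ \ T) ε →
    Num (U.vol σ τ) (U.MM σ D τ T) (U.Lc σ τ - lin (ioo σ τ \ T) ε) (rk τ - rk σ - 1)

variable {U σ} {D : L → Str L}

theorem Lc_sub (x y : L) (ε : L → ℝ) :
    U.Lc x y - lin (ioo x y) ε = lin (ioo x y) fun z => U.mf x y (b z) - ε z := by
  simp only [Lc, lin, sub_smul, Finset.sum_sub_distrib]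

theorem inv_empty {τ : L} (hτ : σ < τ) : U.Inv σ D τ ∅ := by
  have e : U.MM σ D τ ∅ = RS (ioo σ τ) := by
    funext i
    ext x
    simp [MM, mem_perp]
  rw [Inv, e, Finset.sdiff_empty]
  refine ⟨U.gsub σ τ hτ, fun ε hε => ?_⟩
  rw [Lc_sub]
  exact U.num σ τ hτ ε hε.1 hε.2

theorem stab_X {τ z : L} {T : Finset L} (hT : T ⊆ ioo σ τ) (hz : z ∈ ioo σ τ) (hzT : z ∉ T)
    (hrk : ∀ w ∈ T, rk w ≤ rk z) : Stab (U.MM σ D τ T) (X z) := by
  intro i x hx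
  refine ⟨add_comm 1 i ▸ mul_mem_RS (X_mem_RS hz) hx.1, ?_⟩
  rintro _ ⟨w, hw, s, u, q, β, hβ, hu, rfl⟩
  obtain ⟨h1, h2⟩ := mem_ioo.1 (hT hw)
  by_cases c : z ∈ ioo w τ
  · have a1 := hx.2 _ ⟨w, hw, s, u, _, _, mul_mem_RS (X_mem_RS c) hβ, hu, rfl⟩
    refine Eq.trans (congrArg _ ?_) a1
    ring
  · have a1 := (U.out σ w τ h1 h2).E0 z (fun h => hzT (h ▸ hw)) (fun h => by
      have := U.lt _ _ (mem_ioo.1 h).2
      have := hrk w hw
      omega) c (x * (U.Lc σ w ^ u * (D w).p s) * β)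
    refine Eq.trans (congrArg _ ?_) a1
    ring

theorem adm_update {A : Finset L} {e : L} {ε : L → ℝ} (hmin : ∀ z ∈ A, rk e ≤ rk z)
    (h : U.Adm (A.erase e) ε) : ∀ᶠ t in 𝓝[>] (0 : ℝ), U.Adm A (Function.update ε e t) := by
  have hC : 0 < U.C := by linarith [U.hC]
  have small : ∀ c : ℝ, 0 < c → ∀ᶠ t in 𝓝[>] (0 : ℝ), U.C * t ≤ c := fun c hc => by
    filter_upwards [Ioo_mem_nhdsGT (div_pos hc hC)] with t ht
    rw [mul_comm]
    exact ((lt_div_iff₀ hC).1 ht.2).le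
  have a1 : ∀ᶠ t in 𝓝[>] (0 : ℝ), ∀ w ∈ A.erase e, U.C * t ≤ ε w :=
    (eventually_all_finset _).2 fun w hw => small _ (h.1 w hw).1
  filter_upwards [a1, small 1 one_pos, self_mem_nhdsWithin] with t h1 h2 h3
  refine ⟨fun z hz => ?_, fun z hz w hw hlt => ?_⟩
  · by_cases c : z = e
    · subst c
      rw [Function.update_self]
      exact ⟨h3, h2⟩
    · rw [Function.update_of_ne c]
      exact h.1 z (Finset.mem_erase.2 ⟨c, hz⟩)
  · have c' : w ≠ e := fun c => by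
      have := hmin z hz
      subst c
      omega
    rw [Function.update_of_ne c']
    by_cases c : z = e
    · subst c
      rw [Function.update_self]
      exact h1 w (Finset.mem_erase.2 ⟨c', hw⟩)
    · rw [Function.update_of_ne c]
      exact h.2 z (Finset.mem_erase.2 ⟨c, hz⟩) w (Finset.mem_erase.2 ⟨c', hw⟩) hlt

omit [PartialOrder L] [Fintype L] in
theorem lin_update {A : Finset L} {e : L} (he : e ∈ A) (ε : L → ℝ) (t : ℝ) :
    lin A (Function.update ε e t) = lin (A.erase e) ε + t • X e := by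
  rw [lin, ← Finset.sum_erase_add _ _ he, Function.update_self, lin]
  congr 1
  exact Finset.sum_congr rfl fun z hz => by
    rw [Function.update_of_ne (Finset.mem_erase.1 hz).1]

theorem MM_insert {τ e : L} {T : Finset L} (i : ℕ) : U.MM σ D τ (insert e T) i =
    perp (U.vol σ τ) (U.MM σ D τ T i) {x | ∃ s u q, ∃ β ∈ RS (ioo e τ) q,
      2 * (D e).a s + u < rk e - rk σ - 1 ∧ x = X e * (U.Lc σ e ^ u * (D e).p s) * β} := by
  ext x
  simp only [MM, mem_perp, Set.mem_ofPred_eq, Finset.mem_insert]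
  constructor
  · rintro ⟨h1, h2⟩
    exact ⟨⟨h1, fun g ⟨w, hw, hg⟩ => h2 g ⟨w, Or.inr hw, hg⟩⟩,
      fun g hg => h2 g ⟨e, Or.inl rfl, hg⟩⟩
  · rintro ⟨⟨h1, h2⟩, h3⟩
    refine ⟨h1, ?_⟩
    rintro g ⟨w, rfl | hw, hg⟩
    · exact h3 g hg
    · exact h2 g ⟨w, hw, hg⟩

theorem inv_step (HF : FibStmt) {τ e : L} {T : Finset L}
    (hpre : ∀ w ∈ ioo σ τ, U.Good σ D w ∧ U.GoodN σ D w) (hT : T ⊆ ioo σ τ)
    (hinit : ∀ w ∈ T, ∀ z ∈ ioo σ τ \ T, rk w ≤ rk z) (he : e ∈ ioo σ τ \ T)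
    (hmin : ∀ z ∈ ioo σ τ \ T, rk e ≤ rk z) (h : U.Inv σ D τ T) : U.Inv σ D τ (insert e T) := by
  obtain ⟨he1, he2⟩ := Finset.mem_sdiff.1 he
  obtain ⟨h1, h2⟩ := mem_ioo.1 he1
  have hA : ioo σ τ \ insert e T = (ioo σ τ \ T).erase e := Finset.sdiff_insert _ _ _
  have lowT : ∀ w ∈ ioo σ e, w ∈ T := fun w hw => by
    by_contra c
    have := hmin w (Finset.mem_sdiff.2 ⟨ioo_sub_left h2.le hw, c⟩)
    have := U.lt _ _ (mem_ioo.1 hw).2
    omega
  have highT : ∀ w ∈ ioo e τ, w ∉ T := fun w hw c => by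
    have := hinit w c e he
    have := U.lt _ _ (mem_ioo.1 hw).1
    omega
  have hsub : ioo e τ ⊆ (ioo σ τ \ T).erase e := fun w hw =>
    Finset.mem_erase.2 ⟨(mem_ioo.1 hw).1.ne', Finset.mem_sdiff.2
      ⟨ioo_sub_right h1.le hw, highT w hw⟩⟩
  obtain ⟨ν', n1, n2⟩ := (hpre e he1).2
  have hp : ∀ w ∈ ioo σ e, U.Good σ D w := fun w hw => (hpre w (ioo_sub_left h2.le hw)).1
  have fd := fibData h1 hp (hpre e he1).1 n1 n2
  obtain ⟨β0, b1, b2⟩ := U.K3b h1 h2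
  have sX : ∀ z ∈ ioo σ τ \ T, Stab (U.MM σ D τ T) (X z) := fun z hz =>
    stab_X hT (Finset.mem_sdiff.1 hz).1 (Finset.mem_sdiff.1 hz).2 fun w hw => hinit w hw z hz
  have hNN : ∀ i, ∀ α ∈ U.MM σ D τ T i, ∀ k, ∀ y ∈ U.NN σ D e k, ∀ q, ∀ β ∈ RS (ioo e τ) q,
      U.vol σ τ (α * (X e * y * β)) = 0 := fun i α hα k y hy q β hβ =>
    X_mul_NN h2 hy hβ (Z := kerMul (U.vol σ τ) α) fun w hw s u q' β' hβ' hu _ =>
      hα.2 _ ⟨w, lowT w hw, s, u, q', β', hβ', hu, rfl⟩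
  have hV2 : ∀ i, ∀ γ ∈ Fil (ioo σ e) (ioo e τ) (i + 1) i, (∀ j q, ∀ β ∈ RS (ioo e τ) q,
      U.vol σ τ (X e * γ * U.nu σ D e j * β) = 0) → X e * γ ∈ U.MM σ D τ T (i + 1) := by
    intro i γ hγ hγ'
    refine ⟨add_comm 1 i ▸ mul_mem_RS (X_mem_RS he1)
      (Fil_le_RS (ioo_sub_left h2.le) (ioo_sub_right h1.le) _ _ hγ), ?_⟩
    rintro _ ⟨w, hw, s, u, q, β, hβ, hu, rfl⟩
    by_cases c : w ∈ ioo σ e
    · exact orth_gen c h2 hγ' s u hu hβ
    · have a1 := (U.out σ e τ h1 h2).E0 w (fun h => he2 (h ▸ hw)) c (fun h => highT w h hw)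
        (γ * (U.Lc σ w ^ u * (D w).p s) * β)
      refine Eq.trans (congrArg _ ?_) a1
      ring
  have key : ∀ ε, U.Adm ((ioo σ τ \ T).erase e) ε →
      GSub (U.vol σ τ) (HS L) (U.MM σ D τ (insert e T)) ∧
      Num (U.vol σ τ) (U.MM σ D τ (insert e T)) (U.Lc σ τ - lin ((ioo σ τ \ T).erase e) ε)
        (rk τ - rk σ - 1) := by
    intro ε hε
    have c1 : X e * (U.Lc σ τ - lin ((ioo σ τ \ T).erase e) ε -
        lin (ioo e τ) fun z => U.mf e τ (b z) - ε z) ∈ ann (U.vol σ τ) := by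
      have a1 := U.split_ann h1 h2 ε hsub
      have a2 : ((ioo σ τ \ T).erase e).filter (· = e) = ∅ :=
        Finset.filter_eq_empty_iff.2 fun z hz => (Finset.mem_erase.1 hz).1
      have a3 : (ioo σ τ \ T).erase e ∩ ioo σ e = ∅ :=
        Finset.eq_empty_of_forall_notMem fun z hz => (Finset.mem_sdiff.1 (Finset.mem_erase.1
          (Finset.mem_inter.1 hz).1).2).2 (lowT z (Finset.mem_inter.1 hz).2)
      have a4 : lin (∅ : Finset L) ε = 0 := Finset.sum_empty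
      rw [a2, a3, a4] at a1
      rw [← Lc_sub]
      convert sub_mem (U.K3a h1 h2) a1 using 1
      ring
    obtain ⟨r1, -, r2⟩ := HF (F := bary rk W b σ τ) (F1 := bary rk W b σ e)
      (F2 := bary rk W b e τ) (ℓ := U.Lc σ τ - lin ((ioo σ τ \ T).erase e) ε)
      (ℓ2 := lin (ioo e τ) fun z => U.mf e τ (b z) - ε z) (V := U.MM σ D τ T)
      (U.bun σ e τ h1 h2) (U.out σ e τ h1 h2) (U.isVol σ τ (h1.trans h2)) (U.isVol σ e h1)
      (U.isVol e τ h2) (U.gsub e τ h2) fd b1 b2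
      (RS_le_HS 1 (sub_mem (U.Lc_mem σ τ)
        (lin_mem_RS ((Finset.erase_subset _ _).trans Finset.sdiff_subset) ε)))
      (lin_mem_RS subset_rfl _) c1
      (U.num e τ h2 ε (fun z hz => hε.1 z (hsub hz)) fun z hz w hw => hε.2 z (hsub hz) w (hsub hw))
      h.1 (fun i x hx => hx.1)
      ((stab_Lc hT).sub_lin (fun z hz => sX z (Finset.mem_of_mem_erase hz)) ε) (sX e he)
      (fun i α hα j q β hβ => hNN i α hα _ _ (nu_mem_NN e j) q β hβ)
      (fun i α hα j q β hβ => hNN i α hα _ _ (n1 j) q β hβ) hV2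
      (U.MM σ D τ (insert e T)) MM_insert
    refine ⟨r1, r2.2 ?_⟩
    filter_upwards [adm_update hmin hε] with t ht
    have := h.2 _ ht
    rwa [lin_update he, ← sub_sub] at this
  rw [Inv, hA]
  obtain ⟨ε0, e1, e2⟩ := exists_eps rk U.hC
  exact ⟨(key ε0 ⟨fun z _ => e1 z, fun z _ w _ => e2 z w⟩).1, fun ε hε => (key ε hε).2⟩

theorem inv_full (HF : FibStmt) {τ : L} (hτ : σ < τ)
    (hpre : ∀ w ∈ ioo σ τ, U.Good σ D w ∧ U.GoodN σ D w) : U.Inv σ D τ (ioo σ τ) := by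
  have key : ∀ n, n ≤ (ioo σ τ).card → ∃ T ⊆ ioo σ τ, T.card = n ∧
      (∀ w ∈ T, ∀ z ∈ ioo σ τ \ T, rk w ≤ rk z) ∧ U.Inv σ D τ T := by
    intro n
    induction n with
    | zero => exact fun _ => ⟨∅, Finset.empty_subset _, rfl, by simp, inv_empty hτ⟩
    | succ n ih =>
      intro hn
      obtain ⟨T, hT, hc, hi, hinv⟩ := ih (by omega)
      obtain ⟨e, he, hmin⟩ := Finset.exists_min_image (ioo σ τ \ T) rk
        (Finset.sdiff_nonempty.2 fun h => by have := Finset.card_le_card h; omega)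
      obtain ⟨he1, he2⟩ := Finset.mem_sdiff.1 he
      refine ⟨insert e T, Finset.insert_subset he1 hT, by
        rw [Finset.card_insert_of_notMem he2, hc], fun w hw z hz => ?_,
        inv_step HF hpre hT hi he hmin hinv⟩
      have hz' : z ∈ ioo σ τ \ T := Finset.sdiff_subset_sdiff subset_rfl
        (Finset.subset_insert _ _) hz
      rcases Finset.mem_insert.1 hw with rfl | hw
      · exact hmin z hz'
      · exact hi w hw z hz'
  obtain ⟨T, hT, hc, -, h⟩ := key _ le_rfl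
  rwa [Finset.eq_of_subset_of_card_le hT hc.ge] at h

theorem exists_str (HL : LefLib) (HF : FibStmt) {τ : L} (hτ : σ < τ)
    (hpre : ∀ w ∈ ioo σ τ, U.Good σ D w ∧ U.GoodN σ D w) : ∃ St : Str L,
    Fam (U.vol σ τ) (U.MM σ D τ (ioo σ τ)) (U.Lc σ τ) (rk τ - rk σ - 1) St.a St.p := by
  obtain ⟨h1, h2⟩ := inv_full HF hτ hpre
  have h3 := h2 0 ⟨by simp, by simp⟩
  rw [Finset.sdiff_self, lin, Finset.sum_empty, sub_zero] at h3
  obtain ⟨m, a, p, h⟩ := HL.numFam (U.isVol σ τ hτ).gr h1 (RS_le_HS 1 (U.Lc_mem σ τ))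
    (stab_Lc subset_rfl) h3
  exact ⟨⟨m, a, p⟩, h⟩

end Env

end Pool.Agent.P.MP_cedf91_co
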