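import Pool.Agent.P.MP_cedf91_co.IH2
import Pool.Agent.P.MP_cedf91_co.Chain

/-! Intersection cohomology: recursion, counting, and nonnegativity of toric `g`-polynomials. -/

namespace Pool.Agent.P.MP_cedf91_co

open Submodule Filter Topology

variable {L E : Type} [PartialOrder L] [Fintype L] [DecidableEq L] [AddCommGroup E] [Module ℝ E]

namespace Env

variable {rk : L → ℕ} {W : L → Submodule ℝ E} {b : L → E} {U : Env rk W b} {σ : L}
  {D : L → Str L}

theorem MM_congr {D' : L → Str L} {τ : L} {T : Finset L} (h : ∀ w ∈ T, D' w = D w) :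
    U.MM σ D' τ T = U.MM σ D τ T := by
  funext i
  have : {x | ∃ w ∈ T, x ∈ U.gens1 σ (D' w) w τ} = {x | ∃ w ∈ T, x ∈ U.gens1 σ (D w) w τ} := by
    ext x
    exact exists_congr fun w => and_congr_right fun hw => by rw [h w hw]
  rw [MM, MM, this]

theorem goodN_all (H : LinLib) (HG : GSStmt) (N : ℕ)
    (h : ∀ w, σ < w → rk w < N → U.Good σ D w) (n : ℕ) :
    ∀ w, σ < w → rk w < n → rk w ≤ N → U.GoodN σ D w := by
  induction n with
  | zero => exact fun w _ h => absurd h (Nat.not_lt_zero _)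
  | succ n ih =>
    intro τ hτ h1 h2
    refine goodN_step H HG hτ fun w hw => ?_
    obtain ⟨a1, a2⟩ := mem_ioo.1 hw
    have := U.lt _ _ a2
    exact ⟨h w a1 (by omega), ih w a1 (by omega) (by omega)⟩

theorem exists_D (H : LinLib) (HL : LefLib) (HG : GSStmt) (HF : FibStmt) (U : Env rk W b)
    (σ : L) : ∃ D : L → Str L, ∀ w, σ < w → U.Good σ D w ∧ U.GoodN σ D w := by
  have key : ∀ N, ∃ D : L → Str L, ∀ w, σ < w → rk w < N → U.Good σ D w := by
    intro N
    induction N with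
    | zero => exact ⟨fun _ => ⟨0, Fin.elim0, Fin.elim0⟩, fun w _ h => absurd h (Nat.not_lt_zero _)⟩
    | succ N ih =>
      obtain ⟨D, hD⟩ := ih
      have : ∀ τ, ∃ St : Str L, σ < τ → rk τ ≤ N →
          Fam (U.vol σ τ) (U.MM σ D τ (ioo σ τ)) (U.Lc σ τ) (rk τ - rk σ - 1) St.a St.p := by
        intro τ
        by_cases h : σ < τ ∧ rk τ ≤ N
        · obtain ⟨St, hSt⟩ := exists_str (U := U) (D := D) HL HF h.1 fun w hw => by
            obtain ⟨a1, a2⟩ := mem_ioo.1 hw
            have := U.lt _ _ a2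
            exact ⟨hD w a1 (by omega), goodN_all H HG N hD _ w a1 (Nat.lt_succ_self _) (by omega)⟩
          exact ⟨St, fun _ _ => hSt⟩
        · exact ⟨D τ, fun h1 h2 => absurd ⟨h1, h2⟩ h⟩
      choose St hSt using this
      refine ⟨fun w => if rk w < N then D w else St w, fun τ hτ hN => ?_⟩
      have e := MM_congr (U := U) (σ := σ) (D := D) (τ := τ) (T := ioo σ τ)
        (D' := fun w => if rk w < N then D w else St w) fun w hw => if_pos (by
          have := U.lt _ _ (mem_ioo.1 hw).2; omega)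
      rw [Good, e]
      have : ∀ S : Str L, S = (if rk τ < N then D τ else St τ) →
          Fam (U.vol σ τ) (U.MM σ D τ (ioo σ τ)) (U.Lc σ τ) (rk τ - rk σ - 1) S.a S.p := by
        intro S hS
        split_ifs at hS with c
        · subst hS; exact hD τ hτ c
        · subst hS; exact hSt τ hτ (by omega)
      exact this _ rfl
  obtain ⟨D, hD⟩ := key (Finset.univ.sup rk + 1)
  have hle : ∀ w, rk w ≤ Finset.univ.sup rk := fun w => Finset.le_sup (f := rk) (Finset.mem_univ w)
  exact ⟨D, fun w hw => ⟨hD w hw (Nat.lt_succ_of_le (hle w)),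
    goodN_all H HG _ hD _ w hw (Nat.lt_succ_self _) (Nat.le_succ_of_le (hle w))⟩⟩

end Env

/-- The `g`-polynomial of a family of strings. -/
noncomputable def Str.g (S : Str L) : Polynomial ℝ := ∑ s, Polynomial.X ^ S.a s

/-- The `h`-polynomial of a family of strings. -/
noncomputable def Str.h (S : Str L) (n : ℕ) : Polynomial ℝ :=
  ∑ s, ∑ u ∈ Finset.range (n - 2 * S.a s + 1), Polynomial.X ^ (S.a s + u)

namespace Env

variable {rk : L → ℕ} {W : L → Submodule ℝ E} {b : L → E} {U : Env rk W b} {σ : L}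
  {D : L → Str L}

theorem count_eq (H : LinLib) {τ : L} (hτ : σ < τ) (hpre : ∀ w ∈ ioo σ τ, U.Good σ D w)
    (h : U.Good σ D τ) (hN : U.GoodN σ D τ) :
    Hb rk W b σ τ = (D τ).h (rk τ - rk σ - 1) +
      ∑ w ∈ ioo σ τ, ((D w).h (rk w - rk σ - 1) - (D w).g) * Hb rk W b w τ := by
  obtain ⟨ν', n1, n2⟩ := hN
  have fd := H.famDual (V := U.MM σ D τ (ioo σ τ)) (n := rk τ - rk σ - 1) (U.isVol σ τ hτ).gr
    (fun i x hx => RS_le_HS i hx.1)
    (RS_le_HS 1 (U.Lc_mem σ τ)) (stab_Lc subset_rfl) h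
  have dI : DecidableEq ((Σ s : Fin (D τ).m, Fin (rk τ - rk σ - 1 - 2 * (D τ).a s + 1)) ⊕
    II rk W b σ D τ) := Classical.decEq _
  have du : DualFam (U.vol σ τ) (RS (ioo σ τ)) (rk τ - rk σ - 1)
      (I := (Σ s : Fin (D τ).m, Fin (rk τ - rk σ - 1 - 2 * (D τ).a s + 1)) ⊕ II rk W b σ D τ)
      (Sum.elim (fun x => (D τ).a x.1 + x.2) (U.dnu σ D τ))
      (Sum.elim (fun x => U.Lc σ τ ^ (x.2 : ℕ) * (D τ).p x.1) (U.nu σ D τ))
      (Sum.elim (fun x => ((-1 : ℝ) ^ (D τ).a x.1) •
        (U.Lc σ τ ^ (rk τ - rk σ - 1 - 2 * (D τ).a x.1 - x.2) * (D τ).p x.1)) ν') := by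
    refine ⟨?_, ?_, ?_, ?_, fun k => (RS_le_MM hτ hpre n1 n2 k).trans (sup_le ?_ ?_)⟩
    · rintro (i | i)
      · exact fd.deg i
      · exact dnu_le τ i
    · rintro (i | i)
      · exact (fd.memf i).1
      · exact NN_le_RS hpre _ (nu_mem_NN τ i)
    · rintro (i | i)
      · exact (fd.memg i).1
      · exact NN_le_RS hpre _ (n1 i)
    · rintro (i | i) (j | j)
      · refine (fd.dual i j).trans ?_
        simp only [Sum.inl.injEq]
      · rw [if_neg Sum.inl_ne_inr]
        exact MM_orth (fd.memf i) (n1 j)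
      · rw [if_neg Sum.inr_ne_inl, mul_comm]
        exact MM_orth (fd.memg j) (nu_mem_NN τ i)
      · refine (n2 i j).trans ?_
        simp only [Sum.inr.injEq]
    · refine (fd.span k).trans (sup_le_sup_right (span_mono ?_) _)
      rintro _ ⟨i, hi, rfl⟩
      exact ⟨Sum.inl i, hi, rfl⟩
    · refine span_le.2 ?_
      rintro _ ⟨i, hi, rfl⟩
      have a1 := n1 i
      rw [show rk τ - rk σ - 1 - U.dnu σ D τ i = k from hi] at a1
      refine ((NN_le_span τ k).trans (sup_le_sup_right (span_mono ?_) _)) a1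
      rintro _ ⟨i, hi, rfl⟩
      exact ⟨Sum.inr i, hi, rfl⟩
  rw [← U.count σ τ hτ, H.dualCount (U.dual σ τ hτ) du, Fintype.sum_sum_type]
  congr 1
  · rw [Fintype.sum_sigma, Str.h]
    exact Finset.sum_congr rfl fun s _ => Fin.sum_univ_eq_sum_range
      (fun u => (Polynomial.X : Polynomial ℝ) ^ ((D τ).a s + u)) _
  · rw [Fintype.sum_sigma, ← Finset.sum_coe_sort (ioo σ τ)]
    refine Finset.sum_congr rfl fun w _ => ?_
    rw [← U.count w τ (mem_ioo.1 w.2).2, Str.h, Str.g, ← Finset.sum_sub_distrib, Finset.sum_mul,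
      Fintype.sum_sigma]
    refine Finset.sum_congr rfl fun s _ => ?_
    rw [Finset.sum_range_succ', add_zero, add_sub_cancel_right, Fintype.sum_prod_type,
      Finset.sum_mul, ← Fin.sum_univ_eq_sum_range
        (fun u => (Polynomial.X : Polynomial ℝ) ^ ((D w).a s + (u + 1)) *
          ∑ i, Polynomial.X ^ U.dB w τ i)]
    refine Finset.sum_congr rfl fun u _ => ?_
    rw [Finset.mul_sum]
    refine Finset.sum_congr rfl fun t _ => ?_
    simp only [Sum.elim_inr, dnu]
    ring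

end Env

omit [DecidableEq L] in
theorem solve_h {R : Type} [CommRing R] {σ τ : L} (Hh β : L → L → R) (h g : L → R)
    (h1 : ∀ x y, x < y → Hh x y = β x y + ∑ z ∈ ioo x y, Hh x z * β z y)
    (h2 : ∀ y, σ < y → Hh σ y = h y + ∑ w ∈ ioo σ y, (h w - g w) * Hh w y) (hτ : σ < τ) :
    h τ = β σ τ + ∑ w ∈ ioo σ τ, g w * β w τ := by
  have a1 : ∑ w ∈ ioo σ τ, (h w - g w) * Hh w τ = ∑ w ∈ ioo σ τ, (h w - g w) * β w τ +
      ∑ w ∈ ioo σ τ, ∑ z ∈ ioo w τ, (h w - g w) * Hh w z * β z τ := by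
    rw [← Finset.sum_add_distrib]
    refine Finset.sum_congr rfl fun w hw => ?_
    rw [h1 w τ (mem_ioo.1 hw).2, mul_add, Finset.mul_sum]
    simp only [mul_assoc]
  have a2 : ∑ z ∈ ioo σ τ, Hh σ z * β z τ = ∑ z ∈ ioo σ τ, h z * β z τ +
      ∑ z ∈ ioo σ τ, ∑ w ∈ ioo σ z, (h w - g w) * Hh w z * β z τ := by
    rw [← Finset.sum_add_distrib]
    refine Finset.sum_congr rfl fun z hz => ?_
    rw [h2 z (mem_ioo.1 hz).1, add_mul, Finset.sum_mul]
  have a3 : ∑ w ∈ ioo σ τ, ∑ z ∈ ioo w τ, (h w - g w) * Hh w z * β z τ =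
      ∑ z ∈ ioo σ τ, ∑ w ∈ ioo σ z, (h w - g w) * Hh w z * β z τ :=
    Finset.sum_comm' fun w z => by
      simp only [mem_ioo]
      exact ⟨fun ⟨⟨a, _⟩, c, d⟩ => ⟨⟨a, c⟩, a.trans c, d⟩,
        fun ⟨⟨a, c⟩, _, d⟩ => ⟨⟨a, c.trans d⟩, c, d⟩⟩
  have a4 : ∑ w ∈ ioo σ τ, (h w - g w) * β w τ =
      ∑ w ∈ ioo σ τ, h w * β w τ - ∑ w ∈ ioo σ τ, g w * β w τ := by
    simp only [sub_mul, Finset.sum_sub_distrib]
  have a5 := h1 σ τ hτ
  have a6 := h2 τ hτ
  linear_combination a5 - a6 - a1 + a2 - a3 - a4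

omit [PartialOrder L] [Fintype L] [DecidableEq L] in
theorem Str.reflect_g (S : Str L) {n : ℕ} (hS : ∀ s, 2 * S.a s ≤ n) :
    S.g.reflect (n + 1) = S.g + S.h n * (Polynomial.X - 1) := by
  have e : ∀ (t : Finset (Fin S.m)), (∑ s ∈ t, (Polynomial.X : Polynomial ℝ) ^ S.a s).reflect
      (n + 1) = ∑ s ∈ t, (Polynomial.X ^ S.a s : Polynomial ℝ).reflect (n + 1) := by
    intro t
    induction t using Finset.induction_on with
    | empty => simp
    | insert s t hs ih => rw [Finset.sum_insert hs, Finset.sum_insert hs, Polynomial.reflect_add, ih]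
  rw [Str.g, e, Str.h, Finset.sum_mul, ← Finset.sum_add_distrib]
  refine Finset.sum_congr rfl fun s _ => ?_
  have := hS s
  simp only [pow_add, ← Finset.mul_sum]
  rw [Polynomial.reflect_monomial, Polynomial.revAt_le (by omega), mul_assoc, geom_sum_mul,
    show n + 1 - S.a s = S.a s + (n - 2 * S.a s + 1) by omega, pow_add]
  ring

theorem karu : KaruStmt := by
  intro L E _ _ _ _ _ rk W b hG hC
  classical
  obtain ⟨U⟩ := exists_env (@fanVol) fanJ_all (@bundle_all) mcm_all (@baryA) (@baryB) hG hC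
  choose D hD using fun σ => Env.exists_D lin_lib lef_all (@gs_all) (@fib_all) U σ
  obtain ⟨-, -, hbar⟩ := baryA hG hC
  have hc : ∀ (S : Str L) i, S.g.coeff i = ∑ s, if i = S.a s then (1 : ℝ) else 0 := by
    intro S i
    simp only [Str.g, Polynomial.finsetSum_coeff, Polynomial.coeff_X_pow]
  refine ⟨fun x y => if x < y then (D x y).g else 1, fun x => if_neg (lt_irrefl x),
    fun x y i => ?_, fun x y i hxy hi => ?_, fun x y hxy => ?_⟩
  · split_ifs
    · rw [hc]
      exact Finset.sum_nonneg fun s _ => by split_ifs <;> norm_num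
    · rw [Polynomial.coeff_one]
      split_ifs <;> norm_num
  · rw [if_pos hxy, hc] at hi
    obtain ⟨s, -, hs⟩ := Finset.exists_ne_zero_of_sum_ne_zero hi
    have a1 : i = (D x y).a s := by
      by_contra c
      exact hs (if_neg c)
    have a2 := (hD x y hxy).1.deg s
    have a3 := hG.lt x y hxy
    omega
  · have a3 := hG.lt x y hxy
    have a1 := solve_h (Hb rk W b) (fun x y => (Polynomial.X - 1) ^ (rk y - rk x - 1))
      (fun y => (D x y).h (rk y - rk x - 1)) (fun y => (D x y).g) hbar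
      (fun y hy => Env.count_eq lin_lib hy (fun w hw => (hD x w (mem_ioo.1 hw).1).1)
        (hD x y hy).1 (hD x y hy).2) hxy
    have a2 : (Finset.univ.filter fun z => x ≤ z ∧ z ≤ y) = insert y (insert x (ioo x y)) := by
      ext z
      simp only [Finset.mem_filter, Finset.mem_univ, true_and, Finset.mem_insert, mem_ioo]
      constructor
      · rintro ⟨h1, h2⟩
        rcases h2.eq_or_lt with h2 | h2
        · exact Or.inl h2
        · rcases h1.eq_or_lt with h1 | h1
          · exact Or.inr (Or.inl h1.symm)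
          · exact Or.inr (Or.inr ⟨h1, h2⟩)
      · rintro (rfl | rfl | ⟨h1, h2⟩)
        · exact ⟨hxy.le, le_rfl⟩
        · exact ⟨le_rfl, hxy.le⟩
        · exact ⟨h1.le, h2.le⟩
    have a4 := (D x y).reflect_g (hD x y hxy).1.deg
    rw [show rk y - rk x - 1 + 1 = rk y - rk x by omega, a1] at a4
    rw [if_pos hxy, a4]
    refine Eq.trans ?_ (Finset.sum_congr (Eq.trans a2.symm (by congr)) fun _ _ => rfl)
    rw [Finset.sum_insert (by simp [mem_ioo, hxy.ne']), Finset.sum_insert (by simp [mem_ioo]),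
      if_pos hxy, if_neg (lt_irrefl x), Nat.sub_self, pow_zero, mul_one, one_mul, add_mul,
      ← pow_succ, show rk y - rk x - 1 + 1 = rk y - rk x by omega, Finset.sum_mul]
    congr 2
    refine Finset.sum_congr rfl fun z hz => ?_
    have := hG.lt _ _ (mem_ioo.1 hz).2
    rw [if_pos (mem_ioo.1 hz).1, mul_assoc, ← pow_succ,
      show rk y - rk z - 1 + 1 = rk y - rk z by omega]

end Pool.Agent.P.MP_cedf91_co
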