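import Pool.Agent.P.MP_cedf91_co.Defs

/-! Definitions and interface statements for the re-proof of the theorems of McMullen and Karu. -/

namespace Pool.Agent.P.MP_cedf91_co

open Submodule Filter Topology

section Alg

variable {R : Type} [CommRing R] [Algebra ℝ R]

/-- The annihilator (radical) of the pairing `(x, y) ↦ φ (x * y)`. -/
def ann (φ : R →ₗ[ℝ] ℝ) : Submodule ℝ R where
  carrier := {x | ∀ y, φ (x * y) = 0}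
  add_mem' := fun {a b} ha hb y => by rw [add_mul, map_add, ha y, hb y, add_zero]
  zero_mem' := fun y => by rw [zero_mul, map_zero]
  smul_mem' := fun c x hx y => by rw [smul_mul_assoc, map_smul, hx y, smul_zero]

theorem mem_ann {φ : R →ₗ[ℝ] ℝ} {x : R} : x ∈ ann φ ↔ ∀ y, φ (x * y) = 0 := Iff.rfl

theorem ann_mul_right {φ : R →ₗ[ℝ] ℝ} {x : R} (h : x ∈ ann φ) (y : R) : x * y ∈ ann φ :=
  fun z => by rw [mul_assoc]; exact h _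

theorem ann_mul_left {φ : R →ₗ[ℝ] ℝ} {x : R} (h : x ∈ ann φ) (y : R) : y * x ∈ ann φ :=
  mul_comm x y ▸ ann_mul_right h y

theorem ann_apply {φ : R →ₗ[ℝ] ℝ} {x : R} (h : x ∈ ann φ) : φ x = 0 := by
  simpa using h 1

/-- The form `φ (w x y)` is positive definite on some `k`-dimensional subspace of `U`. -/
def PosGe (φ : R →ₗ[ℝ] ℝ) (w : R) (U : Submodule ℝ R) (k : ℕ) : Prop :=
  ∃ v : Fin k → R, (∀ i, v i ∈ U) ∧ ∀ c : Fin k → ℝ, c ≠ 0 → 0 < φ (w * (∑ i, c i • v i) ^ 2)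

/-- `U` has dimension at most `k` modulo the annihilator. -/
def SpanLe (φ : R →ₗ[ℝ] ℝ) (U : Submodule ℝ R) (k : ℕ) : Prop :=
  ∃ f : Fin k → R, U ≤ span ℝ (Set.range f) ⊔ ann φ

/-- The form `φ (w x y)` on `U` modulo the annihilator is nondegenerate of signature `(a, b)`. -/
def Sig (φ : R →ₗ[ℝ] ℝ) (w : R) (U : Submodule ℝ R) (a b : ℕ) : Prop :=
  SpanLe φ U (a + b) ∧ PosGe φ w U a ∧ PosGe φ (-w) U b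

/-- Nondegeneracy modulo the annihilator. -/
def Nondeg (φ : R →ₗ[ℝ] ℝ) (w : R) (U : Submodule ℝ R) : Prop :=
  ∀ x ∈ U, (∀ y ∈ U, φ (w * x * y) = 0) → x ∈ ann φ

/-- The weight of the Hodge-Riemann form in degree `i`. -/
def wt (ℓ : R) (n i : ℕ) : R := ((-1 : ℝ) ^ i) • ℓ ^ (n - 2 * i)

/-- Hard Lefschetz and Hodge-Riemann in numerical form. -/
def Num (φ : R →ₗ[ℝ] ℝ) (V : ℕ → Submodule ℝ R) (ℓ : R) (n : ℕ) : Prop :=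
  ∃ a b : ℕ → ℕ, b 0 = 0 ∧ (∀ i, 2 * i ≤ n → Sig φ (wt ℓ n i) (V i) (a i) (b i)) ∧
    ∀ i, 2 * (i + 1) ≤ n → b (i + 1) ≤ a i

/-- A grading for which `φ` has degree `n`. -/
structure Gr (φ : R →ₗ[ℝ] ℝ) (𝒜 : ℕ → Submodule ℝ R) (n : ℕ) : Prop where
  one : (1 : R) ∈ 𝒜 0
  mul : ∀ {i j : ℕ} {x y : R}, x ∈ 𝒜 i → y ∈ 𝒜 j → x * y ∈ 𝒜 (i + j)
  deg : ∀ i, i ≠ n → ∀ x ∈ 𝒜 i, φ x = 0

/-- A graded subspace with Poincare duality. -/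
structure GSub (φ : R →ₗ[ℝ] ℝ) (𝒜 V : ℕ → Submodule ℝ R) : Prop where
  le : ∀ i, V i ≤ 𝒜 i
  fin : ∀ i, ∃ k, SpanLe φ (V i) k
  pd : ∀ i, ∀ x ∈ V i, (∀ j, ∀ y ∈ V j, φ (x * y) = 0) → x ∈ ann φ

/-- Stability under multiplication by a degree one element. -/
def Stab (V : ℕ → Submodule ℝ R) (ℓ : R) : Prop := ∀ i, ∀ x ∈ V i, ℓ * x ∈ V (i + 1)

/-- A Lefschetz family of primitive classes. -/
structure Fam (φ : R →ₗ[ℝ] ℝ) (V : ℕ → Submodule ℝ R) (ℓ : R) (n : ℕ) {S : Type} (a : S → ℕ)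
    (p : S → R) : Prop where
  mem : ∀ s, p s ∈ V (a s)
  deg : ∀ s, 2 * a s ≤ n
  val : ∀ s, φ (p s * p s * ℓ ^ (n - 2 * a s)) = (-1) ^ a s
  orth : ∀ s t m, s ≠ t → φ (p s * p t * ℓ ^ m) = 0
  top : ∀ s, ℓ ^ (n - 2 * a s + 1) * p s ∈ ann φ
  span : ∀ i, V i ≤ span ℝ {x | ∃ s u, a s + u = i ∧ x = ℓ ^ u * p s} ⊔ ann φ

/-- A homogeneous basis with a dual basis. -/
structure DualFam (φ : R →ₗ[ℝ] ℝ) (V : ℕ → Submodule ℝ R) (n : ℕ) {I : Type} [DecidableEq I]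
    (d : I → ℕ) (f g : I → R) : Prop where
  deg : ∀ i, d i ≤ n
  memf : ∀ i, f i ∈ V (d i)
  memg : ∀ i, g i ∈ V (n - d i)
  dual : ∀ i j, φ (f i * g j) = if i = j then 1 else 0
  span : ∀ k, V k ≤ span ℝ (f '' {i | d i = k}) ⊔ ann φ

/-- Hypotheses of the blow-up lemma. The string `s` has length `k - 1 - 2 * a s`, the string `t`
has length `n - k - 2 * b t`. -/
structure BlowData (φ : R →ₗ[ℝ] ℝ) (𝒜 V : ℕ → Submodule ℝ R) (ℓ e : R) (n k : ℕ) {S T : Type}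
    [DecidableEq S] [DecidableEq T] (a : S → ℕ) (b : T → ℕ) (y : S → ℕ → T → R) (c : ℝ) :
    Prop where
  gr : Gr φ 𝒜 n
  sub : GSub φ 𝒜 V
  hℓ : ℓ ∈ 𝒜 1
  he : e ∈ 𝒜 1
  ℓV : Stab V ℓ
  eV : Stab V e
  ha : ∀ s, 2 * a s + 1 ≤ k
  hb : ∀ t, 2 * b t + k ≤ n
  hc : 0 < c
  ydeg : ∀ s u t, 2 * a s + u + 1 ≤ k → y s u t ∈ 𝒜 (a s + u + b t)
  ey : ∀ s u t, 2 * a s + u + 1 ≤ k → e * y s u t ∈ V (a s + u + b t + 1)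
  A1lt : ∀ s u t s' u' t' r m, 2 * a s + u + 1 ≤ k → 2 * a s' + u' + 1 ≤ k →
    a s + u + a s' + u' + r + 1 < k → φ (e ^ (r + 1) * ℓ ^ m * y s u t * y s' u' t') = 0
  A1eq : ∀ s u t s' u' t' r m, 2 * a s + u + 1 ≤ k → 2 * a s' + u' + 1 ≤ k →
    a s + u + a s' + u' + r + 1 = k → φ (e ^ (r + 1) * ℓ ^ m * y s u t * y s' u' t') =
      if s = s' ∧ t = t' ∧ m + k + 2 * b t = n then c * (-1) ^ (r + a s + b t) else 0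
  A2 : ∀ i, ∀ α ∈ V i, e * α ∈ span ℝ {x | ∃ s u t v, 2 * a s + u + 1 ≤ k ∧
    a s + u + b t + v = i ∧ x = e * ℓ ^ v * y s u t} ⊔ ann φ
  A3 : ∀ s u t, 2 * a s + u + 1 ≤ k → e * ℓ ^ (n - k - 2 * b t + 1) * y s u t ∈ ann φ

/-- Elements of `U` orthogonal to a set `G`. -/
def perp (φ : R →ₗ[ℝ] ℝ) (U : Submodule ℝ R) (G : Set R) : Submodule ℝ R where
  carrier := {x | x ∈ U ∧ ∀ g ∈ G, φ (x * g) = 0}
  add_mem' := fun {a b} ha hb => ⟨U.add_mem ha.1 hb.1, fun g hg => by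
    rw [add_mul, map_add, ha.2 g hg, hb.2 g hg, add_zero]⟩
  zero_mem' := ⟨U.zero_mem, fun g _ => by rw [zero_mul, map_zero]⟩
  smul_mem' := fun c x hx => ⟨U.smul_mem c hx.1, fun g hg => by
    rw [smul_mul_assoc, map_smul, hx.2 g hg, smul_zero]⟩

theorem mem_perp {φ : R →ₗ[ℝ] ℝ} {U : Submodule ℝ R} {G : Set R} {x : R} :
    x ∈ perp φ U G ↔ x ∈ U ∧ ∀ g ∈ G, φ (x * g) = 0 := Iff.rfl

/-- The blown-down space of the blow-up lemma. -/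
def blowM (φ : R →ₗ[ℝ] ℝ) (V : ℕ → Submodule ℝ R) (ℓ e : R) (k : ℕ) {S T : Type} (a : S → ℕ)
    (y : S → ℕ → T → R) (i : ℕ) : Submodule ℝ R :=
  perp φ (V i) {x | ∃ s u t v, 2 * a s + u + 1 < k ∧ x = e * ℓ ^ v * y s u t}

end Alg

/-- Package Lin: linear algebra of the forms `φ (w x y)`. -/
structure LinLib : Prop where
  triDual : ∀ {R : Type} [CommRing R] [Algebra ℝ R] (φ : R →ₗ[ℝ] ℝ) {I : Type} [Fintype I]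
    [DecidableEq I] (w cls : I → ℕ) (f g : I → R),
    (∀ i j, i ≠ j → w i ≤ w j → φ (f i * g j) = 0) → (∀ i, φ (f i * g i) ≠ 0) →
    (∀ i j, cls i ≠ cls j → φ (f i * g j) = 0) →
    ∃ g' : I → R, (∀ j, g' j ∈ span ℝ (g '' {k | cls k = cls j})) ∧
      ∀ i j, φ (f i * g' j) = if i = j then 1 else 0
  spanOf : ∀ {R : Type} [CommRing R] [Algebra ℝ R] {φ : R →ₗ[ℝ] ℝ} {U : Submodule ℝ R}
    {I : Type} [Fintype I] (f : I → R), U ≤ span ℝ (Set.range f) ⊔ ann φ →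
    SpanLe φ U (Fintype.card I)
  posOf : ∀ {R : Type} [CommRing R] [Algebra ℝ R] {φ : R →ₗ[ℝ] ℝ} {w : R} {U : Submodule ℝ R}
    {I : Type} [Fintype I] (v : I → R), (∀ i, v i ∈ U) →
    (∀ c : I → ℝ, c ≠ 0 → 0 < φ (w * (∑ i, c i • v i) ^ 2)) → PosGe φ w U (Fintype.card I)
  spanMem : ∀ {R : Type} [CommRing R] [Algebra ℝ R] {φ : R →ₗ[ℝ] ℝ} {U : Submodule ℝ R} {k : ℕ},
    SpanLe φ U k → ∃ f : Fin k → R, (∀ i, f i ∈ U) ∧ U ≤ span ℝ (Set.range f) ⊔ ann φ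
  sylvSemi : ∀ {R : Type} [CommRing R] [Algebra ℝ R] {φ : R →ₗ[ℝ] ℝ} {w : R}
    {U : Submodule ℝ R} {k a : ℕ} {I : Type} [Fintype I] (v : I → R), SpanLe φ U k →
    PosGe φ w U a → (∀ i, v i ∈ U) → (∀ c : I → ℝ, φ (w * (∑ i, c i • v i) ^ 2) ≤ 0) →
    (∀ c : I → ℝ, ∑ i, c i • v i ∈ ann φ → c = 0) → a + Fintype.card I ≤ k
  sylv : ∀ {R : Type} [CommRing R] [Algebra ℝ R] {φ : R →ₗ[ℝ] ℝ} {w : R} {U : Submodule ℝ R}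
    {k a b : ℕ}, SpanLe φ U k → PosGe φ w U a → PosGe φ (-w) U b → a + b ≤ k
  sigNondeg : ∀ {R : Type} [CommRing R] [Algebra ℝ R] {φ : R →ₗ[ℝ] ℝ} {w : R}
    {U : Submodule ℝ R} {a b : ℕ}, Sig φ w U a b → Nondeg φ w U
  diag : ∀ {R : Type} [CommRing R] [Algebra ℝ R] {φ : R →ₗ[ℝ] ℝ} {w : R} {U : Submodule ℝ R}
    {k : ℕ}, SpanLe φ U k → Nondeg φ w U → ∃ (m : ℕ) (f : Fin m → R), (∀ i, f i ∈ U) ∧
    (∀ i j, i ≠ j → φ (w * f i * f j) = 0) ∧ (∀ i, φ (w * f i * f i) ≠ 0) ∧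
    U ≤ span ℝ (Set.range f) ⊔ ann φ
  exSig : ∀ {R : Type} [CommRing R] [Algebra ℝ R] {φ : R →ₗ[ℝ] ℝ} {w : R} {U : Submodule ℝ R}
    {k : ℕ}, SpanLe φ U k → Nondeg φ w U → ∃ a b, Sig φ w U a b
  proj : ∀ {R : Type} [CommRing R] [Algebra ℝ R] {φ : R →ₗ[ℝ] ℝ} {w : R} {U : Submodule ℝ R}
    {k : ℕ}, SpanLe φ U k → Nondeg φ w U → ∀ lam : R →ₗ[ℝ] ℝ,
    (∀ x ∈ U, x ∈ ann φ → lam x = 0) → ∃ u ∈ U, ∀ y ∈ U, lam y = φ (w * u * y)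
  rep : ∀ {R : Type} [CommRing R] [Algebra ℝ R] {φ : R →ₗ[ℝ] ℝ} {𝒜 V : ℕ → Submodule ℝ R}
    {n i j : ℕ}, Gr φ 𝒜 n → GSub φ 𝒜 V → i + j = n → ∀ lam : R →ₗ[ℝ] ℝ,
    (∀ x ∈ V j, x ∈ ann φ → lam x = 0) → ∃ γ ∈ V i, ∀ β ∈ V j, lam β = φ (γ * β)
  openPos : ∀ {R : Type} [CommRing R] [Algebra ℝ R] {φ : R →ₗ[ℝ] ℝ} {U : Submodule ℝ R}
    {I : Type} [Fintype I] (l : Filter ℝ) (w : ℝ → R) (v : ℝ → I → R) (G0 : I → I → ℝ),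
    (∀ δ i, v δ i ∈ U) → (∀ i j, Tendsto (fun δ => φ (w δ * v δ i * v δ j)) l (𝓝 (G0 i j))) →
    (∀ c : I → ℝ, c ≠ 0 → 0 < ∑ i, ∑ j, c i * c j * G0 i j) →
    ∀ᶠ δ in l, PosGe φ (w δ) U (Fintype.card I)
  dualCount : ∀ {R : Type} [CommRing R] [Algebra ℝ R] {φ : R →ₗ[ℝ] ℝ} {V : ℕ → Submodule ℝ R}
    {n : ℕ} {I J : Type} [Fintype I] [DecidableEq I] [Fintype J] [DecidableEq J] {d : I → ℕ}
    {f g : I → R} {d' : J → ℕ} {f' g' : J → R}, DualFam φ V n d f g → DualFam φ V n d' f' g' →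
    ∑ i, (Polynomial.X : Polynomial ℝ) ^ d i = ∑ j, Polynomial.X ^ d' j
  famDual : ∀ {R : Type} [CommRing R] [Algebra ℝ R] {φ : R →ₗ[ℝ] ℝ} {𝒜 V : ℕ → Submodule ℝ R}
    {ℓ : R} {n : ℕ} {S : Type} [DecidableEq S] {a : S → ℕ} {p : S → R}, Gr φ 𝒜 n →
    (∀ i, V i ≤ 𝒜 i) → ℓ ∈ 𝒜 1 → Stab V ℓ → Fam φ V ℓ n a p →
    DualFam φ V n (I := Σ s : S, Fin (n - 2 * a s + 1)) (fun x => a x.1 + x.2)
      (fun x => ℓ ^ (x.2 : ℕ) * p x.1)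
      (fun x => ((-1 : ℝ) ^ a x.1) • (ℓ ^ (n - 2 * a x.1 - x.2) * p x.1))
  numCongr : ∀ {R : Type} [CommRing R] [Algebra ℝ R] {φ : R →ₗ[ℝ] ℝ} {V V' : ℕ → Submodule ℝ R}
    {ℓ ℓ' : R} {n : ℕ}, (∀ i, V i ≤ V' i ⊔ ann φ) → (∀ i, V' i ≤ V i ⊔ ann φ) →
    ℓ - ℓ' ∈ ann φ → Num φ V ℓ n → Num φ V' ℓ' n
  numMap : ∀ {R R' : Type} [CommRing R] [Algebra ℝ R] [CommRing R'] [Algebra ℝ R']
    {φ : R →ₗ[ℝ] ℝ} {φ' : R' →ₗ[ℝ] ℝ} {V : ℕ → Submodule ℝ R} {ℓ : R} {n : ℕ} (ψ : R →ₐ[ℝ] R')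
    {c : ℝ}, 0 < c → (∀ x, φ' (ψ x) = c * φ x) → (∀ i, ∀ x ∈ V i, x ∈ ann φ → ψ x ∈ ann φ') →
    (Num φ V ℓ n ↔ Num φ' (fun i => (V i).map ψ.toLinearMap) (ψ ℓ) n)

/-- Package Lef. -/
structure LefLib : Prop where
  prim : ∀ {R : Type} [CommRing R] [Algebra ℝ R] {φ : R →ₗ[ℝ] ℝ} {V : ℕ → Submodule ℝ R}
    {ℓ : R} {n i : ℕ} {x : R}, Stab V ℓ → Num φ V ℓ n → 2 * i ≤ n → x ∈ V i →
    ℓ ^ (n - 2 * i + 1) * x ∈ ann φ →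
    0 ≤ φ (wt ℓ n i * x ^ 2) ∧ (φ (wt ℓ n i * x ^ 2) = 0 → x ∈ ann φ)
  numFam : ∀ {R : Type} [CommRing R] [Algebra ℝ R] {φ : R →ₗ[ℝ] ℝ} {𝒜 V : ℕ → Submodule ℝ R}
    {ℓ : R} {n : ℕ}, Gr φ 𝒜 n → GSub φ 𝒜 V → ℓ ∈ 𝒜 1 → Stab V ℓ → Num φ V ℓ n →
    ∃ (m : ℕ) (a : Fin m → ℕ) (p : Fin m → R), Fam φ V ℓ n a p
  deform : ∀ {R : Type} [CommRing R] [Algebra ℝ R] {φ : R →ₗ[ℝ] ℝ} {V : ℕ → Submodule ℝ R}
    {ℓ0 ℓ1 : R} {n : ℕ}, (∀ t ∈ Set.Icc (0 : ℝ) 1, ∀ i, 2 * i ≤ n →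
      Nondeg φ (wt ((1 - t) • ℓ0 + t • ℓ1) n i) (V i)) → Num φ V ℓ0 n → Num φ V ℓ1 n
  rankOne : ∀ {R : Type} [CommRing R] [Algebra ℝ R] {φ : R →ₗ[ℝ] ℝ} {V : ℕ → Submodule ℝ R}
    {L : R} {n : ℕ}, (∀ i, L ^ i ∈ V i) → (∀ i, V i ≤ span ℝ {L ^ i} ⊔ ann φ) → 0 < φ (L ^ n) →
    Num φ V L n

/-- Gram matrix of the model `ℝ[x,y]/(x^(m+1), y^(n+1))`. -/
def gam (m N u u' : ℕ) : ℝ := if u + u' ≤ m then (N.choose (m - u - u') : ℝ) else 0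

/-- Package Model. -/
structure ModelLib : Prop where
  diag : ∀ m n j : ℕ, 2 * j ≤ m + n → ∃ c : ℕ → ℕ → ℝ,
    (∀ i i', i ≤ j → i ≤ m → i ≤ n → i' ≤ j → i' ≤ m → i' ≤ n → i ≠ i' →
      ∑ u ∈ Finset.range (j + 1), ∑ u' ∈ Finset.range (j + 1),
        c i u * c i' u' * gam m (m + n - 2 * j) u u' = 0) ∧
    ∀ i, i ≤ j → i ≤ m → i ≤ n → 0 < (-1) ^ i * ∑ u ∈ Finset.range (j + 1),
      ∑ u' ∈ Finset.range (j + 1), c i u * c i u' * gam m (m + n - 2 * j) u u'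
  schur : ∀ m n j : ℕ, j ≤ m → j ≤ n → ∃ z : ℕ → ℝ, z 0 = 1 ∧
    (∀ u', 1 ≤ u' → u' ≤ j →
      ∑ u ∈ Finset.range (j + 1), z u * gam (m + 1) (m + 1 + n - 2 * j) u u' = 0) ∧
    0 < (-1) ^ j * ∑ u ∈ Finset.range (j + 1), z u * gam (m + 1) (m + 1 + n - 2 * j) u 0

/-- Package Blow0. -/
def Blow0Stmt : Prop :=
  ∀ {R : Type} [CommRing R] [Algebra ℝ R] {φ : R →ₗ[ℝ] ℝ} {𝒜 V : ℕ → Submodule ℝ R} {ℓ e : R}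
    {n k : ℕ} {S T : Type} [Fintype S] [Fintype T] [DecidableEq S] [DecidableEq T] {a : S → ℕ}
    {b : T → ℕ} {y : S → ℕ → T → R} {c : ℝ}, BlowData φ 𝒜 V ℓ e n k a b y c →
    GSub φ 𝒜 (blowM φ V ℓ e k a y) ∧ Stab (blowM φ V ℓ e k a y) ℓ ∧
    (∀ i, V i ≤ blowM φ V ℓ e k a y i ⊔ span ℝ {x | ∃ s u t v, 2 * a s + u + 1 < k ∧
      v + k + 2 * b t ≤ n ∧ a s + u + b t + v + 1 = i ∧ x = e * ℓ ^ v * y s u t} ⊔ ann φ) ∧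
    ∀ i, ∀ α ∈ blowM φ V ℓ e k a y i, e * α ∉ ann φ → ∃ (f : ℕ) (κ : S → T → ℝ),
      (∃ s t, κ s t ≠ 0) ∧
      (∀ s t, κ s t ≠ 0 → a s = f ∧ f + b t ≤ i ∧ i + k + b t ≤ n + f) ∧
      e * α - ∑ s, ∑ t, κ s t • (e * ℓ ^ (i - f - b t) * y s 0 t) ∈
        span ℝ {x | ∃ s u t v, 2 * a s + u + 1 ≤ k ∧ a s + u < f ∧ a s + u + b t + v = i ∧
          x = e * ℓ ^ v * y s u t} ⊔ ann φ

/-- Rescaled generators of the exceptional part. -/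
noncomputable def neD {R : Type} [CommRing R] [Algebra ℝ R] (ℓ e : R) (k : ℕ) {S T : Type}
    (a : S → ℕ) (y : S → ℕ → T → R) (δ : ℝ) (s : S) (u : ℕ) (t : T) (v : ℕ) : R :=
  (δ ^ (2 * ((a s : ℤ) + u + 1) - k)) • (e * ℓ ^ v * y s u t)

/-- Package BlowGram: limits of rescaled Gram matrices. -/
def BlowGramStmt : Prop :=
  ∀ {R : Type} [CommRing R] [Algebra ℝ R] {φ : R →ₗ[ℝ] ℝ} {𝒜 V : ℕ → Submodule ℝ R} {ℓ e : R}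
    {n k : ℕ} {S T : Type} [Fintype S] [Fintype T] [DecidableEq S] [DecidableEq T] {a : S → ℕ}
    {b : T → ℕ} {y : S → ℕ → T → R} {c : ℝ}, BlowData φ 𝒜 V ℓ e n k a b y c →
    ∀ i, 2 * i ≤ n →
    (∀ α α', Tendsto (fun δ : ℝ => φ (wt (ℓ - δ ^ 2 • e) n i * α * α')) (𝓝[>] 0)
      (𝓝 (φ (wt ℓ n i * α * α')))) ∧
    (∀ α ∈ blowM φ V ℓ e k a y i, ∀ s u t v, 2 * a s + u + 1 < k →
      Tendsto (fun δ : ℝ => φ (wt (ℓ - δ ^ 2 • e) n i * α * neD ℓ e k a y δ s u t v)) (𝓝[>] 0)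
        (𝓝 0)) ∧
    (∀ s u t v s' u' t' v', 2 * a s + u + 1 < k → 2 * a s' + u' + 1 < k →
      a s + u + b t + v + 1 = i → a s' + u' + b t' + v' + 1 = i →
      Tendsto (fun δ : ℝ => φ (wt (ℓ - δ ^ 2 • e) n i * neD ℓ e k a y δ s u t v *
        neD ℓ e k a y δ s' u' t' v')) (𝓝[>] 0) (𝓝 (if s = s' ∧ t = t' then
          c * (-1) ^ (u + v) * gam (k - 2 - 2 * a s) (n - 2 * i) u u' else 0))) ∧
    ∀ x ∈ blowM φ V ℓ e k a y i, ℓ ^ (n - 2 * i) * x ∈ ann φ → ∀ (f : ℕ) (κ : S → T → ℝ),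
      (∃ s t, κ s t ≠ 0) → (∀ s t, κ s t ≠ 0 → a s = f ∧ f + b t ≤ i ∧ i + k + b t ≤ n + f) →
      e * x - ∑ s, ∑ t, κ s t • (e * ℓ ^ (i - f - b t) * y s 0 t) ∈
        span ℝ {x | ∃ s u t v, 2 * a s + u + 1 ≤ k ∧ a s + u < f ∧ a s + u + b t + v = i ∧
          x = e * ℓ ^ v * y s u t} ⊔ ann φ →
      (∀ s t, κ s t ≠ 0 → i + f + 1 ≤ k + b t) ∧
      Tendsto (fun δ : ℝ => φ (wt (ℓ - δ ^ 2 • e) n i * (δ ^ (2 * (f : ℤ) - k) • x) *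
        (δ ^ (2 * (f : ℤ) - k) • x))) (𝓝[>] 0) (𝓝 (∑ s, ∑ t, κ s t ^ 2 * c *
          (-1) ^ (i - f - b t + 1) * gam (k - 2 * f) (n - 2 * i) 0 0)) ∧
      (∀ α ∈ blowM φ V ℓ e k a y i, Tendsto (fun δ : ℝ => φ (wt (ℓ - δ ^ 2 • e) n i *
        (δ ^ (2 * (f : ℤ) - k) • x) * α)) (𝓝[>] 0) (𝓝 0)) ∧
      ∀ s u t v, 2 * a s + u + 1 < k → a s + u + b t + v + 1 = i →
        Tendsto (fun δ : ℝ => φ (wt (ℓ - δ ^ 2 • e) n i * (δ ^ (2 * (f : ℤ) - k) • x) *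
          neD ℓ e k a y δ s u t v)) (𝓝[>] 0)
          (𝓝 (κ s t * c * (-1) ^ (u + v + 1) * gam (k - 2 * a s) (n - 2 * i) 0 (u + 1)))

/-- Package BlowLim. -/
def BlowLimStmt : Prop :=
  ∀ {R : Type} [CommRing R] [Algebra ℝ R] {φ : R →ₗ[ℝ] ℝ} {𝒜 V : ℕ → Submodule ℝ R} {ℓ e : R}
    {n k : ℕ} {S T : Type} [Fintype S] [Fintype T] [DecidableEq S] [DecidableEq T] {a : S → ℕ}
    {b : T → ℕ} {y : S → ℕ → T → R} {c : ℝ}, BlowData φ 𝒜 V ℓ e n k a b y c →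
    ∃ pN nN : ℕ → ℕ, nN 0 = 0 ∧ (∀ i, nN (i + 1) = pN i) ∧ ∀ i, 2 * i ≤ n →
      (∀ r, SpanLe φ (blowM φ V ℓ e k a y i) r → SpanLe φ (V i) (r + pN i + nN i)) ∧
      (∀ r, PosGe φ (wt ℓ n i) (blowM φ V ℓ e k a y i) r →
        ∀ᶠ t in 𝓝[>] (0 : ℝ), PosGe φ (wt (ℓ - t • e) n i) (V i) (r + pN i)) ∧
      (∀ r, PosGe φ (-wt ℓ n i) (blowM φ V ℓ e k a y i) r →
        ∀ᶠ t in 𝓝[>] (0 : ℝ), PosGe φ (-wt (ℓ - t • e) n i) (V i) (r + nN i)) ∧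
      ∀ r, PosGe φ (-wt ℓ n i) (blowM φ V ℓ e k a y i) r → ∀ x ∈ blowM φ V ℓ e k a y i,
        ℓ ^ (n - 2 * i) * x ∈ ann φ → e * x ∉ ann φ →
        ∀ᶠ t in 𝓝[>] (0 : ℝ), PosGe φ (-wt (ℓ - t • e) n i) (V i) (r + nN i + 1)

/-- Package Blow2. -/
def Blow2Stmt : Prop :=
  ∀ {R : Type} [CommRing R] [Algebra ℝ R] {φ : R →ₗ[ℝ] ℝ} {𝒜 V : ℕ → Submodule ℝ R} {ℓ e : R}
    {n k : ℕ} {S T : Type} [Fintype S] [Fintype T] [DecidableEq S] [DecidableEq T] {a : S → ℕ}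
    {b : T → ℕ} {y : S → ℕ → T → R} {c : ℝ}, BlowData φ 𝒜 V ℓ e n k a b y c →
    Num φ (blowM φ V ℓ e k a y) ℓ n → ∀ᶠ t in 𝓝[>] (0 : ℝ), Num φ V (ℓ - t • e) n

/-- Package Blow3. -/
def Blow3Stmt : Prop :=
  ∀ {R : Type} [CommRing R] [Algebra ℝ R] {φ : R →ₗ[ℝ] ℝ} {𝒜 V : ℕ → Submodule ℝ R} {ℓ e : R}
    {n k : ℕ} {S T : Type} [Fintype S] [Fintype T] [DecidableEq S] [DecidableEq T] {a : S → ℕ}
    {b : T → ℕ} {y : S → ℕ → T → R} {c : ℝ}, BlowData φ 𝒜 V ℓ e n k a b y c →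
    (∀ᶠ t in 𝓝[>] (0 : ℝ), Num φ V (ℓ - t • e) n) → Num φ (blowM φ V ℓ e k a y) ℓ n

end Pool.Agent.P.MP_cedf91_co
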