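import Pool.Agent.P.MP_cedf91_co.KDefs

/-! Simplicial fans: definitions, elementary geometry and interface statements. -/

namespace Pool.Agent.P.MP_cedf91_co

open Submodule Filter Topology MvPolynomial

/-- Polynomial ring. -/
abbrev PR (ι : Type) := MvPolynomial ι ℝ

/-- Homogeneous polynomials of degree `i`. -/
abbrev HS (ι : Type) (i : ℕ) : Submodule ℝ (PR ι) := homogeneousSubmodule ι ℝ i

/-- Homogeneous polynomials of degree `i` in the variables of `S`. -/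
noncomputable def RS {ι : Type} (S : Finset ι) (i : ℕ) : Submodule ℝ (PR ι) :=
  (span ℝ (X '' (S : Set ι))) ^ i

/-- The linear form with coefficients `b`. -/
noncomputable def lin {ι : Type} (S : Finset ι) (b : ι → ℝ) : PR ι := ∑ k ∈ S, b k • X k

/-- Squarefree monomial. -/
noncomputable def xs {ι : Type} (τ : Finset ι) : PR ι := ∏ k ∈ τ, X k

section RS

variable {ι : Type} {S S' : Finset ι}

theorem RS_one : RS S 1 = span ℝ (X '' (S : Set ι)) := pow_one _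

theorem one_mem_RS : (1 : PR ι) ∈ RS S 0 := by
  rw [RS, pow_zero]; exact Submodule.one_le.1 le_rfl

theorem RS_zero : RS S 0 = span ℝ {1} := by
  rw [RS, pow_zero, Submodule.one_eq_span]

theorem mul_mem_RS {i j : ℕ} {x y : PR ι} (hx : x ∈ RS S i) (hy : y ∈ RS S j) :
    x * y ∈ RS S (i + j) := by
  rw [RS, pow_add]; exact Submodule.mul_mem_mul hx hy

theorem X_mem_RS {k : ι} (hk : k ∈ S) : (X k : PR ι) ∈ RS S 1 :=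
  RS_one ▸ subset_span ⟨k, hk, rfl⟩

theorem pow_mem_RS {x : PR ι} (hx : x ∈ RS S 1) (m : ℕ) : x ^ m ∈ RS S m := by
  induction m with
  | zero => simpa using one_mem_RS
  | succ m ih => rw [pow_succ]; exact mul_mem_RS ih hx

theorem lin_mem_RS (h : S ⊆ S') (b : ι → ℝ) : lin S b ∈ RS S' 1 :=
  Submodule.sum_mem _ fun _ hk => Submodule.smul_mem _ _ (X_mem_RS (h hk))

theorem xs_mem_RS {τ : Finset ι} (h : τ ⊆ S) : xs τ ∈ RS S τ.card := by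
  classical
  induction τ using Finset.induction_on with
  | empty => simpa [xs] using one_mem_RS
  | insert k τ hk ih =>
    rw [xs, Finset.prod_insert hk, Finset.card_insert_of_notMem hk, add_comm]
    exact mul_mem_RS (X_mem_RS (h (Finset.mem_insert_self _ _)))
      (ih ((Finset.subset_insert _ _).trans h))

theorem RS_mono (h : S ⊆ S') (i : ℕ) : RS S i ≤ RS S' i :=
  pow_le_pow_left' (span_mono (Set.image_mono (by exact_mod_cast h))) i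

theorem RS_le_HS (i : ℕ) : RS S i ≤ HS ι i := by
  rw [HS, ← homogeneousSubmodule_one_pow, homogeneousSubmodule_one_eq_span_X]
  exact pow_le_pow_left' (span_mono (Set.image_subset_range _ _)) i

/-- Induction principle: a submodule containing all `X k * f` contains `RS S (i + 1)`. -/
theorem RS_succ_le {i : ℕ} {W : Submodule ℝ (PR ι)}
    (h : ∀ k ∈ S, ∀ f ∈ RS S i, X k * f ∈ W) : RS S (i + 1) ≤ W := by
  rw [RS, pow_succ', Submodule.mul_le]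
  intro m hm f hf
  induction hm using span_induction with
  | mem x hx => obtain ⟨k, hk, rfl⟩ := hx; exact h k hk f hf
  | zero => simp
  | add x y _ _ hx hy => rw [add_mul]; exact W.add_mem hx hy
  | smul c x _ hx => rw [smul_mul_assoc]; exact W.smul_mem c hx

theorem mem_ann_of_HS {φ : PR ι →ₗ[ℝ] ℝ} {x : PR ι}
    (h : ∀ j, ∀ y ∈ HS ι j, φ (x * y) = 0) : x ∈ ann φ := by
  intro y
  rw [← sum_homogeneousComponent y, Finset.mul_sum, map_sum]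
  exact Finset.sum_eq_zero fun j _ => h j _ (homogeneousComponent_isHomogeneous j y)

end RS

/-- A simplicial fan, given by vertices `S` (ghost vertices allowed), linear forms `Θ`, facets `K`
and dimension `n`. -/
@[ext] structure Fan (ι : Type) where
  S : Finset ι
  Θ : Submodule ℝ (ι → ℝ)
  K : Finset (Finset ι)
  n : ℕ

namespace Fan

variable {ι : Type} [DecidableEq ι] (F : Fan ι)

/-- Complete simplicial fan axioms. -/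
structure Good : Prop where
  ne : F.K.Nonempty
  sub : ∀ σ ∈ F.K, σ ⊆ F.S
  card : ∀ σ ∈ F.K, σ.card = F.n
  inj : ∀ σ ∈ F.K, ∀ θ ∈ F.Θ, (∀ k ∈ σ, θ k = 0) → θ = 0
  surj : ∀ σ ∈ F.K, ∀ c : ι → ℝ, ∃ θ ∈ F.Θ, ∀ k ∈ σ, θ k = c k
  nbr : ∀ σ ∈ F.K, ∀ k ∈ σ, ∃ σ' ∈ F.K, k ∉ σ' ∧ σ.erase k ⊆ σ'

/-- Strictly convex piecewise linear functions. -/
def Ample (b : ι → ℝ) : Prop :=
  ∀ σ ∈ F.K, ∀ θ ∈ F.Θ, (∀ k ∈ σ, θ k = b k) → ∀ j ∈ F.S, j ∉ σ → θ j < b j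

/-- Volume forms. -/
structure IsVol (φ : PR ι →ₗ[ℝ] ℝ) : Prop where
  deg : ∀ i, i ≠ F.n → ∀ x ∈ HS ι i, φ x = 0
  theta : ∀ θ ∈ F.Θ, lin F.S θ ∈ ann φ
  nonface : ∀ τ : Finset ι, (∀ σ ∈ F.K, ¬ τ ⊆ σ) → xs τ ∈ ann φ
  pos : ∀ σ ∈ F.K, 0 < φ (xs σ)

/-- The degree `i` part of the ideal generated by the linear forms and the nonfaces. -/
noncomputable def J (i : ℕ) : Submodule ℝ (PR ι) :=
  span ℝ {x | ∃ θ ∈ F.Θ, ∃ j, ∃ f ∈ RS F.S j, j + 1 = i ∧ x = lin F.S θ * f} ⊔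
    span ℝ {x | ∃ τ ⊆ F.S, (∀ σ ∈ F.K, ¬ τ ⊆ σ) ∧ ∃ j, ∃ f ∈ RS F.S j, τ.card + j = i ∧
      x = xs τ * f}

/-- All faces. -/
def faces : Finset (Finset ι) := F.K.biUnion Finset.powerset

/-- Hodge-Riemann for every ample class. -/
def NumF : Prop :=
  ∀ b, F.Ample b → ∀ φ, F.IsVol φ → Num φ (RS F.S) (lin F.S b) F.n

/-- The linear form agreeing with `c` on `σ`. -/
noncomputable def lift (σ : Finset ι) (c : ι → ℝ) : ι → ℝ :=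
  open Classical in if h : ∃ θ ∈ F.Θ, ∀ k ∈ σ, θ k = c k then h.choose else 0

/-- Dual basis of a facet. -/
noncomputable def eta (σ : Finset ι) (k : ι) : ι → ℝ := F.lift σ (Pi.single k 1)

/-- Generic linear functionals. -/
structure Gen (b : ι → ℝ) (ξ : (ι → ℝ) →ₗ[ℝ] ℝ) : Prop where
  edge : ∀ σ ∈ F.K, ∀ k ∈ σ, ξ (F.eta σ k) ≠ 0
  vtx : ∀ σ ∈ F.K, ∀ σ' ∈ F.K, σ ≠ σ' → ξ (F.lift σ b) ≠ ξ (F.lift σ' b)

/-- Descending edges. -/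
noncomputable def Rset (ξ : (ι → ℝ) →ₗ[ℝ] ℝ) (σ : Finset ι) : Finset ι :=
  σ.filter fun k => 0 < ξ (F.eta σ k)

/-- The linear map replacing the coordinate `e` by `∑ j ∈ τ, lam j * θ j`. -/
def updL (τ : Finset ι) (lam : ι → ℝ) (e : ι) : (ι → ℝ) →ₗ[ℝ] (ι → ℝ) where
  toFun := fun θ => Function.update θ e (∑ j ∈ τ, lam j * θ j)
  map_add' := fun θ θ' => by
    ext k
    by_cases h : k = e
    · simp [h, mul_add, Finset.sum_add_distrib]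
    · simp [h]
  map_smul' := fun c θ => by
    ext k
    by_cases h : k = e
    · simp [h, Finset.mul_sum, mul_left_comm]
    · simp [h]

/-- Stellar subdivision of the face `τ` with new vertex `e`. -/
def stellar (τ : Finset ι) (lam : ι → ℝ) (e : ι) : Fan ι where
  S := insert e F.S
  Θ := F.Θ.map (updL τ lam e)
  K := F.K.filter (fun σ => ¬ τ ⊆ σ) ∪
    (F.K.filter fun σ => τ ⊆ σ).biUnion fun σ => τ.image fun j => insert e (σ.erase j)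
  n := F.n

variable {F}

omit [DecidableEq ι] in
theorem IsVol.gr {φ : PR ι →ₗ[ℝ] ℝ} (h : F.IsVol φ) : Gr φ (HS ι) F.n :=
  ⟨isHomogeneous_one ι ℝ, fun hx hy => IsHomogeneous.mul hx hy, h.deg⟩

omit [DecidableEq ι] in
theorem IsVol.high {φ : PR ι →ₗ[ℝ] ℝ} (h : F.IsVol φ) {i : ℕ} (hi : F.n < i) {x : PR ι}
    (hx : x ∈ HS ι i) : x ∈ ann φ :=
  mem_ann_of_HS fun j _ hy => h.deg (i + j) (by omega) _ (IsHomogeneous.mul hx hy)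

omit [DecidableEq ι] in
theorem IsVol.J_le {φ : PR ι →ₗ[ℝ] ℝ} (h : F.IsVol φ) (i : ℕ) : F.J i ≤ ann φ := by
  refine sup_le (span_le.2 ?_) (span_le.2 ?_)
  · rintro _ ⟨θ, hθ, j, f, -, -, rfl⟩
    exact ann_mul_right (h.theta θ hθ) f
  · rintro _ ⟨τ, -, hτ, j, f, -, -, rfl⟩
    exact ann_mul_right (h.nonface τ hτ) f

namespace Good

variable (h : F.Good)
include h

theorem lift_mem {σ : Finset ι} (hσ : σ ∈ F.K) (c : ι → ℝ) : F.lift σ c ∈ F.Θ := by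
  rw [lift, dif_pos (h.surj σ hσ c)]
  exact (h.surj σ hσ c).choose_spec.1

theorem lift_eq {σ : Finset ι} (hσ : σ ∈ F.K) (c : ι → ℝ) {k : ι} (hk : k ∈ σ) :
    F.lift σ c k = c k := by
  rw [lift, dif_pos (h.surj σ hσ c)]
  exact (h.surj σ hσ c).choose_spec.2 k hk

theorem eta_mem {σ : Finset ι} (hσ : σ ∈ F.K) (k : ι) : F.eta σ k ∈ F.Θ := h.lift_mem hσ _

theorem eta_self {σ : Finset ι} (hσ : σ ∈ F.K) {k : ι} (hk : k ∈ σ) : F.eta σ k k = 1 := by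
  rw [eta, h.lift_eq hσ _ hk, Pi.single_eq_same]

theorem eta_ne {σ : Finset ι} (hσ : σ ∈ F.K) {k j : ι} (hj : j ∈ σ) (hjk : j ≠ k) :
    F.eta σ k j = 0 := by
  rw [eta, h.lift_eq hσ _ hj, Pi.single_eq_of_ne hjk]

theorem ext {σ : Finset ι} (hσ : σ ∈ F.K) {θ θ' : ι → ℝ} (h1 : θ ∈ F.Θ) (h2 : θ' ∈ F.Θ)
    (h3 : ∀ k ∈ σ, θ k = θ' k) : θ = θ' :=
  sub_eq_zero.1 (h.inj σ hσ _ (F.Θ.sub_mem h1 h2) fun k hk => by simp [h3 k hk])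

theorem eq_sum {σ : Finset ι} (hσ : σ ∈ F.K) {θ : ι → ℝ} (h1 : θ ∈ F.Θ) :
    θ = ∑ k ∈ σ, θ k • F.eta σ k := by
  refine h.ext hσ h1 (Submodule.sum_mem _ fun k _ => F.Θ.smul_mem _ (h.eta_mem hσ k))
    fun j hj => ?_
  rw [Finset.sum_apply, Finset.sum_eq_single j]
  · simp [h.eta_self hσ hj]
  · intro k _ hk; simp [h.eta_ne hσ hj hk.symm]
  · intro h; exact absurd hj h

theorem lift_lt {b : ι → ℝ} (hb : F.Ample b) {σ : Finset ι} (hσ : σ ∈ F.K) {j : ι} (hj : j ∈ F.S)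
    (hjσ : j ∉ σ) : F.lift σ b j < b j :=
  hb σ hσ _ (h.lift_mem hσ b) (fun _ hk => h.lift_eq hσ b hk) j hj hjσ

/-- Geometry of neighbouring facets. -/
theorem nbr_geo {b : ι → ℝ} (hb : F.Ample b) {σ σ' : Finset ι} (hσ : σ ∈ F.K) (hσ' : σ' ∈ F.K)
    {k : ι} (hk : k ∈ σ) (hk' : k ∉ σ') (hs : σ.erase k ⊆ σ') :
    ∃ k', k' ∉ σ ∧ σ' = insert k' (σ.erase k) ∧ F.eta σ k k' < 0 ∧
      ∃ s : ℝ, 0 < s ∧ F.lift σ' b = F.lift σ b - s • F.eta σ k := by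
  have hc : (σ.erase k).card + 1 = σ'.card := by
    rw [Finset.card_erase_add_one hk, h.card σ hσ, h.card σ' hσ']
  obtain ⟨k', hk1, hk2⟩ := Finset.exists_eq_insert_iff.2 ⟨hs, hc⟩
  have hk3 : k' ∈ σ' := hk2 ▸ Finset.mem_insert_self _ _
  have hk4 : k' ∉ σ := fun h' => hk1 (Finset.mem_erase.2 ⟨fun e => hk' (e ▸ hk3), h'⟩)
  have hs0 : 0 < b k - F.lift σ' b k := sub_pos.2 (h.lift_lt hb hσ' (h.sub σ hσ hk) hk')
  have e : F.lift σ' b = F.lift σ b - (b k - F.lift σ' b k) • F.eta σ k := by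
    refine h.ext hσ (h.lift_mem hσ' b) (F.Θ.sub_mem (h.lift_mem hσ b)
      (F.Θ.smul_mem _ (h.eta_mem hσ k))) fun j hj => ?_
    by_cases hjk : j = k
    · subst hjk; simp [h.eta_self hσ hj, h.lift_eq hσ b hj]
    · simp [h.eta_ne hσ hj hjk, h.lift_eq hσ b hj,
        h.lift_eq hσ' b (hs (Finset.mem_erase.2 ⟨hjk, hj⟩))]
  refine ⟨k', hk4, hk2.symm, ?_, _, hs0, e⟩
  have e1 := congrFun e k'
  have e2 := h.lift_lt hb hσ (h.sub σ' hσ' hk3) hk4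
  rw [h.lift_eq hσ' b hk3] at e1
  simp only [Pi.sub_apply, Pi.smul_apply, smul_eq_mul] at e1
  by_contra hn
  nlinarith [mul_nonneg hs0.le (not_lt.1 hn)]

theorem nbr_uniq {b : ι → ℝ} (hb : F.Ample b) {σ σ' σ'' : Finset ι} (hσ : σ ∈ F.K)
    (hσ' : σ' ∈ F.K) (hσ'' : σ'' ∈ F.K) {k : ι} (hk : k ∈ σ) (hk' : k ∉ σ') (hs : σ.erase k ⊆ σ')
    (hk'' : k ∉ σ'') (hs' : σ.erase k ⊆ σ'') : σ' = σ'' := by
  obtain ⟨j, hj1, hj2, hj3, s, -, hs1⟩ := h.nbr_geo hb hσ hσ' hk hk' hs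
  obtain ⟨l, hl1, hl2, hl3, t, -, ht1⟩ := h.nbr_geo hb hσ hσ'' hk hk'' hs'
  by_cases hjl : j = l
  · rw [hj2, hl2, hjl]
  exfalso
  have hj : j ∈ σ' := hj2 ▸ Finset.mem_insert_self _ _
  have hl : l ∈ σ'' := hl2 ▸ Finset.mem_insert_self _ _
  have a1 := h.lift_lt hb hσ' (h.sub _ hσ'' hl) (j := l) (by
    rw [hj2, Finset.mem_insert, Finset.mem_erase]; tauto)
  have a2 := h.lift_lt hb hσ'' (h.sub _ hσ' hj) (j := j) (by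
    rw [hl2, Finset.mem_insert, Finset.mem_erase]; tauto)
  rw [← h.lift_eq hσ'' b hl, hs1, ht1] at a1
  rw [← h.lift_eq hσ' b hj, hs1, ht1] at a2
  simp only [Pi.sub_apply, Pi.smul_apply, smul_eq_mul] at a1 a2
  nlinarith

theorem lift_ne {b : ι → ℝ} (hb : F.Ample b) {σ σ' : Finset ι} (hσ : σ ∈ F.K) (hσ' : σ' ∈ F.K)
    (hne : σ ≠ σ') : F.lift σ b ≠ F.lift σ' b := by
  have : ¬ σ ⊆ σ' := fun hs => hne (Finset.eq_of_subset_of_card_le hs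
    (by rw [h.card σ hσ, h.card σ' hσ']))
  obtain ⟨k, hk, hk'⟩ := Finset.not_subset.1 this
  intro e
  have := h.lift_lt hb hσ' (h.sub σ hσ hk) hk'
  rw [← e, h.lift_eq hσ b hk] at this
  exact lt_irrefl _ this

theorem exists_gen {b : ι → ℝ} (hb : F.Ample b) : ∃ ξ, F.Gen b ξ := by
  let I := {p : Finset ι × ι // p ∈ F.K.biUnion fun σ => σ.image fun k => (σ, k)} ⊕
    {p : Finset ι × Finset ι // p ∈ F.K.offDiag}
  let v : I → ι → ℝ := Sum.elim (fun p => F.eta p.1.1 p.1.2)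
    fun p => F.lift p.1.1 b - F.lift p.1.2 b
  obtain ⟨ξ, hξ⟩ := Module.exists_dual_forall_apply_ne_zero (K := ℝ) v (by
    rintro (⟨⟨σ, k⟩, hp⟩ | ⟨⟨σ, σ'⟩, hp⟩)
    · simp only [Finset.mem_biUnion, Finset.mem_image, Prod.mk.injEq] at hp
      obtain ⟨σ, hσ, k, hk, rfl, rfl⟩ := hp
      intro e
      have := congrFun e k
      simp [v, h.eta_self hσ hk] at this
    · rw [Finset.mem_offDiag] at hp
      exact sub_ne_zero.2 (h.lift_ne hb hp.1 hp.2.1 hp.2.2))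
  refine ⟨ξ, fun σ hσ k hk => hξ (Sum.inl ⟨(σ, k), ?_⟩), fun σ hσ σ' hσ' hne => ?_⟩
  · exact Finset.mem_biUnion.2 ⟨σ, hσ, Finset.mem_image.2 ⟨k, hk, rfl⟩⟩
  · have := hξ (Sum.inr ⟨(σ, σ'), Finset.mem_offDiag.2 ⟨hσ, hσ', hne⟩⟩)
    simpa [v, sub_eq_zero] using this

theorem min_lt {b : ι → ℝ} (hb : F.Ample b) {ξ : (ι → ℝ) →ₗ[ℝ] ℝ} (hξ : F.Gen b ξ)
    {σ σ' : Finset ι} (hσ : σ ∈ F.K) (hσ' : σ' ∈ F.K) (hR : F.Rset ξ σ ⊆ σ') (hne : σ ≠ σ') :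
    ξ (F.lift σ b) < ξ (F.lift σ' b) := by
  refine lt_of_le_of_ne ?_ (hξ.vtx σ hσ σ' hσ' hne)
  rw [← sub_nonneg, ← map_sub, h.eq_sum hσ (F.Θ.sub_mem (h.lift_mem hσ' b) (h.lift_mem hσ b)),
    map_sum]
  refine Finset.sum_nonneg fun k hk => ?_
  rw [map_smul, smul_eq_mul, Pi.sub_apply, h.lift_eq hσ b hk]
  by_cases hk' : k ∈ σ'
  · simp [h.lift_eq hσ' b hk']
  · have a1 := h.lift_lt hb hσ' (h.sub σ hσ hk) hk'
    have a2 : ξ (F.eta σ k) ≤ 0 := not_lt.1 fun h0 => hk' (hR (Finset.mem_filter.2 ⟨hk, h0⟩))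
    nlinarith

theorem exists_min {b : ι → ℝ} (hb : F.Ample b) (ξ : (ι → ℝ) →ₗ[ℝ] ℝ) {τ σ0 : Finset ι}
    (hσ0 : σ0 ∈ F.K) (hτ : τ ⊆ σ0) : ∃ σ ∈ F.K, F.Rset ξ σ ⊆ τ ∧ τ ⊆ σ := by
  obtain ⟨σ, hσ, hmin⟩ := Finset.exists_min_image (F.K.filter fun σ => τ ⊆ σ)
    (fun σ => ξ (F.lift σ b)) ⟨σ0, Finset.mem_filter.2 ⟨hσ0, hτ⟩⟩
  rw [Finset.mem_filter] at hσ
  refine ⟨σ, hσ.1, fun k hk => ?_, hσ.2⟩
  by_contra hkτ
  rw [Rset, Finset.mem_filter] at hk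
  obtain ⟨σ', hσ', h1, h2⟩ := h.nbr σ hσ.1 k hk.1
  obtain ⟨-, -, -, -, s, hs, e⟩ := h.nbr_geo hb hσ.1 hσ' hk.1 h1 h2
  have := hmin σ' (Finset.mem_filter.2 ⟨hσ', fun j hj => h2 (Finset.mem_erase.2
    ⟨fun e => hkτ (e ▸ hj), hσ.2 hj⟩)⟩)
  rw [e, map_sub, map_smul, smul_eq_mul] at this
  nlinarith [mul_pos hs hk.2]

end Good

theorem Gen.neg {b : ι → ℝ} {ξ : (ι → ℝ) →ₗ[ℝ] ℝ} (h : F.Gen b ξ) : F.Gen b (-ξ) :=
  ⟨fun σ hσ k hk => by simpa using h.edge σ hσ k hk,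
    fun σ hσ σ' hσ' hne => by simpa using h.vtx σ hσ σ' hσ' hne⟩

theorem Gen.Rset_neg {b : ι → ℝ} {ξ : (ι → ℝ) →ₗ[ℝ] ℝ} (h : F.Gen b ξ) {σ : Finset ι}
    (hσ : σ ∈ F.K) : F.Rset (-ξ) σ = σ \ F.Rset ξ σ := by
  ext k
  simp only [Rset, Finset.mem_filter, Finset.mem_sdiff, LinearMap.neg_apply, Left.neg_pos_iff]
  refine ⟨fun h1 => ⟨h1.1, fun h2 => by linarith [h1.2, h2.2]⟩, fun h1 => ⟨h1.1, ?_⟩⟩
  exact lt_of_le_of_ne (not_lt.1 fun h2 => h1.2 ⟨h1.1, h2⟩) (h.edge σ hσ k h1.1)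

end Fan

/-- The star of the vertex `e` is a bundle with fibre `F1` and base `F2`. -/
structure Bundle {ι : Type} [DecidableEq ι] (F F1 F2 : Fan ι) (e : ι) : Prop where
  he : e ∈ F.S
  s1 : F1.S ⊆ F.S
  s2 : F2.S ⊆ F.S
  e1 : e ∉ F1.S
  e2 : e ∉ F2.S
  disj : Disjoint F1.S F2.S
  dim : F.n = F1.n + F2.n + 1
  fac : ∀ σ, (σ ∈ F.K ∧ e ∈ σ) ↔ ∃ σ1 ∈ F1.K, ∃ σ2 ∈ F2.K, σ = insert e (σ1 ∪ σ2)
  B1 : ∀ θ2 ∈ F2.Θ, ∃ θ ∈ F.Θ, θ e = 0 ∧ (∀ j ∈ F1.S, θ j = 0) ∧ ∀ j ∈ F2.S, θ j = θ2 j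
  B2 : ∀ θ1 ∈ F1.Θ, ∃ θ ∈ F.Θ, θ e = 0 ∧ ∀ j ∈ F1.S, θ j = θ1 j

/-- Elements of total degree `i` and fibre degree less than `j`. -/
noncomputable def Fil {ι : Type} (S1 S2 : Finset ι) (j i : ℕ) : Submodule ℝ (PR ι) :=
  span ℝ {x | ∃ p q, ∃ α ∈ RS S1 p, ∃ β ∈ RS S2 q, p < j ∧ p + q = i ∧ x = α * β}

/-- Conclusions of the bundle lemma. -/
structure BundleOut {ι : Type} (F F1 F2 : Fan ι) (e : ι) (φ φ1 φ2 : PR ι →ₗ[ℝ] ℝ) (c : ℝ) :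
    Prop where
  hc : 0 < c
  E0 : ∀ j, j ≠ e → j ∉ F1.S → j ∉ F2.S → X e * X j ∈ ann φ
  E1 : ∀ p q, ∀ α ∈ RS F1.S p, ∀ β ∈ RS F2.S q, p < F1.n → φ (X e * α * β) = 0
  E2 : ∀ q, ∀ α ∈ RS F1.S F1.n, ∀ β ∈ RS F2.S q, φ (X e * α * β) = c * φ1 α * φ2 β
  E3 : ∀ q, ∀ β ∈ RS F2.S q, β ∈ ann φ2 → X e * β ∈ ann φ
  E4 : ∀ p, ∀ α ∈ RS F1.S p, α ∈ ann φ1 → ∃ γ ∈ Fil F1.S F2.S p p, X e * (α - γ) ∈ ann φ
  E5 : ∀ i, ∀ x ∈ RS F.S i, ∃ γ ∈ Fil F1.S F2.S (F1.n + 1) i, X e * (x - γ) ∈ ann φ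

/-- Decomposition data of the fibre. -/
structure FibData {ι : Type} (φ1 : PR ι →ₗ[ℝ] ℝ) (S1 : Finset ι) (n1 : ℕ) (L1 : PR ι)
    {S I : Type} [DecidableEq I] (a : S → ℕ) (p : S → PR ι) (d : I → ℕ) (ν ν' : I → PR ι) :
    Prop where
  Lmem : L1 ∈ RS S1 1
  pmem : ∀ s, p s ∈ RS S1 (a s)
  deg : ∀ s, 2 * a s ≤ n1
  val : ∀ s, φ1 (p s * p s * L1 ^ (n1 - 2 * a s)) = (-1) ^ a s
  orth : ∀ s t m, s ≠ t → φ1 (p s * p t * L1 ^ m) = 0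
  top : ∀ s, L1 ^ (n1 - 2 * a s + 1) * p s ∈ ann φ1
  dle : ∀ i, d i ≤ n1
  νmem : ∀ i, ν i ∈ RS S1 (d i)
  νmem' : ∀ i, ν' i ∈ RS S1 (n1 - d i)
  dual : ∀ i j, φ1 (ν i * ν' j) = if i = j then 1 else 0
  pν : ∀ s u i, φ1 (L1 ^ u * p s * ν i) = 0
  pν' : ∀ s u i, φ1 (L1 ^ u * p s * ν' i) = 0
  span : ∀ k, RS S1 k ≤ span ℝ {x | ∃ s u, a s + u = k ∧ x = L1 ^ u * p s} ⊔
    span ℝ (ν' '' {i | n1 - d i = k}) ⊔ ann φ1

/-- McMullen's theorem in dimension `n`. -/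
def McM (ι : Type) [DecidableEq ι] (n : ℕ) : Prop := ∀ F : Fan ι, F.n = n → F.Good → F.NumF

/-- Package FanVol. -/
def FanVolStmt : Prop :=
  ∀ {ι : Type} [DecidableEq ι] {F : Fan ι} {b : ι → ℝ}, F.Good → F.Ample b → ∃ φ, F.IsVol φ

/-- Package FanJ. -/
structure FanJLib : Prop where
  memJ : ∀ {ι : Type} [DecidableEq ι] {F : Fan ι} {b : ι → ℝ} {φ : PR ι →ₗ[ℝ] ℝ}, F.Good →
    F.Ample b → F.IsVol φ → ∀ i, ∀ x ∈ RS F.S i, x ∈ ann φ → x ∈ F.J i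
  gsub : ∀ {ι : Type} [DecidableEq ι] {F : Fan ι} {b : ι → ℝ} {φ : PR ι →ₗ[ℝ] ℝ}, F.Good →
    F.Ample b → F.IsVol φ → GSub φ (HS ι) (RS F.S)
  uniq : ∀ {ι : Type} [DecidableEq ι] {F : Fan ι} {b : ι → ℝ} {φ : PR ι →ₗ[ℝ] ℝ}, F.Good →
    F.Ample b → F.IsVol φ → ∀ lam : PR ι →ₗ[ℝ] ℝ, (∀ i, i ≠ F.n → ∀ x ∈ HS ι i, lam x = 0) →
    (∀ θ ∈ F.Θ, lin F.S θ ∈ ann lam) → (∀ τ : Finset ι, (∀ σ ∈ F.K, ¬ τ ⊆ σ) → xs τ ∈ ann lam) →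
    ∃ c : ℝ, ∀ x, lam x = c * φ x
  fh : ∀ {ι : Type} [DecidableEq ι] {F : Fan ι} {b : ι → ℝ} {φ : PR ι →ₗ[ℝ] ℝ}, F.Good →
    F.Ample b → F.IsVol φ → ∃ (d : F.K → ℕ) (f g : F.K → PR ι), DualFam φ (RS F.S) F.n d f g ∧
      ∑ i, (Polynomial.X : Polynomial ℝ) ^ d i =
        ∑ τ ∈ F.faces, (Polynomial.X - 1) ^ (F.n - τ.card)

/-- Package Simplex. -/
def SimplexStmt : Prop :=
  ∀ {ι : Type} [DecidableEq ι] {F : Fan ι} {b0 : ι → ℝ} {φ : PR ι →ₗ[ℝ] ℝ} {τ : Finset ι} {j0 : ι},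
    F.Good → F.Ample b0 → F.IsVol φ → τ ⊆ F.S → F.K = τ.image τ.erase → j0 ∈ τ →
    (∀ i, RS F.S i ≤ span ℝ {X j0 ^ i} ⊔ ann φ) ∧ 0 < φ (X j0 ^ F.n) ∧ F.NumF

/-- Package Bundle. -/
def BundleStmt : Prop :=
  ∀ {ι : Type} [DecidableEq ι] {F F1 F2 : Fan ι} {e : ι} {b1 b2 : ι → ℝ}
    {φ φ1 φ2 : PR ι →ₗ[ℝ] ℝ}, Bundle F F1 F2 e → F.Good → F1.Good → F2.Good → F1.Ample b1 →
    F2.Ample b2 → F.IsVol φ → F1.IsVol φ1 → F2.IsVol φ2 → ∃ c, BundleOut F F1 F2 e φ φ1 φ2 c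

/-- Package GS: filtered Gram-Schmidt. -/
def GSStmt : Prop :=
  ∀ {ι : Type} [DecidableEq ι] {F F1 F2 : Fan ι} {e : ι} {φ φ1 φ2 : PR ι →ₗ[ℝ] ℝ} {c : ℝ}
    {I : Type} [Fintype I] [DecidableEq I] {d : I → ℕ} {ν ν' : I → PR ι},
    BundleOut F F1 F2 e φ φ1 φ2 c → F1.IsVol φ1 → F2.IsVol φ2 → GSub φ2 (HS ι) (RS F2.S) →
    F.IsVol φ → F.n = F1.n + F2.n + 1 →
    (∀ i, d i ≤ F1.n) → (∀ i, ν i ∈ RS F1.S (d i)) → (∀ i, ν' i ∈ RS F1.S (F1.n - d i)) →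
    (∀ i j, φ1 (ν i * ν' j) = if i = j then 1 else 0) →
    ∀ f, ∀ h ∈ RS F1.S f, (∀ i, φ1 (h * ν i) = 0) →
      ∃ h', h' - h ∈ span ℝ {x | ∃ i q, ∃ γ ∈ RS F2.S q, 1 ≤ q ∧ F1.n - d i + q = f ∧
          x = ν' i * γ} ∧
        ∀ i q, ∀ β ∈ RS F2.S q, φ (X e * h' * ν i * β) = 0

/-- Package Fib: the blow-up lemma for a bundle. -/
def FibStmt : Prop :=
  ∀ {ι : Type} [DecidableEq ι] {F F1 F2 : Fan ι} {e : ι} {φ φ1 φ2 : PR ι →ₗ[ℝ] ℝ} {c : ℝ}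
    {S I : Type} [Fintype S] [Fintype I] [DecidableEq I] {L1 β0 ℓ ℓ2 : PR ι} {a : S → ℕ}
    {p : S → PR ι} {d : I → ℕ} {ν ν' : I → PR ι} {V : ℕ → Submodule ℝ (PR ι)},
    Bundle F F1 F2 e → BundleOut F F1 F2 e φ φ1 φ2 c → F.IsVol φ → F1.IsVol φ1 → F2.IsVol φ2 →
    GSub φ2 (HS ι) (RS F2.S) → FibData φ1 F1.S F1.n L1 a p d ν ν' →
    β0 ∈ RS F2.S 1 → X e * (X e + L1 - β0) ∈ ann φ →
    ℓ ∈ HS ι 1 → ℓ2 ∈ RS F2.S 1 → X e * (ℓ - ℓ2) ∈ ann φ → Num φ2 (RS F2.S) ℓ2 F2.n →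
    GSub φ (HS ι) V → (∀ i, V i ≤ RS F.S i) → Stab V ℓ → Stab V (X e) →
    (∀ i, ∀ α ∈ V i, ∀ j q, ∀ β ∈ RS F2.S q, φ (α * (X e * ν j * β)) = 0) →
    (∀ i, ∀ α ∈ V i, ∀ j q, ∀ β ∈ RS F2.S q, φ (α * (X e * ν' j * β)) = 0) →
    (∀ i, ∀ γ ∈ Fil F1.S F2.S (i + 1) i, (∀ j q, ∀ β ∈ RS F2.S q, φ (X e * γ * ν j * β) = 0) →
      X e * γ ∈ V (i + 1)) →
    ∀ M : ℕ → Submodule ℝ (PR ι), (∀ i, M i = perp φ (V i) {x | ∃ s u q, ∃ β ∈ RS F2.S q,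
      2 * a s + u < F1.n ∧ x = X e * (L1 ^ u * p s) * β}) →
    GSub φ (HS ι) M ∧ Stab M ℓ ∧
      (Num φ M ℓ F.n ↔ ∀ᶠ t in 𝓝[>] (0 : ℝ), Num φ V (ℓ - t • X e) F.n)

/-- Package WL: weak Lefschetz and deformation. -/
def WLStmt : Prop :=
  ∀ {ι : Type} [DecidableEq ι] {F : Fan ι} {b0 b1 : ι → ℝ} {φ : PR ι →ₗ[ℝ] ℝ},
    (∀ m < F.n, McM ι m) → F.Good → F.IsVol φ → F.Ample b0 → F.Ample b1 →
    Num φ (RS F.S) (lin F.S b0) F.n → Num φ (RS F.S) (lin F.S b1) F.n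

/-- Package StGeo: geometry of stellar subdivisions. -/
def StGeoStmt : Prop :=
  ∀ {ι : Type} [DecidableEq ι] {F : Fan ι} {b lam : ι → ℝ} {τ : Finset ι} {e : ι},
    F.Good → F.Ample b → τ.Nonempty → (∃ σ ∈ F.K, τ ⊆ σ) → (∀ j ∈ τ, 0 < lam j) → e ∉ F.S →
    (F.stellar τ lam e).Good ∧
    (∀ᶠ t in 𝓝[>] (0 : ℝ), (F.stellar τ lam e).Ample
      (Function.update b e (∑ j ∈ τ, lam j * b j - t))) ∧
    ∃ F1 F2 : Fan ι, Bundle (F.stellar τ lam e) F1 F2 e ∧ F1.Good ∧ F2.Good ∧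
      F1.S = τ ∧ F1.K = τ.image τ.erase ∧ F1.Ample (fun _ => 1) ∧ F2.S = F.S \ τ ∧
      (∀ θ, θ ∈ F2.Θ ↔ θ ∈ F.Θ ∧ ∀ j ∈ τ, θ j = 0) ∧
      ∀ θ ∈ F.Θ, (∀ j ∈ τ, θ j = b j) → F2.Ample (b - θ)

/-- Package Stellar. -/
def StellarStmt : Prop :=
  ∀ {ι : Type} [DecidableEq ι] {F : Fan ι} {b lam : ι → ℝ} {τ : Finset ι} {e : ι},
    (∀ m < F.n, McM ι m) → F.Good → F.Ample b → τ.Nonempty → (∃ σ ∈ F.K, τ ⊆ σ) →
    (∀ j ∈ τ, 0 < lam j) → e ∉ F.S → (F.NumF ↔ (F.stellar τ lam e).NumF)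

/-- Package SweepGeo: every projective fan is connected to a simplex by flips. -/
def SweepStmt : Prop :=
  ∀ {ι : Type} [DecidableEq ι] [Infinite ι] (P : Fan ι → Prop) (n : ℕ),
    (∀ (F : Fan ι) (b : ι → ℝ) (τ : Finset ι), F.n = n → F.Good → F.Ample b → τ ⊆ F.S →
      τ.Nonempty → F.K = τ.image τ.erase → P F) →
    (∀ (F : Fan ι) (b lam : ι → ℝ) (τ : Finset ι) (e : ι), F.n = n → F.Good → F.Ample b →
      τ.Nonempty → (∃ σ ∈ F.K, τ ⊆ σ) → (∀ j ∈ τ, 0 < lam j) → e ∉ F.S →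
      (P F ↔ P (F.stellar τ lam e))) →
    ∀ (F : Fan ι) (b : ι → ℝ), F.n = n → F.Good → F.Ample b →
      ∃ (o : ι) (ξ : (ι → ℝ) →ₗ[ℝ] ℝ), o ∉ F.S ∧
        P ⟨insert o F.S, F.Θ.map (LinearMap.pi fun k => if k = o then ξ else LinearMap.proj k),
          F.K, F.n⟩

/-- Package McM: removal of the ghost vertex, induction, change of index type. -/
def McMStmt : Prop := ∀ (ι : Type) [DecidableEq ι] (n : ℕ), McM ι n

section Bary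

variable {L E : Type} [PartialOrder L] [Fintype L] [DecidableEq L] [AddCommGroup E] [Module ℝ E]

open Classical in
/-- The open interval. -/
noncomputable def ioo (σ τ : L) : Finset L := Finset.univ.filter fun z => σ < z ∧ z < τ

open Classical in
/-- The barycentric fan of an open interval. -/
noncomputable def bary (rk : L → ℕ) (W : L → Submodule ℝ E) (b : L → E) (σ τ : L) : Fan L where
  S := ioo σ τ
  Θ := span ℝ {θ | ∃ m : E →ₗ[ℝ] ℝ, (∀ v ∈ W σ, m v = 0) ∧ m (b τ) = 0 ∧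
    θ = fun z => if z ∈ ioo σ τ then m (b z) else 0}
  K := (ioo σ τ).powerset.filter fun c =>
    IsChain (· ≤ ·) (c : Set L) ∧ c.card = rk τ - rk σ - 1
  n := rk τ - rk σ - 1

/-- The `h`-polynomial of the barycentric fan. -/
noncomputable def Hb (rk : L → ℕ) (W : L → Submodule ℝ E) (b : L → E) (σ τ : L) : Polynomial ℝ :=
  ∑ c ∈ (bary rk W b σ τ).faces, (Polynomial.X - 1) ^ ((bary rk W b σ τ).n - c.card)

end Bary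

/-- Package BaryA: combinatorics and linear algebra of barycentric fans. -/
def BaryAStmt : Prop :=
  ∀ {L E : Type} [PartialOrder L] [Fintype L] [DecidableEq L] [AddCommGroup E] [Module ℝ E]
    [FiniteDimensional ℝ E] {rk : L → ℕ} {W : L → Submodule ℝ E} {b : L → E},
    Graded rk → ConeData rk W b →
    (∀ σ τ, σ < τ → (bary rk W b σ τ).Good) ∧
    (∀ σ e τ, σ < e → e < τ →
      Bundle (bary rk W b σ τ) (bary rk W b σ e) (bary rk W b e τ) e) ∧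
    ∀ σ τ, σ < τ → Hb rk W b σ τ = (Polynomial.X - 1) ^ (rk τ - rk σ - 1) +
      ∑ z ∈ ioo σ τ, Hb rk W b σ z * (Polynomial.X - 1) ^ (rk τ - rk z - 1)

/-- Package BaryB: ample classes on barycentric fans. -/
def BaryBStmt : Prop :=
  ∀ {L E : Type} [PartialOrder L] [Fintype L] [DecidableEq L] [AddCommGroup E] [Module ℝ E]
    [FiniteDimensional ℝ E] {rk : L → ℕ} {W : L → Submodule ℝ E} {b : L → E},
    Graded rk → ConeData rk W b → ∃ C : ℝ, 1 ≤ C ∧ ∀ σ τ, σ < τ → ∀ m0 : E →ₗ[ℝ] ℝ,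
      (∀ v ∈ W σ, m0 v = 0) → m0 (b τ) = 1 → ∀ ε : L → ℝ,
      (∀ z ∈ ioo σ τ, 0 < ε z ∧ C * ε z ≤ 1) →
      (∀ z ∈ ioo σ τ, ∀ w ∈ ioo σ τ, rk z < rk w → C * ε z ≤ ε w) →
      (bary rk W b σ τ).Ample fun z => m0 (b z) - ε z

end Pool.Agent.P.MP_cedf91_co
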