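import Pool.Agent.P.MP_cedf91_co.KDefs

/-! Package Lin: linear algebra of the forms `φ (w x y)` modulo the annihilator. -/

namespace Pool.Agent.P.MP_cedf91_co

open Submodule Filter Topology

namespace LinP

variable {R : Type} [CommRing R] [Algebra ℝ R] {φ : R →ₗ[ℝ] ℝ}

theorem mem_sup_iff {I : Type} [Fintype I] {f : I → R} {x : R} :
    x ∈ span ℝ (Set.range f) ⊔ ann φ ↔ ∃ c : I → ℝ, x - ∑ i, c i • f i ∈ ann φ := by
  constructor
  · intro h
    obtain ⟨y, hy, z, hz, rfl⟩ := mem_sup.mp h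
    obtain ⟨c, rfl⟩ := (mem_span_range_iff_exists_fun ℝ).mp hy
    exact ⟨c, by simpa using hz⟩
  · rintro ⟨c, hc⟩
    refine mem_sup.mpr ⟨∑ i, c i • f i, (mem_span_range_iff_exists_fun ℝ).mpr ⟨c, rfl⟩, _, hc, ?_⟩
    abel

theorem congr_mul {x x' : R} (h : x - x' ∈ ann φ) (y : R) : φ (x * y) = φ (x' * y) := by
  have := h y
  rw [sub_mul, map_sub] at this
  linarith

theorem congr_right {x x' : R} (h : x - x' ∈ ann φ) (y : R) : φ (y * x) = φ (y * x') := by
  rw [mul_comm y x, mul_comm y x', congr_mul h]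

theorem congr_sq {x x' : R} (h : x - x' ∈ ann φ) (w : R) : φ (w * x ^ 2) = φ (w * x' ^ 2) := by
  have := h (w * (x + x'))
  have e : (x - x') * (w * (x + x')) = w * x ^ 2 - w * x' ^ 2 := by ring
  rw [e, map_sub] at this
  linarith

theorem sq_ann {x : R} (h : x ∈ ann φ) (w : R) : φ (w * x ^ 2) = 0 := by
  have := h (w * x)
  rwa [show x * (w * x) = w * x ^ 2 by ring] at this

theorem map_mul_sum {I : Type} [Fintype I] (y : R) (c : I → ℝ) (f : I → R) :
    φ (y * ∑ i, c i • f i) = ∑ i, c i * φ (y * f i) := by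
  simp [Finset.mul_sum, map_sum]

theorem map_sum_mul {I : Type} [Fintype I] (w y : R) (c : I → ℝ) (f : I → R) :
    φ (w * (∑ i, c i • f i) * y) = ∑ i, c i * φ (w * f i * y) := by
  simp [Finset.mul_sum, Finset.sum_mul, map_sum]

theorem map_sq_sum {I : Type} [Fintype I] (w : R) (c : I → ℝ) (f : I → R) :
    φ (w * (∑ i, c i • f i) ^ 2) = ∑ i, ∑ j, c i * c j * φ (w * f i * f j) := by
  rw [sq, ← mul_assoc, map_sum_mul]
  refine Finset.sum_congr rfl fun i _ => ?_
  rw [map_mul_sum, Finset.mul_sum]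
  exact Finset.sum_congr rfl fun j _ => by ring

theorem indep_card {U : Submodule ℝ R} {k : ℕ} {I : Type} [Fintype I] (v : I → R)
    (hU : SpanLe φ U k) (hv : ∀ i, v i ∈ U) (hi : ∀ c : I → ℝ, ∑ i, c i • v i ∈ ann φ → c = 0) :
    Fintype.card I ≤ k := by
  obtain ⟨f, hf⟩ := hU
  choose M hM using fun i => mem_sup_iff.mp (hf (hv i))
  have hl : LinearIndependent ℝ M := by
    rw [Fintype.linearIndependent_iff]
    intro c hc
    have h1 : ∑ i, c i • (v i - ∑ j, M i j • f j) ∈ ann φ :=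
      sum_mem fun i _ => smul_mem _ _ (hM i)
    have h2 : ∑ i, c i • ∑ j, M i j • f j = 0 := by
      simp only [Finset.smul_sum, smul_smul]
      rw [Finset.sum_comm]
      refine Finset.sum_eq_zero fun j _ => ?_
      rw [← Finset.sum_smul]
      have := congrFun hc j
      simp only [Finset.sum_apply, Pi.smul_apply, smul_eq_mul, Pi.zero_apply] at this
      rw [this, zero_smul]
    simp only [smul_sub, Finset.sum_sub_distrib, h2, sub_zero] at h1
    exact fun i => congrFun (hi c h1) i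
  simpa using hl.fintype_card_le_finrank

theorem exists_basis {U : Submodule ℝ R} {k : ℕ} (hU : SpanLe φ U k) :
    ∃ (m : ℕ) (f : Fin m → R), (∀ i, f i ∈ U) ∧
      (∀ c : Fin m → ℝ, ∑ i, c i • f i ∈ ann φ → c = 0) ∧ U ≤ span ℝ (Set.range f) ⊔ ann φ := by
  obtain ⟨g, hg⟩ := hU
  set W := U.map (ann φ).mkQ with hW
  have hle : W ≤ span ℝ (Set.range fun i => (ann φ).mkQ (g i)) := by
    rintro _ ⟨x, hx, rfl⟩
    obtain ⟨c, hc⟩ := mem_sup_iff.mp (hg hx)
    have : (ann φ).mkQ x = ∑ i, c i • (ann φ).mkQ (g i) := by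
      simp only [← map_smul, ← map_sum]
      exact (Submodule.Quotient.eq _).mpr hc
    rw [this]
    exact (mem_span_range_iff_exists_fun ℝ).mpr ⟨c, rfl⟩
  have : FiniteDimensional ℝ (span ℝ (Set.range fun i => (ann φ).mkQ (g i))) :=
    FiniteDimensional.span_of_finite ℝ (Set.finite_range _)
  have : FiniteDimensional ℝ W := finiteDimensional_of_le hle
  let b := Module.finBasis ℝ W
  have hb : ∀ i, ∃ x ∈ U, (ann φ).mkQ x = (b i : R ⧸ ann φ) := fun i => (b i).2
  choose f hfU hf using hb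
  have key : ∀ c : Fin (Module.finrank ℝ W) → ℝ,
      (ann φ).mkQ (∑ i, c i • f i) = ((∑ i, c i • b i : W) : R ⧸ ann φ) := fun c => by
    simp [map_sum, ← hf]
  refine ⟨_, f, hfU, fun c hc => ?_, fun x hx => ?_⟩
  · have h0 : (ann φ).mkQ (∑ i, c i • f i) = 0 := (Submodule.Quotient.mk_eq_zero _).mpr hc
    rw [key] at h0
    have h1 : (∑ i, c i • b i : W) = 0 := Subtype.ext h0
    exact funext (Fintype.linearIndependent_iff.mp b.linearIndependent c h1)
  · refine mem_sup_iff.mpr ⟨b.repr ⟨(ann φ).mkQ x, mem_map_of_mem hx⟩, ?_⟩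
    apply (Submodule.Quotient.eq _).mp
    have := key (b.repr ⟨(ann φ).mkQ x, mem_map_of_mem hx⟩)
    rw [b.sum_repr] at this
    exact this.symm

theorem triDual (φ : R →ₗ[ℝ] ℝ) {I : Type} [Fintype I] [DecidableEq I] (w cls : I → ℕ)
    (f g : I → R) (h1 : ∀ i j, i ≠ j → w i ≤ w j → φ (f i * g j) = 0)
    (h2 : ∀ i, φ (f i * g i) ≠ 0) (h3 : ∀ i j, cls i ≠ cls j → φ (f i * g j) = 0) :
    ∃ g' : I → R, (∀ j, g' j ∈ span ℝ (g '' {k | cls k = cls j})) ∧
      ∀ i j, φ (f i * g' j) = if i = j then 1 else 0 := by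
  let A : Matrix I I ℝ := Matrix.of fun i j => φ (f i * g j)
  have hinj : Function.Injective A.mulVecLin := by
    rw [← LinearMap.ker_eq_bot, LinearMap.ker_eq_bot']
    intro c hc
    by_contra hne
    have hs : (Finset.univ.filter fun i => c i ≠ 0).Nonempty := by
      obtain ⟨i, hi⟩ := Function.ne_iff.mp hne
      exact ⟨i, by simpa using hi⟩
    obtain ⟨i, hi, hmin⟩ := Finset.exists_min_image _ w hs
    have hi0 : c i ≠ 0 := by simpa using hi
    have h := congrFun hc i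
    simp only [Matrix.mulVecLin_apply, Matrix.mulVec, dotProduct, Pi.zero_apply, A,
      Matrix.of_apply] at h
    rw [Finset.sum_eq_single i] at h
    · exact (mul_ne_zero (h2 i) hi0) h
    · intro j _ hj
      by_cases hcj : c j = 0
      · rw [hcj, mul_zero]
      · rw [h1 i j (Ne.symm hj) (hmin j (by simpa using hcj)), zero_mul]
    · simp
  have hsurj := LinearMap.injective_iff_surjective.mp hinj
  choose b hb using fun j => hsurj (Pi.single j 1)
  refine ⟨fun j => ∑ k, (if cls k = cls j then b j k else 0) • g k, fun j => ?_, fun i j => ?_⟩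
  · refine sum_mem fun k _ => ?_
    split_ifs with hk
    · exact smul_mem _ _ (subset_span ⟨k, hk, rfl⟩)
    · simp
  · rw [map_mul_sum]
    by_cases hij : cls i = cls j
    · have h := congrFun (hb j) i
      simp only [Matrix.mulVecLin_apply, Matrix.mulVec, dotProduct, A, Matrix.of_apply,
        Pi.single_apply] at h
      rw [← h]
      refine Finset.sum_congr rfl fun k _ => ?_
      split_ifs with hk
      · ring
      · rw [h3 i k (by rw [hij]; exact Ne.symm hk)]; ring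
    · rw [if_neg (fun h => hij (by rw [h]))]
      refine Finset.sum_eq_zero fun k _ => ?_
      split_ifs with hk
      · rw [h3 i k (by rw [hk]; exact hij), mul_zero]
      · rw [zero_mul]

theorem spanOf {U : Submodule ℝ R} {I : Type} [Fintype I] (f : I → R)
    (h : U ≤ span ℝ (Set.range f) ⊔ ann φ) : SpanLe φ U (Fintype.card I) :=
  ⟨f ∘ (Fintype.equivFin I).symm, by
    rwa [(Fintype.equivFin I).symm.surjective.range_comp]⟩

theorem posOf {w : R} {U : Submodule ℝ R} {I : Type} [Fintype I] (v : I → R) (hv : ∀ i, v i ∈ U)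
    (h : ∀ c : I → ℝ, c ≠ 0 → 0 < φ (w * (∑ i, c i • v i) ^ 2)) :
    PosGe φ w U (Fintype.card I) := by
  refine ⟨v ∘ (Fintype.equivFin I).symm, fun i => hv _, fun c hc => ?_⟩
  have := h (c ∘ Fintype.equivFin I) fun h0 => hc (funext fun i => by
    simpa using congrFun h0 ((Fintype.equivFin I).symm i))
  rw [← Equiv.sum_comp (Fintype.equivFin I)]
  simpa using this

theorem spanMem {U : Submodule ℝ R} {k : ℕ} (hU : SpanLe φ U k) :
    ∃ f : Fin k → R, (∀ i, f i ∈ U) ∧ U ≤ span ℝ (Set.range f) ⊔ ann φ := by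
  obtain ⟨m, f, hfU, hi, hs⟩ := exists_basis hU
  have hm : m ≤ k := by simpa using indep_card f hU hfU hi
  refine ⟨fun i => if h : (i : ℕ) < m then f ⟨i, h⟩ else 0, fun i => ?_,
    hs.trans (sup_le_sup_right (span_mono ?_) _)⟩
  · dsimp only
    split_ifs
    · exact hfU _
    · exact U.zero_mem
  · rintro _ ⟨i, rfl⟩
    exact ⟨⟨i, lt_of_lt_of_le i.2 hm⟩, by simp⟩

theorem sylvSemi {w : R} {U : Submodule ℝ R} {k a : ℕ} {I : Type} [Fintype I] (v : I → R)
    (hU : SpanLe φ U k) (hp : PosGe φ w U a) (hv : ∀ i, v i ∈ U)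
    (hn : ∀ c : I → ℝ, φ (w * (∑ i, c i • v i) ^ 2) ≤ 0)
    (hi : ∀ c : I → ℝ, ∑ i, c i • v i ∈ ann φ → c = 0) : a + Fintype.card I ≤ k := by
  obtain ⟨u, hu, hpos⟩ := hp
  have := indep_card (Sum.elim u v) hU (fun i => by cases i <;> simp [hu, hv]) fun c hc => by
    rw [Fintype.sum_sum_type] at hc
    simp only [Sum.elim_inl, Sum.elim_inr] at hc
    have h1 : (fun i => c (Sum.inl i)) = 0 := by
      by_contra hne
      have h2 := hpos _ hne
      have h3 := congr_sq (x' := -∑ i, c (Sum.inr i) • v i) (by rwa [sub_neg_eq_add]) w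
      rw [neg_sq] at h3
      have h4 := hn fun i => c (Sum.inr i)
      linarith
    have h5 : ∑ i, c (Sum.inl i) • u i = 0 :=
      Finset.sum_eq_zero fun i _ => by rw [congrFun h1 i]; simp
    rw [h5, zero_add] at hc
    have h6 := hi _ hc
    funext i
    cases i with
    | inl i => exact congrFun h1 i
    | inr i => exact congrFun h6 i
  simpa using this

theorem neg_facts {w : R} {b : ℕ} {v : Fin b → R}
    (h : ∀ c : Fin b → ℝ, c ≠ 0 → 0 < φ (-w * (∑ i, c i • v i) ^ 2)) (c : Fin b → ℝ) :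
    φ (w * (∑ i, c i • v i) ^ 2) ≤ 0 ∧ (φ (w * (∑ i, c i • v i) ^ 2) = 0 → c = 0) := by
  by_cases hc : c = 0
  · subst hc; simp
  · have := h c hc
    rw [neg_mul, map_neg] at this
    exact ⟨by linarith, fun h0 => by linarith⟩

theorem sylv {w : R} {U : Submodule ℝ R} {k a b : ℕ} (hU : SpanLe φ U k) (hp : PosGe φ w U a)
    (hn : PosGe φ (-w) U b) : a + b ≤ k := by
  obtain ⟨v, hv, hneg⟩ := hn
  simpa using sylvSemi v hU hp hv (fun c => (neg_facts hneg c).1)
    fun c hc => (neg_facts hneg c).2 (sq_ann hc w)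

theorem sigNondeg {w : R} {U : Submodule ℝ R} {a b : ℕ} (h : Sig φ w U a b) : Nondeg φ w U := by
  obtain ⟨hU, hp, v, hv, hneg⟩ := h
  intro x hx hrad
  by_contra hxa
  have key : ∀ c : Option (Fin b) → ℝ, φ (w * (∑ i, c i • i.elim x v) ^ 2)
      = φ (w * (∑ i, c (some i) • v i) ^ 2) := fun c => by
    rw [Fintype.sum_option]
    simp only [Option.elim_none, Option.elim_some]
    set y := ∑ i, c (some i) • v i
    have hy : y ∈ U := sum_mem fun i _ => smul_mem _ _ (hv i)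
    have e : w * (c none • x + y) ^ 2
        = (c none * c none) • (w * x * x) + (2 * c none) • (w * x * y) + w * y ^ 2 := by
      simp only [Algebra.smul_def, map_mul, map_ofNat]; ring
    rw [e, map_add, map_add, map_smul, map_smul, hrad x hx, hrad y hy]; simp
  have := sylvSemi (fun i : Option (Fin b) => i.elim x v) hU hp
    (fun i => by cases i <;> simp [hx, hv])
    (fun c => by rw [key]; exact (neg_facts hneg _).1) fun c hc => by
      have h1 := (neg_facts hneg fun i => c (some i)).2 (by rw [← key]; exact sq_ann hc w)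
      rw [Fintype.sum_option] at hc
      have h2 : ∑ i, c (some i) • (some i : Option (Fin b)).elim x v = 0 :=
        Finset.sum_eq_zero fun i _ => by rw [congrFun h1 i]; simp
      rw [h2, add_zero] at hc
      have h3 : c none = 0 := by
        by_contra h0
        exact hxa ((smul_mem_iff _ h0).mp hc)
      funext i
      cases i with
      | none => exact h3
      | some i => exact congrFun h1 i
  simp at this

theorem diag {w : R} {U : Submodule ℝ R} {k : ℕ} (hU : SpanLe φ U k) (hN : Nondeg φ w U) :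
    ∃ (m : ℕ) (f : Fin m → R), (∀ i, f i ∈ U) ∧
      (∀ i j, i ≠ j → φ (w * f i * f j) = 0) ∧ (∀ i, φ (w * f i * f i) ≠ 0) ∧
      U ≤ span ℝ (Set.range f) ⊔ ann φ := by
  obtain ⟨m, f, hfU, hi, hs⟩ := exists_basis hU
  let T : (Fin m → ℝ) →ₗ[ℝ] R := Fintype.linearCombination ℝ f
  have hT : ∀ c, T c = ∑ i, c i • f i := fun c => Fintype.linearCombination_apply ℝ f c
  let B : LinearMap.BilinForm ℝ (Fin m → ℝ) :=
    ((LinearMap.mul ℝ R).compl₁₂ ((LinearMap.mul ℝ R w) ∘ₗ T) T).compr₂ φ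
  have hB : ∀ c c', B c c' = φ (w * T c * T c') := fun _ _ => rfl
  have hsym : LinearMap.IsSymm B := ⟨fun c c' => by
    rw [hB, hB, RingHom.id_apply]; congr 1; ring⟩
  obtain ⟨v, hv⟩ := LinearMap.BilinForm.exists_orthogonal_basis hsym
  have hTU : ∀ c, T c ∈ U := fun c => by
    rw [hT]; exact sum_mem fun i _ => smul_mem _ _ (hfU i)
  have hTv : ∀ c, T c = ∑ j, v.repr c j • T (v j) := fun c => by
    conv_lhs => rw [← v.sum_repr c]
    simp only [map_sum, map_smul]
  refine ⟨_, fun i => T (v i), fun i => hTU _, fun i j hij => hv hij, fun i h0 => ?_,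
    fun x hx => ?_⟩
  · have h1 : T (v i) ∈ ann φ := hN _ (hTU _) fun y hy => by
      obtain ⟨c, hc⟩ := mem_sup_iff.mp (hs hy)
      rw [congr_right hc, ← hT, hTv c, map_mul_sum]
      refine Finset.sum_eq_zero fun j _ => ?_
      by_cases hij : i = j
      · rw [← hij, h0, mul_zero]
      · rw [← hB, hv hij, mul_zero]
    rw [hT] at h1
    exact v.ne_zero i (hi _ h1)
  · obtain ⟨c, hc⟩ := mem_sup_iff.mp (hs hx)
    exact mem_sup_iff.mpr ⟨v.repr c, by rwa [← hTv c, hT]⟩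

theorem pos_orth {w : R} {U : Submodule ℝ R} {I : Type} [Fintype I] (f : I → R)
    (hf : ∀ i, f i ∈ U) (ho : ∀ i j, i ≠ j → φ (w * f i * f j) = 0)
    (hp : ∀ i, 0 < φ (w * f i * f i)) : PosGe φ w U (Fintype.card I) := by
  classical
  refine posOf f hf fun c hc => ?_
  rw [map_sq_sum]
  have e : ∀ i, ∑ j, c i * c j * φ (w * f i * f j) = c i * c i * φ (w * f i * f i) := fun i =>
    Finset.sum_eq_single i (fun j _ hj => by rw [ho i j (Ne.symm hj), mul_zero]) (by simp)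
  simp only [e]
  obtain ⟨i, hi⟩ := Function.ne_iff.mp hc
  exact Finset.sum_pos' (fun j _ => mul_nonneg (mul_self_nonneg _) (hp j).le)
    ⟨i, Finset.mem_univ _, mul_pos (mul_self_pos.mpr hi) (hp i)⟩

theorem exSig {w : R} {U : Submodule ℝ R} {k : ℕ} (hU : SpanLe φ U k) (hN : Nondeg φ w U) :
    ∃ a b, Sig φ w U a b := by
  obtain ⟨m, f, hf, ho, hd, hs⟩ := diag hU hN
  refine ⟨Fintype.card {i // 0 < φ (w * f i * f i)}, Fintype.card {i // ¬ 0 < φ (w * f i * f i)},
    ?_, pos_orth (fun i : {i // 0 < φ (w * f i * f i)} => f i) (fun i => hf _)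
      (fun i j hij => ho _ _ fun h => hij (Subtype.ext h)) fun i => i.2,
    pos_orth (fun i : {i // ¬ 0 < φ (w * f i * f i)} => f i) (fun i => hf _)
      (fun i j hij => ?_) fun i => ?_⟩
  · rw [Fintype.card_subtype_compl, Nat.add_sub_cancel' (Fintype.card_subtype_le _)]
    exact spanOf f hs
  · rw [neg_mul, neg_mul, map_neg, ho _ _ fun h => hij (Subtype.ext h), neg_zero]
  · rw [neg_mul, neg_mul, map_neg]
    exact neg_pos.mpr (lt_of_le_of_ne (not_lt.mp i.2) (hd _))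

theorem lam_eq {U : Submodule ℝ R} {I : Type} [Fintype I] {f : I → R} (hf : ∀ i, f i ∈ U)
    (lam : R →ₗ[ℝ] ℝ) (hl : ∀ x ∈ U, x ∈ ann φ → lam x = 0) {y : R} (hy : y ∈ U) {c : I → ℝ}
    (hc : y - ∑ i, c i • f i ∈ ann φ) : lam y = ∑ i, c i * lam (f i) := by
  have := hl _ (U.sub_mem hy (sum_mem fun i _ => smul_mem _ _ (hf i))) hc
  rw [map_sub, map_sum, sub_eq_zero] at this
  simpa using this

theorem proj {w : R} {U : Submodule ℝ R} {k : ℕ} (hU : SpanLe φ U k) (hN : Nondeg φ w U)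
    (lam : R →ₗ[ℝ] ℝ) (hl : ∀ x ∈ U, x ∈ ann φ → lam x = 0) :
    ∃ u ∈ U, ∀ y ∈ U, lam y = φ (w * u * y) := by
  obtain ⟨m, f, hf, ho, hd, hs⟩ := diag hU hN
  refine ⟨∑ i, (lam (f i) / φ (w * f i * f i)) • f i, sum_mem fun i _ => smul_mem _ _ (hf i),
    fun y hy => ?_⟩
  obtain ⟨c, hc⟩ := mem_sup_iff.mp (hs hy)
  rw [lam_eq hf lam hl hy hc, congr_right hc, map_mul_sum]
  refine Finset.sum_congr rfl fun j _ => ?_
  rw [map_sum_mul, Finset.sum_eq_single j (fun i _ hi => by rw [ho i j hi, mul_zero]) (by simp),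
    div_mul_cancel₀ _ (hd j)]

theorem rep {𝒜 V : ℕ → Submodule ℝ R} {n i j : ℕ} (hG : Gr φ 𝒜 n) (hV : GSub φ 𝒜 V)
    (hij : i + j = n) (lam : R →ₗ[ℝ] ℝ) (hl : ∀ x ∈ V j, x ∈ ann φ → lam x = 0) :
    ∃ γ ∈ V i, ∀ β ∈ V j, lam β = φ (γ * β) := by
  obtain ⟨k, hk⟩ := hV.fin j
  obtain ⟨m, f, hf, hi, hs⟩ := exists_basis hk
  let L : V i →ₗ[ℝ] (Fin m → ℝ) :=
    LinearMap.pi fun t => φ ∘ₗ (LinearMap.mul ℝ R (f t)) ∘ₗ (V i).subtype
  have hL : ∀ γ t, L γ t = φ (f t * γ) := fun _ _ => rfl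
  have hsurj : LinearMap.range L = ⊤ := by
    by_contra hne
    obtain ⟨g, hg, hg0⟩ := exists_dual_map_eq_bot_of_lt_top (lt_top_iff_ne_top.mpr hne)
      inferInstance
    apply hg
    have hc := hi (fun t => g fun s => if t = s then 1 else 0) (by
      apply hV.pd j _ (sum_mem fun t _ => smul_mem _ _ (hf t))
      intro j' y hy
      by_cases hj : j' = i
      · subst hj
        have h1 : g (L ⟨y, hy⟩) = 0 := by
          have : g (L ⟨y, hy⟩) ∈ (LinearMap.range L).map g := mem_map_of_mem ⟨_, rfl⟩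
          rwa [hg0, Submodule.mem_bot] at this
        rw [LinearMap.pi_apply_eq_sum_univ] at h1
        rw [mul_comm, map_mul_sum]
        refine Eq.trans (Finset.sum_congr rfl fun t _ => ?_) h1
        rw [hL, smul_eq_mul, mul_comm, mul_comm y]
      · exact hG.deg (j + j') (by omega) _
          (hG.mul (hV.le j (sum_mem fun t _ => smul_mem _ _ (hf t))) (hV.le j' hy)))
    refine LinearMap.ext fun x => ?_
    rw [LinearMap.pi_apply_eq_sum_univ]
    exact Finset.sum_eq_zero fun t _ => by rw [congrFun hc t]; simp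
  obtain ⟨γ, hγ⟩ := LinearMap.range_eq_top.mp hsurj fun t => lam (f t)
  refine ⟨γ, γ.2, fun β hβ => ?_⟩
  obtain ⟨c, hc⟩ := mem_sup_iff.mp (hs hβ)
  rw [lam_eq hf lam hl hβ hc, congr_right hc, map_mul_sum]
  refine Finset.sum_congr rfl fun t _ => ?_
  rw [← congrFun hγ t, hL, mul_comm (f t)]

theorem openPos {U : Submodule ℝ R} {I : Type} [Fintype I] (l : Filter ℝ) (w : ℝ → R)
    (v : ℝ → I → R) (G0 : I → I → ℝ) (hv : ∀ δ i, v δ i ∈ U)
    (ht : ∀ i j, Tendsto (fun δ => φ (w δ * v δ i * v δ j)) l (𝓝 (G0 i j)))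
    (hp : ∀ c : I → ℝ, c ≠ 0 → 0 < ∑ i, ∑ j, c i * c j * G0 i j) :
    ∀ᶠ δ in l, PosGe φ (w δ) U (Fintype.card I) := by
  have h1 : ∀ᶠ G in 𝓝 G0, ∀ c ∈ Metric.sphere (0 : I → ℝ) 1, 0 < ∑ i, ∑ j, c i * c j * G i j := by
    apply (isCompact_sphere (0 : I → ℝ) 1).eventually_forall_of_forall_eventually
    intro c hc
    have hc0 : c ≠ 0 := by
      rintro rfl
      simp at hc
    have hcont : Continuous fun z : (I → I → ℝ) × (I → ℝ) =>
        ∑ i, ∑ j, z.2 i * z.2 j * z.1 i j := by fun_prop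
    exact hcont.continuousAt.eventually (lt_mem_nhds (hp c hc0))
  have h2 : Tendsto (fun δ i j => φ (w δ * v δ i * v δ j)) l (𝓝 G0) :=
    tendsto_pi_nhds.mpr fun i => tendsto_pi_nhds.mpr fun j => ht i j
  filter_upwards [h2.eventually h1] with δ hδ
  refine posOf (v δ) (hv δ) fun c hc => ?_
  have hn : 0 < ‖c‖ := norm_pos_iff.mpr hc
  have h3 := hδ (‖c‖⁻¹ • c) (by
    rw [mem_sphere_zero_iff_norm, norm_smul, norm_inv, norm_norm, inv_mul_cancel₀ hn.ne'])
  have e : ∑ i, ∑ j, c i * c j * φ (w δ * v δ i * v δ j) = ‖c‖ ^ 2 *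
      ∑ i, ∑ j, (‖c‖⁻¹ • c) i * (‖c‖⁻¹ • c) j * φ (w δ * v δ i * v δ j) := by
    simp only [Finset.mul_sum, Pi.smul_apply, smul_eq_mul]
    refine Finset.sum_congr rfl fun i _ => Finset.sum_congr rfl fun j _ => ?_
    field_simp
  rw [map_sq_sum, e]
  exact mul_pos (pow_pos hn 2) h3

theorem dual_le {V : ℕ → Submodule ℝ R} {n : ℕ} {I J : Type} [Fintype I] [DecidableEq I]
    [Fintype J] [DecidableEq J] {d : I → ℕ} {f g : I → R} {d' : J → ℕ} {f' g' : J → R}
    (h : DualFam φ V n d f g) (h' : DualFam φ V n d' f' g') (k : ℕ) :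
    Fintype.card {i // d i = k} ≤ Fintype.card {j // d' j = k} := by
  have hs : SpanLe φ (V k) (Fintype.card {j // d' j = k}) :=
    spanOf (fun j : {j // d' j = k} => f' j) (by
      have := h'.span k
      rwa [Set.image_eq_range] at this)
  refine indep_card (fun i : {i // d i = k} => f i) hs 
    (fun i => by have := h.memf i; rwa [i.2] at this) fun c hc => ?_
  funext j
  have h1 := hc (g j)
  rw [mul_comm, map_mul_sum, Finset.sum_eq_single j] at h1
  · rw [mul_comm (g j), h.dual] at h1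
    simpa using h1
  · intro i _ hi
    rw [mul_comm (g j), h.dual, if_neg fun e => hi (Subtype.ext e), mul_zero]
  · simp

theorem dualCount {V : ℕ → Submodule ℝ R} {n : ℕ} {I J : Type} [Fintype I] [DecidableEq I]
    [Fintype J] [DecidableEq J] {d : I → ℕ} {f g : I → R} {d' : J → ℕ} {f' g' : J → R}
    (h : DualFam φ V n d f g) (h' : DualFam φ V n d' f' g') :
    ∑ i, (Polynomial.X : Polynomial ℝ) ^ d i = ∑ j, Polynomial.X ^ d' j := by
  ext k
  have e := le_antisymm (dual_le h h' k) (dual_le h' h k)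
  rw [Fintype.card_subtype, Fintype.card_subtype] at e
  simp only [Polynomial.finsetSum_coeff, Polynomial.coeff_X_pow, Finset.sum_boole, eq_comm (a := k),
    e]

theorem stab_pow {V : ℕ → Submodule ℝ R} {ℓ : R} (h : Stab V ℓ) {i : ℕ} {x : R} (hx : x ∈ V i)
    (u : ℕ) : ℓ ^ u * x ∈ V (i + u) := by
  induction u with
  | zero => simpa using hx
  | succ u ih => rw [pow_succ', mul_assoc]; exact h _ _ ih

theorem famDual {𝒜 V : ℕ → Submodule ℝ R} {ℓ : R} {n : ℕ} {S : Type} [DecidableEq S] {a : S → ℕ}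
    {p : S → R} (hG : Gr φ 𝒜 n) (hV : ∀ i, V i ≤ 𝒜 i) (hℓ : ℓ ∈ 𝒜 1) (hS : Stab V ℓ)
    (hF : Fam φ V ℓ n a p) :
    DualFam φ V n (I := Σ s : S, Fin (n - 2 * a s + 1)) (fun x => a x.1 + x.2)
      (fun x => ℓ ^ (x.2 : ℕ) * p x.1)
      (fun x => ((-1 : ℝ) ^ a x.1) • (ℓ ^ (n - 2 * a x.1 - x.2) * p x.1)) where
  deg := fun ⟨s, u⟩ => by
    have := hF.deg s; have := u.2; dsimp only; omega
  memf := fun ⟨s, u⟩ => stab_pow hS (hF.mem s) u
  memg := fun ⟨s, u⟩ => by
    have h1 := hF.deg s; have h2 := u.2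
    have e : n - (a s + u) = a s + (n - 2 * a s - u) := by omega
    dsimp only
    rw [e]
    exact smul_mem _ _ (stab_pow hS (hF.mem s) _)
  dual := fun ⟨s, u⟩ ⟨t, u'⟩ => by
    dsimp only
    have e : ℓ ^ (u : ℕ) * p s * ((-1 : ℝ) ^ a t • (ℓ ^ (n - 2 * a t - u') * p t))
        = (-1 : ℝ) ^ a t • (p s * p t * ℓ ^ (u + (n - 2 * a t - u'))) := by
      rw [mul_smul_comm, pow_add]; congr 1; ring
    rw [e, map_smul, smul_eq_mul]
    by_cases hst : s = t
    · subst hst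
      have h1 := hF.deg s; have h2 := u.2; have h3 := u'.2
      by_cases hu : u = u'
      · subst hu
        rw [if_pos rfl, show (u : ℕ) + (n - 2 * a s - u) = n - 2 * a s by omega, hF.val,
          ← mul_pow]
        simp
      · have hu' : (u : ℕ) ≠ u' := fun h => hu (Fin.ext h)
        have hA : Stab 𝒜 ℓ := fun i x hx => by rw [add_comm]; exact hG.mul hℓ hx
        rw [if_neg (by simpa using hu), mul_comm (p s * p s), hG.deg _ (by omega) _
          (stab_pow hA (hG.mul (hV _ (hF.mem s)) (hV _ (hF.mem s))) _), mul_zero]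
    · rw [hF.orth s t _ hst, mul_zero, if_neg fun h => hst (congrArg Sigma.fst h)]
  span := fun k => by
    refine (hF.span k).trans (sup_le (span_le.mpr ?_) le_sup_right)
    rintro _ ⟨s, u, hk, rfl⟩
    by_cases hu : u < n - 2 * a s + 1
    · exact mem_sup_left (subset_span ⟨⟨s, u, hu⟩, hk, rfl⟩)
    · refine mem_sup_right ?_
      obtain ⟨r, rfl⟩ := Nat.exists_eq_add_of_le' (not_lt.mp hu)
      rw [pow_add, mul_assoc]
      exact ann_mul_left (hF.top s) _

theorem posCongr {U U' : Submodule ℝ R} {w w' : R} {a : ℕ} (hU : U ≤ U' ⊔ ann φ)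
    (hw : w - w' ∈ ann φ) (h : PosGe φ w U a) : PosGe φ w' U' a := by
  obtain ⟨v, hv, hp⟩ := h
  choose v' hv' z hz e using fun i => mem_sup.mp (hU (hv i))
  refine ⟨v', hv', fun c hc => ?_⟩
  have h1 : ∑ i, c i • v i - ∑ i, c i • v' i ∈ ann φ := by
    rw [← Finset.sum_sub_distrib]
    refine sum_mem fun i _ => ?_
    rw [← smul_sub, ← e i, add_sub_cancel_left]
    exact smul_mem _ _ (hz i)
  rw [← congr_mul hw, ← congr_sq h1]
  exact hp c hc

theorem numCongr {V V' : ℕ → Submodule ℝ R} {ℓ ℓ' : R} {n : ℕ} (h1 : ∀ i, V i ≤ V' i ⊔ ann φ)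
    (h2 : ∀ i, V' i ≤ V i ⊔ ann φ) (hℓ : ℓ - ℓ' ∈ ann φ) (h : Num φ V ℓ n) : Num φ V' ℓ' n := by
  obtain ⟨a, b, h0, hs, hb⟩ := h
  refine ⟨a, b, h0, fun i hi => ?_, hb⟩
  obtain ⟨⟨f, hf⟩, hp, hn⟩ := hs i hi
  have hw : wt ℓ n i - wt ℓ' n i ∈ ann φ := by
    obtain ⟨q, hq⟩ := sub_dvd_pow_sub_pow ℓ ℓ' (n - 2 * i)
    rw [wt, wt, ← smul_sub, hq]
    exact smul_mem _ _ (ann_mul_right hℓ _)
  refine ⟨⟨f, (h2 i).trans (sup_le hf le_sup_right)⟩, posCongr (h1 i) hw hp,
    posCongr (h1 i) ?_ hn⟩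
  rw [show -wt ℓ n i - -wt ℓ' n i = -(wt ℓ n i - wt ℓ' n i) by ring]
  exact neg_mem hw

section Map

variable {R' : Type} [CommRing R'] [Algebra ℝ R'] {φ' : R' →ₗ[ℝ] ℝ} (ψ : R →ₐ[ℝ] R') {c : ℝ}

theorem posMap (hc : 0 < c) (h : ∀ x, φ' (ψ x) = c * φ x) {U : Submodule ℝ R} {w : R} {a : ℕ} :
    PosGe φ w U a ↔ PosGe φ' (ψ w) (U.map ψ.toLinearMap) a := by
  have key : ∀ (v : Fin a → R) (e : Fin a → ℝ),
      φ' (ψ w * (∑ i, e i • ψ (v i)) ^ 2) = c * φ (w * (∑ i, e i • v i) ^ 2) := fun v e => by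
    rw [← h]; simp [map_sum]
  constructor
  · rintro ⟨v, hv, hp⟩
    exact ⟨fun i => ψ (v i), fun i => mem_map_of_mem (hv i), fun e he => by
      rw [key]; exact mul_pos hc (hp e he)⟩
  · rintro ⟨v', hv', hp⟩
    choose v hv e using hv'
    refine ⟨v, hv, fun d hd => ?_⟩
    have h1 := hp d hd
    have h2 : ∀ i, v' i = ψ (v i) := fun i => (e i).symm
    simp only [h2, key] at h1
    exact (mul_pos_iff_of_pos_left hc).mp h1

theorem spanMap (hc : 0 < c) (h : ∀ x, φ' (ψ x) = c * φ x) {U : Submodule ℝ R}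
    (hU : ∀ x ∈ U, x ∈ ann φ → ψ x ∈ ann φ') {k : ℕ} :
    SpanLe φ U k ↔ SpanLe φ' (U.map ψ.toLinearMap) k := by
  constructor
  · intro hs
    obtain ⟨f, hf, hs⟩ := spanMem hs
    refine ⟨fun i => ψ (f i), ?_⟩
    rintro _ ⟨x, hx, rfl⟩
    obtain ⟨e, he⟩ := mem_sup_iff.mp (hs hx)
    refine mem_sup_iff.mpr ⟨e, ?_⟩
    have := hU _ (U.sub_mem hx (sum_mem fun i _ => smul_mem _ _ (hf i))) he
    simpa [map_sum] using this
  · intro hs
    obtain ⟨f', hf', hs⟩ := spanMem hs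
    choose f hf e using hf'
    refine ⟨f, fun x hx => ?_⟩
    obtain ⟨d, hd⟩ := mem_sup_iff.mp (hs (mem_map_of_mem hx))
    refine mem_sup_iff.mpr ⟨d, fun y => ?_⟩
    have h1 := hd (ψ y)
    have h2 : ∀ i, f' i = ψ (f i) := fun i => (e i).symm
    have h3 : (ψ.toLinearMap x - ∑ i, d i • f' i) * ψ y = ψ ((x - ∑ i, d i • f i) * y) := by
      simp [h2, map_sum]
    rw [h3, h] at h1
    exact (mul_eq_zero.mp h1).resolve_left hc.ne'

theorem numMap {V : ℕ → Submodule ℝ R} {ℓ : R} {n : ℕ} (hc : 0 < c)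
    (h : ∀ x, φ' (ψ x) = c * φ x) (hV : ∀ i, ∀ x ∈ V i, x ∈ ann φ → ψ x ∈ ann φ') :
    Num φ V ℓ n ↔ Num φ' (fun i => (V i).map ψ.toLinearMap) (ψ ℓ) n := by
  have hw : ∀ i, wt (ψ ℓ) n i = ψ (wt ℓ n i) := fun i => by simp [wt]
  have key : ∀ i a b, Sig φ (wt ℓ n i) (V i) a b ↔
      Sig φ' (wt (ψ ℓ) n i) ((V i).map ψ.toLinearMap) a b := fun i a b => by
    rw [Sig, Sig, hw, ← map_neg, ← posMap ψ hc h, ← posMap ψ hc h, ← spanMap ψ hc h (hV i)]
  simp only [Num, key]

end Map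

end LinP

theorem lin_lib : LinLib where
  triDual := LinP.triDual
  spanOf := LinP.spanOf
  posOf := LinP.posOf
  spanMem := LinP.spanMem
  sylvSemi := LinP.sylvSemi
  sylv := LinP.sylv
  sigNondeg := LinP.sigNondeg
  diag := LinP.diag
  exSig := LinP.exSig
  proj := LinP.proj
  rep := LinP.rep
  openPos := LinP.openPos
  dualCount := LinP.dualCount
  famDual := LinP.famDual
  numCongr := LinP.numCongr
  numMap := fun ψ _ hc h hV => LinP.numMap ψ hc h hV

end Pool.Agent.P.MP_cedf91_co
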