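import Pool.Agent.P.MP_cedf91_co.KFan

/-! The pull-back to a stellar subdivision and the blown-down space. -/

namespace Pool.Agent.P.MP_cedf91_co

open Submodule Filter Topology MvPolynomial

namespace StellarP

section general

variable {ι : Type} {S S' S1 S2 : Finset ι}

theorem map_RS (ψ : PR ι →ₐ[ℝ] PR ι) (h : ∀ k ∈ S, ψ (X k) ∈ RS S' 1) (i : ℕ) :
    ∀ f ∈ RS S i, ψ f ∈ RS S' i := by
  induction i with
  | zero =>
    intro f hf
    rw [RS_zero, mem_span_singleton] at hf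
    obtain ⟨r, rfl⟩ := hf
    rw [map_smul, map_one]
    exact smul_mem _ _ one_mem_RS
  | succ i ih =>
    refine RS_succ_le (W := (RS S' (i + 1)).comap ψ.toLinearMap) fun k hk f hf => ?_
    change ψ (X k * f) ∈ RS S' (i + 1)
    rw [map_mul, add_comm]
    exact mul_mem_RS (h k hk) (ih f hf)

theorem fix_RS (ψ : PR ι →ₐ[ℝ] PR ι) (h : ∀ k ∈ S, ψ (X k) = X k) (i : ℕ) :
    ∀ f ∈ RS S i, ψ f = f := by
  induction i with
  | zero =>
    intro f hf
    rw [RS_zero, mem_span_singleton] at hf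
    obtain ⟨r, rfl⟩ := hf
    rw [map_smul, map_one]
  | succ i ih =>
    refine RS_succ_le (W := LinearMap.eqLocus ψ.toLinearMap LinearMap.id) fun k hk f hf => ?_
    change ψ (X k * f) = X k * f
    rw [map_mul, h k hk, ih f hf]

theorem mem_Fil {p q j i : ℕ} {α β : PR ι} (hα : α ∈ RS S1 p) (hβ : β ∈ RS S2 q) (hp : p < j)
    (hi : p + q = i) : α * β ∈ Fil S1 S2 j i :=
  subset_span ⟨p, q, α, hα, β, hβ, hp, hi, rfl⟩

theorem Fil_le {j i : ℕ} {W : Submodule ℝ (PR ι)}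
    (h : ∀ p q, ∀ α ∈ RS S1 p, ∀ β ∈ RS S2 q, p < j → p + q = i → α * β ∈ W) :
    Fil S1 S2 j i ≤ W := by
  refine span_le.2 ?_
  rintro _ ⟨p, q, α, hα, β, hβ, hp, hi, rfl⟩
  exact h p q α hα β hβ hp hi

theorem Fil_mono {j j' i : ℕ} (h : j ≤ j') : Fil S1 S2 j i ≤ Fil S1 S2 j' i :=
  Fil_le fun _ _ _ hα _ hβ hp hi => mem_Fil hα hβ (hp.trans_le h) hi

theorem Fil_mul {j i q : ℕ} {γ β : PR ι} (hγ : γ ∈ Fil S1 S2 j i) (hβ : β ∈ RS S2 q) :
    γ * β ∈ Fil S1 S2 j (i + q) := by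
  refine Fil_le (W := (Fil S1 S2 j (i + q)).comap (LinearMap.mulRight ℝ β)) ?_ hγ
  intro p q' α hα β' hβ' hp hi
  change α * β' * β ∈ Fil S1 S2 j (i + q)
  rw [mul_assoc]
  exact mem_Fil hα (mul_mem_RS hβ' hβ) hp (by omega)

theorem Fil_le_RS (h1 : S1 ⊆ S) (h2 : S2 ⊆ S) {j i : ℕ} : Fil S1 S2 j i ≤ RS S i :=
  Fil_le fun _ _ _ hα _ hβ _ hi => hi ▸ mul_mem_RS (RS_mono h1 _ hα) (RS_mono h2 _ hβ)

theorem lin_sub (b b' : ι → ℝ) : lin S (b - b') = lin S b - lin S b' := by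
  simp [lin, sub_smul, Finset.sum_sub_distrib]

theorem apply_congr {φ : PR ι →ₗ[ℝ] ℝ} {x y : PR ι} (h : x - y ∈ ann φ) (z : PR ι) :
    φ (x * z) = φ (y * z) := by
  have := h z
  rwa [sub_mul, map_sub, sub_eq_zero] at this

variable [DecidableEq ι]

theorem lin_split {τ : Finset ι} (h : τ ⊆ S) (b : ι → ℝ) :
    lin S b = lin (S \ τ) b + lin τ b := (Finset.sum_sdiff h).symm

theorem xs_split (ρ τ : Finset ι) : xs ρ = xs (ρ \ τ) * xs (ρ ∩ τ) := by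
  rw [xs, xs, xs, ← Finset.prod_union (Finset.disjoint_sdiff_inter ρ τ), Finset.sdiff_union_inter]

theorem xs_insert {k : ι} {ρ : Finset ι} (h : k ∉ ρ) : xs (insert k ρ) = X k * xs ρ :=
  Finset.prod_insert h

/-- The pull-back of piecewise polynomial functions to the subdivision. -/
noncomputable def psi (τ : Finset ι) (lam : ι → ℝ) (e : ι) : PR ι →ₐ[ℝ] PR ι :=
  aeval fun k => if k = e then 0 else if k ∈ τ then X k + lam k • X e else X k

variable {τ : Finset ι} {lam : ι → ℝ} {e k : ι}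

theorem psi_e : psi τ lam e (X e) = 0 := by simp [psi]

theorem psi_in (hk : k ≠ e) (h : k ∈ τ) : psi τ lam e (X k) = X k + lam k • X e := by
  simp [psi, hk, h]

theorem psi_out (hk : k ≠ e) (h : k ∉ τ) : psi τ lam e (X k) = X k := by
  simp [psi, hk, h]

theorem psi_X (hk : k ≠ e) : ∃ r : ℝ, psi τ lam e (X k) = X k + r • X e := by
  by_cases h : k ∈ τ
  · exact ⟨_, psi_in hk h⟩
  · exact ⟨0, by rw [psi_out hk h, zero_smul, add_zero]⟩

theorem psi_HS {i : ℕ} {f : PR ι} (hf : f ∈ HS ι i) : psi τ lam e f ∈ HS ι i := by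
  have := IsHomogeneous.aeval (n := 1) hf
    (fun k => if k = e then 0 else if k ∈ τ then X k + lam k • X e else (X k : PR ι)) fun k => by
      split_ifs
      · exact isHomogeneous_zero _ _ _
      · exact (HS ι 1).add_mem (isHomogeneous_X _ _) ((HS ι 1).smul_mem _ (isHomogeneous_X _ _))
      · exact isHomogeneous_X _ _
  rw [one_mul] at this
  exact this

theorem psi_RS (he : e ∉ S) {i : ℕ} {f : PR ι} (hf : f ∈ RS S i) :
    psi τ lam e f ∈ RS (insert e S) i := by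
  refine map_RS _ (fun k hk => ?_) i f hf
  obtain ⟨r, hr⟩ := psi_X (τ := τ) (lam := lam) (ne_of_mem_of_not_mem hk he)
  rw [hr]
  exact add_mem (X_mem_RS (Finset.mem_insert_of_mem hk))
    (smul_mem _ _ (X_mem_RS (Finset.mem_insert_self _ _)))

theorem psi_fix (he : e ∉ S) {i : ℕ} {f : PR ι} (hf : f ∈ RS (S \ τ) i) : psi τ lam e f = f :=
  fix_RS _ (fun _ hk => psi_out (ne_of_mem_of_not_mem (Finset.mem_sdiff.1 hk).1 he)
    (Finset.mem_sdiff.1 hk).2) i f hf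

theorem lin_update (he : e ∉ S) (b : ι → ℝ) (r : ℝ) :
    lin (insert e S) (Function.update b e r) = r • X e + lin S b := by
  rw [lin, Finset.sum_insert he, Function.update_self, lin]
  congr 1
  exact Finset.sum_congr rfl fun k hk => by
    rw [Function.update_of_ne (ne_of_mem_of_not_mem hk he)]

theorem psi_lin (he : e ∉ S) (hτ : τ ⊆ S) (b : ι → ℝ) :
    psi τ lam e (lin S b) = (∑ j ∈ τ, lam j * b j) • X e + lin S b := by
  rw [lin_split hτ b, map_add, psi_fix he (lin_mem_RS subset_rfl b), lin, lin, map_sum,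
    Finset.sum_smul, add_left_comm, ← Finset.sum_add_distrib]
  congr 1
  refine Finset.sum_congr rfl fun k hk => ?_
  rw [map_smul, psi_in (ne_of_mem_of_not_mem (hτ hk) he) hk, smul_add, smul_smul, add_comm,
    mul_comm]

theorem psi_xs {ρ : Finset ι} (he : e ∉ ρ) : ∃ g, psi τ lam e (xs ρ) = xs ρ + X e * g := by
  induction ρ using Finset.induction_on with
  | empty => exact ⟨0, by simp [xs]⟩
  | insert k ρ hk ih =>
    rw [Finset.mem_insert, not_or] at he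
    obtain ⟨g, hg⟩ := ih he.2
    obtain ⟨r, hr⟩ := psi_X (τ := τ) (lam := lam) (Ne.symm he.1)
    refine ⟨X k * g + r • (xs ρ + X e * g), ?_⟩
    rw [xs_insert hk, map_mul, hg, hr]
    simp only [smul_eq_C_mul]
    ring

theorem mem_stellar {F : Fan ι} {σ : Finset ι} : σ ∈ (F.stellar τ lam e).K ↔
    (σ ∈ F.K ∧ ¬ τ ⊆ σ) ∨ ∃ σ' ∈ F.K, τ ⊆ σ' ∧ ∃ j ∈ τ, σ = insert e (σ'.erase j) := by
  simp only [Fan.stellar, Finset.mem_union, Finset.mem_filter, Finset.mem_biUnion,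
    Finset.mem_image]
  refine or_congr Iff.rfl ⟨?_, ?_⟩
  · rintro ⟨σ', ⟨h1, h2⟩, j, hj, rfl⟩
    exact ⟨σ', h1, h2, j, hj, rfl⟩
  · rintro ⟨σ', h1, h2, j, hj, rfl⟩
    exact ⟨σ', ⟨h1, h2⟩, j, hj, rfl⟩

end general

/-- The data of a stellar subdivision with its bundle structure. -/
structure Ctx {ι : Type} [DecidableEq ι] (F F1 F2 : Fan ι) (τ : Finset ι) (lam : ι → ℝ) (e : ι)
    (σ0 : Finset ι) (φ φ1 φ2 : PR ι →ₗ[ℝ] ℝ) (c : ℝ) (j0 : ι) : Prop where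
  good : F.Good
  hσ : σ0 ∈ F.K
  hτ : τ ⊆ σ0
  he : e ∉ F.S
  hlam : ∀ j ∈ τ, 0 < lam j
  vol : (F.stellar τ lam e).IsVol φ
  vol1 : F1.IsVol φ1
  s1 : F1.S = τ
  k1 : F1.K = τ.image τ.erase
  s2 : F2.S = F.S \ τ
  out : BundleOut (F.stellar τ lam e) F1 F2 e φ φ1 φ2 c
  n1 : (τ.erase j0).card = F1.n
  hj : j0 ∈ τ
  simp : ∀ i, RS τ i ≤ span ℝ {X j0 ^ i} ⊔ ann φ1

/-- Elements orthogonal to the exceptional classes. -/
def Y {ι : Type} (φ : PR ι →ₗ[ℝ] ℝ) (S2 : Finset ι) (e j0 : ι) (n1 : ℕ) : Set (PR ι) :=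
  {y | ∀ u q, ∀ β ∈ RS S2 q, u < n1 → φ (y * (X e * X j0 ^ u * β)) = 0}

theorem ann_le_perp {ι : Type} {φ : PR ι →ₗ[ℝ] ℝ} {G : Set (PR ι)} {x : PR ι} (h : x ∈ ann φ) :
    x ∈ perp φ ⊤ G := ⟨trivial, fun g _ => h g⟩

namespace Ctx

variable {ι : Type} [DecidableEq ι] {F F1 F2 : Fan ι} {τ : Finset ι} {lam : ι → ℝ} {e : ι}
  {σ0 : Finset ι} {φ φ1 φ2 : PR ι →ₗ[ℝ] ℝ} {c : ℝ} {j0 : ι}
  (C : Ctx F F1 F2 τ lam e σ0 φ φ1 φ2 c j0)
include C

theorem τS : τ ⊆ F.S := C.hτ.trans (C.good.sub _ C.hσ)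

theorem eτ : e ∉ τ := fun h => C.he (C.τS h)

theorem theta {θ : ι → ℝ} (hθ : θ ∈ F.Θ) : psi τ lam e (lin F.S θ) ∈ ann φ := by
  rw [psi_lin C.he C.τS, ← lin_update C.he]
  exact C.vol.theta _ ⟨θ, hθ, rfl⟩

theorem nonface {ρ : Finset ι} (hρ : ∀ σ ∈ F.K, ¬ ρ ⊆ σ) : psi τ lam e (xs ρ) ∈ ann φ := by
  by_cases he : e ∈ ρ
  · rw [← Finset.insert_erase he, xs_insert (Finset.notMem_erase _ _), map_mul, psi_e, zero_mul]
    exact zero_mem _
  obtain ⟨g, hg⟩ := psi_xs (τ := τ) (lam := lam) (ρ := ρ ∩ τ) (e := e)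
    fun h => he (Finset.mem_inter.1 h).1
  have he' : e ∉ ρ \ τ := fun h => he (Finset.mem_sdiff.1 h).1
  have h1 : psi τ lam e (xs ρ) = xs ρ + xs (insert e (ρ \ τ)) * g := by
    rw [xs_split ρ τ, map_mul, psi_fix he (xs_mem_RS subset_rfl), hg, xs_insert he']
    ring
  rw [h1]
  refine add_mem (C.vol.nonface _ fun σ hσ hs => ?_)
    (ann_mul_right (C.vol.nonface _ fun σ hσ hs => ?_) _)
  · rcases mem_stellar.1 hσ with h | ⟨σ', h1, -, j, -, rfl⟩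
    · exact hρ σ h.1 hs
    · exact hρ σ' h1 (((Finset.subset_insert_iff_of_notMem he).1 hs).trans
        (Finset.erase_subset _ _))
  · rcases mem_stellar.1 hσ with h | ⟨σ', h1, h2, j, -, rfl⟩
    · exact C.he (C.good.sub σ h.1 (hs (Finset.mem_insert_self _ _)))
    · refine hρ σ' h1 fun k hk => ?_
      by_cases hkτ : k ∈ τ
      · exact h2 hkτ
      · have := hs (Finset.mem_insert_of_mem (Finset.mem_sdiff.2 ⟨hk, hkτ⟩))
        rcases Finset.mem_insert.1 this with h | h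
        · exact absurd (h ▸ hk) he
        · exact Finset.mem_of_mem_erase h

theorem xs_tau : xs τ ∈ ann φ := by
  refine C.vol.nonface _ fun σ hσ hs => ?_
  rcases mem_stellar.1 hσ with h | ⟨σ', -, -, j, hj, rfl⟩
  · exact h.2 hs
  · exact Finset.notMem_erase j σ' ((Finset.subset_insert_iff_of_notMem C.eτ).1 hs hj)

theorem J_ann {i : ℕ} {x : PR ι} (hx : x ∈ F.J i) : psi τ lam e x ∈ ann φ := by
  have : F.J i ≤ (ann φ).comap (psi τ lam e).toLinearMap := by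
    refine sup_le (span_le.2 ?_) (span_le.2 ?_)
    · rintro _ ⟨θ, hθ, j, f, -, -, rfl⟩
      change psi τ lam e (lin F.S θ * f) ∈ ann φ
      rw [map_mul]
      exact ann_mul_right (C.theta hθ) _
    · rintro _ ⟨ρ, -, hρ, j, f, -, -, rfl⟩
      change psi τ lam e (xs ρ * f) ∈ ann φ
      rw [map_mul]
      exact ann_mul_right (C.nonface hρ) _
  exact this hx

theorem red1 {k : ι} (hk : k ∈ F.S) :
    ∃ β ∈ RS (F.S \ τ) 1, psi τ lam e (X k) - β ∈ ann φ := by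
  by_cases h : k ∈ τ
  · refine ⟨-lin (F.S \ τ) (F.eta σ0 k), neg_mem (lin_mem_RS subset_rfl _), ?_⟩
    have h1 := C.theta (C.good.eta_mem C.hσ k)
    have h2 : lin τ (F.eta σ0 k) = X k := by
      rw [lin, Finset.sum_eq_single k, C.good.eta_self C.hσ (C.hτ h), one_smul]
      · intro j hj hjk
        rw [C.good.eta_ne C.hσ (C.hτ hj) hjk, zero_smul]
      · intro h'; exact absurd h h'
    rwa [lin_split C.τS, map_add, psi_fix C.he (lin_mem_RS subset_rfl _), h2, add_comm,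
      ← sub_neg_eq_add] at h1
  · refine ⟨X k, X_mem_RS (Finset.mem_sdiff.2 ⟨hk, h⟩), ?_⟩
    rw [psi_out (ne_of_mem_of_not_mem hk C.he) h, sub_self]
    exact zero_mem _

theorem red (i : ℕ) : ∀ f ∈ RS F.S i, ∃ β ∈ RS (F.S \ τ) i, psi τ lam e f - β ∈ ann φ := by
  induction i with
  | zero =>
    intro f hf
    rw [RS_zero, mem_span_singleton] at hf
    obtain ⟨r, rfl⟩ := hf
    refine ⟨r • 1, smul_mem _ _ one_mem_RS, ?_⟩
    rw [map_smul, map_one, sub_self]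
    exact zero_mem _
  | succ i ih =>
    have : RS F.S (i + 1) ≤ (RS (F.S \ τ) (i + 1) ⊔ ann φ).comap (psi τ lam e).toLinearMap := by
      refine RS_succ_le fun k hk f hf => ?_
      obtain ⟨β, hβ, h1⟩ := C.red1 hk
      obtain ⟨β', hβ', h2⟩ := ih f hf
      change psi τ lam e (X k * f) ∈ RS (F.S \ τ) (i + 1) ⊔ ann φ
      have h3 : psi τ lam e (X k * f) = β' * β + ((psi τ lam e (X k) - β) * psi τ lam e f +
          β * (psi τ lam e f - β')) := by rw [map_mul]; ring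
      rw [h3]
      exact add_mem_sup (mul_mem_RS hβ' hβ) (add_mem (ann_mul_right h1 _) (ann_mul_left h2 _))
    intro f hf
    obtain ⟨β, hβ, a, ha, h⟩ := mem_sup.1 (this hf)
    refine ⟨β, hβ, ?_⟩
    change β + a = psi τ lam e f at h
    rw [← h, add_sub_cancel_left]
    exact ha

theorem tele {ρ : Finset ι} (hρ : ρ ⊆ τ) : ∀ β ∈ RS (F.S \ τ) 1,
    ∃ γ ∈ Fil τ (F.S \ τ) ρ.card ρ.card,
      β * psi τ lam e (xs ρ) - β * xs ρ - X e * γ ∈ ann φ := by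
  induction ρ using Finset.induction_on with
  | empty => exact fun β _ => ⟨0, zero_mem _, by simp [xs]⟩
  | insert k ρ hk ih =>
    intro β hβ
    have hkτ : k ∈ τ := hρ (Finset.mem_insert_self _ _)
    have hρ' : ρ ⊆ τ := (Finset.subset_insert _ _).trans hρ
    obtain ⟨β', hβ', h1⟩ := C.red1 (C.τS hkτ)
    obtain ⟨γ, hγ, h2⟩ := ih hρ' β' hβ'
    rw [Finset.card_insert_of_notMem hk]
    refine ⟨lam k • (xs ρ * β) + γ * β, add_mem (smul_mem _ _ (mem_Fil (xs_mem_RS hρ') hβ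
      (Nat.lt_succ_self _) rfl)) (Fil_mono (Nat.le_succ _) (Fil_mul hγ hβ)), ?_⟩
    have h3 : β * psi τ lam e (xs (insert k ρ)) - β * xs (insert k ρ) -
        X e * (lam k • (xs ρ * β) + γ * β) =
        (psi τ lam e (X k) - β') * (β * (psi τ lam e (xs ρ) - xs ρ)) +
          β * (β' * psi τ lam e (xs ρ) - β' * xs ρ - X e * γ) := by
      rw [xs_insert hk, map_mul, psi_in (ne_of_mem_of_not_mem hkτ C.eτ) hkτ]
      simp only [smul_eq_C_mul]
      ring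
    rw [h3]
    exact add_mem (ann_mul_right h1 _) (ann_mul_left h2 _)

theorem psi_tau : ∃ γ ∈ Fil τ (F.S \ τ) F1.n F1.n,
    psi τ lam e (xs τ) - X e * (lam j0 • xs (τ.erase j0) + γ) ∈ ann φ := by
  obtain ⟨β, hβ, h1⟩ := C.red1 (C.τS C.hj)
  obtain ⟨γ, hγ, h2⟩ := C.tele (Finset.erase_subset j0 τ) β hβ
  rw [C.n1] at hγ
  refine ⟨γ, hγ, ?_⟩
  have h0 : xs τ = X j0 * xs (τ.erase j0) := by
    rw [← xs_insert (Finset.notMem_erase _ _), Finset.insert_erase C.hj]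
  have h3 : psi τ lam e (xs τ) - X e * (lam j0 • xs (τ.erase j0) + γ) =
      (psi τ lam e (X j0) - β) * (psi τ lam e (xs (τ.erase j0)) - xs (τ.erase j0)) +
        (β * psi τ lam e (xs (τ.erase j0)) - β * xs (τ.erase j0) - X e * γ) + xs τ := by
    rw [h0, map_mul, psi_in (ne_of_mem_of_not_mem C.hj C.eτ) C.hj]
    simp only [smul_eq_C_mul]
    ring
  rw [h3]
  exact add_mem (add_mem (ann_mul_right h1 _) h2) C.xs_tau

theorem E1 {i q : ℕ} {γ β : PR ι} (hγ : γ ∈ Fil τ (F.S \ τ) F1.n i) (hβ : β ∈ RS (F.S \ τ) q) :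
    φ (X e * γ * β) = 0 := by
  refine Fil_le (W := LinearMap.ker (φ ∘ₗ LinearMap.mulRight ℝ β ∘ₗ LinearMap.mulLeft ℝ (X e)))
    ?_ hγ
  intro p q' α hα β' hβ' hp _
  change φ (X e * (α * β') * β) = 0
  have := C.out.E1 p (q' + q) α (C.s1 ▸ hα) (β' * β) (C.s2 ▸ mul_mem_RS hβ' hβ) hp
  rw [← this]
  congr 1
  ring

theorem E4 {p : ℕ} {α : PR ι} (hα : α ∈ RS τ p) (h : α ∈ ann φ1) :
    ∃ γ ∈ Fil τ (F.S \ τ) p p, X e * (α - γ) ∈ ann φ := by
  have := C.out.E4 p α (C.s1 ▸ hα) h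
  rwa [C.s1, C.s2] at this

theorem psi_pos : 0 < φ (psi τ lam e (xs σ0)) := by
  obtain ⟨γ, hγ, h1⟩ := C.psi_tau
  have hs : σ0 \ τ ⊆ F.S \ τ := Finset.sdiff_subset_sdiff (C.good.sub _ C.hσ) subset_rfl
  have h2 : xs σ0 = xs τ * xs (σ0 \ τ) := by
    rw [xs_split σ0 τ, Finset.inter_eq_right.2 C.hτ, mul_comm]
  have h3 : xs (insert e (σ0.erase j0)) = X e * xs (τ.erase j0) * xs (σ0 \ τ) := by
    have h4 : σ0.erase j0 \ τ = σ0 \ τ := by
      ext k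
      simp only [Finset.mem_sdiff, Finset.mem_erase]
      exact ⟨fun h => ⟨h.1.2, h.2⟩, fun h => ⟨⟨fun h' => h.2 (h' ▸ C.hj), h.1⟩, h.2⟩⟩
    rw [xs_insert fun h => C.he (C.good.sub _ C.hσ (Finset.mem_of_mem_erase h)),
      xs_split (σ0.erase j0) τ, h4, Finset.erase_inter, Finset.inter_eq_right.2 C.hτ]
    ring
  have h5 := C.vol.pos _ (mem_stellar.2 (Or.inr ⟨σ0, C.hσ, C.hτ, j0, C.hj, rfl⟩))
  rw [h2, map_mul, psi_fix C.he (xs_mem_RS hs), apply_congr h1, mul_add, add_mul, map_add,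
    C.E1 hγ (xs_mem_RS hs), add_zero, mul_smul_comm, smul_mul_assoc, map_smul, ← h3]
  exact mul_pos (C.hlam _ C.hj) h5

theorem psi_Y {i : ℕ} {f : PR ι} (hf : f ∈ RS F.S i) :
    psi τ lam e f ∈ Y φ (F.S \ τ) e j0 F1.n := by
  intro u q β hβ hu
  obtain ⟨β', hβ', h⟩ := C.red i f hf
  rw [apply_congr h, ← C.E1 (mem_Fil (pow_mem_RS (X_mem_RS C.hj) u) hβ' hu rfl) hβ]
  congr 1
  ring

theorem low (f : ℕ) : f ≤ F1.n → ∀ i, ∀ γ ∈ Fil τ (F.S \ τ) f i,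
    X e * γ ∈ perp φ ⊤ (Y φ (F.S \ τ) e j0 F1.n) := by
  induction f using Nat.strong_induction_on with
  | _ f ih =>
    intro hf i
    refine Fil_le (W := (perp φ ⊤ (Y φ (F.S \ τ) e j0 F1.n)).comap (LinearMap.mulLeft ℝ (X e)))
      fun p q α hα β hβ hp _ => ?_
    rw [Submodule.mem_comap, LinearMap.mulLeft_apply]
    obtain ⟨z, hz, a, ha, h⟩ := mem_sup.1 (C.simp p hα)
    obtain ⟨r, rfl⟩ := mem_span_singleton.1 hz
    have h1 : α - r • X j0 ^ p = a := by rw [← h, add_sub_cancel_left]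
    obtain ⟨γ, hγ, h2⟩ := C.E4 (sub_mem hα (smul_mem _ r (pow_mem_RS (X_mem_RS C.hj) p)))
      (h1 ▸ ha)
    have h3 : X e * (α * β) = X e * (α - r • X j0 ^ p - γ) * β + X e * (γ * β) +
        r • (X e * X j0 ^ p * β) := by
      simp only [smul_eq_C_mul]
      ring
    rw [h3]
    refine add_mem (add_mem (ann_le_perp (ann_mul_right h2 _))
      (ih p hp (by omega) _ _ (Fil_mul hγ hβ))) (smul_mem _ _ ⟨trivial, fun y hy => ?_⟩)
    rw [mul_comm]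
    exact hy p q β hβ (by omega)

theorem top {i : ℕ} {g : PR ι} (hg : g ∈ RS (insert e F.S) i) :
    X e * g ∈ (RS F.S (i + 1)).map (psi τ lam e).toLinearMap ⊔
      perp φ ⊤ (Y φ (F.S \ τ) e j0 F1.n) := by
  obtain ⟨γ, hγ, h1⟩ := C.out.E5 i g hg
  rw [C.s1, C.s2] at hγ
  have h2 : X e * g = X e * γ + X e * (g - γ) := by ring
  rw [h2]
  refine add_mem ?_ (mem_sup_right (ann_le_perp h1))
  refine Fil_le (W := ((RS F.S (i + 1)).map (psi τ lam e).toLinearMap ⊔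
    perp φ ⊤ (Y φ (F.S \ τ) e j0 F1.n)).comap (LinearMap.mulLeft ℝ (X e)))
    (fun p q α hα β hβ hp hi => ?_) hγ
  change X e * (α * β) ∈ (RS F.S (i + 1)).map (psi τ lam e).toLinearMap ⊔
    perp φ ⊤ (Y φ (F.S \ τ) e j0 F1.n)
  rcases (Nat.lt_succ_iff.1 hp).lt_or_eq with hp | rfl
  · exact mem_sup_right (C.low _ le_rfl _ _ (mem_Fil hα hβ hp hi))
  have hx : xs (τ.erase j0) ∈ RS τ F1.n := C.n1 ▸ xs_mem_RS (Finset.erase_subset _ _)
  obtain ⟨z, hz, a, ha, h⟩ := mem_sup.1 (C.simp _ hα)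
  obtain ⟨r, rfl⟩ := mem_span_singleton.1 hz
  obtain ⟨z, hz, a', ha', h'⟩ := mem_sup.1 (C.simp _ hx)
  obtain ⟨s, rfl⟩ := mem_span_singleton.1 hz
  have hs : s ≠ 0 := by
    rintro rfl
    have := C.vol1.pos (τ.erase j0) (C.k1 ▸ Finset.mem_image_of_mem _ C.hj)
    rw [← h', zero_smul, zero_add, ann_apply ha'] at this
    exact lt_irrefl _ this
  have hl : lam j0 ≠ 0 := (C.hlam _ C.hj).ne'
  obtain ⟨t, ht⟩ : ∃ t : ℝ, r = t * lam j0 * s := ⟨r / (lam j0 * s), by field_simp⟩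
  have h3 : α - (t * lam j0) • xs (τ.erase j0) = a - (t * lam j0) • a' := by
    rw [← h, ← h', ht, smul_add, smul_smul]
    abel
  obtain ⟨γ1, hγ1, h4⟩ := C.E4 (sub_mem hα (smul_mem _ (t * lam j0) hx))
    (h3 ▸ sub_mem ha (smul_mem _ _ ha'))
  obtain ⟨γ2, hγ2, h5⟩ := C.psi_tau
  have h6 : X e * (α * β) = psi τ lam e (t • (xs τ * β)) +
      (X e * (α - (t * lam j0) • xs (τ.erase j0) - γ1) * β -
        t • ((psi τ lam e (xs τ) - X e * (lam j0 • xs (τ.erase j0) + γ2)) * β) +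
        X e * ((γ1 - t • γ2) * β)) := by
    rw [map_smul, map_mul, psi_fix C.he hβ]
    simp only [smul_eq_C_mul, map_mul]
    ring
  rw [h6]
  refine add_mem_sup ⟨_, smul_mem _ _ ?_, rfl⟩ (add_mem (ann_le_perp (sub_mem
    (ann_mul_right h4 _) (smul_mem _ _ (ann_mul_right h5 _))))
    (C.low _ le_rfl _ _ (Fil_mul (sub_mem hγ1 (smul_mem _ _ hγ2)) hβ)))
  have h7 : i + 1 = τ.card + q := by
    rw [← Finset.card_erase_add_one C.hj, C.n1]; omega
  rw [h7]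
  exact mul_mem_RS (xs_mem_RS C.τS) (RS_mono Finset.sdiff_subset _ hβ)

theorem all (i : ℕ) : RS (insert e F.S) i ≤ (RS F.S i).map (psi τ lam e).toLinearMap ⊔
    perp φ ⊤ (Y φ (F.S \ τ) e j0 F1.n) := by
  induction i with
  | zero =>
    rw [RS_zero, span_le]
    rintro _ rfl
    exact mem_sup_left ⟨1, one_mem_RS, map_one (psi τ lam e)⟩
  | succ i ih =>
    refine RS_succ_le fun k hk f hf => ?_
    rcases Finset.mem_insert.1 hk with rfl | hk
    · exact C.top hf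
    obtain ⟨r, hr⟩ := psi_X (τ := τ) (lam := lam) (ne_of_mem_of_not_mem hk C.he)
    obtain ⟨_, ⟨f', hf', rfl⟩, o, ho, h⟩ := mem_sup.1 (ih hf)
    change psi τ lam e f' + o = f at h
    have h1 : X k * f = psi τ lam e (X k * f') + psi τ lam e (X k) * o - r • (X e * f) := by
      rw [map_mul, ← mul_add, h, hr]
      simp only [smul_eq_C_mul]
      ring
    rw [h1]
    refine sub_mem (add_mem_sup ⟨_, add_comm 1 i ▸ mul_mem_RS (X_mem_RS hk) hf', rfl⟩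
      ⟨trivial, fun y hy => ?_⟩) (smul_mem _ _ (C.top hf))
    obtain ⟨β, hβ, h2⟩ := C.red1 hk
    rw [mul_assoc, apply_congr h2, mul_left_comm]
    refine ho.2 _ fun u q β' hβ' hu => ?_
    rw [← hy u _ _ (mul_mem_RS hβ hβ') hu]
    congr 1
    ring

theorem le_M {M : ℕ → Submodule ℝ (PR ι)} (hG : GSub φ (HS ι) M)
    (hM : ∀ i x, x ∈ M i ↔ x ∈ RS (insert e F.S) i ∧ x ∈ Y φ (F.S \ τ) e j0 F1.n) (i : ℕ) :
    (RS F.S i).map (psi τ lam e).toLinearMap ≤ M i ∧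
      M i ≤ (RS F.S i).map (psi τ lam e).toLinearMap ⊔ ann φ := by
  have h1 : (RS F.S i).map (psi τ lam e).toLinearMap ≤ M i := by
    rintro _ ⟨f, hf, rfl⟩
    exact (hM _ _).2 ⟨psi_RS C.he hf, C.psi_Y hf⟩
  refine ⟨h1, fun x hx => ?_⟩
  obtain ⟨z, hz, o, ho, h⟩ := mem_sup.1 (C.all i ((hM _ _).1 hx).1)
  have h2 : o ∈ M i := by
    rw [eq_sub_of_add_eq' h]
    exact sub_mem hx (h1 hz)
  rw [← h]
  exact add_mem_sup hz (hG.pd i o h2 fun j y hy => ho.2 y ((hM _ _).1 hy).2)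

end Ctx

end StellarP

end Pool.Agent.P.MP_cedf91_co
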