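import Pool.Agent.P.MP_cedf91_co.An7

/-! Proof of `T1Stmt`. -/

namespace Pool.Agent.P.MP_cedf91_co

open Finset EO MvPolynomial

variable {L : Type} [Fintype L] [DecidableEq L]

theorem step_one {rk : L → ℕ} {N : ℕ} {G Z : Matrix L L P2} {η : Matrix L L ℝ}
    {K : ℝ} {r : ℕ} (hK : 1 ≤ K) (hr : 2 ≤ r) (hKr : 2 * K * Real.exp (r / 2) < 2 ^ r)
    (hη0 : 0 ≤ η) (hηU : Up rk η) (h0 : ∀ x y, Sup 0 (G x y)) (hp : ∀ x y m, 0 ≤ coeff m (G x y))
    (h2 : G = swM G * Z) (h3 : ev 1 1 Z = 1) (h4 : ∀ x y, eval ![1, 1] (pderiv 0 (Z x y)) = η x y)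
    (h5 : ∀ a b, b ≤ a → ev a b Z ≤
      ∑ s ∈ range (N + 1), (K * ((a - b) / 3) ^ s / s.factorial) • η ^ s)
    (h6 : ∀ a b, b ≤ a → 0 ≤ ev a b Z) :
    ev 5 5⁻¹ G ≤ (K * Real.exp (2 * r)) • ev 1 1 G := by
  set Gb := ev 1 1 G with hGb
  have hev : ∀ a b x y, ev a b G x y = ∑ m ∈ (G x y).support, coeff m (G x y) * (a ^ m 0 * b ^ m 1) := by
    intro a b x y
    rw [ev_apply, eval_eq']
    simp
  have hGb0 : 0 ≤ Gb := fun x y => by
    rw [hGb, hev]
    exact sum_nonneg fun m _ => mul_nonneg (hp x y m) (by positivity)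
  have hb : ∀ a : ℝ, 1 ≤ a → ev a⁻¹ a G ≤ Gb := by
    intro a ha x y
    rw [hGb, hev, hev]
    refine sum_le_sum fun m hm => mul_le_mul_of_nonneg_left ?_ (hp x y m)
    have := h0 x y (m 0) (m 1) (by rw [mo_eta]; exact mem_support_iff.1 hm)
    rw [one_pow, one_pow, mul_one, inv_pow, inv_mul_le_iff₀ (by positivity), mul_one]
    exact pow_le_pow_right₀ ha this
  have hc : ∀ a : ℝ, 1 ≤ a → ev a a⁻¹ G ≤
      ∑ s ∈ range (N + 1), (K * ((a - a⁻¹) / 3) ^ s / s.factorial) • (Gb * η ^ s) := by
    intro a ha
    have h1 : a⁻¹ ≤ a := (inv_le_one_of_one_le₀ ha).trans ha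
    conv_lhs => rw [h2]
    rw [map_mul, ev_swM]
    refine (mul_le_mul (hb a ha) (h5 a a⁻¹ h1) (h6 _ _ h1) hGb0).trans (le_of_eq ?_)
    simp only [mul_sum, mul_smul_comm]
  have hd : ∀ x y, (Gb * η) x y =
      ∑ m ∈ (G x y).support, coeff m (G x y) * ((m 0 : ℝ) - m 1) := by
    intro x y
    have e1 : ∀ i, eval ![1, 1] (pderiv i (G x y)) =
        ∑ m ∈ (G x y).support, coeff m (G x y) * m i := by
      intro i
      rw [← wn_eval _ _ (fun m => by
        rw [coeff_pderiv]; exact mul_nonneg (hp x y _) (by positivity)), wn_pderiv]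
      exact sum_congr rfl fun m _ => by simp [abs_of_nonneg (hp x y m)]
    have e2 : eval ![1, 1] (pderiv 0 (G x y)) = eval ![1, 1] (pderiv 1 (G x y)) + (Gb * η) x y := by
      conv_lhs => rw [h2]
      have e3 : ∀ z, eval ![1, 1] (pderiv 0 (sw (G x z))) = eval ![1, 1] (pderiv 1 (G x z)) := by
        intro z
        rw [← eval_sw 1 1 (pderiv 1 _), sw, ← pderiv_rename (Equiv.injective _)]
        simp
      simp only [Matrix.mul_apply, map_sum, Derivation.leibniz, smul_eq_mul, map_add, map_mul, h4,
        swM_apply, e3, eval_sw, sum_add_distrib, ← ev_apply, h3]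
      rw [add_comm]
      simp [Matrix.one_apply, hGb]
    simp only [mul_sub, sum_sub_distrib, ← e1]
    linarith
  have key : ∀ x n y, rk y = n → (Gb * η) x y ≤ r * Gb x y := by
    intro x n
    induction n using Nat.strong_induction_on with
    | _ n ih =>
      intro y hy
      have sub : ∀ s y', rk y' ≤ n → (Gb * η ^ (s + 1)) x y' ≤ r ^ s * (Gb * η) x y' := by
        intro s
        induction s with
        | zero => intro y' _; simp
        | succ s ihs =>
          intro y' hy'
          rw [pow_succ η, ← mul_assoc, Matrix.mul_apply, Matrix.mul_apply (M := Gb), mul_sum]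
          refine sum_le_sum fun z _ => ?_
          by_cases hz : η z y' = 0
          · simp [hz]
          · have := hηU z y' hz
            rw [← mul_assoc]
            refine mul_le_mul_of_nonneg_right ((ihs z (by omega)).trans ?_) (hη0 z y')
            rw [pow_succ, mul_assoc]
            exact mul_le_mul_of_nonneg_left (ih _ (by omega) z rfl) (by positivity)
      have hr0 : (2 : ℝ) ≤ r := by exact_mod_cast hr
      have a0 : 0 ≤ (Gb * η) x y := mul_nonneg hGb0 hη0 x y
      have a1 := hc 2 one_le_two x y
      rw [sum_range_succ'] at a1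
      simp only [Matrix.add_apply, Matrix.sum_apply, Matrix.smul_apply, smul_eq_mul, pow_zero,
        mul_one, Nat.factorial_zero, Nat.cast_one, div_one] at a1
      have a2 : r * ∑ s ∈ range N, K * ((2 - 2⁻¹) / 3) ^ (s + 1) / (s + 1).factorial *
          (Gb * η ^ (s + 1)) x y ≤ K * Real.exp (r / 2) * (Gb * η) x y := by
        have b1 := Real.sum_le_exp_of_nonneg (x := (r : ℝ) / 2) (by positivity) (N + 1)
        rw [sum_range_succ'] at b1
        have b2 : ∑ s ∈ range N, ((r : ℝ) / 2) ^ (s + 1) / (s + 1).factorial ≤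
            Real.exp (r / 2) := le_trans (le_add_of_nonneg_right (by positivity)) b1
        refine le_trans ?_ (mul_le_mul_of_nonneg_right
          (mul_le_mul_of_nonneg_left b2 (by linarith)) a0)
        rw [mul_sum, mul_sum, sum_mul]
        refine sum_le_sum fun s _ => ?_
        refine (mul_le_mul_of_nonneg_left (mul_le_mul_of_nonneg_left (sub s y hy.le)
          (by positivity)) (by positivity)).trans (le_of_eq ?_)
        rw [show ((2 : ℝ) - 2⁻¹) / 3 = 1 / 2 by norm_num, div_pow, div_pow]
        ring
      have a3 : 2 ^ r * (Gb x y + ((Gb * η) x y - r * Gb x y) / 2) ≤ ev 2 2⁻¹ G x y := by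
        rw [hd, hGb, hev, hev]
        simp only [one_pow, mul_one, mul_sum, ← sum_sub_distrib, sum_div, ← sum_add_distrib]
        refine sum_le_sum fun m hm => ?_
        have := h0 x y (m 0) (m 1) (by rw [mo_eta]; exact mem_support_iff.1 hm)
        obtain ⟨j, hj⟩ : ∃ j, m 0 = m 1 + j := ⟨m 0 - m 1, by omega⟩
        have b1 : (2 : ℝ) ^ m 0 * 2⁻¹ ^ m 1 = 2 ^ j := by
          rw [hj, pow_add, inv_pow]; field_simp
        have b2 : (2 : ℝ) ^ r * (1 + (j - r) / 2) ≤ 2 ^ j := by
          rcases le_total r j with h | h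
          · obtain ⟨d, rfl⟩ := Nat.exists_eq_add_of_le h
            rw [pow_add]
            refine mul_le_mul_of_nonneg_left ?_ (by positivity)
            have := one_add_mul_le_pow (a := (1 : ℝ)) (by norm_num) d
            push_cast
            norm_num at this ⊢
            linarith [Nat.cast_nonneg (α := ℝ) d]
          · obtain ⟨d, rfl⟩ := Nat.exists_eq_add_of_le h
            rw [pow_add, mul_assoc]
            refine mul_le_of_le_one_right (by positivity) ?_
            have := one_add_mul_le_pow (a := (-(1 / 2) : ℝ)) (by norm_num) d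
            have b3 : (2 : ℝ) ^ d * (1 + -(1 / 2)) ^ d = 1 := by rw [← mul_pow]; norm_num
            push_cast
            nlinarith [pow_pos (zero_lt_two (α := ℝ)) d]
        rw [b1, hj]
        push_cast
        nlinarith [mul_le_mul_of_nonneg_left b2 (hp x y m)]
      by_contra hlt
      have a4 : 0 < (Gb * η) x y - r * Gb x y := by linarith
      have a5 := hGb0 x y
      simp only [Matrix.zero_apply] at a5
      set t := (Gb * η) x y - r * Gb x y with ht
      have a6 : (Gb * η) x y = r * Gb x y + t := by linarith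
      set e := K * Real.exp (r / 2) with he
      have a7 : K ≤ e := le_mul_of_one_le_right (by linarith) (Real.one_le_exp (by positivity))
      have a8 := mul_le_mul_of_nonneg_left (a3.trans a1) (show (0 : ℝ) ≤ r by positivity)
      rw [mul_add (r : ℝ) _ (K * Gb x y)] at a8
      rw [a6] at a2
      have a9 : 2 * e < 2 ^ r := by rw [he]; linarith
      have a10 : 0 ≤ r * Gb x y := by positivity
      nlinarith [mul_le_mul_of_nonneg_left a9.le a10, mul_lt_mul_of_pos_left a9 a4,
        mul_le_mul_of_nonneg_left a7 a10, mul_le_mul_of_nonneg_left hr0 (show 0 ≤ 2 ^ r * t by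
          positivity), mul_pos a4 (show 0 < e by linarith)]
  have key2 : ∀ s : ℕ, Gb * η ^ s ≤ ((r : ℝ) ^ s) • Gb := by
    intro s
    induction s with
    | zero => simp
    | succ s ih =>
      rw [pow_succ η, ← mul_assoc]
      refine (mul_le_mul_of_nonneg_right ih hη0).trans ?_
      rw [smul_mul_assoc, pow_succ, mul_smul]
      exact smul_le_smul_of_nonneg_left (fun x y => key x _ y rfl) (by positivity)
  refine (hc 5 (by norm_num)).trans ((sum_le_sum fun s _ =>
    smul_le_smul_of_nonneg_left (key2 s) (by positivity)).trans ?_)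
  simp only [smul_smul, ← sum_smul]
  refine smul_le_smul_of_nonneg_right (le_trans ?_ (mul_le_mul_of_nonneg_left
    (Real.sum_le_exp_of_nonneg (x := 2 * (r : ℝ)) (by positivity) (N + 1)) (by linarith))) hGb0
  rw [mul_sum]
  refine sum_le_sum fun s _ => ?_
  rw [mul_pow, mul_div_assoc, mul_assoc, div_mul_eq_mul_div]
  gcongr
  norm_num

theorem t1 : T1Stmt := by
  classical
  intro K
  obtain ⟨r, hr, hKr⟩ : ∃ r : ℕ, 2 ≤ r ∧ 2 * K * Real.exp (r / 2) < 2 ^ r := by
    have b3 : Real.exp (1 / 2) < 2 := by
      have := Real.exp_one_lt_d9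
      have h2 : Real.exp (1 / 2) ^ 2 = Real.exp 1 := by rw [← Real.exp_nat_mul]; norm_num
      nlinarith [Real.exp_pos (1 / 2)]
    have h1 : 1 < 2 / Real.exp (1 / 2) := by rwa [one_lt_div (Real.exp_pos _)]
    obtain ⟨r, h2, h3⟩ := (((tendsto_pow_atTop_atTop_of_one_lt h1).eventually_gt_atTop
      (2 * K)).and (Filter.eventually_ge_atTop 2)).exists
    refine ⟨r, h3, ?_⟩
    rw [div_pow, lt_div_iff₀ (by positivity), ← Real.exp_nat_mul] at h2
    rwa [show (r : ℝ) / 2 = r * (1 / 2) by ring]
  obtain ⟨n0, hn0⟩ := rank_bound (2 * (K * Real.exp (2 * r)))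
  refine ⟨n0, fun L _ _ rk g hlt hg hfl x0 y0 hxy => ?_⟩
  have hle : ∀ x y, x ≤ y → rk x ≤ rk y := fun x y h =>
    h.eq_or_lt.elim (fun e => e ▸ le_rfl) fun h => (hlt x y h).le
  have hK : 1 ≤ K := by simpa using hfl x0 x0 le_rfl
  let S : Sys L :=
    { rk := rk
      N := univ.sup rk
      hN := fun x => le_sup (mem_univ x)
      o := fun x y => if x < y ∧ (rk y - rk x) % 2 = 1 then
        (((rk y - rk x - 1) / 2 : ℕ) + 1) * (g x y).coeff ((rk y - rk x - 1) / 2) else 0
      o_nonneg := fun x y => by
        split_ifs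
        · exact mul_nonneg (by positivity) (hg.nonneg x y _)
        · exact le_rfl
      o_par := fun x y h => by
        simp only [ne_eq, ite_eq_right_iff, Classical.not_imp] at h
        exact ⟨(rk y - rk x) / 2, by omega⟩ }
  let G : Matrix L L P2 := fun x y =>
    if x ≤ y then ((g x y).reflect (rk y - rk x)).homogenize (rk y - rk x) else 0
  let Z : Matrix L L P2 := fun x y => if x ≤ y then (X 0 - X 1) ^ (rk y - rk x) else 0
  have hGc : ∀ x y p q, coeff (mo p q) (G x y) =
      if x ≤ y ∧ p + q = rk y - rk x then (g x y).coeff q else 0 := by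
    intro x y p q
    simp only [G]
    by_cases h : x ≤ y
    · simp only [h, if_true, Polynomial.coeff_homogenize, mo_zero, mo_one, true_and]
      split_ifs with h1
      · rw [Polynomial.coeff_reflect, Polynomial.revAt_le (by omega)]
        congr 1; omega
      · rfl
    · simp [h]
  have hdeg : ∀ x y q, x ≤ y → (g x y).coeff q ≠ 0 → 2 * q ≤ rk y - rk x := by
    intro x y q h hq
    rcases h.eq_or_lt with rfl | h
    · rw [hg.self, Polynomial.coeff_one] at hq
      split_ifs at hq with h1
      · omega
      · exact absurd rfl hq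
    · have := hg.deg x y q h hq; omega
  have hGx : ∀ x, G x x = 1 := fun x => by simp [G, hg.self]
  have h1 : ∀ x y, Sup 1 ((G - 1) x y) := by
    intro x y
    by_cases h : x = y
    · subst h
      simpa [hGx] using Sup.zero 1
    · rw [Matrix.sub_apply, Matrix.one_apply_ne h, sub_zero]
      intro p q hc
      rw [hGc] at hc
      split_ifs at hc with h1
      · have := hg.deg x y q (lt_of_le_of_ne h1.1 h) hc; omega
      · exact absurd rfl hc
  have h0 : ∀ x y, Sup 0 (G x y) := fun x y => by
    have := ((h1 x y).mono (Nat.zero_le 1)).add (sup_one_apply x y)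
    rwa [Matrix.sub_apply, sub_add_cancel] at this
  have hp : ∀ x y m, 0 ≤ coeff m (G x y) := fun x y m => by
    rw [← mo_eta m, hGc]
    split_ifs
    · exact hg.nonneg _ _ _
    · exact le_rfl
  have hsw : ∀ x y, x ≤ y → sw (G x y) = (g x y).homogenize (rk y - rk x) := by
    intro x y h
    ext m
    rw [← mo_eta m, coeff_sw, hGc, Polynomial.coeff_homogenize]
    simp [h, add_comm]
  have hhom : ∀ j : ℕ, ((Polynomial.X - 1 : Polynomial ℝ) ^ j).homogenize j = (X 0 - X 1) ^ j := by
    intro j
    induction j with
    | zero => simp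
    | succ j ih =>
      rw [pow_succ, Polynomial.homogenize_mul _ _ (m := j) (n := 1)
        (Polynomial.natDegree_pow_le.trans ?_) ?_, ih, pow_succ]
      · simp [Polynomial.homogenize_X]
      · rw [← Polynomial.C_1, Polynomial.natDegree_X_sub_C, mul_one]
      · rw [← Polynomial.C_1, Polynomial.natDegree_X_sub_C]
  have h2 : G = swM G * Z := by
    refine Matrix.ext fun x y => ?_
    rw [Matrix.mul_apply]
    by_cases h : x ≤ y
    · have hrec : (g x y).reflect (rk y - rk x) = ∑ z ∈ univ.filter (fun z => x ≤ z ∧ z ≤ y),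
          g x z * (Polynomial.X - 1) ^ (rk y - rk z) := by
        rcases h.eq_or_lt with rfl | h
        · have : univ.filter (fun z => x ≤ z ∧ z ≤ x) = {x} := by
            ext z; simp [le_antisymm_iff, and_comm]
          simp [this, hg.self]
        · exact hg.recur x y h
      simp only [G, h, if_true]
      rw [hrec, Polynomial.homogenize_finsetSum, sum_filter]
      refine sum_congr rfl fun z _ => ?_
      split_ifs with hz
      · have a1 := hle _ _ hz.1
        have a2 := hle _ _ hz.2
        rw [swM_apply, hsw x z hz.1, show rk y - rk x = (rk z - rk x) + (rk y - rk z) by omega,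
          Polynomial.homogenize_mul, hhom]
        · simp [Z, hz.2]
        · rw [Polynomial.natDegree_le_iff_coeff_eq_zero]
          intro q hq
          by_contra hc
          have := hdeg x z q hz.1 hc
          omega
        · refine Polynomial.natDegree_pow_le.trans ?_
          rw [← Polynomial.C_1, Polynomial.natDegree_X_sub_C, mul_one]
      · rw [not_and_or] at hz
        rcases hz with hz | hz <;> simp [swM_apply, Z, hz]
    · simp only [G, h, if_false]
      refine (sum_eq_zero fun z _ => ?_).symm
      by_cases hz : x ≤ z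
      · have : ¬ z ≤ y := fun h' => h (hz.trans h')
        simp [Z, this]
      · simp [swM_apply, hz]
  have hD := S.G_Dd (G := G) (Z := Z) h1 h2 (fun x y => by
    simp only [Z]
    split_ifs
    · rw [Derivation.leibniz_pow]; simp
    · simp) (fun x y h => by
      by_cases hxy : x = y
      · subst hxy; simp [Z] at h
      · rw [Matrix.sub_apply, Matrix.one_apply_ne hxy, sub_zero] at h
        simp only [Z, ne_eq, ite_eq_right_iff, Classical.not_imp] at h
        exact hlt x y (lt_of_le_of_ne h.1 hxy)) (fun x y q => by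
      rw [coeff_Dd, hGc, hGc, S.coeff_Om]
      simp only [S]
      by_cases h : x ≤ y ∧ q + 1 + q = rk y - rk x
      · have hlt' : x < y := lt_of_le_of_ne h.1 (by rintro rfl; omega)
        have e : (rk y - rk x - 1) / 2 = q := by omega
        have e2 : (g x y).coeff (q + 1) = 0 := by
          by_contra hc; have := hdeg x y _ h.1 hc; omega
        rw [if_pos h, if_pos (show x < y ∧ (rk y - rk x) % 2 = 1 from ⟨hlt', by omega⟩), e, e2]
        simp [mul_comm]
      · rw [if_neg h, if_neg (by rwa [show q + (q + 1) = q + 1 + q by ring])]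
        split_ifs with h3
        · rcases lt_trichotomy q ((rk y - rk x - 1) / 2) with h4 | h4 | h4
          · rw [zero_pow (by omega)]; simp
          · exact absurd ⟨h3.1.le, by omega⟩ h
          · rw [Nat.choose_eq_zero_of_lt h4]; simp
        · simp)
  have hη0 : 0 ≤ eta rk := fun x y => by simp only [eta]; split_ifs <;> simp
  have hZ : ∀ a b x y, ev a b Z x y = if x ≤ y then (a - b) ^ (rk y - rk x) else 0 := by
    intro a b x y
    simp only [ev_apply, Z]
    split_ifs <;> simp
  have hC := step_one (rk := rk) (N := S.N) (η := eta rk) hK hr hKr hη0 (fun x y h => by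
      simp only [eta, ne_eq, ite_eq_right_iff, Classical.not_imp] at h
      omega) h0 hp h2 (by
      ext x y
      rw [hZ, Matrix.one_apply, sub_self]
      by_cases h : x = y
      · simp [h]
      · rw [if_neg h]
        split_ifs with h3
        · have := hlt x y (lt_of_le_of_ne h3 h)
          exact zero_pow (by omega)
        · rfl) (fun x y => by
      simp only [Z, eta]
      by_cases h : x ≤ y
      · rw [if_pos h, Derivation.leibniz_pow]
        split_ifs with h3
        · simp [h3.2, pderiv_X]
        · rcases h.eq_or_lt with rfl | h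
          · simp
          · have := hlt x y h
            have h4 : rk y - rk x - 1 ≠ 0 := fun h5 => h3 ⟨h, by omega⟩
            simp [h4]
      · rw [if_neg h, if_neg fun h3 => h h3.1.le]; simp) (fun a b hab x y => by
      have hterm : ∀ s ∈ range (S.N + 1),
          0 ≤ ((K * ((a - b) / 3) ^ s / s.factorial) • eta rk ^ s) x y := fun s _ =>
        smul_nonneg (by have := sub_nonneg.2 hab; positivity) (pow_nonneg hη0 s) x y
      rw [hZ, Matrix.sum_apply]
      split_ifs with h
      · refine le_trans ?_ (single_le_sum hterm (a := rk y - rk x)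
          (mem_range.2 (by have : rk y ≤ S.N := S.hN y; omega)))
        have := hfl x y h
        have h3 : 0 ≤ ((a - b) / 3) ^ (rk y - rk x) / (rk y - rk x).factorial := by
          have := sub_nonneg.2 hab; positivity
        have h4 := mul_le_mul_of_nonneg_left this h3
        simp only [Matrix.smul_apply, smul_eq_mul]
        refine le_trans (le_of_eq ?_) (h4.trans (le_of_eq (by ring)))
        rw [div_pow]
        field_simp
      · exact sum_nonneg hterm) (fun a b hab x y => by
      rw [hZ]
      have := sub_nonneg.2 hab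
      split_ifs
      · exact pow_nonneg this _
      · exact le_rfl)
  refine hn0 L S (fun x y => S.G1 h1 hD hp hC (by positivity) x y) x0 y0 _
    (by have := hle _ _ hxy; simp only [S]; omega) fun s hs => ?_
  have hηo : eta rk ≤ S.om s := by
    intro x y
    simp only [eta]
    split_ifs with h
    · have e : rk y - rk x = 1 := by omega
      have hrec := congrArg (fun P => P.coeff 1) (hg.recur x y h.1)
      have : univ.filter (fun z => x ≤ z ∧ z ≤ y) = {x, y} := by
        ext z
        simp only [mem_filter, mem_univ, true_and, mem_insert, mem_singleton]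
        refine ⟨fun hz => ?_, ?_⟩
        · by_contra h3
          rw [not_or] at h3
          have a1 := hlt _ _ (lt_of_le_of_ne hz.1 (Ne.symm h3.1))
          have a2 := hlt _ _ (lt_of_le_of_ne hz.2 h3.2)
          omega
        · rintro (rfl | rfl)
          · exact ⟨le_rfl, h.1.le⟩
          · exact ⟨h.1.le, le_rfl⟩
      have e2 : (g x y).coeff 1 = 0 := by
        by_contra hc; have := hdeg x y _ h.1.le hc; omega
      simp only [this, sum_pair h.1.ne, e, hg.self, Nat.sub_self, pow_zero, mul_one, pow_one,
        one_mul, Polynomial.coeff_add, e2, Polynomial.coeff_reflect, Polynomial.revAt_le le_rfl,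
        Polynomial.coeff_sub, Polynomial.coeff_X_one, Polynomial.coeff_one] at hrec
      simp [Sys.om, hom, S, h.1, e, hrec]
    · exact S.om_nonneg hs x y
  have h7 := pow_le_pow_left₀ hη0 hηo (rk y0 - rk x0) x0 y0
  refine lt_of_lt_of_le ?_ h7
  have h8 := hfl x0 y0 hxy
  exact (mul_pos_iff_of_pos_left (by linarith)).1 (lt_of_lt_of_le (by positivity) h8)

end Pool.Agent.P.MP_cedf91_co
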