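import Pool.Agent.P.MP_cedf91_co.Defs

/-! Package T2: a graded lattice with the diamond property and without Boolean intervals of a
given rank has many maximal chains in every interval. -/

namespace Pool.Agent.P.MP_cedf91_co

namespace T2

variable {L : Type} [Lattice L] [Fintype L] {rk : L → ℕ}

omit [Fintype L] in
theorem cov_rk (h : Graded rk) {x y : L} (c : x ⋖ y) : rk y = rk x + 1 := by
  have h1 := h.lt _ _ c.lt
  by_contra h2
  obtain ⟨z, hz1, hz2⟩ := h.mid x y c.lt (by omega)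
  exact c.2 hz1 hz2

omit [Fintype L] in
theorem cov_of (h : Graded rk) {x y : L} (l : x < y) (e : rk y ≤ rk x + 1) : x ⋖ y :=
  ⟨l, fun z h1 h2 => by have := h.lt _ _ h1; have := h.lt _ _ h2; omega⟩

omit [Fintype L] in
theorem eq_of_rk (h : Graded rk) {x y : L} (l : x ≤ y) (e : rk y ≤ rk x) : x = y := by
  by_contra hne
  have := h.lt _ _ (lt_of_le_of_ne l hne)
  omega

omit [Fintype L] in
theorem dia (h : Graded rk) {x y z : L} (c : x ⋖ y) (c' : y ⋖ z) :
    ∃ y', y' ≠ y ∧ x ⋖ y' ∧ y' ⋖ z := by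
  have h1 := cov_rk h c
  have h2 := cov_rk h c'
  obtain ⟨y', hne, h3, h4⟩ := h.two x z y c.lt c'.lt (by omega)
  have := h.lt _ _ h3
  have := h.lt _ _ h4
  exact ⟨y', hne, cov_of h h3 (by omega), cov_of h h4 (by omega)⟩

omit [Fintype L] in
theorem le_of_two (h : Graded rk) {a b z w : L} (ha : a ⋖ z) (hb : b ⋖ z) (hne : b ≠ a)
    (h1 : w ≤ a) (h2 : w ≤ b) {g : L} (hg : g ⋖ a) (hgb : g ≤ b) : w ≤ g := by
  have e1 := cov_rk h ha
  have e2 := cov_rk h hb
  rcases hg.eq_or_eq (le_inf hg.le hgb) inf_le_left with e | e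
  · rw [← e]; exact le_inf h1 h2
  · exact absurd (eq_of_rk h (inf_eq_left.1 e) (by omega)).symm hne

theorem coat (h : Graded rk) {t : L} (n : ℕ) : ∀ x y : L, rk t ≤ rk x + n → x ⋖ y → y ≤ t →
    ∃ G, G ⋖ t ∧ x ≤ G ∧ ¬ y ≤ G := by
  induction n with
  | zero => intro x y hn c l; have := h.lt _ _ (c.lt.trans_le l); omega
  | succ n ih =>
    intro x y hn c l
    rcases l.eq_or_lt with rfl | l
    · exact ⟨x, c, le_rfl, c.lt.not_ge⟩
    obtain ⟨z, cz, hz⟩ := exists_covBy_le_of_lt l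
    obtain ⟨x', hne, c1, c2⟩ := dia h c cz
    obtain ⟨G, hG, h1, h2⟩ := ih x' z (by have := cov_rk h c1; omega) c2 hz
    refine ⟨G, hG, c1.le.trans h1, fun h3 => h2 ?_⟩
    rcases cz.eq_or_eq (le_sup_left : y ≤ y ⊔ x') (sup_le cz.le c2.le) with e | e
    · exact absurd (eq_of_rk h (sup_eq_left.1 e)
        (by have := cov_rk h c; have := cov_rk h c1; omega)) hne
    · rw [← e]; exact sup_le h3 h1

theorem coatomic (h : Graded rk) {x a t : L} (hx : x ≤ t) (ha : a ≤ t) (hn : ¬ a ≤ x) :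
    ∃ G, G ⋖ t ∧ x ≤ G ∧ ¬ a ≤ G := by
  obtain ⟨y, hy, c⟩ := exists_le_covBy_of_lt (left_lt_sup.2 hn)
  obtain ⟨G, hG, h1, h2⟩ := coat h (rk t) y (x ⊔ a) (by omega) c (sup_le hx ha)
  exact ⟨G, hG, hy.trans h1, fun h3 => h2 (sup_le (hy.trans h1) h3)⟩

theorem atm (h : Graded rk) {s : L} (n : ℕ) : ∀ x y : L, rk y ≤ rk s + n → x ⋖ y → s ≤ x →
    ∃ a, s ⋖ a ∧ a ≤ y ∧ ¬ a ≤ x := by
  induction n with
  | zero => intro x y hn c l; have := h.lt _ _ (l.trans_lt c.lt); omega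
  | succ n ih =>
    intro x y hn c l
    rcases l.eq_or_lt with rfl | l
    · exact ⟨y, c, le_rfl, c.lt.not_ge⟩
    obtain ⟨z, hz, cz⟩ := exists_le_covBy_of_lt l
    obtain ⟨y', hne, c1, c2⟩ := dia h cz c
    obtain ⟨a, ha, h1, h2⟩ := ih z y' (by have := cov_rk h c2; omega) c1 hz
    exact ⟨a, ha, h1.trans c2.le, fun h3 => h2 (le_of_two h c c2 hne h3 h1 cz c1.le)⟩

theorem atomic (h : Graded rk) {s x y : L} (hx : s ≤ x) (hy : s ≤ y)
    (ha : ∀ a, s ⋖ a → a ≤ y → a ≤ x) : y ≤ x := by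
  by_contra hn
  obtain ⟨z', c', hz'⟩ := exists_covBy_le_of_lt (inf_lt_right.2 hn : x ⊓ y < y)
  obtain ⟨a, h1, h2, h3⟩ := atm h (rk z') (x ⊓ y) z' (by omega) c' (le_inf hx hy)
  exact h3 (le_inf (ha a h1 (h2.trans hz')) (h2.trans hz'))

open Classical in
/-- the atoms of an interval -/
noncomputable def ats (s t : L) : Finset L := Finset.univ.filter fun a => s ⋖ a ∧ a ≤ t

theorem mem_ats {s t a : L} : a ∈ ats s t ↔ s ⋖ a ∧ a ≤ t := by simp [ats]

theorem ats_mono {s x y : L} (l : x ≤ y) : ats s x ⊆ ats s y := fun _ ha =>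
  mem_ats.2 ⟨(mem_ats.1 ha).1, (mem_ats.1 ha).2.trans l⟩

theorem exists_miss (h : Graded rk) {s x y : L} (hx : s ≤ x) (l : x < y) :
    ∃ a, s ⋖ a ∧ a ≤ y ∧ ¬ a ≤ x := by
  by_contra hn
  push Not at hn
  exact l.not_ge (atomic h hx (hx.trans l.le) hn)

theorem rk_le_card (h : Graded rk) {s : L} (n : ℕ) : ∀ t, s ≤ t → rk t = rk s + n →
    n ≤ (ats s t).card := by
  induction n with
  | zero => intros; omega
  | succ n ih =>
    intro t l e
    have l' : s < t := lt_of_le_of_ne l (by rintro rfl; omega)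
    obtain ⟨F, hF, c⟩ := exists_le_covBy_of_lt l'
    obtain ⟨a, h1, h2, h3⟩ := exists_miss h hF c.lt
    have := ih F hF (by have := cov_rk h c; omega)
    have := Finset.card_lt_card ((Finset.ssubset_iff_of_subset (ats_mono (s := s) c.le)).2
      ⟨a, mem_ats.2 ⟨h1, h2⟩, fun h4 => h3 (mem_ats.1 h4).2⟩)
    omega

theorem claimA (h : Graded rk) {s u v : L} (hu : s ⋖ u) (hv : s ⋖ v) (huv : u ≠ v) (n : ℕ) :
    ∀ F t : L, rk t ≤ rk s + n → s ≤ F → F ⋖ t → u ≤ t → v ≤ t → ¬ u ≤ F → ¬ v ≤ F →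
    ∃ F' G w, F' ≠ F ∧ F' ⋖ t ∧ s ≤ G ∧ G ⋖ F ∧ G ⋖ F' ∧ s ⋖ w ∧ w ≤ t ∧ ¬ w ≤ F ∧ ¬ w ≤ F' := by
  induction n with
  | zero => intro F t hn l c; have := h.lt _ _ (l.trans_lt c.lt); omega
  | succ n ih =>
    intro F t hn l c ut vt uF vF
    by_contra hno
    have H : ∀ F' G w, F' ≠ F → F' ⋖ t → s ≤ G → G ⋖ F → G ⋖ F' → s ⋖ w → w ≤ t → ¬ w ≤ F →
        w ≤ F' := fun F' G w a1 a2 a3 a4 a5 a6 a7 a8 => by
      by_contra a9
      exact hno ⟨F', G, w, a1, a2, a3, a4, a5, a6, a7, a8, a9⟩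
    rcases l.eq_or_lt with rfl | l
    · have e1 := (c.eq_or_eq hu.le ut).resolve_left hu.ne'
      have e2 := (c.eq_or_eq hv.le vt).resolve_left hv.ne'
      exact huv (e1.trans e2.symm)
    obtain ⟨G', sG', cG'⟩ := exists_le_covBy_of_lt l
    obtain ⟨F', hne, c1, c2⟩ := dia h cG' c
    obtain ⟨G'', R, w, b1, b2, b3, b4, b5, b6, b7, b8, b9⟩ := ih G' F'
      (by have := cov_rk h c2; omega) sG' c1 (H F' G' u hne c2 sG' cG' c1 hu ut uF)
      (H F' G' v hne c2 sG' cG' c1 hv vt vF) (fun e => uF (e.trans cG'.le))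
      (fun e => vF (e.trans cG'.le))
    have wF : ¬ w ≤ F := fun e => b8 (le_of_two h c c2 hne e b7 cG' c1.le)
    obtain ⟨G1, d1, d2, d3⟩ := dia h b4 cG'
    obtain ⟨F1, d4, d5, d6⟩ := dia h d3 c
    have wF1 := H F1 G1 w d4 d6 (b3.trans d2.le) d3 d5 b6 (b7.trans c2.le) wF
    have r1 := cov_rk h d3
    have r2 := cov_rk h cG'
    have r3 := cov_rk h c2
    have r4 := cov_rk h d6
    have r5 := cov_rk h b4
    have r6 := cov_rk h c1
    have ne1 : F' ≠ F1 := by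
      rintro rfl
      exact d1 (eq_of_rk h (le_of_two h c c2 hne d3.le d5.le cG' c1.le) (by omega))
    have m1 : R < F' ⊓ F1 := lt_of_le_of_ne (le_inf (b4.le.trans c1.le) (d2.le.trans d5.le))
      fun e => b8 ((e ▸ le_inf b7 wF1 : w ≤ R).trans b4.le)
    have m2 : F' ⊓ F1 < F' := inf_lt_left.2 fun e => ne1 (eq_of_rk h e (by omega))
    rcases h.atMost R F' G' G'' (F' ⊓ F1) (by omega) b4.lt c1.lt b5.lt b2.lt m1 m2 with e | e | e
    · exact b1 e.symm
    · exact b8 (e ▸ le_inf b7 wF1)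
    · exact b9 (e ▸ le_inf b7 wF1)

/-- `H` is a pyramid over `G` with apex `u` -/
structure Pyr (s G H u : L) : Prop where
  le : s ≤ G
  cov : G ⋖ H
  at1 : s ⋖ u
  uH : u ≤ H
  uG : ¬ u ≤ G
  uniq : ∀ a, s ⋖ a → a ≤ H → a = u ∨ a ≤ G

open Classical in
theorem exists_pyr (h : Graded rk) {s : L} (m : ℕ) : ∀ F t : L, s ≤ F → F ⋖ t →
    (ats s t \ ats s F).card ≤ m → ∃ G H u, Pyr s G H u ∧ H ≤ t ∧ rk t ≤ rk G + m := by
  induction m with
  | zero =>
    intro F t l c hm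
    obtain ⟨a, h1, h2, h3⟩ := exists_miss h l c.lt
    have := Finset.card_pos.2 ⟨a, Finset.mem_sdiff.2
      ⟨mem_ats.2 ⟨h1, h2⟩, fun h4 : a ∈ ats s F => h3 (mem_ats.1 h4).2⟩⟩
    omega
  | succ m ih =>
    intro F t l c hm
    obtain ⟨u, h1, h2, h3⟩ := exists_miss h l c.lt
    by_cases hq : ∀ a, s ⋖ a → a ≤ t → a = u ∨ a ≤ F
    · exact ⟨F, t, u, ⟨l, c, h1, h2, h3, hq⟩, le_rfl, by have := cov_rk h c; omega⟩
    push Not at hq
    obtain ⟨v, v1, v2, v3, v4⟩ := hq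
    obtain ⟨F', G, w, b1, b2, b3, b4, b5, b6, b7, b8, b9⟩ :=
      claimA h h1 v1 v3.symm (rk t) F t (by omega) l c h2 v2 h3 v4
    have hs : ats s F' \ ats s G ⊂ ats s t \ ats s F := by
      refine (Finset.ssubset_iff_of_subset fun a ha => ?_).2 ⟨w, ?_, ?_⟩
      · simp only [Finset.mem_sdiff, mem_ats] at ha ⊢
        exact ⟨⟨ha.1.1, ha.1.2.trans b2.le⟩, fun e =>
          ha.2 ⟨e.1, le_of_two h c b2 b1 e.2 ha.1.2 b4 b5.le⟩⟩
      · simp only [Finset.mem_sdiff, mem_ats]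
        exact ⟨⟨b6, b7⟩, fun e => b8 e.2⟩
      · simp only [Finset.mem_sdiff, mem_ats]
        exact fun e => b9 e.1.2
    obtain ⟨G1, H, u1, p, p1, p2⟩ := ih G F' b3 b5 (by have := Finset.card_lt_card hs; omega)
    exact ⟨G1, H, u1, p, p1.trans b2.le, by have := cov_rk h b2; omega⟩

theorem Pyr.atoms (h : Graded rk) {s G H u K a : L} (p : Pyr s G H u) (sK : s ≤ K) (KG : K ≤ G)
    (ha : s ⋖ a) (l : a ≤ K ⊔ u) : a = u ∨ a ≤ K := by
  refine (p.uniq a ha (l.trans (sup_le (KG.trans p.cov.le) p.uH))).imp_right fun aG => ?_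
  by_contra hn
  obtain ⟨G1, c, h1, h2⟩ := coatomic h KG aG hn
  obtain ⟨G2, hne, c1, c2⟩ := dia h c p.cov
  have uG2 : u ≤ G2 := by
    by_contra hu
    refine hne (eq_of_rk h (atomic h p.le ((sK.trans h1).trans c1.le) fun b hb hb2 => ?_)
      (by have := cov_rk h c; have := cov_rk h c1; omega))
    exact (p.uniq b hb (hb2.trans c2.le)).resolve_left fun e => hu (e ▸ hb2)
  exact h2 (le_of_two h p.cov c2 hne aG (l.trans (sup_le (h1.trans c1.le) uG2)) c c1.le)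

open Classical in
theorem Pyr.ats_sup (h : Graded rk) {s G H u K : L} (p : Pyr s G H u) (sK : s ≤ K) (KG : K ≤ G) :
    ats s (K ⊔ u) = insert u (ats s K) := by
  ext a
  simp only [Finset.mem_insert, mem_ats]
  refine ⟨fun ha => (p.atoms h sK KG ha.1 ha.2).imp_right fun e => ⟨ha.1, e⟩, ?_⟩
  rintro (rfl | ha)
  · exact ⟨p.at1, le_sup_right⟩
  · exact ⟨ha.1, ha.2.trans le_sup_left⟩

theorem Pyr.cov_sup (h : Graded rk) {s G H u K : L} (p : Pyr s G H u) (sK : s ≤ K) (KG : K ≤ G) :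
    K ⋖ K ⊔ u := by
  refine ⟨left_lt_sup.2 fun e => p.uG (e.trans KG), fun z h1 h2 => ?_⟩
  refine h1.not_ge (atomic h sK (sK.trans h1.le) fun a ha ha2 => ?_)
  refine (p.atoms h sK KG ha (ha2.trans h2.le)).resolve_left fun e => ?_
  exact h2.not_ge (sup_le h1.le (e ▸ ha2))

/-- Boolean faces -/
def Boo (rk : L → ℕ) (s K : L) (j : ℕ) : Prop :=
  s ≤ K ∧ rk K = rk s + j ∧ (ats s K).card = j ∧
    ∀ S ⊆ ats s K, ∃ x, s ≤ x ∧ x ≤ K ∧ ats s x = S

theorem exists_boo (h : Graded rk) {s : L} (n : ℕ) : ∀ (t : L) (j : ℕ), rk t ≤ rk s + n → s ≤ t →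
    (ats s t).card + 12 * j + 4 * rk s ≤ 4 * rk t → ∃ K, Boo rk s K j ∧ K ≤ t := by
  classical
  have base : ∀ t, s ≤ t → ∃ K, Boo rk s K 0 ∧ K ≤ t := fun t l => by
    have e : ats s s = ∅ := Finset.eq_empty_of_forall_notMem fun a ha =>
      (mem_ats.1 ha).1.lt.not_ge (mem_ats.1 ha).2
    refine ⟨s, ⟨le_rfl, rfl, by rw [e]; rfl, fun S hS => ⟨s, le_rfl, le_rfl, ?_⟩⟩, l⟩
    rw [e] at hS ⊢
    exact (Finset.subset_empty.1 hS).symm
  induction n with
  | zero =>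
    intro t j hn l hc
    obtain rfl : j = 0 := by omega
    exact base t l
  | succ n ih =>
    intro t j hn l hc
    rcases j with _ | j
    · exact base t l
    have l' : s < t := lt_of_le_of_ne l (by rintro rfl; omega)
    obtain ⟨F, hF, c⟩ := exists_le_covBy_of_lt l'
    have r1 := cov_rk h c
    by_cases hm : (ats s t \ ats s F).card ≤ 3
    · obtain ⟨G, H, u, p, p1, p2⟩ := exists_pyr h 3 F t hF c hm
      have Gt : G < t := p.cov.lt.trans_le p1
      have r2 := h.lt _ _ Gt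
      have r3 := Finset.card_le_card (ats_mono (s := s) Gt.le)
      obtain ⟨K, ⟨k1, k2, k3, k4⟩, KG⟩ := ih G j (by omega) p.le (by omega)
      have uK : u ∉ ats s K := fun e => p.uG ((mem_ats.1 e).2.trans KG)
      refine ⟨K ⊔ u, ⟨k1.trans le_sup_left, ?_, ?_, fun S hS => ?_⟩,
        (sup_le (KG.trans p.cov.le) p.uH).trans p1⟩
      · have := cov_rk h (p.cov_sup h k1 KG); omega
      · rw [p.ats_sup h k1 KG, Finset.card_insert_of_notMem uK, k3]
      · rw [p.ats_sup h k1 KG] at hS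
        obtain ⟨x, x1, x2, x3⟩ := k4 (S.erase u) (Finset.subset_insert_iff.1 hS)
        by_cases hu : u ∈ S
        · refine ⟨x ⊔ u, x1.trans le_sup_left, sup_le_sup_right x2 u, ?_⟩
          rw [p.ats_sup h x1 (x2.trans KG), x3, Finset.insert_erase hu]
        · exact ⟨x, x1, x2.trans le_sup_left, by rw [x3, Finset.erase_eq_of_notMem hu]⟩
    · have r2 := Finset.card_sdiff_add_card_eq_card (ats_mono (s := s) c.le)
      obtain ⟨K, hK, KF⟩ := ih F (j + 1) (by omega) hF (by omega)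
      exact ⟨K, hK, KF.trans c.le⟩

theorem Boo.iso (h : Graded rk) {s K : L} {j : ℕ} (b : Boo rk s K j) :
    Nonempty (Set.Icc s K ≃o Finset (Fin j)) := by
  classical
  obtain ⟨k1, -, k3, k4⟩ := b
  let e := (Finset.equivFinOfCardEq k3).symm
  let f : Set.Icc s K → Finset (Fin j) := fun x => Finset.univ.filter fun i => (e i : L) ≤ x.1
  have hf : ∀ x i, i ∈ f x ↔ (e i : L) ≤ x.1 := fun x i => by simp [f]
  have h1 : ∀ x y, f x ≤ f y ↔ x ≤ y := fun x y => by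
    refine ⟨fun l => ?_, fun l i hi => (hf y i).2 (((hf x i).1 hi).trans l)⟩
    refine atomic h y.2.1 x.2.1 fun a ha ha2 => ?_
    have := (hf y _).1 (l ((hf x (e.symm ⟨a, mem_ats.2 ⟨ha, ha2.trans x.2.2⟩⟩)).2 (by simpa)))
    simpa using this
  refine ⟨RelIso.ofSurjective (OrderEmbedding.ofMapLEIff f h1) fun T => ?_⟩
  obtain ⟨x, x1, x2, x3⟩ := k4 (T.image fun i => (e i : L)) fun a ha => by
    obtain ⟨i, -, rfl⟩ := Finset.mem_image.1 ha
    exact (e i).2
  refine ⟨⟨x, x1, x2⟩, Finset.ext fun i => (hf _ i).trans ?_⟩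
  have h2 : (e i : L) ≤ x ↔ (e i : L) ∈ ats s x :=
    ⟨fun l => mem_ats.2 ⟨(mem_ats.1 (e i).2).1, l⟩, fun l => (mem_ats.1 l).2⟩
  rw [h2, x3]
  exact (Subtype.val_injective.comp e.injective).mem_finset_image

open Classical in
theorem eta_pow_nonneg (n : ℕ) : ∀ x y : L, 0 ≤ (eta rk ^ n) x y := by
  induction n with
  | zero => intro x y; rw [pow_zero, Matrix.one_apply]; split_ifs <;> norm_num
  | succ n ih =>
    intro x y
    rw [pow_succ', Matrix.mul_apply]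
    refine Finset.sum_nonneg fun z _ => mul_nonneg ?_ (ih z y)
    unfold eta; split_ifs <;> norm_num

open Classical in
theorem flags (h : Graded rk) {r : ℕ}
    (hr : ∀ x y n, x ≤ y → rk y = rk x + n → r < n → 3 * n ≤ (ats x y).card) (n : ℕ) :
    ∀ x y : L, x ≤ y → rk y = rk x + n →
      (n.factorial : ℝ) * 3 ^ (n - r) ≤ (eta rk ^ n) x y := by
  induction n with
  | zero =>
    intro x y l e
    obtain rfl := eq_of_rk h l e.le
    simp
  | succ n ih =>
    intro x y l e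
    rw [pow_succ', Matrix.mul_apply]
    have h1 : ((ats x y).card : ℝ) * (n.factorial * 3 ^ (n - r)) ≤
        ∑ z ∈ ats x y, eta rk x z * (eta rk ^ n) z y := by
      rw [← nsmul_eq_mul]
      refine Finset.card_nsmul_le_sum _ _ _ fun z hz => ?_
      obtain ⟨c, l'⟩ := mem_ats.1 hz
      have r1 := cov_rk h c
      rw [eta, if_pos ⟨c.lt, r1⟩, one_mul]
      exact ih z y l' (by omega)
    refine le_trans ?_ (h1.trans (Finset.sum_le_sum_of_subset_of_nonneg (Finset.subset_univ _)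
      fun z _ _ => mul_nonneg ?_ (eta_pow_nonneg n z y)))
    · rw [Nat.factorial_succ]
      push_cast
      rcases le_or_gt (n + 1) r with hn | hn
      · have h2 : ((n + 1 : ℕ) : ℝ) ≤ (ats x y).card := by exact_mod_cast rk_le_card h _ y l e
        rw [show n + 1 - r = n - r by omega, mul_assoc]
        push_cast at h2
        gcongr
      · have h2 : ((3 * (n + 1) : ℕ) : ℝ) ≤ (ats x y).card := by
          exact_mod_cast hr x y _ l e hn
        rw [show n + 1 - r = n - r + 1 by omega, pow_succ]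
        push_cast at h2
        calc _ = (3 * ((n : ℝ) + 1)) * (n.factorial * 3 ^ (n - r)) := by ring
          _ ≤ _ := by gcongr
    · unfold eta; split_ifs <;> norm_num

end T2

theorem t2 : T2Stmt := by
  intro k
  refine ⟨3 ^ (12 * (k + 1)), fun L _ _ rk h hb x y l => ?_⟩
  have hle : rk x ≤ rk y := by
    rcases l.eq_or_lt with rfl | l
    · exact le_rfl
    · exact (h.lt _ _ l).le
  have h1 := T2.flags h (r := 12 * (k + 1)) (fun x y n l e hn => ?_) (rk y - rk x) x y l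
    (by omega)
  · refine le_trans ?_ (mul_le_mul_of_nonneg_left h1 (by positivity))
    rw [mul_left_comm, ← pow_add]
    gcongr
    · norm_num
    · omega
  · by_contra hc
    obtain ⟨K, b, -⟩ := T2.exists_boo h n y (k + 1) e.le l (by omega)
    exact (hb x K b.1 b.2.1).false (b.iso h).some

end Pool.Agent.P.MP_cedf91_co
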