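import Pool.Agent.P.MP_cedf91_co.KFan

/-! Weak Lefschetz from the links of the vertices, and deformation of the ample class. -/

namespace Pool.Agent.P.MP_cedf91_co

open Submodule Filter Topology MvPolynomial

namespace WLP

variable {ι : Type} [DecidableEq ι]

/-- The fan of a point. -/
def pt (ι : Type) : Fan ι := ⟨∅, ⊥, {∅}, 0⟩

/-- The link of a vertex. -/
def lk (F : Fan ι) (k : ι) : Fan ι where
  S := F.S.erase k
  Θ := F.Θ ⊓ LinearMap.ker (LinearMap.proj k : (ι → ℝ) →ₗ[ℝ] ℝ)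
  K := (F.K.filter fun σ => k ∈ σ).image fun σ => σ.erase k
  n := F.n - 1

theorem mem_lkΘ {F : Fan ι} {k : ι} {θ : ι → ℝ} : θ ∈ (lk F k).Θ ↔ θ ∈ F.Θ ∧ θ k = 0 := Iff.rfl

theorem mem_lkK {F : Fan ι} {k : ι} {τ : Finset ι} :
    τ ∈ (lk F k).K ↔ ∃ σ ∈ F.K, k ∈ σ ∧ σ.erase k = τ := by
  simp only [lk, Finset.mem_image, Finset.mem_filter, and_assoc]

theorem pt_good : (pt ι).Good where
  ne := ⟨∅, Finset.mem_singleton_self _⟩
  sub := fun σ hσ => by rw [Finset.mem_singleton.1 hσ]; exact Finset.empty_subset _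
  card := fun σ hσ => by rw [Finset.mem_singleton.1 hσ]; rfl
  inj := fun _ _ _ hθ _ => (Submodule.mem_bot ℝ).1 hθ
  surj := fun σ hσ c => ⟨0, Submodule.zero_mem _, fun k hk => by
    rw [Finset.mem_singleton.1 hσ] at hk; exact absurd hk (Finset.notMem_empty _)⟩
  nbr := fun σ hσ k hk => by
    rw [Finset.mem_singleton.1 hσ] at hk; exact absurd hk (Finset.notMem_empty _)

omit [DecidableEq ι] in
theorem pt_ample (b : ι → ℝ) : (pt ι).Ample b :=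
  fun _ _ _ _ _ _ hj _ => absurd hj (Finset.notMem_empty _)

variable {F : Fan ι}

theorem lk_good (h : F.Good) {k : ι} {σ0 : Finset ι} (h0 : σ0 ∈ F.K) (hk : k ∈ σ0) :
    (lk F k).Good where
  ne := ⟨σ0.erase k, mem_lkK.2 ⟨σ0, h0, hk, rfl⟩⟩
  sub := fun τ hτ => by
    obtain ⟨σ, hσ, -, rfl⟩ := mem_lkK.1 hτ
    exact Finset.erase_subset_erase k (h.sub σ hσ)
  card := fun τ hτ => by
    obtain ⟨σ, hσ, hkσ, rfl⟩ := mem_lkK.1 hτ
    rw [Finset.card_erase_of_mem hkσ, h.card σ hσ]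
    rfl
  inj := fun τ hτ θ hθ hz => by
    obtain ⟨σ, hσ, -, rfl⟩ := mem_lkK.1 hτ
    refine h.inj σ hσ θ hθ.1 fun j hj => ?_
    by_cases hjk : j = k
    · rw [hjk]; exact hθ.2
    · exact hz j (Finset.mem_erase.2 ⟨hjk, hj⟩)
  surj := fun τ hτ c => by
    obtain ⟨σ, hσ, hkσ, rfl⟩ := mem_lkK.1 hτ
    obtain ⟨θ, hθ, hc⟩ := h.surj σ hσ (Function.update c k 0)
    refine ⟨θ, mem_lkΘ.2 ⟨hθ, by rw [hc k hkσ, Function.update_self]⟩, fun j hj => ?_⟩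
    rw [Finset.mem_erase] at hj
    rw [hc j hj.2, Function.update_of_ne hj.1]
  nbr := fun τ hτ j hj => by
    obtain ⟨σ, hσ, hkσ, rfl⟩ := mem_lkK.1 hτ
    rw [Finset.mem_erase] at hj
    obtain ⟨σ', hσ', h1, h2⟩ := h.nbr σ hσ j hj.2
    refine ⟨σ'.erase k, mem_lkK.2 ⟨σ', hσ', h2 (Finset.mem_erase.2 ⟨hj.1.symm, hkσ⟩), rfl⟩,
      fun h3 => h1 (Finset.mem_of_mem_erase h3), fun l hl => ?_⟩
    rw [Finset.mem_erase, Finset.mem_erase] at hl
    exact Finset.mem_erase.2 ⟨hl.2.1, h2 (Finset.mem_erase.2 ⟨hl.1, hl.2.2⟩)⟩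

theorem lk_ample {b θ0 : ι → ℝ} (hb : F.Ample b) {k : ι} (h0 : θ0 ∈ F.Θ) (hk : θ0 k = b k) :
    (lk F k).Ample (b - θ0) := by
  intro τ hτ θ hθ hz j hj hjτ
  obtain ⟨σ, hσ, -, rfl⟩ := mem_lkK.1 hτ
  have hj' := Finset.mem_erase.1 hj
  have h1 := hb σ hσ (θ + θ0) (F.Θ.add_mem hθ.1 h0) (fun l hl => by
    by_cases hlk : l = k
    · have h2 : θ k = 0 := hθ.2
      rw [hlk, Pi.add_apply, h2, hk, zero_add]
    · rw [Pi.add_apply, hz l (Finset.mem_erase.2 ⟨hlk, hl⟩), Pi.sub_apply, sub_add_cancel])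
    j hj'.2 fun h3 => hjτ (Finset.mem_erase.2 ⟨hj'.1, h3⟩)
  rw [Pi.add_apply] at h1
  rw [Pi.sub_apply]
  linarith

theorem lk_bundle (h : F.Good) {k : ι} {σ0 : Finset ι} (h0 : σ0 ∈ F.K) (hk : k ∈ σ0) :
    Bundle F (pt ι) (lk F k) k where
  he := h.sub σ0 h0 hk
  s1 := Finset.empty_subset _
  s2 := Finset.erase_subset _ _
  e1 := Finset.notMem_empty _
  e2 := Finset.notMem_erase _ _
  disj := Finset.disjoint_empty_left _
  dim := by
    have h1 := Finset.card_pos.2 ⟨k, hk⟩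
    rw [h.card σ0 h0] at h1
    change F.n = 0 + (F.n - 1) + 1
    omega
  fac := fun σ => by
    constructor
    · rintro ⟨hσ, hkσ⟩
      refine ⟨∅, Finset.mem_singleton_self _, σ.erase k, mem_lkK.2 ⟨σ, hσ, hkσ, rfl⟩, ?_⟩
      rw [Finset.empty_union, Finset.insert_erase hkσ]
    · rintro ⟨σ1, h1, σ2, h2, rfl⟩
      obtain ⟨σ, hσ, hkσ, rfl⟩ := mem_lkK.1 h2
      rw [Finset.mem_singleton.1 h1, Finset.empty_union, Finset.insert_erase hkσ]
      exact ⟨hσ, hkσ⟩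
  B1 := fun θ hθ => ⟨θ, hθ.1, hθ.2, fun j hj => absurd hj (Finset.notMem_empty _), fun _ _ => rfl⟩
  B2 := fun _ _ => ⟨0, F.Θ.zero_mem, rfl, fun j hj => absurd hj (Finset.notMem_empty _)⟩

omit [DecidableEq ι] in
theorem fil_le (S : Finset ι) (i : ℕ) : Fil (∅ : Finset ι) S (0 + 1) i ≤ RS S i := by
  refine span_le.2 ?_
  rintro _ ⟨p, q, α, hα, β, hβ, -, rfl, rfl⟩
  exact mul_mem_RS (RS_mono (Finset.empty_subset S) p hα) hβ

omit [DecidableEq ι] in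
theorem lin_sub (S : Finset ι) (b c : ι → ℝ) : lin S (b - c) = lin S b - lin S c := by
  simp only [lin, Pi.sub_apply, sub_smul, Finset.sum_sub_distrib]

omit [DecidableEq ι] in
theorem lin_comb (S : Finset ι) (s t : ℝ) (b c : ι → ℝ) :
    s • lin S b + t • lin S c = lin S (s • b + t • c) := by
  simp only [lin, Pi.add_apply, Pi.smul_apply, smul_eq_mul, add_smul, mul_smul,
    Finset.sum_add_distrib, Finset.smul_sum]

theorem ample_comb (h : F.Good) {b0 b1 : ι → ℝ} (h0 : F.Ample b0) (h1 : F.Ample b1) {t : ℝ}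
    (ht : t ∈ Set.Icc (0 : ℝ) 1) : F.Ample ((1 - t) • b0 + t • b1) := by
  intro σ hσ θ hθ hz j hj hjσ
  have e : θ = (1 - t) • F.lift σ b0 + t • F.lift σ b1 :=
    h.ext hσ hθ (F.Θ.add_mem (F.Θ.smul_mem _ (h.lift_mem hσ b0))
      (F.Θ.smul_mem _ (h.lift_mem hσ b1))) fun k hk => by
        simp only [hz k hk, Pi.add_apply, Pi.smul_apply, h.lift_eq hσ _ hk]
  have a0 := h.lift_lt h0 hσ hj hjσ
  have a1 := h.lift_lt h1 hσ hj hjσ
  rw [e]
  simp only [Pi.add_apply, Pi.smul_apply, smul_eq_mul]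
  rcases eq_or_lt_of_le ht.1 with h2 | h2
  · rw [← h2]
    linarith
  · nlinarith [mul_nonneg (sub_nonneg.2 ht.2) (sub_pos.2 a0).le, mul_pos h2 (sub_pos.2 a1)]

/-- A positive representative of a positive multiple of an ample class. -/
theorem exists_pos (h : F.Good) {b : ι → ℝ} (hb : F.Ample b) :
    ∃ (m : ℝ) (θ : ι → ℝ), θ ∈ F.Θ ∧ ∀ j ∈ F.S, 0 < (m • b - θ) j := by
  refine ⟨F.K.card, ∑ σ ∈ F.K, F.lift σ b, Submodule.sum_mem _ fun σ hσ => h.lift_mem hσ b,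
    fun j hj => ?_⟩
  have e : ((F.K.card : ℝ) • b - ∑ σ ∈ F.K, F.lift σ b) j = ∑ σ ∈ F.K, (b j - F.lift σ b j) := by
    simp [Finset.sum_sub_distrib, Finset.sum_apply]
  rw [e]
  obtain ⟨σ1, h1, hj1⟩ : ∃ σ ∈ F.K, j ∉ σ := by
    obtain ⟨σ0, h0⟩ := h.ne
    by_cases hj0 : j ∈ σ0
    · obtain ⟨σ', h2, h3, -⟩ := h.nbr σ0 h0 j hj0
      exact ⟨σ', h2, h3⟩
    · exact ⟨σ0, h0, hj0⟩
  refine Finset.sum_pos' (fun σ hσ => ?_) ⟨σ1, h1, sub_pos.2 (h.lift_lt hb h1 hj hj1)⟩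
  by_cases hjσ : j ∈ σ
  · rw [h.lift_eq hσ b hjσ, sub_self]
  · exact (sub_pos.2 (h.lift_lt hb hσ hj hjσ)).le

/-- The contribution of one vertex. -/
theorem vertex (HL : LefLib) (HV : FanVolStmt) (HJ : FanJLib) (HB : BundleStmt)
    (HM : ∀ m < F.n, McM ι m) (h : F.Good) {φ : PR ι →ₗ[ℝ] ℝ} (hφ : F.IsVol φ) {b : ι → ℝ}
    (hb : F.Ample b) {i N : ℕ} (hn : F.n = 2 * i + N + 1) {x : PR ι} (hx : x ∈ RS F.S i)
    (hl : lin F.S b ^ (N + 1) * x ∈ ann φ) (k : ι) :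
    0 ≤ (-1) ^ i * φ (X k * (lin F.S b ^ N * x * x)) ∧
      ((-1) ^ i * φ (X k * (lin F.S b ^ N * x * x)) = 0 → X k * x ∈ ann φ) := by
  by_cases hg : ∃ σ ∈ F.K, k ∈ σ
  swap
  · have h1 : (X k : PR ι) ∈ ann φ := by
      have h2 := hφ.nonface {k} fun σ hσ hs => hg ⟨σ, hσ, hs (Finset.mem_singleton_self k)⟩
      rwa [xs, Finset.prod_singleton] at h2
    rw [h1]
    exact ⟨by simp, fun _ => ann_mul_right h1 x⟩
  obtain ⟨σ0, h0, hk⟩ := hg
  have hkS : k ∈ F.S := h.sub σ0 h0 hk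
  have g2 := lk_good h h0 hk
  have a2 := lk_ample hb (h.lift_mem h0 b) (h.lift_eq h0 b hk)
  obtain ⟨φ1, v1⟩ := HV (pt_good (ι := ι)) (pt_ample b)
  obtain ⟨φ2, v2⟩ := HV g2 a2
  obtain ⟨c, B⟩ := HB (lk_bundle h h0 hk) h pt_good g2 (pt_ample b) a2 hφ v1 v2
  have hn2 : (lk F k).n = 2 * i + N := by
    change F.n - 1 = _
    omega
  have hnum := HM (lk F k).n (by omega) (lk F k) rfl g2 _ a2 φ2 v2
  set ℓ := lin F.S b with hℓ
  set ℓ2 := lin (lk F k).S (b - F.lift σ0 b) with hℓ2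
  have hℓ2m : ℓ2 ∈ RS (lk F k).S 1 := lin_mem_RS le_rfl _
  have hd : ℓ - ℓ2 ∈ ann φ := by
    have e1 : lin F.S (b - F.lift σ0 b) = ℓ2 := by
      rw [hℓ2, lin, ← Finset.add_sum_erase _ _ hkS, Pi.sub_apply, h.lift_eq h0 b hk, sub_self,
        zero_smul, zero_add]
      rfl
    rw [← e1, lin_sub, ← hℓ, sub_sub_cancel]
    exact hφ.theta _ (h.lift_mem h0 b)
  obtain ⟨γ, hγ, hxγ⟩ := B.E5 i x hx
  have hγ2 : γ ∈ RS (lk F k).S i := fil_le _ _ hγ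
  have hc1 : 0 < c * φ1 1 := by
    have h1 := v1.pos ∅ (Finset.mem_singleton_self _)
    rw [xs, Finset.prod_empty] at h1
    exact mul_pos B.hc h1
  have E2 : ∀ q, ∀ β ∈ RS (lk F k).S q, φ (X k * β) = c * φ1 1 * φ2 β := fun q β hβ => by
    have h1 := B.E2 q 1 one_mem_RS β hβ
    rwa [mul_one] at h1
  have tr : ∀ (m : ℕ) (y : PR ι), φ (X k * (ℓ2 ^ m * γ * y)) = φ (X k * (ℓ ^ m * x * y)) := by
    intro m y
    obtain ⟨w, hw⟩ := sub_dvd_pow_sub_pow ℓ ℓ2 m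
    have e : X k * (ℓ ^ m * x * y) = X k * (ℓ2 ^ m * γ * y) + (ℓ - ℓ2) * (w * X k * x * y)
        + X k * (x - γ) * (ℓ2 ^ m * y) := by
      linear_combination (X k * x * y) * hw
    rw [e, map_add, map_add, hd, hxγ, add_zero, add_zero]
  have hprim : ℓ2 ^ ((lk F k).n - 2 * i + 1) * γ ∈ ann φ2 := by
    have e : (lk F k).n - 2 * i + 1 = N + 1 := by omega
    rw [e]
    have hm := mul_mem_RS (pow_mem_RS hℓ2m (N + 1)) hγ2
    refine (HJ.gsub g2 a2 v2).pd _ _ hm fun j y hy => ?_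
    have h1 := E2 _ _ (mul_mem_RS hm hy)
    have h2 : X k * (ℓ ^ (N + 1) * x * y) = ℓ ^ (N + 1) * x * (X k * y) := by ring
    rw [tr, h2, hl] at h1
    exact (mul_eq_zero.1 h1.symm).resolve_left hc1.ne'
  have hstab : Stab (RS (lk F k).S) ℓ2 := fun j y hy => by
    rw [add_comm]
    exact mul_mem_RS hℓ2m hy
  obtain ⟨p1, p2⟩ := HL.prim hstab hnum (by omega) hγ2 hprim
  have e : (-1) ^ i * φ (X k * (ℓ ^ N * x * x))
      = c * φ1 1 * φ2 (wt ℓ2 (lk F k).n i * γ ^ 2) := by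
    have e1 : (lk F k).n - 2 * i = N := by omega
    have e2 : X k * (ℓ ^ N * x * x) = X k * (ℓ ^ N * x * γ) + X k * (x - γ) * (ℓ ^ N * x) := by
      ring
    rw [e2, map_add, hxγ, add_zero, ← tr,
      E2 _ _ (mul_mem_RS (mul_mem_RS (pow_mem_RS hℓ2m N) hγ2) hγ2), wt, e1, smul_mul_assoc,
      map_smul, smul_eq_mul, pow_two, mul_assoc (ℓ2 ^ N)]
    ring
  rw [e]
  refine ⟨mul_nonneg hc1.le p1, fun h1 => ?_⟩
  have h2 := B.E3 i γ hγ2 (p2 ((mul_eq_zero.1 h1).resolve_left hc1.ne'))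
  have e3 : X k * x = X k * γ + X k * (x - γ) := by ring
  rw [e3]
  exact (ann φ).add_mem h2 hxγ

theorem nondeg (HL : LefLib) (HV : FanVolStmt) (HJ : FanJLib) (HB : BundleStmt)
    (HM : ∀ m < F.n, McM ι m) (h : F.Good) {φ : PR ι →ₗ[ℝ] ℝ} (hφ : F.IsVol φ) {b : ι → ℝ}
    (hb : F.Ample b) {i : ℕ} (hi : 2 * i ≤ F.n) :
    Nondeg φ (wt (lin F.S b) F.n i) (RS F.S i) := by
  intro x hx hrad
  have G := HJ.gsub h hb hφ
  have hℓ : lin F.S b ∈ RS F.S 1 := lin_mem_RS le_rfl b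
  have hl : lin F.S b ^ (F.n - 2 * i) * x ∈ ann φ := by
    have hm := mul_mem_RS (pow_mem_RS hℓ (F.n - 2 * i)) hx
    refine G.pd _ _ hm fun j y hy => ?_
    by_cases hj : j = i
    · have h1 := hrad y (hj ▸ hy)
      rw [wt, smul_mul_assoc, smul_mul_assoc, map_smul, smul_eq_mul] at h1
      exact (mul_eq_zero.1 h1).resolve_left (pow_ne_zero _ (by norm_num))
    · exact hφ.deg _ (by omega) _ (RS_le_HS _ (mul_mem_RS hm hy))
  rcases Nat.eq_zero_or_pos (F.n - 2 * i) with h0 | h0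
  · rwa [h0, pow_zero, one_mul] at hl
  obtain ⟨N, hN⟩ : ∃ N, F.n - 2 * i = N + 1 := ⟨F.n - 2 * i - 1, by omega⟩
  rw [hN] at hl
  have hv := vertex HL HV HJ HB HM h hφ hb (i := i) (N := N) (by omega) hx hl
  obtain ⟨m, θ, hθ, hpos⟩ := exists_pos h hb
  have hsum : ∑ k ∈ F.S, (m • b - θ) k * ((-1) ^ i * φ (X k * (lin F.S b ^ N * x * x))) = 0 := by
    have e1 : ∑ k ∈ F.S, (m • b - θ) k * ((-1) ^ i * φ (X k * (lin F.S b ^ N * x * x)))
        = (-1) ^ i * φ (lin F.S (m • b - θ) * (lin F.S b ^ N * x * x)) := by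
      rw [lin.eq_1 F.S (m • b - θ), Finset.sum_mul, map_sum, Finset.mul_sum]
      refine Finset.sum_congr rfl fun k _ => ?_
      rw [smul_mul_assoc, map_smul, smul_eq_mul]
      ring
    have e2 : lin F.S (m • b) = m • lin F.S b := by
      simp only [lin, Pi.smul_apply, smul_eq_mul, mul_smul, Finset.smul_sum]
    have e3 : lin F.S b * (lin F.S b ^ N * x * x) = lin F.S b ^ (N + 1) * x * x := by ring
    rw [e1, lin_sub, e2, sub_mul, map_sub, hφ.theta θ hθ, smul_mul_assoc, map_smul, e3, hl]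
    simp
  have hz := (Finset.sum_eq_zero_iff_of_nonneg fun k hk =>
    mul_nonneg (hpos k hk).le (hv k).1).1 hsum
  have hX : ∀ k ∈ F.S, X k * x ∈ ann φ := fun k hk =>
    (hv k).2 ((mul_eq_zero.1 (hz k hk)).resolve_left (hpos k hk).ne')
  refine G.pd i x hx fun j y hy => ?_
  rcases j with _ | j
  · exact hφ.deg _ (by omega) _ (RS_le_HS _ (mul_mem_RS hx hy))
  · have h1 : RS F.S (j + 1) ≤ LinearMap.ker (φ ∘ₗ LinearMap.mulLeft ℝ x) :=
      RS_succ_le fun k hk f _ => by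
        have e : x * (X k * f) = X k * x * f := by ring
        rw [LinearMap.mem_ker, LinearMap.comp_apply, LinearMap.mulLeft_apply, e]
        exact hX k hk f
    exact h1 hy

end WLP

open WLP

theorem wl (HL : LefLib) (HV : FanVolStmt) (HJ : FanJLib) (HB : BundleStmt) : WLStmt := by
  intro ι _ F b0 b1 φ HM h hφ h0 h1 hnum
  refine HL.deform (fun t ht i hi => ?_) hnum
  rw [lin_comb]
  exact nondeg HL HV HJ HB HM h hφ (ample_comb h h0 h1 ht) hi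

end Pool.Agent.P.MP_cedf91_co
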